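import Mathlib
import Pool.Agent.Work.MP_56b8f5_nt.UB.Defs

/-!
MP_56b8f5_nt (eighth moment of the Riemann zeta function), block UC: definitions.

Goal: there is `σ₀ < 5/8` such that for every `σ ∈ (σ₀, 1)`, with some `c > 0`,
`∫_1^T |ζ(σ+it)|^8 dt = T ∑ d_4(n)² n^(-2σ) + O(T^(1-c))`.  Notes 4097, 4098 contain the overview.
-/

open MeasureTheory Set Filter Topology

noncomputable section

namespace Pool.Agent.Work.MP_56b8f5_nt.UC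

open Pool.Agent.Work.MP_56b8f5_nt.UB (ee om)

/-- weights: smooth, compact support in `(0,∞)` -/
structure IsWt (w : ℝ → ℝ) : Prop where
  smooth : ContDiff ℝ ((⊤ : ℕ∞) : WithTop ℕ∞) w
  supp : ∃ a b : ℝ, 0 < a ∧ a < b ∧ ∀ x, w x ≠ 0 → a ≤ x ∧ x ≤ b

/-- smooth block `∑_n w(n/N) n^{-it}` -/
def Bl (w : ℝ → ℝ) (N t : ℝ) : ℂ :=
  ∑' n : ℕ, ((w ((n : ℝ) / N) : ℝ) : ℂ) * (n : ℂ) ^ (-(t * Complex.I))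

/-- Dirichlet polynomial `∑_{n ≤ Y} a_n n^{-it}` -/
def Dp (Y : ℕ) (a : ℕ → ℂ) (t : ℝ) : ℂ :=
  ∑ n ∈ Finset.Icc 1 Y, a n * (n : ℂ) ^ (-(t * Complex.I))

/-- dyadic Dirichlet polynomial `∑_{L < n ≤ 2L} a_n n^{-it}` -/
def Sd (L : ℝ) (a : ℕ → ℂ) (t : ℝ) : ℂ :=
  ∑ n ∈ Finset.Ioc ⌊L⌋₊ ⌊2 * L⌋₊, a n * (n : ℂ) ^ (-(t * Complex.I))

/-- Mellin transform on the imaginary axis `∫_0^∞ w(x) x^{iy-1} dx` -/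
def Om (w : ℝ → ℝ) (y : ℝ) : ℂ :=
  ∫ x in Ioi (0 : ℝ), ((w x : ℝ) : ℂ) * (x : ℂ) ^ (y * Complex.I - 1)

/-- `I_m(t) = ∫_0^∞ w(x/N) x^{-it} e(-mx) dx` -/
def Im (w : ℝ → ℝ) (N t : ℝ) (m : ℤ) : ℂ :=
  ∫ x in Ioi (0 : ℝ), ((w (x / N) : ℝ) : ℂ) * (x : ℂ) ^ (-(t * Complex.I)) * ee (-(m * x))

/-- `Γ(1-iv) (-2πi)^{-1+iv}` -/
def gm (v : ℝ) : ℂ :=
  Complex.Gamma (1 - v * Complex.I) * (-(2 * Real.pi * Complex.I)) ^ (-1 + v * Complex.I)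

/-- `W` is `1`-separated -/
def Sep (W : Finset ℝ) : Prop := ∀ s ∈ W, ∀ t ∈ W, s ≠ t → 1 ≤ |s - t|

/-- the truncated kernel `k(t) = ∑_{1 ≤ |m| ≤ M} I_m(t)` with the weight `om` -/
def kk (L : ℝ) (M : ℕ) (t : ℝ) : ℂ :=
  ∑ m ∈ (Finset.Icc (-(M : ℤ)) M).filter (fun m => m ≠ 0), Im om L t m

/-- `R(v) = ∑_{t ∈ W} v^{it}` -/
def Rh (W : Finset ℝ) (v : ℝ) : ℂ := ∑ t ∈ W, (v : ℂ) ^ (t * Complex.I)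

/-- smooth additive energy of `W` -/
def EN (W : Finset ℝ) : ℝ :=
  ∑ t1 ∈ W, ∑ t2 ∈ W, ∑ t3 ∈ W, ∑ t4 ∈ W, 1 / (1 + (t1 + t2 - t3 - t4) ^ 2)

/-- distance to the nearest integer -/
def dZ (x : ℝ) : ℝ := |x - round x|

/-- the interval `J = [1/25, 25]` -/
def JI : Set ℝ := Icc (1 / 25) 25

/-- `F(v) = ∑_{1 ≤ |m₁|,|m₂| ≤ M} ∫_J f(z) (1 + L‖m₁ v + m₂ z‖)^{-2} dz` -/
def Fm (L : ℝ) (M : ℕ) (f : ℝ → ℝ) (v : ℝ) : ℝ :=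
  ∑ m1 ∈ (Finset.Icc (-(M : ℤ)) M).filter (fun m => m ≠ 0),
    ∑ m2 ∈ (Finset.Icc (-(M : ℤ)) M).filter (fun m => m ≠ 0),
      ∫ z in JI, f z / (1 + L * dZ (m1 * v + m2 * z)) ^ 2

/-- smooth cut-off: `1` for `x ≤ 1`, `0` for `x ≥ 2` -/
def eta (x : ℝ) : ℝ := Real.smoothTransition (2 - x)

/-- `ψ(x) = η(x) - η(2x)`, support in `[1/2, 2]` -/
def psi (x : ℝ) : ℝ := eta x - eta (2 * x)

/-- `Z_X(s) = ∑_n η(n/X) n^{-s}` -/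
def Zs (X : ℝ) (s : ℂ) : ℂ := ∑' n : ℕ, ((eta ((n : ℝ) / X) : ℝ) : ℂ) * (n : ℂ) ^ (-s)

/-- number of ordered factorisations of `n` into `r` factors (`0` for `n = 0`) -/
def dr (r n : ℕ) : ℕ := (ArithmeticFunction.zeta ^ r) n

/-- `σ_A(δ) = 3/4 - 1/A - δ (A-4)/(4A)` -/
def sg (δ A : ℝ) : ℝ := 3 / 4 - 1 / A - δ * (A - 4) / (4 * A)

end Pool.Agent.Work.MP_56b8f5_nt.UC
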