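import Mathlib
import Pool.Agent.Work.MP_56b8f5_nt.UC.Defs
import Pool.Agent.Work.MP_56b8f5_nt.UT.Stmts

/-!
MP_56b8f5_nt, block UC: statements of the items, each with its proof in the docstring.
Notes 4097, 4098 contain the overview.

Every item is `theorem iNAME (h1 : StA) (h2 : StB) ... : StNAME := ...` in the file `UC/I_NAME.lean`; it may use any
statement listed in its docstring as a hypothesis (and nothing else from this block).  Constants `C` depend only on the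
parameters quantified before them.  `EM.StX`, `UB.StX`, `UT.StX` are the statements of the other blocks.
-/

open MeasureTheory Set Filter Topology

noncomputable section

namespace Pool.Agent.Work.MP_56b8f5_nt.UC

open Pool.Agent.Work.MP_56b8f5_nt.UB (ee om)

/-! ### Block A: smooth blocks, Mellin, Poisson, reflection -/

/-- ITEM Mel (Mellin inversion).  `g(v) = w(e^v)` is smooth with compact support (a Schwartz function), `Om w y = ∫ g(v) e^{iyv} dv`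
(`x = e^v`), so it decays faster than any power, and Fourier inversion gives `w(x) = (1/2π) ∫ Om w y x^{-iy} dy`, `x > 0`. -/
def StMel : Prop := ∀ w : ℝ → ℝ, IsWt w → Continuous (Om w) ∧
  (∀ A : ℕ, ∃ C : ℝ, 1 ≤ C ∧ ∀ y : ℝ, ‖Om w y‖ ≤ C / (1 + |y|) ^ A) ∧
  ∀ x : ℝ, 0 < x → ((w x : ℝ) : ℂ) =
    (1 / (2 * Real.pi) : ℝ) * ∫ y : ℝ, Om w y * (x : ℂ) ^ (-(y * Complex.I))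

/-- ITEM Gam (Gamma on the line).  `Γ(1-iv)Γ(1+iv) = πv/sinh(πv)` (reflection formula `Γ(s)Γ(1-s) = π/sin πs` with `s = 1 - iv`,
`Γ(1+iv) = iv Γ(iv)`), so `|Γ(1-iv)|² e^{π|v|} = 2π|v|/(1 - e^{-2π|v|}) ≤ 1 + 2π|v|`.  And
`|(-2πi)^{-1+iv}| = (2π)^{-1} e^{πv/2}` (`arg(-2πi) = -π/2`). -/
def StGam : Prop := ∃ C : ℝ, 1 ≤ C ∧ ∀ v : ℝ,
  ‖Complex.Gamma (1 - v * Complex.I)‖ * Real.exp (Real.pi * |v| / 2) ≤ C * Real.sqrt (1 + |v|) ∧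
  ‖gm v‖ ≤ C * Real.sqrt (1 + |v|)

/-- ITEM Imf (the Fourier coefficients `I_{-h}`, `h ≥ 1`; uses StMel, StGam).  For `η > 0`, `r = η - 2πih`:
`∫_0^∞ w(x/N) x^{-it} e^{-rx} dx = (1/2π) ∫ Om(y) N^{iy} (∫_0^∞ x^{-i(t+y)} e^{-rx} dx) dy` (StMel at `x/N`, Fubini), inner integral
`Γ(1-iv) r^{-1+iv}`, `v = t+y` (`Complex.integral_cpow_mul_exp_neg_mul_Ioi`).  Let `η → 0+` (dominated convergence on both sides: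
`|r^{-1+iv}| = |r|^{-1} e^{-v arg r} ≤ |r|^{-1} e^{π|v|/2}`, StGam); `(-2πih)^{-1+iv} = (-2πi)^{-1+iv} h^{-1+iv}`. -/
def StImf : Prop := ∀ w : ℝ → ℝ, IsWt w → ∀ (N t : ℝ) (h : ℕ), 0 < N → 1 ≤ h →
  Im w N t (-(h : ℤ)) = (1 / (2 * Real.pi) : ℝ) *
    ∫ y : ℝ, Om w y * (N : ℂ) ^ (y * Complex.I) * gm (t + y) * (h : ℂ) ^ (-1 + (t + y) * Complex.I)

/-- ITEM Ns (nonstationary terms; may use `UB.StIP`, proved in `UB/I_IP.lean`).  On the support `x ∈ [aN, bN]` the phase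
`ϕ(x) = -(t/2π) log x - m x` has `ϕ' = -(t/(2πx) + m)`, which vanishes only if `mt < 0` and `|m| = |t|/(2πx)`.  With `c1 = 1/(4πb)`,
`c2 = 1/(πa)`: outside the range `c1|t| ≤ |m|N ≤ c2|t|`, `mt < 0`, one has `|ϕ'| ≥ c(|t|/N + |m|)`; `|ϕ''| ≤ C|t|/N²`, `|ϕ'''| ≤ C|t|/N³`,
amplitude `w(x/N)` with derivatives `≤ C N^{-j}`, zero at the end points: two integrations by parts give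
`≤ (C/N)/(|t|/N+|m|)² = CN/(|t|+|m|N)²`. -/
def StNs : Prop := ∀ w : ℝ → ℝ, IsWt w → ∃ c1 c2 C : ℝ, 0 < c1 ∧ c1 < c2 ∧ 1 ≤ C ∧
  ∀ (N t : ℝ) (m : ℤ), 0 < N → m ≠ 0 →
    ¬ (c1 * |t| ≤ |(m : ℝ)| * N ∧ |(m : ℝ)| * N ≤ c2 * |t| ∧ (m : ℝ) * t < 0) →
    ‖Im w N t m‖ ≤ C * N / (|(m : ℝ)| * N + |t|) ^ 2

/-- ITEM N0 (the term `m = 0`; uses StMel).  `Im w N t 0 = N^{1-it} ∫_0^∞ w(x) x^{-it} dx = N^{1-it} Om(w₁)(-t)` with the weight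
`w₁(x) = x w(x)`. -/
def StN0 : Prop := ∀ w : ℝ → ℝ, IsWt w → ∀ A : ℕ, ∃ C : ℝ, 1 ≤ C ∧ ∀ N t : ℝ, 0 < N →
  ‖Im w N t 0‖ ≤ C * N / (1 + |t|) ^ A

/-- ITEM Po (Poisson summation; uses StNs).  `f(x) = w(x/N) x^{-it}` for `x > 0`, `0` for `x ≤ 0`: smooth with compact support,
`𝓕 f (m) = Im w N t m`; summable by StNs (for large `|m|`).  `Bl` sums `f` over the positive integers (`w(0) = 0`). -/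
def StPo : Prop := ∀ w : ℝ → ℝ, IsWt w → ∀ N t : ℝ, 0 < N →
  (Summable fun m : ℤ => ‖Im w N t m‖) ∧ Bl w N t = ∑' m : ℤ, Im w N t m

/-- ITEM Bc (elementary facts on blocks).  Complex conjugation; at most `(b-a)N + 1` terms, and none if `bN < 1`, so `|Bl| ≤ C N`;
continuity in `t` and in the pair is not needed. -/
def StBc : Prop := ∀ w : ℝ → ℝ, IsWt w → (∀ N t : ℝ, 0 < N → Bl w N (-t) = (starRingEnd ℂ) (Bl w N t)) ∧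
  (∀ N : ℝ, 0 < N → Continuous (Bl w N)) ∧ (∀ N t : ℝ, ∀ m : ℤ, 0 < N → Im w N (-t) (-m) = (starRingEnd ℂ) (Im w N t m)) ∧
  ∃ C : ℝ, 1 ≤ C ∧ (∀ N t : ℝ, 0 < N → ‖Bl w N t‖ ≤ C * N) ∧ (∀ N t : ℝ, ∀ m : ℤ, 0 < N → ‖Im w N t m‖ ≤ C * N)

/-- ITEM Rf (reflection; uses StMel, StGam, StImf, StNs, StN0, StPo, StBc).  Let `t > 0` (`t < 0`: conjugate, `y ↦ -y`), `D ≤ t ≤ 2D`, `M = D/N`.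
By StPo, StN0 and StNs the terms `m ≥ 0` contribute `≤ C N/D^A + ∑_{m≥1} CN/(mN+D)² ≤ C N/D^A + C/D` (`∑_{m ≥ 1} 1/(mN+D)² ≤ 1/(ND)`).  Let `u1` be a weight
with `0 ≤ u1 ≤ 1` and `u1 = 1` on `[c1, 2c2]`: for `h ≥ 1` with `u1(h/M) ≠ 1` StNs applies to `m = -h`, so these terms contribute `≤ C/D`.  By StImf
`∑_h u1(h/M) I_{-h} = (1/2π) ∫ Om(y) N^{iy} gm(t+y) (∑_h u1(h/M) h^{-1+i(t+y)}) dy` (finite sum); with `u(x) = u1(x)/x` the inner sum is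
`M^{-1} ∑_h u(h/M) h^{i(t+y)}`, of modulus `M^{-1}|Bl u M (t+y)|`.  `|gm(t+y)| ≤ C√(1+|t|+|y|) ≤ C√D √(1+|y|)`, StMel with exponent `A+1`.  Total
`C (√D/M) ∫ |Bl u M (t+y)|/(1+|y|)^A dy`. -/
def StRf : Prop := ∀ w : ℝ → ℝ, IsWt w → ∃ u : ℝ → ℝ, IsWt u ∧ ∀ A : ℕ, 2 ≤ A → ∃ C : ℝ, 1 ≤ C ∧
  ∀ N D t : ℝ, 0 < N → 1 ≤ D → D ≤ |t| → |t| ≤ 2 * D →
    ‖Bl w N t‖ ≤ C * (N / Real.sqrt D) * (∫ y : ℝ, ‖Bl u (D / N) (t + y)‖ / (1 + |y|) ^ A) +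
      C / D + C * N / D ^ A

/-- ITEM Kp (pointwise bound; uses StRf, StBc).  `|t| ≤ 1`: StBc.  `|t| ≥ 1`: StRf with `D = |t|`, `A = 2`, and `|Bl u (D/N)| ≤ C D/N` (StBc): `C√D + C/D + CN/D²`. -/
def StKp : Prop := ∀ w : ℝ → ℝ, IsWt w → ∃ C : ℝ, 1 ≤ C ∧ ∀ N t : ℝ, 0 < N →
  ‖Bl w N t‖ ≤ C * (N / (1 + t ^ 2) + Real.sqrt (1 + |t|))

/-- ITEM Kd (decomposition of the kernel; uses StNs, StPo).  For `|m| > M ≥ C T/L` one has `|m| L > c2 T`, so StNs applies: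
`∑_{|m| > M} CL/(mL)² ≤ 2C/(LM) ≤ 2/T`. -/
def StKd : Prop := ∃ C : ℝ, 1 ≤ C ∧ ∀ (L T t : ℝ) (M : ℕ), 1 ≤ L → 1 ≤ T → |t| ≤ T → C * T ≤ M * L →
  ‖Bl om L t - Im om L t 0 - kk L M t‖ ≤ C / T

/-! ### Block B: mean values over separated points -/

/-- ITEM Mv (discrete mean value theorem; uses `Pool.Agent.Work.MP_37bd4f_nt.mean_value` in `MP_37bd4f_nt/MeanValue.lean`).  Gallagher: for `S = Dp Y a`,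
`|S(t)|² ≤ ∫_{t-1/2}^{t+1/2} (|S|² + 2|S||S'|)`; with `l = 1 + log Y`, `S' = -i l S₁`, `S₁ = Dp Y (a_n (log n)/l)`: `2|S||S'| ≤ l(|S|² + |S₁|²)`.
The intervals are disjoint and lie in `[T0-1/2, T0+T+1/2]`; `mean_value` (and `Hs Y ≤ 1 + log Y`):
`≤ C l² (T + Y) ∑|a_n|²`.  Part 2: the same inequality before summation. -/
def StMv : Prop := ∃ C : ℝ, 1 ≤ C ∧
  (∀ (T0 T : ℝ) (W : Finset ℝ) (Y : ℕ) (a : ℕ → ℂ), 1 ≤ T → Sep W → (∀ t ∈ W, T0 ≤ t ∧ t ≤ T0 + T) → 1 ≤ Y →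
    ∑ t ∈ W, ‖Dp Y a t‖ ^ 2 ≤ C * (1 + Real.log Y) ^ 2 * (T + Y) * ∑ n ∈ Finset.Icc 1 Y, ‖a n‖ ^ 2) ∧
  (∀ (t : ℝ) (Y : ℕ) (a : ℕ → ℂ), 1 ≤ Y → ‖Dp Y a t‖ ^ 2 ≤ C * (1 + Real.log Y) *
    ∫ u in (-(1 / 2 : ℝ))..(1 / 2), (‖Dp Y a (t + u)‖ ^ 2 +
      ‖Dp Y (fun n => a n * ((Real.log n / (1 + Real.log Y) : ℝ) : ℂ)) (t + u)‖ ^ 2))

/-- ITEM Pw (powers of a block are Dirichlet polynomials; uses the divisor bound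
`Pool.Agent.Work.MP_cb106b_nt.Ct.divisor_bound` in `MP_cb106b_nt/Ct/DivB.lean`).  `Bl w N t = Dp Y (w(n/N))`, `Y = ⌊bN⌋`; product of `k` of them: coefficients
`∑_{n_1⋯n_k = n} ∏ w(n_i/N)`, modulus `≤ B^k d_k(n) ≤ B^k d(n)^{k-1}`, zero unless `(aN)^k ≤ n ≤ (bN)^k`.  (If `bN < 1` the block is `0`.) -/
def StPw : Prop := ∀ w : ℝ → ℝ, IsWt w → ∀ (k : ℕ) (ε : ℝ), 1 ≤ k → 0 < ε → ∃ c C : ℝ, 0 < c ∧ 1 ≤ C ∧ ∀ N : ℝ, 0 < N →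
  ∃ a : ℕ → ℂ, (∀ n : ℕ, ‖a n‖ ≤ C * (n : ℝ) ^ ε) ∧ (∀ n : ℕ, a n ≠ 0 → c * N ^ k ≤ n ∧ (n : ℝ) ≤ C * N ^ k) ∧
    ∀ (t : ℝ) (Y : ℕ), C * N ^ k ≤ Y → Bl w N t ^ k = Dp Y a t

/-- ITEM Mk (moments of blocks; uses StMv, StPw, StBc).  `Y = ⌈C N^k⌉` (if `N` is so small that the block is `0`, trivial; StBc gives `|Bl| ≤ CN`,
so for `N ≤ 1` the left side is `≤ C T N^{2k}`), StPw with `ε/(4k)`, StMv: `≤ C (1+log Y)² (T+Y) Y · Y^{2ε'}`, `Y ≤ C T^k`. -/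
def StMk : Prop := ∀ w : ℝ → ℝ, IsWt w → ∀ (k : ℕ) (ε : ℝ), 1 ≤ k → 0 < ε → ∃ C : ℝ, 1 ≤ C ∧
  ∀ (T0 T N : ℝ) (W : Finset ℝ), 1 ≤ T → 0 < N → N ≤ T → Sep W → (∀ t ∈ W, T0 ≤ t ∧ t ≤ T0 + T) →
    ∑ t ∈ W, ‖Bl w N t‖ ^ (2 * k) ≤ C * T ^ ε * (T + N ^ k) * N ^ k

/-- ITEM S2 (sums over separated points).  For fixed `x` the distances `|x - t|`, `t ∈ W`, are `≥ 0, 0, 1/2, 1/2, 1, …` in increasing order. -/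
def StS2 : Prop := ∃ C : ℝ, 1 ≤ C ∧ ∀ W : Finset ℝ, Sep W →
  (∀ x : ℝ, ∑ t ∈ W, 1 / (1 + (x - t) ^ 2) ≤ C) ∧
  (∀ x y : ℝ, ∑ t ∈ W, 1 / (1 + (x - t) ^ 2) * (1 / (1 + (y - t) ^ 2)) ≤ C / (1 + (x - y) ^ 2)) ∧
  (∀ T0 T : ℝ, 1 ≤ T → (∀ t ∈ W, T0 ≤ t ∧ t ≤ T0 + T) → (W.card : ℝ) ≤ 2 * T)

/-! ### Block C: the cubic trace (Guth-Maynard in the simplest regime) -/

/-- ITEM Tr (trace inequality; finite linear algebra).  `u = c/√R`, `x' = ⟨u, k u⟩ ≥ x ≥ 0`, matrices indexed by `W`.  (i) `P = k(k+B)k` is positive semidefinite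
(`k` Hermitian, `k+B ≥ 0`), so `⟨u,Pu⟩ ≤ tr P = tr k³ + B tr k²` (trace `≥` the diagonal coefficient in an orthonormal basis containing `u`; or: `tr P - ⟨u,Pu⟩ = tr((1-uu*)P(1-uu*)) ≥ 0`).
(ii) `k + B + 2x' ≥ 0`, so `0 ≤ ⟨(k-x')u, (k+B+2x')(k-x')u⟩ = ⟨u,k³u⟩ + B⟨u,k²u⟩ - x'²(B+x')`.  Hence `x³ ≤ x'²(B+x') ≤ tr k³ + B tr k²`. -/
def StTr : Prop := ∀ (W : Finset ℝ) (k : ℝ → ℝ → ℂ) (c : ℝ → ℂ) (B x : ℝ), W.Nonempty → 0 ≤ B → 0 ≤ x →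
  (∀ s t, k t s = (starRingEnd ℂ) (k s t)) →
  (∀ g : ℝ → ℂ, 0 ≤ (∑ s ∈ W, ∑ t ∈ W, (starRingEnd ℂ) (g s) * k s t * g t).re + B * ∑ s ∈ W, ‖g s‖ ^ 2) →
  (∀ t ∈ W, ‖c t‖ = 1) →
  x * W.card ≤ (∑ s ∈ W, ∑ t ∈ W, (starRingEnd ℂ) (c s) * k s t * c t).re →
  x ^ 3 ≤ (∑ r ∈ W, ∑ s ∈ W, ∑ t ∈ W, k r s * k s t * k t r).re + B * ∑ s ∈ W, ∑ t ∈ W, ‖k s t‖ ^ 2

/-- ITEM Du (duality).  `VR ≤ ∑_t |S(t)| = ∑_t γ_t S(t) = ∑_n a_n ∑_t γ_t n^{-it}` (`|γ_t| = 1`), Cauchy-Schwarz over the `≤ L+1 ≤ 2L` integers `L < n ≤ 2L`, insert `om(n/L)`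
(`= 1` there, `≥ 0`): `V²R² ≤ 2L ∑_n om(n/L)|∑_t γ_t n^{-it}|² = 2L ∑_{s,t} γ_s conj γ_t Bl om L (s-t)`; `c = conj γ`.
Part 2: the same identity shows that `Bl om L (s-t)` is positive semidefinite. -/
def StDu : Prop := (∀ (L V : ℝ) (a : ℕ → ℂ) (W : Finset ℝ), 1 ≤ L → 0 ≤ V → (∀ n, ‖a n‖ ≤ 1) →
    (∀ t ∈ W, V ≤ ‖Sd L a t‖) → ∃ c : ℝ → ℂ, (∀ t, ‖c t‖ = 1) ∧
      V ^ 2 * (W.card : ℝ) ^ 2 ≤ 2 * L * (∑ s ∈ W, ∑ t ∈ W, (starRingEnd ℂ) (c s) * Bl om L (s - t) * c t).re) ∧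
  ∀ (L : ℝ) (W : Finset ℝ) (g : ℝ → ℂ), 0 < L →
    0 ≤ (∑ s ∈ W, ∑ t ∈ W, (starRingEnd ℂ) (g s) * Bl om L (s - t) * g t).re

/-- ITEM X3 (from large values to the trace; uses StTr, StDu, StKd, StN0, StBc, StS2).  `k(s,t) = kk L M (s-t)` is Hermitian (StBc; the filtered set is symmetric).  `Bl = I_0 + kk + e`,
`|e| ≤ C/T`, and `∑_t |I_0(s-t)| ≤ ∑_t CL/(1+(s-t)²) ≤ CL`, `∑_t |e| ≤ (C/T)·2T`: by Schur's test `|⟨g,(I_0+e)g⟩| ≤ C L ∑|g|²`.  So `k + B ≥ 0` with `B = CL` (StDu part 2), and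
`⟨c,kc⟩ ≥ V²R²/(2L) - CLR ≥ V²R²/(4L)` if `C'L² ≤ V²R`.  StTr with `x = V²R/(4L)`. -/
def StX3 : Prop := ∃ C : ℝ, 1 ≤ C ∧ ∀ (T0 T L V : ℝ) (M : ℕ) (a : ℕ → ℂ) (W : Finset ℝ), 1 ≤ L → 1 ≤ T → C * T ≤ M * L →
  0 < V → (∀ n, ‖a n‖ ≤ 1) → W.Nonempty → Sep W → (∀ t ∈ W, T0 ≤ t ∧ t ≤ T0 + T) → (∀ t ∈ W, V ≤ ‖Sd L a t‖) →
  C * L ^ 2 ≤ V ^ 2 * W.card →
  (V ^ 2 * W.card / L) ^ 3 ≤ C * ‖∑ r ∈ W, ∑ s ∈ W, ∑ t ∈ W, kk L M (r - s) * kk L M (s - t) * kk L M (t - r)‖ +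
    C * L * ∑ s ∈ W, ∑ t ∈ W, ‖kk L M (s - t)‖ ^ 2

/-- ITEM T2 (the quadratic term; uses StKd, StN0, StRf, StMk, StNs, StBc).  Fix `s ∈ W`.  Pairs with `|s-t| ≤ c L` (`c = 1/(2c2)`, `c2` of StNs for `om`; in particular `s = t`): all `m ≠ 0` are nonstationary, `|kk| ≤ C/L`,
contribution `≤ C R²`.  The others have `|s-t| ≥ max(1, cL)`: `D ≤ |s-t| < 2D`, `D = 2^i max(1,cL) ≤ T` (`O(log T)` values of `i`): `|kk| ≤ |Bl| + |I_0| + C/T ≤ C (L/√D) ∫ |Bl u (D/L)(s-t+y)|/(1+|y|)² dy + C/L`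
(StKd, StN0, StRf with `A = 2`, `D ≥ cL`); square, Cauchy-Schwarz `(∫ g/(1+|y|)²)² ≤ 2∫ g²/(1+|y|)²`; for fixed `y` Hölder and StMk (weight `u`, `N = D/L ≤ T`, exponent `k`, the `1`-separated points
`s - t + y`): `∑_t |Bl u (D/L)|² ≤ R^{1-1/k} (C T^ε' (T + (D/L)^k)(D/L)^k)^{1/k} ≤ C T^{ε'} R^{1-1/k} (T^{1/k} D/L + (D/L)²)`.  Times `L²/D`, sum over `s`, `i`:
`≤ C R² + C T^{ε'}(log T) R · R^{1-1/k} (T^{1/k} L + D)`, `D ≤ T`; and `R² ≤ 2 R² (T/R)^{1/k}` as `R ≤ 2T`. -/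
def StT2 : Prop := ∀ (k : ℕ) (ε : ℝ), 1 ≤ k → 0 < ε → ∃ C : ℝ, 1 ≤ C ∧ ∀ (T0 T L : ℝ) (M : ℕ) (W : Finset ℝ),
  1 ≤ L → L ≤ T → C * T ≤ M * L → W.Nonempty → Sep W → (∀ t ∈ W, T0 ≤ t ∧ t ≤ T0 + T) →
  ∑ s ∈ W, ∑ t ∈ W, ‖kk L M (s - t)‖ ^ 2 ≤
    C * T ^ ε * (L * (W.card : ℝ) ^ 2 * (T / W.card) ^ (1 / (k : ℝ)) + T * (W.card : ℝ) ^ (2 - 1 / (k : ℝ)))

/-- ITEM Jr (the radial integral).  `v1, v2 > 0`; `h(r) = om(rv1)om(rv2)om(r)r²` is smooth, supported in `r ∈ [1/2,5/2]`, zero unless `v1, v2 ∈ [1/5,5]` (so `|h''| ≤ C`): two integrations by parts with `e(-λr)`. -/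
def StJr : Prop := ∃ C : ℝ, 1 ≤ C ∧ ∀ v1 v2 lam : ℝ, 0 < v1 → 0 < v2 →
  ‖∫ r in Ioi (0 : ℝ), ((om (r * v1) * om (r * v2) * om r * r ^ 2 : ℝ) : ℂ) * ee (-(lam * r))‖ ≤
    (if (1 / 5 ≤ v1 ∧ v1 ≤ 5 ∧ 1 / 5 ≤ v2 ∧ v2 ≤ 5) then C / (1 + |lam|) ^ 2 else 0)

/-- ITEM T3a (expansion of the cubic term; uses StJr).  `Im om L t m = L^{1-it} ∫ om(u) u^{-it} e(-mLu) du`; the powers of `L` cancel in `kk(r-s)kk(s-t)kk(t-r)`;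
`u1^{-i(r-s)} u2^{-i(s-t)} u3^{-i(t-r)} = (u3/u1)^{ir} (u1/u2)^{is} (u2/u3)^{it}`, so the triple sum is
`L³ ∑_m ∫∫∫ om(u1)om(u2)om(u3) Rh(u3/u1) Rh(u1/u2) Rh(u2/u3) e(-L m·u) du`.  `u1 = r v1`, `u2 = r v2`, `u3 = r`, `du = r² dr dv1 dv2`; `|Rh(1/v)| = |Rh(v)|`; StJr with
`λ = L(m1v1+m2v2+m3)`. -/
def StT3a : Prop := ∃ C : ℝ, 1 ≤ C ∧ ∀ (L : ℝ) (M : ℕ) (W : Finset ℝ), 1 ≤ L →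
  ‖∑ r ∈ W, ∑ s ∈ W, ∑ t ∈ W, kk L M (r - s) * kk L M (s - t) * kk L M (t - r)‖ ≤
    C * L ^ 3 * ∑ m1 ∈ (Finset.Icc (-(M : ℤ)) M).filter (fun m => m ≠ 0),
      ∑ m2 ∈ (Finset.Icc (-(M : ℤ)) M).filter (fun m => m ≠ 0), ∑ m3 ∈ (Finset.Icc (-(M : ℤ)) M).filter (fun m => m ≠ 0),
        ∫ v1 in Icc (1 / 5 : ℝ) 5, ∫ v2 in Icc (1 / 5 : ℝ) 5,
          ‖Rh W v1‖ * ‖Rh W (v1 / v2)‖ * ‖Rh W v2‖ / (1 + L * |m1 * v1 + m2 * v2 + m3|) ^ 2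

/-- ITEM T3b (from the triple sum to `Fm`).  `|Rh(v1/v2)||Rh(v2)| ≤ |Rh(v1/v2)|² + |Rh(v2)|²`.  First type `|Rh(v1)||Rh(v2)|²`: sum over all `m3 ∈ ℤ`:
`∑_{m3} (1+L|x+m3|)^{-2} ≤ C (1+L dZ(x))^{-2}` (`L ≥ 1`; the nearest integer, the others `≤ (1+L/2)^{-2}, …`).  Second type: `|Rh(v1/v2)| = |Rh(v2/v1)|`, `z = v2/v1 ∈ [1/25,25]`, `v = 1/v1`,
`|Rh(v1)| = |Rh(v)|`, `|m1v1+m2v2+m3| = v1|m1+m2z+m3v| ≥ |m1+m2z+m3v|/5`, Jacobian bounded, sum over `m1 ∈ ℤ`; the result is of the first type with `(m3, m2)` for `(m1, m2)`. -/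
def StT3b : Prop := ∃ C : ℝ, 1 ≤ C ∧ ∀ (L : ℝ) (M : ℕ) (W : Finset ℝ), 1 ≤ L →
  ∑ m1 ∈ (Finset.Icc (-(M : ℤ)) M).filter (fun m => m ≠ 0),
    ∑ m2 ∈ (Finset.Icc (-(M : ℤ)) M).filter (fun m => m ≠ 0), ∑ m3 ∈ (Finset.Icc (-(M : ℤ)) M).filter (fun m => m ≠ 0),
      ∫ v1 in Icc (1 / 5 : ℝ) 5, ∫ v2 in Icc (1 / 5 : ℝ) 5,
        ‖Rh W v1‖ * ‖Rh W (v1 / v2)‖ * ‖Rh W v2‖ / (1 + L * |m1 * v1 + m2 * v2 + m3|) ^ 2 ≤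
  C * ∫ v in JI, ‖Rh W v‖ * Fm L M (fun z => ‖Rh W z‖ ^ 2) v

/-- ITEM Mj (trigonometric majorant).  `D_L(x) = ∑_{0≤j<L} e(jx)`, `|D_L(x)| = |sin πLx|/|sin πx|`; `g(x) = (C/L²)(|D_L(x)|² + |D_L(x+1/(2L))|²)`: the numerators are `sin²(πLx)` and `cos²(πLx)`, the
denominators `≤ π²(dZ x + 1/L)²`.  The coefficients of `|D_L|²` are `L - |k|`; make them symmetric by averaging `g(x)` and `g(-x)`. -/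
def StMj : Prop := ∃ C : ℝ, 1 ≤ C ∧ ∀ L : ℕ, 1 ≤ L → ∃ c : ℤ → ℝ, (∀ k, |c k| ≤ C / L) ∧ (∀ k, c (-k) = c k) ∧
  ∀ x : ℝ, 1 / (1 + L * dZ x) ^ 2 ≤ (∑ k ∈ Finset.Icc (-(L : ℤ)) L, (c k : ℂ) * ee (k * x)).re

/-- ITEM Af (the affine lemma; uses StMj, the divisor bound `MP_cb106b_nt.Ct.divisor_bound`).  Use StMj with `⌈L⌉`.  `F(v) ≤ ∑_k c_k ∑_{m1} e(k m1 v) A_k`, `A_k = ∑_{m2} ∫_J f(z) e(k m2 z) dz`.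
`k = 0`: `≤ (C/L) 4M² ∫f`.  `k ≠ 0`: this is `∑_n B_n e(nv)`, `B_n = ∑_{k m1 = n} c_k A_k`, `|B_n|² ≤ (C/L²) d(|n|)·2 ∑_{k | n} |A_k|²`; `J` has length `< 25`, so
`∫_J |∑ B_n e(nv)|² ≤ 25 ∑|B_n|² ≤ C L^{-2} L^{ε/2} (2M) ∑_{0<|k|≤L+1} |A_k|²`, `|A_k|² ≤ 2M ∑_{m2} |f^(k m2)|²`, and `∑_{k,m2} |f^(k m2)|² ≤ C L^{ε/2} ∑_{n ∈ ℤ} |f^(n)|² ≤ 25 C L^{ε/2} ∫_J f²`
(Bessel on the 25 intervals of length 1; `f^(n) = ∫_J f(z) e(nz) dz`). -/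
def StAf : Prop := ∀ ε : ℝ, 0 < ε → ∃ C : ℝ, 1 ≤ C ∧ ∀ (L : ℝ) (M : ℕ) (f : ℝ → ℝ), 1 ≤ L → (M : ℝ) ≤ L → ContinuousOn f JI →
  (∀ z ∈ JI, 0 ≤ f z) → ∫ v in JI, Fm L M f v ^ 2 ≤
    C / L ^ 2 * ((M : ℝ) ^ 4 * (∫ z in JI, f z) ^ 2 + L ^ ε * (M : ℝ) ^ 2 * ∫ z in JI, f z ^ 2)

/-- ITEM R24 (moments of `Rh`; uses StS2).  With a smooth weight `χ ≥ 1` on `J`: `∫ χ(v) v^{iτ} dv/v ≤ C/(1+τ²)` (twice integrated by parts).  `|Rh|²` and `|Rh|⁴` expanded; StS2. -/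
def StR24 : Prop := ∃ C : ℝ, 1 ≤ C ∧ ∀ W : Finset ℝ, Sep W →
  ∫ v in JI, ‖Rh W v‖ ^ 2 ≤ C * W.card ∧ ∫ v in JI, ‖Rh W v‖ ^ 4 ≤ C * EN W

/-- ITEM T3 (the cubic term; uses StT3a, StT3b, StAf, StR24).  `∫_J |Rh| Fm ≤ (∫|Rh|²)^{1/2}(∫Fm²)^{1/2} ≤ C R^{1/2} L^{-1} (M²R + L^{ε/2} M E^{1/2})`. -/
def StT3 : Prop := ∀ ε : ℝ, 0 < ε → ∃ C : ℝ, 1 ≤ C ∧ ∀ (L : ℝ) (M : ℕ) (W : Finset ℝ), 1 ≤ L → (M : ℝ) ≤ L → Sep W →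
  ‖∑ r ∈ W, ∑ s ∈ W, ∑ t ∈ W, kk L M (r - s) * kk L M (s - t) * kk L M (t - r)‖ ≤
    C * L ^ 2 * ((M : ℝ) ^ 2 * ((W.card : ℝ) * Real.sqrt W.card) +
      L ^ ε * M * Real.sqrt W.card * Real.sqrt (EN W))

/-- ITEM Up1 (energy, first step; uses StMv part 2, StS2).  Let `S = Sd L a`, `l = 1 + log(2L)`, `S₁` the polynomial with coefficients `a_n (log n)/l'` (`l' = 1 + log ⌊2L⌋`).  For fixed `t1,t2,t3`, `x = t1+t2-t3`: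
`V² ∑_{t4} 1/(1+(x-t4)²) ≤ C l ∑_{t4} (1/(1+(x-t4)²)) ∫_{|u|≤1/2} (|S(t4+u)|²+|S₁(t4+u)|²) du ≤ C l ∫_ℝ (|S(y)|²+|S₁(y)|²)/(1+(x-y)²) dy` (the intervals `t4 + [-1/2,1/2]` are disjoint, and
`1+(x-y)² ≤ C(1+(x-t4)²)` there).  Sum over `t1,t2,t3` and expand: `∑∫|S(x+y)|²/(1+y²)dy = ∑_{n,n'} a_n conj a_n' Rh(n'/n)² conj Rh(n'/n) ∫ (n'/n)^{iy}/(1+y²) dy`, the last integral is `≤ π`; so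
`V² E ≤ C l ∑_{n,n'} om(n/L) om(n'/L) |Rh(n'/n)|³ ≤ C l (∑∑ om om|Rh|²)^{1/2}(∑∑ om om |Rh|⁴)^{1/2}`, and
`∑∑ om om |Rh(n'/n)|² = ∑_{s,t} |Bl om L (s-t)|²`, `∑∑ om om|Rh|⁴ = ∑_{W⁴} |Bl om L (t1+t2-t3-t4)|²`. -/
def StUp1 : Prop := ∃ C : ℝ, 1 ≤ C ∧ ∀ (L V : ℝ) (a : ℕ → ℂ) (W : Finset ℝ), 1 ≤ L → 0 ≤ V → (∀ n, ‖a n‖ ≤ 1) → Sep W →
  (∀ t ∈ W, V ≤ ‖Sd L a t‖) →
  V ^ 2 * EN W ≤ C * (1 + Real.log L) * Real.sqrt (∑ s ∈ W, ∑ t ∈ W, ‖Bl om L (s - t)‖ ^ 2) *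
    Real.sqrt (∑ t1 ∈ W, ∑ t2 ∈ W, ∑ t3 ∈ W, ∑ t4 ∈ W, ‖Bl om L (t1 + t2 - t3 - t4)‖ ^ 2)

/-- ITEM Up (energy; uses StUp1, StKp, StS2).  `|Bl om L τ|² ≤ C(L²/(1+τ²) + 1 + |τ|)`, `|τ| ≤ 2T`. -/
def StUp : Prop := ∃ C : ℝ, 1 ≤ C ∧ ∀ (T0 T L V : ℝ) (a : ℕ → ℂ) (W : Finset ℝ), 1 ≤ L → 1 ≤ T → 0 ≤ V → (∀ n, ‖a n‖ ≤ 1) →
  Sep W → (∀ t ∈ W, T0 ≤ t ∧ t ≤ T0 + T) → (∀ t ∈ W, V ≤ ‖Sd L a t‖) →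
  V ^ 2 * EN W ≤ C * (1 + Real.log L) * Real.sqrt (L ^ 2 * W.card + T * (W.card : ℝ) ^ 2) *
    Real.sqrt (L ^ 2 * EN W + T * (W.card : ℝ) ^ 4)

/-- ITEM GM (the combined inequality; uses StX3, StT2, StT3).  `M = ⌈C₀ T/L⌉` (`C₀` the largest of the constants), `C₀T ≤ ML ≤ 2C₀T`, and `M ≤ L` because `C T ≤ L²` with `C ≥ 4C₀`, `L² ≥ 4`. -/
def StGM : Prop := ∀ (k : ℕ) (ε : ℝ), 1 ≤ k → 0 < ε → ∃ C : ℝ, 1 ≤ C ∧ ∀ (T0 T L V : ℝ) (a : ℕ → ℂ) (W : Finset ℝ),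
  1 ≤ L → L ≤ T → C * T ≤ L ^ 2 → 0 < V → (∀ n, ‖a n‖ ≤ 1) → W.Nonempty → Sep W →
  (∀ t ∈ W, T0 ≤ t ∧ t ≤ T0 + T) → (∀ t ∈ W, V ≤ ‖Sd L a t‖) → C * L ^ 2 ≤ V ^ 2 * W.card →
  (V ^ 2 * W.card / L) ^ 3 ≤ C * T ^ ε * (T ^ 2 * ((W.card : ℝ) * Real.sqrt W.card) +
    T * L * Real.sqrt W.card * Real.sqrt (EN W) + L ^ 2 * (W.card : ℝ) ^ 2 * (T / W.card) ^ (1 / (k : ℝ)) +
    T * L * (W.card : ℝ) ^ (2 - 1 / (k : ℝ)))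

/-- ITEM G (THEOREM G; uses StGM, StUp).  `k = ⌈1/κ⌉`, `δ` very small in terms of `κ`.  If `T < T₁(κ)` trivial by the choice of `C` (`R ≤ 2T`, `√L ≤ √T`).  Otherwise suppose `R > T^{1-δ}L^{-1/2}` and pass to a subset of
cardinality `R ∈ [T^{1-δ}L^{-1/2}, 2T^{1-δ}L^{-1/2}]`; put `V = L^{3/4}T^{-δ}` (smaller than the given one).  `V²R ≥ L^{3/2}T^{-2δ}T^{1-δ}L^{-1/2} ≥ C L²` (`L ≤ T^{1/(1+κ)}`).  StUp: `TR/L² ≤ 2T^{2-δ}L^{-5/2} ≤ 2T^{1.5δ}`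
(`L ≥ T^{4/5-δ}`), so `V²E ≤ T^{2δ}(L²R)^{1/2}(L²E + TR⁴)^{1/2}`, hence `E ≤ T^{20δ}(LR + T^{1/2}L^{-1/2}R^{5/2})`.  StGM with `ε = δ`; left side `≥ L^{3/2}T^{-6δ}R³`.  But each term of the right side is `≤ T^{-δ}` times this, up to constants:
(i) `T²R^{3/2}`: `L^{3/2}R^{3/2} ≥ T^{3/2-2δ}L^{3/4} ≥ T^{2+20δ}` as `L ≥ T^{4/5-δ}`.  (ii) `TLR^{1/2}(LR)^{1/2} = TL^{3/2}R`: `R² ≥ T^{2-2δ}L^{-1} ≥ T^{1+40δ}` as `L ≤ T^{1/(1+κ)}`.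
(iii) `TLR^{1/2}(T^{1/2}L^{-1/2}R^{5/2})^{1/2} = T^{5/4}L^{3/4}R^{7/4}`: `R^{5/4}L^{3/4} ≥ T^{5/4-2δ}L^{1/8} ≥ T^{5/4+40δ}`.  (iv) `L²R²(T/R)^{1/k}`, `T/R ≤ T^δL^{1/2}`: `R ≥ T^{1-δ}L^{-1/2}` and `T^{1-δ}L^{-1/2} ≥ L^{1/2+1/(2k)}T^{20δ}` as
`L^{1+1/(2k)} ≤ L^{1+κ/2} ≤ T^{1-c(κ)}`.  (v) `TLR^{2-1/k}`: `R^{1+1/k} ≥ T^{1-δ}L^{-1/2}R^{1/k} ≥ TL^{-1/2}T^{20δ}` as `R ≥ T^{1/2-δ}`. -/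
def StG : Prop := ∀ κ : ℝ, 0 < κ → ∃ δ C : ℝ, 0 < δ ∧ δ ≤ 1 / 10 ∧ 1 ≤ C ∧ ∀ (T0 T L V : ℝ) (a : ℕ → ℂ) (W : Finset ℝ),
  1 ≤ T → T ^ (4 / 5 - δ) ≤ L → L ^ (1 + κ) ≤ T → (∀ n, ‖a n‖ ≤ 1) → Sep W → (∀ t ∈ W, T0 ≤ t ∧ t ≤ T0 + T) →
  L ^ (3 / 4 : ℝ) * T ^ (-δ) ≤ V → (∀ t ∈ W, V ≤ ‖Sd L a t‖) →
  (W.card : ℝ) ≤ C * T ^ (1 - δ) / Real.sqrt L

/-! ### Block D: other large value bounds -/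

/-- ITEM Hx (Huxley; uses StDu, StKp, StS2).  If `V² ≤ C₁ L` then `C T L⁴/V⁶ ≥ C T/(C₁³ L^{-1}) ≥ 2T ≥ R`.  Otherwise cut `[T0,T0+T]` into `≤ 1 + T/T₁` windows of length `T₁ = (V²/(C₁ L))² ≥ 1`; in a window StDu and
StKp: `V²R² ≤ 2L ∑|Bl om L (s-t)| ≤ CL(LR + R²√(1+T₁))`, so `R ≤ C L²/V²` if `C₁` is large.  Total `(1+T/T₁) C L²/V²`. -/
def StHx : Prop := ∃ C : ℝ, 1 ≤ C ∧ ∀ (T0 T L V : ℝ) (a : ℕ → ℂ) (W : Finset ℝ), 1 ≤ L → 1 ≤ T → 0 < V → (∀ n, ‖a n‖ ≤ 1) →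
  Sep W → (∀ t ∈ W, T0 ≤ t ∧ t ≤ T0 + T) → (∀ t ∈ W, V ≤ ‖Sd L a t‖) →
  (W.card : ℝ) ≤ C * (L ^ 2 / V ^ 2 + T * L ^ 4 / V ^ 6)

/-- ITEM Sq (the square of a block in dyadic pieces; uses StPw with `k = 2`).  `Bl² = ∑_n a_n n^{-it}`, `c N² ≤ n ≤ C N²`, `|a_n| ≤ C n^{ε'} ≤ C T^{ε}`.  Pieces `(L_j, 2L_j]`, `L_j = c N² 2^{j-1}`, `j < J`. -/
def StSq : Prop := ∀ w : ℝ → ℝ, IsWt w → ∀ ε : ℝ, 0 < ε → ∃ (J : ℕ) (c C : ℝ), 0 < c ∧ 1 ≤ C ∧ 1 ≤ J ∧ ∀ N T : ℝ, 1 ≤ N → N ≤ T →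
  ∃ (a : ℕ → ℕ → ℂ) (L : ℕ → ℝ), (∀ j n, ‖a j n‖ ≤ 1) ∧ (∀ j < J, c * N ^ 2 ≤ L j ∧ L j ≤ C * N ^ 2) ∧
    ∀ t : ℝ, Bl w N t ^ 2 = ((C * T ^ ε : ℝ) : ℂ) * ∑ j ∈ Finset.range J, Sd (L j) (a j) t

/-- ITEM Tw (twelfth moment for blocks; uses UT.StMC, EM.StZ, EM.StPc, StMel, StS2).  `P(t) = EM.P (T²) t`, `w₁(x) = w(x) x^{1/2}`, `N ≤ T`:
`∑_n w(n/N) e^{-n/T²} n^{-it} = √N ∑_n w₁(n/N) e^{-n/T²} n^{-1/2-it} = √N (1/2π) ∫ Om w₁ y N^{iy} P(t+y) dy` (StMel, `EM.StPc`), and `|w(n/N)(1 - e^{-n/T²})| ≤ C N/T²`, at most `CN` terms: error `≤ C N²/T² ≤ C`.  So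
`|Bl w N t|^{12} ≤ C N⁶ ∫ |P(t+y)|^{12}/(1+|y|)^{30} dy + C` (Hölder, StMel).  Sum over `W` (StS2-type: `∑_{t∈W} (1+|x-t|)^{-2} ≤ C`): `≤ C N⁶ ∫_{T/2}^{3T} |P|^{12} + C N⁶ T^{-10} + C T`
(`|P| ≤ 2T`); `|P| ≤ |ζ| + C` on `[T/2,3T]` (EM.StZ), and UT.StMC with `A = 12`. -/
def StTw : Prop := ∃ δ : ℝ, 0 < δ ∧ δ ≤ 1 / 10 ∧ ∀ w : ℝ → ℝ, IsWt w → ∃ C : ℝ, 1 ≤ C ∧ ∀ (T N : ℝ) (W : Finset ℝ),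
  1 ≤ T → 1 ≤ N → N ≤ T → Sep W → (∀ t ∈ W, T ≤ t ∧ t ≤ 2 * T + 1) →
  ∑ t ∈ W, ‖Bl w N t‖ ^ 12 ≤ C * T ^ (2 - δ) * N ^ 6

/-! ### Block F: assembly -/

/-- ITEM Lv (large values of blocks; uses StMk, StTw, StHx, StSq, StG, StBc).  `δ₀` of StTw; `c₂ = δ₀/16`, `κ = 2c₂`, `δ_G` of StG(κ); `c = min(δ₀, δ_G)/200`, `c₁ = δ_G/4`, `δ = c/4`; all `ε`'s of the ingredients `≤ min(ε,c)/100`.  Put `V = N^{1/2}Y`;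
to show `Y⁸R ≤ C T^{1+ε}N^{1-δ}`.  For `N ≤ C` trivial (`V ≤ CN`, `R ≤ 4T`).
(a) `Y ≤ N^{1/4-c}`: StMk `k = 2`: `Y⁴R ≤ C T^{1+ε'}` (`N² ≤ T`).  (b) `Y ≥ (T/N)^{1/4}T^{-c}`: StTw: `Y^{12}R ≤ C T^{2-δ₀}`, so `Y⁸R ≤ C T^{2-δ₀}Y^{-4} ≤ C N T^{1-δ₀+4c}`.
(c) `N^{1/4+c} ≤ Y ≤ (T/N)^{1/4}T^{-c}`: StSq: for each `t` some piece has `|Sd| ≥ V²/(C T^{ε'}J)`; StHx for each piece (`L ≍ N²`): `R ≤ C T^{6ε'}(N²Y^{-4} + T N²Y^{-12})`.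
(d) `N^{1/4-c} ≤ Y ≤ N^{1/4+c}`: `N ≤ T^{2/5-c₁}`: StMk `k = 3`: `Y⁶R ≤ C T^{ε'}(T+N³)`.  `T^{2/5-c₁} ≤ N ≤ T^{1/2-c₂}`: StSq and StG for each piece (`L ≍ N²`, so `T^{4/5-δ_G} ≤ L`, `L^{1+κ} ≤ T` for large `T`;
`V²/(CT^{ε'}J) ≥ N^{3/2-2c}/(CT^{ε'}J) ≥ L^{3/4}T^{-δ_G}`): `R ≤ C T^{1-δ_G}/N`.  `N ≥ T^{1/2-c₂}`: StTw.  (Note 4098, section 4, has the exponents.) -/
def StLv : Prop := ∃ δ : ℝ, 0 < δ ∧ δ ≤ 1 / 10 ∧ ∀ w : ℝ → ℝ, IsWt w → ∀ ε : ℝ, 0 < ε → ∃ C : ℝ, 1 ≤ C ∧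
  ∀ (T N V : ℝ) (W : Finset ℝ), 1 ≤ T → 1 ≤ N → N ^ 2 ≤ T → 1 ≤ V → Sep W → (∀ t ∈ W, T ≤ t ∧ t ≤ 2 * T + 1) →
  (∀ t ∈ W, V ≤ ‖Bl w N t‖) → V ^ 8 * W.card ≤ C * T ^ (1 + ε) * N ^ (5 - δ)

/-- ITEM Cr (the eighth moment of short blocks; uses StLv, StBc).  For each integer `j ∈ [T-1,2T]` let `t_j ∈ [j,j+1] ∩ [T,2T+1]` be a maximum point of `|Bl|` on `[j,j+1] ∩ [T,2T]`; even and odd `j` give two `1`-separated sets.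
`∫_T^{2T}|Bl|⁸ ≤ ∑_j |Bl(t_j)|⁸`; dyadic `V = 2^i ∈ [1, CN]`, StLv: `≤ C T + C ∑_i 2^8 V⁸R_V`. -/
def StCr : Prop := ∃ δ : ℝ, 0 < δ ∧ δ ≤ 1 / 10 ∧ ∀ w : ℝ → ℝ, IsWt w → ∀ ε : ℝ, 0 < ε → ∃ C : ℝ, 1 ≤ C ∧
  ∀ T N : ℝ, 1 ≤ T → 1 ≤ N → N ^ 2 ≤ T → ∫ t in T..(2 * T), ‖Bl w N t‖ ^ 8 ≤ C * T ^ (1 + ε) * N ^ (5 - δ)

/-- ITEM Rq (reflection for moments; uses StRf, StBc).  StRf with `D = T`, `A = q + 4`, `M = T/N`: for `t ∈ [T,2T]`: `|Bl w N t| ≤ C (N/√T) ∫ |Bl u M (t+y)|/(1+|y|)^A dy + C` (`N ≤ T²`); Hölder `(∫ g/(1+|y|)^A)^q ≤ C∫ g^q/(1+|y|)^A`.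
The part `|y| ≤ T/4` gives `C (N/√T)^q ∫_{3T/4}^{9T/4} |Bl u M|^q` (Fubini); the part `|y| > T/4`: `|Bl u M| ≤ CM`, `≤ C (N/√T)^q M^q T · T^{1-A} = C T^{q/2+2-A} ≤ C`. -/
def StRq : Prop := ∀ w : ℝ → ℝ, IsWt w → ∃ u : ℝ → ℝ, IsWt u ∧ ∀ q : ℕ, 1 ≤ q → ∃ C : ℝ, 1 ≤ C ∧ ∀ T N : ℝ, 1 ≤ T → 1 ≤ N →
  N ≤ T ^ 2 → ∫ t in T..(2 * T), ‖Bl w N t‖ ^ q ≤
    C * (N / Real.sqrt T) ^ q * (∫ t in (3 / 4 * T)..(9 / 4 * T), ‖Bl u (T / N) t‖ ^ q) + C * T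

/-- ITEM C4 (fourth moment of blocks; uses StPw with `k = 2`, `Pool.Agent.Work.MP_37bd4f_nt.mean_value`, StRq, StBc).  Short blocks `N² ≤ 4T`: `Bl² = Dp Y a`, `Y ≤ C N²`, `|a_n| ≤ C n^{ε'}`, `mean_value`: `∫_{T/2}^{3T}|Bl|⁴ ≤ C T^ε(T+N²)N² ≤ C T^{1+ε}N²`.
`N² > T`: StRq, `M = T/N ≤ √T`: `C (N/√T)⁴ T^{1+ε} M² = C T^{1+ε}N²` if `M ≥ 1`; if `M < 1` then `|Bl u M| ≤ C`, `(N/√T)⁴T = N²(N/T)²T ≤ N²T^{1+2ε}`. -/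
def StC4 : Prop := ∀ w : ℝ → ℝ, IsWt w → ∀ ε : ℝ, 0 < ε → ε < 1 / 10 → ∃ C : ℝ, 1 ≤ C ∧
  ∀ T N : ℝ, 1 ≤ T → 1 ≤ N → N ≤ T ^ (1 + ε) →
    ∫ t in T..(2 * T), ‖Bl w N t‖ ^ 4 ≤ C * T ^ (1 + 10 * ε) * N ^ 2

/-- ITEM Cs (eighth moment of all blocks up to `T^{1+ε}`; uses StCr, StRq, StBc).  `N² ≤ T`: StCr.  Otherwise StRq with `q = 8`, `M = T/N ≤ √T`, `M ≤ N`.  If `M < 2`: `|Bl u M| ≤ C`, `(N/√T)⁸ T = N⁴ (N/T)⁴ T ≤ N⁴ T^{1+4ε}`.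
If `M ≥ 2`: `Bl u M = Bl u₂ (M/2)` with the weight `u₂(x) = u(x/2)` (`IsWt.comp_mul` in `UC/I_Ow.lean`), `1 ≤ M/2`, `(M/2)² ≤ T/4`; StCr on `[3T/4, 3T/2]` and `[3T/2, 3T]`:
`C (N/√T)⁸ T^{1+ε} M^{5-δ} = C T^{1+ε}N⁴M^{1-δ} ≤ C T^{1+ε}N^{5-δ}`. -/
def StCs : Prop := ∃ δ : ℝ, 0 < δ ∧ δ ≤ 1 / 10 ∧ ∀ w : ℝ → ℝ, IsWt w → ∀ ε : ℝ, 0 < ε → ε < 1 / 10 → ∃ C : ℝ, 1 ≤ C ∧
  ∀ T N : ℝ, 1 ≤ T → 1 ≤ N → N ≤ T ^ (1 + ε) →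
    ∫ t in T..(2 * T), ‖Bl w N t‖ ^ 8 ≤ C * T ^ (1 + 10 * ε) * N ^ (5 - δ)

/-- ITEM CA (all moments of blocks between `4` and `8`; uses StC4, StCs, StBc).  Hölder `∫|B|^A ≤ (∫|B|⁴)^{(8-A)/4} (∫|B|⁸)^{(A-4)/4}`, `2(8-A)/4 + (5-δ)(A-4)/4 = A/2 + (1-δ)(A-4)/4 = A·sg δ A`. -/
def StCA : Prop := ∃ δ : ℝ, 0 < δ ∧ δ ≤ 1 / 10 ∧ ∀ A : ℝ, 4 ≤ A → A ≤ 8 → ∀ w : ℝ → ℝ, IsWt w → ∀ ε : ℝ, 0 < ε → ε < 1 / 10 →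
  ∃ C : ℝ, 1 ≤ C ∧ ∀ T N : ℝ, 1 ≤ T → 1 ≤ N → N ≤ T ^ (1 + ε) →
    ∫ t in T..(2 * T), ‖Bl w N t‖ ^ A ≤ C * T ^ (1 + 10 * ε) * N ^ (A * sg δ A)

/-- ITEM Ze (approximation of zeta; uses `Pool.Agent.Work.MP_37bd4f_nt.zeta₁_approx`, StNs, StN0, StPo).  (i) `X' = T⁴`: `Zs X' s = ∑_{M} (η(M/X') - η((M+1)/X')) ∑_{n ≤ M} n^{-s}` (Abel), `ζ₁_approx`: `∑_{n≤M} n^{-s} = ζ(s) + M^{1-s}/(1-s) + O(|s| M^{-σ}/σ)` for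
`M ≥ X'`, the error contributes `≤ C T X'^{-1/2} = C/T`; the main extra term `∑_M (η(M/X')-η((M+1)/X')) M^{1-s}/(1-s)` is `O(X'^{1-σ} T^{-20})` after replacing the sum by an integral `∫ (-η'(x/X')/X') x^{1-s} dx/(1-s)` (the difference is
`≤ C |s| X'^{-σ}`), which is `X'^{1-s} ∫(-η'(v))v^{1-s}dv/(1-s)`, and `∫ η'(v) v^{1-s} dv` decays faster than any power of `t`.  (ii) `Zs (2X) s - Zs X s = ∑ ψ(n/(2X)) n^{-s} = (2X)^{-σ} Bl w (2X) t` with `w(x) = ψ(x)x^{-σ}`; for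
`N = 2X ≥ C T` all `m ≠ 0` are nonstationary (StNs): `|Bl| ≤ ∑ CN/(mN)² + C N T^{-20} ≤ C/N + C N T^{-20}`.  Sum over the `O(log T)` steps `X, 2X, …`, `X' = 2^j X ∈ [T⁴, 2T⁴]`.
Small `T` (`T^ε ≤ C`): everything is bounded. -/
def StZe : Prop := ∀ ε σ : ℝ, 0 < ε → ε < 1 / 10 → 1 / 2 ≤ σ → σ < 1 → ∃ C : ℝ, 1 ≤ C ∧ ∀ T t X : ℝ, 1 ≤ T → T ≤ t →
  t ≤ 2 * T → T ^ (1 + ε) ≤ X → X ≤ T ^ 3 →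
  ‖riemannZeta (σ + t * Complex.I) - Zs X (σ + t * Complex.I)‖ ≤ C / Real.sqrt T

/-- ITEM Zd (the tail is small in `L^A`; uses StZe, StCA).  `Y = T^{1/20}`, `ε = (σ - sg δ A)/800` (`< 1/20`), `X = 2^J Y ∈ [T^{1+ε}, 2T^{1+ε})`, StZe.  `Zs X s - Zs Y s = ∑_{j=1}^{J} ∑_n ψ(n/(2^jY)) n^{-s}`
(telescoping, `η(n/N) - η(2n/N) = ψ(n/N)`), each piece is `N^{-σ}Bl w N t`, `w(x) = ψ(x)x^{-σ}` (`isWt_psi_rpow`), `N = 2^jY`, `2Y ≤ N ≤ 2T^{1+ε} ≤ T^{1+2ε}` (large `T`); StCA with `2ε`: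
`∫_T^{2T} |N^{-σ}Bl|^A ≤ C T^{1+20ε} N^{-A(σ-sg δ A)} ≤ C T^{1+20ε-4(σ-sg δ A)/20}`.  `(∑_{j≤J} x_j)^A ≤ J^{A-1} ∑ x_j^A`, `J ≤ C log T`.  The error of StZe contributes `C T^{1-2}`. -/
def StZd : Prop := ∃ δ : ℝ, 0 < δ ∧ δ ≤ 1 / 10 ∧ ∀ A : ℝ, 4 ≤ A → A ≤ 8 → ∀ σ : ℝ, sg δ A < σ → σ < 1 →
  ∃ η C : ℝ, 0 < η ∧ 1 ≤ C ∧ ∀ T : ℝ, 1 ≤ T →
  ∫ t in T..(2 * T), ‖riemannZeta (σ + t * Complex.I) - Zs (T ^ (1 / 20 : ℝ)) (σ + t * Complex.I)‖ ^ A ≤ C * T ^ (1 - η)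

/-- ITEM Zp (even moments of the short sum, `r ≤ 4`).  `Y = T^{1/20}`, `Zs Y s ^ r = ∑_n c_n n^{-s}`, `n ≤ (2Y)^r`, `0 ≤ c_n ≤ dr r n`, `c_n = dr r n` for `1 ≤ n ≤ Y`.
`∫_T^{2T} |∑ c_n n^{-σ-it}|² dt = T ∑ c_n² n^{-2σ} + O(∑_{m≠n} c_m c_n/|log(m/n)|)`, `1/|log(m/n)| ≤ 2(2Y)^r`, `∑ c_n ≤ (2Y)^r`: error `≤ C Y^{3r} ≤ C T^{3/5}`.  `dr r n ≤ C n^ε` (from `d(n)^{r-1}`, `MP_cb106b_nt.Ct.divisor_bound`), so the series converges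
and `∑_{n>Y} (dr r n)² n^{-2σ} ≤ C Y^{-(2σ-1)/2}`. -/
def StZp : Prop := ∀ (r : ℕ) (σ : ℝ), 1 ≤ r → r ≤ 4 → 1 / 2 < σ → σ < 1 →
  (Summable fun n : ℕ => (dr r n : ℝ) ^ 2 / (n : ℝ) ^ (2 * σ)) ∧ ∃ η C : ℝ, 0 < η ∧ 1 ≤ C ∧ ∀ T : ℝ, 1 ≤ T →
  |(∫ t in T..(2 * T), ‖Zs (T ^ (1 / 20 : ℝ)) (σ + t * Complex.I)‖ ^ (2 * r)) -
    T * ∑' n : ℕ, (dr r n : ℝ) ^ 2 / (n : ℝ) ^ (2 * σ)| ≤ C * T ^ (1 - η)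

/-- ITEM UA (asymptotic formula, `r = 3, 4`; uses StZd, StZp).  `A = 2r`.  `||ζ|^{A} - |Z|^{A}| ≤ A|ζ-Z|(|ζ|+|Z|)^{A-1}` and Hölder: `∫_T^{2T} |ζ|^A = ∫_T^{2T}|Z|^A + O(T^{1-η'})` (first `∫|ζ|^A ≤ 2^A(∫|Z|^A + ∫|ζ-Z|^A) ≤ C T`).  So
`∫_T^{2T}|ζ|^{2r} = T S + O(T^{1-c})`; for `∫_1^T` sum over `[T/2^{j}, T/2^{j-1}]`, `T/2^J ∈ [1,2)` (the part `[1,2)` is bounded). -/
def StUA : Prop := ∃ δ : ℝ, 0 < δ ∧ δ ≤ 1 / 10 ∧ ∀ r : ℕ, (r = 3 ∨ r = 4) → ∀ σ : ℝ, sg δ (2 * r) < σ → σ < 1 →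
  (Summable fun n : ℕ => (dr r n : ℝ) ^ 2 / (n : ℝ) ^ (2 * σ)) ∧ ∃ c C : ℝ, 0 < c ∧ 1 ≤ C ∧ ∀ T : ℝ, 1 ≤ T →
  |(∫ t in (1 : ℝ)..T, ‖riemannZeta (σ + t * Complex.I)‖ ^ (2 * r)) -
    T * ∑' n : ℕ, (dr r n : ℝ) ^ 2 / (n : ℝ) ^ (2 * σ)| ≤ C * T ^ (1 - c)

/-- ITEM UM (bounded mean values for all real exponents in `[4,8]`; uses StZd, StZp with `r = 4`).  `∫_T^{2T}|Z|^A ≤ (∫|Z|⁸)^{A/8} T^{1-A/8} ≤ C T`. -/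
def StUM : Prop := ∃ δ : ℝ, 0 < δ ∧ δ ≤ 1 / 10 ∧ ∀ A : ℝ, 4 ≤ A → A ≤ 8 → ∀ σ : ℝ, sg δ A < σ → σ < 1 →
  ∃ C : ℝ, 1 ≤ C ∧ ∀ T : ℝ, 1 ≤ T → ∫ t in (1 : ℝ)..T, ‖riemannZeta (σ + t * Complex.I)‖ ^ A ≤ C * T

end Pool.Agent.Work.MP_56b8f5_nt.UC
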