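import Pool.Agent.Work.MP_56b8f5_nt.UC.Stmts
import Pool.Agent.Work.MP_cb106b_nt.Ct.DivB

/-!
MP_56b8f5_nt, block UC, item Af (the affine lemma).
-/

open MeasureTheory Set Filter Topology

noncomputable section

namespace Pool.Agent.Work.MP_56b8f5_nt.UC

open Pool.Agent.Work.MP_56b8f5_nt.UB (ee om)

namespace Af_aux

lemma norm_ee (x : ℝ) : ‖ee x‖ = 1 := Complex.norm_exp_ofReal_mul_I _

lemma ee_add (x y : ℝ) : ee (x + y) = ee x * ee y := by
  unfold ee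
  rw [← Complex.exp_add]
  congr 1
  push_cast
  ring

lemma ee_zero : ee 0 = 1 := by
  unfold ee
  simp

lemma ee_conj (x : ℝ) : (starRingEnd ℂ) (ee x) = ee (-x) := by
  unfold ee
  rw [← Complex.exp_conj, map_mul, Complex.conj_ofReal, Complex.conj_I]
  congr 1
  push_cast
  ring

lemma cont_ee : Continuous ee := by
  unfold ee
  fun_prop

lemma cont_ee_mul (a : ℝ) : Continuous (fun v : ℝ => ee (a * v)) :=
  cont_ee.comp (by fun_prop)

lemma int_ee (j : ℤ) (hj : j ≠ 0) : ∫ v in (0 : ℝ)..25, ee (j * v) = 0 := by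
  have hc : (2 * Real.pi * j * Complex.I : ℂ) ≠ 0 := by
    have h1 : (j : ℂ) ≠ 0 := by exact_mod_cast hj
    have h2 : (Real.pi : ℂ) ≠ 0 := by exact_mod_cast Real.pi_ne_zero
    have h3 : (2 : ℂ) ≠ 0 := two_ne_zero
    exact mul_ne_zero (mul_ne_zero (mul_ne_zero h3 h2) h1) Complex.I_ne_zero
  have h : ∀ v : ℝ, ee (j * v) = Complex.exp ((2 * Real.pi * j * Complex.I : ℂ) * v) := by
    intro v
    unfold ee
    congr 1
    push_cast
    ring
  simp_rw [h]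
  rw [integral_exp_mul_complex hc]
  have h2 : Complex.exp ((2 * Real.pi * j * Complex.I : ℂ) * ((25 : ℝ) : ℂ)) = 1 := by
    rw [Complex.exp_eq_one_iff]
    refine ⟨25 * j, ?_⟩
    push_cast
    ring
  have h3 : Complex.exp ((2 * Real.pi * j * Complex.I : ℂ) * ((0 : ℝ) : ℂ)) = 1 := by simp
  rw [h2, h3, sub_self, zero_div]

/-- orthogonality -/
lemma pars (N : Finset ℤ) (B : ℤ → ℂ) :
    ∫ v in (0 : ℝ)..25, ‖∑ n ∈ N, B n * ee (n * v)‖ ^ 2 = 25 * ∑ n ∈ N, ‖B n‖ ^ 2 := by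
  have h : ((∫ v in (0 : ℝ)..25, ‖∑ n ∈ N, B n * ee (n * v)‖ ^ 2 : ℝ) : ℂ) =
      ((25 * ∑ n ∈ N, ‖B n‖ ^ 2 : ℝ) : ℂ) := by
    rw [← intervalIntegral.integral_ofReal]
    have h1 : ∀ v : ℝ, ((‖∑ n ∈ N, B n * ee (n * v)‖ ^ 2 : ℝ) : ℂ) =
        ∑ n ∈ N, ∑ m ∈ N, B n * (starRingEnd ℂ) (B m) * ee (((n - m : ℤ) : ℝ) * v) := by
      intro v
      have e1 : ((‖∑ n ∈ N, B n * ee (n * v)‖ ^ 2 : ℝ) : ℂ) =
          (∑ n ∈ N, B n * ee (n * v)) * (starRingEnd ℂ) (∑ n ∈ N, B n * ee (n * v)) := by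
        rw [Complex.mul_conj']
        push_cast
        rfl
      rw [e1, map_sum, Finset.sum_mul_sum]
      apply Finset.sum_congr rfl
      intro n _
      apply Finset.sum_congr rfl
      intro m _
      rw [map_mul, ee_conj]
      have e2 : ee (((n - m : ℤ) : ℝ) * v) = ee (n * v) * ee (-(m * v)) := by
        rw [← ee_add]
        congr 1
        push_cast
        ring
      rw [e2]
      ring
    simp_rw [h1]
    rw [intervalIntegral.integral_finsetSum]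
    · have h2 : ∀ n ∈ N, ∫ v in (0 : ℝ)..25, ∑ m ∈ N,
          B n * (starRingEnd ℂ) (B m) * ee (((n - m : ℤ) : ℝ) * v) = 25 * ((‖B n‖ ^ 2 : ℝ) : ℂ) := by
        intro n hn
        rw [intervalIntegral.integral_finsetSum]
        · have h3 : ∀ m ∈ N, ∫ v in (0 : ℝ)..25,
              B n * (starRingEnd ℂ) (B m) * ee (((n - m : ℤ) : ℝ) * v) =
              if m = n then 25 * ((‖B n‖ ^ 2 : ℝ) : ℂ) else 0 := by
            intro m _
            rw [intervalIntegral.integral_const_mul]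
            by_cases hmn : m = n
            · subst hmn
              rw [if_pos rfl]
              have e3 : ∀ v : ℝ, ee (((m - m : ℤ) : ℝ) * v) = 1 := by
                intro v
                rw [sub_self, Int.cast_zero, zero_mul, ee_zero]
              simp_rw [e3]
              rw [intervalIntegral.integral_const, Complex.mul_conj']
              simp only [sub_zero, Complex.real_smul, mul_one]
              push_cast
              ring
            · rw [if_neg hmn, int_ee (n - m) (sub_ne_zero.2 (Ne.symm hmn)), mul_zero]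
          rw [Finset.sum_congr rfl h3, Finset.sum_ite_eq' N n, if_pos hn]
        · intro m _
          apply Continuous.intervalIntegrable
          exact continuous_const.mul (cont_ee_mul _)
      rw [Finset.sum_congr rfl h2, ← Finset.mul_sum]
      push_cast
      rfl
    · intro n _
      apply Continuous.intervalIntegrable
      exact continuous_finsetSum _ fun m _ => continuous_const.mul (cont_ee_mul _)
  exact_mod_cast h

lemma JI_sub : JI ⊆ Ioc (0 : ℝ) 25 := by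
  intro x hx
  unfold JI at hx
  exact ⟨lt_of_lt_of_le (by norm_num) hx.1, hx.2⟩

lemma upJ (g : ℝ → ℝ) (hg : Continuous g) (h0 : ∀ x, 0 ≤ g x) :
    ∫ v in JI, g v ≤ ∫ v in (0 : ℝ)..25, g v := by
  rw [intervalIntegral.integral_of_le (by norm_num)]
  apply setIntegral_mono_set
  · exact hg.integrableOn_Ioc
  · exact Filter.Eventually.of_forall fun x => h0 x
  · exact JI_sub.eventuallyLE

lemma parsJ (N : Finset ℤ) (B : ℤ → ℂ) :
    ∫ v in JI, ‖∑ n ∈ N, B n * ee (n * v)‖ ^ 2 ≤ 25 * ∑ n ∈ N, ‖B n‖ ^ 2 := by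
  rw [← pars]
  apply upJ (fun v => ‖∑ n ∈ N, B n * ee (n * v)‖ ^ 2)
  · exact (continuous_finsetSum _ fun m _ => continuous_const.mul (cont_ee_mul _)).norm.pow 2
  · intro x
    positivity

lemma isCompact_JI : IsCompact JI := isCompact_Icc

lemma meas_JI : MeasurableSet JI := measurableSet_Icc

lemma vol_JI : (volume JI).toReal ≤ 25 := by
  unfold JI
  rw [Real.volume_Icc, ENNReal.toReal_ofReal (by norm_num)]
  norm_num

/-- Fourier coefficient -/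
def fh (f : ℝ → ℝ) (n : ℤ) : ℂ := ∫ z in JI, ((f z : ℝ) : ℂ) * ee (n * z)

lemma fint {f : ℝ → ℝ} (hf : ContinuousOn f JI) (g : ℝ → ℂ) (hg : Continuous g) :
    IntegrableOn (fun z => ((f z : ℝ) : ℂ) * g z) JI :=
  ((Complex.continuous_ofReal.comp_continuousOn hf).mul hg.continuousOn).integrableOn_compact
    isCompact_JI

lemma fint' {f : ℝ → ℝ} (hf : ContinuousOn f JI) : IntegrableOn f JI :=
  hf.integrableOn_compact isCompact_JI

/-- Bessel -/
lemma bessel {f : ℝ → ℝ} (hf : ContinuousOn f JI) (N : Finset ℤ) :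
    ∑ n ∈ N, ‖fh f n‖ ^ 2 ≤ 25 * ∫ z in JI, f z ^ 2 := by
  set S : ℝ := ∑ n ∈ N, ‖fh f n‖ ^ 2 with hS
  set P : ℝ → ℂ := fun z => ∑ n ∈ N, (starRingEnd ℂ) (fh f n) * ee (n * z) with hP
  have hPc : Continuous P := continuous_finsetSum _ fun m _ => continuous_const.mul (cont_ee_mul _)
  have h1 : ((S : ℝ) : ℂ) = ∫ z in JI, ((f z : ℝ) : ℂ) * P z := by
    have e1 : ∀ z, ((f z : ℝ) : ℂ) * P z =
        ∑ n ∈ N, (starRingEnd ℂ) (fh f n) * (((f z : ℝ) : ℂ) * ee (n * z)) := by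
      intro z
      rw [hP, Finset.mul_sum]
      apply Finset.sum_congr rfl
      intro n _
      ring
    simp_rw [e1]
    rw [integral_finsetSum]
    · rw [hS]
      push_cast
      apply Finset.sum_congr rfl
      intro n _
      rw [integral_const_mul]
      change _ = (starRingEnd ℂ) (fh f n) * fh f n
      rw [mul_comm, Complex.mul_conj']
    · intro n _
      exact (fint hf _ (cont_ee_mul _)).const_mul _
  have hPint : IntegrableOn (fun z => ‖P z‖ ^ 2) JI :=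
    (hPc.norm.pow 2).continuousOn.integrableOn_compact isCompact_JI
  have hfint : IntegrableOn (fun z => f z ^ 2) JI := (hf.pow 2).integrableOn_compact isCompact_JI
  have h2 : S ≤ ∫ z in JI, (25 / 2 * f z ^ 2 + 1 / 50 * ‖P z‖ ^ 2) := by
    have e2 : S = ‖∫ z in JI, ((f z : ℝ) : ℂ) * P z‖ := by
      rw [← h1, Complex.norm_real, Real.norm_eq_abs, abs_of_nonneg]
      exact Finset.sum_nonneg fun n _ => by positivity
    rw [e2]
    refine norm_integral_le_of_norm_le ?_ (Filter.Eventually.of_forall fun z => ?_)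
    · exact (hfint.const_mul _).add (hPint.const_mul _)
    · rw [norm_mul, Complex.norm_real, Real.norm_eq_abs]
      nlinarith [sq_nonneg (25 * |f z| - ‖P z‖), sq_abs (f z)]
  have h3 : ∫ z in JI, (25 / 2 * f z ^ 2 + 1 / 50 * ‖P z‖ ^ 2) =
      25 / 2 * (∫ z in JI, f z ^ 2) + 1 / 50 * ∫ z in JI, ‖P z‖ ^ 2 := by
    rw [integral_add (hfint.const_mul _) (hPint.const_mul _), integral_const_mul,
      integral_const_mul]
  have h4 : ∫ z in JI, ‖P z‖ ^ 2 ≤ 25 * S := by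
    have := parsJ N (fun n => (starRingEnd ℂ) (fh f n))
    simp only [RCLike.norm_conj] at this
    exact this
  linarith

/-- the nonzero integers of modulus at most `M` -/
def SM (M : ℕ) : Finset ℤ := (Finset.Icc (-(M : ℤ)) M).filter (fun m => m ≠ 0)

lemma card_SM (M : ℕ) : ((SM M).card : ℝ) ≤ 2 * M := by
  have h : SM M = (Finset.Icc (-(M : ℤ)) M).erase 0 := by
    ext x
    simp only [SM, Finset.mem_filter, Finset.mem_erase]
    tauto
  have h2 : (SM M).card ≤ 2 * M := by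
    rw [h, Finset.card_erase_of_mem (by simp), Int.card_Icc]
    omega
  exact_mod_cast h2

/-- the number of representations of `n` as a product -/
lemma card_rep (K M : ℕ) (C0 e : ℝ) (he : 0 ≤ e)
    (hd : ∀ N : ℕ, 1 ≤ N → ((N.divisors.card : ℕ) : ℝ) ≤ C0 * (N : ℝ) ^ e) (hC0 : 0 ≤ C0) (n : ℤ) :
    (((SM K ×ˢ SM M).filter (fun p => p.1 * p.2 = n)).card : ℝ) ≤
      2 * C0 * ((K : ℝ) * M) ^ e := by
  classical
  have hpos : 0 ≤ 2 * C0 * ((K : ℝ) * M) ^ e := by positivity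
  by_cases hemp : (SM K ×ˢ SM M).filter (fun p => p.1 * p.2 = n) = ∅
  · rw [hemp, Finset.card_empty, Nat.cast_zero]
    exact hpos
  obtain ⟨p, hp⟩ := Finset.nonempty_iff_ne_empty.2 hemp
  rw [Finset.mem_filter, Finset.mem_product] at hp
  obtain ⟨⟨hp1, hp2⟩, hpn⟩ := hp
  simp only [SM, Finset.mem_filter, Finset.mem_Icc] at hp1 hp2
  have hn0 : n ≠ 0 := by
    rw [← hpn]
    exact mul_ne_zero hp1.2 hp2.2
  have hnabs : (n.natAbs : ℝ) ≤ (K : ℝ) * M := by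
    have h1 : p.1.natAbs ≤ K := by omega
    have h2 : p.2.natAbs ≤ M := by omega
    have h3 : n.natAbs ≤ K * M := by
      rw [← hpn, Int.natAbs_mul]
      exact Nat.mul_le_mul h1 h2
    exact_mod_cast h3
  have hcard : ((SM K ×ˢ SM M).filter (fun p => p.1 * p.2 = n)).card ≤
      (n.natAbs.divisors ×ˢ ({1, -1} : Finset ℤ)).card := by
    refine Finset.card_le_card_of_injOn (fun p => (p.1.natAbs, p.1.sign)) ?_ ?_
    · intro q hq
      rw [Finset.mem_coe, Finset.mem_filter, Finset.mem_product] at hq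
      obtain ⟨⟨hq1, hq2⟩, hqn⟩ := hq
      simp only [SM, Finset.mem_filter, Finset.mem_Icc] at hq1 hq2
      rw [Finset.mem_coe, Finset.mem_product]
      refine ⟨?_, ?_⟩
      · rw [Nat.mem_divisors]
        refine ⟨?_, Int.natAbs_ne_zero.2 hn0⟩
        rw [Int.natAbs_dvd_natAbs]
        exact ⟨q.2, hqn.symm⟩
      · rcases lt_or_gt_of_ne hq1.2 with h | h
        · simp [Int.sign_eq_neg_one_of_neg h]
        · simp [Int.sign_eq_one_of_pos h]
    · intro q hq r hr hqr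
      rw [Finset.mem_coe, Finset.mem_filter, Finset.mem_product] at hq hr
      obtain ⟨⟨hq1, hq2⟩, hqn⟩ := hq
      obtain ⟨⟨hr1, hr2⟩, hrn⟩ := hr
      simp only [SM, Finset.mem_filter, Finset.mem_Icc] at hq1 hq2 hr1 hr2
      have e1 : q.1.natAbs = r.1.natAbs := (Prod.mk.inj hqr).1
      have e2 : q.1.sign = r.1.sign := (Prod.mk.inj hqr).2
      have e3 : q.1 = r.1 := by
        rw [← Int.sign_mul_natAbs q.1, ← Int.sign_mul_natAbs r.1, e1, e2]
      have e4 : q.2 = r.2 := by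
        have : q.1 * q.2 = q.1 * r.2 := by rw [hqn, e3, hrn]
        exact mul_left_cancel₀ hq1.2 this
      exact Prod.ext e3 e4
  have hcard2 : (n.natAbs.divisors ×ˢ ({1, -1} : Finset ℤ)).card = n.natAbs.divisors.card * 2 := by
    rw [Finset.card_product]
    rfl
  have hN : 1 ≤ n.natAbs := Nat.one_le_iff_ne_zero.2 (Int.natAbs_ne_zero.2 hn0)
  calc (((SM K ×ˢ SM M).filter (fun p => p.1 * p.2 = n)).card : ℝ)
      ≤ ((n.natAbs.divisors.card * 2 : ℕ) : ℝ) := by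
        rw [← hcard2]
        exact_mod_cast hcard
    _ = 2 * (n.natAbs.divisors.card : ℝ) := by push_cast; ring
    _ ≤ 2 * (C0 * (n.natAbs : ℝ) ^ e) := by
        have := hd _ hN
        linarith
    _ ≤ 2 * (C0 * ((K : ℝ) * M) ^ e) := by
        gcongr
    _ = _ := by ring

/-- sum over products -/
lemma fib (T : Finset (ℤ × ℤ)) (D : ℝ)
    (hD : ∀ n : ℤ, ((T.filter (fun p => p.1 * p.2 = n)).card : ℝ) ≤ D) (φ : ℤ × ℤ → ℂ) :
    ∫ v in JI, ‖∑ p ∈ T, φ p * ee (((p.1 * p.2 : ℤ) : ℝ) * v)‖ ^ 2 ≤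
      25 * (D * ∑ p ∈ T, ‖φ p‖ ^ 2) := by
  classical
  set N : Finset ℤ := T.image (fun p => p.1 * p.2) with hN
  set B : ℤ → ℂ := fun n => ∑ p ∈ T.filter (fun p => p.1 * p.2 = n), φ p with hB
  have hmap : ∀ p ∈ T, (fun p : ℤ × ℤ => p.1 * p.2) p ∈ N := fun p hp =>
    Finset.mem_image_of_mem _ hp
  have h1 : ∀ v : ℝ, ∑ p ∈ T, φ p * ee (((p.1 * p.2 : ℤ) : ℝ) * v) =
      ∑ n ∈ N, B n * ee (n * v) := by
    intro v
    rw [← Finset.sum_fiberwise_of_maps_to hmap]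
    apply Finset.sum_congr rfl
    intro n _
    rw [hB, Finset.sum_mul]
    apply Finset.sum_congr rfl
    intro p hp
    rw [Finset.mem_filter] at hp
    rw [hp.2]
  simp_rw [h1]
  refine (parsJ N B).trans ?_
  refine mul_le_mul_of_nonneg_left ?_ (by norm_num)
  rw [← Finset.sum_fiberwise_of_maps_to hmap, Finset.mul_sum]
  apply Finset.sum_le_sum
  intro n _
  have h2 : ‖B n‖ ≤ ∑ p ∈ T.filter (fun p => p.1 * p.2 = n), ‖φ p‖ := norm_sum_le _ _
  calc ‖B n‖ ^ 2 ≤ (∑ p ∈ T.filter (fun p => p.1 * p.2 = n), ‖φ p‖) ^ 2 := by gcongr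
    _ ≤ ((T.filter (fun p => p.1 * p.2 = n)).card : ℝ) *
        ∑ p ∈ T.filter (fun p => p.1 * p.2 = n), ‖φ p‖ ^ 2 := sq_sum_le_card_mul_sum_sq
    _ ≤ D * ∑ p ∈ T.filter (fun p => p.1 * p.2 = n), ‖φ p‖ ^ 2 := by
        refine mul_le_mul_of_nonneg_right (hD n) ?_
        exact Finset.sum_nonneg fun p _ => by positivity

lemma fib2 (T : Finset (ℤ × ℤ)) (D : ℝ) (hD0 : 0 ≤ D)
    (hD : ∀ n : ℤ, ((T.filter (fun p => p.1 * p.2 = n)).card : ℝ) ≤ D) {f : ℝ → ℝ}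
    (hf : ContinuousOn f JI) :
    ∑ p ∈ T, ‖fh f (p.1 * p.2)‖ ^ 2 ≤ D * (25 * ∫ z in JI, f z ^ 2) := by
  classical
  set N : Finset ℤ := T.image (fun p => p.1 * p.2) with hN
  have hmap : ∀ p ∈ T, (fun p : ℤ × ℤ => p.1 * p.2) p ∈ N := fun p hp =>
    Finset.mem_image_of_mem _ hp
  rw [← Finset.sum_fiberwise_of_maps_to hmap]
  refine le_trans ?_ (mul_le_mul_of_nonneg_left (bessel hf N) hD0)
  rw [Finset.mul_sum]
  apply Finset.sum_le_sum
  intro n _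
  have h1 : ∑ p ∈ T.filter (fun p => (fun p : ℤ × ℤ => p.1 * p.2) p = n),
      ‖fh f (p.1 * p.2)‖ ^ 2 =
      ∑ p ∈ T.filter (fun p => p.1 * p.2 = n), ‖fh f n‖ ^ 2 := by
    apply Finset.sum_congr rfl
    intro p hp
    rw [Finset.mem_filter] at hp
    have hp2 : p.1 * p.2 = n := hp.2
    rw [hp2]
  rw [h1, Finset.sum_const, nsmul_eq_mul]
  exact mul_le_mul_of_nonneg_right (hD n) (by positivity)

/-- `A_k` -/
def AA (f : ℝ → ℝ) (M : ℕ) (k : ℤ) : ℂ := ∑ m ∈ SM M, fh f (k * m)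

/-- `H(v)` -/
def HH (f : ℝ → ℝ) (K M : ℕ) (c : ℤ → ℝ) (v : ℝ) : ℂ :=
  ∑ k ∈ Finset.Icc (-(K : ℤ)) K, (c k : ℂ) * (∑ m ∈ SM M, ee (((k * m : ℤ) : ℝ) * v)) * AA f M k

lemma cont_HH (f : ℝ → ℝ) (K M : ℕ) (c : ℤ → ℝ) : Continuous (HH f K M c) := by
  unfold HH
  refine continuous_finsetSum _ fun k _ => ?_
  refine (continuous_const.mul ?_).mul continuous_const
  exact continuous_finsetSum _ fun m _ => cont_ee_mul _

/-- pointwise bound -/
lemma point {f : ℝ → ℝ} (hf : ContinuousOn f JI) (hf0 : ∀ z ∈ JI, 0 ≤ f z) (L : ℝ) (K M : ℕ)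
    (hL : 1 ≤ L) (hK2 : (K : ℝ) ≤ 2 * L) (c : ℤ → ℝ)
    (hc : ∀ x : ℝ, 1 / (1 + K * dZ x) ^ 2 ≤
      (∑ k ∈ Finset.Icc (-(K : ℤ)) K, (c k : ℂ) * ee (k * x)).re) (v : ℝ) :
    Fm L M f v ≤ 4 * ‖HH f K M c v‖ := by
  have hdz : ∀ x, 0 ≤ dZ x := fun x => abs_nonneg _
  have key : ∀ m1 m2 : ℤ, ∫ z in JI, f z / (1 + L * dZ (m1 * v + m2 * z)) ^ 2 ≤
      4 * (∑ k ∈ Finset.Icc (-(K : ℤ)) K, (c k : ℂ) * ee (((k * m1 : ℤ) : ℝ) * v) *
        fh f (k * m2)).re := by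
    intro m1 m2
    have hgc : Continuous (fun z : ℝ => ∑ k ∈ Finset.Icc (-(K : ℤ)) K,
        (c k : ℂ) * ee (k * (m1 * v + m2 * z))) :=
      continuous_finsetSum _ fun k _ => continuous_const.mul (cont_ee.comp (by fun_prop))
    have hgi := fint hf _ hgc
    have e1 : ∫ z in JI, ((f z : ℝ) : ℂ) * (∑ k ∈ Finset.Icc (-(K : ℤ)) K,
        (c k : ℂ) * ee (k * (m1 * v + m2 * z))) =
        ∑ k ∈ Finset.Icc (-(K : ℤ)) K, (c k : ℂ) * ee (((k * m1 : ℤ) : ℝ) * v) *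
        fh f (k * m2) := by
      have e2 : ∀ z : ℝ, ((f z : ℝ) : ℂ) * (∑ k ∈ Finset.Icc (-(K : ℤ)) K,
          (c k : ℂ) * ee (k * (m1 * v + m2 * z))) =
          ∑ k ∈ Finset.Icc (-(K : ℤ)) K, (c k : ℂ) * ee (((k * m1 : ℤ) : ℝ) * v) *
          (((f z : ℝ) : ℂ) * ee (((k * m2 : ℤ) : ℝ) * z)) := by
        intro z
        rw [Finset.mul_sum]
        apply Finset.sum_congr rfl
        intro k _
        have e3 : ee (k * (m1 * v + m2 * z)) =
            ee (((k * m1 : ℤ) : ℝ) * v) * ee (((k * m2 : ℤ) : ℝ) * z) := by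
          rw [← ee_add]
          congr 1
          push_cast
          ring
        rw [e3]
        ring
      simp_rw [e2]
      rw [integral_finsetSum]
      · apply Finset.sum_congr rfl
        intro k _
        rw [integral_const_mul]
        rfl
      · intro k _
        exact (fint hf _ (cont_ee_mul _)).const_mul _
    rw [← e1]
    have e4 : (∫ z in JI, ((f z : ℝ) : ℂ) * (∑ k ∈ Finset.Icc (-(K : ℤ)) K,
        (c k : ℂ) * ee (k * (m1 * v + m2 * z)))).re =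
        ∫ z in JI, (((f z : ℝ) : ℂ) * (∑ k ∈ Finset.Icc (-(K : ℤ)) K,
        (c k : ℂ) * ee (k * (m1 * v + m2 * z)))).re :=
      (integral_re hgi).symm
    rw [e4, ← integral_const_mul]
    apply integral_mono_of_nonneg
    · refine (ae_restrict_iff' meas_JI).2 (Filter.Eventually.of_forall fun z hz => ?_)
      exact div_nonneg (hf0 z hz) (by positivity)
    · exact hgi.re.const_mul 4
    · refine (ae_restrict_iff' meas_JI).2 (Filter.Eventually.of_forall fun z hz => ?_)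
      simp only
      rw [Complex.re_ofReal_mul]
      have h1 := hc (m1 * v + m2 * z)
      set d : ℝ := dZ (m1 * v + m2 * z) with hd
      have hd0 : 0 ≤ d := hdz _
      have h2 : 1 / (1 + L * d) ^ 2 ≤ 4 * (1 / (1 + K * d) ^ 2) := by
        rw [mul_one_div, div_le_div_iff₀ (by positivity) (by positivity)]
        have h3 : 1 + K * d ≤ 2 * (1 + L * d) := by nlinarith
        have h4 : (1 + K * d) ^ 2 ≤ (2 * (1 + L * d)) ^ 2 :=
          pow_le_pow_left₀ (by positivity) h3 2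
        linarith
      have h5 := hf0 z hz
      calc f z / (1 + L * d) ^ 2 = f z * (1 / (1 + L * d) ^ 2) := by ring
        _ ≤ f z * (4 * (1 / (1 + K * d) ^ 2)) := mul_le_mul_of_nonneg_left h2 h5
        _ ≤ f z * (4 * (∑ k ∈ Finset.Icc (-(K : ℤ)) K,
            (c k : ℂ) * ee (k * (m1 * v + m2 * z))).re) :=
            mul_le_mul_of_nonneg_left (by linarith) h5
        _ = _ := by ring
  have hsum : Fm L M f v ≤ ∑ m1 ∈ SM M, ∑ m2 ∈ SM M,
      4 * (∑ k ∈ Finset.Icc (-(K : ℤ)) K, (c k : ℂ) * ee (((k * m1 : ℤ) : ℝ) * v) *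
        fh f (k * m2)).re := by
    unfold Fm
    exact Finset.sum_le_sum fun m1 _ => Finset.sum_le_sum fun m2 _ => key m1 m2
  refine hsum.trans ?_
  have h6 : ∑ m1 ∈ SM M, ∑ m2 ∈ SM M,
      4 * (∑ k ∈ Finset.Icc (-(K : ℤ)) K, (c k : ℂ) * ee (((k * m1 : ℤ) : ℝ) * v) *
        fh f (k * m2)).re = 4 * (HH f K M c v).re := by
    simp_rw [← Finset.mul_sum]
    congr 1
    simp_rw [← Complex.re_sum]
    congr 1
    unfold HH AA
    have e5 : ∀ k ∈ Finset.Icc (-(K : ℤ)) K, (c k : ℂ) *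
        (∑ m ∈ SM M, ee (((k * m : ℤ) : ℝ) * v)) * (∑ m ∈ SM M, fh f (k * m)) =
        ∑ m1 ∈ SM M, ∑ m2 ∈ SM M, (c k : ℂ) * ee (((k * m1 : ℤ) : ℝ) * v) * fh f (k * m2) := by
      intro k _
      rw [mul_assoc, Finset.sum_mul_sum, Finset.mul_sum]
      apply Finset.sum_congr rfl
      intro m1 _
      rw [Finset.mul_sum]
      apply Finset.sum_congr rfl
      intro m2 _
      ring
    rw [Finset.sum_congr rfl e5]
    have e6 : ∀ m1 ∈ SM M, ∑ m2 ∈ SM M, ∑ k ∈ Finset.Icc (-(K : ℤ)) K,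
        (c k : ℂ) * ee (((k * m1 : ℤ) : ℝ) * v) * fh f (k * m2) =
        ∑ k ∈ Finset.Icc (-(K : ℤ)) K, ∑ m2 ∈ SM M,
        (c k : ℂ) * ee (((k * m1 : ℤ) : ℝ) * v) * fh f (k * m2) := by
      intro m1 _
      rw [Finset.sum_comm]
    have e7 : ∑ k ∈ Finset.Icc (-(K : ℤ)) K, ∑ m1 ∈ SM M, ∑ m2 ∈ SM M,
        (c k : ℂ) * ee (((k * m1 : ℤ) : ℝ) * v) * fh f (k * m2) =
        ∑ m1 ∈ SM M, ∑ k ∈ Finset.Icc (-(K : ℤ)) K, ∑ m2 ∈ SM M,
        (c k : ℂ) * ee (((k * m1 : ℤ) : ℝ) * v) * fh f (k * m2) := Finset.sum_comm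
    rw [e7]
    exact Finset.sum_congr rfl e6
  rw [h6]
  have := Complex.re_le_norm (HH f K M c v)
  linarith

/-- the term `k = 0` and the others -/
lemma split (f : ℝ → ℝ) (K M : ℕ) (c : ℤ → ℝ) (v : ℝ) :
    HH f K M c v = (c 0 : ℂ) * ((SM M).card : ℂ) * AA f M 0 +
      ∑ p ∈ SM K ×ˢ SM M, ((c p.1 : ℂ) * AA f M p.1) * ee (((p.1 * p.2 : ℤ) : ℝ) * v) := by
  unfold HH
  rw [← Finset.add_sum_erase _ _ (show (0 : ℤ) ∈ Finset.Icc (-(K : ℤ)) K by simp)]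
  congr 1
  · have : ∀ m ∈ SM M, ee (((0 * m : ℤ) : ℝ) * v) = 1 := by
      intro m _
      rw [zero_mul, Int.cast_zero, zero_mul, ee_zero]
    rw [Finset.sum_congr rfl this, Finset.sum_const, nsmul_eq_mul, mul_one]
  · have h : (Finset.Icc (-(K : ℤ)) K).erase 0 = SM K := by
      ext x
      simp only [SM, Finset.mem_filter, Finset.mem_erase]
      tauto
    rw [h, Finset.sum_product]
    apply Finset.sum_congr rfl
    intro k _
    rw [mul_assoc, mul_comm (∑ m ∈ SM M, ee (((k * m : ℤ) : ℝ) * v)) (AA f M k), ← mul_assoc,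
      Finset.mul_sum]

lemma norm_fh0 {f : ℝ → ℝ} (hf0 : ∀ z ∈ JI, 0 ≤ f z) : ‖fh f 0‖ ≤ ∫ z in JI, f z := by
  unfold fh
  refine (norm_integral_le_integral_norm _).trans (le_of_eq ?_)
  apply setIntegral_congr_fun meas_JI
  intro z hz
  simp only
  rw [norm_mul, norm_ee, mul_one, Complex.norm_real, Real.norm_eq_abs, abs_of_nonneg (hf0 z hz)]

lemma norm_AA0 {f : ℝ → ℝ} (hf0 : ∀ z ∈ JI, 0 ≤ f z) (M : ℕ) :
    ‖AA f M 0‖ ≤ 2 * M * ∫ z in JI, f z := by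
  unfold AA
  have h0 : 0 ≤ ∫ z in JI, f z := setIntegral_nonneg meas_JI hf0
  refine (norm_sum_le _ _).trans ?_
  have : ∀ m ∈ SM M, ‖fh f (0 * m)‖ ≤ ∫ z in JI, f z := by
    intro m _
    rw [zero_mul]
    exact norm_fh0 hf0
  refine (Finset.sum_le_sum this).trans ?_
  rw [Finset.sum_const, nsmul_eq_mul]
  exact mul_le_mul_of_nonneg_right (card_SM M) h0

/-- the mean square of `H` -/
lemma msq {f : ℝ → ℝ} (hf : ContinuousOn f JI) (hf0 : ∀ z ∈ JI, 0 ≤ f z) (K M : ℕ) (c : ℤ → ℝ)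
    (E D : ℝ) (hE : 0 ≤ E) (hcE : ∀ k, |c k| ≤ E) (hD0 : 0 ≤ D)
    (hD : ∀ n : ℤ, (((SM K ×ˢ SM M).filter (fun p => p.1 * p.2 = n)).card : ℝ) ≤ D) :
    ∫ v in JI, ‖HH f K M c v‖ ^ 2 ≤ 800 * E ^ 2 * (M : ℝ) ^ 4 * (∫ z in JI, f z) ^ 2 +
      5000 * E ^ 2 * D ^ 2 * (M : ℝ) ^ 2 * ∫ z in JI, f z ^ 2 := by
  set I1 : ℝ := ∫ z in JI, f z with hI1
  set I2 : ℝ := ∫ z in JI, f z ^ 2 with hI2
  have hI10 : 0 ≤ I1 := setIntegral_nonneg meas_JI hf0
  have hI20 : 0 ≤ I2 := setIntegral_nonneg meas_JI fun z _ => by positivity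
  set H0 : ℂ := (c 0 : ℂ) * ((SM M).card : ℂ) * AA f M 0 with hH0
  set H1 : ℝ → ℂ := fun v => ∑ p ∈ SM K ×ˢ SM M,
    ((c p.1 : ℂ) * AA f M p.1) * ee (((p.1 * p.2 : ℤ) : ℝ) * v) with hH1
  have hH1c : Continuous H1 :=
    continuous_finsetSum _ fun m _ => continuous_const.mul (cont_ee_mul _)
  have hcn : ∀ k, ‖(c k : ℂ)‖ ≤ E := by
    intro k
    rw [Complex.norm_real, Real.norm_eq_abs]
    exact hcE k
  have hM0 : (0 : ℝ) ≤ M := Nat.cast_nonneg M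
  have n0 : ‖H0‖ ≤ E * (2 * M) * (2 * M * I1) := by
    rw [hH0, norm_mul, norm_mul, Complex.norm_natCast]
    gcongr
    · exact hcn 0
    · exact card_SM M
    · exact norm_AA0 hf0 M
  -- the main part
  have hA : ∀ k, ‖AA f M k‖ ^ 2 ≤ 2 * M * ∑ m ∈ SM M, ‖fh f (k * m)‖ ^ 2 := by
    intro k
    have h1 : ‖AA f M k‖ ≤ ∑ m ∈ SM M, ‖fh f (k * m)‖ := norm_sum_le _ _
    calc ‖AA f M k‖ ^ 2 ≤ (∑ m ∈ SM M, ‖fh f (k * m)‖) ^ 2 := by gcongr
      _ ≤ ((SM M).card : ℝ) * ∑ m ∈ SM M, ‖fh f (k * m)‖ ^ 2 := sq_sum_le_card_mul_sum_sq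
      _ ≤ _ := by
          refine mul_le_mul_of_nonneg_right (card_SM M) ?_
          exact Finset.sum_nonneg fun p _ => by positivity
  have hφ : ∑ p ∈ SM K ×ˢ SM M, ‖(c p.1 : ℂ) * AA f M p.1‖ ^ 2 ≤
      E ^ 2 * (2 * M) * (2 * M) * (D * (25 * I2)) := by
    rw [Finset.sum_product]
    have h2 : ∀ k ∈ SM K, ∑ m ∈ SM M, ‖(c k : ℂ) * AA f M k‖ ^ 2 ≤
        E ^ 2 * (2 * M) * (2 * M) * ∑ m ∈ SM M, ‖fh f (k * m)‖ ^ 2 := by
      intro k _
      have hs0 : 0 ≤ ∑ m ∈ SM M, ‖fh f (k * m)‖ ^ 2 := Finset.sum_nonneg fun p _ => by positivity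
      rw [Finset.sum_const, nsmul_eq_mul, norm_mul, mul_pow]
      calc ((SM M).card : ℝ) * (‖(c k : ℂ)‖ ^ 2 * ‖AA f M k‖ ^ 2)
          ≤ (2 * M) * (E ^ 2 * (2 * M * ∑ m ∈ SM M, ‖fh f (k * m)‖ ^ 2)) := by
            gcongr
            · exact card_SM M
            · exact hcn k
            · exact hA k
        _ = _ := by ring
    refine (Finset.sum_le_sum h2).trans ?_
    rw [← Finset.mul_sum]
    refine mul_le_mul_of_nonneg_left ?_ (by positivity)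
    have h3 := fib2 (SM K ×ˢ SM M) D hD0 hD hf
    rw [Finset.sum_product] at h3
    exact h3
  have h1i : ∫ v in JI, ‖H1 v‖ ^ 2 ≤ 2500 * E ^ 2 * D ^ 2 * (M : ℝ) ^ 2 * I2 := by
    have h4 := fib (SM K ×ˢ SM M) D hD (fun p => (c p.1 : ℂ) * AA f M p.1)
    refine h4.trans ?_
    calc 25 * (D * ∑ p ∈ SM K ×ˢ SM M, ‖(c p.1 : ℂ) * AA f M p.1‖ ^ 2)
        ≤ 25 * (D * (E ^ 2 * (2 * M) * (2 * M) * (D * (25 * I2)))) := by gcongr
      _ = _ := by ring
  have hsq : ∀ v, ‖HH f K M c v‖ ^ 2 ≤ 2 * ‖H0‖ ^ 2 + 2 * ‖H1 v‖ ^ 2 := by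
    intro v
    have h5 : HH f K M c v = H0 + H1 v := split f K M c v
    have h6 : ‖HH f K M c v‖ ≤ ‖H0‖ + ‖H1 v‖ := by
      rw [h5]
      exact norm_add_le _ _
    have h7 : ‖HH f K M c v‖ ^ 2 ≤ (‖H0‖ + ‖H1 v‖) ^ 2 := by gcongr
    nlinarith [sq_nonneg (‖H0‖ - ‖H1 v‖)]
  have hi1 : IntegrableOn (fun v => ‖H1 v‖ ^ 2) JI :=
    (hH1c.norm.pow 2).continuousOn.integrableOn_compact isCompact_JI
  have hi0 : IntegrableOn (fun _ : ℝ => 2 * ‖H0‖ ^ 2) JI :=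
    continuous_const.continuousOn.integrableOn_compact isCompact_JI
  calc ∫ v in JI, ‖HH f K M c v‖ ^ 2 ≤ ∫ v in JI, (2 * ‖H0‖ ^ 2 + 2 * ‖H1 v‖ ^ 2) := by
        apply integral_mono_of_nonneg
        · exact Filter.Eventually.of_forall fun v => by positivity
        · exact hi0.add (hi1.const_mul 2)
        · exact Filter.Eventually.of_forall fun v => hsq v
    _ = (volume JI).toReal * (2 * ‖H0‖ ^ 2) + 2 * ∫ v in JI, ‖H1 v‖ ^ 2 := by
        have e8 : ∫ _ in JI, 2 * ‖H0‖ ^ 2 = (volume JI).toReal * (2 * ‖H0‖ ^ 2) := by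
          rw [setIntegral_const, smul_eq_mul]
          rfl
        have e9 : ∫ v in JI, 2 * ‖H1 v‖ ^ 2 = 2 * ∫ v in JI, ‖H1 v‖ ^ 2 :=
          integral_const_mul _ _
        rw [integral_add hi0 (hi1.const_mul 2), e8, e9]
    _ ≤ 25 * (2 * (E * (2 * M) * (2 * M * I1)) ^ 2) +
        2 * (2500 * E ^ 2 * D ^ 2 * (M : ℝ) ^ 2 * I2) := by
        gcongr
        exact vol_JI
    _ = _ := by ring

end Af_aux

open Af_aux

/-- Item Af. -/
theorem iAf (hMj : StMj) : StAf := by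
  intro ε hε
  obtain ⟨C1, hC1, hMj⟩ := hMj
  obtain ⟨C0, hC0, hdiv⟩ := Pool.Agent.Work.MP_cb106b_nt.Ct.divisor_bound (ε / 4) (by positivity)
  have hC00 : 0 ≤ C0 := by linarith
  have h2e : (1 : ℝ) ≤ 2 ^ (ε / 2) := Real.one_le_rpow (by norm_num) (by positivity)
  have hCC : 1 ≤ C1 ^ 2 := one_le_pow₀ hC1
  have hCC0 : 1 ≤ C0 ^ 2 := one_le_pow₀ hC0
  refine ⟨320000 * C1 ^ 2 * C0 ^ 2 * 2 ^ (ε / 2), ?_, ?_⟩
  · have h1 : 1 ≤ C1 ^ 2 * C0 ^ 2 := one_le_mul_of_one_le_of_one_le hCC hCC0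
    have h2 : 1 ≤ C1 ^ 2 * C0 ^ 2 * 2 ^ (ε / 2) := one_le_mul_of_one_le_of_one_le h1 h2e
    calc (1 : ℝ) ≤ 320000 * (C1 ^ 2 * C0 ^ 2 * 2 ^ (ε / 2)) := by linarith
      _ = _ := by ring
  intro L M f hL hML hf hf0
  have hL0 : 0 < L := by linarith
  set K : ℕ := ⌈L⌉₊ with hK
  have hKL : L ≤ K := Nat.le_ceil L
  have hK2 : (K : ℝ) ≤ 2 * L := by
    have := (Nat.ceil_lt_add_one hL0.le).le
    linarith
  have hK1 : 1 ≤ K := by
    have : (0 : ℝ) < K := lt_of_lt_of_le hL0 hKL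
    exact_mod_cast this
  have hK0 : (0 : ℝ) < K := lt_of_lt_of_le hL0 hKL
  obtain ⟨c, hc1, _, hc3⟩ := hMj K hK1
  set I1 : ℝ := ∫ z in JI, f z with hI1
  set I2 : ℝ := ∫ z in JI, f z ^ 2 with hI2
  have hI20 : 0 ≤ I2 := setIntegral_nonneg meas_JI fun z _ => by positivity
  set D : ℝ := 2 * C0 * ((K : ℝ) * M) ^ (ε / 4) with hDdef
  have hD0 : 0 ≤ D := by positivity
  have hD := card_rep K M C0 (ε / 4) (by positivity) hdiv hC00
  have hE0 : 0 ≤ C1 / K := by positivity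
  have hm := msq hf hf0 K M c (C1 / K) D hE0 hc1 hD0 hD
  have hFn : ∀ v, 0 ≤ Fm L M f v := by
    intro v
    unfold Fm
    refine Finset.sum_nonneg fun m1 _ => Finset.sum_nonneg fun m2 _ => ?_
    refine setIntegral_nonneg meas_JI fun z hz => ?_
    have : 0 ≤ dZ (m1 * v + m2 * z) := abs_nonneg _
    exact div_nonneg (hf0 z hz) (by positivity)
  have hp := point hf hf0 L K M hL hK2 c hc3
  have h1 : ∫ v in JI, Fm L M f v ^ 2 ≤ ∫ v in JI, 16 * ‖HH f K M c v‖ ^ 2 := by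
    apply integral_mono_of_nonneg
    · exact Filter.Eventually.of_forall fun v => by positivity
    · exact (((cont_HH f K M c).norm.pow 2).continuousOn.integrableOn_compact
        isCompact_JI).const_mul 16
    · refine Filter.Eventually.of_forall fun v => ?_
      have h2 := pow_le_pow_left₀ (hFn v) (hp v) 2
      simp only
      calc Fm L M f v ^ 2 ≤ (4 * ‖HH f K M c v‖) ^ 2 := h2
        _ = _ := by ring
  rw [integral_const_mul] at h1
  -- the size of `D`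
  have hD2 : D ^ 2 ≤ 4 * C0 ^ 2 * 2 ^ (ε / 2) * L ^ ε := by
    have hM0 : (0 : ℝ) ≤ M := Nat.cast_nonneg M
    have h3 : (K : ℝ) * M ≤ 2 * L * L := by
      calc (K : ℝ) * M ≤ (2 * L) * L := by gcongr
        _ = _ := by ring
    have h4 : ((K : ℝ) * M) ^ (ε / 4) ≤ (2 * L * L) ^ (ε / 4) :=
      Real.rpow_le_rpow (by positivity) h3 (by positivity)
    have h5 : ((2 * L * L) ^ (ε / 4)) ^ 2 = 2 ^ (ε / 2) * L ^ ε := by
      rw [← Real.rpow_natCast, ← Real.rpow_mul (by positivity)]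
      rw [mul_assoc, Real.mul_rpow (by norm_num) (by positivity),
        Real.mul_rpow hL0.le hL0.le, ← Real.rpow_add hL0]
      congr 2 <;> push_cast <;> ring
    calc D ^ 2 = 4 * C0 ^ 2 * (((K : ℝ) * M) ^ (ε / 4)) ^ 2 := by rw [hDdef]; ring
      _ ≤ 4 * C0 ^ 2 * ((2 * L * L) ^ (ε / 4)) ^ 2 := by gcongr
      _ = _ := by rw [h5]; ring
  have hEL : (C1 / K) ^ 2 ≤ C1 ^ 2 / L ^ 2 := by
    rw [div_pow]
    exact div_le_div_of_nonneg_left (by positivity) (by positivity)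
      (pow_le_pow_left₀ hL0.le hKL 2)
  have hM4 : 0 ≤ (M : ℝ) ^ 4 * I1 ^ 2 := by positivity
  have hM2 : 0 ≤ (M : ℝ) ^ 2 * I2 := by positivity
  have hLe : 0 ≤ L ^ ε := by positivity
  calc ∫ v in JI, Fm L M f v ^ 2
      ≤ 16 * (800 * (C1 / K) ^ 2 * (M : ℝ) ^ 4 * I1 ^ 2 +
        5000 * (C1 / K) ^ 2 * D ^ 2 * (M : ℝ) ^ 2 * I2) := by
        refine h1.trans ?_
        exact mul_le_mul_of_nonneg_left hm (by norm_num)
    _ = 12800 * (C1 / K) ^ 2 * ((M : ℝ) ^ 4 * I1 ^ 2) +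
        80000 * (C1 / K) ^ 2 * D ^ 2 * ((M : ℝ) ^ 2 * I2) := by ring
    _ ≤ 12800 * (C1 ^ 2 / L ^ 2) * ((M : ℝ) ^ 4 * I1 ^ 2) +
        80000 * (C1 ^ 2 / L ^ 2) * (4 * C0 ^ 2 * 2 ^ (ε / 2) * L ^ ε) * ((M : ℝ) ^ 2 * I2) := by
        gcongr
    _ = C1 ^ 2 / L ^ 2 * (12800 * ((M : ℝ) ^ 4 * I1 ^ 2) +
        320000 * C0 ^ 2 * 2 ^ (ε / 2) * (L ^ ε * ((M : ℝ) ^ 2 * I2))) := by ring
    _ ≤ C1 ^ 2 / L ^ 2 * (320000 * C0 ^ 2 * 2 ^ (ε / 2) * ((M : ℝ) ^ 4 * I1 ^ 2) +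
        320000 * C0 ^ 2 * 2 ^ (ε / 2) * (L ^ ε * ((M : ℝ) ^ 2 * I2))) := by
        gcongr
        have : 1 ≤ C0 ^ 2 * 2 ^ (ε / 2) := one_le_mul_of_one_le_of_one_le hCC0 h2e
        nlinarith
    _ = 320000 * C1 ^ 2 * C0 ^ 2 * 2 ^ (ε / 2) / L ^ 2 *
        ((M : ℝ) ^ 4 * I1 ^ 2 + L ^ ε * (M : ℝ) ^ 2 * I2) := by ring

end Pool.Agent.Work.MP_56b8f5_nt.UC
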