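import Mathlib
import Pool.Agent.Work.MP_56b8f5_nt.UC.Defs

/-!
MP_56b8f5_nt, block UC: the weights `om` and `psi x * x ^ r`.
-/

open MeasureTheory Set Filter Topology

noncomputable section

namespace Pool.Agent.Work.MP_56b8f5_nt.UC

open Pool.Agent.Work.MP_56b8f5_nt.UB (ee om omB)

lemma om_nonneg (x : ℝ) : 0 ≤ om x := omB.nonneg

lemma om_le_one (x : ℝ) : om x ≤ 1 := omB.le_one

lemma om_eq_one {x : ℝ} (h1 : 1 ≤ x) (h2 : x ≤ 2) : om x = 1 := by
  apply omB.one_of_mem_closedBall
  rw [Metric.mem_closedBall, Real.dist_eq]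
  change |x - 3 / 2| ≤ 1 / 2
  rw [abs_le]
  constructor <;> linarith

lemma om_eq_zero {x : ℝ} (h : x ≤ 1 / 2 ∨ 5 / 2 ≤ x) : om x = 0 := by
  apply omB.zero_of_le_dist
  rw [Real.dist_eq]
  change 1 ≤ |x - 3 / 2|
  rw [le_abs]
  rcases h with h | h
  · right; linarith
  · left; linarith

lemma om_smooth : ContDiff ℝ ((⊤ : ℕ∞) : WithTop ℕ∞) om := omB.contDiff

lemma isWt_om : IsWt om := by
  refine ⟨om_smooth, 1 / 2, 5 / 2, by norm_num, by norm_num, ?_⟩
  intro x hx
  constructor
  · by_contra h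
    exact hx (om_eq_zero (Or.inl (by linarith)))
  · by_contra h
    exact hx (om_eq_zero (Or.inr (by linarith)))

lemma eta_nonneg (x : ℝ) : 0 ≤ eta x := Real.smoothTransition.nonneg _

lemma eta_le_one (x : ℝ) : eta x ≤ 1 := Real.smoothTransition.le_one _

lemma eta_eq_one {x : ℝ} (h : x ≤ 1) : eta x = 1 :=
  Real.smoothTransition.one_of_one_le (by linarith)

lemma eta_eq_zero {x : ℝ} (h : 2 ≤ x) : eta x = 0 :=
  Real.smoothTransition.zero_of_nonpos (by linarith)

lemma eta_smooth : ContDiff ℝ ((⊤ : ℕ∞) : WithTop ℕ∞) eta :=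
  Real.smoothTransition.contDiff.comp (contDiff_const.sub contDiff_id)

lemma psi_smooth : ContDiff ℝ ((⊤ : ℕ∞) : WithTop ℕ∞) psi :=
  eta_smooth.sub (eta_smooth.comp (contDiff_const.mul contDiff_id))

lemma psi_supp {x : ℝ} (h : psi x ≠ 0) : 1 / 2 ≤ x ∧ x ≤ 2 := by
  constructor
  · by_contra h1
    apply h
    unfold psi
    rw [eta_eq_one (by linarith), eta_eq_one (by linarith), sub_self]
  · by_contra h1
    apply h
    unfold psi
    rw [eta_eq_zero (by linarith), eta_eq_zero (by linarith), sub_self]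

lemma isWt_psi_rpow (r : ℝ) : IsWt (fun x => psi x * x ^ r) := by
  refine ⟨?_, 1 / 2, 2, by norm_num, by norm_num, ?_⟩
  · rw [contDiff_iff_contDiffAt]
    intro x
    by_cases hx : 0 < x
    · exact psi_smooth.contDiffAt.mul (Real.contDiffAt_rpow_const_of_ne hx.ne')
    · have h0 : (fun y => psi y * y ^ r) =ᶠ[𝓝 x] fun _ => (0 : ℝ) := by
        have : Iio (1 / 2 : ℝ) ∈ 𝓝 x := Iio_mem_nhds (by linarith)
        filter_upwards [this] with y hy
        have : psi y = 0 := by
          by_contra h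
          have := (psi_supp h).1
          have hy' : y < 1 / 2 := hy
          linarith
        rw [this, zero_mul]
      exact contDiffAt_const.congr_of_eventuallyEq h0
  · intro x hx
    exact psi_supp (left_ne_zero_of_mul hx)

/-- a weight times a power of `x` is a weight -/
lemma IsWt.mul_rpow {w : ℝ → ℝ} (hw : IsWt w) (r : ℝ) : IsWt (fun x => w x * x ^ r) := by
  obtain ⟨hs, a, b, ha, hab, hsupp⟩ := hw
  refine ⟨?_, a, b, ha, hab, ?_⟩
  · rw [contDiff_iff_contDiffAt]
    intro x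
    by_cases hx : 0 < x
    · exact hs.contDiffAt.mul (Real.contDiffAt_rpow_const_of_ne hx.ne')
    · have h0 : (fun y => w y * y ^ r) =ᶠ[𝓝 x] fun _ => (0 : ℝ) := by
        have : Iio a ∈ 𝓝 x := Iio_mem_nhds (by linarith)
        filter_upwards [this] with y hy
        have : w y = 0 := by
          by_contra h
          have := (hsupp y h).1
          have hy' : y < a := hy
          linarith
        rw [this, zero_mul]
      exact contDiffAt_const.congr_of_eventuallyEq h0
  · intro x hx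
    exact hsupp x (left_ne_zero_of_mul hx)

/-- dilation of a weight -/
lemma IsWt.comp_mul {w : ℝ → ℝ} (hw : IsWt w) {c : ℝ} (hc : 0 < c) : IsWt (fun x => w (c * x)) := by
  obtain ⟨hs, a, b, ha, hab, hsupp⟩ := hw
  refine ⟨hs.comp (contDiff_const.mul contDiff_id), a / c, b / c, by positivity, by gcongr, ?_⟩
  intro x hx
  obtain ⟨h1, h2⟩ := hsupp _ hx
  constructor
  · rw [div_le_iff₀ hc]; linarith
  · rw [le_div_iff₀ hc]; linarith

lemma IsWt.bounded {w : ℝ → ℝ} (hw : IsWt w) : ∃ B : ℝ, 1 ≤ B ∧ ∀ x, |w x| ≤ B := by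
  obtain ⟨hs, a, b, ha, hab, hsupp⟩ := hw
  obtain ⟨B, hB⟩ := (isCompact_Icc (a := a) (b := b)).exists_bound_of_continuousOn hs.continuous.continuousOn
  refine ⟨max B 1, le_max_right _ _, fun x => ?_⟩
  by_cases hx : w x = 0
  · rw [hx, abs_zero]; exact le_trans zero_le_one (le_max_right _ _)
  · exact le_trans (hB x (hsupp x hx)) (le_max_left _ _)

end Pool.Agent.Work.MP_56b8f5_nt.UC
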