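import Mathlib
import Pool.Agent.Work.MP_56b8f5_nt.UC.Stmts
import Pool.Agent.Work.MP_56b8f5_nt.UC.I_Ow

/-!
MP_56b8f5_nt, block UC, item Bc: elementary facts on blocks.
-/

open MeasureTheory Set Filter Topology

noncomputable section

namespace Pool.Agent.Work.MP_56b8f5_nt.UC

open Pool.Agent.Work.MP_56b8f5_nt.UB (ee om)

namespace Bc_aux

/-- conjugate of a power with imaginary exponent, nonnegative base -/
lemma conj_pow {x : ℝ} (hx : 0 ≤ x) (t : ℝ) :
    (starRingEnd ℂ) ((x : ℂ) ^ (-(t * Complex.I))) = (x : ℂ) ^ (-(((-t : ℝ) : ℂ) * Complex.I)) := by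
  have harg : (x : ℂ).arg ≠ Real.pi := by
    rw [Complex.arg_ofReal_of_nonneg hx]
    exact Real.pi_pos.ne
  have h := Complex.cpow_conj (x : ℂ) (-(t * Complex.I)) harg
  rw [Complex.conj_ofReal] at h
  rw [← h]
  congr 1
  simp

/-- conjugate of `ee` -/
lemma conj_ee (x : ℝ) : (starRingEnd ℂ) (ee x) = ee (-x) := by
  unfold ee
  rw [← Complex.exp_conj, map_mul, Complex.conj_ofReal, Complex.conj_I]
  congr 1
  push_cast
  ring

lemma norm_ee (x : ℝ) : ‖ee x‖ = 1 := by
  unfold ee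
  exact Complex.norm_exp_ofReal_mul_I _

lemma norm_pow_le {x : ℝ} (hx : 0 < x) (t : ℝ) : ‖(x : ℂ) ^ (-(t * Complex.I))‖ = 1 := by
  rw [Complex.norm_cpow_eq_rpow_re_of_pos hx]
  simp

lemma w_zero {w : ℝ → ℝ} {a b : ℝ} (ha : 0 < a) (hs : ∀ x, w x ≠ 0 → a ≤ x ∧ x ≤ b) {x : ℝ} (hx : x ≤ 0) :
    w x = 0 := by
  by_contra h
  have := (hs x h).1
  linarith

/-- the block is a finite sum -/
lemma Bl_eq {w : ℝ → ℝ} {a b : ℝ} (ha : 0 < a) (hs : ∀ x, w x ≠ 0 → a ≤ x ∧ x ≤ b) {N : ℝ} (hN : 0 < N) (t : ℝ) :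
    Bl w N t = ∑ n ∈ Finset.Icc 1 ⌊b * N⌋₊, ((w ((n : ℝ) / N) : ℝ) : ℂ) * (n : ℂ) ^ (-(t * Complex.I)) := by
  unfold Bl
  apply tsum_eq_sum
  intro n hn
  have h0 : w ((n : ℝ) / N) = 0 := by
    by_contra h
    obtain ⟨h1, h2⟩ := hs _ h
    apply hn
    rw [Finset.mem_Icc]
    constructor
    · by_contra h3
      have h4 : n = 0 := by omega
      rw [h4] at h1
      simp at h1
      linarith
    · apply Nat.le_floor
      rwa [div_le_iff₀ hN] at h2
  rw [h0]
  simp

end Bc_aux

open Bc_aux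

theorem iBc : StBc := by
  intro w hw
  obtain ⟨B, hB1, hB⟩ := hw.bounded
  have hcont := hw.smooth.continuous
  obtain ⟨a, b, ha, hab, hs⟩ := hw.supp
  refine ⟨?_, ?_, ?_, ?_⟩
  · intro N t hN
    rw [Bl_eq ha hs hN, Bl_eq ha hs hN, map_sum]
    apply Finset.sum_congr rfl
    intro n _
    rw [map_mul, Complex.conj_ofReal]
    congr 1
    have h := conj_pow (x := (n : ℝ)) (Nat.cast_nonneg n) t
    rw [Complex.ofReal_natCast] at h
    exact h.symm
  · intro N hN
    have h : Bl w N = fun t : ℝ => ∑ n ∈ Finset.Icc 1 ⌊b * N⌋₊, ((w ((n : ℝ) / N) : ℝ) : ℂ) *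
        (n : ℂ) ^ (-(t * Complex.I)) := by
      funext t
      exact Bl_eq ha hs hN t
    rw [h]
    apply continuous_finset_sum
    intro n hn
    apply Continuous.mul continuous_const
    apply Continuous.const_cpow
    · fun_prop
    · left
      rw [Finset.mem_Icc] at hn
      exact_mod_cast (by omega : n ≠ 0)
  · intro N t m hN
    unfold Im
    rw [← integral_conj]
    apply setIntegral_congr_fun measurableSet_Ioi
    intro x hx
    have hx0 : (0 : ℝ) < x := hx
    simp only [map_mul, Complex.conj_ofReal, conj_pow hx0.le, conj_ee]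
    congr 2
    push_cast
    ring
  · refine ⟨B * (b + 1), ?_, ?_, ?_⟩
    · nlinarith
    · intro N t hN
      rw [Bl_eq ha hs hN]
      have hb : 0 < b := by linarith
      calc ‖∑ n ∈ Finset.Icc 1 ⌊b * N⌋₊, ((w ((n : ℝ) / N) : ℝ) : ℂ) * (n : ℂ) ^ (-(t * Complex.I))‖
          ≤ ∑ n ∈ Finset.Icc 1 ⌊b * N⌋₊, ‖((w ((n : ℝ) / N) : ℝ) : ℂ) * (n : ℂ) ^ (-(t * Complex.I))‖ :=
            norm_sum_le _ _
        _ ≤ ∑ n ∈ Finset.Icc 1 ⌊b * N⌋₊, B := by
            apply Finset.sum_le_sum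
            intro n hn
            rw [Finset.mem_Icc] at hn
            have hn0 : (0 : ℝ) < n := by exact_mod_cast hn.1
            have h := norm_pow_le hn0 t
            rw [Complex.ofReal_natCast] at h
            rw [norm_mul, h, mul_one, Complex.norm_real]
            exact hB _
        _ = ⌊b * N⌋₊ * B := by simp
        _ ≤ (b * N) * B := by
            apply mul_le_mul_of_nonneg_right _ (by linarith)
            exact Nat.floor_le (by positivity)
        _ ≤ B * (b + 1) * N := by nlinarith [mul_pos hN (by linarith : (0 : ℝ) < B)]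
    · intro N t m hN
      have hb : 0 < b := by linarith
      unfold Im
      have hsub : ∫ x in Ioi (0 : ℝ), ((w (x / N) : ℝ) : ℂ) * (x : ℂ) ^ (-(t * Complex.I)) * ee (-(m * x)) =
          ∫ x in Ioc (0 : ℝ) (b * N), ((w (x / N) : ℝ) : ℂ) * (x : ℂ) ^ (-(t * Complex.I)) * ee (-(m * x)) := by
        apply setIntegral_eq_of_subset_of_forall_sdiff_eq_zero measurableSet_Ioi Ioc_subset_Ioi_self
        intro x hx
        have hx0 : (0 : ℝ) < x := hx.1
        have h0 : w (x / N) = 0 := by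
          by_contra h
          obtain ⟨h1, h2⟩ := hs _ h
          rw [div_le_iff₀ hN] at h2
          exact hx.2 ⟨hx0, h2⟩
        rw [h0]
        simp
      rw [hsub]
      have h1 := norm_setIntegral_le_of_norm_le_const (μ := volume) (s := Ioc (0 : ℝ) (b * N)) (C := B)
        (f := fun x : ℝ => ((w (x / N) : ℝ) : ℂ) * (x : ℂ) ^ (-(t * Complex.I)) * ee (-(m * x)))
        (by rw [Real.volume_Ioc]; exact ENNReal.ofReal_lt_top)
        (by
          intro x hx
          rw [norm_mul, norm_mul, norm_ee, norm_pow_le hx.1, mul_one, mul_one, Complex.norm_real]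
          exact hB _)
      refine h1.trans ?_
      rw [Real.volume_real_Ioc_of_le (by positivity)]
      nlinarith [mul_pos hN (by linarith : (0 : ℝ) < B)]

end Pool.Agent.Work.MP_56b8f5_nt.UC
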