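import Mathlib
import Pool.Agent.Work.MP_56b8f5_nt.UC.Stmts
import Pool.Agent.Work.MP_37bd4f_nt.MeanValue

/-!
MP_56b8f5_nt, block UC, item C4: the fourth moment of blocks.
-/

open MeasureTheory Set Filter Topology

noncomputable section

namespace Pool.Agent.Work.MP_56b8f5_nt.UC

namespace C4_aux

/-- fourth moment of short blocks over an interval of length at most `3T` -/
lemma short (hPw : StPw) (w : ℝ → ℝ) (hw : IsWt w) (e : ℝ) (he : 0 < e) :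
    ∃ C : ℝ, 1 ≤ C ∧ ∀ T1 T2 T N : ℝ, 1 ≤ T → 1 ≤ N → N ^ 2 ≤ T → T1 ≤ T2 → T2 - T1 ≤ 3 * T →
      ∫ t in T1..T2, ‖Bl w N t‖ ^ 4 ≤ C * T ^ (1 + 3 * e) * N ^ 2 := by
  obtain ⟨c, C0, hc, hC0, h⟩ := hPw w hw 2 e (by norm_num) he
  set K : ℝ := 2 * C0 with hK
  have hK2 : 2 ≤ K := by rw [hK]; linarith
  have hK0 : 0 < K := by linarith
  have hC00 : 0 < C0 := by linarith
  set B : ℝ := 6 * (1 + 1 / e) * C0 ^ 2 * K ^ (3 * e) * K * (3 + K) with hB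
  refine ⟨max 1 B, le_max_left _ _, ?_⟩
  intro T1 T2 T N hT hN hNT h12 hlen
  have hT0 : 0 < T := by linarith
  have hN0 : 0 < N := by linarith
  have hN2 : 1 ≤ N ^ 2 := one_le_pow₀ hN
  obtain ⟨a, ha1, ha2, ha3⟩ := h N hN0
  set Y : ℕ := ⌈C0 * N ^ 2⌉₊ with hYdef
  have hY1 : C0 * N ^ 2 ≤ (Y : ℝ) := Nat.le_ceil _
  have hCN : 1 ≤ C0 * N ^ 2 := by nlinarith
  have hY2 : (Y : ℝ) ≤ K * N ^ 2 := by
    have := Nat.ceil_lt_add_one (show 0 ≤ C0 * N ^ 2 by positivity)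
    have h2 : (Y : ℝ) < C0 * N ^ 2 + 1 := this
    rw [hK]; linarith
  have hY3 : (1 : ℝ) ≤ Y := le_trans hCN hY1
  have hY0 : (0 : ℝ) < Y := by linarith
  have hYT : (Y : ℝ) ≤ K * T := le_trans hY2 (by gcongr)
  have hint : ∫ t in T1..T2, ‖Bl w N t‖ ^ 4 =
      ∫ t in T1..T2, ‖∑ n ∈ Finset.Icc 1 Y, a n * (n : ℂ) ^ (-(t * Complex.I))‖ ^ 2 := by
    refine intervalIntegral.integral_congr (fun t _ => ?_)
    have h3 : Bl w N t ^ 2 = Dp Y a t := ha3 t Y hY1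
    have : ‖Bl w N t‖ ^ 4 = ‖Bl w N t ^ 2‖ ^ 2 := by rw [norm_pow]; ring
    rw [this, h3, Dp]
  have hmv := Pool.Agent.Work.MP_37bd4f_nt.mean_value Y a h12
  rw [hint]
  refine hmv.trans ?_
  set D : ℝ := C0 ^ 2 * (Y : ℝ) ^ (2 * e) with hD
  have hD0 : 0 ≤ D := by positivity
  have hA : ∀ n ∈ Finset.Icc 1 Y, ‖a n‖ ^ 2 ≤ D := by
    intro n hn
    rw [Finset.mem_Icc] at hn
    have hn1 : (n : ℝ) ≤ Y := by exact_mod_cast hn.2
    have h1 : ‖a n‖ ≤ C0 * (Y : ℝ) ^ e :=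
      (ha1 n).trans (by gcongr)
    calc ‖a n‖ ^ 2 ≤ (C0 * (Y : ℝ) ^ e) ^ 2 := by gcongr
      _ = D := by
          rw [hD, mul_pow, ← Real.rpow_natCast ((Y : ℝ) ^ e) 2, ← Real.rpow_mul hY0.le]
          congr 2
          push_cast; ring
  have hS1 : ∑ n ∈ Finset.Icc 1 Y, ‖a n‖ ^ 2 ≤ Y * D := by
    calc ∑ n ∈ Finset.Icc 1 Y, ‖a n‖ ^ 2 ≤ ∑ n ∈ Finset.Icc 1 Y, D := Finset.sum_le_sum hA
      _ = Y * D := by simp
  have hS2 : ∑ n ∈ Finset.Icc 1 Y, (n : ℝ) * ‖a n‖ ^ 2 ≤ Y * (Y * D) := by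
    calc ∑ n ∈ Finset.Icc 1 Y, (n : ℝ) * ‖a n‖ ^ 2 ≤ ∑ n ∈ Finset.Icc 1 Y, (Y : ℝ) * D := by
          refine Finset.sum_le_sum (fun n hn => ?_)
          have h1 := hA n hn
          rw [Finset.mem_Icc] at hn
          have hn1 : (n : ℝ) ≤ Y := by exact_mod_cast hn.2
          gcongr
      _ = Y * (Y * D) := by simp
  have hHs : Pool.Agent.Work.MP_37bd4f_nt.Hs Y ≤ (1 + 1 / e) * (Y : ℝ) ^ e := by
    have h1 := Pool.Agent.Work.MP_37bd4f_nt.Hs_le Y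
    have h2 : Real.log Y ≤ (Y : ℝ) ^ e / e := Real.log_le_rpow_div hY0.le he
    have h3 : 1 ≤ (Y : ℝ) ^ e := Real.one_le_rpow hY3 he.le
    calc Pool.Agent.Work.MP_37bd4f_nt.Hs Y ≤ 1 + Real.log Y := h1
      _ ≤ (Y : ℝ) ^ e + (Y : ℝ) ^ e / e := by linarith
      _ = (1 + 1 / e) * (Y : ℝ) ^ e := by field_simp
  have hE : 1 ≤ (1 + 1 / e) * (Y : ℝ) ^ e := by
    have h3 : 1 ≤ (Y : ℝ) ^ e := Real.one_le_rpow hY3 he.le
    have h4 : 1 ≤ 1 + 1 / e := by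
      have : 0 < 1 / e := by positivity
      linarith
    nlinarith
  set E : ℝ := (1 + 1 / e) * (Y : ℝ) ^ e with hEdef
  have hstep : (T2 - T1) * ∑ n ∈ Finset.Icc 1 Y, ‖a n‖ ^ 2 +
        6 * Pool.Agent.Work.MP_37bd4f_nt.Hs Y * ∑ n ∈ Finset.Icc 1 Y, (n : ℝ) * ‖a n‖ ^ 2 ≤
      6 * E * D * Y * (3 * T + Y) := by
    have hs1 : (T2 - T1) * ∑ n ∈ Finset.Icc 1 Y, ‖a n‖ ^ 2 ≤ (3 * T) * (Y * D) := by
      have : 0 ≤ ∑ n ∈ Finset.Icc 1 Y, ‖a n‖ ^ 2 := Finset.sum_nonneg (fun _ _ => by positivity)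
      gcongr
    have hs2 : 6 * Pool.Agent.Work.MP_37bd4f_nt.Hs Y * ∑ n ∈ Finset.Icc 1 Y, (n : ℝ) * ‖a n‖ ^ 2 ≤
        6 * E * (Y * (Y * D)) := by
      have : 0 ≤ ∑ n ∈ Finset.Icc 1 Y, (n : ℝ) * ‖a n‖ ^ 2 :=
        Finset.sum_nonneg (fun _ _ => by positivity)
      gcongr
    have hs3 : (3 * T) * (Y * D) ≤ 6 * E * ((3 * T) * (Y * D)) := by
      have : 0 ≤ (3 * T) * (Y * D) := by positivity
      nlinarith
    calc _ ≤ 6 * E * ((3 * T) * (Y * D)) + 6 * E * (Y * (Y * D)) := add_le_add (hs1.trans hs3) hs2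
      _ = 6 * E * D * Y * (3 * T + Y) := by ring
  refine hstep.trans ?_
  have hED : E * D = (1 + 1 / e) * C0 ^ 2 * (Y : ℝ) ^ (3 * e) := by
    rw [hEdef, hD]
    have : (Y : ℝ) ^ (3 * e) = (Y : ℝ) ^ e * (Y : ℝ) ^ (2 * e) := by
      rw [← Real.rpow_add hY0]; congr 1; ring
    rw [this]; ring
  have hY4 : (Y : ℝ) ^ (3 * e) ≤ K ^ (3 * e) * T ^ (3 * e) := by
    rw [← Real.mul_rpow hK0.le hT0.le]
    gcongr
  have he1 : 0 < 1 + 1 / e := by positivity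
  calc 6 * E * D * Y * (3 * T + Y) = 6 * (E * D) * Y * (3 * T + Y) := by ring
    _ = 6 * ((1 + 1 / e) * C0 ^ 2 * (Y : ℝ) ^ (3 * e)) * Y * (3 * T + Y) := by rw [hED]
    _ ≤ 6 * ((1 + 1 / e) * C0 ^ 2 * (K ^ (3 * e) * T ^ (3 * e))) * (K * N ^ 2) * (3 * T + K * T) := by
        gcongr
    _ = B * (T * T ^ (3 * e)) * N ^ 2 := by rw [hB]; ring
    _ = B * T ^ (1 + 3 * e) * N ^ 2 := by rw [Real.rpow_add hT0, Real.rpow_one]
    _ ≤ max 1 B * T ^ (1 + 3 * e) * N ^ 2 := by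
        gcongr
        exact le_max_right _ _

end C4_aux

theorem iC4 (hPw : StPw) (hRq : StRq) (hBc : StBc) : StC4 := by
  intro w hw ε hε hε1
  obtain ⟨u, hu, hRu⟩ := hRq w hw
  obtain ⟨C1, hC1, h1⟩ := C4_aux.short hPw w hw ε hε
  obtain ⟨C2, hC2, h2⟩ := C4_aux.short hPw u hu ε hε
  obtain ⟨C3, hC3, h3⟩ := hRu 4 (by norm_num)
  obtain ⟨-, -, -, C4, hC4, h4, -⟩ := hBc u hu
  refine ⟨C1 + C3 * C2 + C3 * (2 * C4 ^ 4) + C3, ?_, ?_⟩
  · have : 0 ≤ C3 * C2 := by positivity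
    have : 0 ≤ C3 * (2 * C4 ^ 4) := by positivity
    linarith
  intro T N hT hN hNT
  have hT0 : 0 < T := by linarith
  have hN0 : 0 < N := by linarith
  have hN2 : 1 ≤ N ^ 2 := one_le_pow₀ hN
  have hTe : T ^ (1 + 3 * ε) ≤ T ^ (1 + 10 * ε) :=
    Real.rpow_le_rpow_of_exponent_le hT (by linarith)
  have hTe1 : T ≤ T ^ (1 + 10 * ε) := by
    calc T = T ^ (1 : ℝ) := (Real.rpow_one T).symm
      _ ≤ _ := Real.rpow_le_rpow_of_exponent_le hT (by linarith)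
  have hX0 : 0 < T ^ (1 + 10 * ε) := by positivity
  set X : ℝ := T ^ (1 + 10 * ε) with hX
  by_cases hcase : N ^ 2 ≤ T
  · have h5 := h1 T (2 * T) T N hT hN hcase (by linarith) (by linarith)
    calc ∫ t in T..(2 * T), ‖Bl w N t‖ ^ 4 ≤ C1 * T ^ (1 + 3 * ε) * N ^ 2 := h5
      _ ≤ C1 * X * N ^ 2 := by gcongr
      _ ≤ (C1 + C3 * C2 + C3 * (2 * C4 ^ 4) + C3) * X * N ^ 2 := by
          gcongr
          have : 0 ≤ C3 * C2 := by positivity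
          have : 0 ≤ C3 * (2 * C4 ^ 4) := by positivity
          linarith
  · push Not at hcase
    have hNT2 : N ≤ T ^ 2 := by
      refine hNT.trans ?_
      rw [← Real.rpow_natCast T 2]
      exact Real.rpow_le_rpow_of_exponent_le hT (by push_cast; linarith)
    have h5 := h3 T N hT hN hNT2
    set M : ℝ := T / N with hM
    have hM0 : 0 < M := by positivity
    have hfac : (N / Real.sqrt T) ^ 4 = N ^ 4 / T ^ 2 := by
      rw [div_pow]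
      congr 1
      have : Real.sqrt T ^ 4 = (Real.sqrt T ^ 2) ^ 2 := by ring
      rw [this, Real.sq_sqrt hT0.le]
    have hCT : C3 * T ≤ C3 * X * N ^ 2 := by
      calc C3 * T ≤ C3 * X := by gcongr
        _ = C3 * X * 1 := by ring
        _ ≤ C3 * X * N ^ 2 := by gcongr
    by_cases hMc : 1 ≤ M
    · have hM2 : M ^ 2 ≤ T := by
        rw [hM, div_pow, div_le_iff₀ (by positivity)]
        nlinarith
      have h6 := h2 (3 / 4 * T) (9 / 4 * T) T M hT hMc hM2 (by linarith) (by linarith)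
      have h7 : C3 * (N / Real.sqrt T) ^ 4 *
          (∫ t in (3 / 4 * T)..(9 / 4 * T), ‖Bl u M t‖ ^ 4) ≤ C3 * C2 * X * N ^ 2 := by
        rw [hfac]
        calc C3 * (N ^ 4 / T ^ 2) * (∫ t in (3 / 4 * T)..(9 / 4 * T), ‖Bl u M t‖ ^ 4)
            ≤ C3 * (N ^ 4 / T ^ 2) * (C2 * T ^ (1 + 3 * ε) * M ^ 2) := by gcongr
          _ ≤ C3 * (N ^ 4 / T ^ 2) * (C2 * X * M ^ 2) := by gcongr
          _ = C3 * C2 * X * N ^ 2 := by
              rw [hM]; field_simp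
      calc ∫ t in T..(2 * T), ‖Bl w N t‖ ^ 4 ≤ _ := h5
        _ ≤ C3 * C2 * X * N ^ 2 + C3 * X * N ^ 2 := add_le_add h7 hCT
        _ = (0 + C3 * C2 + 0 + C3) * X * N ^ 2 := by ring
        _ ≤ (C1 + C3 * C2 + C3 * (2 * C4 ^ 4) + C3) * X * N ^ 2 := by
            gcongr
            all_goals positivity
    · push Not at hMc
      have hTN : T ≤ N := by
        rw [hM, div_lt_one hN0] at hMc
        exact hMc.le
      have h6 : ∫ t in (3 / 4 * T)..(9 / 4 * T), ‖Bl u M t‖ ^ 4 ≤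
          (C4 * M) ^ 4 * (3 / 2 * T) := by
        have h8 : ‖∫ t in (3 / 4 * T)..(9 / 4 * T), ‖Bl u M t‖ ^ 4‖ ≤
            (C4 * M) ^ 4 * |9 / 4 * T - 3 / 4 * T| := by
          refine intervalIntegral.norm_integral_le_of_norm_le_const (fun t _ => ?_)
          rw [Real.norm_eq_abs, abs_of_nonneg (by positivity)]
          have := h4 M t hM0
          gcongr
        have h9 : |9 / 4 * T - 3 / 4 * T| = 3 / 2 * T := by
          rw [abs_of_nonneg (by linarith)]; ring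
        rw [h9] at h8
        exact (Real.le_norm_self _).trans h8
      have h7 : C3 * (N / Real.sqrt T) ^ 4 *
          (∫ t in (3 / 4 * T)..(9 / 4 * T), ‖Bl u M t‖ ^ 4) ≤ C3 * (2 * C4 ^ 4) * X * N ^ 2 := by
        rw [hfac]
        calc C3 * (N ^ 4 / T ^ 2) * (∫ t in (3 / 4 * T)..(9 / 4 * T), ‖Bl u M t‖ ^ 4)
            ≤ C3 * (N ^ 4 / T ^ 2) * ((C4 * M) ^ 4 * (3 / 2 * T)) := by gcongr
          _ = C3 * (3 / 2 * C4 ^ 4) * T * T ^ 2 := by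
              rw [hM]; field_simp
          _ ≤ C3 * (2 * C4 ^ 4) * X * N ^ 2 := by
              gcongr
              norm_num
      calc ∫ t in T..(2 * T), ‖Bl w N t‖ ^ 4 ≤ _ := h5
        _ ≤ C3 * (2 * C4 ^ 4) * X * N ^ 2 + C3 * X * N ^ 2 := add_le_add h7 hCT
        _ = (0 + 0 + C3 * (2 * C4 ^ 4) + C3) * X * N ^ 2 := by ring
        _ ≤ (C1 + C3 * C2 + C3 * (2 * C4 ^ 4) + C3) * X * N ^ 2 := by
            gcongr
            all_goals positivity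

end Pool.Agent.Work.MP_56b8f5_nt.UC
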