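import Pool.Agent.Work.MP_56b8f5_nt.UC.Stmts

/-!
MP_56b8f5_nt, block UC, item CA: all moments of blocks between 4 and 8.
Author: helper13.
-/

open MeasureTheory Set Filter Topology

noncomputable section

namespace Pool.Agent.Work.MP_56b8f5_nt.UC

namespace CA_aux

/-- The power with exponent between 4 and 8. -/
theorem pow_split (b A : ℝ) (hb : 0 ≤ b) (h4 : 4 ≤ A) (h8 : A ≤ 8) :
    b ^ A = (b ^ (4 : ℕ)) ^ ((8 - A) / 4) * (b ^ (8 : ℕ)) ^ ((A - 4) / 4) := by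
  rw [← Real.rpow_natCast b 4, ← Real.rpow_natCast b 8, ← Real.rpow_mul hb, ← Real.rpow_mul hb,
    ← Real.rpow_add_of_nonneg hb]
  · congr 1
    push_cast
    ring
  · push_cast
    have : 0 ≤ 8 - A := by linarith
    positivity
  · push_cast
    have : 0 ≤ A - 4 := by linarith
    positivity

/-- Interpolation in the pointwise form. -/
theorem young (b A X Y : ℝ) (hb : 0 ≤ b) (h4 : 4 ≤ A) (h8 : A ≤ 8) (hX : 0 < X) (hY : 0 < Y) :
    b ^ A ≤ X ^ ((8 - A) / 4) * Y ^ ((A - 4) / 4) *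
      ((8 - A) / 4 * (b ^ (4 : ℕ) / X) + (A - 4) / 4 * (b ^ (8 : ℕ) / Y)) := by
  have h1 := Real.geom_mean_le_arith_mean2_weighted (w₁ := (8 - A) / 4) (w₂ := (A - 4) / 4)
    (p₁ := b ^ (4 : ℕ) / X) (p₂ := b ^ (8 : ℕ) / Y) (by linarith) (by linarith)
    (by positivity) (by positivity) (by ring)
  rw [Real.div_rpow (by positivity) hX.le, Real.div_rpow (by positivity) hY.le] at h1
  have hXp : 0 < X ^ ((8 - A) / 4) := Real.rpow_pos_of_pos hX _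
  have hYp : 0 < Y ^ ((A - 4) / 4) := Real.rpow_pos_of_pos hY _
  calc b ^ A = (b ^ (4 : ℕ)) ^ ((8 - A) / 4) * (b ^ (8 : ℕ)) ^ ((A - 4) / 4) :=
        pow_split b A hb h4 h8
    _ = X ^ ((8 - A) / 4) * Y ^ ((A - 4) / 4) *
        ((b ^ (4 : ℕ)) ^ ((8 - A) / 4) / X ^ ((8 - A) / 4) *
          ((b ^ (8 : ℕ)) ^ ((A - 4) / 4) / Y ^ ((A - 4) / 4))) := by
        field_simp
    _ ≤ _ := mul_le_mul_of_nonneg_left h1 (by positivity)

/-- Interpolation of integrals. -/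
theorem interp (f : ℝ → ℝ) (hf : Continuous f) (hf0 : ∀ t, 0 ≤ f t) (A X Y a b : ℝ) (hab : a ≤ b)
    (h4 : 4 ≤ A) (h8 : A ≤ 8) (hX : 0 < X) (hY : 0 < Y)
    (hI4 : ∫ t in a..b, f t ^ (4 : ℕ) ≤ X) (hI8 : ∫ t in a..b, f t ^ (8 : ℕ) ≤ Y) :
    ∫ t in a..b, f t ^ A ≤ X ^ ((8 - A) / 4) * Y ^ ((A - 4) / 4) := by
  have hXp : 0 < X ^ ((8 - A) / 4) := Real.rpow_pos_of_pos hX _
  have hYp : 0 < Y ^ ((A - 4) / 4) := Real.rpow_pos_of_pos hY _
  have hc : Continuous fun t => f t ^ A := hf.rpow_const (fun t => Or.inr (by linarith))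
  have c4 : Continuous fun t => (8 - A) / 4 * (f t ^ (4 : ℕ) / X) := by fun_prop
  have c8 : Continuous fun t => (A - 4) / 4 * (f t ^ (8 : ℕ) / Y) := by fun_prop
  have h1 : ∫ t in a..b, f t ^ A ≤ ∫ t in a..b, X ^ ((8 - A) / 4) * Y ^ ((A - 4) / 4) *
      ((8 - A) / 4 * (f t ^ (4 : ℕ) / X) + (A - 4) / 4 * (f t ^ (8 : ℕ) / Y)) := by
    apply intervalIntegral.integral_mono_on hab (hc.intervalIntegrable _ _)
    · exact (continuous_const.mul (c4.add c8)).intervalIntegrable _ _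
    · intro t _
      exact young (f t) A X Y (hf0 t) h4 h8 hX hY
  refine h1.trans ?_
  rw [intervalIntegral.integral_const_mul, intervalIntegral.integral_add
    (c4.intervalIntegrable _ _) (c8.intervalIntegrable _ _), intervalIntegral.integral_const_mul,
    intervalIntegral.integral_const_mul, intervalIntegral.integral_div,
    intervalIntegral.integral_div]
  have h2 : (8 - A) / 4 * ((∫ t in a..b, f t ^ (4 : ℕ)) / X) +
      (A - 4) / 4 * ((∫ t in a..b, f t ^ (8 : ℕ)) / Y) ≤ 1 := by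
    have h3 : (∫ t in a..b, f t ^ (4 : ℕ)) / X ≤ 1 := (div_le_one hX).2 hI4
    have h4' : (∫ t in a..b, f t ^ (8 : ℕ)) / Y ≤ 1 := (div_le_one hY).2 hI8
    have h5 : (8 - A) / 4 * ((∫ t in a..b, f t ^ (4 : ℕ)) / X) ≤ (8 - A) / 4 * 1 :=
      mul_le_mul_of_nonneg_left h3 (by linarith)
    have h6 : (A - 4) / 4 * ((∫ t in a..b, f t ^ (8 : ℕ)) / Y) ≤ (A - 4) / 4 * 1 :=
      mul_le_mul_of_nonneg_left h4' (by linarith)
    linarith
  calc _ ≤ X ^ ((8 - A) / 4) * Y ^ ((A - 4) / 4) * 1 :=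
        mul_le_mul_of_nonneg_left h2 (by positivity)
    _ = _ := mul_one _

/-- The product of the bounds. -/
theorem prod_bound (C4 C8 P N δ A : ℝ) (h4 : 4 ≤ A) (h8 : A ≤ 8) (hC4 : 1 ≤ C4) (hC8 : 1 ≤ C8)
    (hP : 0 < P) (hN : 0 < N) :
    (C4 * P * N ^ (2 : ℕ)) ^ ((8 - A) / 4) * (C8 * P * N ^ (5 - δ)) ^ ((A - 4) / 4) ≤
      C4 * C8 * P * N ^ (A * sg δ A) := by
  have hA : A ≠ 0 := by linarith
  have e1 : (C4 * P * N ^ (2 : ℕ)) ^ ((8 - A) / 4) =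
      C4 ^ ((8 - A) / 4) * P ^ ((8 - A) / 4) * N ^ (2 * ((8 - A) / 4)) := by
    rw [Real.mul_rpow (by positivity) (by positivity), Real.mul_rpow (by positivity) hP.le,
      ← Real.rpow_natCast N 2, ← Real.rpow_mul hN.le]
    norm_num
  have e2 : (C8 * P * N ^ (5 - δ)) ^ ((A - 4) / 4) =
      C8 ^ ((A - 4) / 4) * P ^ ((A - 4) / 4) * N ^ ((5 - δ) * ((A - 4) / 4)) := by
    rw [Real.mul_rpow (by positivity) (by positivity), Real.mul_rpow (by positivity) hP.le,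
      ← Real.rpow_mul hN.le]
  have e3 : C4 ^ ((8 - A) / 4) ≤ C4 := by
    calc C4 ^ ((8 - A) / 4) ≤ C4 ^ (1 : ℝ) :=
          Real.rpow_le_rpow_of_exponent_le hC4 (by linarith)
      _ = C4 := Real.rpow_one _
  have e4 : C8 ^ ((A - 4) / 4) ≤ C8 := by
    calc C8 ^ ((A - 4) / 4) ≤ C8 ^ (1 : ℝ) :=
          Real.rpow_le_rpow_of_exponent_le hC8 (by linarith)
      _ = C8 := Real.rpow_one _
  have e5 : P ^ ((8 - A) / 4) * P ^ ((A - 4) / 4) = P := by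
    rw [← Real.rpow_add hP]
    have : (8 - A) / 4 + (A - 4) / 4 = 1 := by ring
    rw [this, Real.rpow_one]
  have e6 : N ^ (2 * ((8 - A) / 4)) * N ^ ((5 - δ) * ((A - 4) / 4)) = N ^ (A * sg δ A) := by
    rw [← Real.rpow_add hN]
    congr 1
    unfold sg
    field_simp
    ring
  have p4 : 0 < C4 ^ ((8 - A) / 4) := Real.rpow_pos_of_pos (by linarith) _
  have p8 : 0 < C8 ^ ((A - 4) / 4) := Real.rpow_pos_of_pos (by linarith) _
  have hNp : 0 < N ^ (A * sg δ A) := Real.rpow_pos_of_pos hN _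
  rw [e1, e2]
  calc C4 ^ ((8 - A) / 4) * P ^ ((8 - A) / 4) * N ^ (2 * ((8 - A) / 4)) *
        (C8 ^ ((A - 4) / 4) * P ^ ((A - 4) / 4) * N ^ ((5 - δ) * ((A - 4) / 4)))
      = (C4 ^ ((8 - A) / 4) * C8 ^ ((A - 4) / 4)) * (P ^ ((8 - A) / 4) * P ^ ((A - 4) / 4)) *
        (N ^ (2 * ((8 - A) / 4)) * N ^ ((5 - δ) * ((A - 4) / 4))) := by ring
    _ = (C4 ^ ((8 - A) / 4) * C8 ^ ((A - 4) / 4)) * P * N ^ (A * sg δ A) := by rw [e5, e6]
    _ ≤ (C4 * C8) * P * N ^ (A * sg δ A) := by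
        apply mul_le_mul_of_nonneg_right _ hNp.le
        apply mul_le_mul_of_nonneg_right _ hP.le
        exact mul_le_mul e3 e4 p8.le (by linarith)

end CA_aux

/-- CA. -/
theorem iCA (hC4 : StC4) (hCs : StCs) (hBc : StBc) : StCA := by
  obtain ⟨δ, hδ0, hδ1, hCs⟩ := hCs
  refine ⟨δ, hδ0, hδ1, ?_⟩
  intro A h4 h8 w hw ε hε hε1
  obtain ⟨C4, hC41, hC4'⟩ := hC4 w hw ε hε hε1
  obtain ⟨C8, hC81, hC8'⟩ := hCs w hw ε hε hε1
  refine ⟨C4 * C8, by nlinarith, ?_⟩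
  intro T N hT hN hNT
  have hN0 : 0 < N := by linarith
  have hT0 : 0 < T := by linarith
  have hP : 0 < T ^ (1 + 10 * ε) := Real.rpow_pos_of_pos hT0 _
  have hc : Continuous (Bl w N) := (hBc w hw).2.1 N hN0
  have h1 := CA_aux.interp (fun t => ‖Bl w N t‖) hc.norm (fun t => norm_nonneg _) A
    (C4 * T ^ (1 + 10 * ε) * N ^ (2 : ℕ)) (C8 * T ^ (1 + 10 * ε) * N ^ (5 - δ)) T (2 * T)
    (by linarith) h4 h8 (by positivity)
    (by
      have : 0 < N ^ (5 - δ) := Real.rpow_pos_of_pos hN0 _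
      positivity) (hC4' T N hT hN hNT) (hC8' T N hT hN hNT)
  refine h1.trans ?_
  exact CA_aux.prod_bound C4 C8 _ N δ A h4 h8 hC41 hC81 hP hN0

end Pool.Agent.Work.MP_56b8f5_nt.UC
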