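import Pool.Agent.Work.MP_56b8f5_nt.UC.Stmts

/-!
MP_56b8f5_nt, block UC, item Cr: the eighth moment of short blocks.
Author: helper24.
-/

open MeasureTheory Set Filter Topology

noncomputable section

namespace Pool.Agent.Work.MP_56b8f5_nt.UC

namespace Cr_aux

/-- Dyadic majorant of the eighth power. -/
theorem dyadic (x : ℝ) (hx : 0 ≤ x) (J : ℕ) (hJ : x ≤ 2 ^ J) :
    x ^ 8 ≤ 1 + ∑ j ∈ Finset.range J,
      (if (2 : ℝ) ^ j ≤ x then 256 * ((2 : ℝ) ^ j) ^ 8 else 0) := by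
  induction J with
  | zero =>
    simp only [pow_zero, Finset.range_zero, Finset.sum_empty, add_zero] at hJ ⊢
    exact pow_le_one₀ hx hJ
  | succ J ih =>
    rw [Finset.sum_range_succ]
    by_cases h : x ≤ 2 ^ J
    · have h1 := ih h
      have h2 : (0 : ℝ) ≤ if (2 : ℝ) ^ J ≤ x then 256 * ((2 : ℝ) ^ J) ^ 8 else 0 := by
        split_ifs <;> positivity
      linarith
    · push Not at h
      rw [if_pos h.le]
      have h3 : (0 : ℝ) ≤ ∑ j ∈ Finset.range J,
          (if (2 : ℝ) ^ j ≤ x then 256 * ((2 : ℝ) ^ j) ^ 8 else 0) := by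
        apply Finset.sum_nonneg
        intro j _
        split_ifs <;> positivity
      have h4 : x ^ 8 ≤ (2 ^ (J + 1)) ^ 8 := pow_le_pow_left₀ hx hJ 8
      have h5 : ((2 : ℝ) ^ (J + 1)) ^ 8 = 256 * ((2 : ℝ) ^ J) ^ 8 := by
        rw [pow_succ (2 : ℝ) J]
        ring
      linarith

/-- Points of the same parity class are separated. -/
theorem sep {T : ℝ} {t : ℕ → ℝ} (ht : ∀ i, T + i ≤ t i ∧ t i ≤ T + i + 1) {p i j : ℕ}
    (hi : i % 2 = p) (hj : j % 2 = p) (hij : i < j) : 1 ≤ t j - t i := by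
  have h : i + 2 ≤ j := by omega
  have h' : (i : ℝ) + 2 ≤ j := by exact_mod_cast h
  have h1 := (ht i).2
  have h2 := (ht j).1
  linarith

/-- One parity class. -/
theorem classSum {T B : ℝ} {t : ℕ → ℝ} (ht : ∀ i, T + i ≤ t i ∧ t i ≤ T + i + 1)
    (f : ℝ → ℝ) (hf : ∀ s, 0 ≤ f s) (n J p : ℕ) (hn : (n : ℝ) ≤ T + 1)
    (hJ : ∀ i, f (t i) ≤ 2 ^ J)
    (hB : ∀ (V : ℝ) (W : Finset ℝ), 1 ≤ V → Sep W → (∀ s ∈ W, T ≤ s ∧ s ≤ 2 * T + 1) →
      (∀ s ∈ W, V ≤ f s) → V ^ 8 * W.card ≤ B) :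
    ∑ i ∈ (Finset.range n).filter (fun i => i % 2 = p), f (t i) ^ 8 ≤ n + J * (256 * B) := by
  classical
  set S := (Finset.range n).filter (fun i => i % 2 = p) with hS
  have hle : ∀ i ∈ S, f (t i) ^ 8 ≤ 1 + ∑ j ∈ Finset.range J,
      (if (2 : ℝ) ^ j ≤ f (t i) then 256 * ((2 : ℝ) ^ j) ^ 8 else 0) :=
    fun i _ => dyadic _ (hf _) J (hJ i)
  have hcard : (S.card : ℝ) ≤ n := by
    have := Finset.card_filter_le (Finset.range n) (fun i => i % 2 = p)
    rw [Finset.card_range] at this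
    exact_mod_cast this
  have hlev : ∀ j ∈ Finset.range J, ∑ i ∈ S,
      (if (2 : ℝ) ^ j ≤ f (t i) then 256 * ((2 : ℝ) ^ j) ^ 8 else 0) ≤ 256 * B := by
    intro j _
    rw [← Finset.sum_filter, Finset.sum_const, nsmul_eq_mul]
    set Q := S.filter (fun i => (2 : ℝ) ^ j ≤ f (t i)) with hQ
    have hmem : ∀ i ∈ Q, i < n ∧ i % 2 = p ∧ (2 : ℝ) ^ j ≤ f (t i) := by
      intro i hi
      rw [hQ, Finset.mem_filter, hS, Finset.mem_filter, Finset.mem_range] at hi
      exact ⟨hi.1.1, hi.1.2, hi.2⟩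
    have hsep : ∀ i ∈ Q, ∀ k ∈ Q, i ≠ k → 1 ≤ |t i - t k| := by
      intro i hi k hk hik
      rcases lt_or_gt_of_ne hik with h | h
      · have := sep ht (hmem i hi).2.1 (hmem k hk).2.1 h
        rw [abs_sub_comm]
        exact this.trans (le_abs_self _)
      · have := sep ht (hmem k hk).2.1 (hmem i hi).2.1 h
        exact this.trans (le_abs_self _)
    have hinj : Set.InjOn t (Q : Set ℕ) := by
      intro i hi k hk h
      by_contra hne
      have := hsep i hi k hk hne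
      rw [h, sub_self, abs_zero] at this
      linarith
    have hWcard : (Q.image t).card = Q.card := Finset.card_image_of_injOn hinj
    have h1 := hB ((2 : ℝ) ^ j) (Q.image t) (one_le_pow₀ (by norm_num)) (by
      intro s hs s' hs' hss
      rw [Finset.mem_image] at hs hs'
      obtain ⟨i, hi, rfl⟩ := hs
      obtain ⟨k, hk, rfl⟩ := hs'
      exact hsep i hi k hk (fun h => hss (by rw [h]))) (by
      intro s hs
      rw [Finset.mem_image] at hs
      obtain ⟨i, hi, rfl⟩ := hs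
      have h2 : (i : ℝ) + 1 ≤ n := by exact_mod_cast (hmem i hi).1
      have h3 := (ht i).1
      have h4 := (ht i).2
      have h5 : (0 : ℝ) ≤ i := Nat.cast_nonneg i
      constructor <;> linarith) (by
      intro s hs
      rw [Finset.mem_image] at hs
      obtain ⟨i, hi, rfl⟩ := hs
      exact (hmem i hi).2.2)
    rw [hWcard] at h1
    calc (Q.card : ℝ) * (256 * ((2 : ℝ) ^ j) ^ 8) = 256 * (((2 : ℝ) ^ j) ^ 8 * Q.card) := by ring
      _ ≤ 256 * B := by linarith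
  calc ∑ i ∈ S, f (t i) ^ 8 ≤ ∑ i ∈ S, (1 + ∑ j ∈ Finset.range J,
      (if (2 : ℝ) ^ j ≤ f (t i) then 256 * ((2 : ℝ) ^ j) ^ 8 else 0)) := Finset.sum_le_sum hle
    _ = S.card + ∑ j ∈ Finset.range J, ∑ i ∈ S,
      (if (2 : ℝ) ^ j ≤ f (t i) then 256 * ((2 : ℝ) ^ j) ^ 8 else 0) := by
        rw [Finset.sum_add_distrib, Finset.sum_comm]
        simp
    _ ≤ n + ∑ _j ∈ Finset.range J, 256 * B := add_le_add hcard (Finset.sum_le_sum hlev)
    _ = n + J * (256 * B) := by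
        rw [Finset.sum_const, Finset.card_range, nsmul_eq_mul]

/-- The integral against the maxima on unit intervals. -/
theorem intSum (f : ℝ → ℝ) (hf : Continuous f) (hf0 : ∀ s, 0 ≤ f s) (T : ℝ) :
    ∃ t : ℕ → ℝ, (∀ i : ℕ, T + i ≤ t i ∧ t i ≤ T + i + 1) ∧
      ∀ n : ℕ, ∫ s in T..(T + n), f s ^ 8 ≤ ∑ i ∈ Finset.range n, f (t i) ^ 8 := by
  have hex : ∀ i : ℕ, ∃ x ∈ Icc (T + (i : ℝ)) (T + i + 1), IsMaxOn f (Icc (T + (i : ℝ)) (T + i + 1)) x :=
    fun i => isCompact_Icc.exists_isMaxOn ⟨T + i, by constructor <;> linarith⟩ hf.continuousOn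
  choose t ht hmax using hex
  refine ⟨t, fun i => ⟨(ht i).1, (ht i).2⟩, ?_⟩
  have hc : Continuous fun s => f s ^ 8 := hf.pow 8
  intro n
  induction n with
  | zero => simp
  | succ n ih =>
    rw [Finset.sum_range_succ]
    have h1 : ∫ s in T..(T + ((n + 1 : ℕ) : ℝ)), f s ^ 8 =
        (∫ s in T..(T + n), f s ^ 8) + ∫ s in (T + n)..(T + ((n + 1 : ℕ) : ℝ)), f s ^ 8 :=
      (intervalIntegral.integral_add_adjacent_intervals (hc.intervalIntegrable _ _)
        (hc.intervalIntegrable _ _)).symm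
    have h2 : ∫ s in (T + n)..(T + ((n + 1 : ℕ) : ℝ)), f s ^ 8 ≤ f (t n) ^ 8 := by
      have h3 : ∫ s in (T + n)..(T + ((n + 1 : ℕ) : ℝ)), f s ^ 8 ≤
          ∫ _s in (T + n)..(T + ((n + 1 : ℕ) : ℝ)), f (t n) ^ 8 := by
        apply intervalIntegral.integral_mono_on
        · push_cast
          linarith
        · exact hc.intervalIntegrable _ _
        · exact intervalIntegrable_const
        · intro x hx
          push_cast at hx
          have hx' : x ∈ Icc (T + (n : ℝ)) (T + n + 1) := ⟨hx.1, by linarith [hx.2]⟩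
          exact pow_le_pow_left₀ (hf0 x) (hmax n hx') 8
      rw [intervalIntegral.integral_const] at h3
      push_cast at h3 ⊢
      simpa using h3
    rw [h1]
    exact add_le_add ih h2

end Cr_aux

open Cr_aux in
/-- ITEM Cr. -/
theorem iCr (hLv : StLv) (hBc : StBc) : StCr := by
  obtain ⟨δ, hδ0, hδ1, hL⟩ := hLv
  refine ⟨δ, hδ0, hδ1, ?_⟩
  intro w hw ε hε
  obtain ⟨-, hcont, -, Cw, hCw, hbd, -⟩ := hBc w hw
  obtain ⟨C, hC, hmain⟩ := hL w hw (ε / 2) (by linarith)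
  -- the constant for the number of dyadic levels
  set K : ℝ := (Cw) ^ (ε / 2) / (ε / 2) / Real.log 2 + 1 with hK
  have hlog2 : 0 < Real.log 2 := Real.log_pos (by norm_num)
  have hKpos : 1 ≤ K := by
    have : 0 ≤ (Cw) ^ (ε / 2) / (ε / 2) / Real.log 2 := by positivity
    linarith
  refine ⟨4 + 2 * (K * (256 * C)), by nlinarith, ?_⟩
  intro T N hT hN hNT
  have hT0 : 0 < T := by linarith
  have hN0 : 0 < N := by linarith
  have hNleT : N ≤ T := by nlinarith
  set f : ℝ → ℝ := fun s => ‖Bl w N s‖ with hf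
  have hfc : Continuous f := (hcont N hN0).norm
  have hf0 : ∀ s, 0 ≤ f s := fun s => norm_nonneg _
  obtain ⟨t, ht, hint⟩ := intSum f hfc hf0 T
  set n : ℕ := ⌈T⌉₊ with hn
  have hn1 : T ≤ n := Nat.le_ceil T
  have hn2 : (n : ℝ) ≤ T + 1 := (Nat.ceil_lt_add_one hT0.le).le
  -- dyadic levels
  have hCN : 1 ≤ Cw * N := by nlinarith
  set J : ℕ := ⌈Real.log (Cw * N) / Real.log 2⌉₊ with hJ
  have hJ1 : Cw * N ≤ 2 ^ J := by
    have h1 : Real.log (Cw * N) / Real.log 2 ≤ J := Nat.le_ceil _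
    rw [div_le_iff₀ hlog2] at h1
    have h2 : Real.log (Cw * N) ≤ Real.log (2 ^ J) := by
      rw [Real.log_pow]
      exact h1
    exact (Real.log_le_log_iff (by linarith) (by positivity)).1 h2
  have hTe : 1 ≤ T ^ (ε / 2) := Real.one_le_rpow hT (by linarith)
  have hJ2 : (J : ℝ) ≤ K * T ^ (ε / 2) := by
    have h0 : 0 ≤ Real.log (Cw * N) / Real.log 2 :=
      div_nonneg (Real.log_nonneg hCN) hlog2.le
    have h1 : (J : ℝ) ≤ Real.log (Cw * N) / Real.log 2 + 1 := (Nat.ceil_lt_add_one h0).le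
    have h2 : Real.log (Cw * N) ≤ (Cw * N) ^ (ε / 2) / (ε / 2) :=
      Real.log_le_rpow_div (by linarith) (by linarith)
    have h3 : (Cw * N) ^ (ε / 2) ≤ Cw ^ (ε / 2) * T ^ (ε / 2) := by
      rw [Real.mul_rpow (by linarith) hN0.le]
      exact mul_le_mul_of_nonneg_left (Real.rpow_le_rpow hN0.le hNleT (by linarith))
        (Real.rpow_nonneg (by linarith) _)
    calc (J : ℝ) ≤ Real.log (Cw * N) / Real.log 2 + 1 := h1
      _ ≤ (Cw ^ (ε / 2) * T ^ (ε / 2)) / (ε / 2) / Real.log 2 + 1 := by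
          have h4 : Real.log (Cw * N) ≤ (Cw ^ (ε / 2) * T ^ (ε / 2)) / (ε / 2) :=
            h2.trans (div_le_div_of_nonneg_right h3 (by linarith))
          have h5 := div_le_div_of_nonneg_right h4 hlog2.le
          linarith
      _ = (Cw ^ (ε / 2) / (ε / 2) / Real.log 2) * T ^ (ε / 2) + 1 := by ring
      _ ≤ K * T ^ (ε / 2) := by
          rw [hK]
          nlinarith
  set B : ℝ := C * T ^ (1 + ε / 2) * N ^ (5 - δ) with hB
  have hB0 : 0 ≤ B := by positivity
  have hclass : ∀ p : ℕ, ∑ i ∈ (Finset.range n).filter (fun i => i % 2 = p), f (t i) ^ 8 ≤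
      n + J * (256 * B) := by
    intro p
    refine classSum ht f hf0 n J p hn2 (fun i => (hbd N (t i) hN0).trans hJ1) ?_
    intro V W hV hW hWm hWV
    exact hmain T N V W hT hN hNT hV hW hWm hWV
  have hsum : ∑ i ∈ Finset.range n, f (t i) ^ 8 ≤ 2 * (n + J * (256 * B)) := by
    have h1 : ∑ i ∈ Finset.range n, f (t i) ^ 8 =
        ∑ i ∈ (Finset.range n).filter (fun i => i % 2 = 0), f (t i) ^ 8 +
        ∑ i ∈ (Finset.range n).filter (fun i => ¬ i % 2 = 0), f (t i) ^ 8 :=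
      (Finset.sum_filter_add_sum_filter_not _ _ _).symm
    have h2 : (Finset.range n).filter (fun i => ¬ i % 2 = 0) =
        (Finset.range n).filter (fun i => i % 2 = 1) := by
      apply Finset.filter_congr
      intro i _
      omega
    rw [h2] at h1
    rw [h1]
    have := hclass 0
    have := hclass 1
    linarith
  have hI : ∫ s in T..(2 * T), f s ^ 8 ≤ ∫ s in T..(T + n), f s ^ 8 := by
    have hc : Continuous fun s => f s ^ 8 := hfc.pow 8
    apply intervalIntegral.integral_mono_interval (le_refl T) (by linarith) (by linarith)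
    · exact Filter.Eventually.of_forall fun s => by positivity
    · exact hc.intervalIntegrable _ _
  have hN5 : 1 ≤ N ^ (5 - δ) := Real.one_le_rpow hN (by linarith)
  have hT1 : T ≤ T ^ (1 + ε) := by
    calc T = T ^ (1 : ℝ) := (Real.rpow_one T).symm
      _ ≤ T ^ (1 + ε) := Real.rpow_le_rpow_of_exponent_le hT (by linarith)
  have hTT : T ^ (ε / 2) * T ^ (1 + ε / 2) = T ^ (1 + ε) := by
    rw [← Real.rpow_add hT0]
    congr 1
    ring
  have hmain1 : (n : ℝ) ≤ 2 * (T ^ (1 + ε) * N ^ (5 - δ)) := by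
    have h1 : T ≤ T ^ (1 + ε) * N ^ (5 - δ) := by
      calc T ≤ T ^ (1 + ε) := hT1
        _ = T ^ (1 + ε) * 1 := (mul_one _).symm
        _ ≤ T ^ (1 + ε) * N ^ (5 - δ) :=
          mul_le_mul_of_nonneg_left hN5 (Real.rpow_nonneg hT0.le _)
    linarith
  have hmain2 : (J : ℝ) * (256 * B) ≤ K * (256 * C) * (T ^ (1 + ε) * N ^ (5 - δ)) := by
    calc (J : ℝ) * (256 * B) ≤ (K * T ^ (ε / 2)) * (256 * B) :=
          mul_le_mul_of_nonneg_right hJ2 (by positivity)
      _ = K * (256 * C) * ((T ^ (ε / 2) * T ^ (1 + ε / 2)) * N ^ (5 - δ)) := by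
          rw [hB]
          ring
      _ = K * (256 * C) * (T ^ (1 + ε) * N ^ (5 - δ)) := by rw [hTT]
  calc ∫ s in T..(2 * T), ‖Bl w N s‖ ^ 8 ≤ ∫ s in T..(T + n), f s ^ 8 := hI
    _ ≤ ∑ i ∈ Finset.range n, f (t i) ^ 8 := hint n
    _ ≤ 2 * (n + J * (256 * B)) := hsum
    _ ≤ 2 * (2 * (T ^ (1 + ε) * N ^ (5 - δ)) +
        K * (256 * C) * (T ^ (1 + ε) * N ^ (5 - δ))) := by linarith
    _ = (4 + 2 * (K * (256 * C))) * T ^ (1 + ε) * N ^ (5 - δ) := by ring

end Pool.Agent.Work.MP_56b8f5_nt.UC
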