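import Mathlib
import Pool.Agent.Work.MP_56b8f5_nt.UC.Stmts
import Pool.Agent.Work.MP_56b8f5_nt.UC.I_Ow

/-!
MP_56b8f5_nt, block UC, item Cs: eighth moment of all blocks up to `T^{1+ε}`.
-/

open MeasureTheory Set Filter Topology

noncomputable section

namespace Pool.Agent.Work.MP_56b8f5_nt.UC

namespace Cs_aux

/-- rescaling of a block by two -/
lemma Bl_half (u : ℝ → ℝ) (M t : ℝ) :
    Bl (fun x => u (1 / 2 * x)) (M / 2) t = Bl u M t := by
  unfold Bl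
  congr 1
  funext n
  have : 1 / 2 * ((n : ℝ) / (M / 2)) = (n : ℝ) / M := by
    by_cases hM : M = 0
    · subst hM; simp
    · field_simp
  beta_reduce
  rw [this]

lemma cont8 {w : ℝ → ℝ} {N : ℝ} (hc : Continuous (Bl w N)) :
    Continuous fun t => ‖Bl w N t‖ ^ 8 := (hc.norm).pow 8

/-- the case of a bounded dual length -/
lemma int_small {u : ℝ → ℝ} {M T B : ℝ} (hT : 1 ≤ T) (_hB : 0 ≤ B)
    (hb : ∀ t, ‖Bl u M t‖ ≤ B) (_hc : Continuous (Bl u M)) :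
    ∫ t in (3 / 4 * T)..(9 / 4 * T), ‖Bl u M t‖ ^ 8 ≤ 3 / 2 * T * B ^ 8 := by
  have h1 : ‖∫ t in (3 / 4 * T)..(9 / 4 * T), ‖Bl u M t‖ ^ 8‖ ≤ B ^ 8 * |9 / 4 * T - 3 / 4 * T| := by
    apply intervalIntegral.norm_integral_le_of_norm_le_const
    intro t _
    rw [Real.norm_eq_abs, abs_of_nonneg (by positivity)]
    exact pow_le_pow_left₀ (norm_nonneg _) (hb t) 8
  have h2 : |9 / 4 * T - 3 / 4 * T| = 3 / 2 * T := by
    rw [abs_of_nonneg (by linarith)]; ring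
  rw [h2] at h1
  calc ∫ t in (3 / 4 * T)..(9 / 4 * T), ‖Bl u M t‖ ^ 8
      ≤ ‖∫ t in (3 / 4 * T)..(9 / 4 * T), ‖Bl u M t‖ ^ 8‖ := le_abs_self _
    _ ≤ B ^ 8 * (3 / 2 * T) := h1
    _ = 3 / 2 * T * B ^ 8 := by ring

/-- covering of `[3T/4, 9T/4]` by two dyadic intervals -/
lemma int_cover {f : ℝ → ℝ} {T : ℝ} (hT : 1 ≤ T) (hf : Continuous f) (h0 : ∀ t, 0 ≤ f t) :
    ∫ t in (3 / 4 * T)..(9 / 4 * T), f t ≤
      (∫ t in (3 / 4 * T)..(2 * (3 / 4 * T)), f t) + ∫ t in (3 / 2 * T)..(2 * (3 / 2 * T)), f t := by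
  have e : 2 * (3 / 4 * T) = 3 / 2 * T := by ring
  rw [e]
  rw [intervalIntegral.integral_add_adjacent_intervals (hf.intervalIntegrable _ _)
    (hf.intervalIntegrable _ _)]
  apply intervalIntegral.integral_mono_interval (le_refl _) (by linarith) (by linarith)
  · exact Filter.Eventually.of_forall h0
  · exact hf.intervalIntegrable _ _

/-- powers: `(N/√T)^8 T ≤ N^4 T^{1+4ε}` for `N ≤ T^{1+ε}` -/
lemma pow_small {N T ε : ℝ} (hT : 1 ≤ T) (hN : 1 ≤ N) (h : N ≤ T ^ (1 + ε)) :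
    (N / Real.sqrt T) ^ 8 * T ≤ N ^ 4 * T ^ (1 + 4 * ε) := by
  have hT0 : 0 < T := by linarith
  have hN0 : 0 < N := by linarith
  have hs : (Real.sqrt T) ^ 8 = T ^ 4 := by
    have : (Real.sqrt T) ^ 8 = ((Real.sqrt T) ^ 2) ^ 4 := by ring
    rw [this, Real.sq_sqrt hT0.le]
  rw [div_pow, hs]
  have h4 : N ^ 4 ≤ T ^ (4 * (1 + ε)) := by
    calc N ^ 4 ≤ (T ^ (1 + ε)) ^ 4 := pow_le_pow_left₀ hN0.le h 4
      _ = T ^ (4 * (1 + ε)) := by
        rw [← Real.rpow_natCast, ← Real.rpow_mul hT0.le]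
        congr 1; push_cast; ring
  have e1 : T ^ (1 + 4 * ε) * T ^ 3 = T ^ (4 * (1 + ε)) := by
    rw [← Real.rpow_natCast, ← Real.rpow_add hT0]
    congr 1; push_cast; ring
  have e2 : N ^ 8 / T ^ 4 * T = N ^ 4 * (N ^ 4 / T ^ 3) := by
    field_simp
  rw [e2]
  apply mul_le_mul_of_nonneg_left _ (by positivity)
  rw [div_le_iff₀ (by positivity), e1]
  exact h4

/-- powers: the long case -/
lemma pow_long {N T ε δ : ℝ} (hT : 1 ≤ T) (hN : 1 ≤ N) (hδ : δ ≤ 1)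
    (hNT : T ≤ N ^ 2) :
    (N / Real.sqrt T) ^ 8 * (T ^ (1 + ε) * (T / N) ^ (5 - δ)) ≤ T ^ (1 + ε) * N ^ (5 - δ) := by
  have hT0 : 0 < T := by linarith
  have hN0 : 0 < N := by linarith
  have hs : (Real.sqrt T) ^ 8 = T ^ 4 := by
    have : (Real.sqrt T) ^ 8 = ((Real.sqrt T) ^ 2) ^ 4 := by ring
    rw [this, Real.sq_sqrt hT0.le]
  rw [div_pow, hs]
  have hM0 : 0 < T / N := by positivity
  have e1 : (T / N) ^ (5 - δ) = (T / N) ^ 4 * (T / N) ^ (1 - δ) := by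
    rw [← Real.rpow_natCast, ← Real.rpow_add hM0]
    congr 1; push_cast; ring
  have e2 : N ^ (5 - δ) = N ^ 4 * N ^ (1 - δ) := by
    rw [← Real.rpow_natCast, ← Real.rpow_add hN0]
    congr 1; push_cast; ring
  have h3 : (T / N) ^ (1 - δ) ≤ N ^ (1 - δ) := by
    apply Real.rpow_le_rpow hM0.le _ (by linarith)
    rw [div_le_iff₀ hN0]; nlinarith
  rw [e1, e2]
  have e3 : N ^ 8 / T ^ 4 * (T ^ (1 + ε) * ((T / N) ^ 4 * (T / N) ^ (1 - δ))) =
      T ^ (1 + ε) * (N ^ 4 * (T / N) ^ (1 - δ)) := by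
    rw [div_pow]
    field_simp
  rw [e3]
  gcongr

end Cs_aux

open Cs_aux in
theorem iCs (hCr : StCr) (hRq : StRq) (hBc : StBc) : StCs := by
  obtain ⟨δ, hδ0, hδ1, hCr⟩ := hCr
  refine ⟨δ, hδ0, hδ1, fun w hw ε hε0 hε1 => ?_⟩
  obtain ⟨C1, hC1, h1⟩ := hCr w hw ε hε0
  obtain ⟨u, hu, hq⟩ := hRq w hw
  obtain ⟨C2, hC2, h2⟩ := hq 8 (by norm_num)
  obtain ⟨_, hcu, _, C3, hC3, h3, _⟩ := hBc u hu
  have hu2 : IsWt (fun x => u (1 / 2 * x)) := hu.comp_mul (by norm_num)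
  obtain ⟨C4, hC4, h4⟩ := hCr _ hu2 ε hε0
  have hK3 : 0 ≤ 3 / 2 * (2 * C3) ^ 8 := by positivity
  refine ⟨C1 + C2 * (3 / 2 * (2 * C3) ^ 8) + C2 * (16 * C4) + C2, ?_, ?_⟩
  · have : 0 ≤ C2 * (3 / 2 * (2 * C3) ^ 8) := by positivity
    have : 0 ≤ C2 * (16 * C4) := by positivity
    linarith
  intro T N hT hN hNT
  have hT0 : 0 < T := by linarith
  have hN0 : 0 < N := by linarith
  set Q : ℝ := T ^ (1 + 10 * ε) * N ^ (5 - δ) with hQ
  have hQT : T ≤ Q := by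
    have a1 : T ≤ T ^ (1 + 10 * ε) := by
      conv_lhs => rw [← Real.rpow_one T]
      exact Real.rpow_le_rpow_of_exponent_le hT (by linarith)
    have a2 : 1 ≤ N ^ (5 - δ) := Real.one_le_rpow hN (by linarith)
    calc T = T * 1 := (mul_one _).symm
      _ ≤ T ^ (1 + 10 * ε) * N ^ (5 - δ) := by gcongr
  have hQ1 : T ^ (1 + ε) * N ^ (5 - δ) ≤ Q := by
    rw [hQ]
    apply mul_le_mul_of_nonneg_right _ (by positivity)
    exact Real.rpow_le_rpow_of_exponent_le hT (by linarith)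
  have hQ4 : N ^ 4 * T ^ (1 + 4 * ε) ≤ Q := by
    rw [hQ, mul_comm]
    have a1 : N ^ 4 ≤ N ^ (5 - δ) := by
      rw [← Real.rpow_natCast]
      exact Real.rpow_le_rpow_of_exponent_le hN (by push_cast; linarith)
    have a2 : T ^ (1 + 4 * ε) ≤ T ^ (1 + 10 * ε) :=
      Real.rpow_le_rpow_of_exponent_le hT (by linarith)
    exact mul_le_mul a2 a1 (by positivity) (by positivity)
  have hQ0 : 0 ≤ Q := by linarith
  have hrhs : (C1 + C2 * (3 / 2 * (2 * C3) ^ 8) + C2 * (16 * C4) + C2) * T ^ (1 + 10 * ε) * N ^ (5 - δ) =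
      C1 * Q + C2 * (3 / 2 * (2 * C3) ^ 8) * Q + C2 * (16 * C4) * Q + C2 * Q := by
    rw [hQ]; ring
  rw [hrhs]
  have p1 : 0 ≤ C1 * Q := by positivity
  have p2 : 0 ≤ C2 * (3 / 2 * (2 * C3) ^ 8) * Q := by positivity
  have p3 : 0 ≤ C2 * (16 * C4) * Q := by positivity
  have p4 : C2 * T ≤ C2 * Q := by gcongr
  have p5 : 0 ≤ C2 * Q := by positivity
  by_cases hcase : N ^ 2 ≤ T
  · have := h1 T N hT hN hcase
    have h' : C1 * T ^ (1 + ε) * N ^ (5 - δ) ≤ C1 * Q := by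
      rw [mul_assoc]; gcongr
    linarith
  · have hcase' : T < N ^ 2 := not_le.mp hcase
    have hN2 : N ≤ T ^ 2 := by
      calc N ≤ T ^ (1 + ε) := hNT
        _ ≤ T ^ (2 : ℝ) := Real.rpow_le_rpow_of_exponent_le hT (by linarith)
        _ = T ^ 2 := by norm_cast
    have hmain := h2 T N hT hN hN2
    set M : ℝ := T / N with hM
    have hM0 : 0 < M := by positivity
    have hcM : Continuous (Bl u M) := hcu M hM0
    by_cases hM2 : M < 2
    · have hb : ∀ t, ‖Bl u M t‖ ≤ 2 * C3 := fun t => by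
        calc ‖Bl u M t‖ ≤ C3 * M := h3 M t hM0
          _ ≤ C3 * 2 := by gcongr
          _ = 2 * C3 := by ring
      have hi := int_small (u := u) (M := M) (T := T) (B := 2 * C3) hT (by positivity) hb hcM
      have hps := pow_small hT hN hNT
      have : C2 * (N / Real.sqrt T) ^ 8 * (∫ t in (3 / 4 * T)..(9 / 4 * T), ‖Bl u M t‖ ^ 8) ≤
          C2 * (3 / 2 * (2 * C3) ^ 8) * Q := by
        calc C2 * (N / Real.sqrt T) ^ 8 * (∫ t in (3 / 4 * T)..(9 / 4 * T), ‖Bl u M t‖ ^ 8)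
            ≤ C2 * (N / Real.sqrt T) ^ 8 * (3 / 2 * T * (2 * C3) ^ 8) := by gcongr
          _ = C2 * (3 / 2 * (2 * C3) ^ 8) * ((N / Real.sqrt T) ^ 8 * T) := by ring
          _ ≤ C2 * (3 / 2 * (2 * C3) ^ 8) * Q := by
            apply mul_le_mul_of_nonneg_left _ (by positivity)
            linarith
      linarith
    · have hM2' : 2 ≤ M := not_lt.mp hM2
      have hMsq : M ^ 2 ≤ T := by
        rw [hM, div_pow, div_le_iff₀ (by positivity)]
        nlinarith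
      have hT4 : 4 ≤ T := by nlinarith
      have hcov := int_cover (f := fun t => ‖Bl u M t‖ ^ 8) hT (cont8 hcM) (fun t => by positivity)
      have hA := h4 (3 / 4 * T) (M / 2) (by linarith) (by linarith) (by nlinarith)
      have hB := h4 (3 / 2 * T) (M / 2) (by linarith) (by linarith) (by nlinarith)
      simp only [Bl_half] at hA hB
      have hMM : (M / 2) ^ (5 - δ) ≤ M ^ (5 - δ) :=
        Real.rpow_le_rpow (by positivity) (by linarith) (by linarith)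
      have hTA : (3 / 4 * T) ^ (1 + ε) ≤ T ^ (1 + ε) :=
        Real.rpow_le_rpow (by positivity) (by linarith) (by linarith)
      have hTB : (3 / 2 * T) ^ (1 + ε) ≤ 4 * T ^ (1 + ε) := by
        rw [Real.mul_rpow (by norm_num) hT0.le]
        apply mul_le_mul_of_nonneg_right _ (by positivity)
        calc (3 / 2 : ℝ) ^ (1 + ε) ≤ 2 ^ (1 + ε) := Real.rpow_le_rpow (by norm_num) (by norm_num) (by linarith)
          _ ≤ (2 : ℝ) ^ (2 : ℝ) := Real.rpow_le_rpow_of_exponent_le (by norm_num) (by linarith)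
          _ = 4 := by norm_num
      have hI : ∫ t in (3 / 4 * T)..(9 / 4 * T), ‖Bl u M t‖ ^ 8 ≤ 16 * C4 * (T ^ (1 + ε) * M ^ (5 - δ)) := by
        have hA' : C4 * (3 / 4 * T) ^ (1 + ε) * (M / 2) ^ (5 - δ) ≤ C4 * T ^ (1 + ε) * M ^ (5 - δ) := by
          gcongr
        have hB' : C4 * (3 / 2 * T) ^ (1 + ε) * (M / 2) ^ (5 - δ) ≤ C4 * (4 * T ^ (1 + ε)) * M ^ (5 - δ) := by
          gcongr
        have hpos : 0 ≤ C4 * (T ^ (1 + ε) * M ^ (5 - δ)) := by positivity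
        have hcov' : ∫ t in (3 / 4 * T)..(9 / 4 * T), ‖Bl u M t‖ ^ 8 ≤
            (∫ t in (3 / 4 * T)..(2 * (3 / 4 * T)), ‖Bl u M t‖ ^ 8) +
            ∫ t in (3 / 2 * T)..(2 * (3 / 2 * T)), ‖Bl u M t‖ ^ 8 := hcov
        nlinarith
      have hpl := pow_long (ε := ε) (δ := δ) hT hN (by linarith) hcase'.le
      have : C2 * (N / Real.sqrt T) ^ 8 * (∫ t in (3 / 4 * T)..(9 / 4 * T), ‖Bl u M t‖ ^ 8) ≤
          C2 * (16 * C4) * Q := by
        calc C2 * (N / Real.sqrt T) ^ 8 * (∫ t in (3 / 4 * T)..(9 / 4 * T), ‖Bl u M t‖ ^ 8)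
            ≤ C2 * (N / Real.sqrt T) ^ 8 * (16 * C4 * (T ^ (1 + ε) * M ^ (5 - δ))) := by gcongr
          _ = C2 * (16 * C4) * ((N / Real.sqrt T) ^ 8 * (T ^ (1 + ε) * M ^ (5 - δ))) := by ring
          _ ≤ C2 * (16 * C4) * Q := by
            apply mul_le_mul_of_nonneg_left _ (by positivity)
            exact hpl.trans hQ1
      linarith

end Pool.Agent.Work.MP_56b8f5_nt.UC
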