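import Mathlib
import Pool.Agent.Work.MP_56b8f5_nt.UC.Stmts
import Pool.Agent.Work.MP_56b8f5_nt.UC.I_Ow

/-!
MP_56b8f5_nt, block UC: item Du (duality).
-/

open MeasureTheory Set Filter Topology

noncomputable section

namespace Pool.Agent.Work.MP_56b8f5_nt.UC

open Pool.Agent.Work.MP_56b8f5_nt.UB (ee om)

namespace Du_aux

/-- the dual sum -/
def AA (W : Finset ℝ) (g : ℝ → ℂ) (n : ℕ) : ℂ :=
  ∑ s ∈ W, (starRingEnd ℂ) (g s) * (n : ℂ) ^ (-(s * Complex.I))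

lemma conj_pow (n : ℕ) (t : ℝ) :
    (starRingEnd ℂ) ((n : ℂ) ^ (-(t * Complex.I))) = (n : ℂ) ^ (t * Complex.I) := by
  have h1 : (n : ℂ) = (((n : ℝ)) : ℂ) := by simp
  rw [h1]
  have harg : (((n : ℝ)) : ℂ).arg ≠ Real.pi := by
    rw [Complex.arg_ofReal_of_nonneg (Nat.cast_nonneg n)]
    exact Real.pi_pos.ne
  have h2 := Complex.cpow_conj (((n : ℝ)) : ℂ) (-(t * Complex.I)) harg
  rw [Complex.conj_ofReal, map_neg, map_mul, Complex.conj_ofReal, Complex.conj_I, mul_neg, neg_neg] at h2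
  exact h2.symm

lemma pow_split (n : ℕ) (hn : n ≠ 0) (s t : ℝ) :
    (n : ℂ) ^ (-(((s - t : ℝ) : ℂ) * Complex.I)) =
      (n : ℂ) ^ (-(s * Complex.I)) * (n : ℂ) ^ (t * Complex.I) := by
  rw [← Complex.cpow_add _ _ (Nat.cast_ne_zero.mpr hn)]
  congr 1
  push_cast
  ring

/-- number of terms -/
def KK (L : ℝ) : ℕ := ⌈5 / 2 * L⌉₊

lemma om_far {L : ℝ} (hL : 0 < L) {n : ℕ} (hn : KK L ≤ n) : om ((n : ℝ) / L) = 0 := by
  apply om_eq_zero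
  right
  rw [le_div_iff₀ hL]
  have h1 : 5 / 2 * L ≤ (KK L : ℝ) := Nat.le_ceil _
  have h2 : (KK L : ℝ) ≤ n := by exact_mod_cast hn
  linarith

lemma Bl_eq {L : ℝ} (hL : 0 < L) (t : ℝ) :
    Bl om L t = ∑ n ∈ Finset.range (KK L), ((om ((n : ℝ) / L) : ℝ) : ℂ) * (n : ℂ) ^ (-(t * Complex.I)) := by
  unfold Bl
  apply tsum_eq_sum
  intro n hn
  rw [Finset.mem_range, not_lt] at hn
  rw [om_far hL hn]
  simp

lemma term_eq {L : ℝ} (W : Finset ℝ) (g : ℝ → ℂ) (n : ℕ) :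
    ∑ s ∈ W, ∑ t ∈ W, (starRingEnd ℂ) (g s) *
        (((om ((n : ℝ) / L) : ℝ) : ℂ) * (n : ℂ) ^ (-(((s - t : ℝ) : ℂ) * Complex.I))) * g t =
      ((om ((n : ℝ) / L) * ‖AA W g n‖ ^ 2 : ℝ) : ℂ) := by
  by_cases hn : n = 0
  · subst hn
    have h0 : om (((0 : ℕ) : ℝ) / L) = 0 := om_eq_zero (Or.inl (by simp))
    rw [h0]
    simp
  · have h1 : (((‖AA W g n‖ ^ 2 : ℝ)) : ℂ) = AA W g n * (starRingEnd ℂ) (AA W g n) := by
      rw [Complex.mul_conj, Complex.normSq_eq_norm_sq]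
    have h2 : (starRingEnd ℂ) (AA W g n) = ∑ t ∈ W, (n : ℂ) ^ (t * Complex.I) * g t := by
      unfold AA
      rw [map_sum]
      apply Finset.sum_congr rfl
      intro t _
      rw [map_mul, Complex.conj_conj, conj_pow n t, mul_comm]
    rw [Complex.ofReal_mul, h1, h2]
    unfold AA
    rw [Finset.sum_mul_sum, Finset.mul_sum]
    apply Finset.sum_congr rfl
    intro s _
    rw [Finset.mul_sum]
    apply Finset.sum_congr rfl
    intro t _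
    rw [pow_split n hn s t]
    ring

lemma key {L : ℝ} (hL : 0 < L) (W : Finset ℝ) (g : ℝ → ℂ) :
    ∑ s ∈ W, ∑ t ∈ W, (starRingEnd ℂ) (g s) * Bl om L (s - t) * g t =
      ((∑ n ∈ Finset.range (KK L), om ((n : ℝ) / L) * ‖AA W g n‖ ^ 2 : ℝ) : ℂ) := by
  rw [Complex.ofReal_sum]
  have h1 : ∀ n ∈ Finset.range (KK L), ((om ((n : ℝ) / L) * ‖AA W g n‖ ^ 2 : ℝ) : ℂ) =
      ∑ s ∈ W, ∑ t ∈ W, (starRingEnd ℂ) (g s) *
        (((om ((n : ℝ) / L) : ℝ) : ℂ) * (n : ℂ) ^ (-(((s - t : ℝ) : ℂ) * Complex.I))) * g t :=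
    fun n _ => (term_eq W g n).symm
  rw [Finset.sum_congr rfl h1]
  have h2 : ∀ s ∈ W, ∀ t ∈ W, (starRingEnd ℂ) (g s) * Bl om L (s - t) * g t =
      ∑ n ∈ Finset.range (KK L), (starRingEnd ℂ) (g s) *
        (((om ((n : ℝ) / L) : ℝ) : ℂ) * (n : ℂ) ^ (-(((s - t : ℝ) : ℂ) * Complex.I))) * g t := by
    intro s _ t _
    rw [Bl_eq hL, Finset.mul_sum, Finset.sum_mul]
  rw [Finset.sum_congr rfl fun s hs => Finset.sum_congr rfl (h2 s hs)]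
  symm
  rw [Finset.sum_comm]
  apply Finset.sum_congr rfl
  intro s _
  rw [Finset.sum_comm]

lemma re_key {L : ℝ} (hL : 0 < L) (W : Finset ℝ) (g : ℝ → ℂ) :
    (∑ s ∈ W, ∑ t ∈ W, (starRingEnd ℂ) (g s) * Bl om L (s - t) * g t).re =
      ∑ n ∈ Finset.range (KK L), om ((n : ℝ) / L) * ‖AA W g n‖ ^ 2 := by
  rw [key hL, Complex.ofReal_re]

lemma part1 (L V : ℝ) (a : ℕ → ℂ) (W : Finset ℝ) (hL : 1 ≤ L) (hV : 0 ≤ V) (ha : ∀ n, ‖a n‖ ≤ 1)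
    (hW : ∀ t ∈ W, V ≤ ‖Sd L a t‖) : ∃ c : ℝ → ℂ, (∀ t, ‖c t‖ = 1) ∧
      V ^ 2 * (W.card : ℝ) ^ 2 ≤
        2 * L * (∑ s ∈ W, ∑ t ∈ W, (starRingEnd ℂ) (c s) * Bl om L (s - t) * c t).re := by
  have hL0 : 0 < L := by linarith
  let c : ℝ → ℂ := fun t => if Sd L a t = 0 then 1 else Sd L a t / (‖Sd L a t‖ : ℂ)
  have hc1 : ∀ t, ‖c t‖ = 1 := by
    intro t
    by_cases h : Sd L a t = 0
    · simp [c, h]
    · have h' : ‖Sd L a t‖ ≠ 0 := norm_ne_zero_iff.mpr h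
      simp only [c, h, if_false]
      rw [norm_div, Complex.norm_real, norm_norm, div_self h']
  have hc2 : ∀ t, (starRingEnd ℂ) (c t) * Sd L a t = (‖Sd L a t‖ : ℂ) := by
    intro t
    by_cases h : Sd L a t = 0
    · simp [c, h]
    · have h' : (‖Sd L a t‖ : ℂ) ≠ 0 := by
        rw [Ne, Complex.ofReal_eq_zero]; exact norm_ne_zero_iff.mpr h
      simp only [c, h, if_false]
      rw [map_div₀, Complex.conj_ofReal, div_mul_eq_mul_div, div_eq_iff h', mul_comm,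
        Complex.mul_conj, Complex.normSq_eq_norm_sq]
      push_cast
      ring
  refine ⟨c, hc1, ?_⟩
  rw [re_key hL0]
  set I := Finset.Ioc ⌊L⌋₊ ⌊2 * L⌋₊ with hI
  have hsum : ((∑ t ∈ W, ‖Sd L a t‖ : ℝ) : ℂ) = ∑ n ∈ I, a n * AA W c n := by
    rw [Complex.ofReal_sum]
    unfold AA
    simp_rw [Finset.mul_sum]
    rw [Finset.sum_comm]
    apply Finset.sum_congr rfl
    intro t _
    rw [← hc2 t]
    unfold Sd
    rw [Finset.mul_sum]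
    apply Finset.sum_congr rfl
    intro n _
    ring
  have h1 : V * (W.card : ℝ) ≤ ∑ t ∈ W, ‖Sd L a t‖ := by
    have := Finset.card_nsmul_le_sum W (fun t => ‖Sd L a t‖) V hW
    rw [nsmul_eq_mul] at this
    linarith [mul_comm V (W.card : ℝ)]
  have h2 : ∑ t ∈ W, ‖Sd L a t‖ ≤ ∑ n ∈ I, ‖AA W c n‖ := by
    have h3 : ‖((∑ t ∈ W, ‖Sd L a t‖ : ℝ) : ℂ)‖ = ∑ t ∈ W, ‖Sd L a t‖ := by
      rw [Complex.norm_real, Real.norm_eq_abs, abs_of_nonneg]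
      exact Finset.sum_nonneg fun _ _ => norm_nonneg _
    rw [← h3, hsum]
    refine (norm_sum_le _ _).trans (Finset.sum_le_sum fun n _ => ?_)
    rw [norm_mul]
    calc ‖a n‖ * ‖AA W c n‖ ≤ 1 * ‖AA W c n‖ := by
          gcongr
          exact ha n
      _ = ‖AA W c n‖ := one_mul _
  have h4 : V ^ 2 * (W.card : ℝ) ^ 2 ≤ (∑ n ∈ I, ‖AA W c n‖) ^ 2 := by
    rw [← mul_pow]
    exact pow_le_pow_left₀ (by positivity) (h1.trans h2) 2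
  have h5 : (∑ n ∈ I, ‖AA W c n‖) ^ 2 ≤ (I.card : ℝ) * ∑ n ∈ I, ‖AA W c n‖ ^ 2 :=
    sq_sum_le_card_mul_sum_sq
  have h6 : (I.card : ℝ) ≤ 2 * L := by
    rw [hI, Nat.card_Ioc]
    calc ((⌊2 * L⌋₊ - ⌊L⌋₊ : ℕ) : ℝ) ≤ (⌊2 * L⌋₊ : ℝ) := by
          exact_mod_cast Nat.sub_le _ _
      _ ≤ 2 * L := Nat.floor_le (by linarith)
  have h7 : ∑ n ∈ I, ‖AA W c n‖ ^ 2 = ∑ n ∈ I, om ((n : ℝ) / L) * ‖AA W c n‖ ^ 2 := by
    apply Finset.sum_congr rfl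
    intro n hn
    rw [hI, Finset.mem_Ioc] at hn
    have ha1 : L < n := (Nat.floor_lt hL0.le).mp hn.1
    have ha2 : (n : ℝ) ≤ 2 * L := (Nat.le_floor_iff (by linarith)).mp hn.2
    rw [om_eq_one, one_mul]
    · rw [le_div_iff₀ hL0]; linarith
    · rw [div_le_iff₀ hL0]; linarith
  have h8 : I ⊆ Finset.range (KK L) := by
    intro n hn
    rw [hI, Finset.mem_Ioc] at hn
    have ha2 : (n : ℝ) ≤ 2 * L := (Nat.le_floor_iff (by linarith)).mp hn.2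
    rw [Finset.mem_range]
    unfold KK
    rw [Nat.lt_ceil]
    linarith
  have h9 : ∑ n ∈ I, om ((n : ℝ) / L) * ‖AA W c n‖ ^ 2 ≤
      ∑ n ∈ Finset.range (KK L), om ((n : ℝ) / L) * ‖AA W c n‖ ^ 2 := by
    apply Finset.sum_le_sum_of_subset_of_nonneg h8
    intro n _ _
    exact mul_nonneg (om_nonneg _) (by positivity)
  calc V ^ 2 * (W.card : ℝ) ^ 2 ≤ (∑ n ∈ I, ‖AA W c n‖) ^ 2 := h4
    _ ≤ (I.card : ℝ) * ∑ n ∈ I, ‖AA W c n‖ ^ 2 := h5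
    _ ≤ 2 * L * ∑ n ∈ I, ‖AA W c n‖ ^ 2 := by
        apply mul_le_mul_of_nonneg_right h6
        exact Finset.sum_nonneg fun _ _ => by positivity
    _ ≤ 2 * L * ∑ n ∈ Finset.range (KK L), om ((n : ℝ) / L) * ‖AA W c n‖ ^ 2 := by
        rw [h7]
        apply mul_le_mul_of_nonneg_left h9 (by linarith)

end Du_aux

theorem iDu : StDu := by
  refine ⟨fun L V a W hL hV ha hW => Du_aux.part1 L V a W hL hV ha hW, ?_⟩
  intro L W g hL
  rw [Du_aux.re_key hL]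
  apply Finset.sum_nonneg
  intro n _
  exact mul_nonneg (om_nonneg _) (by positivity)

end Pool.Agent.Work.MP_56b8f5_nt.UC
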