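import Mathlib
import Pool.Agent.Work.MP_56b8f5_nt.UC.Stmts

/-!
MP_56b8f5_nt, block UC: item G (large values in the critical range, from `StGM` and `StUp`).
-/

open MeasureTheory Set Filter Topology

noncomputable section

namespace Pool.Agent.Work.MP_56b8f5_nt.UC

namespace G_aux

/-- a `1`-separated set in an interval of length `T ≥ 1` has at most `2T` elements -/
lemma card_le {W : Finset ℝ} (hW : Sep W) {T0 T : ℝ} (hT : 1 ≤ T)
    (h : ∀ t ∈ W, T0 ≤ t ∧ t ≤ T0 + T) : (W.card : ℝ) ≤ 2 * T := by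
  have h1 : W.card ≤ (Finset.range (⌊T⌋₊ + 1)).card := by
    apply Finset.card_le_card_of_injOn (fun t => ⌊t - T0⌋₊)
    · intro t ht
      have h0 := h t ht
      have h1 : ⌊t - T0⌋₊ ≤ ⌊T⌋₊ := Nat.floor_le_floor (by linarith)
      simp only [Finset.coe_range, Set.mem_Iio]
      omega
    · intro s hs t ht hst
      by_contra hne
      have h1 := hW s hs t ht hne
      have hs' := h s hs
      have ht' := h t ht
      simp only at hst
      have a1 := Nat.floor_le (show 0 ≤ s - T0 by linarith)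
      have a2 := Nat.lt_floor_add_one (s - T0)
      have b1 := Nat.floor_le (show 0 ≤ t - T0 by linarith)
      have b2 := Nat.lt_floor_add_one (t - T0)
      rw [hst] at a1 a2
      have h3 : |s - t| < 1 := by
        rw [abs_lt]
        constructor <;> linarith
      linarith
  rw [Finset.card_range] at h1
  have h2 : (W.card : ℝ) ≤ ⌊T⌋₊ + 1 := by exact_mod_cast h1
  have h3 := Nat.floor_le (show 0 ≤ T by linarith)
  linarith

lemma quad {S B D : ℝ} (hB : 0 ≤ B) (hD : 0 ≤ D) (h : S ^ 2 ≤ B * S + D ^ 2) : S ≤ B + D := by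
  by_contra hc
  push Not at hc
  have h1 : 0 < S - B - D := by linarith
  have h2 : 0 < S := by linarith
  nlinarith [mul_pos h1 h2, mul_nonneg hD (show 0 ≤ S - D by linarith)]

/-- the energy bound, in exponents -/
lemma energy {T δ l r K E : ℝ} (hT : 1 < T) (hδ : 0 < δ) (h2 : 2 ≤ T ^ δ)
    (hK : K ≤ T ^ δ) (hl1 : 4 / 5 - δ ≤ l) (hr2 : r ≤ 1 - l / 2) (hE : 0 ≤ E)
    (h : (T ^ (3 / 4 * l - δ)) ^ 2 * E ≤ K * Real.sqrt ((T ^ l) ^ 2 * T ^ r + T * (T ^ r) ^ 2) *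
      Real.sqrt ((T ^ l) ^ 2 * E + T * (T ^ r) ^ 4)) :
    Real.sqrt E ≤ T ^ (5 * δ + l / 2 + r / 2) + T ^ (5 / 2 * δ + 1 / 4 - l / 4 + 5 / 4 * r) := by
  have hT0 : 0 < T := by linarith
  have hp : ∀ x : ℝ, 0 < T ^ x := fun x => Real.rpow_pos_of_pos hT0 x
  have hadd : ∀ x y : ℝ, T ^ x * T ^ y = T ^ (x + y) := fun x y => (Real.rpow_add hT0 x y).symm
  have hpow : ∀ (x : ℝ) (n : ℕ), (T ^ x) ^ n = T ^ (x * n) := fun x n => by
    rw [← Real.rpow_natCast, ← Real.rpow_mul hT0.le]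
  have hmono : ∀ x y : ℝ, x ≤ y → T ^ x ≤ T ^ y := fun x y hxy =>
    Real.rpow_le_rpow_of_exponent_le hT.le hxy
  have hone : T = T ^ (1 : ℝ) := (Real.rpow_one T).symm
  obtain ⟨S, hS⟩ : ∃ S, S = Real.sqrt E := ⟨_, rfl⟩
  have hS0 : 0 ≤ S := by rw [hS]; exact Real.sqrt_nonneg _
  have hSE : E = S ^ 2 := by rw [hS, Real.sq_sqrt hE]
  rw [← hS]
  have s1 : Real.sqrt ((T ^ l) ^ 2 * T ^ r + T * (T ^ r) ^ 2) ≤ T ^ (l + r / 2 + 2 * δ) := by
    rw [Real.sqrt_le_iff]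
    refine ⟨(hp _).le, ?_⟩
    have e1 : (T ^ l) ^ 2 * T ^ r = T ^ (2 * l + r) := by
      rw [hpow, hadd]; congr 1; push_cast; ring
    have e2 : T * (T ^ r) ^ 2 = T ^ (1 + 2 * r) := by
      calc T * (T ^ r) ^ 2 = T ^ (1 : ℝ) * (T ^ r) ^ 2 := by rw [Real.rpow_one]
        _ = T ^ (1 + 2 * r) := by rw [hpow, hadd]; congr 1; push_cast; ring
    have e3 : (T ^ (l + r / 2 + 2 * δ)) ^ 2 = T ^ δ * T ^ (2 * l + r + 3 * δ) := by
      rw [hpow, hadd]; congr 1; push_cast; ring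
    rw [e1, e2, e3]
    have m1 := hmono (2 * l + r) (2 * l + r + 3 * δ) (by linarith)
    have m2 := hmono (1 + 2 * r) (2 * l + r + 3 * δ) (by linarith)
    nlinarith [hp (2 * l + r + 3 * δ)]
  have s2 : Real.sqrt ((T ^ l) ^ 2 * E + T * (T ^ r) ^ 4) ≤ T ^ l * S + T ^ (1 / 2 + 2 * r) := by
    rw [Real.sqrt_le_iff]
    have p1 := hp l
    have p2 := hp (1 / 2 + 2 * r)
    refine ⟨by positivity, ?_⟩
    have e2 : T * (T ^ r) ^ 4 = (T ^ (1 / 2 + 2 * r)) ^ 2 := by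
      calc T * (T ^ r) ^ 4 = T ^ (1 : ℝ) * (T ^ r) ^ 4 := by rw [Real.rpow_one]
        _ = _ := by rw [hpow, hadd, hpow]; congr 1; push_cast; ring
    rw [e2, hSE]
    nlinarith [mul_nonneg (mul_nonneg p1.le hS0) p2.le]
  have hsum : 0 ≤ T ^ l * S + T ^ (1 / 2 + 2 * r) := by
    have p1 := hp l
    have p2 := hp (1 / 2 + 2 * r)
    positivity
  have s3 : (T ^ (3 / 4 * l - δ)) ^ 2 * S ^ 2 ≤
      T ^ δ * T ^ (l + r / 2 + 2 * δ) * (T ^ l * S + T ^ (1 / 2 + 2 * r)) := by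
    calc (T ^ (3 / 4 * l - δ)) ^ 2 * S ^ 2 = (T ^ (3 / 4 * l - δ)) ^ 2 * E := by rw [hSE]
      _ ≤ _ := h
      _ ≤ T ^ δ * T ^ (l + r / 2 + 2 * δ) * (T ^ l * S + T ^ (1 / 2 + 2 * r)) := by
        apply mul_le_mul _ s2 (Real.sqrt_nonneg _) (by have := hp δ; have := hp (l + r / 2 + 2 * δ); positivity)
        exact mul_le_mul hK s1 (Real.sqrt_nonneg _) (hp δ).le
  have s4 : S ^ 2 ≤ T ^ (5 * δ + l / 2 + r / 2) * S +
      (T ^ (5 / 2 * δ + 1 / 4 - l / 4 + 5 / 4 * r)) ^ 2 := by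
    have h4 := mul_le_mul_of_nonneg_left s3 (hp (2 * δ - 3 / 2 * l)).le
    have e1 : T ^ (2 * δ - 3 / 2 * l) * ((T ^ (3 / 4 * l - δ)) ^ 2 * S ^ 2) = S ^ 2 := by
      rw [hpow, ← mul_assoc, hadd]
      have : (2 * δ - 3 / 2 * l + (3 / 4 * l - δ) * ((2 : ℕ) : ℝ)) = 0 := by push_cast; ring
      rw [this, Real.rpow_zero, one_mul]
    have e2 : T ^ (2 * δ - 3 / 2 * l) * (T ^ δ * T ^ (l + r / 2 + 2 * δ) * (T ^ l * S + T ^ (1 / 2 + 2 * r))) =
        T ^ (5 * δ + l / 2 + r / 2) * S + (T ^ (5 / 2 * δ + 1 / 4 - l / 4 + 5 / 4 * r)) ^ 2 := by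
      have a1 : T ^ (2 * δ - 3 / 2 * l) * (T ^ δ * T ^ (l + r / 2 + 2 * δ)) * T ^ l =
          T ^ (5 * δ + l / 2 + r / 2) := by
        rw [hadd, hadd, hadd]; congr 1; ring
      have a2 : T ^ (2 * δ - 3 / 2 * l) * (T ^ δ * T ^ (l + r / 2 + 2 * δ)) * T ^ (1 / 2 + 2 * r) =
          (T ^ (5 / 2 * δ + 1 / 4 - l / 4 + 5 / 4 * r)) ^ 2 := by
        rw [hadd, hadd, hadd, hpow]; congr 1; push_cast; ring
      rw [← a1, ← a2]; ring
    rw [e1, e2] at h4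
    exact h4
  exact quad (hp _).le (hp _).le s4

/-- the final contradiction, in exponents -/
lemma final {T δ μ l r q C S : ℝ} (hT : 1 < T) (hδ : 0 < δ) (hC : 1 ≤ C) (hK : 5 * C ≤ T ^ δ)
    (hl1 : 4 / 5 - δ ≤ l) (hl2 : l ≤ 1 - μ) (hq0 : 0 < q) (hq1 : q ≤ 1) (hql : q * l ≤ μ)
    (hd1 : δ ≤ 1 / 200) (hd2 : δ ≤ μ / 40) (hd3 : δ ≤ q / 40)
    (hr1 : 1 - δ - l / 2 ≤ r)
    (hS : S ≤ T ^ (5 * δ + l / 2 + r / 2) + T ^ (5 / 2 * δ + 1 / 4 - l / 4 + 5 / 4 * r))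
    (h : T ^ (3 / 2 * l - 6 * δ + 3 * r) ≤ C * T ^ δ * (T ^ (2 + 3 / 2 * r) + T ^ (1 + l + r / 2) * S +
      T ^ (2 * l + 2 * r + (1 - r) * q) + T ^ (1 + l + r * (2 - q)))) : False := by
  have hT0 : 0 < T := by linarith
  have hp : ∀ x : ℝ, 0 < T ^ x := fun x => Real.rpow_pos_of_pos hT0 x
  have hadd : ∀ x y : ℝ, T ^ x * T ^ y = T ^ (x + y) := fun x y => (Real.rpow_add hT0 x y).symm
  have hmono : ∀ x y : ℝ, x ≤ y → T ^ x ≤ T ^ y := fun x y hxy =>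
    Real.rpow_le_rpow_of_exponent_le hT.le hxy
  have hμ : 0 < μ := by linarith
  set F : ℝ := 3 / 2 * l - 6 * δ + 3 * r with hF
  have hl3 : l ≤ 1 := by linarith
  have k1 : T ^ (2 + 3 / 2 * r) ≤ T ^ (F - 3 * δ) := hmono _ _ (by rw [hF]; linarith)
  have k2 : T ^ (1 + l + r / 2) * T ^ (5 * δ + l / 2 + r / 2) ≤ T ^ (F - 3 * δ) := by
    rw [hadd]; exact hmono _ _ (by rw [hF]; linarith)
  have k3 : T ^ (1 + l + r / 2) * T ^ (5 / 2 * δ + 1 / 4 - l / 4 + 5 / 4 * r) ≤ T ^ (F - 3 * δ) := by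
    rw [hadd]; exact hmono _ _ (by rw [hF]; linarith)
  have k4 : T ^ (2 * l + 2 * r + (1 - r) * q) ≤ T ^ (F - 3 * δ) := by
    apply hmono
    have a1 : (1 - r) * q ≤ (δ + l / 2) * q := mul_le_mul_of_nonneg_right (by linarith) hq0.le
    have a2 : δ * q ≤ δ := by nlinarith
    rw [hF]
    nlinarith
  have k5 : T ^ (1 + l + r * (2 - q)) ≤ T ^ (F - 3 * δ) := by
    apply hmono
    have a1 : (1 / 4) * q ≤ r * q := mul_le_mul_of_nonneg_right (by linarith) hq0.le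
    rw [hF]
    nlinarith
  have k6 : T ^ (1 + l + r / 2) * S ≤ 2 * T ^ (F - 3 * δ) := by
    have := mul_le_mul_of_nonneg_left hS (hp (1 + l + r / 2)).le
    linarith
  have k7 : C * T ^ δ * (T ^ (2 + 3 / 2 * r) + T ^ (1 + l + r / 2) * S +
      T ^ (2 * l + 2 * r + (1 - r) * q) + T ^ (1 + l + r * (2 - q))) ≤
      C * T ^ δ * (5 * T ^ (F - 3 * δ)) := by
    apply mul_le_mul_of_nonneg_left _ (by have := hp δ; positivity)
    linarith
  have k8 : C * T ^ δ * (5 * T ^ (F - 3 * δ)) ≤ T ^ (F - δ) := by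
    calc C * T ^ δ * (5 * T ^ (F - 3 * δ)) = (5 * C) * (T ^ δ * T ^ (F - 3 * δ)) := by ring
      _ ≤ T ^ δ * (T ^ δ * T ^ (F - 3 * δ)) := by
        apply mul_le_mul_of_nonneg_right hK
        have := hp δ; have := hp (F - 3 * δ); positivity
      _ = T ^ (F - δ) := by rw [hadd, hadd]; congr 1; ring
  have k9 : T ^ (F - δ) < T ^ F := Real.rpow_lt_rpow_of_exponent_lt hT (by linarith)
  linarith

lemma EN_nonneg (W : Finset ℝ) : 0 ≤ EN W := by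
  unfold EN
  apply Finset.sum_nonneg; intro t1 _
  apply Finset.sum_nonneg; intro t2 _
  apply Finset.sum_nonneg; intro t3 _
  apply Finset.sum_nonneg; intro t4 _
  positivity

end G_aux

open G_aux in
theorem iG (hGM : StGM) (hUp : StUp) : StG := by
  intro κ hκ
  obtain ⟨k, hk⟩ := exists_nat_ge (1 / κ + 1)
  have hk1 : (1 : ℝ) ≤ k := by
    have : 0 < 1 / κ := by positivity
    linarith
  have hk1' : 1 ≤ k := by exact_mod_cast hk1
  have hkκ : 1 / κ ≤ k := by linarith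
  obtain ⟨q, hq⟩ : ∃ q : ℝ, q = 1 / (k : ℝ) := ⟨_, rfl⟩
  have hq0 : 0 < q := by rw [hq]; positivity
  have hq1 : q ≤ 1 := by rw [hq, div_le_one (by linarith)]; exact hk1
  have hqκ : q ≤ κ := by
    rw [hq, div_le_iff₀ (by linarith)]
    rw [div_le_iff₀ hκ] at hkκ
    linarith
  obtain ⟨μ, hμ⟩ : ∃ μ : ℝ, μ = κ / (1 + κ) := ⟨_, rfl⟩
  have hμ0 : 0 < μ := by rw [hμ]; positivity
  have hμ1 : (1 - μ) * (1 + κ) = 1 := by rw [hμ]; field_simp; ring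
  obtain ⟨δ, hδ⟩ : ∃ δ : ℝ, δ = min (1 / 200) (min (μ / 40) (q / 40)) := ⟨_, rfl⟩
  have hδ0 : 0 < δ := by rw [hδ]; positivity
  have hd1 : δ ≤ 1 / 200 := by rw [hδ]; exact min_le_left _ _
  have hd2 : δ ≤ μ / 40 := by
    rw [hδ]; exact (min_le_right _ _).trans (min_le_left _ _)
  have hd3 : δ ≤ q / 40 := by
    rw [hδ]; exact (min_le_right _ _).trans (min_le_right _ _)
  obtain ⟨C1, hC1, hGM⟩ := hGM k δ hk1' hδ0
  obtain ⟨C2, hC2, hUp⟩ := hUp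
  obtain ⟨K, hK⟩ : ∃ K : ℝ, K = 5 * C1 + C2 * (1 + 2 / δ) + 2 := ⟨_, rfl⟩
  have hK0 : 1 < K := by
    rw [hK]
    have : 0 < C2 * (1 + 2 / δ) := by positivity
    linarith
  obtain ⟨T1, hT1⟩ : ∃ T1 : ℝ, T1 = K ^ (2 / δ) := ⟨_, rfl⟩
  have hT11 : 1 < T1 := by rw [hT1]; exact Real.one_lt_rpow hK0 (by positivity)
  have hCbig : 1 ≤ 2 * T1 * Real.sqrt T1 := by
    have h1 : 1 ≤ Real.sqrt T1 := by rw [Real.one_le_sqrt]; exact hT11.le
    have h2 : 1 ≤ 2 * T1 := by linarith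
    calc (1 : ℝ) = 1 * 1 := by ring
      _ ≤ 2 * T1 * Real.sqrt T1 := mul_le_mul h2 h1 zero_le_one (by linarith)
  refine ⟨δ, 2 * T1 * Real.sqrt T1, hδ0, by linarith, hCbig, ?_⟩
  intro T0 T L V a W hT hL1 hL2 ha hW hWT hV1 hV2
  have hT0 : 0 < T := by linarith
  have hL0 : 1 ≤ L := le_trans (Real.one_le_rpow hT (by linarith)) hL1
  have hLpos : 0 < L := by linarith
  have hLT : L ≤ T := by
    calc L = L ^ (1 : ℝ) := (Real.rpow_one L).symm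
      _ ≤ L ^ (1 + κ) := Real.rpow_le_rpow_of_exponent_le hL0 (by linarith)
      _ ≤ T := hL2
  have hsL : 0 < Real.sqrt L := Real.sqrt_pos.mpr hLpos
  have hsT1 : 1 ≤ Real.sqrt T1 := by rw [Real.one_le_sqrt]; exact hT11.le
  rcases lt_or_ge T T1 with hTT | hTT
  · -- small `T`
    have h1 := card_le hW hT hWT
    have h2 : 1 ≤ T ^ (1 - δ) := Real.one_le_rpow hT (by linarith)
    have h3 : Real.sqrt L ≤ Real.sqrt T1 := Real.sqrt_le_sqrt (by linarith)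
    rw [le_div_iff₀ hsL]
    calc (W.card : ℝ) * Real.sqrt L ≤ (2 * T1) * Real.sqrt T1 := by
          apply mul_le_mul (by linarith) h3 hsL.le (by linarith)
      _ = 2 * T1 * Real.sqrt T1 * 1 := by ring
      _ ≤ 2 * T1 * Real.sqrt T1 * T ^ (1 - δ) := by
          apply mul_le_mul_of_nonneg_left h2; positivity
  -- large `T`
  have hT1' : 1 < T := by linarith
  have hp : ∀ x : ℝ, 0 < T ^ x := fun x => Real.rpow_pos_of_pos hT0 x
  have hadd : ∀ x y : ℝ, T ^ x * T ^ y = T ^ (x + y) := fun x y => (Real.rpow_add hT0 x y).symm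
  have hpow : ∀ (x : ℝ) (n : ℕ), (T ^ x) ^ n = T ^ (x * n) := fun x n => by
    rw [← Real.rpow_natCast, ← Real.rpow_mul hT0.le]
  have hmono : ∀ x y : ℝ, x ≤ y → T ^ x ≤ T ^ y := fun x y hxy =>
    Real.rpow_le_rpow_of_exponent_le hT hxy
  have hsqrt : ∀ x : ℝ, Real.sqrt (T ^ x) = T ^ (x / 2) := fun x => by
    rw [Real.sqrt_eq_rpow, ← Real.rpow_mul hT0.le]; congr 1; ring
  have hKT : K ≤ T ^ (δ / 2) := by
    calc K = T1 ^ (δ / 2) := by
          rw [hT1, ← Real.rpow_mul (by linarith)]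
          have : 2 / δ * (δ / 2) = 1 := by field_simp
          rw [this, Real.rpow_one]
      _ ≤ T ^ (δ / 2) := Real.rpow_le_rpow (by linarith) hTT (by positivity)
  have hKT' : K ≤ T ^ δ := hKT.trans (hmono _ _ (by linarith))
  have hC2pos : 0 < C2 * (1 + 2 / δ) := by positivity
  have hK1 : 5 * C1 ≤ T ^ δ := by linarith
  have hK2 : 2 ≤ T ^ δ := by linarith
  have hlog : C2 * (1 + Real.log L) ≤ T ^ δ := by
    have h1 : Real.log L ≤ Real.log T := Real.log_le_log hLpos hLT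
    have h2 : Real.log T ≤ T ^ (δ / 2) / (δ / 2) := Real.log_le_rpow_div hT0.le (by positivity)
    have h3 : 1 ≤ T ^ (δ / 2) := Real.one_le_rpow hT (by positivity)
    have h4 : T ^ (δ / 2) / (δ / 2) = 2 / δ * T ^ (δ / 2) := by field_simp
    rw [h4] at h2
    calc C2 * (1 + Real.log L) ≤ C2 * (T ^ (δ / 2) + 2 / δ * T ^ (δ / 2)) := by
          apply mul_le_mul_of_nonneg_left _ (by linarith); linarith
      _ = C2 * (1 + 2 / δ) * T ^ (δ / 2) := by ring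
      _ ≤ T ^ (δ / 2) * T ^ (δ / 2) := by
          apply mul_le_mul_of_nonneg_right _ (hp _).le; linarith
      _ = T ^ δ := by rw [hadd]; congr 1; ring
  -- exponents
  obtain ⟨l, hl⟩ : ∃ l : ℝ, L = T ^ l :=
    ⟨Real.logb T L, (Real.rpow_logb hT0 (by linarith) hLpos).symm⟩
  have hl1 : 4 / 5 - δ ≤ l := by
    rw [hl, Real.rpow_le_rpow_left_iff hT1'] at hL1
    exact hL1
  have hl2' : l * (1 + κ) ≤ 1 := by
    rw [hl, ← Real.rpow_mul hT0.le] at hL2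
    have : T ^ (l * (1 + κ)) ≤ T ^ (1 : ℝ) := by rw [Real.rpow_one]; exact hL2
    rwa [Real.rpow_le_rpow_left_iff hT1'] at this
  have hl2 : l ≤ 1 - μ := by
    have h1 : l * (1 + κ) ≤ (1 - μ) * (1 + κ) := by rw [hμ1]; exact hl2'
    exact le_of_mul_le_mul_right h1 (by linarith)
  have hl0 : 0 ≤ l := by linarith
  have hql : q * l ≤ μ := by
    have h1 : q * l ≤ κ * l := mul_le_mul_of_nonneg_right hqκ hl0
    have h2 : κ * l ≤ κ * (1 - μ) := mul_le_mul_of_nonneg_left hl2 hκ.le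
    have h3 : κ * (1 - μ) = μ := by linarith
    linarith
  have hsLe : Real.sqrt L = T ^ (l / 2) := by rw [hl, hsqrt]
  have hQ : T ^ (1 - δ) / Real.sqrt L = T ^ (1 - δ - l / 2) := by
    rw [hsLe, ← Real.rpow_sub hT0]
  suffices hmain : (W.card : ℝ) ≤ T ^ (1 - δ) / Real.sqrt L by
    calc (W.card : ℝ) ≤ T ^ (1 - δ) / Real.sqrt L := hmain
      _ = 1 * (T ^ (1 - δ) / Real.sqrt L) := by ring
      _ ≤ 2 * T1 * Real.sqrt T1 * (T ^ (1 - δ) / Real.sqrt L) := by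
          apply mul_le_mul_of_nonneg_right hCbig
          rw [hQ]; exact (hp _).le
      _ = _ := by ring
  rw [hQ]
  by_contra hcon
  push Not at hcon
  obtain ⟨n, hn⟩ : ∃ n : ℕ, n = ⌈T ^ (1 - δ - l / 2)⌉₊ := ⟨_, rfl⟩
  have hQ1 : 1 ≤ T ^ (1 - δ - l / 2) := Real.one_le_rpow hT (by linarith)
  have hn1 : T ^ (1 - δ - l / 2) ≤ n := by rw [hn]; exact Nat.le_ceil _
  have hn2 : (n : ℝ) ≤ 2 * T ^ (1 - δ - l / 2) := by
    have := Nat.ceil_lt_add_one (show 0 ≤ T ^ (1 - δ - l / 2) by linarith)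
    rw [hn]; linarith
  have hnW : n ≤ W.card := by rw [hn]; exact Nat.ceil_le.mpr hcon.le
  obtain ⟨W', hW'1, hW'2⟩ := Finset.exists_subset_card_eq hnW
  have hn0 : (0 : ℝ) < n := by linarith
  obtain ⟨r, hr⟩ : ∃ r : ℝ, (n : ℝ) = T ^ r :=
    ⟨Real.logb T n, (Real.rpow_logb hT0 (by linarith) hn0).symm⟩
  have hr1 : 1 - δ - l / 2 ≤ r := by
    rw [hr, Real.rpow_le_rpow_left_iff hT1'] at hn1
    exact hn1
  have hr2 : r ≤ 1 - l / 2 := by
    have : T ^ r ≤ T ^ (1 - l / 2) := by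
      rw [← hr]
      calc (n : ℝ) ≤ 2 * T ^ (1 - δ - l / 2) := hn2
        _ ≤ T ^ δ * T ^ (1 - δ - l / 2) := mul_le_mul_of_nonneg_right hK2 (hp _).le
        _ = T ^ (1 - l / 2) := by rw [hadd]; congr 1; ring
    rwa [Real.rpow_le_rpow_left_iff hT1'] at this
  have hVe : L ^ (3 / 4 : ℝ) * T ^ (-δ) = T ^ (3 / 4 * l - δ) := by
    rw [hl, ← Real.rpow_mul hT0.le, hadd]; congr 1; ring
  rw [hVe] at hV1
  have hV0 : 0 < T ^ (3 / 4 * l - δ) := hp _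
  have hSep' : Sep W' := fun s hs t ht hst => hW s (hW'1 hs) t (hW'1 ht) hst
  have hWT' : ∀ t ∈ W', T0 ≤ t ∧ t ≤ T0 + T := fun t ht => hWT t (hW'1 ht)
  have hV2' : ∀ t ∈ W', T ^ (3 / 4 * l - δ) ≤ ‖Sd L a t‖ := fun t ht => hV1.trans (hV2 t (hW'1 ht))
  have hne : W'.Nonempty := by
    rw [← Finset.card_pos, hW'2]; exact_mod_cast hn0
  have hcard : (W'.card : ℝ) = T ^ r := by rw [hW'2, hr]
  -- energy
  have hE := hUp T0 T L (T ^ (3 / 4 * l - δ)) a W' hL0 hT hV0.le ha hSep' hWT' hV2'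
  rw [hcard, hl] at hE
  rw [hl] at hlog
  have hS := energy hT1' hδ0 hK2 hlog hl1 hr2 (EN_nonneg W') hE
  -- the cubic inequality
  have hA1 : C1 * T ≤ L ^ 2 := by
    rw [hl, hpow]
    calc C1 * T ≤ T ^ δ * T ^ (1 : ℝ) := by
          rw [Real.rpow_one]; apply mul_le_mul_of_nonneg_right _ hT0.le; linarith
      _ = T ^ (δ + 1) := hadd _ _
      _ ≤ T ^ (l * (2 : ℕ)) := hmono _ _ (by push_cast; linarith)
  have hA2 : C1 * L ^ 2 ≤ (T ^ (3 / 4 * l - δ)) ^ 2 * W'.card := by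
    rw [hl, hpow, hpow, hcard, hadd]
    calc C1 * T ^ (l * (2 : ℕ)) ≤ T ^ δ * T ^ (l * (2 : ℕ)) := by
          apply mul_le_mul_of_nonneg_right _ (hp _).le; linarith
      _ = T ^ (δ + l * (2 : ℕ)) := hadd _ _
      _ ≤ _ := hmono _ _ (by push_cast; linarith)
  have hG := hGM T0 T L (T ^ (3 / 4 * l - δ)) a W' hL0 hLT hA1 hV0 ha hne hSep' hWT' hV2' hA2
  rw [hcard, hl, ← hq, hsqrt] at hG
  apply final (S := Real.sqrt (EN W')) hT1' hδ0 hC1 hK1 hl1 hl2 hq0 hq1 hql hd1 hd2 hd3 hr1 hS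
  have e0 : ((T ^ (3 / 4 * l - δ)) ^ 2 * T ^ r / T ^ l) ^ 3 = T ^ (3 / 2 * l - 6 * δ + 3 * r) := by
    rw [hpow, hadd, ← Real.rpow_sub hT0, hpow]; congr 1; push_cast; ring
  have e1 : T ^ 2 * (T ^ r * T ^ (r / 2)) = T ^ (2 + 3 / 2 * r) := by
    rw [← Real.rpow_natCast, hadd, hadd]; congr 1; push_cast; ring
  have e2 : T * T ^ l * T ^ (r / 2) * Real.sqrt (EN W') = T ^ (1 + l + r / 2) * Real.sqrt (EN W') := by
    have : T * T ^ l = T ^ (1 + l) := by rw [Real.rpow_add hT0, Real.rpow_one]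
    rw [this, hadd]
  have e3 : (T ^ l) ^ 2 * (T ^ r) ^ 2 * (T / T ^ r) ^ q = T ^ (2 * l + 2 * r + (1 - r) * q) := by
    have : T / T ^ r = T ^ (1 - r) := by rw [Real.rpow_sub hT0, Real.rpow_one]
    rw [this, hpow, hpow, ← Real.rpow_mul hT0.le, hadd, hadd]; congr 1; push_cast; ring
  have e4 : T * T ^ l * (T ^ r) ^ (2 - q) = T ^ (1 + l + r * (2 - q)) := by
    have : T * T ^ l = T ^ (1 + l) := by rw [Real.rpow_add hT0, Real.rpow_one]
    rw [this, ← Real.rpow_mul hT0.le, hadd]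
  rw [e0, e1, e2, e3, e4] at hG
  exact hG

end Pool.Agent.Work.MP_56b8f5_nt.UC
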