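import Mathlib
import Pool.Agent.Work.MP_56b8f5_nt.UC.Stmts

/-!
MP_56b8f5_nt, block UC, item GM: the combined inequality.
-/

open MeasureTheory Set Filter Topology

noncomputable section

namespace Pool.Agent.Work.MP_56b8f5_nt.UC

theorem iGM (hX3 : StX3) (hT2 : StT2) (hT3 : StT3) : StGM := by
  intro k ε hk hε
  obtain ⟨C1, hC1, h1⟩ := hX3
  obtain ⟨C2, hC2, h2⟩ := hT2 k ε hk hε
  obtain ⟨C3, hC3, h3⟩ := hT3 ε hε
  set C0 : ℝ := max C1 C2 with hC0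
  have hC01 : C1 ≤ C0 := le_max_left _ _
  have hC02 : C2 ≤ C0 := le_max_right _ _
  have hC0p : 1 ≤ C0 := hC1.trans hC01
  set C : ℝ := 4 * C0 + C1 + C1 * C3 * (4 * C0 ^ 2 + 2 * C0) + C1 * C2 with hCdef
  have hA : 0 ≤ C1 * C3 * (4 * C0 ^ 2 + 2 * C0) := by positivity
  have hB : 0 ≤ C1 * C2 := by positivity
  refine ⟨C, by linarith, ?_⟩
  intro T0 T L V a W hL hLT hTL hV ha hWn hS hW hVW hCV
  have hT : 1 ≤ T := hL.trans hLT
  have hL0 : 0 < L := by linarith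
  have hT0 : 0 < T := by linarith
  set M : ℕ := ⌈C0 * T / L⌉₊ with hM
  have hM1 : C0 * T / L ≤ M := Nat.le_ceil _
  have hML : C0 * T ≤ M * L := by
    rw [div_le_iff₀ hL0] at hM1
    exact hM1
  have hq : 1 ≤ C0 * T / L := by
    rw [le_div_iff₀ hL0]
    nlinarith
  have hM2 : (M : ℝ) ≤ 2 * (C0 * T / L) := by
    have := Nat.ceil_lt_add_one (show 0 ≤ C0 * T / L by positivity)
    linarith
  have hM2' : (M : ℝ) * L ≤ 2 * C0 * T := by
    have h : 2 * (C0 * T / L) * L = 2 * C0 * T := by field_simp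
    nlinarith
  have hMleL : (M : ℝ) ≤ L := by
    have h : 2 * C0 * T ≤ L ^ 2 := by nlinarith
    by_contra hcon
    push Not at hcon
    nlinarith
  have hR : 1 ≤ (W.card : ℝ) := by
    exact_mod_cast hWn.card_pos
  set R : ℝ := (W.card : ℝ) with hRdef
  have hR0 : 0 < R := by linarith
  have hM0 : 0 ≤ (M : ℝ) := Nat.cast_nonneg _
  have hTe : 1 ≤ T ^ ε := Real.one_le_rpow hT hε.le
  have hLe : L ^ ε ≤ T ^ ε := Real.rpow_le_rpow hL0.le hLT hε.le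
  have hcub := h3 L M W hL hMleL hS
  have hquad := h2 T0 T L M W hL hLT (by nlinarith) hWn hS hW
  have hX := h1 T0 T L V M a W hL hT (by nlinarith) hV ha hWn hS hW hVW (by
    have : C1 ≤ C := by
      rw [hCdef]; linarith
    nlinarith [sq_nonneg L])
  have hsR : 0 ≤ Real.sqrt R := Real.sqrt_nonneg _
  have hsE : 0 ≤ Real.sqrt (EN W) := Real.sqrt_nonneg _
  -- cubic term
  have hc1 : L ^ 2 * ((M : ℝ) ^ 2 * (R * Real.sqrt R) + L ^ ε * M * Real.sqrt R * Real.sqrt (EN W)) ≤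
      (4 * C0 ^ 2 + 2 * C0) * (T ^ ε * (T ^ 2 * (R * Real.sqrt R) + T * L * Real.sqrt R * Real.sqrt (EN W))) := by
    have e1 : L ^ 2 * ((M : ℝ) ^ 2 * (R * Real.sqrt R)) ≤ 4 * C0 ^ 2 * (T ^ ε * (T ^ 2 * (R * Real.sqrt R))) := by
      have s1 : ((M : ℝ) * L) ^ 2 ≤ (2 * C0 * T) ^ 2 := by
        apply pow_le_pow_left₀ (by positivity) hM2'
      have s2 : 0 ≤ R * Real.sqrt R := by positivity
      calc L ^ 2 * ((M : ℝ) ^ 2 * (R * Real.sqrt R)) = ((M : ℝ) * L) ^ 2 * (R * Real.sqrt R) := by ring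
        _ ≤ (2 * C0 * T) ^ 2 * (R * Real.sqrt R) := mul_le_mul_of_nonneg_right s1 s2
        _ = 1 * (4 * C0 ^ 2 * (T ^ 2 * (R * Real.sqrt R))) := by ring
        _ ≤ T ^ ε * (4 * C0 ^ 2 * (T ^ 2 * (R * Real.sqrt R))) :=
            mul_le_mul_of_nonneg_right hTe (by positivity)
        _ = 4 * C0 ^ 2 * (T ^ ε * (T ^ 2 * (R * Real.sqrt R))) := by ring
    have e2 : L ^ 2 * (L ^ ε * M * Real.sqrt R * Real.sqrt (EN W)) ≤
        2 * C0 * (T ^ ε * (T * L * Real.sqrt R * Real.sqrt (EN W))) := by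
      have s2 : 0 ≤ Real.sqrt R * Real.sqrt (EN W) := by positivity
      calc L ^ 2 * (L ^ ε * M * Real.sqrt R * Real.sqrt (EN W)) =
          L ^ ε * ((M * L) * L * (Real.sqrt R * Real.sqrt (EN W))) := by ring
        _ ≤ T ^ ε * ((2 * C0 * T) * L * (Real.sqrt R * Real.sqrt (EN W))) := by
            apply mul_le_mul hLe _ (by positivity) (by positivity)
            apply mul_le_mul_of_nonneg_right _ s2
            exact mul_le_mul_of_nonneg_right hM2' hL0.le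
        _ = 2 * C0 * (T ^ ε * (T * L * Real.sqrt R * Real.sqrt (EN W))) := by ring
    have p1 : 0 ≤ T ^ ε * (T ^ 2 * (R * Real.sqrt R)) := by positivity
    have p2 : 0 ≤ T ^ ε * (T * L * Real.sqrt R * Real.sqrt (EN W)) := by positivity
    have f1 : 4 * C0 ^ 2 * (T ^ ε * (T ^ 2 * (R * Real.sqrt R))) ≤
        (4 * C0 ^ 2 + 2 * C0) * (T ^ ε * (T ^ 2 * (R * Real.sqrt R))) :=
      mul_le_mul_of_nonneg_right (by linarith) p1
    have f2 : 2 * C0 * (T ^ ε * (T * L * Real.sqrt R * Real.sqrt (EN W))) ≤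
        (4 * C0 ^ 2 + 2 * C0) * (T ^ ε * (T * L * Real.sqrt R * Real.sqrt (EN W))) :=
      mul_le_mul_of_nonneg_right (by nlinarith) p2
    calc L ^ 2 * ((M : ℝ) ^ 2 * (R * Real.sqrt R) + L ^ ε * M * Real.sqrt R * Real.sqrt (EN W)) =
        L ^ 2 * ((M : ℝ) ^ 2 * (R * Real.sqrt R)) + L ^ 2 * (L ^ ε * M * Real.sqrt R * Real.sqrt (EN W)) := by ring
      _ ≤ (4 * C0 ^ 2 + 2 * C0) * (T ^ ε * (T ^ 2 * (R * Real.sqrt R))) +
          (4 * C0 ^ 2 + 2 * C0) * (T ^ ε * (T * L * Real.sqrt R * Real.sqrt (EN W))) :=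
          add_le_add (e1.trans f1) (e2.trans f2)
      _ = _ := by ring
  set P : ℝ := T ^ 2 * (R * Real.sqrt R) + T * L * Real.sqrt R * Real.sqrt (EN W) with hP
  set Q : ℝ := L ^ 2 * R ^ 2 * (T / R) ^ (1 / (k : ℝ)) + T * L * R ^ (2 - 1 / (k : ℝ)) with hQ
  have hP0 : 0 ≤ P := by positivity
  have hQ0 : 0 ≤ Q := by positivity
  have hq1 : L * (C2 * T ^ ε * (L * R ^ 2 * (T / R) ^ (1 / (k : ℝ)) + T * R ^ (2 - 1 / (k : ℝ)))) =
      C2 * (T ^ ε * Q) := by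
    rw [hQ]; ring
  have hTP : 0 ≤ T ^ ε * P := by positivity
  have hTQ : 0 ≤ T ^ ε * Q := by positivity
  have g1 : C1 * ‖∑ r ∈ W, ∑ s ∈ W, ∑ t ∈ W, kk L M (r - s) * kk L M (s - t) * kk L M (t - r)‖ ≤
      C1 * C3 * (4 * C0 ^ 2 + 2 * C0) * (T ^ ε * P) := by
    calc C1 * ‖∑ r ∈ W, ∑ s ∈ W, ∑ t ∈ W, kk L M (r - s) * kk L M (s - t) * kk L M (t - r)‖ ≤
        C1 * (C3 * L ^ 2 * ((M : ℝ) ^ 2 * (R * Real.sqrt R) + L ^ ε * M * Real.sqrt R * Real.sqrt (EN W))) :=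
        mul_le_mul_of_nonneg_left hcub (by linarith)
      _ = C1 * C3 * (L ^ 2 * ((M : ℝ) ^ 2 * (R * Real.sqrt R) + L ^ ε * M * Real.sqrt R * Real.sqrt (EN W))) := by
        ring
      _ ≤ C1 * C3 * ((4 * C0 ^ 2 + 2 * C0) * (T ^ ε * P)) :=
        mul_le_mul_of_nonneg_left hc1 (by positivity)
      _ = _ := by ring
  have g2 : C1 * L * ∑ s ∈ W, ∑ t ∈ W, ‖kk L M (s - t)‖ ^ 2 ≤ C1 * C2 * (T ^ ε * Q) := by
    calc C1 * L * ∑ s ∈ W, ∑ t ∈ W, ‖kk L M (s - t)‖ ^ 2 ≤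
        C1 * L * (C2 * T ^ ε * (L * R ^ 2 * (T / R) ^ (1 / (k : ℝ)) + T * R ^ (2 - 1 / (k : ℝ)))) :=
        mul_le_mul_of_nonneg_left hquad (by positivity)
      _ = C1 * (L * (C2 * T ^ ε * (L * R ^ 2 * (T / R) ^ (1 / (k : ℝ)) + T * R ^ (2 - 1 / (k : ℝ))))) := by ring
      _ = C1 * (C2 * (T ^ ε * Q)) := by rw [hq1]
      _ = _ := by ring
  have k1 : C1 * C3 * (4 * C0 ^ 2 + 2 * C0) * (T ^ ε * P) ≤ C * (T ^ ε * P) :=
    mul_le_mul_of_nonneg_right (by rw [hCdef]; linarith) hTP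
  have k2 : C1 * C2 * (T ^ ε * Q) ≤ C * (T ^ ε * Q) :=
    mul_le_mul_of_nonneg_right (by rw [hCdef]; linarith) hTQ
  calc (V ^ 2 * R / L) ^ 3 ≤ C * (T ^ ε * P) + C * (T ^ ε * Q) := by linarith
    _ = _ := by rw [hP, hQ]; ring

end Pool.Agent.Work.MP_56b8f5_nt.UC
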