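import Mathlib
import Pool.Agent.Work.MP_56b8f5_nt.UC.Stmts

/-!
MP_56b8f5_nt, block UC, item Gam: the Gamma function on the line `1 - iv`.
-/

set_option autoImplicit false

open MeasureTheory Set Filter Topology

noncomputable section

namespace Pool.Agent.Work.MP_56b8f5_nt.UC

namespace Gam_aux

/-- `|Γ(1-iv)|² sinh(πv) = πv` -/
lemma sq_mul_sinh (v : ℝ) :
    ‖Complex.Gamma (1 - v * Complex.I)‖ ^ 2 * Real.sinh (Real.pi * v) = Real.pi * v := by
  rcases eq_or_ne v 0 with rfl | hv
  · simp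
  · have hvI : (v : ℂ) * Complex.I ≠ 0 :=
      mul_ne_zero (by exact_mod_cast hv) Complex.I_ne_zero
    have h1 : Complex.Gamma (v * Complex.I) * Complex.Gamma (1 - v * Complex.I)
        = Real.pi / Complex.sin (Real.pi * (v * Complex.I)) :=
      Complex.Gamma_mul_Gamma_one_sub _
    have h2 : Complex.Gamma (v * Complex.I + 1) = v * Complex.I * Complex.Gamma (v * Complex.I) :=
      Complex.Gamma_add_one _ hvI
    have h3 : (starRingEnd ℂ) (Complex.Gamma (1 - v * Complex.I))
        = Complex.Gamma (v * Complex.I + 1) := by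
      rw [← Complex.Gamma_conj]
      congr 1
      simp [add_comm]
    have h4 : Complex.sin (Real.pi * (v * Complex.I)) = Real.sinh (Real.pi * v) * Complex.I := by
      rw [← mul_assoc, Complex.sin_mul_I]
      push_cast
      ring_nf
    have hs : (Real.sinh (Real.pi * v) : ℂ) ≠ 0 := by
      have : Real.sinh (Real.pi * v) ≠ 0 := by
        rw [Ne, Real.sinh_eq_zero]
        exact mul_ne_zero Real.pi_ne_zero hv
      exact_mod_cast this
    have h5 : ((‖Complex.Gamma (1 - v * Complex.I)‖ ^ 2 : ℝ) : ℂ)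
        = Complex.Gamma (1 - v * Complex.I) * (starRingEnd ℂ) (Complex.Gamma (1 - v * Complex.I)) := by
      rw [Complex.mul_conj, Complex.normSq_eq_norm_sq]
    have h6 : ((‖Complex.Gamma (1 - v * Complex.I)‖ ^ 2 * Real.sinh (Real.pi * v) : ℝ) : ℂ)
        = ((Real.pi * v : ℝ) : ℂ) := by
      rw [Complex.ofReal_mul, h5, h3, h2]
      have : Complex.Gamma (1 - v * Complex.I) * (v * Complex.I * Complex.Gamma (v * Complex.I))
          = v * Complex.I * (Complex.Gamma (v * Complex.I) * Complex.Gamma (1 - v * Complex.I)) := by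
        ring
      rw [this, h1, h4]
      have hc : ((v : ℂ) * Complex.I) * ((Real.pi : ℂ) /
          ((Real.sinh (Real.pi * v) : ℂ) * Complex.I)) * (Real.sinh (Real.pi * v) : ℂ)
          = (Real.pi : ℂ) * v := by
        have hI := Complex.I_ne_zero
        generalize (Real.sinh (Real.pi * v) : ℂ) = S at hs ⊢
        field_simp
      rw [hc]
      push_cast
      ring
    exact_mod_cast h6

/-- `x / (1 + x) ≤ 1 - exp(-x)`, in the form needed -/
lemma exp_bound (x : ℝ) : x ≤ (1 + x) * (1 - Real.exp (-x)) := by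
  have h := Real.add_one_le_exp x
  have hp : 0 < Real.exp x := Real.exp_pos x
  have h2 : (1 + x) * Real.exp (-x) ≤ 1 := by
    rw [Real.exp_neg]
    rw [← div_eq_mul_inv, div_le_one hp]
    linarith
  nlinarith

lemma sq_bound (v : ℝ) :
    ‖Complex.Gamma (1 - v * Complex.I)‖ ^ 2 * Real.exp (Real.pi * |v|) ≤ 1 + 2 * Real.pi * |v| := by
  have h := sq_mul_sinh v
  set G := ‖Complex.Gamma (1 - v * Complex.I)‖ ^ 2 with hG
  have hGn : 0 ≤ G := by positivity
  have habs : G * Real.sinh (Real.pi * |v|) = Real.pi * |v| := by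
    rcases abs_cases v with ⟨h1, -⟩ | ⟨h1, -⟩
    · rw [h1, h]
    · rw [h1, mul_neg, Real.sinh_neg, mul_neg, h]
  rcases eq_or_lt_of_le (abs_nonneg v) with h0 | h0
  · rw [← h0]
    have hv : v = 0 := by
      have := h0.symm
      rwa [abs_eq_zero] at this
    rw [hG, hv]
    simp
  · set y := Real.pi * |v| with hy
    have hy0 : 0 < y := mul_pos Real.pi_pos h0
    have hsinh : Real.sinh y = (Real.exp y - Real.exp (-y)) / 2 := Real.sinh_eq y
    -- G e^y (1 - e^{-2y}) = 2 y
    have h1 : G * Real.exp y * (1 - Real.exp (-(2 * y))) = 2 * y := by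
      have : Real.exp y * Real.exp (-(2 * y)) = Real.exp (-y) := by
        rw [← Real.exp_add]; ring_nf
      calc G * Real.exp y * (1 - Real.exp (-(2 * y)))
          = G * (Real.exp y - Real.exp y * Real.exp (-(2 * y))) := by ring
        _ = G * (Real.exp y - Real.exp (-y)) := by rw [this]
        _ = 2 * (G * Real.sinh y) := by rw [hsinh]; ring
        _ = 2 * y := by rw [habs]
    have h2 := exp_bound (2 * y)
    have h3 : 0 < 1 - Real.exp (-(2 * y)) := by
      have : Real.exp (-(2 * y)) < 1 := by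
        rw [Real.exp_lt_one_iff]; linarith
      linarith
    have h4 : G * Real.exp y * (1 - Real.exp (-(2 * y))) ≤ (1 + 2 * y) * (1 - Real.exp (-(2 * y))) := by
      rw [h1]; exact h2
    have h5 := le_of_mul_le_mul_right h4 h3
    calc G * Real.exp y ≤ 1 + 2 * y := h5
      _ = 1 + 2 * Real.pi * |v| := by rw [hy]; ring

lemma norm_bound (v : ℝ) :
    ‖Complex.Gamma (1 - v * Complex.I)‖ * Real.exp (Real.pi * |v| / 2) ≤ 3 * Real.sqrt (1 + |v|) := by
  have h := sq_bound v
  have hv := abs_nonneg v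
  have hpi : Real.pi < 3.15 := Real.pi_lt_d2
  have h1 : (‖Complex.Gamma (1 - v * Complex.I)‖ * Real.exp (Real.pi * |v| / 2)) ^ 2
      ≤ (3 * Real.sqrt (1 + |v|)) ^ 2 := by
    rw [mul_pow, mul_pow, Real.sq_sqrt (by linarith), ← Real.exp_nat_mul]
    have : ((2 : ℕ) : ℝ) * (Real.pi * |v| / 2) = Real.pi * |v| := by push_cast; ring
    rw [this]
    refine h.trans ?_
    nlinarith
  exact le_of_sq_le_sq h1 (by positivity)

lemma norm_base (v : ℝ) :
    ‖(-(2 * Real.pi * Complex.I)) ^ (-1 + v * Complex.I)‖ ≤ Real.exp (Real.pi * |v| / 2) := by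
  have hbase : (-(2 * Real.pi * Complex.I) : ℂ) = ((2 * Real.pi : ℝ) : ℂ) * (-Complex.I) := by
    push_cast; ring
  have hpos : 0 < 2 * Real.pi := by positivity
  have hne : (-(2 * Real.pi * Complex.I) : ℂ) ≠ 0 := by
    rw [hbase]
    exact mul_ne_zero (by exact_mod_cast hpos.ne') (neg_ne_zero.mpr Complex.I_ne_zero)
  have harg : Complex.arg (-(2 * Real.pi * Complex.I) : ℂ) = -(Real.pi / 2) := by
    rw [hbase, Complex.arg_real_mul _ hpos, Complex.arg_neg_I]
  have hnorm : ‖(-(2 * Real.pi * Complex.I) : ℂ)‖ = 2 * Real.pi := by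
    rw [norm_neg]
    simp [abs_of_pos Real.pi_pos]
  rw [Complex.norm_cpow_of_ne_zero hne, harg, hnorm]
  have hre : (-1 + (v : ℂ) * Complex.I).re = -1 := by simp
  have him : (-1 + (v : ℂ) * Complex.I).im = v := by simp
  rw [hre, him, Real.rpow_neg_one]
  have h1 : Real.exp (-(Real.pi / 2) * v) = (Real.exp (Real.pi * v / 2))⁻¹ := by
    rw [← Real.exp_neg]; ring_nf
  rw [h1, div_inv_eq_mul]
  have h2 : Real.exp (Real.pi * v / 2) ≤ Real.exp (Real.pi * |v| / 2) := by
    apply Real.exp_le_exp.mpr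
    have := le_abs_self v
    have hp := Real.pi_pos
    nlinarith
  have h3 : (2 * Real.pi)⁻¹ ≤ 1 := by
    apply inv_le_one_of_one_le₀
    have := Real.pi_gt_three
    linarith
  calc (2 * Real.pi)⁻¹ * Real.exp (Real.pi * v / 2) ≤ 1 * Real.exp (Real.pi * v / 2) := by
        gcongr
    _ ≤ Real.exp (Real.pi * |v| / 2) := by rw [one_mul]; exact h2

end Gam_aux

theorem iGam : StGam := by
  refine ⟨3, by norm_num, fun v => ⟨Gam_aux.norm_bound v, ?_⟩⟩
  unfold gm
  rw [norm_mul]
  refine (mul_le_mul_of_nonneg_left (Gam_aux.norm_base v) (norm_nonneg _)).trans ?_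
  exact Gam_aux.norm_bound v

end Pool.Agent.Work.MP_56b8f5_nt.UC
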