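import Mathlib
import Pool.Agent.Work.MP_56b8f5_nt.UC.Stmts
import Pool.Agent.Work.MP_56b8f5_nt.UC.I_Ow

/-!
MP_56b8f5_nt, block UC, item Hx: the large value theorem of Huxley.
-/

open MeasureTheory Set Filter Topology

noncomputable section

namespace Pool.Agent.Work.MP_56b8f5_nt.UC

open Pool.Agent.Work.MP_56b8f5_nt.UB (ee om)

namespace Hx_aux

/-- bound in one window -/
lemma window (hDu : StDu) {CK CS : ℝ} (hCK : 1 ≤ CK)
    (hK : ∀ N t : ℝ, 0 < N → ‖Bl om N t‖ ≤ CK * (N / (1 + t ^ 2) + Real.sqrt (1 + |t|)))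
    (hS : ∀ W : Finset ℝ, Sep W → ∀ x : ℝ, ∑ t ∈ W, 1 / (1 + (x - t) ^ 2) ≤ CS)
    {L V T1 : ℝ} {a : ℕ → ℂ} {W : Finset ℝ} (hL : 1 ≤ L) (hV : 0 < V) (ha : ∀ n, ‖a n‖ ≤ 1)
    (hW : Sep W) (hd : ∀ s ∈ W, ∀ t ∈ W, |s - t| ≤ T1) (hT1 : 0 ≤ T1)
    (hlow : 4 * CK * L * Real.sqrt (1 + T1) ≤ V ^ 2)
    (hbig : ∀ t ∈ W, V ≤ ‖Sd L a t‖) :
    (W.card : ℝ) ≤ 4 * CK * CS * (L ^ 2 / V ^ 2) := by
  obtain ⟨c, hc1, hc2⟩ := hDu.1 L V a W hL hV.le ha hbig
  set R : ℝ := (W.card : ℝ) with hR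
  have hR0 : 0 ≤ R := Nat.cast_nonneg _
  have h1 : (∑ s ∈ W, ∑ t ∈ W, (starRingEnd ℂ) (c s) * Bl om L (s - t) * c t).re ≤
      ∑ s ∈ W, ∑ t ∈ W, CK * (L * (1 / (1 + (s - t) ^ 2)) + Real.sqrt (1 + T1)) := by
    refine le_trans (Complex.re_le_norm _) ?_
    refine le_trans (norm_sum_le _ _) (Finset.sum_le_sum fun s hs => ?_)
    refine le_trans (norm_sum_le _ _) (Finset.sum_le_sum fun t ht => ?_)
    rw [norm_mul, norm_mul, RCLike.norm_conj, hc1 s, hc1 t, one_mul, mul_one]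
    refine le_trans (hK L (s - t) (by linarith)) ?_
    apply mul_le_mul_of_nonneg_left _ (by linarith)
    have h2 : Real.sqrt (1 + |s - t|) ≤ Real.sqrt (1 + T1) :=
      Real.sqrt_le_sqrt (by have := hd s hs t ht; linarith)
    have h3 : L / (1 + (s - t) ^ 2) = L * (1 / (1 + (s - t) ^ 2)) := by ring
    rw [h3]; linarith
  have h4 : ∑ s ∈ W, ∑ t ∈ W, CK * (L * (1 / (1 + (s - t) ^ 2)) + Real.sqrt (1 + T1)) ≤
      CK * (L * (R * CS) + R ^ 2 * Real.sqrt (1 + T1)) := by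
    have h5 : ∀ s ∈ W, ∑ t ∈ W, CK * (L * (1 / (1 + (s - t) ^ 2)) + Real.sqrt (1 + T1)) ≤
        CK * (L * CS + R * Real.sqrt (1 + T1)) := by
      intro s _
      rw [← Finset.mul_sum]
      apply mul_le_mul_of_nonneg_left _ (by linarith)
      rw [Finset.sum_add_distrib, ← Finset.mul_sum, Finset.sum_const, nsmul_eq_mul]
      have := mul_le_mul_of_nonneg_left (hS W hW s) (by linarith : (0 : ℝ) ≤ L)
      linarith
    refine le_trans (Finset.sum_le_sum h5) ?_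
    rw [Finset.sum_const, nsmul_eq_mul]
    apply le_of_eq
    rw [← hR]; ring
  have h6 : V ^ 2 * R ^ 2 ≤ 2 * L * (CK * (L * (R * CS) + R ^ 2 * Real.sqrt (1 + T1))) :=
    le_trans hc2 (mul_le_mul_of_nonneg_left (h1.trans h4) (by linarith))
  have h7 : R ^ 2 * (4 * CK * L * Real.sqrt (1 + T1)) ≤ R ^ 2 * V ^ 2 :=
    mul_le_mul_of_nonneg_left hlow (by positivity)
  rcases eq_or_lt_of_le hR0 with h0 | h0
  · have hCS : 0 ≤ CS := le_trans (Finset.sum_nonneg fun t _ => by positivity)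
      (hS (∅ : Finset ℝ) (fun s hs => absurd hs (Finset.notMem_empty s)) 0)
    rw [← h0]; positivity
  · have h8 : R * (R * V ^ 2) ≤ R * (4 * CK * CS * L ^ 2) := by nlinarith
    have h9 : R * V ^ 2 ≤ 4 * CK * CS * L ^ 2 := le_of_mul_le_mul_left h8 h0
    have h10 : 4 * CK * CS * (L ^ 2 / V ^ 2) = (4 * CK * CS * L ^ 2) / V ^ 2 := by ring
    rw [h10, le_div_iff₀ (by positivity)]
    exact h9

/-- covering by windows -/
lemma cover {W : Finset ℝ} {T0 T T1 B : ℝ} (hT : 0 ≤ T) (hT1 : 0 < T1) (hB : 0 ≤ B)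
    (hW : ∀ t ∈ W, T0 ≤ t ∧ t ≤ T0 + T)
    (hloc : ∀ W' ⊆ W, (∀ s ∈ W', ∀ t ∈ W', |s - t| ≤ T1) → (W'.card : ℝ) ≤ B) :
    (W.card : ℝ) ≤ (T / T1 + 1) * B := by
  classical
  set f : ℝ → ℕ := fun t => ⌊(t - T0) / T1⌋₊ with hf
  have hmap : ∀ t ∈ W, f t ∈ Finset.range (⌊T / T1⌋₊ + 1) := by
    intro t ht
    rw [Finset.mem_range, Nat.lt_succ_iff]
    apply Nat.floor_mono
    have := (hW t ht).2
    gcongr
    linarith
  have hcard : W.card = ∑ k ∈ Finset.range (⌊T / T1⌋₊ + 1), (W.filter fun t => f t = k).card :=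
    Finset.card_eq_sum_card_fiberwise hmap
  have hfib : ∀ k ∈ Finset.range (⌊T / T1⌋₊ + 1), (((W.filter fun t => f t = k).card : ℕ) : ℝ) ≤ B := by
    intro k _
    apply hloc _ (Finset.filter_subset _ _)
    have key : ∀ s ∈ W.filter (fun t => f t = k), (k : ℝ) * T1 ≤ s - T0 ∧ s - T0 < (k + 1) * T1 := by
      intro s hs
      rw [Finset.mem_filter] at hs
      have hs0 : 0 ≤ (s - T0) / T1 := by
        have := (hW s hs.1).1
        apply div_nonneg _ hT1.le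
        linarith
      have h1 := Nat.floor_le hs0
      have h2 := Nat.lt_floor_add_one ((s - T0) / T1)
      have h3 : ⌊(s - T0) / T1⌋₊ = k := hs.2
      rw [h3] at h1 h2
      rw [le_div_iff₀ hT1] at h1
      rw [div_lt_iff₀ hT1] at h2
      exact ⟨h1, h2⟩
    intro s hs t ht
    have a1 := key s hs
    have a2 := key t ht
    rw [abs_le]
    constructor
    · nlinarith [a1.1, a1.2, a2.1, a2.2]
    · nlinarith [a1.1, a1.2, a2.1, a2.2]
  rw [hcard, Nat.cast_sum]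
  refine le_trans (Finset.sum_le_sum hfib) ?_
  rw [Finset.sum_const, nsmul_eq_mul, Finset.card_range]
  apply mul_le_mul_of_nonneg_right _ hB
  push_cast
  have := Nat.floor_le (div_nonneg hT hT1.le)
  linarith

end Hx_aux

open Hx_aux in
theorem iHx (hDu : StDu) (hKp : StKp) (hS2 : StS2) : StHx := by
  obtain ⟨CK, hCK, hK⟩ := hKp om isWt_om
  obtain ⟨CS, hCS, hS⟩ := hS2
  set C1 : ℝ := 8 * CK with hC1
  have hC1' : 1 ≤ C1 := by linarith
  refine ⟨2 * C1 ^ 3 + 4 * CK * CS * (1 + C1 ^ 2), ?_, ?_⟩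
  · have : 1 ≤ C1 ^ 3 := one_le_pow₀ hC1'
    have h2 : 0 ≤ 4 * CK * CS * (1 + C1 ^ 2) := by positivity
    linarith
  intro T0 T L V a W hL hT hV ha hSep hW hbig
  have hL0 : 0 < L := by linarith
  have hT0 : 0 < T := by linarith
  rcases le_or_gt (V ^ 2) (C1 * L) with hcase | hcase
  · have h1 := (hS W hSep).2.2 T0 T hT hW
    have hV6 : V ^ 6 ≤ C1 ^ 3 * L ^ 3 := by
      have : V ^ 6 = (V ^ 2) ^ 3 := by ring
      rw [this, ← mul_pow]
      exact pow_le_pow_left₀ (by positivity) hcase 3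
    have h2 : T / C1 ^ 3 ≤ T * L ^ 4 / V ^ 6 := by
      rw [div_le_div_iff₀ (by positivity) (by positivity)]
      have h3 : T * V ^ 6 ≤ T * (C1 ^ 3 * L ^ 3) := mul_le_mul_of_nonneg_left hV6 hT0.le
      have h4 : L ^ 3 ≤ L ^ 4 := pow_le_pow_right₀ hL (by norm_num)
      have h5 : T * (C1 ^ 3 * L ^ 3) ≤ T * (C1 ^ 3 * L ^ 4) := by gcongr
      nlinarith
    have h6 : 2 * T ≤ 2 * C1 ^ 3 * (T * L ^ 4 / V ^ 6) := by
      have h7 : 2 * C1 ^ 3 * (T / C1 ^ 3) = 2 * T := by field_simp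
      rw [← h7]
      exact mul_le_mul_of_nonneg_left h2 (by positivity)
    have h8 : 2 * C1 ^ 3 * (T * L ^ 4 / V ^ 6) ≤
        (2 * C1 ^ 3 + 4 * CK * CS * (1 + C1 ^ 2)) * (L ^ 2 / V ^ 2 + T * L ^ 4 / V ^ 6) := by
      have e1 : 0 ≤ T * L ^ 4 / V ^ 6 := by positivity
      have e2 : 0 ≤ L ^ 2 / V ^ 2 := by positivity
      have e3 : 0 ≤ 4 * CK * CS * (1 + C1 ^ 2) := by positivity
      have e4 : 0 ≤ 2 * C1 ^ 3 := by positivity
      have e5 := mul_nonneg e4 e2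
      have e6 := mul_nonneg e3 (add_nonneg e2 e1)
      nlinarith
    linarith
  · set r : ℝ := V ^ 2 / (C1 * L) with hr
    have hr1 : 1 < r := by
      rw [hr, lt_div_iff₀ (by positivity)]
      linarith
    set T1 : ℝ := r ^ 2 with hT1
    have hT1' : 1 ≤ T1 := by rw [hT1]; nlinarith
    have hsq : Real.sqrt (1 + T1) ≤ 2 * r := by
      rw [Real.sqrt_le_left (by linarith)]
      nlinarith
    have hlow : 4 * CK * L * Real.sqrt (1 + T1) ≤ V ^ 2 := by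
      have h1 : 4 * CK * L * Real.sqrt (1 + T1) ≤ 4 * CK * L * (2 * r) :=
        mul_le_mul_of_nonneg_left hsq (by positivity)
      have h2 : 4 * CK * L * (2 * r) = V ^ 2 := by
        rw [hr, hC1]; field_simp; norm_num
      linarith
    have hB : (0 : ℝ) ≤ 4 * CK * CS * (L ^ 2 / V ^ 2) := by positivity
    have hmain := cover (W := W) (T0 := T0) (T := T) (T1 := T1) hT0.le (by linarith) hB hW (by
      intro W' hsub hd
      have hSep' : Sep W' := fun s hs t ht => hSep s (hsub hs) t (hsub ht)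
      exact window hDu hCK hK (fun W hW x => (hS W hW).1 x) hL hV ha hSep' hd (by linarith) hlow
        (fun t ht => hbig t (hsub ht)))
    refine hmain.trans ?_
    have hT1eq : T / T1 = C1 ^ 2 * (T * L ^ 2 / V ^ 4) := by
      rw [hT1, hr]; field_simp
    have h3 : (T / T1 + 1) * (4 * CK * CS * (L ^ 2 / V ^ 2)) =
        4 * CK * CS * (L ^ 2 / V ^ 2) + 4 * CK * CS * C1 ^ 2 * (T * L ^ 4 / V ^ 6) := by
      rw [hT1eq]; field_simp; ring
    rw [h3]
    have e1 : 0 ≤ T * L ^ 4 / V ^ 6 := by positivity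
    have e2 : 0 ≤ L ^ 2 / V ^ 2 := by positivity
    have e3 : 0 ≤ 4 * CK * CS := by positivity
    have e4 : 0 ≤ 2 * C1 ^ 3 := by positivity
    have e5 := mul_nonneg e4 (add_nonneg e2 e1)
    have e6 := mul_nonneg e3 e1
    have e7 := mul_nonneg (mul_nonneg e3 (sq_nonneg C1)) e2
    nlinarith

end Pool.Agent.Work.MP_56b8f5_nt.UC
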