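import Mathlib
import Pool.Agent.Work.MP_56b8f5_nt.UC.Stmts

/-!
MP_56b8f5_nt, block UC, item Imf: the Fourier coefficients `I_{-h}`, `h ≥ 1`.
-/

open MeasureTheory Set Filter Topology

noncomputable section

namespace Pool.Agent.Work.MP_56b8f5_nt.UC

open Pool.Agent.Work.MP_56b8f5_nt.UB (ee om)

namespace Imf_aux

lemma int_bd {s c : ℝ} (hs : -1 < s) (hc : 0 < c) :
    IntegrableOn (fun x : ℝ => x ^ s * Real.exp (-c * x)) (Ioi 0) := by
  have h := integrableOn_rpow_mul_exp_neg_mul_rpow (p := 1) hs one_pos hc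
  simpa only [Real.rpow_one] using h

lemma meas_F (a r : ℂ) : Measurable (fun x : ℝ => (x : ℂ) ^ (a - 1) * Complex.exp (-(r * x))) := by
  refine Measurable.mul ?_ ?_
  · exact (Complex.measurable_ofReal).pow_const _
  · exact (Continuous.measurable (by fun_prop))

lemma norm_F {a r : ℂ} {x : ℝ} (hx : 0 < x) :
    ‖(x : ℂ) ^ (a - 1) * Complex.exp (-(r * x))‖ = x ^ (a.re - 1) * Real.exp (-r.re * x) := by
  rw [norm_mul, Complex.norm_cpow_eq_rpow_re_of_pos hx, Complex.norm_exp]
  congr 2
  simp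

lemma int_F {a r : ℂ} (ha : 0 < a.re) (hr : 0 < r.re) :
    IntegrableOn (fun x : ℝ => (x : ℂ) ^ (a - 1) * Complex.exp (-(r * x))) (Ioi 0) := by
  have h := int_bd (s := a.re - 1) (c := r.re) (by linarith) hr
  refine Integrable.mono' h (meas_F a r).aestronglyMeasurable ?_
  filter_upwards [ae_restrict_mem measurableSet_Ioi] with x hx
  rw [norm_F hx]

lemma hasDerivAt_G {a r0 : ℂ} (ha : 0 < a.re) (hr : 0 < r0.re) :
    DifferentiableAt ℂ (fun r : ℂ => ∫ x in Ioi (0 : ℝ), (x : ℂ) ^ (a - 1) * Complex.exp (-(r * x))) r0 := by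
  have h := (hasDerivAt_integral_of_dominated_loc_of_deriv_le (μ := volume.restrict (Ioi (0 : ℝ)))
    (F := fun (r : ℂ) (x : ℝ) => (x : ℂ) ^ (a - 1) * Complex.exp (-(r * x)))
    (F' := fun (r : ℂ) (x : ℝ) => (x : ℂ) ^ (a - 1) * (Complex.exp (-(r * x)) * (-x)))
    (x₀ := r0) (s := Metric.ball r0 (r0.re / 2)) (bound := fun x : ℝ => x ^ a.re * Real.exp (-(r0.re / 2) * x))
    (Metric.ball_mem_nhds _ (by positivity)) ?_ (int_F ha hr) ?_ ?_ ?_ ?_).2
  · exact h.differentiableAt
  · exact Eventually.of_forall fun r => (meas_F a r).aestronglyMeasurable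
  · refine Measurable.aestronglyMeasurable ?_
    refine Measurable.mul ((Complex.measurable_ofReal).pow_const _) ?_
    exact (Continuous.measurable (by fun_prop))
  · filter_upwards [ae_restrict_mem measurableSet_Ioi] with x hx
    intro r hr1
    have hx' : (0 : ℝ) < x := hx
    have h1 : ‖(x : ℂ) ^ (a - 1) * (Complex.exp (-(r * x)) * (-x))‖
        = (x ^ (a.re - 1) * Real.exp (-r.re * x)) * x := by
      rw [← norm_F hx', ← mul_assoc, norm_mul ((x : ℂ) ^ (a - 1) * Complex.exp (-(r * x))), norm_neg,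
        Complex.norm_real, Real.norm_of_nonneg hx'.le]
    rw [h1]
    have h2 : x ^ a.re = x ^ (a.re - 1) * x := by
      rw [Real.rpow_sub_one hx'.ne']; field_simp
    rw [h2]
    have h3 : r0.re / 2 ≤ r.re := by
      have := (Complex.abs_re_le_norm (r - r0)).trans_lt (by simpa [Complex.dist_eq] using hr1)
      rw [Complex.sub_re, abs_lt] at this
      linarith
    have h4 : Real.exp (-r.re * x) ≤ Real.exp (-(r0.re / 2) * x) := by
      apply Real.exp_le_exp.mpr
      nlinarith
    have h5 : 0 ≤ x ^ (a.re - 1) := Real.rpow_nonneg hx'.le _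
    nlinarith [mul_le_mul_of_nonneg_left h4 (mul_nonneg h5 hx'.le)]
  · exact int_bd (by linarith) (by positivity)
  · refine Eventually.of_forall fun x r _ => ?_
    have h1 : HasDerivAt (fun r : ℂ => -(r * x)) (-(x : ℂ)) r := by
      exact (hasDerivAt_mul_const (x : ℂ)).fun_neg
    exact (h1.cexp).const_mul _

lemma gam_int {a : ℂ} (ha : 0 < a.re) {r : ℂ} (hr : 0 < r.re) :
    ∫ x in Ioi (0 : ℝ), (x : ℂ) ^ (a - 1) * Complex.exp (-(r * x)) = r ^ (-a) * Complex.Gamma a := by
  have hU : IsOpen {r : ℂ | 0 < r.re} := isOpen_lt continuous_const Complex.continuous_re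
  have hc : IsPreconnected {r : ℂ | 0 < r.re} := (convex_halfSpace_re_gt 0).isPreconnected
  have hG : AnalyticOnNhd ℂ (fun r : ℂ => ∫ x in Ioi (0 : ℝ), (x : ℂ) ^ (a - 1) * Complex.exp (-(r * x)))
      {r : ℂ | 0 < r.re} :=
    DifferentiableOn.analyticOnNhd (fun r hr => (hasDerivAt_G ha hr).differentiableWithinAt) hU
  have hH : AnalyticOnNhd ℂ (fun r : ℂ => r ^ (-a) * Complex.Gamma a) {r : ℂ | 0 < r.re} := by
    refine DifferentiableOn.analyticOnNhd (fun r hr => ?_) hU
    have h1 : r ∈ Complex.slitPlane := Or.inl hr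
    exact ((differentiableAt_id.cpow_const h1).mul_const _).differentiableWithinAt
  have hfr : ∃ᶠ z in 𝓝[≠] (1 : ℂ), (fun r : ℂ => ∫ x in Ioi (0 : ℝ), (x : ℂ) ^ (a - 1) * Complex.exp (-(r * x))) z
      = (fun r : ℂ => r ^ (-a) * Complex.Gamma a) z := by
    have ht : Tendsto (fun x : ℝ => (x : ℂ)) (𝓝[>] (1 : ℝ)) (𝓝[≠] (1 : ℂ)) := by
      rw [tendsto_nhdsWithin_iff]
      constructor
      · have : Tendsto (fun x : ℝ => (x : ℂ)) (𝓝 (1 : ℝ)) (𝓝 ((1 : ℝ) : ℂ)) :=
          Complex.continuous_ofReal.tendsto 1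
        rw [Complex.ofReal_one] at this
        exact this.mono_left nhdsWithin_le_nhds
      · filter_upwards [self_mem_nhdsWithin] with x hx
        have hx' : (1 : ℝ) < x := hx
        simp only [mem_compl_iff, mem_singleton_iff]
        intro h
        have : x = 1 := by exact_mod_cast h
        linarith
    refine ht.frequently ?_
    refine Eventually.frequently ?_
    filter_upwards [self_mem_nhdsWithin] with x hx
    have hx' : (1 : ℝ) < x := hx
    have hx0 : (0 : ℝ) < x := by linarith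
    have h := Complex.integral_cpow_mul_exp_neg_mul_Ioi ha hx0
    rw [h]
    congr 1
    rw [one_div, Complex.inv_cpow, Complex.cpow_neg]
    rw [Complex.arg_ofReal_of_nonneg hx0.le]
    exact Real.pi_pos.ne
  have h := hG.eqOn_of_preconnected_of_frequently_eq hH hc (show (1 : ℂ) ∈ {r : ℂ | 0 < r.re} by simp) hfr
  exact h hr

lemma norm_cpow_I {x : ℝ} (hx : 0 < x) (s : ℂ) (hs : s.re = 0) : ‖(x : ℂ) ^ s‖ = 1 := by
  rw [Complex.norm_cpow_eq_rpow_re_of_pos hx, hs, Real.rpow_zero]

lemma int_inv_sq (K : ℝ) : Integrable (fun y : ℝ => K * (1 + ‖y‖) ^ (-(2 : ℝ))) :=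
  (integrable_one_add_norm (by simp)).const_mul K

lemma int_Om {w : ℝ → ℝ} (hc : Continuous (Om w))
    (hb : ∀ A : ℕ, ∃ C : ℝ, 1 ≤ C ∧ ∀ y : ℝ, ‖Om w y‖ ≤ C / (1 + |y|) ^ A) : Integrable (Om w) := by
  obtain ⟨C, hC, h⟩ := hb 2
  refine Integrable.mono' (int_inv_sq C) hc.aestronglyMeasurable (Eventually.of_forall fun y => ?_)
  refine (h y).trans (le_of_eq ?_)
  have h1 : (0 : ℝ) < 1 + |y| := by positivity
  rw [Real.norm_eq_abs, Real.rpow_neg h1.le, div_eq_mul_inv]
  norm_num

lemma cpow_div {x N : ℝ} (hx : 0 < x) (hN : 0 < N) (s : ℂ) :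
    ((x / N : ℝ) : ℂ) ^ (-s) = (N : ℂ) ^ s * (x : ℂ) ^ (-s) := by
  have h1 : ((x / N : ℝ) : ℂ) ≠ 0 := by exact_mod_cast (div_pos hx hN).ne'
  have h2 : (N : ℂ) ≠ 0 := by exact_mod_cast hN.ne'
  have h3 : (x : ℂ) ≠ 0 := by exact_mod_cast hx.ne'
  rw [Complex.cpow_def_of_ne_zero h1, Complex.cpow_def_of_ne_zero h2, Complex.cpow_def_of_ne_zero h3,
    ← Complex.exp_add, ← Complex.ofReal_log (div_pos hx hN).le, ← Complex.ofReal_log hN.le,
    ← Complex.ofReal_log hx.le, Real.log_div hx.ne' hN.ne']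
  congr 1
  push_cast
  ring

lemma cont_gam (t : ℝ) : Continuous fun y : ℝ => Complex.Gamma (1 - ((t : ℂ) + y) * Complex.I) := by
  rw [continuous_iff_continuousAt]
  intro y
  have h1 : ContinuousAt Complex.Gamma (1 - ((t : ℂ) + y) * Complex.I) := by
    refine (Complex.differentiableAt_Gamma _ fun m hm => ?_).continuousAt
    have h2 := congrArg Complex.re hm
    simp at h2
    have : (0 : ℝ) ≤ m := Nat.cast_nonneg m
    linarith
  have h2 : Continuous fun y : ℝ => 1 - ((t : ℂ) + y) * Complex.I := by fun_prop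
  exact ContinuousAt.comp (f := fun y : ℝ => 1 - ((t : ℂ) + y) * Complex.I) h1 h2.continuousAt

/-- the identity with `r`, `Re r > 0` -/
lemma eq_eta {w : ℝ → ℝ} (hc : Continuous (Om w))
    (hb : ∀ A : ℕ, ∃ C : ℝ, 1 ≤ C ∧ ∀ y : ℝ, ‖Om w y‖ ≤ C / (1 + |y|) ^ A)
    (hinv : ∀ x : ℝ, 0 < x → ((w x : ℝ) : ℂ) =
      (1 / (2 * Real.pi) : ℝ) * ∫ y : ℝ, Om w y * (x : ℂ) ^ (-(y * Complex.I)))
    {N : ℝ} (hN : 0 < N) (t : ℝ) {r : ℂ} (hr : 0 < r.re) :
    ∫ x in Ioi (0 : ℝ), ((w (x / N) : ℝ) : ℂ) * (x : ℂ) ^ (-(t * Complex.I)) * Complex.exp (-(r * x))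
      = (1 / (2 * Real.pi) : ℝ) * ∫ y : ℝ, Om w y * (N : ℂ) ^ (y * Complex.I) *
        (r ^ (-1 + (t + y) * Complex.I) * Complex.Gamma (1 - (t + y) * Complex.I)) := by
  have hOm := int_Om hc hb
  set F : ℝ → ℝ → ℂ := fun x y => Om w y * (N : ℂ) ^ (y * Complex.I) *
    ((x : ℂ) ^ ((1 - (t + y) * Complex.I) - 1) * Complex.exp (-(r * x))) with hF
  have hNn : (N : ℂ) ≠ 0 := by exact_mod_cast hN.ne'
  have h1 : ∀ x ∈ Ioi (0 : ℝ), ((w (x / N) : ℝ) : ℂ) * (x : ℂ) ^ (-(t * Complex.I)) * Complex.exp (-(r * x))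
      = (1 / (2 * Real.pi) : ℝ) * ∫ y : ℝ, F x y := by
    intro x hx
    have hx' : (0 : ℝ) < x := hx
    have hxn : (x : ℂ) ≠ 0 := by exact_mod_cast hx'.ne'
    rw [hinv (x / N) (div_pos hx' hN), mul_assoc, mul_assoc, ← integral_mul_const]
    congr 1
    refine integral_congr_ae (Eventually.of_forall fun y => ?_)
    simp only [hF]
    rw [cpow_div hx' hN]
    have h2 : (1 - ((t : ℂ) + y) * Complex.I) - 1 = -(y * Complex.I) + -(t * Complex.I) := by ring
    rw [h2, Complex.cpow_add _ _ hxn]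
    ring
  have h2 : ∫ x in Ioi (0 : ℝ), ∫ y : ℝ, F x y = ∫ y : ℝ, ∫ x in Ioi (0 : ℝ), F x y := by
    apply integral_integral_swap
    have hprod : Integrable (fun z : ℝ × ℝ => Real.exp (-r.re * z.1) * ‖Om w z.2‖)
        ((volume.restrict (Ioi (0 : ℝ))).prod volume) := by
      have e1 : IntegrableOn (fun x : ℝ => Real.exp (-r.re * x)) (Ioi 0) := exp_neg_integrableOn_Ioi 0 hr
      exact Integrable.mul_prod e1 hOm.norm
    refine Integrable.mono' hprod ?_ ?_
    · refine Measurable.aestronglyMeasurable ?_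
      simp only [hF, Function.uncurry_def]
      refine Measurable.mul (Measurable.mul ?_ ?_) (Measurable.mul ?_ ?_)
      · exact hc.measurable.comp measurable_snd
      · refine Measurable.pow measurable_const ?_
        exact (Continuous.measurable (by fun_prop))
      · refine Measurable.pow ?_ ?_
        · exact (Continuous.measurable (by fun_prop))
        · exact (Continuous.measurable (by fun_prop))
      · exact (Continuous.measurable (by fun_prop))
    · have hae : ∀ᵐ z : ℝ × ℝ ∂((volume.restrict (Ioi (0 : ℝ))).prod volume), 0 < z.1 := by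
        have : ((volume.restrict (Ioi (0 : ℝ))).prod (volume : Measure ℝ)) =
            ((volume : Measure ℝ).prod volume).restrict (Ioi (0 : ℝ) ×ˢ univ) := by
          rw [← Measure.prod_restrict, Measure.restrict_univ]
        rw [this]
        filter_upwards [ae_restrict_mem (measurableSet_Ioi.prod MeasurableSet.univ)] with z hz
        exact hz.1
      filter_upwards [hae] with z hz
      simp only [hF, Function.uncurry_def]
      rw [norm_mul, norm_mul, norm_F hz, norm_cpow_I hN _ (by simp)]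
      have : ((1 : ℂ) - (t + z.2) * Complex.I).re - 1 = 0 := by simp
      rw [this, Real.rpow_zero, mul_one, one_mul, mul_comm]
  rw [setIntegral_congr_fun measurableSet_Ioi h1, integral_const_mul, h2]
  congr 1
  refine integral_congr_ae (Eventually.of_forall fun y => ?_)
  simp only [hF]
  rw [integral_const_mul, gam_int (by simp) hr]
  congr 3
  ring

end Imf_aux

open Imf_aux

theorem iImf (hMel : StMel) (hGam : StGam) : StImf := by
  intro w hw N t h hN hh
  obtain ⟨hc, hb, hinv⟩ := hMel w hw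
  obtain ⟨CG, hCG, hG⟩ := hGam
  have hh' : (1 : ℝ) ≤ h := by exact_mod_cast hh
  have hh0 : (0 : ℝ) < h := by linarith
  have hhn : (h : ℂ) ≠ 0 := by exact_mod_cast hh0.ne'
  have hNn : (N : ℂ) ≠ 0 := by exact_mod_cast hN.ne'
  obtain ⟨hws, a, b, ha, hab, hsupp⟩ := hw
  set r : ℝ → ℂ := fun η => (η : ℂ) - 2 * Real.pi * h * Complex.I with hr
  have hrre : ∀ η, (r η).re = η := by intro η; simp [hr]
  have hrim : ∀ η, (r η).im = -(2 * Real.pi * h) := by intro η; simp [hr]
  have hrcont : Continuous r := by simp only [hr]; fun_prop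
  have hr0 : r 0 ∈ Complex.slitPlane := by
    right
    rw [hrim]
    have : 0 < 2 * Real.pi * h := by positivity
    linarith
  -- left side
  have hL : Tendsto (fun η : ℝ => ∫ x in Ioi (0 : ℝ), ((w (x / N) : ℝ) : ℂ) * (x : ℂ) ^ (-(t * Complex.I)) *
      Complex.exp (-(r η * x))) (𝓝[>] (0 : ℝ)) (𝓝 (Im w N t (-(h : ℤ)))) := by
    unfold Im
    refine tendsto_integral_filter_of_dominated_convergence (fun x => |w (x / N)|) ?_ ?_ ?_ ?_
    · refine Eventually.of_forall fun η => Measurable.aestronglyMeasurable ?_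
      refine Measurable.mul (Measurable.mul ?_ ?_) ?_
      · exact Complex.measurable_ofReal.comp (hws.continuous.measurable.comp (measurable_id.div_const N))
      · exact (Complex.measurable_ofReal).pow_const _
      · exact (Continuous.measurable (by fun_prop))
    · filter_upwards [self_mem_nhdsWithin] with η hη
      have hη' : (0 : ℝ) < η := hη
      filter_upwards [ae_restrict_mem measurableSet_Ioi] with x hx
      have hx' : (0 : ℝ) < x := hx
      rw [norm_mul, norm_mul, norm_cpow_I hx' _ (by simp), Complex.norm_exp, Complex.norm_real, mul_one,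
        Real.norm_eq_abs]
      have : Real.exp (-(r η * x)).re ≤ 1 := by
        rw [Real.exp_le_one_iff]
        have : (-(r η * x)).re = -(η * x) := by
          rw [Complex.neg_re, Complex.re_mul_ofReal, hrre]
        rw [this]
        have := mul_pos hη' hx'
        linarith
      exact mul_le_of_le_one_right (abs_nonneg _) this
    · apply Integrable.restrict
      apply Continuous.integrable_of_hasCompactSupport
      · exact (hws.continuous.comp (continuous_id.div_const N)).abs
      · refine HasCompactSupport.intro (K := Icc (a * N) (b * N)) isCompact_Icc ?_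
        intro x hx
        rw [abs_eq_zero]
        by_contra hne
        obtain ⟨h1, h2⟩ := hsupp _ hne
        apply hx
        rw [le_div_iff₀ hN] at h1
        rw [div_le_iff₀ hN] at h2
        exact ⟨h1, h2⟩
    · filter_upwards [ae_restrict_mem measurableSet_Ioi] with x hx
      have e1 : ee (-(((-(h : ℤ)) : ℤ) * x)) = Complex.exp (-(r 0 * x)) := by
        unfold ee
        congr 1
        simp only [hr]
        push_cast
        ring
      rw [e1]
      refine Tendsto.const_mul _ ?_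
      have : Continuous fun η : ℝ => Complex.exp (-(r η * x)) := by fun_prop
      exact (this.tendsto 0).mono_left nhdsWithin_le_nhds
  -- right side
  have hR : Tendsto (fun η : ℝ => (1 / (2 * Real.pi) : ℝ) * ∫ y : ℝ, Om w y * (N : ℂ) ^ (y * Complex.I) *
        (r η ^ (-1 + (t + y) * Complex.I) * Complex.Gamma (1 - (t + y) * Complex.I))) (𝓝[>] (0 : ℝ))
      (𝓝 ((1 / (2 * Real.pi) : ℝ) * ∫ y : ℝ, Om w y * (N : ℂ) ^ (y * Complex.I) *
        (r 0 ^ (-1 + (t + y) * Complex.I) * Complex.Gamma (1 - (t + y) * Complex.I)))) := by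
    refine Tendsto.const_mul _ ?_
    obtain ⟨C3, hC3, hO3⟩ := hb 3
    refine tendsto_integral_filter_of_dominated_convergence
      (fun y => (C3 * (CG * (1 + |t|))) * (1 + ‖y‖) ^ (-(2 : ℝ))) ?_ ?_ (int_inv_sq _) ?_
    · refine Eventually.of_forall fun η => Measurable.aestronglyMeasurable ?_
      refine Measurable.mul (Measurable.mul hc.measurable ?_) (Measurable.mul ?_ (cont_gam t).measurable)
      · refine Measurable.pow measurable_const ?_
        exact (Continuous.measurable (by fun_prop))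
      · refine Measurable.pow measurable_const ?_
        exact (Continuous.measurable (by fun_prop))
    · filter_upwards [self_mem_nhdsWithin] with η hη
      have hη' : (0 : ℝ) < η := hη
      refine Eventually.of_forall fun y => ?_
      rw [norm_mul, norm_mul, norm_mul, norm_cpow_I hN _ (by simp), mul_one]
      have hrn : r η ≠ 0 := by
        intro h0
        have := hrre η
        rw [h0, Complex.zero_re] at this
        linarith
      have hnr : 1 ≤ ‖r η‖ := by
        have h1 := Complex.abs_im_le_norm (r η)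
        rw [hrim, abs_neg, abs_of_pos (by positivity)] at h1
        have := Real.pi_gt_three
        nlinarith
      have h1 : ‖r η ^ (-1 + ((t : ℂ) + y) * Complex.I)‖ ≤ Real.exp (Real.pi * |t + y| / 2) := by
        rw [Complex.norm_cpow_of_ne_zero hrn]
        have e1 : (-1 + ((t : ℂ) + y) * Complex.I).re = -1 := by simp
        have e2 : (-1 + ((t : ℂ) + y) * Complex.I).im = t + y := by simp
        rw [e1, e2, div_eq_mul_inv, ← Real.exp_neg]
        have e3 : ‖r η‖ ^ (-1 : ℝ) ≤ 1 := Real.rpow_le_one_of_one_le_of_nonpos hnr (by norm_num)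
        have e4 : Real.exp (-((r η).arg * (t + y))) ≤ Real.exp (Real.pi * |t + y| / 2) := by
          apply Real.exp_le_exp.mpr
          have h5 : |(r η).arg| ≤ Real.pi / 2 := Complex.abs_arg_le_pi_div_two_iff.mpr (by rw [hrre]; exact hη'.le)
          have h6 : -((r η).arg * (t + y)) ≤ |(r η).arg| * |t + y| := by
            rw [← abs_mul]; exact neg_le_abs _
          have h7 : |(r η).arg| * |t + y| ≤ Real.pi / 2 * |t + y| := by gcongr
          linarith
        have h8 : 0 ≤ ‖r η‖ ^ (-1 : ℝ) := Real.rpow_nonneg (norm_nonneg _) _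
        calc ‖r η‖ ^ (-1 : ℝ) * Real.exp (-((r η).arg * (t + y)))
            ≤ 1 * Real.exp (Real.pi * |t + y| / 2) := mul_le_mul e3 e4 (Real.exp_pos _).le zero_le_one
          _ = _ := one_mul _
      have h2 : ‖r η ^ (-1 + ((t : ℂ) + y) * Complex.I)‖ * ‖Complex.Gamma (1 - ((t : ℂ) + y) * Complex.I)‖
          ≤ CG * (1 + |t|) * (1 + |y|) := by
        have h3 := (hG (t + y)).1
        have h4 : ((t + y : ℝ) : ℂ) = (t : ℂ) + y := by push_cast; rfl
        rw [h4] at h3
        have h5 : Real.sqrt (1 + |t + y|) ≤ (1 + |t|) * (1 + |y|) := by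
          have h6 : 1 + |t + y| ≤ (1 + |t|) * (1 + |y|) := by
            have := abs_add_le t y
            nlinarith [abs_nonneg t, abs_nonneg y, mul_nonneg (abs_nonneg t) (abs_nonneg y)]
          have h7 : Real.sqrt (1 + |t + y|) ≤ 1 + |t + y| := by
            rw [Real.sqrt_le_left (by positivity)]
            nlinarith [abs_nonneg (t + y)]
          exact h7.trans h6
        calc ‖r η ^ (-1 + ((t : ℂ) + y) * Complex.I)‖ * ‖Complex.Gamma (1 - ((t : ℂ) + y) * Complex.I)‖
            ≤ Real.exp (Real.pi * |t + y| / 2) * ‖Complex.Gamma (1 - ((t : ℂ) + y) * Complex.I)‖ := by gcongr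
          _ = ‖Complex.Gamma (1 - ((t : ℂ) + y) * Complex.I)‖ * Real.exp (Real.pi * |t + y| / 2) := mul_comm _ _
          _ ≤ CG * Real.sqrt (1 + |t + y|) := h3
          _ ≤ CG * ((1 + |t|) * (1 + |y|)) := by gcongr
          _ = _ := by ring
      have h1y : (0 : ℝ) < 1 + |y| := by positivity
      calc ‖Om w y‖ * (‖r η ^ (-1 + ((t : ℂ) + y) * Complex.I)‖ * ‖Complex.Gamma (1 - ((t : ℂ) + y) * Complex.I)‖)
          ≤ (C3 / (1 + |y|) ^ 3) * (CG * (1 + |t|) * (1 + |y|)) :=
            mul_le_mul (hO3 y) h2 (by positivity) (by positivity)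
        _ = (C3 * (CG * (1 + |t|))) * (1 + ‖y‖) ^ (-(2 : ℝ)) := by
            rw [Real.norm_eq_abs, Real.rpow_neg h1y.le]
            have : (1 + |y|) ^ (2 : ℝ) = (1 + |y|) ^ 2 := by norm_num
            rw [this]
            field_simp
    · refine Eventually.of_forall fun y => ?_
      refine Tendsto.const_mul _ (Tendsto.mul_const _ ?_)
      have h1 : ContinuousAt (fun z : ℂ => z ^ (-1 + ((t : ℂ) + y) * Complex.I)) (r 0) :=
        continuousAt_cpow_const hr0
      exact (h1.tendsto.comp (hrcont.tendsto 0)).mono_left nhdsWithin_le_nhds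
  have heq : (fun η : ℝ => ∫ x in Ioi (0 : ℝ), ((w (x / N) : ℝ) : ℂ) * (x : ℂ) ^ (-(t * Complex.I)) *
      Complex.exp (-(r η * x))) =ᶠ[𝓝[>] (0 : ℝ)] (fun η : ℝ => (1 / (2 * Real.pi) : ℝ) * ∫ y : ℝ, Om w y *
        (N : ℂ) ^ (y * Complex.I) *
        (r η ^ (-1 + (t + y) * Complex.I) * Complex.Gamma (1 - (t + y) * Complex.I))) := by
    filter_upwards [self_mem_nhdsWithin] with η hη
    exact eq_eta hc hb hinv hN t (by rw [hrre]; exact hη)
  have hfin := tendsto_nhds_unique (hL.congr' heq) hR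
  rw [hfin]
  congr 1
  refine integral_congr_ae (Eventually.of_forall fun y => ?_)
  simp only [gm]
  have hm : r 0 ^ (-1 + ((t : ℂ) + y) * Complex.I)
      = (-(2 * Real.pi * Complex.I)) ^ (-1 + ((t : ℂ) + y) * Complex.I) * (h : ℂ) ^ (-1 + ((t : ℂ) + y) * Complex.I) := by
    have hz : (-(2 * Real.pi * Complex.I) : ℂ) ≠ 0 := by
      simp [Real.pi_ne_zero]
    have h0 : r 0 = (-(2 * Real.pi * Complex.I)) * ((h : ℝ) : ℂ) := by
      simp only [hr]; push_cast; ring
    have hh2 : (h : ℂ) = ((h : ℝ) : ℂ) := by push_cast; rfl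
    have hne : (-(2 * Real.pi * Complex.I)) * ((h : ℝ) : ℂ) ≠ 0 := mul_ne_zero hz (by exact_mod_cast hh0.ne')
    rw [h0, hh2, Complex.cpow_def_of_ne_zero hne, Complex.cpow_def_of_ne_zero hz,
      Complex.cpow_def_of_ne_zero (by exact_mod_cast hh0.ne'), Complex.log_mul_ofReal _ hh0 _ hz,
      Complex.ofReal_log hh0.le, ← Complex.exp_add]
    congr 1
    ring
  rw [hm]
  push_cast
  ring

end Pool.Agent.Work.MP_56b8f5_nt.UC
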