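import Mathlib
import Pool.Agent.Work.MP_56b8f5_nt.UC.Stmts
import Pool.Agent.Work.MP_56b8f5_nt.UC.I_Ow

/-!
MP_56b8f5_nt, block UC, item Jr: the radial integral.
-/

open MeasureTheory Set Filter Topology

noncomputable section

namespace Pool.Agent.Work.MP_56b8f5_nt.UC

open Pool.Agent.Work.MP_56b8f5_nt.UB (ee om omB)

namespace Jr_aux

open FourierTransform

/-- the amplitude, as a function of all three variables -/
def g0 (p : ℝ × ℝ × ℝ) : ℝ :=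
  om (p.2.2 * p.1) * om (p.2.2 * p.2.1) * om p.2.2 * p.2.2 ^ 2

/-- first radial derivative -/
def g1 (p : ℝ × ℝ × ℝ) : ℝ := fderiv ℝ g0 p (0, 0, 1)

/-- second radial derivative -/
def g2 (p : ℝ × ℝ × ℝ) : ℝ := fderiv ℝ g1 p (0, 0, 1)

lemma g0_smooth : ContDiff ℝ ((⊤ : ℕ∞) : WithTop ℕ∞) g0 := by
  unfold g0
  exact (((om_smooth.comp (by fun_prop)).mul (om_smooth.comp (by fun_prop))).mul
    (om_smooth.comp (by fun_prop))).mul (by fun_prop)

lemma fd_smooth {g : ℝ × ℝ × ℝ → ℝ} (hg : ContDiff ℝ ((⊤ : ℕ∞) : WithTop ℕ∞) g) :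
    ContDiff ℝ ((⊤ : ℕ∞) : WithTop ℕ∞) (fun p => fderiv ℝ g p (0, 0, 1)) := by
  have h : ContDiff ℝ ((⊤ : ℕ∞) : WithTop ℕ∞) (fderiv ℝ g) := hg.fderiv_right (by simp)
  exact h.clm_apply contDiff_const

lemma fd_hasDerivAt {g : ℝ × ℝ × ℝ → ℝ} (hg : ContDiff ℝ ((⊤ : ℕ∞) : WithTop ℕ∞) g)
    (v1 v2 r : ℝ) :
    HasDerivAt (fun r : ℝ => g (v1, v2, r)) (fderiv ℝ g (v1, v2, r) (0, 0, 1)) r := by
  have h1 : HasFDerivAt g (fderiv ℝ g (v1, v2, r)) (v1, v2, r) :=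
    (hg.differentiable (by simp)).differentiableAt.hasFDerivAt
  have h2 : HasDerivAt (fun r : ℝ => ((v1, v2, r) : ℝ × ℝ × ℝ)) (0, 0, 1) r :=
    (hasDerivAt_const r v1).prodMk ((hasDerivAt_const r v2).prodMk (hasDerivAt_id r))
  exact h1.comp_hasDerivAt r h2

lemma fd_zero {g : ℝ × ℝ × ℝ → ℝ} (hg : ContDiff ℝ ((⊤ : ℕ∞) : WithTop ℕ∞) g)
    (v1 v2 : ℝ) (hz : ∀ r : ℝ, r ∉ Icc (1 / 2 : ℝ) (5 / 2) → g (v1, v2, r) = 0)
    (r : ℝ) (hr : r ∉ Icc (1 / 2 : ℝ) (5 / 2)) : fderiv ℝ g (v1, v2, r) (0, 0, 1) = 0 := by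
  have h1 := fd_hasDerivAt hg v1 v2 r
  have h2 : (fun r : ℝ => g (v1, v2, r)) =ᶠ[𝓝 r] fun _ => (0 : ℝ) := by
    filter_upwards [isClosed_Icc.isOpen_compl.mem_nhds (mem_compl hr)] with y hy
    exact hz y hy
  exact (h1.congr_of_eventuallyEq h2.symm).unique (hasDerivAt_const r (0 : ℝ))

lemma g0_zero (v1 v2 r : ℝ) (hr : r ∉ Icc (1 / 2 : ℝ) (5 / 2)) : g0 (v1, v2, r) = 0 := by
  have : om r = 0 := by
    apply om_eq_zero
    rw [mem_Icc, not_and_or, not_le, not_le] at hr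
    rcases hr with h | h
    · exact Or.inl h.le
    · exact Or.inr h.le
  simp [g0, this]

lemma g1_zero (v1 v2 r : ℝ) (hr : r ∉ Icc (1 / 2 : ℝ) (5 / 2)) : g1 (v1, v2, r) = 0 :=
  fd_zero g0_smooth v1 v2 (g0_zero v1 v2) r hr

lemma g1_smooth : ContDiff ℝ ((⊤ : ℕ∞) : WithTop ℕ∞) g1 := fd_smooth g0_smooth

lemma g2_zero (v1 v2 r : ℝ) (hr : r ∉ Icc (1 / 2 : ℝ) (5 / 2)) : g2 (v1, v2, r) = 0 :=
  fd_zero g1_smooth v1 v2 (g1_zero v1 v2) r hr

lemma g2_smooth : ContDiff ℝ ((⊤ : ℕ∞) : WithTop ℕ∞) g2 := fd_smooth g1_smooth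

lemma bound {g : ℝ × ℝ × ℝ → ℝ} (hg : Continuous g) :
    ∃ B : ℝ, 0 ≤ B ∧ ∀ v1 v2 r : ℝ, v1 ∈ Icc (1 / 5 : ℝ) 5 → v2 ∈ Icc (1 / 5 : ℝ) 5 →
      r ∈ Icc (1 / 2 : ℝ) (5 / 2) → |g (v1, v2, r)| ≤ B := by
  have hK : IsCompact ((Icc (1 / 5 : ℝ) 5) ×ˢ ((Icc (1 / 5 : ℝ) 5) ×ˢ (Icc (1 / 2 : ℝ) (5 / 2)))) :=
    isCompact_Icc.prod (isCompact_Icc.prod isCompact_Icc)
  obtain ⟨B, hB⟩ := hK.exists_bound_of_continuousOn hg.continuousOn
  refine ⟨max B 0, le_max_right _ _, fun v1 v2 r h1 h2 h3 => ?_⟩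
  exact le_trans (hB (v1, v2, r) ⟨h1, h2, h3⟩) (le_max_left _ _)

lemma integrable_of {f : ℝ → ℂ} (hf : Continuous f)
    (hs : ∀ x, x ∉ Icc (1 / 2 : ℝ) (5 / 2) → f x = 0) : Integrable f := by
  apply hf.integrable_of_hasCompactSupport
  exact HasCompactSupport.intro isCompact_Icc hs

lemma fourier_bound {f : ℝ → ℂ} {B : ℝ} (hB : ∀ x ∈ Icc (1 / 2 : ℝ) (5 / 2), ‖f x‖ ≤ B)
    (hs : ∀ x, x ∉ Icc (1 / 2 : ℝ) (5 / 2) → f x = 0) (w : ℝ) : ‖𝓕 f w‖ ≤ 2 * B := by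
  rw [Real.fourier_real_eq]
  rw [← setIntegral_eq_integral_of_forall_compl_eq_zero (s := Icc (1 / 2 : ℝ) (5 / 2))
    (fun x hx => by rw [hs x hx, smul_zero])]
  have h := norm_setIntegral_le_of_norm_le_const (μ := (volume : Measure ℝ))
    (s := Icc (1 / 2 : ℝ) (5 / 2)) (f := fun v : ℝ => Real.fourierChar (-(v * w)) • f v) (C := B)
    (by rw [Real.volume_Icc]; exact ENNReal.ofReal_lt_top)
    (fun x hx => by rw [Circle.norm_smul]; exact hB x hx)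
  have h2 : (volume : Measure ℝ).real (Icc (1 / 2 : ℝ) (5 / 2)) = 2 := by
    rw [Real.volume_real_Icc]; norm_num
  rw [h2] at h
  linarith

lemma cast_hasDerivAt {g : ℝ × ℝ × ℝ → ℝ} (hg : ContDiff ℝ ((⊤ : ℕ∞) : WithTop ℕ∞) g)
    (v1 v2 r : ℝ) :
    HasDerivAt (fun r : ℝ => ((g (v1, v2, r) : ℝ) : ℂ))
      ((fderiv ℝ g (v1, v2, r) (0, 0, 1) : ℝ) : ℂ) r :=
  (fd_hasDerivAt hg v1 v2 r).ofReal_comp

lemma cast_cont {g : ℝ × ℝ × ℝ → ℝ} (hg : ContDiff ℝ ((⊤ : ℕ∞) : WithTop ℕ∞) g)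
    (v1 v2 : ℝ) : Continuous (fun r : ℝ => ((g (v1, v2, r) : ℝ) : ℂ)) :=
  Complex.continuous_ofReal.comp (hg.continuous.comp (by fun_prop))

lemma int_eq (v1 v2 lam : ℝ) :
    (∫ r in Ioi (0 : ℝ), ((om (r * v1) * om (r * v2) * om r * r ^ 2 : ℝ) : ℂ) * ee (-(lam * r)))
      = 𝓕 (fun r : ℝ => ((g0 (v1, v2, r) : ℝ) : ℂ)) lam := by
  rw [Real.fourier_real_eq_integral_exp_smul]
  have hz : ∀ x : ℝ, x ∉ Ioi (0 : ℝ) →
      Complex.exp (((-2 * Real.pi * x * lam : ℝ) : ℂ) * Complex.I) •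
        ((g0 (v1, v2, x) : ℝ) : ℂ) = 0 := by
    intro x hx
    have : g0 (v1, v2, x) = 0 := by
      apply g0_zero
      intro h
      apply hx
      have := h.1
      exact lt_of_lt_of_le (by norm_num) this
    rw [this]
    simp
  rw [← setIntegral_eq_integral_of_forall_compl_eq_zero (s := Ioi (0 : ℝ))
    (f := fun x : ℝ => Complex.exp (((-2 * Real.pi * x * lam : ℝ) : ℂ) * Complex.I) •
        ((g0 (v1, v2, x) : ℝ) : ℂ)) hz]
  apply setIntegral_congr_fun measurableSet_Ioi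
  intro r hr
  simp only [smul_eq_mul, g0, ee]
  rw [mul_comm]
  congr 3
  push_cast
  ring

end Jr_aux

open Jr_aux FourierTransform in
theorem iJr : StJr := by
  obtain ⟨B0, hB0, hb0⟩ := bound g0_smooth.continuous
  obtain ⟨B2, hB2, hb2⟩ := bound g2_smooth.continuous
  refine ⟨4 * (B0 + B2) + 1, by linarith, fun v1 v2 lam hv1 hv2 => ?_⟩
  rw [int_eq]
  split_ifs with hc
  · obtain ⟨h1, h2, h3, h4⟩ := hc
    have hF0 : Integrable (fun r : ℝ => ((g0 (v1, v2, r) : ℝ) : ℂ)) :=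
      integrable_of (cast_cont g0_smooth v1 v2) (fun x hx => by rw [g0_zero v1 v2 x hx]; simp)
    have hF1 : Integrable (fun r : ℝ => ((g1 (v1, v2, r) : ℝ) : ℂ)) :=
      integrable_of (cast_cont g1_smooth v1 v2) (fun x hx => by rw [g1_zero v1 v2 x hx]; simp)
    have hF2 : Integrable (fun r : ℝ => ((g2 (v1, v2, r) : ℝ) : ℂ)) :=
      integrable_of (cast_cont g2_smooth v1 v2) (fun x hx => by rw [g2_zero v1 v2 x hx]; simp)
    have hd0 : deriv (fun r : ℝ => ((g0 (v1, v2, r) : ℝ) : ℂ)) =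
        fun r : ℝ => ((g1 (v1, v2, r) : ℝ) : ℂ) := by
      funext r; exact (cast_hasDerivAt g0_smooth v1 v2 r).deriv
    have hd1 : deriv (fun r : ℝ => ((g1 (v1, v2, r) : ℝ) : ℂ)) =
        fun r : ℝ => ((g2 (v1, v2, r) : ℝ) : ℂ) := by
      funext r; exact (cast_hasDerivAt g1_smooth v1 v2 r).deriv
    have e1 := Real.fourier_deriv hF0
      (fun r => (cast_hasDerivAt g0_smooth v1 v2 r).differentiableAt) (by rw [hd0]; exact hF1)
    have e2 := Real.fourier_deriv hF1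
      (fun r => (cast_hasDerivAt g1_smooth v1 v2 r).differentiableAt) (by rw [hd1]; exact hF2)
    rw [hd0] at e1
    rw [hd1] at e2
    have e1' := congrFun e1 lam
    have e2' := congrFun e2 lam
    have n0 := fourier_bound (f := fun r : ℝ => ((g0 (v1, v2, r) : ℝ) : ℂ)) (B := B0)
      (fun x hx => by rw [Complex.norm_real, Real.norm_eq_abs]; exact hb0 v1 v2 x ⟨h1, h2⟩ ⟨h3, h4⟩ hx)
      (fun x hx => by rw [g0_zero v1 v2 x hx]; simp) lam
    have n2 := fourier_bound (f := fun r : ℝ => ((g2 (v1, v2, r) : ℝ) : ℂ)) (B := B2)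
      (fun x hx => by rw [Complex.norm_real, Real.norm_eq_abs]; exact hb2 v1 v2 x ⟨h1, h2⟩ ⟨h3, h4⟩ hx)
      (fun x hx => by rw [g2_zero v1 v2 x hx]; simp) lam
    rw [e2', e1', norm_smul, norm_smul] at n2
    have hn : ‖(2 * (Real.pi : ℂ) * Complex.I * (lam : ℂ))‖ = 2 * Real.pi * |lam| := by
      rw [norm_mul, norm_mul, norm_mul, Complex.norm_I, Complex.norm_real, Complex.norm_real,
        Real.norm_eq_abs, Real.norm_eq_abs, abs_of_pos Real.pi_pos]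
      simp
    rw [hn] at n2
    rw [le_div_iff₀ (by positivity)]
    set X := ‖𝓕 (fun r : ℝ => ((g0 (v1, v2, r) : ℝ) : ℂ)) lam‖ with hX
    have hX0 : 0 ≤ X := norm_nonneg _
    have hpi : 1 ≤ 2 * Real.pi := by linarith [Real.pi_gt_three]
    have hq : |lam| * |lam| ≤ 2 * Real.pi * |lam| * (2 * Real.pi * |lam|) := by
      have : |lam| ≤ 2 * Real.pi * |lam| := by nlinarith [abs_nonneg lam]
      exact mul_self_le_mul_self (abs_nonneg _) this
    have hq2 : X * (|lam| * |lam|) ≤ X * (2 * Real.pi * |lam| * (2 * Real.pi * |lam|)) :=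
      mul_le_mul_of_nonneg_left hq hX0
    have hsq : (1 + |lam|) ^ 2 ≤ 2 + 2 * (|lam| * |lam|) := by nlinarith [sq_nonneg (1 - |lam|)]
    have hfin : X * (1 + |lam|) ^ 2 ≤ X * (2 + 2 * (|lam| * |lam|)) :=
      mul_le_mul_of_nonneg_left hsq hX0
    nlinarith
  · have hz : (fun r : ℝ => ((g0 (v1, v2, r) : ℝ) : ℂ)) = fun _ => (0 : ℂ) := by
      funext r
      by_cases hr : r ∈ Icc (1 / 2 : ℝ) (5 / 2)
      · have hr1 := hr.1
        have hr2 := hr.2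
        have hrp : 0 < r := by linarith
        have key : om (r * v1) = 0 ∨ om (r * v2) = 0 := by
          by_contra hcon
          rw [not_or] at hcon
          apply hc
          have a1 : 1 / 2 < r * v1 ∧ r * v1 < 5 / 2 := by
            constructor
            · by_contra h; exact hcon.1 (om_eq_zero (Or.inl (not_lt.mp h)))
            · by_contra h; exact hcon.1 (om_eq_zero (Or.inr (not_lt.mp h)))
          have a2 : 1 / 2 < r * v2 ∧ r * v2 < 5 / 2 := by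
            constructor
            · by_contra h; exact hcon.2 (om_eq_zero (Or.inl (not_lt.mp h)))
            · by_contra h; exact hcon.2 (om_eq_zero (Or.inr (not_lt.mp h)))
          refine ⟨?_, ?_, ?_, ?_⟩
          · nlinarith
          · nlinarith
          · nlinarith
          · nlinarith
        rcases key with h | h <;> simp [g0, h]
      · rw [g0_zero v1 v2 r hr]; simp
    rw [hz, Real.fourier_real_eq]
    simp

end Pool.Agent.Work.MP_56b8f5_nt.UC
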