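import Mathlib
import Pool.Agent.Work.MP_56b8f5_nt.UC.Stmts
import Pool.Agent.Work.MP_56b8f5_nt.UC.I_Ow

/-!
MP_56b8f5_nt, block UC, item Kd: decomposition of the kernel.  Statement: helper45.  Proof: helper23.
-/

open MeasureTheory Set Filter Topology

noncomputable section

namespace Pool.Agent.Work.MP_56b8f5_nt.UC

open Pool.Agent.Work.MP_56b8f5_nt.UB (ee om)

namespace Kd_aux

/-- `∑_{|m| > M} 1/m² ≤ 2/M` over finite sets of integers -/
lemma sum_inv_sq (M : ℕ) (hM : 1 ≤ M) (S : Finset ℤ) (hS : ∀ m ∈ S, (M : ℤ) < |m|) :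
    ∑ m ∈ S, (((m : ℝ)) ^ 2)⁻¹ ≤ 2 / (M : ℝ) := by
  classical
  set K : ℕ := max M (S.sup Int.natAbs) with hK
  have hMK : M ≤ K := le_max_left _ _
  have hsub : S ⊆ (Finset.Ioc M K).image (fun k : ℕ => (k : ℤ)) ∪
      (Finset.Ioc M K).image (fun k : ℕ => -(k : ℤ)) := by
    intro m hm
    have h1 := hS m hm
    have h2 : m.natAbs ≤ K := le_trans (Finset.le_sup (f := Int.natAbs) hm) (le_max_right _ _)
    have h3 : M < m.natAbs := by
      have : (m.natAbs : ℤ) = |m| := Int.natCast_natAbs m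
      omega
    rw [Finset.mem_union, Finset.mem_image, Finset.mem_image]
    rcases le_total 0 m with h | h
    · left
      exact ⟨m.natAbs, Finset.mem_Ioc.2 ⟨h3, h2⟩, by omega⟩
    · right
      exact ⟨m.natAbs, Finset.mem_Ioc.2 ⟨h3, h2⟩, by omega⟩
  have hnn : ∀ m : ℤ, 0 ≤ (((m : ℝ)) ^ 2)⁻¹ := fun m => by positivity
  have hA : ∑ m ∈ (Finset.Ioc M K).image (fun k : ℕ => (k : ℤ)), (((m : ℝ)) ^ 2)⁻¹
      ≤ (M : ℝ)⁻¹ := by
    rw [Finset.sum_image (fun a _ b _ h => by exact_mod_cast h)]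
    refine le_trans (le_of_eq ?_) ((sum_Ioc_inv_sq_le_sub (α := ℝ) (by omega) hMK).trans ?_)
    · simp
    · have : (0 : ℝ) ≤ (K : ℝ)⁻¹ := by positivity
      linarith
  have hB : ∑ m ∈ (Finset.Ioc M K).image (fun k : ℕ => -(k : ℤ)), (((m : ℝ)) ^ 2)⁻¹
      ≤ (M : ℝ)⁻¹ := by
    rw [Finset.sum_image (fun a _ b _ h => by
      have h' : -(a : ℤ) = -(b : ℤ) := h
      omega)]
    refine le_trans (le_of_eq ?_) ((sum_Ioc_inv_sq_le_sub (α := ℝ) (by omega) hMK).trans ?_)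
    · simp
    · have : (0 : ℝ) ≤ (K : ℝ)⁻¹ := by positivity
      linarith
  have hU := Finset.sum_union_inter (s₁ := (Finset.Ioc M K).image (fun k : ℕ => (k : ℤ)))
    (s₂ := (Finset.Ioc M K).image (fun k : ℕ => -(k : ℤ))) (f := fun m : ℤ => (((m : ℝ)) ^ 2)⁻¹)
  have hI : 0 ≤ ∑ m ∈ (Finset.Ioc M K).image (fun k : ℕ => (k : ℤ)) ∩
      (Finset.Ioc M K).image (fun k : ℕ => -(k : ℤ)), (((m : ℝ)) ^ 2)⁻¹ :=
    Finset.sum_nonneg fun m _ => hnn m
  have hle : ∑ m ∈ S, (((m : ℝ)) ^ 2)⁻¹ ≤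
      ∑ m ∈ (Finset.Ioc M K).image (fun k : ℕ => (k : ℤ)) ∪
      (Finset.Ioc M K).image (fun k : ℕ => -(k : ℤ)), (((m : ℝ)) ^ 2)⁻¹ :=
    Finset.sum_le_sum_of_subset_of_nonneg hsub fun m _ _ => hnn m
  rw [div_eq_mul_inv]
  linarith

end Kd_aux

theorem iKd (hNs : StNs) (hPo : StPo) : StKd := by
  classical
  obtain ⟨c1, c2, C1, hc1, hc12, hC1, hN⟩ := hNs om isWt_om
  have hCge : 1 ≤ max c2 (2 * C1) := le_trans (by linarith) (le_max_right _ _)
  refine ⟨max c2 (2 * C1), hCge, ?_⟩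
  intro L T t M hL hT htT hCT
  have hL0 : 0 < L := by linarith
  have hT0 : 0 < T := by linarith
  have hC0 : 0 < max c2 (2 * C1) := by linarith
  have hML : 0 < (M : ℝ) * L := lt_of_lt_of_le (mul_pos hC0 hT0) hCT
  have hM0 : 0 < (M : ℝ) := by
    by_contra h
    have : (M : ℝ) * L ≤ 0 := mul_nonpos_of_nonpos_of_nonneg (not_lt.1 h) hL0.le
    linarith
  have hM1 : 1 ≤ M := by exact_mod_cast hM0
  obtain ⟨hsum, hBl⟩ := hPo om isWt_om L t hL0
  have hsum' : Summable fun m : ℤ => Im om L t m := hsum.of_norm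
  set s : Finset ℤ := Finset.Icc (-(M : ℤ)) M with hs
  have hsplit := hsum'.sum_add_tsum_compl (s := s)
  have h0s : (0 : ℤ) ∈ s := by
    rw [hs, Finset.mem_Icc]
    constructor <;> omega
  have hkk : ∑ m ∈ s, Im om L t m = Im om L t 0 + kk L M t := by
    unfold kk
    rw [← Finset.add_sum_erase s _ h0s]
    congr 1
    apply Finset.sum_congr _ (fun _ _ => rfl)
    ext m
    simp only [Finset.mem_erase, Finset.mem_filter, hs]
    tauto
  have hkey : Bl om L t - Im om L t 0 - kk L M t = ∑' x : ↥((s : Set ℤ)ᶜ), Im om L t x := by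
    rw [hBl, ← hsplit, hkk]
    ring
  rw [hkey]
  have hsn : Summable fun x : ↥((s : Set ℤ)ᶜ) => ‖Im om L t x‖ := hsum.subtype _
  refine (norm_tsum_le_tsum_norm hsn).trans ?_
  refine hsn.tsum_le_of_sum_le ?_
  intro S
  have hmem : ∀ x : ↥((s : Set ℤ)ᶜ), (M : ℤ) < |(x : ℤ)| := by
    rintro ⟨x, hx⟩
    have hx' : x ∉ s := fun h => hx (Finset.mem_coe.2 h)
    rw [hs, Finset.mem_Icc] at hx'
    show (M : ℤ) < |x|
    rw [lt_abs]
    omega
  have hterm : ∀ x : ↥((s : Set ℤ)ᶜ), ‖Im om L t x‖ ≤ C1 / L * ((((x : ℤ) : ℝ)) ^ 2)⁻¹ := by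
    intro x
    have hx := hmem x
    have hx0 : (x : ℤ) ≠ 0 := by
      intro h
      rw [h, abs_zero] at hx
      omega
    have hxR : (M : ℝ) < |((x : ℤ) : ℝ)| := by exact_mod_cast hx
    have hxa : 0 < |((x : ℤ) : ℝ)| := by linarith
    have h1 := hN L t x hL0 hx0 (by
      rintro ⟨-, h2, -⟩
      have h3 : (M : ℝ) * L < |((x : ℤ) : ℝ)| * L := mul_lt_mul_of_pos_right hxR hL0
      have h4 : c2 * |t| ≤ max c2 (2 * C1) * T :=
        mul_le_mul (le_max_left _ _) htT (abs_nonneg _) hC0.le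
      linarith)
    refine h1.trans ?_
    have h5 : (|((x : ℤ) : ℝ)| * L) ^ 2 ≤ (|((x : ℤ) : ℝ)| * L + |t|) ^ 2 := by
      apply pow_le_pow_left₀ (by positivity)
      linarith [abs_nonneg t]
    calc C1 * L / (|((x : ℤ) : ℝ)| * L + |t|) ^ 2
        ≤ C1 * L / (|((x : ℤ) : ℝ)| * L) ^ 2 := by
          apply div_le_div_of_nonneg_left (by positivity) (by positivity) h5
      _ = C1 / L * ((((x : ℤ) : ℝ)) ^ 2)⁻¹ := by
          rw [mul_pow, sq_abs]
          have : ((x : ℤ) : ℝ) ≠ 0 := by exact_mod_cast hx0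
          field_simp
  have hS1 : ∑ x ∈ S, ‖Im om L t x‖ ≤ C1 / L * (2 / (M : ℝ)) := by
    refine (Finset.sum_le_sum fun x _ => hterm x).trans ?_
    rw [← Finset.mul_sum]
    apply mul_le_mul_of_nonneg_left _ (by positivity)
    have := Kd_aux.sum_inv_sq M hM1 (S.map (Function.Embedding.subtype _)) (by
      intro m hm
      rw [Finset.mem_map] at hm
      obtain ⟨x, _, rfl⟩ := hm
      exact hmem x)
    rw [Finset.sum_map] at this
    exact this
  refine hS1.trans ?_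
  have h6 : C1 / L * (2 / (M : ℝ)) = 2 * C1 / ((M : ℝ) * L) := by
    field_simp
  rw [h6]
  have h7 : T ≤ (M : ℝ) * L := by
    have : 1 * T ≤ max c2 (2 * C1) * T := mul_le_mul_of_nonneg_right hCge hT0.le
    linarith
  calc 2 * C1 / ((M : ℝ) * L) ≤ 2 * C1 / T := by
        apply div_le_div_of_nonneg_left (by positivity) hT0 h7
    _ ≤ max c2 (2 * C1) / T := by
        apply div_le_div_of_nonneg_right (le_max_right _ _) hT0.le

end Pool.Agent.Work.MP_56b8f5_nt.UC
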