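import Pool.Agent.Work.MP_56b8f5_nt.UC.Stmts

/-!
MP_56b8f5_nt, block UC, item Kp: pointwise bound for smooth blocks.
-/

open MeasureTheory Set Filter Topology

noncomputable section

namespace Pool.Agent.Work.MP_56b8f5_nt.UC

open Pool.Agent.Work.MP_56b8f5_nt.UB (ee om)

namespace Kp_aux

/-- the averaged bound -/
lemma int_bound (g : ℝ → ℝ) (B : ℝ) (hB : 0 ≤ B) (hg0 : ∀ y, 0 ≤ g y) (hg : ∀ y, g y ≤ B) :
    (∫ y : ℝ, g y / (1 + |y|) ^ 2) ≤ B * Real.pi := by
  have hint : Integrable (fun y : ℝ => B * (1 + y ^ 2)⁻¹) :=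
    integrable_inv_one_add_sq.const_mul B
  have h1 : (∫ y : ℝ, g y / (1 + |y|) ^ 2) ≤ ∫ y : ℝ, B * (1 + y ^ 2)⁻¹ := by
    apply integral_mono_of_nonneg
    · exact Eventually.of_forall fun y => div_nonneg (hg0 y) (by positivity)
    · exact hint
    · refine Eventually.of_forall fun y => ?_
      have hy : 0 ≤ |y| := abs_nonneg y
      have hsq : |y| ^ 2 = y ^ 2 := sq_abs y
      have h2 : (1 + y ^ 2) ≤ (1 + |y|) ^ 2 := by nlinarith
      have h3 : 0 < 1 + y ^ 2 := by positivity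
      show g y / (1 + |y|) ^ 2 ≤ B * (1 + y ^ 2)⁻¹
      rw [← div_eq_mul_inv]
      exact div_le_div₀ hB (hg y) h3 h2
  rw [integral_const_mul, integral_univ_inv_one_add_sq] at h1
  exact h1

end Kp_aux

theorem iKp (hRf : StRf) (hBc : StBc) : StKp := by
  intro w hw
  obtain ⟨u, hu, hRf'⟩ := hRf w hw
  obtain ⟨C1, hC1, hR⟩ := hRf' 2 le_rfl
  obtain ⟨_, _, _, C2, hC2, hB2, _⟩ := hBc w hw
  obtain ⟨_, _, _, C3, hC3, hB3, _⟩ := hBc u hu
  refine ⟨2 * C2 + 4 * C1 * C3 + 2 * C1, by nlinarith, ?_⟩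
  intro N t hN
  have hC1' : 0 ≤ C1 := by linarith
  have hC2' : 0 ≤ C2 := by linarith
  have hC3' : 0 ≤ C3 := by linarith
  have hC13 : 0 ≤ C1 * C3 := by positivity
  have hs1 : 1 ≤ Real.sqrt (1 + |t|) := by
    rw [Real.one_le_sqrt]
    linarith [abs_nonneg t]
  have hN2 : 0 < N / (1 + t ^ 2) := by positivity
  by_cases ht : |t| ≤ 1
  · have h1 := hB2 N t hN
    have ht2 : t ^ 2 ≤ 1 := by
      rw [← sq_abs]
      nlinarith [abs_nonneg t]
    have h2 : N ≤ 2 * (N / (1 + t ^ 2)) := by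
      rw [← mul_div_assoc, le_div_iff₀ (by positivity)]
      nlinarith
    calc ‖Bl w N t‖ ≤ C2 * N := h1
      _ ≤ C2 * (2 * (N / (1 + t ^ 2))) := mul_le_mul_of_nonneg_left h2 hC2'
      _ = (2 * C2) * (N / (1 + t ^ 2)) := by ring
      _ ≤ (2 * C2 + 4 * C1 * C3 + 2 * C1) * (N / (1 + t ^ 2) + Real.sqrt (1 + |t|)) := by
        apply mul_le_mul
        · nlinarith
        · linarith
        · exact hN2.le
        · nlinarith
  · push Not at ht
    have hD : 1 ≤ |t| := ht.le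
    have hD0 : 0 < |t| := by linarith
    have h1 := hR N |t| t hN hD le_rfl (by linarith)
    have h2 : (∫ y : ℝ, ‖Bl u (|t| / N) (t + y)‖ / (1 + |y|) ^ 2) ≤ (C3 * (|t| / N)) * Real.pi := by
      apply Kp_aux.int_bound (fun y => ‖Bl u (|t| / N) (t + y)‖)
      · positivity
      · intro y
        exact norm_nonneg _
      · intro y
        exact hB3 (|t| / N) (t + y) (by positivity)
    have hsq : 0 < Real.sqrt |t| := Real.sqrt_pos.mpr hD0
    have hss : Real.sqrt |t| * Real.sqrt |t| = |t| := Real.mul_self_sqrt hD0.le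
    have h3 : C1 * (N / Real.sqrt |t|) * (∫ y : ℝ, ‖Bl u (|t| / N) (t + y)‖ / (1 + |y|) ^ 2) ≤
        C1 * (N / Real.sqrt |t|) * ((C3 * (|t| / N)) * Real.pi) :=
      mul_le_mul_of_nonneg_left h2 (by positivity)
    have h4 : C1 * (N / Real.sqrt |t|) * ((C3 * (|t| / N)) * Real.pi) =
        C1 * C3 * Real.pi * Real.sqrt |t| := by
      have : N / Real.sqrt |t| * (|t| / N) = Real.sqrt |t| := by
        rw [div_mul_div_comm, mul_comm N |t|, mul_div_mul_right _ _ hN.ne']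
        rw [div_eq_iff hsq.ne', hss]
      calc C1 * (N / Real.sqrt |t|) * ((C3 * (|t| / N)) * Real.pi) =
          C1 * C3 * Real.pi * (N / Real.sqrt |t| * (|t| / N)) := by ring
        _ = C1 * C3 * Real.pi * Real.sqrt |t| := by rw [this]
    have h5 : Real.sqrt |t| ≤ Real.sqrt (1 + |t|) := Real.sqrt_le_sqrt (by linarith)
    have h6 : C1 * C3 * Real.pi * Real.sqrt |t| ≤ 4 * C1 * C3 * Real.sqrt (1 + |t|) := by
      have hpi : Real.pi ≤ 4 := Real.pi_le_four
      calc C1 * C3 * Real.pi * Real.sqrt |t| ≤ C1 * C3 * 4 * Real.sqrt (1 + |t|) := by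
            apply mul_le_mul
            · exact mul_le_mul_of_nonneg_left hpi hC13
            · exact h5
            · exact hsq.le
            · positivity
        _ = 4 * C1 * C3 * Real.sqrt (1 + |t|) := by ring
    have h7 : C1 / |t| ≤ C1 * Real.sqrt (1 + |t|) := by
      calc C1 / |t| ≤ C1 := div_le_self hC1' hD
        _ = C1 * 1 := by ring
        _ ≤ C1 * Real.sqrt (1 + |t|) := mul_le_mul_of_nonneg_left hs1 hC1'
    have h8 : C1 * N / |t| ^ 2 ≤ 2 * C1 * (N / (1 + t ^ 2)) := by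
      rw [sq_abs]
      have ht2 : 1 ≤ t ^ 2 := by
        rw [← sq_abs]
        nlinarith
      rw [← mul_div_assoc, div_le_div_iff₀ (by positivity) (by positivity)]
      have : 0 ≤ C1 * N := by positivity
      nlinarith
    have h9 : ‖Bl w N t‖ ≤ 4 * C1 * C3 * Real.sqrt (1 + |t|) + C1 * Real.sqrt (1 + |t|) +
        2 * C1 * (N / (1 + t ^ 2)) := by
      linarith
    have h10 : 0 ≤ C2 * (N / (1 + t ^ 2)) := by positivity
    have h11 : 0 ≤ C2 * Real.sqrt (1 + |t|) := by positivity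
    have h12 : 0 ≤ C1 * C3 * (N / (1 + t ^ 2)) := by positivity
    have h13 : 0 ≤ C1 * Real.sqrt (1 + |t|) := by positivity
    nlinarith

end Pool.Agent.Work.MP_56b8f5_nt.UC
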