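import Mathlib
import Pool.Agent.Work.MP_56b8f5_nt.UC.Stmts

/-!
MP_56b8f5_nt, block UC, item Mk: moments of smooth blocks over separated points.
-/

open MeasureTheory Set Filter Topology

noncomputable section

namespace Pool.Agent.Work.MP_56b8f5_nt.UC

open Pool.Agent.Work.MP_56b8f5_nt.UB (ee om)

namespace Mk_aux

/-- the number of points, from the mean value theorem with one coefficient -/
lemma card_le {C : ℝ} (h : ∀ (T0 T : ℝ) (W : Finset ℝ) (Y : ℕ) (a : ℕ → ℂ), 1 ≤ T → Sep W →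
    (∀ t ∈ W, T0 ≤ t ∧ t ≤ T0 + T) → 1 ≤ Y →
    ∑ t ∈ W, ‖Dp Y a t‖ ^ 2 ≤ C * (1 + Real.log Y) ^ 2 * (T + Y) * ∑ n ∈ Finset.Icc 1 Y, ‖a n‖ ^ 2)
    (T0 T : ℝ) (W : Finset ℝ) (hT : 1 ≤ T) (hS : Sep W) (hW : ∀ t ∈ W, T0 ≤ t ∧ t ≤ T0 + T) :
    (W.card : ℝ) ≤ C * (T + 1) := by
  have h1 := h T0 T W 1 (fun _ => 1) hT hS hW le_rfl
  have h2 : ∀ t ∈ W, ‖Dp 1 (fun _ => 1) t‖ ^ 2 = 1 := by
    intro t _
    simp [Dp]
  rw [Finset.sum_congr rfl h2] at h1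
  simpa using h1

/-- the elementary bound for the coefficients and the logarithms -/
lemma log_le {e : ℝ} (he : 0 < e) {Y : ℝ} (hY : 1 ≤ Y) : 1 + Real.log Y ≤ (1 + 1 / e) * Y ^ e := by
  have h1 : Real.log Y ≤ Y ^ e / e := Real.log_le_rpow_div (by linarith) he
  have h2 : (1 : ℝ) ≤ Y ^ e := Real.one_le_rpow hY he.le
  have h3 : (1 + 1 / e) * Y ^ e = Y ^ e + Y ^ e / e := by ring
  rw [h3]; linarith

end Mk_aux

theorem iMk (hMv : StMv) (hPw : StPw) (hBc : StBc) : StMk := by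
  intro w hw k ε hk hε
  obtain ⟨C2, hC2, hM, -⟩ := hMv
  set e : ℝ := ε / (4 * k) with he_def
  have hk' : (1 : ℝ) ≤ k := by exact_mod_cast hk
  have he : 0 < e := by positivity
  obtain ⟨c, C1, hc, hC1, hP⟩ := hPw w hw k e hk he
  obtain ⟨-, -, -, C3, hC3, hB, -⟩ := hBc w hw
  set K1 : ℝ := C3 ^ (2 * k) * (2 * C2) with hK1
  set K2 : ℝ := C2 * (1 + 1 / e) ^ 2 * C1 ^ 2 * (2 * C1) ^ (4 * e) * (4 * C1 ^ 2) with hK2
  have hK1' : 0 ≤ K1 := by positivity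
  have hK2' : 0 ≤ K2 := by positivity
  refine ⟨1 + K1 + K2, by linarith, ?_⟩
  intro T0 T N W hT hN hNT hS hW
  have hTe : (1 : ℝ) ≤ T ^ ε := Real.one_le_rpow hT hε.le
  have hNk : 0 < N ^ k := pow_pos hN k
  have hcard := Mk_aux.card_le hM T0 T W hT hS hW
  rcases le_total N 1 with h1 | h1
  · -- short blocks
    have hb : ∀ t ∈ W, ‖Bl w N t‖ ^ (2 * k) ≤ C3 ^ (2 * k) * N ^ k := by
      intro t _
      calc ‖Bl w N t‖ ^ (2 * k) ≤ (C3 * N) ^ (2 * k) := pow_le_pow_left₀ (norm_nonneg _) (hB N t hN) _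
        _ = C3 ^ (2 * k) * N ^ (2 * k) := mul_pow _ _ _
        _ ≤ C3 ^ (2 * k) * N ^ k := by
            apply mul_le_mul_of_nonneg_left _ (by positivity)
            exact pow_le_pow_of_le_one hN.le h1 (by omega)
    calc ∑ t ∈ W, ‖Bl w N t‖ ^ (2 * k) ≤ ∑ t ∈ W, C3 ^ (2 * k) * N ^ k := Finset.sum_le_sum hb
      _ = W.card * (C3 ^ (2 * k) * N ^ k) := by simp
      _ ≤ (C2 * (T + 1)) * (C3 ^ (2 * k) * N ^ k) := by
          apply mul_le_mul_of_nonneg_right hcard (by positivity)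
      _ ≤ (C2 * (2 * T)) * (C3 ^ (2 * k) * N ^ k) := by
          apply mul_le_mul_of_nonneg_right _ (by positivity)
          apply mul_le_mul_of_nonneg_left _ (by positivity)
          linarith
      _ = K1 * 1 * T * N ^ k := by rw [hK1]; ring
      _ ≤ (1 + K1 + K2) * T ^ ε * (T + N ^ k) * N ^ k := by
          gcongr
          · linarith
          · linarith
  · -- long blocks
    obtain ⟨a, ha1, -, ha3⟩ := hP N hN
    set Y : ℕ := ⌈C1 * N ^ k⌉₊ with hYdef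
    have hC1N : 1 ≤ C1 * N ^ k := by
      have : (1 : ℝ) ≤ N ^ k := one_le_pow₀ h1
      nlinarith
    have hY1 : 1 ≤ Y := by
      rw [hYdef]; exact Nat.one_le_ceil_iff.mpr (by linarith)
    have hYr : (1 : ℝ) ≤ Y := by exact_mod_cast hY1
    have hYlow : C1 * N ^ k ≤ Y := Nat.le_ceil _
    have hYup : (Y : ℝ) ≤ 2 * C1 * N ^ k := by
      have := Nat.ceil_lt_add_one (a := C1 * N ^ k) (by linarith)
      rw [← hYdef] at this
      linarith
    have hD : ∀ t ∈ W, ‖Bl w N t‖ ^ (2 * k) = ‖Dp Y a t‖ ^ 2 := by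
      intro t _
      rw [← ha3 t Y hYlow, norm_pow, ← pow_mul, mul_comm]
    have hsum : ∑ n ∈ Finset.Icc 1 Y, ‖a n‖ ^ 2 ≤ Y * (C1 * (Y : ℝ) ^ e) ^ 2 := by
      calc ∑ n ∈ Finset.Icc 1 Y, ‖a n‖ ^ 2 ≤ ∑ n ∈ Finset.Icc 1 Y, (C1 * (Y : ℝ) ^ e) ^ 2 := by
            apply Finset.sum_le_sum
            intro n hn
            rw [Finset.mem_Icc] at hn
            apply pow_le_pow_left₀ (norm_nonneg _)
            refine (ha1 n).trans ?_
            apply mul_le_mul_of_nonneg_left _ (by linarith)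
            exact Real.rpow_le_rpow (by positivity) (by exact_mod_cast hn.2) he.le
        _ = Y * (C1 * (Y : ℝ) ^ e) ^ 2 := by simp
    have hmain := hM T0 T W Y a hT hS hW hY1
    have hlog := Mk_aux.log_le he hYr
    have hlog0 : 0 ≤ 1 + Real.log Y := by
      have := Real.log_nonneg hYr
      linarith
    have hYT : (Y : ℝ) ^ (4 * e) ≤ (2 * C1) ^ (4 * e) * T ^ ε := by
      have h2 : (Y : ℝ) ≤ 2 * C1 * T ^ k := by
        refine hYup.trans ?_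
        apply mul_le_mul_of_nonneg_left _ (by linarith)
        exact pow_le_pow_left₀ hN.le hNT k
      calc (Y : ℝ) ^ (4 * e) ≤ (2 * C1 * T ^ k) ^ (4 * e) := Real.rpow_le_rpow (by positivity) h2 (by positivity)
        _ = (2 * C1) ^ (4 * e) * (T ^ k) ^ (4 * e) := Real.mul_rpow (by positivity) (by positivity)
        _ = (2 * C1) ^ (4 * e) * T ^ ε := by
            congr 1
            rw [← Real.rpow_natCast, ← Real.rpow_mul (by linarith)]
            congr 1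
            rw [he_def]; field_simp
    have hYe : ((Y : ℝ) ^ e) ^ 4 = (Y : ℝ) ^ (4 * e) := by
      rw [← Real.rpow_natCast, ← Real.rpow_mul (by positivity)]
      congr 1
      push_cast; ring
    calc ∑ t ∈ W, ‖Bl w N t‖ ^ (2 * k) = ∑ t ∈ W, ‖Dp Y a t‖ ^ 2 := Finset.sum_congr rfl hD
      _ ≤ C2 * (1 + Real.log Y) ^ 2 * (T + Y) * ∑ n ∈ Finset.Icc 1 Y, ‖a n‖ ^ 2 := hmain
      _ ≤ C2 * ((1 + 1 / e) * (Y : ℝ) ^ e) ^ 2 * (T + Y) * (Y * (C1 * (Y : ℝ) ^ e) ^ 2) := by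
          gcongr
      _ = C2 * (1 + 1 / e) ^ 2 * C1 ^ 2 * ((Y : ℝ) ^ e) ^ 4 * (T + Y) * Y := by ring
      _ = C2 * (1 + 1 / e) ^ 2 * C1 ^ 2 * (Y : ℝ) ^ (4 * e) * (T + Y) * Y := by rw [hYe]
      _ ≤ C2 * (1 + 1 / e) ^ 2 * C1 ^ 2 * ((2 * C1) ^ (4 * e) * T ^ ε) * (2 * C1 * (T + N ^ k)) * (2 * C1 * N ^ k) := by
          gcongr
          nlinarith
      _ = K2 * T ^ ε * (T + N ^ k) * N ^ k := by rw [hK2]; ring
      _ ≤ (1 + K1 + K2) * T ^ ε * (T + N ^ k) * N ^ k := by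
          gcongr
          linarith

end Pool.Agent.Work.MP_56b8f5_nt.UC
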