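import Mathlib
import Pool.Agent.Work.MP_56b8f5_nt.UC.Stmts

/-!
MP_56b8f5_nt, block UC, item N0 (helper91): the term `m = 0`.
-/

open MeasureTheory Set Filter Topology

noncomputable section

namespace Pool.Agent.Work.MP_56b8f5_nt.UC

open Pool.Agent.Work.MP_56b8f5_nt.UB (ee om)

namespace N0_aux

lemma wt_mul_id {w : ℝ → ℝ} (hw : IsWt w) : IsWt (fun x => x * w x) := by
  refine ⟨contDiff_id.mul hw.smooth, ?_⟩
  obtain ⟨a, b, ha, hab, h⟩ := hw.supp
  refine ⟨a, b, ha, hab, fun x hx => h x ?_⟩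
  intro h0
  exact hx (by simp [h0])

lemma im_eq {w : ℝ → ℝ} (N t : ℝ) (hN : 0 < N) :
    Im w N t 0 = (N : ℂ) * ((N : ℂ) ^ (-(t * Complex.I)) * Om (fun x => x * w x) (-t)) := by
  have h1 : Im w N t 0 = ∫ x in Ioi (0 : ℝ),
      ((w (x / N) : ℝ) : ℂ) * (x : ℂ) ^ (-(t * Complex.I)) := by
    unfold Im
    refine integral_congr_ae (Eventually.of_forall fun x => ?_)
    simp [ee]
  have h2 := integral_comp_mul_left_Ioi
    (fun x : ℝ => ((w (x / N) : ℝ) : ℂ) * (x : ℂ) ^ (-(t * Complex.I))) 0 hN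
  rw [mul_zero] at h2
  have h3 : (∫ x in Ioi (0 : ℝ), ((w (x / N) : ℝ) : ℂ) * (x : ℂ) ^ (-(t * Complex.I))) =
      (N : ℂ) * ∫ x in Ioi (0 : ℝ), ((w (N * x / N) : ℝ) : ℂ) *
        ((N * x : ℝ) : ℂ) ^ (-(t * Complex.I)) := by
    rw [h2]
    rw [Complex.real_smul, ← mul_assoc, Complex.ofReal_inv,
      mul_inv_cancel₀ (by exact_mod_cast hN.ne'), one_mul]
  rw [h1, h3]
  congr 1
  unfold Om
  rw [← integral_const_mul]
  refine setIntegral_congr_fun measurableSet_Ioi fun x hx => ?_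
  have hx' : (0 : ℝ) < x := hx
  have hxc : (x : ℂ) ≠ 0 := by exact_mod_cast hx'.ne'
  simp only
  rw [mul_div_cancel_left₀ x hN.ne', Complex.ofReal_mul,
    Complex.mul_cpow_ofReal_nonneg hN.le hx'.le]
  have h4 : (x : ℂ) ^ (((-t : ℝ) : ℂ) * Complex.I - 1) =
      (x : ℂ) ^ (-(t * Complex.I)) / x := by
    rw [Complex.cpow_sub _ _ hxc, Complex.cpow_one]
    congr 2
    push_cast
    ring
  rw [h4, Complex.ofReal_mul]
  field_simp

end N0_aux

open N0_aux in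
theorem iN0 (hMel : StMel) : StN0 := by
  intro w hw A
  obtain ⟨C, hC1, hC⟩ := (hMel _ (wt_mul_id hw)).2.1 A
  refine ⟨C, hC1, fun N t hN => ?_⟩
  rw [im_eq N t hN, norm_mul, norm_mul, Complex.norm_real, Real.norm_of_nonneg hN.le]
  have h1 : ‖(N : ℂ) ^ (-(t * Complex.I))‖ = 1 := by
    rw [Complex.norm_cpow_eq_rpow_re_of_pos hN]
    simp
  rw [h1, one_mul]
  have h2 := hC (-t)
  rw [abs_neg] at h2
  calc N * ‖Om (fun x => x * w x) (-t)‖ ≤ N * (C / (1 + |t|) ^ A) :=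
        mul_le_mul_of_nonneg_left h2 hN.le
    _ = C * N / (1 + |t|) ^ A := by ring

end Pool.Agent.Work.MP_56b8f5_nt.UC
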