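import Pool.Agent.Work.MP_56b8f5_nt.UC.Stmts
import Pool.Agent.Work.MP_56b8f5_nt.UB.I_IP

/-!
MP_56b8f5_nt, block UC, item Ns: nonstationary terms.
-/

open MeasureTheory Set Filter Topology

noncomputable section

namespace Pool.Agent.Work.MP_56b8f5_nt.UC

open Pool.Agent.Work.MP_56b8f5_nt.UB (ee om)

namespace Ns_aux

/-- the phase -/
def ph (N t : ℝ) (m : ℤ) (u : ℝ) : ℝ := -(t / (2 * Real.pi)) * Real.log (N * u) - m * (N * u)

lemma integrand_eq {w : ℝ → ℝ} {N t u : ℝ} {m : ℤ} (hN : 0 < N) (hu : 0 < u) :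
    ((w (N * u / N) : ℝ) : ℂ) * ((N * u : ℝ) : ℂ) ^ (-(t * Complex.I)) * ee (-(m * (N * u))) =
      ((w u : ℝ) : ℂ) * ee (ph N t m u) := by
  have hNu : 0 < N * u := mul_pos hN hu
  have h1 : N * u / N = u := by field_simp
  rw [h1, mul_assoc]
  congr 1
  have hne : ((N * u : ℝ) : ℂ) ≠ 0 := by exact_mod_cast hNu.ne'
  rw [Complex.cpow_def_of_ne_zero hne, ← Complex.ofReal_log hNu.le]
  unfold ee ph
  rw [← Complex.exp_add]
  congr 1
  have hpi : (Real.pi : ℂ) ≠ 0 := by exact_mod_cast Real.pi_ne_zero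
  push_cast
  field_simp
  ring

lemma Im_eq {w : ℝ → ℝ} {N t α β : ℝ} {m : ℤ} (hN : 0 < N) (hα : 0 < α) (hαβ : α ≤ β)
    (h0 : ∀ u, u ∉ Ioc α β → w u = 0) :
    Im w N t m = (N : ℂ) * ∫ u in α..β, ((w u : ℝ) : ℂ) * ee (ph N t m u) := by
  unfold Im
  have h1 := MeasureTheory.integral_comp_mul_left_Ioi
    (fun x : ℝ => ((w (x / N) : ℝ) : ℂ) * (x : ℂ) ^ (-(t * Complex.I)) * ee (-(m * x))) 0 hN
  rw [mul_zero] at h1
  have h2 : (∫ x in Ioi (0 : ℝ), ((w (x / N) : ℝ) : ℂ) * (x : ℂ) ^ (-(t * Complex.I)) * ee (-(m * x))) =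
      (N : ℂ) * ∫ x in Ioi (0 : ℝ), (fun x : ℝ => ((w (x / N) : ℝ) : ℂ) * (x : ℂ) ^ (-(t * Complex.I)) *
        ee (-(m * x))) (N * x) := by
    rw [h1, Complex.real_smul]
    push_cast
    rw [← mul_assoc, mul_inv_cancel₀ (by exact_mod_cast hN.ne'), one_mul]
  rw [h2]
  congr 1
  rw [intervalIntegral.integral_of_le hαβ]
  have hsub : Ioc α β ⊆ Ioi (0 : ℝ) := fun u hu => lt_trans hα hu.1
  rw [MeasureTheory.setIntegral_eq_of_subset_of_forall_sdiff_eq_zero measurableSet_Ioi hsub]
  · apply MeasureTheory.setIntegral_congr_fun measurableSet_Ioc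
    intro u hu
    exact integrand_eq hN (lt_trans hα hu.1)
  · intro u hu
    have hw : w u = 0 := h0 u hu.2
    have h1 : N * u / N = u := by field_simp
    simp only [h1, hw]
    simp

lemma phase_lower {a b N t u : ℝ} {m : ℤ} (ha : 0 < a) (hab : a < b) (hN : 0 < N) (hm : m ≠ 0)
    (h : ¬ (1 / (8 * Real.pi * b) * |t| ≤ |(m : ℝ)| * N ∧ |(m : ℝ)| * N ≤ 2 / (Real.pi * a) * |t| ∧
      (m : ℝ) * t < 0)) (hu : u ∈ Icc (a / 2) (2 * b)) :
    min (min (1 / (1 + 4 * Real.pi * b)) (1 / (8 * Real.pi * b + 1)))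
      (1 / (2 * (1 + Real.pi * a))) * (|(m : ℝ)| * N + |t|) ≤ |t / (2 * Real.pi * u) + m * N| := by
  have hb : 0 < b := ha.trans hab
  have hpi := Real.pi_pos
  have hu0 : 0 < u := lt_of_lt_of_le (by positivity) hu.1
  have hmN : 0 < |(m : ℝ)| * N := by
    have : (m : ℝ) ≠ 0 := by exact_mod_cast hm
    positivity
  have ht0 : 0 ≤ |t| := abs_nonneg t
  have hΛ : 0 < |(m : ℝ)| * N + |t| := by linarith
  -- bounds for |t|/(2πu)
  have hlo : |t| / (4 * Real.pi * b) ≤ |t| / (2 * Real.pi * u) := by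
    apply div_le_div_of_nonneg_left ht0 (by positivity)
    nlinarith [hu.2, mul_le_mul_of_nonneg_left hu.2 hpi.le]
  have hhi : |t| / (2 * Real.pi * u) ≤ |t| / (Real.pi * a) := by
    apply div_le_div_of_nonneg_left ht0 (by positivity)
    nlinarith [hu.1, mul_le_mul_of_nonneg_left hu.1 hpi.le]
  have habst : |t / (2 * Real.pi * u)| = |t| / (2 * Real.pi * u) := by
    rw [abs_div, abs_of_pos (by positivity : 0 < 2 * Real.pi * u)]
  have habsm : |(m : ℝ) * N| = |(m : ℝ)| * N := by rw [abs_mul, abs_of_pos hN]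
  by_cases hs : 0 ≤ (m : ℝ) * t
  · -- same sign
    have hk : min (min (1 / (1 + 4 * Real.pi * b)) (1 / (8 * Real.pi * b + 1)))
        (1 / (2 * (1 + Real.pi * a))) ≤ 1 / (1 + 4 * Real.pi * b) :=
      (min_le_left _ _).trans (min_le_left _ _)
    refine (mul_le_mul_of_nonneg_right hk hΛ.le).trans ?_
    have habs : |t / (2 * Real.pi * u) + m * N| = |t| / (2 * Real.pi * u) + |(m : ℝ)| * N := by
      rw [← habst, ← habsm]
      rcases le_or_gt 0 t with h1 | h1
      · rcases h1.eq_or_lt with h2 | h2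
        · rw [← h2]; simp
        · have hm0 : 0 ≤ (m : ℝ) := by
            by_contra hc
            push Not at hc
            nlinarith
          rw [abs_of_nonneg (by positivity), abs_of_nonneg (by positivity), abs_of_nonneg (by positivity)]
      · have hm0 : (m : ℝ) ≤ 0 := by
          by_contra hc
          push Not at hc
          nlinarith
        have e1 : t / (2 * Real.pi * u) ≤ 0 := div_nonpos_of_nonpos_of_nonneg h1.le (by positivity)
        have e2 : (m : ℝ) * N ≤ 0 := mul_nonpos_of_nonpos_of_nonneg hm0 hN.le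
        rw [abs_of_nonpos (by linarith), abs_of_nonpos e1, abs_of_nonpos e2]
        ring
    rw [habs]
    have h4 : 1 / (1 + 4 * Real.pi * b) * (|(m : ℝ)| * N + |t|) ≤ |(m : ℝ)| * N + |t| / (4 * Real.pi * b) := by
      rw [div_mul_eq_mul_div, one_mul, div_le_iff₀ (by positivity)]
      have : 0 ≤ |t| / (4 * Real.pi * b) := by positivity
      have h5 : |t| / (4 * Real.pi * b) * (4 * Real.pi * b) = |t| := by field_simp
      nlinarith [mul_pos hmN (by positivity : 0 < 4 * Real.pi * b)]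
    linarith
  · push Not at hs
    have h' : |(m : ℝ)| * N < 1 / (8 * Real.pi * b) * |t| ∨ 2 / (Real.pi * a) * |t| < |(m : ℝ)| * N := by
      by_contra hc
      push Not at hc
      exact h ⟨hc.1, hc.2, hs⟩
    have htri : |t / (2 * Real.pi * u)| - |(m : ℝ) * N| ≤ |t / (2 * Real.pi * u) + m * N| := by
      have := abs_sub_abs_le_abs_sub (t / (2 * Real.pi * u)) (-((m : ℝ) * N))
      rw [abs_neg, sub_neg_eq_add] at this
      exact this
    have htri2 : |(m : ℝ) * N| - |t / (2 * Real.pi * u)| ≤ |t / (2 * Real.pi * u) + m * N| := by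
      have := abs_sub_abs_le_abs_sub ((m : ℝ) * N) (-(t / (2 * Real.pi * u)))
      rw [abs_neg, sub_neg_eq_add, add_comm ((m : ℝ) * N)] at this
      exact this
    rw [habst, habsm] at htri htri2
    rcases h' with h' | h'
    · have hk : min (min (1 / (1 + 4 * Real.pi * b)) (1 / (8 * Real.pi * b + 1)))
          (1 / (2 * (1 + Real.pi * a))) ≤ 1 / (8 * Real.pi * b + 1) :=
        (min_le_left _ _).trans (min_le_right _ _)
      refine (mul_le_mul_of_nonneg_right hk hΛ.le).trans ?_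
      have e1 : 1 / (8 * Real.pi * b) * |t| = |t| / (8 * Real.pi * b) := by ring
      have e2 : |t| / (4 * Real.pi * b) = 2 * (|t| / (8 * Real.pi * b)) := by field_simp; ring
      rw [e1] at h'
      have e3 : 1 / (8 * Real.pi * b + 1) * (|(m : ℝ)| * N + |t|) ≤ |t| / (8 * Real.pi * b) := by
        rw [div_mul_eq_mul_div, one_mul, div_le_iff₀ (by positivity)]
        have h5 : |t| / (8 * Real.pi * b) * (8 * Real.pi * b) = |t| := by field_simp
        nlinarith
      linarith
    · have hk : min (min (1 / (1 + 4 * Real.pi * b)) (1 / (8 * Real.pi * b + 1)))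
          (1 / (2 * (1 + Real.pi * a))) ≤ 1 / (2 * (1 + Real.pi * a)) := min_le_right _ _
      refine (mul_le_mul_of_nonneg_right hk hΛ.le).trans ?_
      have e1 : 2 / (Real.pi * a) * |t| = 2 * (|t| / (Real.pi * a)) := by ring
      rw [e1] at h'
      have h5 : |t| / (Real.pi * a) * (Real.pi * a) = |t| := by field_simp
      have e3 : 1 / (2 * (1 + Real.pi * a)) * (|(m : ℝ)| * N + |t|) ≤ |(m : ℝ)| * N / 2 := by
        rw [div_mul_eq_mul_div, one_mul, div_le_iff₀ (by positivity)]
        have h6 : 0 < Real.pi * a := by positivity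
        nlinarith [mul_lt_mul_of_pos_right h' h6]
      linarith

end Ns_aux

open Ns_aux in
theorem iNs : StNs := by
  intro w hw
  obtain ⟨hs, a, b, ha, hab, hsupp⟩ := hw
  have hb : 0 < b := ha.trans hab
  have hpi := Real.pi_pos
  -- derivatives
  obtain ⟨hd0, hs1⟩ := contDiff_infty_iff_deriv.1 hs
  obtain ⟨hd1, hs2⟩ := contDiff_infty_iff_deriv.1 hs1
  have hc0 : Continuous w := hs.continuous
  have hc1 : Continuous (deriv w) := hs1.continuous
  have hc2 : Continuous (deriv (deriv w)) := hs2.continuous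
  obtain ⟨B0, hB0⟩ := (isCompact_Icc (a := a / 2) (b := 2 * b)).exists_bound_of_continuousOn hc0.continuousOn
  obtain ⟨B1, hB1⟩ := (isCompact_Icc (a := a / 2) (b := 2 * b)).exists_bound_of_continuousOn hc1.continuousOn
  obtain ⟨B2, hB2⟩ := (isCompact_Icc (a := a / 2) (b := 2 * b)).exists_bound_of_continuousOn hc2.continuousOn
  have hne : a / 2 ≤ 2 * b := by linarith
  have hmem : a / 2 ∈ Icc (a / 2) (2 * b) := ⟨le_rfl, hne⟩
  set B : ℝ := B0 + B1 + B2 with hBdef
  have hB0n : 0 ≤ B0 := (norm_nonneg _).trans (hB0 _ hmem)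
  have hB1n : 0 ≤ B1 := (norm_nonneg _).trans (hB1 _ hmem)
  have hB2n : 0 ≤ B2 := (norm_nonneg _).trans (hB2 _ hmem)
  have hBn : 0 ≤ B := by positivity
  have bw0 : ∀ u ∈ Icc (a / 2) (2 * b), |w u| ≤ B := fun u hu => by
    have := hB0 u hu; rw [Real.norm_eq_abs] at this; linarith
  have bw1 : ∀ u ∈ Icc (a / 2) (2 * b), |deriv w u| ≤ B := fun u hu => by
    have := hB1 u hu; rw [Real.norm_eq_abs] at this; linarith
  have bw2 : ∀ u ∈ Icc (a / 2) (2 * b), |deriv (deriv w) u| ≤ B := fun u hu => by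
    have := hB2 u hu; rw [Real.norm_eq_abs] at this; linarith
  set κ : ℝ := min (min (1 / (1 + 4 * Real.pi * b)) (1 / (8 * Real.pi * b + 1)))
      (1 / (2 * (1 + Real.pi * a))) with hκdef
  have hκ : 0 < κ := by
    rw [hκdef]
    refine lt_min (lt_min (by positivity) (by positivity)) (by positivity)
  set D : ℝ := 2 / (Real.pi * a ^ 2) + 8 / (Real.pi * a ^ 3) with hDdef
  have hD : 0 ≤ D := by positivity
  set K : ℝ := B / κ ^ 2 + B * D / κ ^ 3 + B * D ^ 2 / κ ^ 4 + B * D / κ ^ 3 with hKdef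
  have hK : 0 ≤ K := by positivity
  refine ⟨1 / (8 * Real.pi * b), 2 / (Real.pi * a), max 1 (6 * b * K), by positivity, ?_,
    le_max_left _ _, ?_⟩
  · rw [div_lt_div_iff₀ (by positivity) (by positivity)]
    nlinarith [mul_pos hpi ha, mul_pos hpi hb]
  intro N t m hN hm hnot
  have hmN : 0 < |(m : ℝ)| * N := by
    have : (m : ℝ) ≠ 0 := by exact_mod_cast hm
    positivity
  set Λ : ℝ := |(m : ℝ)| * N + |t| with hΛdef
  have hΛ : 0 < Λ := by rw [hΛdef]; linarith [abs_nonneg t]
  have htΛ : |t| ≤ Λ := by rw [hΛdef]; linarith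
  have h0 : ∀ u, u ∉ Ioc (a / 2) (2 * b) → w u = 0 := by
    intro u hu
    by_contra hc
    obtain ⟨h1, h2⟩ := hsupp u hc
    exact hu ⟨by linarith, by linarith⟩
  rw [Im_eq hN (by positivity : 0 < a / 2) hne h0]
  -- the derivatives of the phase
  have hposu : ∀ u ∈ Icc (a / 2) (2 * b), 0 < u := fun u hu => lt_of_lt_of_le (by positivity) hu.1
  have hlow : ∀ u ∈ Icc (a / 2) (2 * b), κ * Λ ≤ |t / (2 * Real.pi * u) + m * N| :=
    fun u hu => phase_lower ha hab hN hm hnot hu
  have hf1 : ∀ u ∈ Icc (a / 2) (2 * b), κ * Λ ≤ |-(t / (2 * Real.pi * u) + m * N)| := by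
    intro u hu; rw [abs_neg]; exact hlow u hu
  have hκΛ : 0 < κ * Λ := mul_pos hκ hΛ
  have hIP := (UB.iIP (a / 2) (2 * b) w (deriv w) (deriv (deriv w)) (ph N t m)
    (fun u => -(t / (2 * Real.pi * u) + m * N)) (fun u => t / (2 * Real.pi * u ^ 2))
    (fun u => -(t / (Real.pi * u ^ 3))) hne ?_ hc1.continuousOn ?_).2 ?_ hc2.continuousOn ?_
  · -- conclusion
    have hwb : w (2 * b) = 0 := by
      by_contra hc
      have := (hsupp _ hc).2
      linarith
    have hwa : w (a / 2) = 0 := by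
      by_contra hc
      have := (hsupp _ hc).1
      linarith
    have hw1b : deriv w (2 * b) = 0 := by
      have : w =ᶠ[𝓝 (2 * b)] fun _ => (0 : ℝ) := by
        have : Ioi b ∈ 𝓝 (2 * b) := Ioi_mem_nhds (by linarith)
        filter_upwards [this] with y hy
        by_contra hc
        have := (hsupp _ hc).2
        have hy' : b < y := hy
        linarith
      rw [this.deriv_eq, deriv_const]
    have hw1a : deriv w (a / 2) = 0 := by
      have : w =ᶠ[𝓝 (a / 2)] fun _ => (0 : ℝ) := by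
        have : Iio a ∈ 𝓝 (a / 2) := Iio_mem_nhds (by linarith)
        filter_upwards [this] with y hy
        by_contra hc
        have := (hsupp _ hc).1
        have hy' : y < a := hy
        linarith
      rw [this.deriv_eq, deriv_const]
    rw [hwb, hwa, hw1b, hw1a] at hIP
    simp only [abs_zero, zero_div, zero_mul, add_zero, zero_add] at hIP
    have hint : (∫ x in (a / 2)..(2 * b), (|deriv (deriv w) x| / (-(t / (2 * Real.pi * x) + m * N)) ^ 2 +
        |deriv w x| * |t / (2 * Real.pi * x ^ 2)| / |-(t / (2 * Real.pi * x) + m * N)| ^ 3 +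
        |w x| * (t / (2 * Real.pi * x ^ 2)) ^ 2 / (-(t / (2 * Real.pi * x) + m * N)) ^ 4 +
        |w x| * |-(t / (Real.pi * x ^ 3))| / |-(t / (2 * Real.pi * x) + m * N)| ^ 3)) ≤
        K / Λ ^ 2 * (2 * b) := by
      have h1 := intervalIntegral.norm_integral_le_of_norm_le_const (a := a / 2) (b := 2 * b) (C := K / Λ ^ 2)
        (f := fun x => (|deriv (deriv w) x| / (-(t / (2 * Real.pi * x) + m * N)) ^ 2 +
        |deriv w x| * |t / (2 * Real.pi * x ^ 2)| / |-(t / (2 * Real.pi * x) + m * N)| ^ 3 +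
        |w x| * (t / (2 * Real.pi * x ^ 2)) ^ 2 / (-(t / (2 * Real.pi * x) + m * N)) ^ 4 +
        |w x| * |-(t / (Real.pi * x ^ 3))| / |-(t / (2 * Real.pi * x) + m * N)| ^ 3)) ?_
      · refine (le_abs_self _).trans ?_
        rw [← Real.norm_eq_abs]
        refine h1.trans ?_
        apply mul_le_mul_of_nonneg_left _ (by positivity)
        rw [abs_of_nonneg (by linarith)]
        linarith
      · intro x hx
        rw [uIoc_of_le hne] at hx
        have hxI : x ∈ Icc (a / 2) (2 * b) := ⟨hx.1.le, hx.2⟩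
        have hx0 : 0 < x := hposu x hxI
        have hf := hf1 x hxI
        set g : ℝ := -(t / (2 * Real.pi * x) + m * N) with hg
        have hg2 : g ^ 2 = |g| ^ 2 := (sq_abs g).symm
        have hg4 : g ^ 4 = |g| ^ 4 := by
          have : g ^ 4 = (g ^ 2) ^ 2 := by ring
          rw [this, hg2]; ring
        have ha2 : (a / 2) ^ 2 ≤ x ^ 2 := by
          apply pow_le_pow_left₀ (by positivity) hx.1.le
        have ha3 : (a / 2) ^ 3 ≤ x ^ 3 := by
          apply pow_le_pow_left₀ (by positivity) hx.1.le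
        have hD2 : |t / (2 * Real.pi * x ^ 2)| ≤ D * Λ := by
          rw [abs_div, abs_of_pos (by positivity : 0 < 2 * Real.pi * x ^ 2)]
          have e1 : |t| / (2 * Real.pi * x ^ 2) ≤ |t| / (2 * Real.pi * (a / 2) ^ 2) := by
            apply div_le_div_of_nonneg_left (abs_nonneg t) (by positivity)
            exact mul_le_mul_of_nonneg_left ha2 (by positivity)
          have e2 : |t| / (2 * Real.pi * (a / 2) ^ 2) = 2 / (Real.pi * a ^ 2) * |t| := by
            field_simp
          have e3 : 2 / (Real.pi * a ^ 2) ≤ D := by rw [hDdef]; linarith [(by positivity : 0 ≤ 8 / (Real.pi * a ^ 3))]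
          calc |t| / (2 * Real.pi * x ^ 2) ≤ 2 / (Real.pi * a ^ 2) * |t| := by rw [← e2]; exact e1
            _ ≤ D * Λ := mul_le_mul e3 htΛ (abs_nonneg t) hD
        have hD3 : |-(t / (Real.pi * x ^ 3))| ≤ D * Λ := by
          rw [abs_neg, abs_div, abs_of_pos (by positivity : 0 < Real.pi * x ^ 3)]
          have e1 : |t| / (Real.pi * x ^ 3) ≤ |t| / (Real.pi * (a / 2) ^ 3) := by
            apply div_le_div_of_nonneg_left (abs_nonneg t) (by positivity)
            exact mul_le_mul_of_nonneg_left ha3 (by positivity)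
          have e2 : |t| / (Real.pi * (a / 2) ^ 3) = 8 / (Real.pi * a ^ 3) * |t| := by
            field_simp; ring
          have e3 : 8 / (Real.pi * a ^ 3) ≤ D := by rw [hDdef]; linarith [(by positivity : 0 ≤ 2 / (Real.pi * a ^ 2))]
          calc |t| / (Real.pi * x ^ 3) ≤ 8 / (Real.pi * a ^ 3) * |t| := by rw [← e2]; exact e1
            _ ≤ D * Λ := mul_le_mul e3 htΛ (abs_nonneg t) hD
        have hD2sq : (t / (2 * Real.pi * x ^ 2)) ^ 2 ≤ (D * Λ) ^ 2 := by
          rw [← sq_abs]
          exact pow_le_pow_left₀ (abs_nonneg _) hD2 2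
        have p2 : (κ * Λ) ^ 2 ≤ |g| ^ 2 := pow_le_pow_left₀ hκΛ.le hf 2
        have p3 : (κ * Λ) ^ 3 ≤ |g| ^ 3 := pow_le_pow_left₀ hκΛ.le hf 3
        have p4 : (κ * Λ) ^ 4 ≤ |g| ^ 4 := pow_le_pow_left₀ hκΛ.le hf 4
        have t1 : |deriv (deriv w) x| / |g| ^ 2 ≤ B / (κ * Λ) ^ 2 :=
          div_le_div₀ hBn (bw2 x hxI) (by positivity) p2
        have t2 : |deriv w x| * |t / (2 * Real.pi * x ^ 2)| / |g| ^ 3 ≤ B * (D * Λ) / (κ * Λ) ^ 3 :=
          div_le_div₀ (by positivity) (mul_le_mul (bw1 x hxI) hD2 (abs_nonneg _) hBn) (by positivity) p3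
        have t3 : |w x| * (t / (2 * Real.pi * x ^ 2)) ^ 2 / |g| ^ 4 ≤ B * (D * Λ) ^ 2 / (κ * Λ) ^ 4 :=
          div_le_div₀ (by positivity) (mul_le_mul (bw0 x hxI) hD2sq (by positivity) hBn) (by positivity) p4
        have t4 : |w x| * |-(t / (Real.pi * x ^ 3))| / |g| ^ 3 ≤ B * (D * Λ) / (κ * Λ) ^ 3 :=
          div_le_div₀ (by positivity) (mul_le_mul (bw0 x hxI) hD3 (abs_nonneg _) hBn) (by positivity) p3
        have hsum : B / (κ * Λ) ^ 2 + B * (D * Λ) / (κ * Λ) ^ 3 + B * (D * Λ) ^ 2 / (κ * Λ) ^ 4 +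
            B * (D * Λ) / (κ * Λ) ^ 3 = K / Λ ^ 2 := by
          rw [hKdef]
          field_simp
        rw [Real.norm_eq_abs, hg2, hg4]
        rw [abs_of_nonneg (by positivity)]
        rw [← hsum]
        linarith
    have hn : ‖(N : ℂ)‖ = N := by rw [Complex.norm_real, Real.norm_eq_abs, abs_of_pos hN]
    rw [norm_mul, hn]
    calc N * ‖∫ u in (a / 2)..(2 * b), ((w u : ℝ) : ℂ) * ee (ph N t m u)‖
        ≤ N * (3 * (K / Λ ^ 2 * (2 * b))) := by
          apply mul_le_mul_of_nonneg_left _ hN.le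
          exact hIP.trans (mul_le_mul_of_nonneg_left hint (by norm_num))
      _ = (6 * b * K) * N / Λ ^ 2 := by ring
      _ ≤ max 1 (6 * b * K) * N / Λ ^ 2 := by
          gcongr
          exact le_max_right _ _
  · -- derivatives
    intro u hu
    have hu0 := hposu u hu
    refine ⟨(hd0 u).hasDerivAt, ?_, ?_, ?_⟩
    · unfold ph
      have e1 : HasDerivAt (fun u : ℝ => N * u) N u := by
        simpa using (hasDerivAt_id u).const_mul N
      have e2 := (e1.log (mul_pos hN hu0).ne').const_mul (-(t / (2 * Real.pi)))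
      have e3 := e2.sub (e1.const_mul (m : ℝ))
      refine HasDerivAt.congr_deriv e3 ?_
      field_simp
      ring
    · have e1 : HasDerivAt (fun u : ℝ => 2 * Real.pi * u) (2 * Real.pi) u := by
        simpa using (hasDerivAt_id u).const_mul (2 * Real.pi)
      have e2 := ((hasDerivAt_const u t).div e1 (by positivity)).add_const ((m : ℝ) * N)
      have e3 := e2.neg
      refine HasDerivAt.congr_deriv e3 ?_
      field_simp
      ring
    · intro hc
      have := hf1 u hu
      have hc' : -(t / (2 * Real.pi * u) + m * N) = 0 := hc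
      rw [hc', abs_zero] at this
      linarith
  · -- continuity of f2
    intro u hu
    have hu0 := hposu u hu
    apply ContinuousAt.continuousWithinAt
    have : (2 * Real.pi * u ^ 2) ≠ 0 := by positivity
    fun_prop (disch := assumption)
  · intro u hu
    have hu0 := hposu u hu
    refine ⟨(hd1 u).hasDerivAt, ?_⟩
    have e1 : HasDerivAt (fun u : ℝ => 2 * Real.pi * u ^ 2) (2 * Real.pi * (2 * u)) u := by
      have := (hasDerivAt_pow 2 u).const_mul (2 * Real.pi)
      simpa using this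
    have e2 := (hasDerivAt_const u t).div e1 (by positivity)
    refine HasDerivAt.congr_deriv e2 ?_
    field_simp
    ring
  · intro u hu
    have hu0 := hposu u hu
    apply ContinuousAt.continuousWithinAt
    have : (Real.pi * u ^ 3) ≠ 0 := by positivity
    fun_prop (disch := assumption)

end Pool.Agent.Work.MP_56b8f5_nt.UC
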