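import Mathlib
import Pool.Agent.Work.MP_56b8f5_nt.UC.Stmts

/-!
MP_56b8f5_nt, block UC, item Po: Poisson summation for smooth blocks.  Statement: helper45.
Proof: helper64.
-/

open MeasureTheory Set Filter Topology

noncomputable section

namespace Pool.Agent.Work.MP_56b8f5_nt.UC

open Pool.Agent.Work.MP_56b8f5_nt.UB (ee om)
open scoped FourierTransform SchwartzMap ContDiff

namespace Po_aux

/-- the function `w(x/N) x^{-it}` on the real line -/
def ff (w : ℝ → ℝ) (N t x : ℝ) : ℂ :=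
  ((w (x / N) : ℝ) : ℂ) * Complex.exp (-(t * Complex.I) * ((Real.log x : ℝ) : ℂ))

lemma ff_pos (w : ℝ → ℝ) (N t : ℝ) {x : ℝ} (hx : 0 < x) :
    ff w N t x = ((w (x / N) : ℝ) : ℂ) * (x : ℂ) ^ (-(t * Complex.I)) := by
  unfold ff
  rw [Complex.cpow_def_of_ne_zero (by exact_mod_cast hx.ne'), Complex.ofReal_log hx.le, mul_comm
    (Complex.log (x : ℂ))]

lemma w_zero {w : ℝ → ℝ} {a b : ℝ} (hsupp : ∀ x, w x ≠ 0 → a ≤ x ∧ x ≤ b) {N x : ℝ} (hN : 0 < N)
    (hx : x < a * N ∨ b * N < x) : w (x / N) = 0 := by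
  by_contra h
  obtain ⟨h1, h2⟩ := hsupp _ h
  rw [le_div_iff₀ hN] at h1
  rw [div_le_iff₀ hN] at h2
  rcases hx with hx | hx <;> linarith

lemma ff_zero {w : ℝ → ℝ} {a b : ℝ} (hsupp : ∀ x, w x ≠ 0 → a ≤ x ∧ x ≤ b) {N x : ℝ} (hN : 0 < N)
    (t : ℝ) (hx : x < a * N ∨ b * N < x) : ff w N t x = 0 := by
  unfold ff
  rw [w_zero hsupp hN hx, Complex.ofReal_zero, zero_mul]

lemma ff_smooth {w : ℝ → ℝ} (hw : ContDiff ℝ ∞ w) {a b : ℝ} (ha : 0 < a)
    (hsupp : ∀ x, w x ≠ 0 → a ≤ x ∧ x ≤ b) {N : ℝ} (hN : 0 < N) (t : ℝ) :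
    ContDiff ℝ ∞ (ff w N t) := by
  rw [contDiff_iff_contDiffAt]
  intro x
  by_cases hx : 0 < x
  · unfold ff
    apply ContDiffAt.mul
    · exact (Complex.ofRealCLM.contDiff.comp (hw.comp (contDiff_id.div_const N))).contDiffAt
    · apply ContDiffAt.cexp
      apply ContDiffAt.mul contDiffAt_const
      exact Complex.ofRealCLM.contDiff.contDiffAt.comp x (Real.contDiffAt_log.2 hx.ne')
  · have h0 : ff w N t =ᶠ[𝓝 x] fun _ => (0 : ℂ) := by
      have haN : 0 < a * N := mul_pos ha hN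
      have : Iio (a * N) ∈ 𝓝 x := Iio_mem_nhds (by linarith)
      filter_upwards [this] with y hy
      exact ff_zero hsupp hN t (Or.inl hy)
    exact contDiffAt_const.congr_of_eventuallyEq h0

lemma ff_supp {w : ℝ → ℝ} {a b : ℝ}
    (hsupp : ∀ x, w x ≠ 0 → a ≤ x ∧ x ≤ b) {N : ℝ} (hN : 0 < N) (t : ℝ) :
    HasCompactSupport (ff w N t) := by
  apply HasCompactSupport.intro (isCompact_Icc (a := a * N) (b := b * N))
  intro x hx
  apply ff_zero hsupp hN t
  rw [Set.mem_Icc, not_and_or, not_le, not_le] at hx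
  exact hx

lemma fourier_ff {w : ℝ → ℝ} {a b : ℝ} (ha : 0 < a)
    (hsupp : ∀ x, w x ≠ 0 → a ≤ x ∧ x ≤ b) {N : ℝ} (hN : 0 < N) (t : ℝ) (m : ℤ) :
    𝓕 (ff w N t) (m : ℝ) = Im w N t m := by
  rw [Real.fourier_real_eq_integral_exp_smul]
  unfold Im
  rw [← MeasureTheory.integral_indicator measurableSet_Ioi]
  congr 1
  funext x
  by_cases hx : 0 < x
  · rw [Set.indicator_of_mem (Set.mem_Ioi.2 hx), ff_pos w N t hx, smul_eq_mul]
    unfold ee
    rw [mul_comm]
    congr 3
    push_cast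
    ring
  · rw [Set.indicator_of_notMem (by simpa using hx)]
    rw [ff_zero hsupp hN t (Or.inl (by
      have : 0 < a * N := mul_pos ha hN
      linarith)), smul_zero]

end Po_aux

open Po_aux in
theorem iPo : StPo := by
  intro w hw N t hN
  obtain ⟨hs, a, b, ha, hab, hsupp⟩ := hw
  have hc := ff_supp hsupp hN t
  have hd := ff_smooth hs ha hsupp hN t
  set f : 𝓢(ℝ, ℂ) := hc.toSchwartzMap hd with hf
  have hfv : ∀ x, f x = ff w N t x := fun x => rfl
  have hFf : ∀ m : ℤ, (𝓕 f) (m : ℝ) = Im w N t m := fun m => fourier_ff ha hsupp hN t m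
  have hP := SchwartzMap.tsum_eq_tsum_fourier f 0
  constructor
  · have h1 : Summable fun m : ℤ => (𝓕 f) (m : ℝ) :=
      summable_of_isBigO (Real.summable_abs_int_rpow (by norm_num : (1 : ℝ) < 2))
        (((𝓕 f).isBigO_cocompact_rpow (-2)).comp_tendsto Int.tendsto_coe_cofinite)
    have h2 := h1.norm
    simp only [hFf] at h2
    exact h2
  · have h3 : ∑' n : ℤ, f (0 + n) = ∑' m : ℤ, Im w N t m := by
      rw [hP]
      congr 1
      funext m
      rw [hFf]
      simp
    rw [← h3]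
    unfold Bl
    have hinj : Function.Injective (fun n : ℕ => (n : ℤ)) := Nat.cast_injective
    have hsub : Function.support (fun n : ℤ => f (0 + n)) ⊆ Set.range (fun n : ℕ => (n : ℤ)) := by
      intro n hn
      rw [Function.mem_support, zero_add, hfv] at hn
      by_cases h0 : 0 ≤ n
      · exact ⟨n.toNat, Int.toNat_of_nonneg h0⟩
      · exfalso
        apply hn
        apply ff_zero hsupp hN t
        left
        have h1 : (n : ℝ) < 0 := by exact_mod_cast not_le.1 h0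
        have : 0 < a * N := mul_pos ha hN
        linarith
    rw [← hinj.tsum_eq hsub]
    congr 1
    funext n
    rw [zero_add, hfv]
    rcases Nat.eq_zero_or_pos n with h0 | h0
    · subst h0
      have haN : 0 < a * N := mul_pos ha hN
      rw [ff_zero hsupp hN t (Or.inl (by simpa using haN))]
      rw [w_zero hsupp hN (Or.inl (by simpa using haN))]
      simp
    · have hn : (0 : ℝ) < ((n : ℤ) : ℝ) := by exact_mod_cast h0
      rw [ff_pos w N t hn]
      simp

end Pool.Agent.Work.MP_56b8f5_nt.UC
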