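import Mathlib
import Pool.Agent.Work.MP_56b8f5_nt.UC.Stmts
import Pool.Agent.Work.MP_56b8f5_nt.UC.I_Ow
import Pool.Agent.Work.MP_cb106b_nt.Ct.DivB

/-!
MP_56b8f5_nt, block UC, item Pw: powers of a smooth block are Dirichlet polynomials.
-/

open MeasureTheory Set Filter Topology

noncomputable section

namespace Pool.Agent.Work.MP_56b8f5_nt.UC

namespace Pw_aux

/-- coefficients of the block -/
def bs (w : ℝ → ℝ) (N : ℝ) (n : ℕ) : ℂ := ((w ((n : ℝ) / N) : ℝ) : ℂ)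

/-- coefficients of the `(k+1)`-st power of the block -/
def cv (w : ℝ → ℝ) (N : ℝ) : ℕ → ℕ → ℂ
  | 0 => bs w N
  | k + 1 => fun n => ∑ p ∈ n.divisorsAntidiagonal, cv w N k p.1 * bs w N p.2

lemma bs_zero {w : ℝ → ℝ} (hw : IsWt w) (N : ℝ) : bs w N 0 = 0 := by
  obtain ⟨a, b, ha, hab, hs⟩ := hw.supp
  have h0 : w 0 = 0 := by
    by_contra h
    have := (hs 0 h).1
    linarith
  simp [bs, h0]

lemma cv_zero {w : ℝ → ℝ} (hw : IsWt w) (N : ℝ) (k : ℕ) : cv w N k 0 = 0 := by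
  cases k with
  | zero => exact bs_zero hw N
  | succ k => simp [cv]

lemma bs_supp {w : ℝ → ℝ} {a b : ℝ} (hs : ∀ x, w x ≠ 0 → a ≤ x ∧ x ≤ b) {N : ℝ} (hN : 0 < N)
    {n : ℕ} (h : bs w N n ≠ 0) : a * N ≤ n ∧ (n : ℝ) ≤ b * N := by
  have h1 : w ((n : ℝ) / N) ≠ 0 := by
    intro h2
    exact h (by simp [bs, h2])
  obtain ⟨h2, h3⟩ := hs _ h1
  exact ⟨(le_div_iff₀ hN).1 h2, (div_le_iff₀ hN).1 h3⟩

lemma cv_supp {w : ℝ → ℝ} {a b : ℝ} (ha : 0 < a) (hab : a < b)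
    (hs : ∀ x, w x ≠ 0 → a ≤ x ∧ x ≤ b) {N : ℝ} (hN : 0 < N) (k : ℕ) :
    ∀ n : ℕ, cv w N k n ≠ 0 → (a * N) ^ (k + 1) ≤ n ∧ (n : ℝ) ≤ (b * N) ^ (k + 1) := by
  induction k with
  | zero =>
    intro n h
    simpa using bs_supp hs hN h
  | succ k ih =>
    intro n h
    obtain ⟨p, hp, hp2⟩ := Finset.exists_ne_zero_of_sum_ne_zero h
    have h1 : cv w N k p.1 ≠ 0 := fun h0 => hp2 (by rw [h0, zero_mul])
    have h2 : bs w N p.2 ≠ 0 := fun h0 => hp2 (by rw [h0, mul_zero])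
    obtain ⟨h3, h4⟩ := ih p.1 h1
    obtain ⟨h5, h6⟩ := bs_supp hs hN h2
    have h7 : p.1 * p.2 = n := (Nat.mem_divisorsAntidiagonal.1 hp).1
    have h8 : (n : ℝ) = (p.1 : ℝ) * (p.2 : ℝ) := by
      rw [← h7]; push_cast; ring
    have haN : 0 < a * N := by positivity
    have hbN : 0 < b * N := mul_pos (ha.trans hab) hN
    rw [h8, pow_succ _ (k + 1), pow_succ _ (k + 1)]
    exact ⟨mul_le_mul h3 h5 haN.le (by positivity), mul_le_mul h4 h6 (by positivity) (by positivity)⟩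

lemma cv_bound {w : ℝ → ℝ} (hw : IsWt w) (k : ℕ) :
    ∀ ε : ℝ, 0 < ε → ∃ C : ℝ, 1 ≤ C ∧ ∀ N : ℝ, ∀ n : ℕ, ‖cv w N k n‖ ≤ C * (n : ℝ) ^ ε := by
  obtain ⟨B, hB⟩ : ∃ B : ℝ, ∀ x, |w x| ≤ B := by
    obtain ⟨B, hB⟩ := hw.bounded
    exact ⟨B, hB.2⟩
  have hB' : ∀ x, |w x| ≤ max B 1 := fun x => (hB x).trans (le_max_left _ _)
  set D : ℝ := max B 1 with hD
  have hD1 : 1 ≤ D := le_max_right _ _
  have hbs : ∀ (N : ℝ) (n : ℕ), ‖bs w N n‖ ≤ D := by
    intro N n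
    rw [bs, Complex.norm_real, Real.norm_eq_abs]
    exact hB' _
  induction k with
  | zero =>
    intro ε hε
    refine ⟨D, hD1, ?_⟩
    intro N n
    rcases Nat.eq_zero_or_pos n with h | h
    · subst h
      rw [cv_zero hw N 0]
      simp only [norm_zero]
      positivity
    · have h1 : (1 : ℝ) ≤ (n : ℝ) ^ ε := Real.one_le_rpow (by exact_mod_cast h) hε.le
      calc ‖cv w N 0 n‖ ≤ D := hbs N n
        _ = D * 1 := (mul_one _).symm
        _ ≤ D * (n : ℝ) ^ ε := by gcongr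
  | succ k ih =>
    intro ε hε
    obtain ⟨C, hC1, hC⟩ := ih (ε / 2) (by positivity)
    obtain ⟨E, hE1, hE⟩ := Pool.Agent.Work.MP_cb106b_nt.Ct.divisor_bound (ε / 2) (by positivity)
    have h1 : 1 ≤ E * (C * D) := one_le_mul_of_one_le_of_one_le hE1 (one_le_mul_of_one_le_of_one_le hC1 hD1)
    refine ⟨E * (C * D), h1, ?_⟩
    intro N n
    rcases Nat.eq_zero_or_pos n with h | h
    · subst h
      rw [cv_zero hw N _]
      simp only [norm_zero]
      positivity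
    · have hn : (0 : ℝ) < n := by exact_mod_cast h
      have h2 : ∀ p ∈ n.divisorsAntidiagonal, ‖cv w N k p.1 * bs w N p.2‖ ≤ C * (n : ℝ) ^ (ε / 2) * D := by
        intro p hp
        rw [norm_mul]
        have h3 : p.1 ≤ n := Nat.le_of_dvd h (Dvd.intro _ (Nat.mem_divisorsAntidiagonal.1 hp).1)
        have h4 : ((p.1 : ℕ) : ℝ) ^ (ε / 2) ≤ (n : ℝ) ^ (ε / 2) :=
          Real.rpow_le_rpow (by positivity) (by exact_mod_cast h3) (by positivity)
        calc ‖cv w N k p.1‖ * ‖bs w N p.2‖ ≤ (C * (n : ℝ) ^ (ε / 2)) * D := by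
              apply mul_le_mul _ (hbs N _) (norm_nonneg _) (by positivity)
              exact (hC N p.1).trans (by gcongr)
          _ = C * (n : ℝ) ^ (ε / 2) * D := rfl
      have h5 : n.divisorsAntidiagonal.card = n.divisors.card := by
        have := Nat.sum_divisorsAntidiagonal (M := ℕ) (n := n) (fun _ _ => 1)
        simpa using this
      calc ‖cv w N (k + 1) n‖ = ‖∑ p ∈ n.divisorsAntidiagonal, cv w N k p.1 * bs w N p.2‖ := rfl
        _ ≤ ∑ p ∈ n.divisorsAntidiagonal, C * (n : ℝ) ^ (ε / 2) * D := norm_sum_le_of_le _ h2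
        _ = (n.divisors.card : ℝ) * (C * (n : ℝ) ^ (ε / 2) * D) := by
              rw [Finset.sum_const, h5, nsmul_eq_mul]
        _ ≤ (E * (n : ℝ) ^ (ε / 2)) * (C * (n : ℝ) ^ (ε / 2) * D) := by
              have := hE n h
              gcongr
        _ = E * (C * D) * ((n : ℝ) ^ (ε / 2) * (n : ℝ) ^ (ε / 2)) := by ring
        _ = E * (C * D) * (n : ℝ) ^ ε := by
              rw [← Real.rpow_add hn, add_halves]

lemma term_eq (a : ℕ → ℂ) (t : ℝ) {n : ℕ} (hn : n ≠ 0) :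
    LSeries.term a (t * Complex.I) n = a n * (n : ℂ) ^ (-(t * Complex.I)) := by
  rw [LSeries.term_of_ne_zero hn, div_eq_mul_inv, Complex.cpow_neg]

lemma term_supp {a : ℕ → ℂ} {Y : ℕ} (h : ∀ n, a n ≠ 0 → n ≤ Y) (t : ℝ) :
    ∀ n, n ∉ Finset.Icc 1 Y → LSeries.term a (t * Complex.I) n = 0 := by
  intro n hn
  rcases Nat.eq_zero_or_pos n with h0 | h0
  · subst h0; simp
  · have h1 : ¬ n ≤ Y := fun h2 => hn (Finset.mem_Icc.2 ⟨h0, h2⟩)
    have h2 : a n = 0 := by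
      by_contra h3
      exact h1 (h n h3)
    rw [term_eq a t (by omega), h2, zero_mul]

lemma summ {a : ℕ → ℂ} {Y : ℕ} (h : ∀ n, a n ≠ 0 → n ≤ Y) (t : ℝ) :
    LSeriesSummable a (t * Complex.I) :=
  summable_of_ne_finset_zero (s := Finset.Icc 1 Y) (term_supp h t)

lemma LS_eq {a : ℕ → ℂ} {Y : ℕ} (h : ∀ n, a n ≠ 0 → n ≤ Y) (t : ℝ) :
    LSeries a (t * Complex.I) = Dp Y a t := by
  rw [LSeries, tsum_eq_sum (s := Finset.Icc 1 Y) (term_supp h t), Dp]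
  apply Finset.sum_congr rfl
  intro n hn
  exact term_eq a t (by have := (Finset.mem_Icc.1 hn).1; omega)

lemma Bl_eq {w : ℝ → ℝ} (hw : IsWt w) (N t : ℝ) : Bl w N t = LSeries (bs w N) (t * Complex.I) := by
  rw [LSeries, Bl]
  apply tsum_congr
  intro n
  rcases Nat.eq_zero_or_pos n with h0 | h0
  · subst h0
    have h1 := bs_zero hw N
    rw [bs] at h1
    rw [h1]
    simp
  · rw [term_eq _ t (by omega)]
    rfl

lemma Bl_pow {w : ℝ → ℝ} (hw : IsWt w) {N : ℝ} (hN : 0 < N) (t : ℝ) (k : ℕ) :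
    Bl w N t ^ (k + 1) = LSeries (cv w N k) (t * Complex.I) := by
  obtain ⟨a, b, ha, hab, hs⟩ := hw.supp
  have hfin : ∀ k, ∃ Y : ℕ, ∀ n, cv w N k n ≠ 0 → n ≤ Y := by
    intro k
    obtain ⟨Y, hY⟩ := exists_nat_ge ((b * N) ^ (k + 1))
    refine ⟨Y, fun n hn => ?_⟩
    have := (cv_supp ha hab hs hN k n hn).2.trans hY
    exact_mod_cast this
  induction k with
  | zero =>
    rw [zero_add, pow_one]
    exact Bl_eq hw N t
  | succ k ih =>
    obtain ⟨Y1, h1⟩ := hfin k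
    obtain ⟨Y0, h0⟩ := hfin 0
    have h2 := LSeries_convolution' (summ h1 t) (summ h0 t)
    rw [pow_succ, ih, Bl_eq hw N t]
    have h3 : LSeries (bs w N) (t * Complex.I) = LSeries (cv w N 0) (t * Complex.I) := rfl
    rw [h3, ← h2, LSeries.convolution_def]
    rfl

end Pw_aux

open Pw_aux in
theorem iPw : StPw := by
  intro w hw k ε hk hε
  obtain ⟨a, b, ha, hab, hs⟩ := hw.supp
  obtain ⟨j, rfl⟩ : ∃ j, k = j + 1 := ⟨k - 1, by omega⟩
  obtain ⟨C, hC1, hC⟩ := cv_bound hw j ε hε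
  have hb : 0 < b := ha.trans hab
  refine ⟨a ^ (j + 1), max C (b ^ (j + 1)), by positivity, hC1.trans (le_max_left _ _), ?_⟩
  intro N hN
  have hsup : ∀ n : ℕ, cv w N j n ≠ 0 → a ^ (j + 1) * N ^ (j + 1) ≤ n ∧
      (n : ℝ) ≤ max C (b ^ (j + 1)) * N ^ (j + 1) := by
    intro n hn
    obtain ⟨h1, h2⟩ := cv_supp ha hab hs hN j n hn
    rw [mul_pow] at h1 h2
    refine ⟨h1, h2.trans ?_⟩
    gcongr
    exact le_max_right _ _
  refine ⟨cv w N j, ?_, hsup, ?_⟩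
  · intro n
    refine (hC N n).trans ?_
    gcongr
    exact le_max_left _ _
  · intro t Y hY
    rw [Bl_pow hw hN t j]
    apply LS_eq
    intro n hn
    have := (hsup n hn).2.trans hY
    exact_mod_cast this

end Pool.Agent.Work.MP_56b8f5_nt.UC
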