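import Pool.Agent.Work.MP_56b8f5_nt.UC.Stmts

/-!
MP_56b8f5_nt, block UC, item R24: second and fourth moments of `Rh` on `J`.
-/

open MeasureTheory Set Filter Topology

noncomputable section

namespace Pool.Agent.Work.MP_56b8f5_nt.UC

namespace R24_aux

/-- the trigonometric sum `∑_i v^{i a_i}` -/
def gf {ι : Type*} (S : Finset ι) (a : ι → ℝ) (v : ℝ) : ℂ := ∑ i ∈ S, (v : ℂ) ^ (a i * Complex.I)

lemma conj_cpow {v : ℝ} (hv : 0 < v) (x : ℝ) :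
    (starRingEnd ℂ) ((v : ℂ) ^ (x * Complex.I)) = (v : ℂ) ^ (-(x * Complex.I)) := by
  have h : (v : ℂ).arg ≠ Real.pi := by
    rw [Complex.arg_ofReal_of_nonneg hv.le]
    exact Real.pi_pos.ne
  have h2 := Complex.cpow_conj (v : ℂ) (x * Complex.I) h
  rw [Complex.conj_ofReal, map_mul, Complex.conj_ofReal, Complex.conj_I, mul_neg] at h2
  exact h2.symm

lemma sq_eq {ι : Type*} (S : Finset ι) (a : ι → ℝ) {v : ℝ} (hv : 0 < v) :
    ((‖gf S a v‖ ^ 2 : ℝ) : ℂ) = ∑ i ∈ S, ∑ j ∈ S, (v : ℂ) ^ ((a i - a j : ℝ) * Complex.I) := by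
  have h0 : (v : ℂ) ≠ 0 := Complex.ofReal_ne_zero.2 hv.ne'
  have h1 : ((‖gf S a v‖ ^ 2 : ℝ) : ℂ) = gf S a v * (starRingEnd ℂ) (gf S a v) := by
    rw [Complex.mul_conj, Complex.normSq_eq_norm_sq]
  rw [h1]
  unfold gf
  rw [map_sum, Finset.sum_mul_sum]
  refine Finset.sum_congr rfl fun i _ => Finset.sum_congr rfl fun j _ => ?_
  rw [conj_cpow hv, ← Complex.cpow_add _ _ h0]
  congr 1
  push_cast
  ring

lemma re_inv (x : ℝ) : ((1 : ℂ) / (1 + x * Complex.I)).re = 1 / (1 + x ^ 2) := by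
  rw [Complex.div_re]
  simp [Complex.normSq_apply]
  ring_nf

lemma int1 (x : ℝ) : ∫ v in Ioc (0 : ℝ) 1, (v : ℂ) ^ (x * Complex.I) = 1 / (1 + x * Complex.I) := by
  rw [← intervalIntegral.integral_of_le zero_le_one, integral_cpow (by left; simp)]
  have h : (x * Complex.I + 1 : ℂ) ≠ 0 := by
    intro h
    have := congrArg Complex.re h
    simp at this
  rw [Complex.ofReal_one, Complex.one_cpow, Complex.ofReal_zero, Complex.zero_cpow h, sub_zero, add_comm]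

lemma int2 (x : ℝ) : ∫ v in Ioi (1 : ℝ), (v : ℂ) ^ (x * Complex.I - 2) = 1 / (1 + (-x : ℝ) * Complex.I) := by
  rw [integral_Ioi_cpow_of_lt (by simp) one_pos]
  rw [Complex.ofReal_one, Complex.one_cpow]
  have h : (x * Complex.I - 2 + 1 : ℂ) ≠ 0 := by
    intro h
    have := congrArg Complex.re h
    norm_num at this
  have h' : (1 + (-x : ℝ) * Complex.I : ℂ) ≠ 0 := by
    intro h
    have := congrArg Complex.re h
    norm_num at this
  rw [div_eq_div_iff h h']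
  push_cast
  ring

lemma i1 (x : ℝ) : IntegrableOn (fun v : ℝ => (v : ℂ) ^ (x * Complex.I)) (Ioc 0 1) := by
  have := intervalIntegral.intervalIntegrable_cpow' (a := (0 : ℝ)) (b := 1) (r := x * Complex.I)
    (by simp)
  rwa [intervalIntegrable_iff_integrableOn_Ioc_of_le zero_le_one] at this

lemma i2 (x : ℝ) : IntegrableOn (fun v : ℝ => (v : ℂ) ^ (x * Complex.I - 2)) (Ioi 1) :=
  integrableOn_Ioi_cpow_of_lt (by simp) one_pos

/-- first piece -/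
lemma piece1 {ι : Type*} (S : Finset ι) (a : ι → ℝ) :
    IntegrableOn (fun v => ‖gf S a v‖ ^ 2) (Ioc 0 1) ∧
    ∫ v in Ioc (0 : ℝ) 1, ‖gf S a v‖ ^ 2 = ∑ i ∈ S, ∑ j ∈ S, 1 / (1 + (a i - a j) ^ 2) := by
  have hI : IntegrableOn (fun v : ℝ => ∑ i ∈ S, ∑ j ∈ S, (v : ℂ) ^ ((a i - a j : ℝ) * Complex.I))
      (Ioc 0 1) :=
    integrable_finsetSum _ fun i _ => integrable_finsetSum _ fun j _ => i1 _
  have he : ∀ v ∈ Ioc (0 : ℝ) 1, ((‖gf S a v‖ ^ 2 : ℝ) : ℂ) =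
      ∑ i ∈ S, ∑ j ∈ S, (v : ℂ) ^ ((a i - a j : ℝ) * Complex.I) := fun v hv => sq_eq S a hv.1
  have hI2 : IntegrableOn (fun v : ℝ => ((‖gf S a v‖ ^ 2 : ℝ) : ℂ)) (Ioc 0 1) :=
    hI.congr_fun (fun v hv => (he v hv).symm) measurableSet_Ioc
  refine ⟨?_, ?_⟩
  · have := hI2.re
    simp only [RCLike.re_to_complex, Complex.ofReal_re] at this
    exact this
  · have h1 : ((∫ v in Ioc (0 : ℝ) 1, ‖gf S a v‖ ^ 2 : ℝ) : ℂ) =
        ∑ i ∈ S, ∑ j ∈ S, 1 / (1 + (a i - a j : ℝ) * Complex.I) := by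
      rw [← integral_complex_ofReal, setIntegral_congr_fun measurableSet_Ioc he,
        integral_finsetSum _ fun i _ => integrable_finsetSum _ fun j _ => i1 _]
      refine Finset.sum_congr rfl fun i _ => ?_
      rw [integral_finsetSum _ fun j _ => i1 _]
      exact Finset.sum_congr rfl fun j _ => int1 _
    have h2 := congrArg Complex.re h1
    rw [Complex.ofReal_re, Complex.re_sum] at h2
    rw [h2]
    refine Finset.sum_congr rfl fun i _ => ?_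
    rw [Complex.re_sum]
    exact Finset.sum_congr rfl fun j _ => re_inv _

/-- second piece -/
lemma piece2 {ι : Type*} (S : Finset ι) (a : ι → ℝ) :
    IntegrableOn (fun v => v ^ (-2 : ℤ) * ‖gf S a v‖ ^ 2) (Ioi 1) ∧
    ∫ v in Ioi (1 : ℝ), v ^ (-2 : ℤ) * ‖gf S a v‖ ^ 2 =
      ∑ i ∈ S, ∑ j ∈ S, 1 / (1 + (a i - a j) ^ 2) := by
  have hI : IntegrableOn (fun v : ℝ => ∑ i ∈ S, ∑ j ∈ S, (v : ℂ) ^ ((a i - a j : ℝ) * Complex.I - 2))
      (Ioi 1) :=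
    integrable_finsetSum _ fun i _ => integrable_finsetSum _ fun j _ => i2 _
  have he : ∀ v ∈ Ioi (1 : ℝ), ((v ^ (-2 : ℤ) * ‖gf S a v‖ ^ 2 : ℝ) : ℂ) =
      ∑ i ∈ S, ∑ j ∈ S, (v : ℂ) ^ ((a i - a j : ℝ) * Complex.I - 2) := by
    intro v hv
    have hv0 : 0 < v := zero_lt_one.trans hv
    have h0 : (v : ℂ) ≠ 0 := Complex.ofReal_ne_zero.2 hv0.ne'
    rw [Complex.ofReal_mul, sq_eq S a hv0, Finset.mul_sum]
    refine Finset.sum_congr rfl fun i _ => ?_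
    rw [Finset.mul_sum]
    refine Finset.sum_congr rfl fun j _ => ?_
    have h5 : ((v ^ (-2 : ℤ) : ℝ) : ℂ) = (v : ℂ) ^ (-2 : ℂ) := by
      rw [Complex.ofReal_zpow, ← Complex.cpow_intCast]
      norm_num
    rw [h5, ← Complex.cpow_add _ _ h0]
    congr 1
    ring
  have hI2 : IntegrableOn (fun v : ℝ => ((v ^ (-2 : ℤ) * ‖gf S a v‖ ^ 2 : ℝ) : ℂ)) (Ioi 1) :=
    hI.congr_fun (fun v hv => (he v hv).symm) measurableSet_Ioi
  refine ⟨?_, ?_⟩
  · have := hI2.re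
    simp only [RCLike.re_to_complex, Complex.ofReal_re] at this
    exact this
  · have h1 : ((∫ v in Ioi (1 : ℝ), v ^ (-2 : ℤ) * ‖gf S a v‖ ^ 2 : ℝ) : ℂ) =
        ∑ i ∈ S, ∑ j ∈ S, 1 / (1 + ((-(a i - a j) : ℝ) : ℂ) * Complex.I) := by
      rw [← integral_complex_ofReal, setIntegral_congr_fun measurableSet_Ioi he,
        integral_finsetSum _ fun i _ => integrable_finsetSum _ fun j _ => i2 _]
      refine Finset.sum_congr rfl fun i _ => ?_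
      rw [integral_finsetSum _ fun j _ => i2 _]
      exact Finset.sum_congr rfl fun j _ => int2 _
    have h2 := congrArg Complex.re h1
    rw [Complex.ofReal_re, Complex.re_sum] at h2
    rw [h2]
    refine Finset.sum_congr rfl fun i _ => ?_
    rw [Complex.re_sum]
    refine Finset.sum_congr rfl fun j _ => ?_
    rw [re_inv, neg_sq]

lemma gen {ι : Type*} (S : Finset ι) (a : ι → ℝ) :
    ∫ v in JI, ‖gf S a v‖ ^ 2 ≤ 626 * ∑ i ∈ S, ∑ j ∈ S, 1 / (1 + (a i - a j) ^ 2) := by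
  obtain ⟨p1, p2⟩ := piece1 S a
  obtain ⟨q1, q2⟩ := piece2 S a
  -- the integrand on `Ioc 1 25`
  have hle : ∀ v ∈ Ioc (1 : ℝ) 25, ‖gf S a v‖ ^ 2 ≤ 625 * (v ^ (-2 : ℤ) * ‖gf S a v‖ ^ 2) := by
    intro v hv
    have h1 : (0 : ℝ) < v := zero_lt_one.trans hv.1
    have h2 : 1 ≤ 625 * v ^ (-2 : ℤ) := by
      rw [zpow_neg, ← div_eq_mul_inv, le_div_iff₀ (by positivity), one_mul]
      have h3 : v ^ (2 : ℤ) = v ^ 2 := by norm_cast
      rw [h3]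
      nlinarith [hv.2]
    have h3 : 0 ≤ ‖gf S a v‖ ^ 2 := sq_nonneg _
    nlinarith
  have hr : IntegrableOn (fun v => 625 * (v ^ (-2 : ℤ) * ‖gf S a v‖ ^ 2)) (Ioc 1 25) :=
    (q1.mono_set Ioc_subset_Ioi_self).const_mul _
  have hcont : ContinuousOn (fun v : ℝ => ‖gf S a v‖ ^ 2) (Ici (1 / 25)) := by
    have : ContinuousOn (gf S a) (Ici (1 / 25)) := by
      unfold gf
      refine continuousOn_finsetSum _ fun i _ => ?_
      intro v hv
      have hv0 : 0 < v := lt_of_lt_of_le (by norm_num) hv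
      exact (Complex.continuousAt_ofReal_cpow_const v _ (Or.inr hv0.ne')).continuousWithinAt
    exact this.norm.pow 2
  have hJ : IntegrableOn (fun v => ‖gf S a v‖ ^ 2) JI :=
    (hcont.mono Icc_subset_Ici_self).integrableOn_Icc
  have hK : IntegrableOn (fun v => ‖gf S a v‖ ^ 2) (Ioc 1 25) :=
    hJ.mono_set (fun v hv => ⟨by linarith [hv.1], hv.2⟩)
  have hsub : JI ⊆ Ioc (0 : ℝ) 1 ∪ Ioc (1 : ℝ) 25 := by
    intro v hv
    have hv' : 1 / 25 ≤ v ∧ v ≤ 25 := hv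
    rcases le_or_gt v 1 with h | h
    · exact Or.inl ⟨by linarith [hv'.1], h⟩
    · exact Or.inr ⟨h, hv'.2⟩
  have hnn : ∀ v : ℝ, 0 ≤ ‖gf S a v‖ ^ 2 := fun v => sq_nonneg _
  have h1 : ∫ v in JI, ‖gf S a v‖ ^ 2 ≤ ∫ v in Ioc (0 : ℝ) 1 ∪ Ioc (1 : ℝ) 25, ‖gf S a v‖ ^ 2 :=
    setIntegral_mono_set (p1.union hK) (Eventually.of_forall hnn) hsub.eventuallyLE
  have h2 : ∫ v in Ioc (0 : ℝ) 1 ∪ Ioc (1 : ℝ) 25, ‖gf S a v‖ ^ 2 =
      (∫ v in Ioc (0 : ℝ) 1, ‖gf S a v‖ ^ 2) + ∫ v in Ioc (1 : ℝ) 25, ‖gf S a v‖ ^ 2 := by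
    refine setIntegral_union ?_ measurableSet_Ioc p1 hK
    rw [Set.disjoint_left]
    intro v hv hv'
    exact absurd hv.2 (not_le.2 hv'.1)
  have h3 : ∫ v in Ioc (1 : ℝ) 25, ‖gf S a v‖ ^ 2 ≤
      ∫ v in Ioc (1 : ℝ) 25, 625 * (v ^ (-2 : ℤ) * ‖gf S a v‖ ^ 2) :=
    setIntegral_mono_on hK hr measurableSet_Ioc hle
  have h4 : ∫ v in Ioc (1 : ℝ) 25, 625 * (v ^ (-2 : ℤ) * ‖gf S a v‖ ^ 2) ≤
      ∫ v in Ioi (1 : ℝ), 625 * (v ^ (-2 : ℤ) * ‖gf S a v‖ ^ 2) := by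
    refine setIntegral_mono_set (q1.const_mul _) ?_ Ioc_subset_Ioi_self.eventuallyLE
    refine (ae_restrict_iff' measurableSet_Ioi).2 (Eventually.of_forall fun v hv => ?_)
    have hv0 : (0 : ℝ) < v := zero_lt_one.trans hv
    have := hnn v
    show 0 ≤ 625 * (v ^ (-2 : ℤ) * ‖gf S a v‖ ^ 2)
    positivity
  have h5 : ∫ v in Ioi (1 : ℝ), 625 * (v ^ (-2 : ℤ) * ‖gf S a v‖ ^ 2) =
      625 * ∑ i ∈ S, ∑ j ∈ S, 1 / (1 + (a i - a j) ^ 2) := by
    rw [integral_const_mul, q2]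
  rw [h2, p2] at h1
  linarith

end R24_aux

open R24_aux in
theorem iR24 (hS2 : StS2) : StR24 := by
  obtain ⟨C, hC, H⟩ := hS2
  refine ⟨626 * C, by linarith, fun W hW => ⟨?_, ?_⟩⟩
  · have h1 : ∫ v in JI, ‖Rh W v‖ ^ 2 ≤ 626 * ∑ s ∈ W, ∑ t ∈ W, 1 / (1 + (s - t) ^ 2) :=
      gen W (fun t => t)
    refine h1.trans ?_
    have h2 : ∑ s ∈ W, ∑ t ∈ W, 1 / (1 + (s - t) ^ 2) ≤ ∑ s ∈ W, C :=
      Finset.sum_le_sum fun s _ => (H W hW).1 s
    rw [Finset.sum_const, nsmul_eq_mul] at h2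
    nlinarith
  · have h1 : ∫ v in JI, ‖Rh W v‖ ^ 4 = ∫ v in JI, ‖gf (W ×ˢ W) (fun p => p.1 + p.2) v‖ ^ 2 := by
      refine setIntegral_congr_fun measurableSet_Icc fun v hv => ?_
      have hv' : 1 / 25 ≤ v ∧ v ≤ 25 := hv
      have hv0 : 0 < v := lt_of_lt_of_le (by norm_num) hv'.1
      have h0 : (v : ℂ) ≠ 0 := Complex.ofReal_ne_zero.2 hv0.ne'
      have h2 : gf (W ×ˢ W) (fun p => p.1 + p.2) v = Rh W v ^ 2 := by
        unfold gf Rh
        rw [sq, Finset.sum_mul_sum, Finset.sum_product]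
        refine Finset.sum_congr rfl fun s _ => Finset.sum_congr rfl fun t _ => ?_
        rw [← Complex.cpow_add _ _ h0]
        congr 1
        push_cast
        ring
      show ‖Rh W v‖ ^ 4 = ‖gf (W ×ˢ W) (fun p => p.1 + p.2) v‖ ^ 2
      rw [h2, norm_pow]
      ring
    rw [h1]
    refine (gen (W ×ˢ W) (fun p => p.1 + p.2)).trans ?_
    have h3 : ∑ i ∈ W ×ˢ W, ∑ j ∈ W ×ˢ W, 1 / (1 + ((i.1 + i.2) - (j.1 + j.2)) ^ 2) = EN W := by
      unfold EN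
      rw [Finset.sum_product]
      refine Finset.sum_congr rfl fun t1 _ => Finset.sum_congr rfl fun t2 _ => ?_
      rw [Finset.sum_product]
      refine Finset.sum_congr rfl fun t3 _ => Finset.sum_congr rfl fun t4 _ => ?_
      congr 3
      ring
    rw [h3]
    have h4 : 0 ≤ EN W := by
      unfold EN
      refine Finset.sum_nonneg fun _ _ => Finset.sum_nonneg fun _ _ => Finset.sum_nonneg fun _ _ =>
        Finset.sum_nonneg fun _ _ => by positivity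
    nlinarith

end Pool.Agent.Work.MP_56b8f5_nt.UC
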