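import Mathlib
import Pool.Agent.Work.MP_56b8f5_nt.UC.Stmts
import Pool.Agent.Work.MP_56b8f5_nt.UC.I_Ow

/-!
MP_56b8f5_nt, block UC, item Rf: reflection.  Author: helper79.
-/

open MeasureTheory Set Filter Topology

noncomputable section

namespace Pool.Agent.Work.MP_56b8f5_nt.UC

open Pool.Agent.Work.MP_56b8f5_nt.UB (ee om)

namespace Rf_aux

lemma tele (N D : ℝ) (hN : 0 < N) (hD : 0 < D) (n : ℕ) :
    ∑ h ∈ Finset.range n, N / (((h : ℝ) + 1) * N + D) ^ 2 ≤ 1 / D - 1 / ((n : ℝ) * N + D) := by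
  induction n with
  | zero => simp
  | succ n ih =>
    rw [Finset.sum_range_succ]
    have h1 : 0 < (n : ℝ) * N + D := by positivity
    have h2 : 0 < ((n : ℝ) + 1) * N + D := by positivity
    have h3 : N / (((n : ℝ) + 1) * N + D) ^ 2 ≤
        1 / ((n : ℝ) * N + D) - 1 / (((n : ℝ) + 1) * N + D) := by
      rw [div_sub_div _ _ h1.ne' h2.ne', div_le_div_iff₀ (by positivity) (by positivity)]
      have h4 : 1 * (((n : ℝ) + 1) * N + D) - ((n : ℝ) * N + D) * 1 = N := by ring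
      rw [h4]
      have h5 : ((n : ℝ) * N + D) * (((n : ℝ) + 1) * N + D) ≤ (((n : ℝ) + 1) * N + D) ^ 2 := by
        rw [sq]
        exact mul_le_mul_of_nonneg_right (by linarith) h2.le
      exact mul_le_mul_of_nonneg_left h5 hN.le
    push_cast
    linarith

lemma tele' (N D : ℝ) (hN : 0 < N) (hD : 0 < D) (n : ℕ) :
    ∑ h ∈ Finset.range n, N / (((h : ℝ) + 1) * N + D) ^ 2 ≤ 1 / D := by
  have h := tele N D hN hD n
  have h2 : 0 ≤ 1 / ((n : ℝ) * N + D) := by positivity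
  linarith

/-- a sum dominated by the telescoping sum -/
lemma tsum_bound (N D C : ℝ) (hN : 0 < N) (hD : 0 < D) (hC : 0 ≤ C) (g : ℕ → ℂ)
    (hg : ∀ h : ℕ, ‖g h‖ ≤ C * N / (((h : ℝ) + 1) * N + D) ^ 2) :
    ‖∑' h, g h‖ ≤ C / D := by
  have hb : ∀ n : ℕ, ∑ h ∈ Finset.range n, C * N / (((h : ℝ) + 1) * N + D) ^ 2 ≤ C / D := by
    intro n
    have h1 : ∑ h ∈ Finset.range n, C * N / (((h : ℝ) + 1) * N + D) ^ 2 =
        C * ∑ h ∈ Finset.range n, N / (((h : ℝ) + 1) * N + D) ^ 2 := by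
      rw [Finset.mul_sum]
      exact Finset.sum_congr rfl fun h _ => by rw [mul_div_assoc]
    rw [h1]
    calc C * ∑ h ∈ Finset.range n, N / (((h : ℝ) + 1) * N + D) ^ 2 ≤ C * (1 / D) :=
          mul_le_mul_of_nonneg_left (tele' N D hN hD n) hC
      _ = C / D := by ring
  have hnn : ∀ h : ℕ, 0 ≤ C * N / (((h : ℝ) + 1) * N + D) ^ 2 := fun h => by positivity
  have hs : Summable fun h : ℕ => C * N / (((h : ℝ) + 1) * N + D) ^ 2 :=
    summable_of_sum_range_le hnn hb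
  calc ‖∑' h, g h‖ ≤ ∑' h : ℕ, C * N / (((h : ℝ) + 1) * N + D) ^ 2 :=
        tsum_of_norm_bounded hs.hasSum hg
    _ ≤ C / D := Real.tsum_le_of_sum_range_le hnn hb

/-- a weight with values in `[0,1]` which is `1` on `[c1, c3]` -/
lemma exists_wt (c1 c3 : ℝ) (h1 : 0 < c1) (h3 : c1 < c3) :
    ∃ u1 : ℝ → ℝ, IsWt u1 ∧ (∀ x, 0 ≤ u1 x) ∧ (∀ x, u1 x ≤ 1) ∧
      ∀ x, c1 ≤ x → x ≤ c3 → u1 x = 1 := by
  let B : ContDiffBump ((c1 + c3) / 2 : ℝ) :=
    ⟨(c3 - c1) / 2, (c3 - c1) / 2 + c1 / 2, by linarith, by linarith⟩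
  refine ⟨fun x => B x, ⟨B.contDiff, c1 / 2, c3 + c1 / 2, by linarith, by linarith, ?_⟩,
    fun x => B.nonneg, fun x => B.le_one, ?_⟩
  · intro x hx
    have h4 : dist x ((c1 + c3) / 2) < B.rOut := by
      by_contra h
      exact hx (B.zero_of_le_dist (not_lt.mp h))
    rw [Real.dist_eq, abs_lt] at h4
    have h5 : B.rOut = (c3 - c1) / 2 + c1 / 2 := rfl
    rw [h5] at h4
    constructor <;> linarith [h4.1, h4.2]
  · intro x hx1 hx2
    apply B.one_of_mem_closedBall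
    rw [Metric.mem_closedBall, Real.dist_eq]
    change |x - (c1 + c3) / 2| ≤ (c3 - c1) / 2
    rw [abs_le]
    constructor <;> linarith

lemma block_eq (u1 : ℝ → ℝ) (M : ℝ) (hM : 0 < M) (H : ℕ) (h0 : u1 0 = 0)
    (hH : ∀ h : ℕ, H ≤ h → u1 (((h : ℝ) + 1) / M) = 0) (x : ℝ) :
    ∑ h ∈ Finset.range H, ((u1 (((h : ℝ) + 1) / M) : ℝ) : ℂ) *
      (((h + 1 : ℕ) : ℂ)) ^ (-1 + (x : ℂ) * Complex.I) =
      ((M⁻¹ : ℝ) : ℂ) * Bl (fun z => u1 z * z ^ (-1 : ℝ)) M (-x) := by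
  unfold Bl
  rw [tsum_eq_sum (s := Finset.range (H + 1)), Finset.sum_range_succ']
  · have hz : (((fun z => u1 z * z ^ (-1 : ℝ)) (((0 : ℕ) : ℝ) / M) : ℝ) : ℂ) = 0 := by
      simp [h0]
    rw [hz, zero_mul, add_zero, Finset.mul_sum]
    refine Finset.sum_congr rfl fun h _ => ?_
    have hh : (0 : ℝ) < (h : ℝ) + 1 := by positivity
    have hh' : (((h + 1 : ℕ) : ℂ)) ≠ 0 := by exact_mod_cast Nat.succ_ne_zero h
    have h1 : (((h + 1 : ℕ) : ℂ)) ^ (-1 + (x : ℂ) * Complex.I) =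
        ((((h : ℝ) + 1)⁻¹ : ℝ) : ℂ) * (((h + 1 : ℕ) : ℂ)) ^ ((x : ℂ) * Complex.I) := by
      rw [Complex.cpow_add _ _ hh', Complex.cpow_neg_one]
      push_cast
      ring
    have h2 : (-(((-x : ℝ) : ℂ) * Complex.I)) = (x : ℂ) * Complex.I := by push_cast; ring
    rw [h1, h2]
    have h3 : ((fun z => u1 z * z ^ (-1 : ℝ)) (((h + 1 : ℕ) : ℝ) / M)) =
        u1 (((h : ℝ) + 1) / M) * (M / ((h : ℝ) + 1)) := by
      simp only
      rw [Real.rpow_neg_one, inv_div]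
      push_cast
      ring
    rw [h3]
    have h4 : M⁻¹ * (u1 (((h : ℝ) + 1) / M) * (M / ((h : ℝ) + 1))) =
        u1 (((h : ℝ) + 1) / M) * ((h : ℝ) + 1)⁻¹ := by
      field_simp
    rw [← mul_assoc, ← mul_assoc, ← Complex.ofReal_mul, ← Complex.ofReal_mul, h4]
  · intro n hn
    rw [Finset.mem_range, not_lt] at hn
    obtain ⟨k, rfl⟩ : ∃ k, n = k + 1 := ⟨n - 1, by omega⟩
    have hk : H ≤ k := by omega
    have h5 := hH k hk
    have h6 : ((fun z => u1 z * z ^ (-1 : ℝ)) (((k + 1 : ℕ) : ℝ) / M)) = 0 := by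
      simp only
      push_cast
      rw [h5, zero_mul]
    rw [h6]
    simp

lemma continuous_gm : Continuous gm := by
  unfold gm
  refine Continuous.mul ?_ ?_
  · rw [continuous_iff_continuousAt]
    intro v
    have h1 : DifferentiableAt ℂ Complex.Gamma (1 - (v : ℂ) * Complex.I) := by
      apply Complex.differentiableAt_Gamma
      intro m hm
      have := congrArg Complex.re hm
      simp at this
      have hm0 : (0 : ℝ) ≤ m := Nat.cast_nonneg m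
      linarith
    exact ContinuousAt.comp (f := fun v : ℝ => (1 - (v : ℂ) * Complex.I)) h1.continuousAt
      (by fun_prop)
  · refine Continuous.const_cpow (by fun_prop) (Or.inl ?_)
    simp [Real.pi_ne_zero]

lemma integrable_one_add_pow (A : ℕ) (hA : 2 ≤ A) :
    Integrable fun y : ℝ => 1 / (1 + |y|) ^ A := by
  have h1 : Integrable fun y : ℝ => (1 + ‖y‖) ^ (-(A : ℝ)) := by
    apply integrable_one_add_norm
    simp
    exact_mod_cast (by omega : 1 < A)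
  refine h1.congr (Filter.Eventually.of_forall fun y => ?_)
  simp only [Real.norm_eq_abs]
  rw [Real.rpow_neg (by positivity), Real.rpow_natCast, one_div]

lemma norm_N (N : ℝ) (hN : 0 < N) (y : ℝ) : ‖(N : ℂ) ^ ((y : ℂ) * Complex.I)‖ = 1 := by
  rw [Complex.norm_cpow_eq_rpow_re_of_pos hN]
  simp

/-- the bound for the Gamma factor -/
lemma sqrt_bound (D t y : ℝ) (hD : 1 ≤ D) (ht0 : 0 ≤ t) (ht : t ≤ 2 * D) :
    Real.sqrt (1 + |t + y|) ≤ 2 * Real.sqrt D * (1 + |y|) := by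
  have hy : 0 ≤ |y| := abs_nonneg y
  have h1 : 1 + |t + y| ≤ 4 * D * (1 + |y|) ^ 2 := by
    have h2 : |t + y| ≤ t + |y| := by
      calc |t + y| ≤ |t| + |y| := abs_add_le t y
        _ = t + |y| := by rw [abs_of_nonneg ht0]
    have h3 : 1 + |t + y| ≤ 3 * D * (1 + |y|) := by nlinarith
    have h4 : 3 * D * (1 + |y|) ≤ 4 * D * (1 + |y|) ^ 2 := by
      have : 1 * (1 + |y|) ≤ (1 + |y|) * (1 + |y|) :=
        mul_le_mul_of_nonneg_right (by linarith) (by linarith)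
      nlinarith [mul_nonneg (by linarith : (0 : ℝ) ≤ D) (by linarith : (0 : ℝ) ≤ 1 + |y|)]
    linarith
  have h5 : 4 * D * (1 + |y|) ^ 2 = (2 * Real.sqrt D * (1 + |y|)) ^ 2 := by
    have : Real.sqrt D ^ 2 = D := Real.sq_sqrt (by linarith)
    calc 4 * D * (1 + |y|) ^ 2 = 4 * (Real.sqrt D ^ 2) * (1 + |y|) ^ 2 := by rw [this]
      _ = _ := by ring
  calc Real.sqrt (1 + |t + y|) ≤ Real.sqrt ((2 * Real.sqrt D * (1 + |y|)) ^ 2) :=
        Real.sqrt_le_sqrt (by rw [← h5]; exact h1)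
    _ = 2 * Real.sqrt D * (1 + |y|) := Real.sqrt_sq (by positivity)

lemma norm_Bl_neg (hBc : StBc) (u : ℝ → ℝ) (hu : IsWt u) (M x : ℝ) (hM : 0 < M) :
    ‖Bl u M (-x)‖ = ‖Bl u M x‖ := by
  rw [(hBc u hu).1 M x hM, Complex.norm_conj]

lemma integrable_Bl (hBc : StBc) (u : ℝ → ℝ) (hu : IsWt u) (M t : ℝ) (hM : 0 < M) (A : ℕ)
    (hA : 2 ≤ A) : Integrable fun y : ℝ => ‖Bl u M (t + y)‖ / (1 + |y|) ^ A := by
  obtain ⟨-, hc, -, C, -, hC, -⟩ := hBc u hu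
  have h1 : Integrable fun y : ℝ => (C * M) * (1 / (1 + |y|) ^ A) :=
    (integrable_one_add_pow A hA).const_mul _
  refine h1.mono' ?_ (Filter.Eventually.of_forall fun y => ?_)
  · refine Continuous.aestronglyMeasurable ?_
    refine Continuous.div ?_ (by fun_prop) (fun y => by positivity)
    exact ((hc M hM).comp (by fun_prop)).norm
  · rw [Real.norm_of_nonneg (by positivity)]
    calc ‖Bl u M (t + y)‖ / (1 + |y|) ^ A ≤ (C * M) / (1 + |y|) ^ A :=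
          div_le_div_of_nonneg_right (hC M (t + y) hM) (by positivity)
      _ = (C * M) * (1 / (1 + |y|) ^ A) := by ring

lemma main_term (w u1 : ℝ → ℝ) (hw : IsWt w) (hu1 : IsWt u1) (hMelc : Continuous (Om w)) (A : ℕ)
    (hA : 2 ≤ A) (Cm Cg : ℝ) (hCm0 : 1 ≤ Cm) (hCg0 : 1 ≤ Cg)
    (hCm : ∀ y : ℝ, ‖Om w y‖ ≤ Cm / (1 + |y|) ^ (A + 1))
    (hCg : ∀ v : ℝ, ‖gm v‖ ≤ Cg * Real.sqrt (1 + |v|))
    (hImf : StImf) (hBc : StBc) (N D t : ℝ) (hN : 0 < N) (hD : 1 ≤ D) (ht1 : D ≤ t)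
    (ht2 : t ≤ 2 * D) (H : ℕ) (hu0 : u1 0 = 0)
    (hH : ∀ h : ℕ, H ≤ h → u1 (((h : ℝ) + 1) / (D / N)) = 0) :
    ‖∑ h ∈ Finset.range H, ((u1 (((h : ℝ) + 1) / (D / N)) : ℝ) : ℂ) *
      Im w N t (-((h : ℤ) + 1))‖ ≤ Cm * Cg * (N / Real.sqrt D) *
        ∫ y : ℝ, ‖Bl (fun z => u1 z * z ^ (-1 : ℝ)) (D / N) (t + y)‖ / (1 + |y|) ^ A := by
  have hM : 0 < D / N := by positivity
  have hD0 : 0 < D := by linarith
  set M : ℝ := D / N with hMdef
  have hu : IsWt (fun z => u1 z * z ^ (-1 : ℝ)) := hu1.mul_rpow (-1)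
  set u : ℝ → ℝ := fun z => u1 z * z ^ (-1 : ℝ) with hudef
  set G : ℝ → ℂ := fun y => Om w y * (N : ℂ) ^ ((y : ℂ) * Complex.I) * gm (t + y) with hG
  set e : ℕ → ℝ → ℂ := fun h y => (((h + 1 : ℕ) : ℂ)) ^ (-1 + ((t + y : ℝ) : ℂ) * Complex.I) with he
  have hNC : (N : ℂ) ≠ 0 := by exact_mod_cast hN.ne'
  have hGc : Continuous G := by
    refine (hMelc.mul ?_).mul (continuous_gm.comp (by fun_prop))
    exact Continuous.const_cpow (by fun_prop) (Or.inl hNC)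
  have hec : ∀ h, Continuous (e h) := fun h =>
    Continuous.const_cpow (by fun_prop) (Or.inl (by exact_mod_cast Nat.succ_ne_zero h))
  have hGn : ∀ y, ‖G y‖ ≤ 2 * Cm * Cg * Real.sqrt D * (1 / (1 + |y|) ^ A) := by
    intro y
    have hy : 0 < 1 + |y| := by positivity
    have h1 : ‖G y‖ = ‖Om w y‖ * ‖gm (t + y)‖ := by
      simp only [hG]
      rw [norm_mul, norm_mul, norm_N N hN y, mul_one]
    rw [h1]
    have h2 : ‖gm (t + y)‖ ≤ Cg * (2 * Real.sqrt D * (1 + |y|)) :=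
      le_trans (hCg _) (mul_le_mul_of_nonneg_left (sqrt_bound D t y hD (by linarith) ht2)
        (by linarith))
    calc ‖Om w y‖ * ‖gm (t + y)‖ ≤
          (Cm / (1 + |y|) ^ (A + 1)) * (Cg * (2 * Real.sqrt D * (1 + |y|))) :=
          mul_le_mul (hCm y) h2 (norm_nonneg _) (by positivity)
      _ = 2 * Cm * Cg * Real.sqrt D * (1 / (1 + |y|) ^ A) := by
          rw [pow_succ]
          field_simp
  have hen : ∀ h y, ‖e h y‖ ≤ 1 := by
    intro h y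
    simp only [he]
    rw [Complex.norm_natCast_cpow_of_pos (Nat.succ_pos h)]
    have : (-1 + ((t + y : ℝ) : ℂ) * Complex.I).re = -1 := by simp
    rw [this, Real.rpow_neg_one]
    apply inv_le_one_of_one_le₀
    exact_mod_cast Nat.succ_le_succ (Nat.zero_le h)
  have hint : ∀ h, Integrable fun y => G y * e h y := by
    intro h
    refine ((integrable_one_add_pow A hA).const_mul (2 * Cm * Cg * Real.sqrt D)).mono'
      (hGc.mul (hec h)).aestronglyMeasurable (Filter.Eventually.of_forall fun y => ?_)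
    rw [norm_mul]
    calc ‖G y‖ * ‖e h y‖ ≤ ‖G y‖ * 1 := mul_le_mul_of_nonneg_left (hen h y) (norm_nonneg _)
      _ = ‖G y‖ := mul_one _
      _ ≤ _ := hGn y
  have hIm : ∀ h : ℕ, Im w N t (-((h : ℤ) + 1)) =
      ((1 / (2 * Real.pi) : ℝ) : ℂ) * ∫ y : ℝ, G y * e h y := by
    intro h
    have h1 := hImf w hw N t (h + 1) hN (by omega)
    have h2 : (-(((h + 1 : ℕ)) : ℤ)) = -((h : ℤ) + 1) := by push_cast; ring
    rw [h2] at h1
    rw [h1]
    congr 1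
    refine integral_congr_ae (Filter.Eventually.of_forall fun y => ?_)
    simp only [hG, he]
    push_cast
    ring_nf
  have hsum : ∑ h ∈ Finset.range H, ((u1 (((h : ℝ) + 1) / M) : ℝ) : ℂ) *
      Im w N t (-((h : ℤ) + 1)) = ((1 / (2 * Real.pi) : ℝ) : ℂ) *
        ∫ y : ℝ, G y * (((M⁻¹ : ℝ) : ℂ) * Bl u M (-(t + y))) := by
    have h1 : ∀ h ∈ Finset.range H, ((u1 (((h : ℝ) + 1) / M) : ℝ) : ℂ) *
        Im w N t (-((h : ℤ) + 1)) = ((1 / (2 * Real.pi) : ℝ) : ℂ) *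
          ∫ y : ℝ, ((u1 (((h : ℝ) + 1) / M) : ℝ) : ℂ) * (G y * e h y) := by
      intro h _
      rw [hIm h, MeasureTheory.integral_const_mul]
      ring
    rw [Finset.sum_congr rfl h1, ← Finset.mul_sum, ← integral_finset_sum]
    · congr 1
      refine integral_congr_ae (Filter.Eventually.of_forall fun y => ?_)
      simp only
      rw [← block_eq u1 M hM H hu0 hH (t + y), Finset.mul_sum]
      refine Finset.sum_congr rfl fun h _ => ?_
      simp only [he]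
      ring
    · intro h _
      exact (hint h).const_mul _
  rw [hsum, norm_mul]
  have hpi : (0 : ℝ) < 2 * Real.pi := by positivity
  have hB : ‖∫ y : ℝ, G y * (((M⁻¹ : ℝ) : ℂ) * Bl u M (-(t + y)))‖ ≤
      ∫ y : ℝ, (2 * Cm * Cg * Real.sqrt D * M⁻¹) * (‖Bl u M (t + y)‖ / (1 + |y|) ^ A) := by
    refine norm_integral_le_of_norm_le ((integrable_Bl hBc u hu M t hM A hA).const_mul _)
      (Filter.Eventually.of_forall fun y => ?_)
    have e1 : ‖G y * (((M⁻¹ : ℝ) : ℂ) * Bl u M (-(t + y)))‖ =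
        ‖G y‖ * (M⁻¹ * ‖Bl u M (t + y)‖) := by
      rw [norm_mul (G y), norm_mul ((M⁻¹ : ℝ) : ℂ), norm_Bl_neg hBc u hu M (t + y) hM,
        Complex.norm_real, Real.norm_of_nonneg (by positivity : (0 : ℝ) ≤ M⁻¹)]
    rw [e1]
    calc ‖G y‖ * (M⁻¹ * ‖Bl u M (t + y)‖) ≤
          (2 * Cm * Cg * Real.sqrt D * (1 / (1 + |y|) ^ A)) * (M⁻¹ * ‖Bl u M (t + y)‖) :=
          mul_le_mul_of_nonneg_right (hGn y) (by positivity)
      _ = _ := by ring
  rw [MeasureTheory.integral_const_mul] at hB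
  have hI : 0 ≤ ∫ y : ℝ, ‖Bl u M (t + y)‖ / (1 + |y|) ^ A :=
    integral_nonneg fun y => by positivity
  have hsq : Real.sqrt D * M⁻¹ = N / Real.sqrt D := by
    rw [hMdef, inv_div]
    have h1 : Real.sqrt D * Real.sqrt D = D := Real.mul_self_sqrt hD0.le
    have h2 : 0 < Real.sqrt D := Real.sqrt_pos.mpr hD0
    field_simp
    nlinarith [h1]
  have hn : ‖((1 / (2 * Real.pi) : ℝ) : ℂ)‖ = 1 / (2 * Real.pi) := by
    rw [Complex.norm_real, Real.norm_of_nonneg (by positivity)]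
  rw [hn]
  have h3 : 1 / (2 * Real.pi) * 2 ≤ 1 := by
    rw [div_mul_eq_mul_div, div_le_one hpi]
    nlinarith [Real.pi_gt_three]
  calc 1 / (2 * Real.pi) * ‖∫ y : ℝ, G y * (((M⁻¹ : ℝ) : ℂ) * Bl u M (-(t + y)))‖ ≤
        1 / (2 * Real.pi) * ((2 * Cm * Cg * Real.sqrt D * M⁻¹) *
          ∫ y : ℝ, ‖Bl u M (t + y)‖ / (1 + |y|) ^ A) :=
        mul_le_mul_of_nonneg_left hB (by positivity)
    _ = (1 / (2 * Real.pi) * 2) * (Cm * Cg * (Real.sqrt D * M⁻¹) *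
          ∫ y : ℝ, ‖Bl u M (t + y)‖ / (1 + |y|) ^ A) := by ring
    _ ≤ 1 * (Cm * Cg * (Real.sqrt D * M⁻¹) *
          ∫ y : ℝ, ‖Bl u M (t + y)‖ / (1 + |y|) ^ A) :=
        mul_le_mul_of_nonneg_right h3 (by positivity)
    _ = Cm * Cg * (N / Real.sqrt D) * ∫ y : ℝ, ‖Bl u M (t + y)‖ / (1 + |y|) ^ A := by
        rw [one_mul, hsq]

lemma case_pos (w u1 : ℝ → ℝ) (hw : IsWt w) (hu1 : IsWt u1) (hMelc : Continuous (Om w)) (A : ℕ)
    (hA : 2 ≤ A) (Cm Cg C0 Cn c1 c2 : ℝ) (hCm0 : 1 ≤ Cm) (hCg0 : 1 ≤ Cg) (hC00 : 1 ≤ C0)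
    (hCn0 : 1 ≤ Cn) (hc1 : 0 < c1) (hc12 : c1 < c2)
    (hCm : ∀ y : ℝ, ‖Om w y‖ ≤ Cm / (1 + |y|) ^ (A + 1))
    (hCg : ∀ v : ℝ, ‖gm v‖ ≤ Cg * Real.sqrt (1 + |v|))
    (hN0 : ∀ N t : ℝ, 0 < N → ‖Im w N t 0‖ ≤ C0 * N / (1 + |t|) ^ A)
    (hNs : ∀ (N t : ℝ) (m : ℤ), 0 < N → m ≠ 0 →
      ¬ (c1 * |t| ≤ |(m : ℝ)| * N ∧ |(m : ℝ)| * N ≤ c2 * |t| ∧ (m : ℝ) * t < 0) →
      ‖Im w N t m‖ ≤ Cn * N / (|(m : ℝ)| * N + |t|) ^ 2)
    (hu01 : ∀ x, 0 ≤ u1 x) (hu11 : ∀ x, u1 x ≤ 1) (hu1c : ∀ x, c1 ≤ x → x ≤ 2 * c2 → u1 x = 1)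
    (hImf : StImf) (hPo : StPo) (hBc : StBc) (N D t : ℝ) (hN : 0 < N) (hD : 1 ≤ D) (ht1 : D ≤ t)
    (ht2 : t ≤ 2 * D) :
    ‖Bl w N t‖ ≤ Cm * Cg * (N / Real.sqrt D) *
        (∫ y : ℝ, ‖Bl (fun z => u1 z * z ^ (-1 : ℝ)) (D / N) (t + y)‖ / (1 + |y|) ^ A) +
      2 * Cn / D + C0 * N / D ^ A := by
  have hD0 : 0 < D := by linarith
  have ht0 : 0 < t := by linarith
  have hM : 0 < D / N := by positivity
  obtain ⟨hsum, hval⟩ := hPo w hw N t hN
  obtain ⟨a, b, ha, hab, hsupp⟩ := hu1.supp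
  set f : ℤ → ℂ := fun m => Im w N t m with hf
  have hS : Summable f := hsum.of_norm
  have hpos : Summable (fun n : ℕ => f (n : ℤ)) := hS.comp_injective Nat.cast_injective
  have hneg : Summable (fun n : ℕ => f (-((n : ℤ) + 1))) :=
    hS.comp_injective (fun x y h => by simpa using h)
  have hsplit : Bl w N t = f 0 + (∑' n : ℕ, f ((n : ℤ) + 1)) + ∑' n : ℕ, f (-((n : ℤ) + 1)) := by
    rw [hval]
    rw [tsum_of_nat_of_neg_add_one hpos hneg, hpos.tsum_eq_zero_add]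
    push_cast
    rfl
  -- the term 0
  have hP0 : ‖f 0‖ ≤ C0 * N / D ^ A := by
    refine le_trans (hN0 N t hN) ?_
    apply div_le_div_of_nonneg_left (by positivity) (by positivity)
    apply pow_le_pow_left₀ (by linarith)
    rw [abs_of_pos ht0]
    linarith
  -- nonstationary bound
  have hgen : ∀ (h : ℕ) (m : ℤ), |(m : ℝ)| = (h : ℝ) + 1 →
      ¬ (c1 * |t| ≤ |(m : ℝ)| * N ∧ |(m : ℝ)| * N ≤ c2 * |t| ∧ (m : ℝ) * t < 0) →
      ‖f m‖ ≤ Cn * N / (((h : ℝ) + 1) * N + D) ^ 2 := by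
    intro h m hm hns
    have hm0 : m ≠ 0 := by
      rintro rfl
      simp at hm
      have : (0 : ℝ) ≤ h := Nat.cast_nonneg h
      linarith
    refine le_trans (hNs N t m hN hm0 hns) ?_
    rw [hm, abs_of_pos ht0]
    apply div_le_div_of_nonneg_left (by positivity) (by positivity)
    apply pow_le_pow_left₀ (by positivity)
    linarith
  have hP1 : ‖∑' n : ℕ, f ((n : ℤ) + 1)‖ ≤ Cn / D := by
    refine tsum_bound N D Cn hN hD0 (by linarith) _ fun h => ?_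
    have habs : |(((h : ℤ) + 1 : ℤ) : ℝ)| = (h : ℝ) + 1 := by
      push_cast
      exact abs_of_pos (by positivity)
    refine hgen h ((h : ℤ) + 1) habs ?_
    rintro ⟨-, -, h3⟩
    have : (0 : ℝ) < (((h : ℤ) + 1 : ℤ) : ℝ) * t := by
      push_cast
      positivity
    linarith
  set χ : ℕ → ℝ := fun h => u1 (((h : ℝ) + 1) / (D / N)) with hχ
  set H : ℕ := ⌈b * (D / N)⌉₊ with hHdef
  have hH : ∀ h : ℕ, H ≤ h → u1 (((h : ℝ) + 1) / (D / N)) = 0 := by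
    intro h hh
    by_contra hne
    have h1 := (hsupp _ hne).2
    rw [div_le_iff₀ hM] at h1
    have h2 : b * (D / N) ≤ (H : ℝ) := Nat.le_ceil _
    have h3 : (H : ℝ) ≤ h := by exact_mod_cast hh
    linarith
  have hu0 : u1 0 = 0 := by
    by_contra hne
    linarith [(hsupp 0 hne).1]
  -- the stationary terms
  have hsA : Summable (fun h : ℕ => ((χ h : ℝ) : ℂ) * f (-((h : ℤ) + 1))) := by
    refine summable_of_ne_finset_zero (s := Finset.range H) fun h hh => ?_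
    rw [Finset.mem_range, not_lt] at hh
    have : χ h = 0 := hH h hh
    rw [this]
    simp
  have hsB : Summable (fun h : ℕ => ((1 - χ h : ℝ) : ℂ) * f (-((h : ℤ) + 1))) := by
    refine (hneg.sub hsA).congr fun h => ?_
    push_cast
    ring
  have hAB : ∑' h : ℕ, f (-((h : ℤ) + 1)) =
      (∑' h : ℕ, ((χ h : ℝ) : ℂ) * f (-((h : ℤ) + 1))) +
        ∑' h : ℕ, ((1 - χ h : ℝ) : ℂ) * f (-((h : ℤ) + 1)) := by
    rw [← hsA.tsum_add hsB]
    refine tsum_congr fun h => ?_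
    push_cast
    ring
  have hA' : ∑' h : ℕ, ((χ h : ℝ) : ℂ) * f (-((h : ℤ) + 1)) =
      ∑ h ∈ Finset.range H, ((u1 (((h : ℝ) + 1) / (D / N)) : ℝ) : ℂ) *
        Im w N t (-((h : ℤ) + 1)) := by
    rw [tsum_eq_sum (s := Finset.range H)]
    intro h hh
    rw [Finset.mem_range, not_lt] at hh
    have : χ h = 0 := hH h hh
    rw [this]
    simp
  have hPA := main_term w u1 hw hu1 hMelc A hA Cm Cg hCm0 hCg0 hCm hCg hImf hBc N D t hN hD ht1
    ht2 H hu0 hH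
  have hPB : ‖∑' h : ℕ, ((1 - χ h : ℝ) : ℂ) * f (-((h : ℤ) + 1))‖ ≤ Cn / D := by
    refine tsum_bound N D Cn hN hD0 (by linarith) _ fun h => ?_
    by_cases hx : χ h = 1
    · rw [hx, sub_self, Complex.ofReal_zero, zero_mul, norm_zero]
      positivity
    · have habs : |((-((h : ℤ) + 1) : ℤ) : ℝ)| = (h : ℝ) + 1 := by
        push_cast
        rw [abs_neg]
        exact abs_of_pos (by positivity)
      have h1 : ‖f (-((h : ℤ) + 1))‖ ≤ Cn * N / (((h : ℝ) + 1) * N + D) ^ 2 := by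
        refine hgen h (-((h : ℤ) + 1)) habs ?_
        rintro ⟨h2, h3, -⟩
        rw [habs, abs_of_pos ht0] at h2 h3
        apply hx
        apply hu1c
        · rw [le_div_iff₀ hM, mul_div_assoc', div_le_iff₀ hN]
          nlinarith
        · rw [div_le_iff₀ hM, mul_div_assoc', le_div_iff₀ hN]
          nlinarith
      have hχ1 : χ h ≤ 1 := hu11 _
      have hχ0 : 0 ≤ χ h := hu01 _
      rw [norm_mul, Complex.norm_real, Real.norm_of_nonneg (by linarith)]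
      have h4 : 1 - χ h ≤ 1 := by linarith
      calc (1 - χ h) * ‖f (-((h : ℤ) + 1))‖ ≤ 1 * ‖f (-((h : ℤ) + 1))‖ :=
            mul_le_mul_of_nonneg_right h4 (norm_nonneg _)
        _ ≤ _ := by rw [one_mul]; exact h1
  rw [hsplit, hAB, hA']
  set I : ℝ := Cm * Cg * (N / Real.sqrt D) *
    ∫ y : ℝ, ‖Bl (fun z => u1 z * z ^ (-1 : ℝ)) (D / N) (t + y)‖ / (1 + |y|) ^ A with hI
  set SA : ℂ := ∑ h ∈ Finset.range H, ((u1 (((h : ℝ) + 1) / (D / N)) : ℝ) : ℂ) *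
        Im w N t (-((h : ℤ) + 1)) with hSA
  set SB : ℂ := ∑' h : ℕ, ((1 - χ h : ℝ) : ℂ) * f (-((h : ℤ) + 1)) with hSB
  set S1 : ℂ := ∑' n : ℕ, f ((n : ℤ) + 1) with hS1
  have h5 : ‖f 0 + S1 + (SA + SB)‖ ≤ ‖f 0‖ + ‖S1‖ + (‖SA‖ + ‖SB‖) := by
    refine le_trans (norm_add_le _ _) ?_
    exact add_le_add (norm_add_le _ _) (norm_add_le _ _)
  have h6 : 2 * Cn / D = Cn / D + Cn / D := by ring
  rw [h6]
  linarith

end Rf_aux

open Rf_aux in
/-- ITEM Rf. -/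
theorem iRf (hMel : StMel) (hGam : StGam) (hImf : StImf) (hNs : StNs) (hN0 : StN0) (hPo : StPo)
    (hBc : StBc) : StRf := by
  intro w hw
  obtain ⟨hMelc, hMelb, -⟩ := hMel w hw
  obtain ⟨Cg, hCg0, hCg⟩ := hGam
  obtain ⟨c1, c2, Cn, hc1, hc12, hCn0, hCn⟩ := hNs w hw
  obtain ⟨u1, hu1, hu01, hu11, hu1c⟩ := exists_wt c1 (2 * c2) hc1 (by linarith)
  refine ⟨fun z => u1 z * z ^ (-1 : ℝ), hu1.mul_rpow (-1), fun A hA => ?_⟩
  obtain ⟨Cm, hCm0, hCm⟩ := hMelb (A + 1)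
  obtain ⟨C0, hC00, hC0⟩ := hN0 w hw A
  refine ⟨Cm * Cg + 2 * Cn + C0, by nlinarith, fun N D t hN hD ht1 ht2 => ?_⟩
  have hu : IsWt (fun z => u1 z * z ^ (-1 : ℝ)) := hu1.mul_rpow (-1)
  have hD0 : 0 < D := by linarith
  have hM : 0 < D / N := by positivity
  have key : ∀ s : ℝ, D ≤ s → s ≤ 2 * D → ‖Bl w N s‖ ≤ (Cm * Cg + 2 * Cn + C0) * (N / Real.sqrt D) *
        (∫ y : ℝ, ‖Bl (fun z => u1 z * z ^ (-1 : ℝ)) (D / N) (s + y)‖ / (1 + |y|) ^ A) +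
      (Cm * Cg + 2 * Cn + C0) / D + (Cm * Cg + 2 * Cn + C0) * N / D ^ A := by
    intro s hs1 hs2
    have h1 := case_pos w u1 hw hu1 hMelc A hA Cm Cg C0 Cn c1 c2 hCm0 hCg0 hC00 hCn0 hc1 hc12 hCm
      (fun v => (hCg v).2) hC0 hCn hu01 hu11 hu1c hImf hPo hBc N D s hN hD hs1 hs2
    have hI : 0 ≤ ∫ y : ℝ, ‖Bl (fun z => u1 z * z ^ (-1 : ℝ)) (D / N) (s + y)‖ / (1 + |y|) ^ A :=
      integral_nonneg fun y => by positivity
    have hmg : 1 ≤ Cm * Cg := by nlinarith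
    have h2 : Cm * Cg * (N / Real.sqrt D) *
        (∫ y : ℝ, ‖Bl (fun z => u1 z * z ^ (-1 : ℝ)) (D / N) (s + y)‖ / (1 + |y|) ^ A) ≤
        (Cm * Cg + 2 * Cn + C0) * (N / Real.sqrt D) *
        (∫ y : ℝ, ‖Bl (fun z => u1 z * z ^ (-1 : ℝ)) (D / N) (s + y)‖ / (1 + |y|) ^ A) := by
      apply mul_le_mul_of_nonneg_right _ hI
      exact mul_le_mul_of_nonneg_right (by linarith) (by positivity)
    have h3 : 2 * Cn / D ≤ (Cm * Cg + 2 * Cn + C0) / D :=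
      div_le_div_of_nonneg_right (by linarith) hD0.le
    have h4 : C0 * N / D ^ A ≤ (Cm * Cg + 2 * Cn + C0) * N / D ^ A :=
      div_le_div_of_nonneg_right (mul_le_mul_of_nonneg_right (by linarith) hN.le) (by positivity)
    linarith
  rcases le_or_gt 0 t with ht | ht
  · rw [abs_of_nonneg ht] at ht1 ht2
    exact key t ht1 ht2
  · rw [abs_of_neg ht] at ht1 ht2
    have h1 := key (-t) ht1 ht2
    rw [norm_Bl_neg hBc w hw N t hN] at h1
    have h2 : (∫ y : ℝ, ‖Bl (fun z => u1 z * z ^ (-1 : ℝ)) (D / N) (-t + y)‖ / (1 + |y|) ^ A) =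
        ∫ y : ℝ, ‖Bl (fun z => u1 z * z ^ (-1 : ℝ)) (D / N) (t + y)‖ / (1 + |y|) ^ A := by
      rw [← integral_neg_eq_self]
      refine integral_congr_ae (Filter.Eventually.of_forall fun y => ?_)
      simp only
      have h3 : -t + -y = -(t + y) := by ring
      rw [h3, norm_Bl_neg hBc _ hu (D / N) (t + y) hM, abs_neg]
    rw [h2] at h1
    exact h1

end Pool.Agent.Work.MP_56b8f5_nt.UC
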