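import Pool.Agent.Work.MP_56b8f5_nt.UC.Stmts

/-!
MP_56b8f5_nt, block UC, item Rq: reflection for moments.
-/

open MeasureTheory Set Filter Topology

noncomputable section

namespace Pool.Agent.Work.MP_56b8f5_nt.UC

namespace Rq_aux

/-- Young inequality in the form needed for Jensen -/
lemma young (q : ℕ) (h m : ℝ) (hh : 0 ≤ h) (hm : 0 ≤ m) :
    ((q : ℝ) + 1) * m ^ q * h ≤ h ^ (q + 1) + q * m ^ (q + 1) := by
  induction q with
  | zero => simp
  | succ q ih =>
    have h1 := mul_le_mul_of_nonneg_left ih hh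
    have h2 : 0 ≤ ((q : ℝ) + 1) * m ^ q * (m - h) ^ 2 := by positivity
    push_cast
    have e1 : h ^ (q + 1 + 1) = h * h ^ (q + 1) := by ring
    have e2 : m ^ (q + 1 + 1) = m ^ q * m ^ 2 := by ring
    have e3 : m ^ (q + 1) = m ^ q * m := by ring
    rw [e1, e2, e3]
    rw [e3] at h1
    nlinarith [h1, h2]

lemma jensen (q : ℕ) (k h : ℝ → ℝ) (P : ℝ) (hk0 : ∀ y, 0 ≤ k y) (hk : Integrable k)
    (hkP : ∫ y, k y ≤ P) (hP : 0 < P) (h0 : ∀ y, 0 ≤ h y)
    (hi1 : Integrable fun y => h y * k y) (hi2 : Integrable fun y => h y ^ (q + 1) * k y) :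
    (∫ y, h y * k y) ^ (q + 1) ≤ P ^ q * ∫ y, h y ^ (q + 1) * k y := by
  set S := ∫ y, h y * k y with hS
  have hS0 : 0 ≤ S := integral_nonneg fun y => mul_nonneg (h0 y) (hk0 y)
  set m := S / P with hm
  have hm0 : 0 ≤ m := div_nonneg hS0 hP.le
  have hSm : S = m * P := by rw [hm]; field_simp
  have h1 : ∫ y, ((q : ℝ) + 1) * m ^ q * (h y * k y) ≤
      ∫ y, (h y ^ (q + 1) * k y + q * m ^ (q + 1) * k y) := by
    refine integral_mono (hi1.const_mul _) (hi2.add (hk.const_mul _)) (fun y => ?_)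
    have := mul_le_mul_of_nonneg_right (young q (h y) m (h0 y) hm0) (hk0 y)
    show ((q : ℝ) + 1) * m ^ q * (h y * k y) ≤ h y ^ (q + 1) * k y + q * m ^ (q + 1) * k y
    calc ((q : ℝ) + 1) * m ^ q * (h y * k y) = ((q : ℝ) + 1) * m ^ q * h y * k y := by ring
      _ ≤ (h y ^ (q + 1) + q * m ^ (q + 1)) * k y := this
      _ = _ := by ring
  rw [integral_const_mul, integral_add hi2 (hk.const_mul _), integral_const_mul, ← hS] at h1
  have h2 : (q : ℝ) * m ^ (q + 1) * ∫ y, k y ≤ q * m ^ q * S := by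
    calc (q : ℝ) * m ^ (q + 1) * ∫ y, k y ≤ (q : ℝ) * m ^ (q + 1) * P :=
          mul_le_mul_of_nonneg_left hkP (by positivity)
      _ = _ := by rw [hSm]; ring
  have h3 : m ^ q * S ≤ ∫ y, h y ^ (q + 1) * k y := by nlinarith [h1, h2]
  calc S ^ (q + 1) = P ^ q * (m ^ q * S) := by
        rw [hSm]; ring
    _ ≤ _ := mul_le_mul_of_nonneg_left h3 (by positivity)

/-- kernel `1/(1+|y|)^A` -/
def ke (A : ℕ) (y : ℝ) : ℝ := 1 / (1 + |y|) ^ A

lemma ke_nonneg (A : ℕ) (y : ℝ) : 0 ≤ ke A y := by unfold ke; positivity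

lemma ke_cont (A : ℕ) : Continuous (ke A) := by
  unfold ke
  apply Continuous.div continuous_const (by fun_prop)
  intro y; positivity

lemma ke_le (A : ℕ) (hA : 2 ≤ A) (y : ℝ) : ke A y ≤ (1 + y ^ 2)⁻¹ := by
  unfold ke
  rw [one_div]
  apply inv_anti₀ (by positivity)
  have h1 : (1 + |y|) ^ 2 ≤ (1 + |y|) ^ A :=
    pow_le_pow_right₀ (by linarith [abs_nonneg y]) hA
  have h2 : (1 + |y|) ^ 2 = 1 + 2 * |y| + y ^ 2 := by
    rw [add_sq, sq_abs]; ring
  have := abs_nonneg y
  linarith

lemma ke_int (A : ℕ) (hA : 2 ≤ A) : Integrable (ke A) := by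
  apply Integrable.mono' integrable_inv_one_add_sq (ke_cont A).aestronglyMeasurable
  filter_upwards with y
  rw [Real.norm_eq_abs, abs_of_nonneg (ke_nonneg A y)]
  exact ke_le A hA y

lemma ke_mass (A : ℕ) (hA : 2 ≤ A) : ∫ y, ke A y ≤ Real.pi := by
  rw [← integral_univ_inv_one_add_sq]
  exact integral_mono (ke_int A hA) integrable_inv_one_add_sq (ke_le A hA)

lemma mul_int (A : ℕ) (hA : 2 ≤ A) (h : ℝ → ℝ) (hc : Continuous h) (B : ℝ) (h0 : ∀ y, 0 ≤ h y)
    (hB : ∀ y, h y ≤ B) : Integrable fun y => h y * ke A y := by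
  have hcc : Continuous fun y => h y * ke A y := hc.mul (ke_cont A)
  apply Integrable.mono' ((ke_int A hA).const_mul B) hcc.aestronglyMeasurable
  filter_upwards with y
  rw [Real.norm_eq_abs, abs_of_nonneg (mul_nonneg (h0 y) (ke_nonneg A y))]
  exact mul_le_mul_of_nonneg_right (hB y) (ke_nonneg A y)

/-- the tail `|y| ≥ R` of the kernel with exponent `q+4+...` -/
lemma split (p : ℕ) (h : ℝ → ℝ) (hc : Continuous h) (B R : ℝ) (hR : 0 < R) (h0 : ∀ y, 0 ≤ h y)
    (hB : ∀ y, h y ≤ B) :
    ∫ y, h y * ke (p + 2) y ≤ (∫ y in (-R)..R, h y * ke (p + 2) y) + Real.pi * (B * (1 / R) ^ p) := by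
  have hB0 : 0 ≤ B := (h0 0).trans (hB 0)
  have hint : Integrable fun y => h y * ke (p + 2) y := mul_int (p + 2) (by omega) h hc B h0 hB
  have hle : (-R) ≤ R := by linarith
  have h1 : ∫ y, h y * ke (p + 2) y ≤
      ∫ y, ((Ioc (-R) R).indicator (fun y => h y * ke (p + 2) y) y + B * (1 / R) ^ p * (1 + y ^ 2)⁻¹) := by
    apply integral_mono hint
    · exact (hint.indicator measurableSet_Ioc).add (integrable_inv_one_add_sq.const_mul _)
    intro y
    simp only
    by_cases hy : y ∈ Ioc (-R) R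
    · rw [indicator_of_mem hy]
      have : 0 ≤ B * (1 / R) ^ p * (1 + y ^ 2)⁻¹ := by positivity
      linarith
    · rw [indicator_of_notMem hy, zero_add]
      have hRy : R ≤ |y| := by
        simp only [mem_Ioc, not_and_or, not_lt, not_le] at hy
        rcases hy with hy | hy
        · rw [le_abs]; right; linarith
        · rw [le_abs]; left; linarith
      have h2 : ke (p + 2) y ≤ (1 / R) ^ p * (1 + y ^ 2)⁻¹ := by
        have e1 : ke (p + 2) y = (1 / (1 + |y|)) ^ p * ke 2 y := by
          unfold ke; rw [pow_add, one_div_pow, one_div_mul_one_div]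
        rw [e1]
        apply mul_le_mul _ (ke_le 2 le_rfl y) (ke_nonneg 2 y) (by positivity)
        apply pow_le_pow_left₀ (by positivity)
        apply one_div_le_one_div_of_le hR
        linarith
      calc h y * ke (p + 2) y ≤ B * ((1 / R) ^ p * (1 + y ^ 2)⁻¹) :=
            mul_le_mul (hB y) h2 (ke_nonneg _ _) hB0
        _ = _ := by ring
  rw [integral_add (hint.indicator measurableSet_Ioc) (integrable_inv_one_add_sq.const_mul _),
    integral_indicator measurableSet_Ioc, integral_const_mul, integral_univ_inv_one_add_sq] at h1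
  rw [intervalIntegral.integral_of_le hle]
  linarith

/-- Fubini part -/
lemma fub (A : ℕ) (hA : 2 ≤ A) (g : ℝ → ℝ) (hc : Continuous g) (h0 : ∀ y, 0 ≤ g y) (T : ℝ) (hT : 0 < T) :
    ∫ t in T..(2 * T), ∫ y in (-(T / 4))..(T / 4), g (t + y) * ke A y ≤
      Real.pi * ∫ s in (3 / 4 * T)..(9 / 4 * T), g s := by
  have hsw : ∫ t in T..(2 * T), ∫ y in (-(T / 4))..(T / 4), g (t + y) * ke A y =
      ∫ y in (-(T / 4))..(T / 4), ∫ t in T..(2 * T), g (t + y) * ke A y := by
    apply intervalIntegral_intervalIntegral_swap (F := fun t y => g (t + y) * ke A y)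
    have hcont : Continuous (Function.uncurry fun t y => g (t + y) * ke A y) := by
      have := ke_cont A
      simp only [Function.uncurry_def]
      fun_prop
    refine (hcont.continuousOn.integrableOn_compact (K := uIcc T (2 * T) ×ˢ uIcc (-(T / 4)) (T / 4))
      (isCompact_uIcc.prod isCompact_uIcc)).mono_set ?_
    exact prod_mono uIoc_subset_uIcc uIoc_subset_uIcc
  rw [hsw]
  set G := ∫ s in (3 / 4 * T)..(9 / 4 * T), g s with hG
  have hle : -(T / 4) ≤ T / 4 := by linarith
  have hG0 : 0 ≤ G := intervalIntegral.integral_nonneg (by linarith) fun s _ => h0 s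
  have hinner : ∀ y ∈ Icc (-(T / 4)) (T / 4), ∫ t in T..(2 * T), g (t + y) * ke A y ≤ G * ke A y := by
    intro y hy
    rw [intervalIntegral.integral_mul_const, intervalIntegral.integral_comp_add_right (f := g)]
    apply mul_le_mul_of_nonneg_right _ (ke_nonneg A y)
    apply intervalIntegral.integral_mono_interval (by linarith [hy.1]) (by linarith) (by linarith [hy.2])
    · filter_upwards with s using h0 s
    · exact hc.intervalIntegrable _ _
  calc ∫ y in (-(T / 4))..(T / 4), ∫ t in T..(2 * T), g (t + y) * ke A y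
      ≤ ∫ y in (-(T / 4))..(T / 4), G * ke A y := by
        apply intervalIntegral.integral_mono_on hle _ _ hinner
        · apply Continuous.intervalIntegrable
          apply intervalIntegral.continuous_parametric_intervalIntegral_of_continuous'
          have := ke_cont A
          simp only [Function.uncurry_def]
          fun_prop
        · exact (continuous_const.mul (ke_cont A)).intervalIntegrable _ _
    _ = G * ∫ y in (-(T / 4))..(T / 4), ke A y := by rw [intervalIntegral.integral_const_mul]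
    _ ≤ G * Real.pi := by
        apply mul_le_mul_of_nonneg_left _ hG0
        rw [intervalIntegral.integral_of_le hle]
        refine le_trans ?_ (ke_mass A hA)
        exact setIntegral_le_integral (ke_int A hA) (by filter_upwards with y using ke_nonneg A y)
    _ = _ := by ring

end Rq_aux

open Rq_aux in
theorem iRq (hRf : StRf) (hBc : StBc) : StRq := by
  intro w hw
  obtain ⟨u, hu, hR⟩ := hRf w hw
  refine ⟨u, hu, ?_⟩
  intro q hq
  obtain ⟨C, hC1, hCb⟩ := hR (q + 4) (by omega)
  obtain ⟨-, hcont, -, Cu, hCu1, hCub, -⟩ := hBc u hu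
  obtain ⟨-, hcontw, -, -⟩ := hBc w hw
  have hpi : 0 < Real.pi := Real.pi_pos
  have hpi1 : 1 ≤ Real.pi := by linarith [Real.pi_gt_three]
  set K1 := 2 ^ q * (C ^ q * Real.pi ^ q) with hK1
  set K2 := K1 * (Cu ^ q * 4 ^ (q + 2)) + 2 ^ q * (2 * C) ^ q with hK2
  have hK10 : 0 ≤ K1 := by positivity
  have hK20 : 0 ≤ K2 := by positivity
  have hK1p : 0 ≤ K1 * Real.pi := by positivity
  refine ⟨K1 * Real.pi + K2 + 1, by linarith, ?_⟩
  intro T N hT hN hNT
  have hT0 : 0 < T := by linarith
  have hN0 : 0 < N := by linarith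
  have hM0 : 0 < T / N := by positivity
  set g : ℝ → ℝ := fun s => ‖Bl u (T / N) s‖ with hg
  have hgc : Continuous g := (hcont (T / N) hM0).norm
  have hg0 : ∀ s, 0 ≤ g s := fun s => norm_nonneg _
  have hgB : ∀ s, g s ≤ Cu * (T / N) := fun s => hCub (T / N) s hM0
  have hgq : Continuous fun s => g s ^ q := hgc.pow q
  set J : ℝ → ℝ := fun t => ∫ y in (-(T / 4))..(T / 4), g (t + y) ^ q * ke (q + 4) y with hJ
  have hJc : Continuous J := by
    rw [hJ]
    apply intervalIntegral.continuous_parametric_intervalIntegral_of_continuous'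
    have := ke_cont (q + 4)
    simp only [Function.uncurry_def]
    fun_prop
  set E := (Cu * (T / N)) ^ q * (1 / (T / 4)) ^ (q + 2) with hE
  have hE0 : 0 ≤ E := by positivity
  set a := N / Real.sqrt T with ha
  have ha0 : 0 ≤ a := by positivity
  -- pointwise
  have hpt : ∀ t ∈ Icc T (2 * T), ‖Bl w N t‖ ^ q ≤
      2 ^ q * (C ^ q * Real.pi ^ q) * a ^ q * (J t + E) + 2 ^ q * (2 * C) ^ q := by
    intro t ht
    have htp : 0 < t := by linarith [ht.1]
    have h1 := hCb N T t hN0 hT (by rw [abs_of_pos htp]; exact ht.1) (by rw [abs_of_pos htp]; exact ht.2)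
    have hI : (∫ y : ℝ, ‖Bl u (T / N) (t + y)‖ / (1 + |y|) ^ (q + 4)) =
        ∫ y, g (t + y) * ke (q + 4) y := by
      apply integral_congr_ae
      filter_upwards with y
      simp only [hg, ke]; ring
    rw [hI] at h1
    set I := ∫ y, g (t + y) * ke (q + 4) y with hIdef
    have hI0 : 0 ≤ I := integral_nonneg fun y => mul_nonneg (hg0 _) (ke_nonneg _ _)
    have h2 : C / T + C * N / T ^ (q + 4) ≤ 2 * C := by
      have e1 : C / T ≤ C := div_le_self (by linarith) hT
      have e2 : C * N / T ^ (q + 4) ≤ C := by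
        rw [div_le_iff₀ (by positivity)]
        apply mul_le_mul_of_nonneg_left _ (by linarith)
        exact hNT.trans (pow_le_pow_right₀ hT (by omega))
      linarith
    have h3 : ‖Bl w N t‖ ≤ C * a * I + 2 * C := by linarith
    have h4 : ‖Bl w N t‖ ^ q ≤ 2 ^ q * ((C * a * I) ^ q + (2 * C) ^ q) := by
      calc ‖Bl w N t‖ ^ q ≤ (C * a * I + 2 * C) ^ q := pow_le_pow_left₀ (norm_nonneg _) h3 q
        _ ≤ 2 ^ (q - 1) * ((C * a * I) ^ q + (2 * C) ^ q) := add_pow_le (by positivity) (by positivity) q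
        _ ≤ _ := by
          apply mul_le_mul_of_nonneg_right _ (by positivity)
          exact pow_le_pow_right₀ (by norm_num) (by omega)
    have h5 : I ^ q ≤ Real.pi ^ q * (J t + E) := by
      obtain ⟨p, rfl⟩ : ∃ p, q = p + 1 := ⟨q - 1, by omega⟩
      have hsh : Continuous fun y => g (t + y) := hgc.comp (continuous_const.add continuous_id)
      have hshq : Continuous fun y => g (t + y) ^ (p + 1) := hsh.pow _
      have hb1 : ∀ y, g (t + y) ^ (p + 1) ≤ (Cu * (T / N)) ^ (p + 1) := fun y =>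
        pow_le_pow_left₀ (hg0 _) (hgB _) _
      have hj := jensen p (ke (p + 1 + 4)) (fun y => g (t + y)) Real.pi (ke_nonneg _)
        (ke_int _ (by omega)) (ke_mass _ (by omega)) hpi (fun y => hg0 _)
        (mul_int _ (by omega) _ hsh _ (fun y => hg0 _) (fun y => hgB _))
        (mul_int _ (by omega) _ hshq _ (fun y => pow_nonneg (hg0 _) _) hb1)
      have hs := split (p + 1 + 2) (fun y => g (t + y) ^ (p + 1)) hshq _ (T / 4) (by positivity)
        (fun y => pow_nonneg (hg0 _) _) hb1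
      have hs' : ∫ y, g (t + y) ^ (p + 1) * ke (p + 1 + 4) y ≤ J t + Real.pi * E := by
        rw [hJ, hE]; exact hs
      have hJ0 : 0 ≤ J t := by
        rw [hJ]
        exact intervalIntegral.integral_nonneg (by linarith) fun y _ =>
          mul_nonneg (pow_nonneg (hg0 _) _) (ke_nonneg _ _)
      calc I ^ (p + 1) ≤ Real.pi ^ p * ∫ y, g (t + y) ^ (p + 1) * ke (p + 1 + 4) y := hj
        _ ≤ Real.pi ^ p * (J t + Real.pi * E) := mul_le_mul_of_nonneg_left hs' (by positivity)
        _ ≤ Real.pi ^ p * (Real.pi * (J t + E)) := by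
          apply mul_le_mul_of_nonneg_left _ (by positivity)
          nlinarith
        _ = _ := by ring
    calc ‖Bl w N t‖ ^ q ≤ 2 ^ q * ((C * a * I) ^ q + (2 * C) ^ q) := h4
      _ = 2 ^ q * (C ^ q * a ^ q * I ^ q) + 2 ^ q * (2 * C) ^ q := by rw [mul_pow, mul_pow]; ring
      _ ≤ 2 ^ q * (C ^ q * a ^ q * (Real.pi ^ q * (J t + E))) + 2 ^ q * (2 * C) ^ q := by
        gcongr
      _ = _ := by ring
  have hint : ∫ t in T..(2 * T), ‖Bl w N t‖ ^ q ≤ ∫ t in T..(2 * T),
      (2 ^ q * (C ^ q * Real.pi ^ q) * a ^ q * (J t + E) + 2 ^ q * (2 * C) ^ q) := by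
    apply intervalIntegral.integral_mono_on (by linarith) _ _ hpt
    · exact ((hcontw N hN0).norm.pow q).intervalIntegrable _ _
    · exact Continuous.intervalIntegrable (by fun_prop) _ _
  have hval : ∫ t in T..(2 * T),
      (2 ^ q * (C ^ q * Real.pi ^ q) * a ^ q * (J t + E) + 2 ^ q * (2 * C) ^ q) =
      K1 * a ^ q * (∫ t in T..(2 * T), J t) + K1 * a ^ q * (E * T) + 2 ^ q * (2 * C) ^ q * T := by
    have hJi : IntervalIntegrable J volume T (2 * T) := hJc.intervalIntegrable _ _
    have hJE : Continuous fun t => J t + E := hJc.add continuous_const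
    rw [intervalIntegral.integral_add (Continuous.intervalIntegrable (by fun_prop) _ _)
      (Continuous.intervalIntegrable continuous_const _ _), intervalIntegral.integral_const_mul,
      intervalIntegral.integral_add hJi (Continuous.intervalIntegrable continuous_const _ _),
      intervalIntegral.integral_const, intervalIntegral.integral_const]
    simp only [smul_eq_mul, hK1]
    ring
  have hF := fub (q + 4) (by omega) (fun s => g s ^ q) hgq (fun s => pow_nonneg (hg0 _) _) T hT0
  have hfin : a ^ q * (E * T) ≤ Cu ^ q * 4 ^ (q + 2) := by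
    have hs0 : 0 < Real.sqrt T := Real.sqrt_pos.2 hT0
    have e1 : a * (T / N) = Real.sqrt T := by
      rw [ha]
      have : Real.sqrt T * Real.sqrt T = T := Real.mul_self_sqrt hT0.le
      field_simp
      nlinarith [this]
    have e2 : a ^ q * (E * T) = Cu ^ q * 4 ^ (q + 2) * ((Real.sqrt T) ^ q * (1 / T) ^ (q + 2) * T) := by
      rw [← e1, hE]
      have : 1 / (T / 4) = 4 * (1 / T) := by field_simp
      rw [this, mul_pow, mul_pow, mul_pow]
      ring
    rw [e2]
    have e3 : (Real.sqrt T) ^ q * (1 / T) ^ (q + 2) * T ≤ 1 := by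
      have f1 : Real.sqrt T ≤ T := by
        rw [Real.sqrt_le_left hT0.le]
        nlinarith
      have f2 : (Real.sqrt T) ^ q ≤ T ^ q := pow_le_pow_left₀ (Real.sqrt_nonneg _) f1 q
      calc (Real.sqrt T) ^ q * (1 / T) ^ (q + 2) * T ≤ T ^ q * (1 / T) ^ (q + 2) * T := by gcongr
        _ = 1 / T := by
          rw [one_div_pow, pow_add]
          field_simp
        _ ≤ 1 := by
          rw [div_le_one hT0]; exact hT
    calc Cu ^ q * 4 ^ (q + 2) * ((Real.sqrt T) ^ q * (1 / T) ^ (q + 2) * T)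
        ≤ Cu ^ q * 4 ^ (q + 2) * 1 := mul_le_mul_of_nonneg_left e3 (by positivity)
      _ = _ := mul_one _
  set G := ∫ s in (3 / 4 * T)..(9 / 4 * T), g s ^ q with hG
  have hG0 : 0 ≤ G := intervalIntegral.integral_nonneg (by linarith) fun s _ => pow_nonneg (hg0 _) _
  have hF' : ∫ t in T..(2 * T), J t ≤ Real.pi * G := hF
  have haq : 0 ≤ a ^ q := by positivity
  have hg1 : K1 * a ^ q * (∫ t in T..(2 * T), J t) ≤ K1 * Real.pi * (a ^ q * G) := by
    calc K1 * a ^ q * (∫ t in T..(2 * T), J t) ≤ K1 * a ^ q * (Real.pi * G) :=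
          mul_le_mul_of_nonneg_left hF' (by positivity)
      _ = _ := by ring
  have hg2 : K1 * a ^ q * (E * T) ≤ K1 * (Cu ^ q * 4 ^ (q + 2)) * T := by
    calc K1 * a ^ q * (E * T) = K1 * (a ^ q * (E * T)) := by ring
      _ ≤ K1 * (Cu ^ q * 4 ^ (q + 2)) := mul_le_mul_of_nonneg_left hfin hK10
      _ ≤ _ := le_mul_of_one_le_right (by positivity) hT
  have hg3 : K1 * Real.pi * (a ^ q * G) ≤ (K1 * Real.pi + K2 + 1) * (a ^ q * G) :=
    mul_le_mul_of_nonneg_right (by linarith) (by positivity)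
  have hg4 : K2 * T ≤ (K1 * Real.pi + K2 + 1) * T :=
    mul_le_mul_of_nonneg_right (by linarith) (by positivity)
  have hg5 : K2 * T = K1 * (Cu ^ q * 4 ^ (q + 2)) * T + 2 ^ q * (2 * C) ^ q * T := by
    rw [hK2]; ring
  calc ∫ t in T..(2 * T), ‖Bl w N t‖ ^ q
      ≤ K1 * a ^ q * (∫ t in T..(2 * T), J t) + K1 * a ^ q * (E * T) + 2 ^ q * (2 * C) ^ q * T :=
        hint.trans_eq hval
    _ ≤ (K1 * Real.pi + K2 + 1) * (a ^ q * G) + (K1 * Real.pi + K2 + 1) * T := by linarith
    _ = _ := by rw [hG, ha]; ring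

end Pool.Agent.Work.MP_56b8f5_nt.UC
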