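import Mathlib
import Pool.Agent.Work.MP_56b8f5_nt.UC.Stmts

/-!
MP_56b8f5_nt, block UC, item S2 (sums over separated points).  Author: helper85.
-/

open MeasureTheory Set Filter Topology

noncomputable section

namespace Pool.Agent.Work.MP_56b8f5_nt.UC

namespace S2_aux

/-- the integer parts of the shifted points are different -/
theorem inj {W : Finset ℝ} (hW : Sep W) (x : ℝ) :
    Set.InjOn (fun t : ℝ => ⌊t - x⌋) (W : Set ℝ) := by
  intro s hs t ht h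
  by_contra hne
  have h1 := hW s hs t ht hne
  have h2 : |(s - x) - (t - x)| < 1 := Int.abs_sub_lt_one_of_floor_eq_floor h
  have h3 : (s - x) - (t - x) = s - t := by ring
  rw [h3] at h2
  linarith

theorem summ : Summable (fun k : ℤ => 3 / (1 + (k : ℝ) ^ 2)) := by
  have h1 : Summable (fun k : ℤ => 3 * (1 / (k : ℝ) ^ 2)) :=
    (Real.summable_one_div_int_pow.2 (by norm_num)).mul_left 3
  have h2 : Summable (fun k : ℤ => if k = 0 then (3 : ℝ) else 0) := by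
    apply summable_of_ne_finset_zero (s := {0})
    intro b hb
    rw [Finset.mem_singleton] at hb
    simp [hb]
  refine Summable.of_nonneg_of_le (fun k => by positivity) (fun k => ?_) (h1.add h2)
  by_cases hk : k = 0
  · subst hk
    norm_num
  · have hk' : (0 : ℝ) < (k : ℝ) ^ 2 := by
      have : (k : ℝ) ≠ 0 := by exact_mod_cast hk
      positivity
    simp only [hk, if_false, add_zero]
    rw [mul_one_div]
    gcongr
    linarith

/-- the constant -/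
def C1 : ℝ := ∑' k : ℤ, 3 / (1 + (k : ℝ) ^ 2)

theorem C1_nonneg : 0 ≤ C1 := tsum_nonneg (fun k => by positivity)

theorem term_le (u : ℝ) : 1 / (1 + u ^ 2) ≤ 3 / (1 + ((⌊u⌋ : ℤ) : ℝ) ^ 2) := by
  have h1 : ((⌊u⌋ : ℤ) : ℝ) ≤ u := Int.floor_le u
  have h2 : u < ((⌊u⌋ : ℤ) : ℝ) + 1 := Int.lt_floor_add_one u
  rw [div_le_div_iff₀ (by positivity) (by positivity)]
  have h3 : (((⌊u⌋ : ℤ) : ℝ) - u) ^ 2 ≤ 1 := by nlinarith
  nlinarith [sq_nonneg (((⌊u⌋ : ℤ) : ℝ) - u - u), sq_nonneg (((⌊u⌋ : ℤ) : ℝ) - 2 * u),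
    sq_nonneg (((⌊u⌋ : ℤ) : ℝ) - u + u)]

theorem sum_le {W : Finset ℝ} (hW : Sep W) (x : ℝ) :
    ∑ t ∈ W, 1 / (1 + (x - t) ^ 2) ≤ C1 := by
  have h1 : ∑ t ∈ W, 1 / (1 + (x - t) ^ 2) ≤
      ∑ t ∈ W, (fun k : ℤ => 3 / (1 + (k : ℝ) ^ 2)) ((fun t : ℝ => ⌊t - x⌋) t) := by
    apply Finset.sum_le_sum
    intro t _
    have h := term_le (t - x)
    have e : (x - t) ^ 2 = (t - x) ^ 2 := by ring
    rw [e]
    exact h
  have h2 : ∑ t ∈ W, (fun k : ℤ => 3 / (1 + (k : ℝ) ^ 2)) ((fun t : ℝ => ⌊t - x⌋) t) =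
      ∑ k ∈ W.image (fun t : ℝ => ⌊t - x⌋), 3 / (1 + (k : ℝ) ^ 2) := by
    rw [Finset.sum_image (inj hW x)]
  rw [h2] at h1
  exact h1.trans (summ.sum_le_tsum _ (fun k _ => by positivity))

theorem prod_le (x y t : ℝ) : 1 / (1 + (x - t) ^ 2) * (1 / (1 + (y - t) ^ 2)) ≤
    (2 * (1 / (1 + (x - t) ^ 2)) + 2 * (1 / (1 + (y - t) ^ 2))) / (1 + (x - y) ^ 2) := by
  have hA : 0 < 1 + (x - t) ^ 2 := by positivity
  have hB : 0 < 1 + (y - t) ^ 2 := by positivity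
  have hD : 0 < 1 + (x - y) ^ 2 := by positivity
  rw [le_div_iff₀ hD]
  have e : 2 * (1 / (1 + (x - t) ^ 2)) + 2 * (1 / (1 + (y - t) ^ 2)) =
      1 / (1 + (x - t) ^ 2) * (1 / (1 + (y - t) ^ 2)) *
        (2 * (1 + (y - t) ^ 2) + 2 * (1 + (x - t) ^ 2)) := by
    field_simp
  rw [e]
  apply mul_le_mul_of_nonneg_left _ (by positivity)
  nlinarith [sq_nonneg ((x - t) + (y - t))]

end S2_aux

open S2_aux in
theorem iS2 : StS2 := by
  refine ⟨1 + 4 * C1, by linarith [C1_nonneg], ?_⟩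
  intro W hW
  refine ⟨fun x => ?_, fun x y => ?_, fun T0 T hT h => ?_⟩
  · linarith [sum_le hW x, C1_nonneg]
  · have h1 : ∑ t ∈ W, 1 / (1 + (x - t) ^ 2) * (1 / (1 + (y - t) ^ 2)) ≤
        ∑ t ∈ W, (2 * (1 / (1 + (x - t) ^ 2)) + 2 * (1 / (1 + (y - t) ^ 2))) /
          (1 + (x - y) ^ 2) := Finset.sum_le_sum (fun t _ => prod_le x y t)
    refine h1.trans ?_
    rw [← Finset.sum_div, Finset.sum_add_distrib, ← Finset.mul_sum, ← Finset.mul_sum]
    have hD : 0 < 1 + (x - y) ^ 2 := by positivity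
    rw [div_le_div_iff_of_pos_right hD]
    linarith [sum_le hW x, sum_le hW y]
  · have h1 : (W.image (fun t : ℝ => ⌊t - T0⌋)).card = W.card :=
      Finset.card_image_of_injOn (inj hW T0)
    have h2 : W.image (fun t : ℝ => ⌊t - T0⌋) ⊆ Finset.Icc (0 : ℤ) ⌊T⌋ := by
      intro k hk
      rw [Finset.mem_image] at hk
      obtain ⟨t, ht, rfl⟩ := hk
      have := h t ht
      rw [Finset.mem_Icc]
      exact ⟨Int.floor_nonneg.2 (by linarith), Int.floor_le_floor (by linarith)⟩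
    have h3 := Finset.card_le_card h2
    rw [h1, Int.card_Icc] at h3
    have h4 : (W.card : ℤ) ≤ ⌊T⌋ + 1 := by
      have h5 : (0 : ℤ) ≤ ⌊T⌋ := Int.floor_nonneg.2 (by linarith)
      omega
    have h6 : (W.card : ℝ) ≤ ((⌊T⌋ : ℤ) : ℝ) + 1 := by exact_mod_cast h4
    linarith [Int.floor_le T]

end Pool.Agent.Work.MP_56b8f5_nt.UC
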