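import Mathlib
import Pool.Agent.Work.MP_56b8f5_nt.UC.Stmts

/-!
MP_56b8f5_nt, block UC, item Sq: the square of a block in dyadic pieces.
-/

open MeasureTheory Set Filter Topology

noncomputable section

namespace Pool.Agent.Work.MP_56b8f5_nt.UC

namespace Sq_aux

/-- consecutive dyadic pieces add up -/
lemma pieces (f : ℕ → ℂ) (L : ℕ → ℝ) (h0 : ∀ j, 0 ≤ L j) (h2 : ∀ j, L (j + 1) = 2 * L j) (J : ℕ) :
    ∑ j ∈ Finset.range J, ∑ n ∈ Finset.Ioc ⌊L j⌋₊ ⌊2 * L j⌋₊, f n =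
      ∑ n ∈ Finset.Ioc ⌊L 0⌋₊ ⌊L J⌋₊, f n := by
  induction J with
  | zero => simp
  | succ J ih =>
      rw [Finset.sum_range_succ, ih, ← h2 J]
      have hmono : ∀ j, L 0 ≤ L j := by
        intro j
        induction j with
        | zero => exact le_refl _
        | succ j ihj => rw [h2 j]; linarith [h0 j]
      refine Finset.sum_Ioc_consecutive f (Nat.floor_mono (hmono J)) (Nat.floor_mono ?_)
      rw [h2 J]; linarith [h0 J]

/-- two finite sums containing the support agree -/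
lemma agree (f : ℕ → ℂ) (s t : Finset ℕ) (hs : ∀ n, f n ≠ 0 → n ∈ s) (ht : ∀ n, f n ≠ 0 → n ∈ t) :
    ∑ n ∈ s, f n = ∑ n ∈ t, f n := by
  classical
  have h1 : ∑ n ∈ s, f n = ∑ n ∈ s ∪ t, f n := by
    refine Finset.sum_subset Finset.subset_union_left (fun n _ hn => ?_)
    by_contra h
    exact hn (hs n h)
  have h2 : ∑ n ∈ t, f n = ∑ n ∈ s ∪ t, f n := by
    refine Finset.sum_subset Finset.subset_union_right (fun n _ hn => ?_)
    by_contra h
    exact hn (ht n h)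
  rw [h1, h2]

end Sq_aux

theorem iSq (hPw : StPw) : StSq := by
  intro w hw ε hε
  obtain ⟨c0, C0, hc0, hC0, h⟩ := hPw w hw 2 (ε / 2) (by norm_num) (by linarith)
  have hC00 : 0 < C0 := by linarith
  obtain ⟨J, hJ⟩ := pow_unbounded_of_one_lt (2 * C0 / c0) (one_lt_two : (1 : ℝ) < 2)
  set C : ℝ := max (c0 / 2 * 2 ^ (J + 1)) (C0 * C0 ^ (ε / 2)) with hC
  have hCa : c0 / 2 * 2 ^ (J + 1) ≤ C := le_max_left _ _
  have hCb : C0 * C0 ^ (ε / 2) ≤ C := le_max_right _ _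
  have hC1 : 1 ≤ C := by
    refine le_trans ?_ hCb
    have : 1 ≤ C0 ^ (ε / 2) := Real.one_le_rpow hC0 (by linarith)
    nlinarith
  refine ⟨J + 1, c0 / 2, C, by positivity, hC1, by omega, ?_⟩
  intro N T hN hNT
  have hN0 : 0 < N := by linarith
  have hT0 : 0 < T := by linarith
  have hCp : 0 < C := by linarith
  obtain ⟨a, ha1, ha2, ha3⟩ := h N hN0
  set D : ℝ := C * T ^ ε with hD
  have hD0 : 0 < D := by positivity
  set L : ℕ → ℝ := fun j => c0 / 2 * N ^ 2 * 2 ^ j with hL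
  have hL0 : ∀ j, 0 ≤ L j := fun j => by rw [hL]; positivity
  have hL2 : ∀ j, L (j + 1) = 2 * L j := fun j => by rw [hL]; ring
  refine ⟨fun _ n => a n / (D : ℂ), L, ?_, ?_, ?_⟩
  · intro _ n
    by_cases hn : a n = 0
    · simp [hn]
    · have hb := (ha2 n hn).2
      have h1 : ‖a n‖ ≤ D := by
        refine (ha1 n).trans ?_
        have hn2 : (n : ℝ) ^ (ε / 2) ≤ (C0 * T ^ 2) ^ (ε / 2) := by
          refine Real.rpow_le_rpow (Nat.cast_nonneg _) (hb.trans ?_) (by linarith)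
          gcongr
        have hT2 : (C0 * T ^ 2) ^ (ε / 2) = C0 ^ (ε / 2) * T ^ ε := by
          rw [Real.mul_rpow hC00.le (by positivity), ← Real.rpow_natCast T 2,
            ← Real.rpow_mul hT0.le]
          congr 2
          push_cast; ring
        calc C0 * (n : ℝ) ^ (ε / 2) ≤ C0 * (C0 ^ (ε / 2) * T ^ ε) := by
              rw [← hT2]; gcongr
          _ = (C0 * C0 ^ (ε / 2)) * T ^ ε := by ring
          _ ≤ D := by rw [hD]; gcongr
      simp only [norm_div, Complex.norm_real, Real.norm_eq_abs, abs_of_pos hD0]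
      rw [div_le_one hD0]
      exact h1
  · intro j hj
    have hj1 : (1 : ℝ) ≤ 2 ^ j := one_le_pow₀ (by norm_num)
    have hj2 : (2 : ℝ) ^ j ≤ 2 ^ (J + 1) := pow_le_pow_right₀ (by norm_num) (by omega)
    constructor
    · show c0 / 2 * N ^ 2 ≤ c0 / 2 * N ^ 2 * 2 ^ j
      have : 0 < c0 / 2 * N ^ 2 := by positivity
      nlinarith
    · show c0 / 2 * N ^ 2 * 2 ^ j ≤ C * N ^ 2
      calc c0 / 2 * N ^ 2 * 2 ^ j ≤ c0 / 2 * N ^ 2 * 2 ^ (J + 1) := by gcongr
        _ = (c0 / 2 * 2 ^ (J + 1)) * N ^ 2 := by ring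
        _ ≤ C * N ^ 2 := by gcongr
  · intro t
    set Y : ℕ := ⌈C0 * N ^ 2⌉₊ with hY
    have hY1 : C0 * N ^ 2 ≤ (Y : ℝ) := Nat.le_ceil _
    rw [ha3 t Y hY1]
    have hDc : (D : ℂ) ≠ 0 := by exact_mod_cast hD0.ne'
    set f : ℕ → ℂ := fun n => a n * (n : ℂ) ^ (-(t * Complex.I)) with hf
    have hfa : ∀ n, f n ≠ 0 → a n ≠ 0 := by
      intro n hn h0
      apply hn
      simp [hf, h0]
    have hsum : (D : ℂ) * ∑ j ∈ Finset.range (J + 1), Sd (L j) (fun n => a n / (D : ℂ)) t =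
        ∑ j ∈ Finset.range (J + 1), ∑ n ∈ Finset.Ioc ⌊L j⌋₊ ⌊2 * L j⌋₊, f n := by
      rw [Finset.mul_sum]
      refine Finset.sum_congr rfl (fun j _ => ?_)
      rw [Sd, Finset.mul_sum]
      refine Finset.sum_congr rfl (fun n _ => ?_)
      rw [hf]
      field_simp
    rw [hsum, Sq_aux.pieces f L hL0 hL2 (J + 1)]
    have hDp : Dp Y a t = ∑ n ∈ Finset.Icc 1 Y, f n := rfl
    rw [hDp]
    refine Sq_aux.agree f _ _ (fun n hn => ?_) (fun n hn => ?_)
    · have h1 := ha2 n (hfa n hn)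
      rw [Finset.mem_Icc]
      have hpos : (0 : ℝ) < n := lt_of_lt_of_le (by positivity) h1.1
      refine ⟨by exact_mod_cast hpos, ?_⟩
      exact_mod_cast h1.2.trans hY1
    · have h1 := ha2 n (hfa n hn)
      rw [Finset.mem_Ioc]
      constructor
      · have hlt : L 0 < n := by
          refine lt_of_lt_of_le ?_ h1.1
          show c0 / 2 * N ^ 2 * 2 ^ 0 < c0 * N ^ 2
          have : 0 < c0 * N ^ 2 := by positivity
          linarith
        exact (Nat.floor_lt (hL0 0)).2 hlt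
      · refine Nat.le_floor (h1.2.trans ?_)
        show C0 * N ^ 2 ≤ c0 / 2 * N ^ 2 * 2 ^ (J + 1)
        have h2 : 2 * C0 < 2 ^ J * c0 := (div_lt_iff₀ hc0).1 hJ
        have h3 : C0 ≤ c0 / 2 * 2 ^ (J + 1) := by
          rw [pow_succ]
          nlinarith
        calc C0 * N ^ 2 ≤ (c0 / 2 * 2 ^ (J + 1)) * N ^ 2 := by gcongr
          _ = c0 / 2 * N ^ 2 * 2 ^ (J + 1) := by ring

end Pool.Agent.Work.MP_56b8f5_nt.UC
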