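import Mathlib
import Pool.Agent.Work.MP_56b8f5_nt.UC.Stmts
import Pool.Agent.Work.MP_56b8f5_nt.UC.I_Ow

/-!
MP_56b8f5_nt, block UC, item T2: the quadratic term of the cubic trace inequality.
-/

open MeasureTheory Set Filter Topology

noncomputable section

namespace Pool.Agent.Work.MP_56b8f5_nt.UC

open Pool.Agent.Work.MP_56b8f5_nt.UB (ee om)

namespace T2_aux

/-- the weight on the line -/
def wy (y : ℝ) : ℝ := 1 / (1 + |y|) ^ 2

lemma wy_nonneg (y : ℝ) : 0 ≤ wy y := by unfold wy; positivity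

lemma wy_cont : Continuous wy := by
  unfold wy
  refine continuous_const.div (by fun_prop) (fun y => ?_)
  positivity

lemma wy_int : Integrable wy := by
  have h := integrable_one_add_norm (E := ℝ) (μ := volume) (r := 2) (by simp)
  refine h.congr (Filter.Eventually.of_forall (fun y => ?_))
  simp only [wy, Real.norm_eq_abs]
  rw [Real.rpow_neg (by positivity), one_div]
  norm_cast

/-- total mass -/
def Kw : ℝ := ∫ y, wy y

lemma Kw_nonneg : 0 ≤ Kw := integral_nonneg wy_nonneg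

lemma int_bdd {g : ℝ → ℝ} (hg : Continuous g) {B : ℝ} (hB : ∀ y, |g y| ≤ B) :
    Integrable (fun y => g y * wy y) := by
  refine wy_int.bdd_mul hg.aestronglyMeasurable (Filter.Eventually.of_forall (fun y => ?_)) (c := B)
  rw [Real.norm_eq_abs]; exact hB y

lemma cs {g : ℝ → ℝ} (hg : Continuous g) {B : ℝ} (hB : ∀ y, |g y| ≤ B) :
    (∫ y, g y * wy y) ^ 2 ≤ Kw * ∫ y, g y ^ 2 * wy y := by
  have i1 := int_bdd hg hB
  have i2 : Integrable (fun y => g y ^ 2 * wy y) := by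
    refine int_bdd (hg.pow 2) (B := B ^ 2) (fun y => ?_)
    rw [abs_pow]; exact pow_le_pow_left₀ (abs_nonneg _) (hB y) 2
  have key : ∀ a : ℝ, 0 ≤ Kw * (a * a) + (-2 * ∫ y, g y * wy y) * a + ∫ y, g y ^ 2 * wy y := by
    intro a
    have h0 : 0 ≤ ∫ y, (g y - a) ^ 2 * wy y :=
      integral_nonneg (fun y => mul_nonneg (sq_nonneg _) (wy_nonneg y))
    have h1 : (∫ y, (g y - a) ^ 2 * wy y) =
        Kw * (a * a) + (-2 * ∫ y, g y * wy y) * a + ∫ y, g y ^ 2 * wy y := by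
      have e : (fun y => (g y - a) ^ 2 * wy y) =
          fun y => (g y ^ 2 * wy y + (-(2 * a)) * (g y * wy y)) + (a * a) * wy y := by
        funext y; ring
      have j1 : Integrable (fun y => (-(2 * a)) * (g y * wy y)) := i1.const_mul _
      have j2 : Integrable (fun y => (a * a) * wy y) := wy_int.const_mul _
      have j3 : Integrable (fun y => g y ^ 2 * wy y + (-(2 * a)) * (g y * wy y)) := i2.add j1
      rw [e, integral_add j3 j2, integral_add i2 j1, integral_const_mul, integral_const_mul]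
      simp only [Kw]; ring
    linarith
  have := discrim_le_zero key
  unfold discrim at this
  nlinarith

/-- root extraction -/
lemma root {k : ℕ} (hk : 1 ≤ k) {X R A T N : ℝ} (hR : 0 < R) (hA : 1 ≤ A) (hT : 0 < T) (hN : 0 < N)
    (h : X ^ k ≤ R ^ (k - 1) * (A * (T + N ^ k) * N ^ k)) :
    X ≤ A * R ^ (1 - 1 / (k : ℝ)) * ((T ^ (1 / (k : ℝ)) + N) * N) := by
  have hk0 : (k : ℝ) ≠ 0 := by positivity
  have hT1 : (T ^ (1 / (k : ℝ))) ^ k = T := by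
    rw [← Real.rpow_natCast, ← Real.rpow_mul hT.le, one_div, inv_mul_cancel₀ hk0, Real.rpow_one]
  have hR1 : (R ^ (1 - 1 / (k : ℝ))) ^ k = R ^ (k - 1) := by
    rw [← Real.rpow_natCast, ← Real.rpow_mul hR.le, ← Real.rpow_natCast]
    congr 1
    rw [Nat.cast_sub hk]
    field_simp
    simp
  have hA1 : A ≤ A ^ k := le_self_pow₀ hA (by omega)
  have hs : T + N ^ k ≤ (T ^ (1 / (k : ℝ)) + N) ^ k := by
    have := pow_add_pow_le (Real.rpow_nonneg hT.le (1 / (k : ℝ))) hN.le (n := k) (by omega)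
    rwa [hT1] at this
  have hfin : X ^ k ≤ (A * R ^ (1 - 1 / (k : ℝ)) * ((T ^ (1 / (k : ℝ)) + N) * N)) ^ k := by
    refine h.trans ?_
    rw [mul_pow, mul_pow, hR1, mul_pow]
    have h1 : A * (T + N ^ k) * N ^ k ≤ A ^ k * (T ^ (1 / (k : ℝ)) + N) ^ k * N ^ k := by
      gcongr
    calc R ^ (k - 1) * (A * (T + N ^ k) * N ^ k)
        ≤ R ^ (k - 1) * (A ^ k * (T ^ (1 / (k : ℝ)) + N) ^ k * N ^ k) := by gcongr
      _ = _ := by ring
  exact le_of_pow_le_pow_left₀ (by omega) (by positivity) hfin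

/-- Hoelder and the moment bound for a sum over shifted points -/
lemma sum_sq {u : ℝ → ℝ} {k : ℕ} (hk : 1 ≤ k) {CM e : ℝ} (hCM : 1 ≤ CM) (he : 0 < e)
    (hM : ∀ (T0 T N : ℝ) (W : Finset ℝ), 1 ≤ T → 0 < N → N ≤ T → Sep W → (∀ t ∈ W, T0 ≤ t ∧ t ≤ T0 + T) →
      ∑ t ∈ W, ‖Bl u N t‖ ^ (2 * k) ≤ CM * T ^ e * (T + N ^ k) * N ^ k)
    {T0 T N : ℝ} {W : Finset ℝ} (hT : 1 ≤ T) (hN : 0 < N) (hNT : N ≤ T) (hW : W.Nonempty) (hS : Sep W)
    (hWT : ∀ t ∈ W, T0 ≤ t ∧ t ≤ T0 + T) (z : ℝ) :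
    ∑ t ∈ W, ‖Bl u N (z - t)‖ ^ 2 ≤
      CM * T ^ e * (W.card : ℝ) ^ (1 - 1 / (k : ℝ)) * ((T ^ (1 / (k : ℝ)) + N) * N) := by
  have hcard : 0 < (W.card : ℝ) := by exact_mod_cast hW.card_pos
  set W' : Finset ℝ := W.image (fun t => z - t) with hW'
  have hinj : Set.InjOn (fun t : ℝ => z - t) (W : Set ℝ) := by
    intro a _ b _ hab
    have : z - a = z - b := hab
    linarith
  have hS' : Sep W' := by
    intro a ha b hb hab
    rw [hW', Finset.mem_image] at ha hb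
    obtain ⟨a', ha', rfl⟩ := ha
    obtain ⟨b', hb', rfl⟩ := hb
    have hne : b' ≠ a' := by rintro rfl; exact hab rfl
    have := hS b' hb' a' ha' hne
    have e : z - a' - (z - b') = b' - a' := by ring
    rw [e]; exact this
  have hWT' : ∀ t ∈ W', z - T0 - T ≤ t ∧ t ≤ z - T0 - T + T := by
    intro a ha
    rw [hW', Finset.mem_image] at ha
    obtain ⟨a', ha', rfl⟩ := ha
    have := hWT a' ha'
    constructor <;> linarith [this.1, this.2]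
  have h1 := hM (z - T0 - T) T N W' hT hN hNT hS' hWT'
  rw [hW', Finset.sum_image (fun a ha b hb hab => hinj ha hb hab)] at h1
  have hp : (∑ t ∈ W, ‖Bl u N (z - t)‖ ^ 2) ^ k ≤
      (W.card : ℝ) ^ (k - 1) * ∑ t ∈ W, ‖Bl u N (z - t)‖ ^ (2 * k) := by
    obtain ⟨n, rfl⟩ : ∃ n, k = n + 1 := ⟨k - 1, by omega⟩
    have := pow_sum_div_card_le_sum_pow (s := W) (f := fun t => ‖Bl u N (z - t)‖ ^ 2)
      (fun a _ => by positivity) n
    rw [div_le_iff₀ (by positivity)] at this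
    simp only [← pow_mul] at this
    simp only [Nat.add_sub_cancel]
    rw [mul_comm]
    exact this
  refine root hk hcard ?_ (by linarith) hN ?_
  · have : 1 ≤ T ^ e := Real.one_le_rpow hT he.le
    nlinarith
  · refine hp.trans ?_
    gcongr

/-- near pairs -/
lemma near {c1 c2 CS : ℝ} (hc1 : 0 < c1) (hc12 : c1 < c2) (hCS : 1 ≤ CS)
    (hS : ∀ (N t : ℝ) (m : ℤ), 0 < N → m ≠ 0 →
      ¬ (c1 * |t| ≤ |(m : ℝ)| * N ∧ |(m : ℝ)| * N ≤ c2 * |t| ∧ (m : ℝ) * t < 0) →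
      ‖Im om N t m‖ ≤ CS * N / (|(m : ℝ)| * N + |t|) ^ 2)
    {L t : ℝ} (M : ℕ) (hL : 1 ≤ L) (ht : |t| ≤ 1 / (2 * c2) * L) :
    ‖kk L M t‖ ≤ CS * ∑' m : ℤ, 1 / (m : ℝ) ^ 2 := by
  have hc2 : 0 < c2 := hc1.trans hc12
  have hsum : Summable fun m : ℤ => 1 / (m : ℝ) ^ 2 := Real.summable_one_div_int_pow.mpr (by norm_num)
  unfold kk
  refine (norm_sum_le _ _).trans ?_
  have h1 : ∀ m ∈ (Finset.Icc (-(M : ℤ)) M).filter (fun m => m ≠ 0), ‖Im om L t m‖ ≤ CS * (1 / (m : ℝ) ^ 2) := by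
    intro m hm
    have hm0 : m ≠ 0 := (Finset.mem_filter.mp hm).2
    have hm1 : (1 : ℝ) ≤ |(m : ℝ)| := by
      have : (1 : ℤ) ≤ |m| := Int.one_le_abs hm0
      exact_mod_cast this
    have hx : c2 * |t| ≤ L / 2 := by
      calc c2 * |t| ≤ c2 * (1 / (2 * c2) * L) := by gcongr
        _ = L / 2 := by field_simp
    have h2 := hS L t m (by linarith) hm0 (by
      rintro ⟨_, h, _⟩
      nlinarith)
    refine h2.trans ?_
    rw [div_le_iff₀ (by positivity), ← sq_abs (m : ℝ)]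
    have h3 : |(m : ℝ)| ^ 2 * L ^ 2 ≤ (|(m : ℝ)| * L + |t|) ^ 2 := by
      rw [← mul_pow]
      have := abs_nonneg t
      gcongr
      linarith
    calc CS * L ≤ CS * L ^ 2 := by
          have : L ≤ L ^ 2 := by nlinarith
          gcongr
      _ = CS * (1 / |(m : ℝ)| ^ 2) * (|(m : ℝ)| ^ 2 * L ^ 2) := by
          field_simp
      _ ≤ CS * (1 / |(m : ℝ)| ^ 2) * (|(m : ℝ)| * L + |t|) ^ 2 := by gcongr
  refine (Finset.sum_le_sum h1).trans ?_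
  rw [← Finset.mul_sum]
  have h4 := hsum.sum_le_tsum ((Finset.Icc (-(M : ℤ)) M).filter (fun m => m ≠ 0))
    (fun m _ => by positivity)
  gcongr

/-- the mean square with weight -/
def Gw (u : ℝ → ℝ) (N x : ℝ) : ℝ := ∫ y, ‖Bl u N (x + y)‖ ^ 2 * wy y

/-- far pairs -/
lemma far {u : ℝ → ℝ} (hcont : ∀ N : ℝ, 0 < N → Continuous (Bl u N)) {CB : ℝ}
    (hBb : ∀ N t : ℝ, 0 < N → ‖Bl u N t‖ ≤ CB * N)
    {CK CN CR c : ℝ} (hCK : 1 ≤ CK) (hCN : 1 ≤ CN) (hCR : 1 ≤ CR) (hc : 0 < c)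
    (hK : ∀ (L T t : ℝ) (M : ℕ), 1 ≤ L → 1 ≤ T → |t| ≤ T → CK * T ≤ M * L →
      ‖Bl om L t - Im om L t 0 - kk L M t‖ ≤ CK / T)
    (hN : ∀ N t : ℝ, 0 < N → ‖Im om N t 0‖ ≤ CN * N / (1 + |t|) ^ 2)
    (hR : ∀ N D t : ℝ, 0 < N → 1 ≤ D → D ≤ |t| → |t| ≤ 2 * D →
      ‖Bl om N t‖ ≤ CR * (N / Real.sqrt D) * (∫ y : ℝ, ‖Bl u (D / N) (t + y)‖ / (1 + |y|) ^ 2) +
        CR / D + CR * N / D ^ 2)
    {L T D x : ℝ} {M : ℕ} (hL : 1 ≤ L) (hT : 1 ≤ T) (hx : |x| ≤ T) (hML : CK * T ≤ M * L)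
    (hD1 : 1 ≤ D) (hDL : c * L ≤ D) (hDx : D ≤ |x|) (hxD : |x| ≤ 2 * D) :
    ‖kk L M x‖ ^ 2 ≤ 2 * (CR + CR / c + CN / c + CK) ^ 2 +
      2 * CR ^ 2 * Kw * (L ^ 2 / D * Gw u (D / L) x) := by
  have hDL0 : 0 < D / L := by positivity
  have hLD : L / D ^ 2 ≤ 1 / c := by
    rw [div_le_div_iff₀ (by positivity) hc]
    nlinarith
  have h1 := hK L T x M hL hT hx hML
  have h2 := hN L x (by linarith)
  have h3 := hR L D x (by linarith) hD1 hDx hxD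
  set J : ℝ := ∫ y : ℝ, ‖Bl u (D / L) (x + y)‖ / (1 + |y|) ^ 2 with hJ
  have hJ' : J = ∫ y : ℝ, ‖Bl u (D / L) (x + y)‖ * wy y := by
    rw [hJ]; congr 1; funext y; simp only [wy]; ring
  have hcn : Continuous fun y => ‖Bl u (D / L) (x + y)‖ :=
    ((hcont _ hDL0).comp (by fun_prop)).norm
  have hJ2 : J ^ 2 ≤ Kw * Gw u (D / L) x := by
    rw [hJ']
    exact cs hcn (B := CB * (D / L)) (fun y => by rw [abs_norm]; exact hBb _ _ hDL0)
  have hJ0 : 0 ≤ J := by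
    rw [hJ']; exact integral_nonneg (fun y => mul_nonneg (norm_nonneg _) (wy_nonneg y))
  have e1 : CR / D ≤ CR := div_le_self (by linarith) hD1
  have e2 : CR * L / D ^ 2 ≤ CR / c := by
    calc CR * L / D ^ 2 = CR * (L / D ^ 2) := by ring
      _ ≤ CR * (1 / c) := by gcongr
      _ = CR / c := by ring
  have e3 : CN * L / (1 + |x|) ^ 2 ≤ CN / c := by
    calc CN * L / (1 + |x|) ^ 2 ≤ CN * L / D ^ 2 := by
          gcongr
          linarith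
      _ = CN * (L / D ^ 2) := by ring
      _ ≤ CN * (1 / c) := by gcongr
      _ = CN / c := by ring
  have e4 : CK / T ≤ CK := div_le_self (by linarith) hT
  have h5 : ‖kk L M x‖ ≤ CR * (L / Real.sqrt D) * J + (CR + CR / c + CN / c + CK) := by
    have e : kk L M x = Bl om L x - Im om L x 0 - (Bl om L x - Im om L x 0 - kk L M x) := by ring
    have h6 : ‖kk L M x‖ ≤ ‖Bl om L x‖ + ‖Im om L x 0‖ + ‖Bl om L x - Im om L x 0 - kk L M x‖ := by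
      conv_lhs => rw [e]
      exact (norm_sub_le _ _).trans (add_le_add (norm_sub_le _ _) le_rfl)
    linarith
  have h7 : 0 ≤ CR * (L / Real.sqrt D) * J := by positivity
  have hE : 0 ≤ CR + CR / c + CN / c + CK := by positivity
  have hsq : (CR * (L / Real.sqrt D) * J) ^ 2 = CR ^ 2 * (L ^ 2 / D) * J ^ 2 := by
    rw [mul_pow, mul_pow, div_pow, Real.sq_sqrt (by linarith)]
  have h8 : ‖kk L M x‖ ^ 2 ≤ (CR * (L / Real.sqrt D) * J + (CR + CR / c + CN / c + CK)) ^ 2 :=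
    pow_le_pow_left₀ (norm_nonneg _) h5 2
  have h9 : CR ^ 2 * (L ^ 2 / D) * J ^ 2 ≤ CR ^ 2 * (L ^ 2 / D) * (Kw * Gw u (D / L) x) := by
    gcongr
  have h10 : (CR * (L / Real.sqrt D) * J + (CR + CR / c + CN / c + CK)) ^ 2 ≤
      2 * (CR * (L / Real.sqrt D) * J) ^ 2 + 2 * (CR + CR / c + CN / c + CK) ^ 2 := by
    generalize CR * (L / Real.sqrt D) * J = p
    generalize CR + CR / c + CN / c + CK = q
    nlinarith [sq_nonneg (p - q)]
  rw [hsq] at h10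
  calc ‖kk L M x‖ ^ 2 ≤ 2 * (CR ^ 2 * (L ^ 2 / D) * J ^ 2) + 2 * (CR + CR / c + CN / c + CK) ^ 2 :=
        h8.trans h10
    _ ≤ 2 * (CR ^ 2 * (L ^ 2 / D) * (Kw * Gw u (D / L) x)) + 2 * (CR + CR / c + CN / c + CK) ^ 2 := by
        gcongr
    _ = _ := by ring

/-- sum of `Gw` over the points -/
lemma sum_Gw {u : ℝ → ℝ} (hcont : ∀ N : ℝ, 0 < N → Continuous (Bl u N)) {CB : ℝ}
    (hBb : ∀ N t : ℝ, 0 < N → ‖Bl u N t‖ ≤ CB * N) {W : Finset ℝ} {N B : ℝ} (hN : 0 < N)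
    (hB : ∀ z : ℝ, ∑ t ∈ W, ‖Bl u N (z - t)‖ ^ 2 ≤ B) (s : ℝ) :
    ∑ t ∈ W, Gw u N (s - t) ≤ B * Kw := by
  have hi : ∀ x : ℝ, Integrable (fun y => ‖Bl u N (x + y)‖ ^ 2 * wy y) := by
    intro x
    refine int_bdd (((hcont _ hN).comp (by fun_prop)).norm.pow 2) (B := (CB * N) ^ 2) (fun y => ?_)
    rw [abs_pow, abs_norm]
    exact pow_le_pow_left₀ (norm_nonneg _) (hBb _ _ hN) 2
  unfold Gw
  rw [← integral_finsetSum _ (fun t _ => hi (s - t))]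
  have h1 : ∫ y, ∑ t ∈ W, ‖Bl u N (s - t + y)‖ ^ 2 * wy y ≤ ∫ y, B * wy y := by
    refine integral_mono (integrable_finsetSum _ (fun t _ => hi (s - t))) (wy_int.const_mul _) (fun y => ?_)
    simp only
    rw [← Finset.sum_mul]
    refine mul_le_mul_of_nonneg_right ?_ (wy_nonneg y)
    have := hB (s + y)
    refine le_trans (le_of_eq ?_) this
    refine Finset.sum_congr rfl (fun t _ => ?_)
    congr 3; ring
  refine h1.trans (le_of_eq ?_)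
  rw [integral_const_mul]; rfl

lemma Gw_nonneg (u : ℝ → ℝ) (N x : ℝ) : 0 ≤ Gw u N x :=
  integral_nonneg (fun y => mul_nonneg (sq_nonneg _) (wy_nonneg y))

/-- the exponents -/
lemma expo {k : ℕ} (hk : 1 ≤ k) {R T L : ℝ} (hR : 1 ≤ R) (hRT : R ≤ 2 * T) (hL : 1 ≤ L) (hT : 1 ≤ T) :
    R ^ 2 ≤ 2 * (L * R ^ 2 * (T / R) ^ (1 / (k : ℝ))) ∧
    R * (R ^ (1 - 1 / (k : ℝ)) * (L * T ^ (1 / (k : ℝ)) + T)) =
      L * R ^ 2 * (T / R) ^ (1 / (k : ℝ)) + T * R ^ (2 - 1 / (k : ℝ)) := by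
  have hR0 : 0 < R := by linarith
  have hT0 : 0 < T := by linarith
  have hk1 : (1 : ℝ) ≤ k := by exact_mod_cast hk
  have hkk : 1 / (k : ℝ) ≤ 1 := by
    rw [div_le_one (by linarith)]; exact hk1
  have hk0 : 0 ≤ 1 / (k : ℝ) := by positivity
  constructor
  · have h1 : (1 / 2 : ℝ) ≤ (T / R) ^ (1 / (k : ℝ)) := by
      have h2 : (1 / 2 : ℝ) ≤ T / R := by
        rw [div_le_div_iff₀ (by norm_num) hR0]; linarith
      calc (1 / 2 : ℝ) = (1 / 2 : ℝ) ^ (1 : ℝ) := by rw [Real.rpow_one]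
        _ ≤ (1 / 2 : ℝ) ^ (1 / (k : ℝ)) :=
            Real.rpow_le_rpow_of_exponent_ge (by norm_num) (by norm_num) hkk
        _ ≤ (T / R) ^ (1 / (k : ℝ)) := Real.rpow_le_rpow (by norm_num) h2 hk0
    have h3 : 0 ≤ R ^ 2 := by positivity
    calc R ^ 2 = 2 * (1 * R ^ 2 * (1 / 2)) := by ring
      _ ≤ 2 * (L * R ^ 2 * (T / R) ^ (1 / (k : ℝ))) := by gcongr
  · have e1 : R ^ (1 - 1 / (k : ℝ)) = R / R ^ (1 / (k : ℝ)) := by
      rw [Real.rpow_sub hR0, Real.rpow_one]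
    have e2 : R ^ (2 - 1 / (k : ℝ)) = R ^ 2 / R ^ (1 / (k : ℝ)) := by
      rw [Real.rpow_sub hR0]; norm_cast
    rw [e1, e2, Real.div_rpow hT0.le hR0.le]
    have : 0 < R ^ (1 / (k : ℝ)) := Real.rpow_pos_of_pos hR0 _
    field_simp

end T2_aux

open T2_aux in
theorem iT2 (hKd : StKd) (hN0 : StN0) (hRf : StRf) (hMk : StMk) (hNs : StNs) (hBc : StBc) (hS2 : StS2) :
    StT2 := by
  intro k ε hk hε
  obtain ⟨CK, hCK1, hK⟩ := hKd
  obtain ⟨CN, hCN1, hN⟩ := hN0 om isWt_om 2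
  obtain ⟨c1, c2, CS, hc1, hc12, hCS1, hS⟩ := hNs om isWt_om
  obtain ⟨u, hu, hRf'⟩ := hRf om isWt_om
  obtain ⟨CR, hCR1, hR⟩ := hRf' 2 le_rfl
  obtain ⟨CM, hCM1, hM⟩ := hMk u hu k (ε / 2) hk (by positivity)
  obtain ⟨_, hcont, _, CB, hCB1, hBb, _⟩ := hBc u hu
  obtain ⟨CC, hCC1, hcard⟩ := hS2
  have hc2 : 0 < c2 := hc1.trans hc12
  obtain ⟨c, hc⟩ : ∃ c : ℝ, c = 1 / (2 * c2) := ⟨_, rfl⟩
  have hc0 : 0 < c := by rw [hc]; positivity
  obtain ⟨Z, hZ⟩ : ∃ Z : ℝ, Z = ∑' m : ℤ, 1 / (m : ℝ) ^ 2 := ⟨_, rfl⟩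
  have hZ0 : 0 ≤ Z := by rw [hZ]; exact tsum_nonneg (fun m => by positivity)
  obtain ⟨A1, hA1⟩ : ∃ A1 : ℝ, A1 = 2 * (CR + CR / c + CN / c + CK) ^ 2 + (CS * Z) ^ 2 := ⟨_, rfl⟩
  obtain ⟨A2, hA2⟩ : ∃ A2 : ℝ, A2 = 2 * CR ^ 2 * Kw := ⟨_, rfl⟩
  have hKw := Kw_nonneg
  have hA10 : 0 ≤ A1 := by rw [hA1]; positivity
  have hA20 : 0 ≤ A2 := by rw [hA2]; positivity
  have hlog2 : 0 < Real.log 2 := Real.log_pos (by norm_num)
  obtain ⟨C5, hC5⟩ : ∃ C5 : ℝ, C5 = 1 / (ε / 2) / Real.log 2 + 1 := ⟨_, rfl⟩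
  have hC50 : 0 ≤ C5 := by rw [hC5]; positivity
  refine ⟨CK + 2 * A1 + A2 * Kw * CM * C5, ?_, ?_⟩
  · have : 0 ≤ A2 * Kw * CM * C5 := by positivity
    linarith
  intro T0 T L M W hL hLT hCT hWne hSep hWT
  have hT : 1 ≤ T := hL.trans hLT
  have hT0 : 0 < T := by linarith
  have hL0 : 0 < L := by linarith
  have hML : CK * T ≤ M * L := by
    refine le_trans ?_ hCT
    have : 0 ≤ 2 * A1 + A2 * Kw * CM * C5 := by positivity
    nlinarith
  obtain ⟨R, hRdef⟩ : ∃ R : ℝ, R = (W.card : ℝ) := ⟨_, rfl⟩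
  have hR1 : 1 ≤ R := by
    rw [hRdef]; exact_mod_cast hWne.card_pos
  have hR0 : 0 < R := by linarith
  have hRT : R ≤ 2 * T := by
    rw [hRdef]; exact (hcard W hSep).2.2 T0 T hT hWT
  obtain ⟨D0, hD0⟩ : ∃ D0 : ℝ, D0 = max 1 (c * L) := ⟨_, rfl⟩
  have hD01 : 1 ≤ D0 := by rw [hD0]; exact le_max_left _ _
  have hD0L : c * L ≤ D0 := by rw [hD0]; exact le_max_right _ _
  obtain ⟨I0, hI0⟩ : ∃ I0 : ℕ, I0 = ⌊Real.log T / Real.log 2⌋₊ + 1 := ⟨_, rfl⟩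
  obtain ⟨S, hSdef⟩ : ∃ S : Finset ℕ, S = (Finset.range I0).filter (fun i => (2 : ℝ) ^ i * D0 ≤ T) := ⟨_, rfl⟩
  have hScard : (S.card : ℝ) ≤ C5 * T ^ (ε / 2) := by
    have h1 : (S.card : ℝ) ≤ I0 := by
      rw [hSdef]
      exact_mod_cast (Finset.card_filter_le _ _).trans (by simp)
    have h2 : (I0 : ℝ) ≤ Real.log T / Real.log 2 + 1 := by
      rw [hI0]; push_cast
      have := Nat.floor_le (div_nonneg (Real.log_nonneg hT) hlog2.le)
      linarith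
    have h3 : Real.log T ≤ T ^ (ε / 2) / (ε / 2) := Real.log_le_rpow_div hT0.le (by positivity)
    have h4 : 1 ≤ T ^ (ε / 2) := Real.one_le_rpow hT (by positivity)
    calc (S.card : ℝ) ≤ Real.log T / Real.log 2 + 1 := h1.trans h2
      _ ≤ T ^ (ε / 2) / (ε / 2) / Real.log 2 + T ^ (ε / 2) := by gcongr
      _ = C5 * T ^ (ε / 2) := by rw [hC5]; ring
  -- bound for one pair
  have hpair : ∀ s ∈ W, ∀ t ∈ W, ‖kk L M (s - t)‖ ^ 2 ≤
      A1 + ∑ i ∈ S, A2 * (L ^ 2 / (2 ^ i * D0) * Gw u (2 ^ i * D0 / L) (s - t)) := by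
    intro s hs t ht
    have hxT : |s - t| ≤ T := by
      rw [abs_le]
      have := hWT s hs; have := hWT t ht
      constructor <;> linarith [(hWT s hs).1, (hWT s hs).2, (hWT t ht).1, (hWT t ht).2]
    have hsum0 : 0 ≤ ∑ i ∈ S, A2 * (L ^ 2 / (2 ^ i * D0) * Gw u (2 ^ i * D0 / L) (s - t)) := by
      refine Finset.sum_nonneg (fun i _ => ?_)
      have := Gw_nonneg u (2 ^ i * D0 / L) (s - t)
      positivity
    by_cases hnear : |s - t| ≤ c * L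
    · have h1 := near hc1 hc12 hCS1 hS M hL (t := s - t) (by rw [← hc]; exact hnear)
      rw [← hZ] at h1
      have h2 : ‖kk L M (s - t)‖ ^ 2 ≤ (CS * Z) ^ 2 := pow_le_pow_left₀ (norm_nonneg _) h1 2
      have h3 : (CS * Z) ^ 2 ≤ A1 := by
        rw [hA1]
        have : 0 ≤ 2 * (CR + CR / c + CN / c + CK) ^ 2 := by positivity
        linarith
      linarith
    · push Not at hnear
      have hne : s ≠ t := by
        rintro rfl
        simp at hnear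
        nlinarith
      have h1x : 1 ≤ |s - t| := hSep s hs t ht hne
      have hD0x : D0 ≤ |s - t| := by rw [hD0]; exact max_le h1x hnear.le
      obtain ⟨i, hi1, hi2⟩ := exists_nat_pow_near (x := |s - t| / D0) (y := (2 : ℝ))
        (by rw [le_div_iff₀ (by linarith)]; linarith) (by norm_num)
      have hD0p : 0 < D0 := by linarith
      rw [le_div_iff₀ hD0p] at hi1
      rw [div_lt_iff₀ hD0p] at hi2
      have hiT : (2 : ℝ) ^ i * D0 ≤ T := hi1.trans hxT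
      have hiS : i ∈ S := by
        rw [hSdef, Finset.mem_filter, Finset.mem_range]
        refine ⟨?_, hiT⟩
        rw [hI0]
        have h2i : (2 : ℝ) ^ i ≤ T := by
          have : (0 : ℝ) < 2 ^ i := by positivity
          nlinarith
        have h3 : (i : ℝ) * Real.log 2 ≤ Real.log T := by
          rw [← Real.log_pow]
          exact Real.log_le_log (by positivity) h2i
        have h4 : i ≤ ⌊Real.log T / Real.log 2⌋₊ := by
          apply Nat.le_floor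
          rw [le_div_iff₀ hlog2]; exact h3
        omega
      have h2i1 : (1 : ℝ) ≤ 2 ^ i := one_le_pow₀ (by norm_num)
      have h5 := far (D := 2 ^ i * D0) hcont (fun N t hN => hBb N t hN) hCK1 hCN1 hCR1 hc0 hK hN hR hL hT hxT hML
        (by nlinarith) (by nlinarith) hi1 (by rw [pow_succ] at hi2; linarith)
      have h6 : A2 * (L ^ 2 / (2 ^ i * D0) * Gw u (2 ^ i * D0 / L) (s - t)) ≤
          ∑ i ∈ S, A2 * (L ^ 2 / (2 ^ i * D0) * Gw u (2 ^ i * D0 / L) (s - t)) := by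
        refine Finset.single_le_sum (f := fun i : ℕ => A2 * (L ^ 2 / (2 ^ i * D0) * Gw u (2 ^ i * D0 / L) (s - t)))
          (fun j _ => ?_) hiS
        have := Gw_nonneg u (2 ^ j * D0 / L) (s - t)
        positivity
      have h7 : 2 * (CR + CR / c + CN / c + CK) ^ 2 ≤ A1 := by
        rw [hA1]
        have : 0 ≤ (CS * Z) ^ 2 := sq_nonneg _
        linarith
      rw [← hA2] at h5
      linarith
  -- sums over the pairs for one scale
  have hscale : ∀ i ∈ S, ∑ s ∈ W, ∑ t ∈ W, (L ^ 2 / (2 ^ i * D0) * Gw u (2 ^ i * D0 / L) (s - t)) ≤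
      CM * T ^ (ε / 2) * Kw * (R * (R ^ (1 - 1 / (k : ℝ)) * (L * T ^ (1 / (k : ℝ)) + T))) := by
    intro i hi
    rw [hSdef, Finset.mem_filter] at hi
    have hDT : (2 : ℝ) ^ i * D0 ≤ T := hi.2
    obtain ⟨D, hD⟩ : ∃ D : ℝ, D = 2 ^ i * D0 := ⟨_, rfl⟩
    rw [← hD] at hDT ⊢
    have hD0' : 0 < D := by rw [hD]; positivity
    have hNp : 0 < D / L := by positivity
    have hNT : D / L ≤ T := (div_le_self hD0'.le hL).trans hDT
    have hB := sum_sq hk hCM1 (half_pos hε) hM hT hNp hNT hWne hSep hWT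
    rw [← hRdef] at hB
    have h1 : ∀ s ∈ W, ∑ t ∈ W, (L ^ 2 / D * Gw u (D / L) (s - t)) ≤
        CM * T ^ (ε / 2) * Kw * (R ^ (1 - 1 / (k : ℝ)) * (L * T ^ (1 / (k : ℝ)) + T)) := by
      intro s _
      rw [← Finset.mul_sum]
      have h2 := sum_Gw hcont (fun N t hN => hBb N t hN) hNp hB s
      calc L ^ 2 / D * ∑ t ∈ W, Gw u (D / L) (s - t)
          ≤ L ^ 2 / D * (CM * T ^ (ε / 2) * R ^ (1 - 1 / (k : ℝ)) * ((T ^ (1 / (k : ℝ)) + D / L) * (D / L)) * Kw) := by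
            gcongr
        _ = CM * T ^ (ε / 2) * Kw * (R ^ (1 - 1 / (k : ℝ)) * (L * T ^ (1 / (k : ℝ)) + D)) := by
            field_simp
        _ ≤ _ := by gcongr
    calc ∑ s ∈ W, ∑ t ∈ W, (L ^ 2 / D * Gw u (D / L) (s - t))
        ≤ ∑ s ∈ W, CM * T ^ (ε / 2) * Kw * (R ^ (1 - 1 / (k : ℝ)) * (L * T ^ (1 / (k : ℝ)) + T)) :=
          Finset.sum_le_sum h1
      _ = _ := by rw [Finset.sum_const, nsmul_eq_mul, ← hRdef]; ring
  obtain ⟨hx1, hx2⟩ := expo hk hR1 hRT hL hT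
  rw [← hRdef]
  obtain ⟨P, hP⟩ : ∃ P : ℝ, P = L * R ^ 2 * (T / R) ^ (1 / (k : ℝ)) := ⟨_, rfl⟩
  obtain ⟨Q, hQ⟩ : ∃ Q : ℝ, Q = T * R ^ (2 - 1 / (k : ℝ)) := ⟨_, rfl⟩
  rw [← hP, ← hQ] at hx2
  rw [← hP] at hx1
  rw [← hP, ← hQ]
  have hP0 : 0 ≤ P := by rw [hP]; positivity
  have hQ0 : 0 ≤ Q := by rw [hQ]; positivity
  have hTe : 1 ≤ T ^ ε := Real.one_le_rpow hT hε.le
  have hTT : T ^ (ε / 2) * T ^ (ε / 2) = T ^ ε := by
    rw [← Real.rpow_add hT0]; congr 1; ring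
  have hTh : 0 ≤ T ^ (ε / 2) := by positivity
  have step1 : ∑ s ∈ W, ∑ t ∈ W, ‖kk L M (s - t)‖ ^ 2 ≤
      A1 * R ^ 2 + ∑ i ∈ S, A2 * ∑ s ∈ W, ∑ t ∈ W, (L ^ 2 / (2 ^ i * D0) * Gw u (2 ^ i * D0 / L) (s - t)) := by
    calc ∑ s ∈ W, ∑ t ∈ W, ‖kk L M (s - t)‖ ^ 2
        ≤ ∑ s ∈ W, ∑ t ∈ W, (A1 + ∑ i ∈ S, A2 * (L ^ 2 / (2 ^ i * D0) * Gw u (2 ^ i * D0 / L) (s - t))) :=
          Finset.sum_le_sum (fun s hs => Finset.sum_le_sum (fun t ht => hpair s hs t ht))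
      _ = _ := by
          simp only [Finset.sum_add_distrib, Finset.sum_const, nsmul_eq_mul, ← hRdef]
          congr 1
          · ring
          · simp only [Finset.mul_sum]
            symm
            rw [Finset.sum_comm]
            refine Finset.sum_congr rfl (fun s _ => ?_)
            rw [Finset.sum_comm]
  have step2 : ∑ i ∈ S, A2 * ∑ s ∈ W, ∑ t ∈ W, (L ^ 2 / (2 ^ i * D0) * Gw u (2 ^ i * D0 / L) (s - t)) ≤
      A2 * Kw * CM * C5 * T ^ ε * (P + Q) := by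
    calc ∑ i ∈ S, A2 * ∑ s ∈ W, ∑ t ∈ W, (L ^ 2 / (2 ^ i * D0) * Gw u (2 ^ i * D0 / L) (s - t))
        ≤ ∑ i ∈ S, A2 * (CM * T ^ (ε / 2) * Kw * (P + Q)) := by
          refine Finset.sum_le_sum (fun i hi => ?_)
          have := hscale i hi
          rw [hx2] at this
          gcongr
      _ = S.card * (A2 * (CM * T ^ (ε / 2) * Kw * (P + Q))) := by
          rw [Finset.sum_const, nsmul_eq_mul]
      _ ≤ C5 * T ^ (ε / 2) * (A2 * (CM * T ^ (ε / 2) * Kw * (P + Q))) := by gcongr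
      _ = A2 * Kw * CM * C5 * (T ^ (ε / 2) * T ^ (ε / 2)) * (P + Q) := by ring
      _ = _ := by rw [hTT]
  have step3 : A1 * R ^ 2 ≤ 2 * A1 * T ^ ε * (P + Q) := by
    calc A1 * R ^ 2 ≤ A1 * (2 * P) := by gcongr
      _ = 2 * A1 * 1 * (P + 0) := by ring
      _ ≤ 2 * A1 * T ^ ε * (P + Q) := by gcongr
  have step4 : 0 ≤ CK * T ^ ε * (P + Q) := by positivity
  calc ∑ s ∈ W, ∑ t ∈ W, ‖kk L M (s - t)‖ ^ 2
      ≤ 2 * A1 * T ^ ε * (P + Q) + A2 * Kw * CM * C5 * T ^ ε * (P + Q) := by linarith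
    _ ≤ CK * T ^ ε * (P + Q) + (2 * A1 * T ^ ε * (P + Q) + A2 * Kw * CM * C5 * T ^ ε * (P + Q)) := by linarith
    _ = _ := by ring

end Pool.Agent.Work.MP_56b8f5_nt.UC
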