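import Mathlib
import Pool.Agent.Work.MP_56b8f5_nt.UC.Stmts

/-!
MP_56b8f5_nt, block UC, item T3: the cubic term.
-/

open MeasureTheory Set Filter Topology

noncomputable section

namespace Pool.Agent.Work.MP_56b8f5_nt.UC

namespace T3_aux

lemma dZ_nonneg (x : ℝ) : 0 ≤ dZ x := abs_nonneg _

lemma dZ_continuous : Continuous dZ := by
  have h : dZ = fun x : ℝ => ‖(x : UnitAddCircle)‖ := by
    funext x
    rw [UnitAddCircle.norm_eq]
    rfl
  rw [h]
  exact continuous_norm.comp (AddCircle.continuous_mk' (1 : ℝ))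

lemma JI_compact : IsCompact JI := isCompact_Icc

lemma JI_meas : MeasurableSet JI := measurableSet_Icc

lemma max_eq_of_mem {v : ℝ} (hv : v ∈ JI) : max v (1 / 25) = v := max_eq_left hv.1

lemma Rh_cont (W : Finset ℝ) : Continuous fun v : ℝ => Rh W (max v (1 / 25)) := by
  unfold Rh
  refine continuous_finsetSum _ fun t _ => ?_
  refine Continuous.cpow ?_ continuous_const ?_
  · exact Complex.continuous_ofReal.comp (continuous_id.max continuous_const)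
  · intro v
    rw [Complex.ofReal_mem_slitPlane]
    exact lt_of_lt_of_le (by norm_num) (le_max_right v (1 / 25))

lemma Fm_cont (L : ℝ) (hL : 0 ≤ L) (M : ℕ) (f : ℝ → ℝ) (hf : Continuous f) :
    Continuous (Fm L M f) := by
  unfold Fm
  refine continuous_finsetSum _ fun m1 _ => continuous_finsetSum _ fun m2 _ => ?_
  refine continuous_parametric_integral_of_continuous
    (f := fun v z : ℝ => f z / (1 + L * dZ (m1 * v + m2 * z)) ^ 2) ?_ JI_compact
  have h : Continuous fun p : ℝ × ℝ => f p.2 / (1 + L * dZ (m1 * p.1 + m2 * p.2)) ^ 2 := by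
    refine Continuous.div (hf.comp continuous_snd) ?_ ?_
    · refine Continuous.pow (continuous_const.add (continuous_const.mul (dZ_continuous.comp ?_))) 2
      exact (continuous_const.mul continuous_fst).add (continuous_const.mul continuous_snd)
    · intro p
      have h1 := dZ_nonneg (m1 * p.1 + m2 * p.2)
      have h2 : 0 ≤ L * dZ (m1 * p.1 + m2 * p.2) := mul_nonneg hL h1
      positivity
  exact h

lemma Fm_congr (L : ℝ) (M : ℕ) (f g : ℝ → ℝ) (hfg : ∀ z ∈ JI, f z = g z) : Fm L M f = Fm L M g := by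
  funext v
  unfold Fm
  refine Finset.sum_congr rfl fun m1 _ => Finset.sum_congr rfl fun m2 _ => ?_
  refine setIntegral_congr_fun JI_meas fun z hz => ?_
  simp only [hfg z hz]

lemma Fm_nonneg (L : ℝ) (M : ℕ) (f : ℝ → ℝ) (hf : ∀ z ∈ JI, 0 ≤ f z) (v : ℝ) : 0 ≤ Fm L M f v := by
  unfold Fm
  refine Finset.sum_nonneg fun m1 _ => Finset.sum_nonneg fun m2 _ => ?_
  refine setIntegral_nonneg JI_meas fun z hz => ?_
  exact div_nonneg (hf z hz) (sq_nonneg _)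

lemma cs (f g : ℝ → ℝ) (hf : Continuous f) (hg : Continuous g) (hf0 : ∀ x ∈ JI, 0 ≤ f x)
    (hg0 : ∀ x ∈ JI, 0 ≤ g x) :
    ∫ v in JI, f v * g v ≤ Real.sqrt (∫ v in JI, f v ^ 2) * Real.sqrt (∫ v in JI, g v ^ 2) := by
  have hfm : MemLp f (ENNReal.ofReal 2) (volume.restrict JI) := by
    have e : ENNReal.ofReal 2 = 2 := by norm_num
    rw [e, memLp_two_iff_integrable_sq hf.aestronglyMeasurable]
    exact (hf.pow 2).continuousOn.integrableOn_compact JI_compact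
  have hgm : MemLp g (ENNReal.ofReal 2) (volume.restrict JI) := by
    have e : ENNReal.ofReal 2 = 2 := by norm_num
    rw [e, memLp_two_iff_integrable_sq hg.aestronglyMeasurable]
    exact (hg.pow 2).continuousOn.integrableOn_compact JI_compact
  have h := integral_mul_le_Lp_mul_Lq_of_nonneg (μ := volume.restrict JI)
    Real.HolderConjugate.two_two (f := f) (g := g)
    ((ae_restrict_iff' JI_meas).2 (Filter.Eventually.of_forall hf0))
    ((ae_restrict_iff' JI_meas).2 (Filter.Eventually.of_forall hg0)) hfm hgm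
  rw [Real.sqrt_eq_rpow, Real.sqrt_eq_rpow]
  simpa using h

lemma sqrt_add_le (a b : ℝ) (ha : 0 ≤ a) (hb : 0 ≤ b) :
    Real.sqrt (a + b) ≤ Real.sqrt a + Real.sqrt b := by
  rw [Real.sqrt_le_left (by positivity)]
  have h1 := Real.sq_sqrt ha
  have h2 := Real.sq_sqrt hb
  nlinarith [Real.sqrt_nonneg a, Real.sqrt_nonneg b, mul_nonneg (Real.sqrt_nonneg a) (Real.sqrt_nonneg b)]

end T3_aux

open T3_aux in
theorem iT3 (hT3a : StT3a) (hT3b : StT3b) (hAf : StAf) (hR24 : StR24) : StT3 := by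
  intro ε hε
  obtain ⟨Ca, hCa, ha⟩ := hT3a
  obtain ⟨Cb, hCb, hb⟩ := hT3b
  obtain ⟨Cf, hCf, hf⟩ := hAf ε hε
  obtain ⟨Cr, hCr, hr⟩ := hR24
  refine ⟨Ca * Cb * Cf * Cr ^ 2, ?_, ?_⟩
  · have h1 : 1 ≤ Ca * Cb := one_le_mul_of_one_le_of_one_le hCa hCb
    have h2 : 1 ≤ Ca * Cb * Cf := one_le_mul_of_one_le_of_one_le h1 hCf
    exact one_le_mul_of_one_le_of_one_le h2 (one_le_pow₀ hCr)
  intro L M W hL hM hW
  have hL0 : 0 < L := by linarith
  obtain ⟨hr2, hr4⟩ := hr W hW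
  -- the continuous modification
  set g : ℝ → ℝ := fun v => ‖Rh W (max v (1 / 25))‖ with hg
  have hgc : Continuous g := (Rh_cont W).norm
  have hg0 : ∀ v, 0 ≤ g v := fun v => norm_nonneg _
  have hgJ : ∀ v ∈ JI, g v = ‖Rh W v‖ := fun v hv => by
    simp only [hg, max_eq_of_mem hv]
  have hFe : Fm L M (fun z => ‖Rh W z‖ ^ 2) = Fm L M (fun z => g z ^ 2) :=
    Fm_congr L M _ _ fun z hz => by simp only [hgJ z hz]
  have h2 : ∫ v in JI, g v ^ 2 ≤ Cr * W.card := by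
    rw [setIntegral_congr_fun JI_meas (g := fun v => ‖Rh W v‖ ^ 2) fun v hv => by
      simp only [hgJ v hv]]
    exact hr2
  have h4 : ∫ v in JI, (g v ^ 2) ^ 2 ≤ Cr * EN W := by
    rw [setIntegral_congr_fun JI_meas (g := fun v => ‖Rh W v‖ ^ 4) fun v hv => by
      simp only [hgJ v hv]; ring]
    exact hr4
  have h20 : 0 ≤ ∫ v in JI, g v ^ 2 := setIntegral_nonneg JI_meas fun v _ => sq_nonneg _
  have h40 : 0 ≤ ∫ v in JI, (g v ^ 2) ^ 2 := setIntegral_nonneg JI_meas fun v _ => sq_nonneg _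
  have hEN : 0 ≤ EN W := by
    by_contra hcon
    push Not at hcon
    nlinarith
  have hfa := hf L M (fun z => g z ^ 2) hL hM (hgc.pow 2).continuousOn (fun z _ => sq_nonneg _)
  have hcs := cs g (Fm L M (fun z => g z ^ 2)) hgc (Fm_cont L hL0.le M _ (hgc.pow 2))
    (fun v _ => hg0 v) (fun v _ => Fm_nonneg L M _ (fun z _ => sq_nonneg _) v)
  have hbb := hb L M W hL
  have haa := ha L M W hL
  set R : ℝ := (W.card : ℝ) with hR
  have hR0 : 0 ≤ R := Nat.cast_nonneg _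
  have hM0 : (0 : ℝ) ≤ M := Nat.cast_nonneg _
  have hLe : 0 ≤ L ^ ε := (Real.rpow_pos_of_pos hL0 ε).le
  have hLe1 : 1 ≤ L ^ ε := Real.one_le_rpow hL hε.le
  -- the bound for the integral of `Fm ^ 2`
  have hF : Real.sqrt (∫ v in JI, Fm L M (fun z => g z ^ 2) v ^ 2) ≤
      Cf * Cr / L * ((M : ℝ) ^ 2 * R + L ^ ε * M * Real.sqrt (EN W)) := by
    rw [Real.sqrt_le_left (by positivity)]
    refine hfa.trans ?_
    have e1 : (∫ z in JI, g z ^ 2) ^ 2 ≤ (Cr * R) ^ 2 := pow_le_pow_left₀ h20 h2 2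
    have hs := Real.sq_sqrt hEN
    have e2 : (M : ℝ) ^ 4 * (∫ z in JI, g z ^ 2) ^ 2 +
        L ^ ε * (M : ℝ) ^ 2 * ∫ z in JI, (g z ^ 2) ^ 2 ≤
        (M : ℝ) ^ 4 * (Cr * R) ^ 2 + L ^ ε * (M : ℝ) ^ 2 * (Cr * EN W) := by
      gcongr
    have e3 : (M : ℝ) ^ 4 * (Cr * R) ^ 2 + L ^ ε * (M : ℝ) ^ 2 * (Cr * EN W) ≤
        Cr ^ 2 * ((M : ℝ) ^ 2 * R + L ^ ε * M * Real.sqrt (EN W)) ^ 2 := by
      have k1 : L ^ ε * (M : ℝ) ^ 2 * (Cr * EN W) ≤
          (L ^ ε) ^ 2 * (M : ℝ) ^ 2 * (Cr ^ 2 * EN W) := by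
        have k2 : L ^ ε ≤ (L ^ ε) ^ 2 := by nlinarith
        have k3 : Cr ≤ Cr ^ 2 := by nlinarith
        gcongr
      have k4 : Cr ^ 2 * ((M : ℝ) ^ 2 * R + L ^ ε * M * Real.sqrt (EN W)) ^ 2 =
          (M : ℝ) ^ 4 * (Cr * R) ^ 2 + (L ^ ε) ^ 2 * (M : ℝ) ^ 2 * (Cr ^ 2 * (Real.sqrt (EN W)) ^ 2) +
          2 * Cr ^ 2 * ((M : ℝ) ^ 2 * R) * (L ^ ε * M * Real.sqrt (EN W)) := by ring
      rw [k4, hs]
      have k5 : 0 ≤ 2 * Cr ^ 2 * ((M : ℝ) ^ 2 * R) * (L ^ ε * M * Real.sqrt (EN W)) := by positivity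
      linarith
    calc Cf / L ^ 2 * ((M : ℝ) ^ 4 * (∫ z in JI, g z ^ 2) ^ 2 +
        L ^ ε * (M : ℝ) ^ 2 * ∫ z in JI, (g z ^ 2) ^ 2)
        ≤ Cf / L ^ 2 * (Cr ^ 2 * ((M : ℝ) ^ 2 * R + L ^ ε * M * Real.sqrt (EN W)) ^ 2) := by
          have : 0 ≤ Cf / L ^ 2 := by positivity
          exact mul_le_mul_of_nonneg_left (e2.trans e3) this
      _ ≤ Cf ^ 2 / L ^ 2 * (Cr ^ 2 * ((M : ℝ) ^ 2 * R + L ^ ε * M * Real.sqrt (EN W)) ^ 2) := by
          have : Cf ≤ Cf ^ 2 := by nlinarith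
          gcongr
      _ = (Cf * Cr / L * ((M : ℝ) ^ 2 * R + L ^ ε * M * Real.sqrt (EN W))) ^ 2 := by
          field_simp
  have hG : Real.sqrt (∫ v in JI, g v ^ 2) ≤ Cr * Real.sqrt R := by
    rw [Real.sqrt_le_left (by positivity)]
    refine h2.trans ?_
    rw [mul_pow, Real.sq_sqrt hR0]
    have : Cr ≤ Cr ^ 2 := by nlinarith
    gcongr
  have hI : ∫ v in JI, ‖Rh W v‖ * Fm L M (fun z => ‖Rh W z‖ ^ 2) v ≤
      Cf * Cr ^ 2 / L * Real.sqrt R * ((M : ℝ) ^ 2 * R + L ^ ε * M * Real.sqrt (EN W)) := by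
    have hIe : ∫ v in JI, ‖Rh W v‖ * Fm L M (fun z => g z ^ 2) v =
        ∫ v in JI, g v * Fm L M (fun z => g z ^ 2) v := by
      refine setIntegral_congr_fun JI_meas fun v hv => ?_
      show ‖Rh W v‖ * Fm L M (fun z => g z ^ 2) v = g v * Fm L M (fun z => g z ^ 2) v
      rw [hgJ v hv]
    rw [hFe, hIe]
    refine hcs.trans ?_
    calc Real.sqrt (∫ v in JI, g v ^ 2) * Real.sqrt (∫ v in JI, Fm L M (fun z => g z ^ 2) v ^ 2)
        ≤ (Cr * Real.sqrt R) *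
          (Cf * Cr / L * ((M : ℝ) ^ 2 * R + L ^ ε * M * Real.sqrt (EN W))) :=
          mul_le_mul hG hF (Real.sqrt_nonneg _) (by positivity)
      _ = _ := by ring
  refine haa.trans ?_
  calc Ca * L ^ 3 * _ ≤ Ca * L ^ 3 *
      (Cb * (Cf * Cr ^ 2 / L * Real.sqrt R * ((M : ℝ) ^ 2 * R + L ^ ε * M * Real.sqrt (EN W)))) := by
        refine mul_le_mul_of_nonneg_left (hbb.trans ?_) (by positivity)
        exact mul_le_mul_of_nonneg_left hI (by linarith)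
    _ = Ca * Cb * Cf * Cr ^ 2 * L ^ 2 * ((M : ℝ) ^ 2 * (R * Real.sqrt R) +
        L ^ ε * M * Real.sqrt R * Real.sqrt (EN W)) := by
        field_simp

end Pool.Agent.Work.MP_56b8f5_nt.UC
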