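import Mathlib
import Pool.Agent.Work.MP_56b8f5_nt.UC.Stmts
import Pool.Agent.Work.MP_56b8f5_nt.UC.I_Ow

/-!
MP_56b8f5_nt, block UC, item T3a: expansion of the cubic term.  Statement: helper45.  Proof: helper65.
-/

open MeasureTheory Set Filter Topology

noncomputable section

namespace Pool.Agent.Work.MP_56b8f5_nt.UC

open Pool.Agent.Work.MP_56b8f5_nt.UB (ee om)

namespace T3a_aux

lemma norm_ee (x : ℝ) : ‖ee x‖ = 1 := by
  unfold ee
  rw [Complex.norm_exp_ofReal_mul_I]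

lemma ee_add (x y : ℝ) : ee (x + y) = ee x * ee y := by
  unfold ee
  rw [← Complex.exp_add]
  congr 1
  push_cast
  ring

/-- the factor `om(x/L) x^{-iu} e(-mx)` -/
def ga (L u : ℝ) (m : ℤ) (x : ℝ) : ℂ :=
  ((om (x / L) : ℝ) : ℂ) * (x : ℂ) ^ (-(u * Complex.I)) * ee (-(m * x))

/-- the support of `x ↦ ga L u m x` -/
abbrev KL (L : ℝ) : Set ℝ := Icc (L / 2) (5 * L / 2)

abbrev J5 : Set ℝ := Icc (1 / 5 : ℝ) 5

abbrev nu : Measure ℝ := volume.restrict J5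

lemma ga_zero {L u : ℝ} {m : ℤ} {x : ℝ} (hL : 0 < L) (h : x ≤ L / 2 ∨ 5 * L / 2 ≤ x) :
    ga L u m x = 0 := by
  have h0 : om (x / L) = 0 := by
    apply om_eq_zero
    rcases h with h | h
    · left; rw [div_le_iff₀ hL]; linarith
    · right; rw [le_div_iff₀ hL]; linarith
  unfold ga
  rw [h0]
  simp

lemma norm_ga_le {L u : ℝ} {m : ℤ} (hL : 0 < L) (x : ℝ) : ‖ga L u m x‖ ≤ 1 := by
  by_cases hx : 0 < x
  · unfold ga
    rw [norm_mul, norm_mul, norm_ee, mul_one, Complex.norm_cpow_eq_rpow_re_of_pos hx]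
    have h0 : (-((u : ℂ) * Complex.I)).re = 0 := by simp
    rw [h0, Real.rpow_zero, mul_one, Complex.norm_real, Real.norm_eq_abs, abs_of_nonneg (om_nonneg _)]
    exact om_le_one _
  · rw [ga_zero hL (Or.inl (by linarith))]
    simp

lemma measurable_ga (L u : ℝ) (m : ℤ) : Measurable (ga L u m) := by
  unfold ga ee
  have h1 : Measurable fun x : ℝ => ((om (x / L) : ℝ) : ℂ) :=
    Complex.measurable_ofReal.comp (om_smooth.continuous.measurable.comp (measurable_id.div_const L))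
  have h2 : Measurable fun x : ℝ => (x : ℂ) ^ (-(u * Complex.I)) :=
    Complex.measurable_ofReal.pow_const _
  have h3 : Measurable fun x : ℝ =>
      Complex.exp (((2 * Real.pi * (-(m * x)) : ℝ) : ℂ) * Complex.I) := by fun_prop
  exact (h1.mul h2).mul h3

lemma Im_eq {L : ℝ} (hL : 0 < L) (u : ℝ) (m : ℤ) : Im om L u m = ∫ x in KL L, ga L u m x := by
  have h1 : Im om L u m = ∫ x in Ioi (0 : ℝ), ga L u m x := rfl
  rw [h1]
  apply setIntegral_eq_of_subset_of_forall_sdiff_eq_zero measurableSet_Ioi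
  · intro x hx
    exact lt_of_lt_of_le (by positivity) hx.1
  · rintro x ⟨_, hx2⟩
    apply ga_zero hL
    by_contra hcon
    push Not at hcon
    exact hx2 ⟨hcon.1.le, hcon.2.le⟩

lemma Im_sub {L ρ : ℝ} (hL : 0 < L) (hρ : ρ ∈ KL L) (u : ℝ) (m : ℤ) :
    Im om L u m = (ρ : ℂ) * ∫ v, ga L u m (ρ * v) ∂nu := by
  have hρ0 : 0 < ρ := lt_of_lt_of_le (by positivity) hρ.1
  have h1 : Im om L u m = ∫ x in Ioi (0 : ℝ), ga L u m x := rfl
  have h2 := integral_comp_mul_left_Ioi (ga L u m) 0 hρ0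
  rw [mul_zero] at h2
  have h3 : ∫ v in Ioi (0 : ℝ), ga L u m (ρ * v) = ∫ v in J5, ga L u m (ρ * v) := by
    apply setIntegral_eq_of_subset_of_forall_sdiff_eq_zero measurableSet_Ioi
    · intro x hx
      exact lt_of_lt_of_le (by norm_num) hx.1
    · rintro x ⟨hx, hx2⟩
      apply ga_zero hL
      by_contra hcon
      push Not at hcon
      obtain ⟨a1, a2⟩ := hcon
      have hx' : 0 < x := hx
      have b1 := mul_le_mul_of_nonneg_right hρ.2 hx'.le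
      have b2 := mul_le_mul_of_nonneg_right hρ.1 hx'.le
      apply hx2
      constructor
      · by_contra h
        push Not at h
        nlinarith
      · by_contra h
        push Not at h
        nlinarith
  rw [← h3, h2, ← h1, Complex.real_smul, ← mul_assoc, ← Complex.ofReal_mul,
    mul_inv_cancel₀ hρ0.ne', Complex.ofReal_one, one_mul]

/-- the integrand -/
def FF (L u1 u2 u3 : ℝ) (m1 m2 m3 : ℤ) (ρ : ℝ) (z : ℝ × ℝ) : ℂ :=
  (ρ : ℂ) ^ 2 * ga L u3 m3 ρ * (ga L u1 m1 (ρ * z.1) * ga L u2 m2 (ρ * z.2))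

lemma FF_int {L : ℝ} (hL : 0 < L) (u1 u2 u3 : ℝ) (m1 m2 m3 : ℤ) :
    Integrable (Function.uncurry (FF L u1 u2 u3 m1 m2 m3))
      ((volume.restrict (KL L)).prod (nu.prod nu)) := by
  refine Integrable.of_bound ?_ ((5 * L / 2) ^ 2) ?_
  · apply Measurable.aestronglyMeasurable
    have h1 : Measurable fun p : ℝ × (ℝ × ℝ) => (p.1 : ℂ) ^ 2 :=
      (Complex.measurable_ofReal.comp measurable_fst).pow_const 2
    have h2 : Measurable fun p : ℝ × (ℝ × ℝ) => ga L u3 m3 p.1 :=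
      (measurable_ga L u3 m3).comp measurable_fst
    have h3 : Measurable fun p : ℝ × (ℝ × ℝ) => ga L u1 m1 (p.1 * p.2.1) :=
      (measurable_ga L u1 m1).comp (measurable_fst.mul (measurable_fst.comp measurable_snd))
    have h4 : Measurable fun p : ℝ × (ℝ × ℝ) => ga L u2 m2 (p.1 * p.2.2) :=
      (measurable_ga L u2 m2).comp (measurable_fst.mul (measurable_snd.comp measurable_snd))
    exact (h1.mul h2).mul (h3.mul h4)
  · filter_upwards with p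
    simp only [Function.uncurry, FF]
    by_cases hp : p.1 ∈ KL L
    · have hp0 : 0 < p.1 := lt_of_lt_of_le (by positivity) hp.1
      rw [norm_mul, norm_mul, norm_mul, norm_pow, Complex.norm_real, Real.norm_eq_abs,
        abs_of_pos hp0]
      have a1 : p.1 ^ 2 ≤ (5 * L / 2) ^ 2 := by
        have := hp.2
        gcongr
      have a2 := norm_ga_le (u := u3) (m := m3) hL p.1
      have a3 := norm_ga_le (u := u1) (m := m1) hL (p.1 * p.2.1)
      have a4 := norm_ga_le (u := u2) (m := m2) hL (p.1 * p.2.2)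
      calc p.1 ^ 2 * ‖ga L u3 m3 p.1‖ * (‖ga L u1 m1 (p.1 * p.2.1)‖ * ‖ga L u2 m2 (p.1 * p.2.2)‖)
          ≤ (5 * L / 2) ^ 2 * 1 * (1 * 1) := by gcongr
        _ = (5 * L / 2) ^ 2 := by ring
    · have h0 : ga L u3 m3 p.1 = 0 := by
        apply ga_zero hL
        by_contra hcon
        push Not at hcon
        exact hp ⟨hcon.1.le, hcon.2.le⟩
      rw [h0]
      simp
      positivity

lemma prod_eq {L : ℝ} (hL : 0 < L) (u1 u2 u3 : ℝ) (m1 m2 m3 : ℤ) :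
    Im om L u1 m1 * Im om L u2 m2 * Im om L u3 m3 =
      ∫ z, (∫ ρ in KL L, FF L u1 u2 u3 m1 m2 m3 ρ z) ∂(nu.prod nu) := by
  have h1 : Im om L u1 m1 * Im om L u2 m2 * Im om L u3 m3 =
      ∫ ρ in KL L, ∫ z, FF L u1 u2 u3 m1 m2 m3 ρ z ∂(nu.prod nu) := by
    rw [mul_comm (Im om L u1 m1 * Im om L u2 m2) (Im om L u3 m3), Im_eq hL u3 m3,
      ← integral_mul_const]
    apply setIntegral_congr_fun measurableSet_Icc
    intro ρ hρ
    have e1 := Im_sub hL hρ u1 m1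
    have e2 := Im_sub hL hρ u2 m2
    simp only [FF]
    rw [e1, e2, integral_const_mul,
      integral_prod_mul (fun v => ga L u1 m1 (ρ * v)) (fun v => ga L u2 m2 (ρ * v))]
    ring
  rw [h1, integral_integral_swap (FF_int hL u1 u2 u3 m1 m2 m3)]

/-- exponential form of the powers -/
lemma cp {v : ℝ} (hv : 0 < v) (x : ℝ) :
    (v : ℂ) ^ ((x : ℂ) * Complex.I) = Complex.exp (((x * Real.log v : ℝ) : ℂ) * Complex.I) := by
  rw [Complex.cpow_def_of_ne_zero (by exact_mod_cast hv.ne'), ← Complex.ofReal_log hv.le]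
  congr 1
  push_cast
  ring

lemma cpn {v : ℝ} (hv : 0 < v) (x : ℝ) :
    (v : ℂ) ^ (-((x : ℂ) * Complex.I)) = Complex.exp (-(((x * Real.log v : ℝ) : ℂ) * Complex.I)) := by
  rw [Complex.cpow_def_of_ne_zero (by exact_mod_cast hv.ne'), ← Complex.ofReal_log hv.le]
  congr 1
  push_cast
  ring

/-- the radial integral -/
def I0 (L : ℝ) (m1 m2 m3 : ℤ) (v1 v2 : ℝ) : ℂ :=
  ∫ ρ in KL L, ((om (ρ * v1 / L) * om (ρ * v2 / L) * om (ρ / L) * ρ ^ 2 : ℝ) : ℂ) *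
    ee (-(ρ * (m1 * v1 + m2 * v2 + m3)))

lemma inner_eq {L : ℝ} (hL : 0 < L) (r s t : ℝ) (m1 m2 m3 : ℤ) {v1 v2 : ℝ} (h1 : 0 < v1)
    (h2 : 0 < v2) :
    ∫ ρ in KL L, FF L (r - s) (s - t) (t - r) m1 m2 m3 ρ (v1, v2) =
      (Complex.exp (-(((r * Real.log v1 : ℝ) : ℂ) * Complex.I)) *
        Complex.exp (((s * Real.log (v1 / v2) : ℝ) : ℂ) * Complex.I) *
        Complex.exp (((t * Real.log v2 : ℝ) : ℂ) * Complex.I)) * I0 L m1 m2 m3 v1 v2 := by
  unfold I0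
  rw [← integral_const_mul]
  apply setIntegral_congr_fun measurableSet_Icc
  intro ρ hρ
  have hρ0 : 0 < ρ := lt_of_lt_of_le (by positivity) hρ.1
  simp only [FF, ga]
  rw [cpn hρ0, cpn (mul_pos hρ0 h1), cpn (mul_pos hρ0 h2), Real.log_mul hρ0.ne' h1.ne',
    Real.log_mul hρ0.ne' h2.ne', Real.log_div h1.ne' h2.ne']
  have e3 : ee (-(ρ * (m1 * v1 + m2 * v2 + m3))) =
      ee (-(m1 * (ρ * v1))) * ee (-(m2 * (ρ * v2))) * ee (-(m3 * ρ)) := by
    rw [← ee_add, ← ee_add]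
    congr 1
    ring
  rw [e3]
  have e4 : Complex.exp (-((((t - r) * Real.log ρ : ℝ) : ℂ) * Complex.I)) *
      Complex.exp (-((((r - s) * (Real.log ρ + Real.log v1) : ℝ) : ℂ) * Complex.I)) *
      Complex.exp (-((((s - t) * (Real.log ρ + Real.log v2) : ℝ) : ℂ) * Complex.I)) =
      Complex.exp (-(((r * Real.log v1 : ℝ) : ℂ) * Complex.I)) *
        Complex.exp (((s * (Real.log v1 - Real.log v2) : ℝ) : ℂ) * Complex.I) *
        Complex.exp (((t * Real.log v2 : ℝ) : ℂ) * Complex.I) := by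
    rw [← Complex.exp_add, ← Complex.exp_add, ← Complex.exp_add, ← Complex.exp_add]
    congr 1
    push_cast
    ring
  rw [← e4]
  push_cast
  ring

lemma I0_eq {L : ℝ} (hL : 0 < L) (m1 m2 m3 : ℤ) (v1 v2 : ℝ) :
    I0 L m1 m2 m3 v1 v2 = (L : ℂ) ^ 3 *
      ∫ r in Ioi (0 : ℝ), ((om (r * v1) * om (r * v2) * om r * r ^ 2 : ℝ) : ℂ) *
        ee (-(L * (m1 * v1 + m2 * v2 + m3) * r)) := by
  set G : ℝ → ℂ := fun ρ => ((om (ρ * v1 / L) * om (ρ * v2 / L) * om (ρ / L) * ρ ^ 2 : ℝ) : ℂ) *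
    ee (-(ρ * (m1 * v1 + m2 * v2 + m3))) with hG
  have h1 : I0 L m1 m2 m3 v1 v2 = ∫ ρ in Ioi (0 : ℝ), G ρ := by
    symm
    apply setIntegral_eq_of_subset_of_forall_sdiff_eq_zero measurableSet_Ioi
    · intro x hx
      exact lt_of_lt_of_le (by positivity) hx.1
    · rintro x ⟨_, hx2⟩
      have h0 : om (x / L) = 0 := by
        apply om_eq_zero
        by_contra hcon
        push Not at hcon
        rw [lt_div_iff₀ hL, div_lt_iff₀ hL] at hcon
        apply hx2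
        constructor <;> linarith [hcon.1, hcon.2]
      rw [hG]
      simp only [h0]
      simp
  have h2 := integral_comp_mul_left_Ioi G 0 hL
  rw [mul_zero] at h2
  have h3 : ∫ ρ in Ioi (0 : ℝ), G ρ = (L : ℂ) * ∫ r in Ioi (0 : ℝ), G (L * r) := by
    rw [h2, Complex.real_smul, ← mul_assoc, ← Complex.ofReal_mul, mul_inv_cancel₀ hL.ne',
      Complex.ofReal_one, one_mul]
  rw [h1, h3, pow_succ' (L : ℂ) 2, mul_assoc, ← integral_const_mul ((L : ℂ) ^ 2)]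
  congr 1
  apply integral_congr_ae
  filter_upwards with r
  have e1 : L * r * v1 / L = r * v1 := by field_simp
  have e2 : L * r * v2 / L = r * v2 := by field_simp
  have e3 : L * r / L = r := by field_simp
  have e4 : L * r * (m1 * v1 + m2 * v2 + m3) = L * (m1 * v1 + m2 * v2 + m3) * r := by ring
  simp only [hG, e1, e2, e3, e4]
  push_cast
  ring

lemma comm3 {S : Finset ℤ} {W : Finset ℝ} (f : ℝ → ℝ → ℝ → ℤ → ℂ) :
    ∑ r ∈ W, ∑ s ∈ W, ∑ t ∈ W, ∑ m ∈ S, f r s t m =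
      ∑ m ∈ S, ∑ r ∈ W, ∑ s ∈ W, ∑ t ∈ W, f r s t m := by
  calc ∑ r ∈ W, ∑ s ∈ W, ∑ t ∈ W, ∑ m ∈ S, f r s t m
      = ∑ r ∈ W, ∑ s ∈ W, ∑ m ∈ S, ∑ t ∈ W, f r s t m := by
        refine Finset.sum_congr rfl fun r _ => Finset.sum_congr rfl fun s _ => Finset.sum_comm
    _ = ∑ r ∈ W, ∑ m ∈ S, ∑ s ∈ W, ∑ t ∈ W, f r s t m := by
        refine Finset.sum_congr rfl fun r _ => Finset.sum_comm
    _ = _ := Finset.sum_comm

lemma expand (S : Finset ℤ) (W : Finset ℝ) (A B D : ℝ → ℝ → ℤ → ℂ) :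
    ∑ r ∈ W, ∑ s ∈ W, ∑ t ∈ W, (∑ m ∈ S, A r s m) * (∑ m ∈ S, B s t m) * (∑ m ∈ S, D t r m) =
      ∑ m1 ∈ S, ∑ m2 ∈ S, ∑ m3 ∈ S, ∑ r ∈ W, ∑ s ∈ W, ∑ t ∈ W,
        A r s m1 * B s t m2 * D t r m3 := by
  have h : ∀ r s t : ℝ, (∑ m ∈ S, A r s m) * (∑ m ∈ S, B s t m) * (∑ m ∈ S, D t r m) =
      ∑ m1 ∈ S, ∑ m2 ∈ S, ∑ m3 ∈ S, A r s m1 * B s t m2 * D t r m3 := by
    intro r s t
    rw [Finset.sum_mul_sum, Finset.sum_mul]
    refine Finset.sum_congr rfl fun m1 _ => ?_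
    rw [Finset.sum_mul]
    refine Finset.sum_congr rfl fun m2 _ => ?_
    rw [Finset.mul_sum]
  simp_rw [h]
  rw [comm3]
  refine Finset.sum_congr rfl fun m1 _ => ?_
  rw [comm3]
  refine Finset.sum_congr rfl fun m2 _ => ?_
  rw [comm3]

lemma norm_Rh_neg (W : Finset ℝ) {v : ℝ} (hv : 0 < v) :
    ‖∑ r ∈ W, Complex.exp (-(((r * Real.log v : ℝ) : ℂ) * Complex.I))‖ = ‖Rh W v‖ := by
  rw [← Complex.norm_conj (Rh W v)]
  congr 1
  unfold Rh
  rw [map_sum]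
  refine Finset.sum_congr rfl fun r _ => ?_
  rw [cp hv, ← Complex.exp_conj]
  congr 1
  simp

lemma Rh_eq (W : Finset ℝ) {v : ℝ} (hv : 0 < v) :
    ∑ r ∈ W, Complex.exp (((r * Real.log v : ℝ) : ℂ) * Complex.I) = Rh W v := by
  unfold Rh
  refine Finset.sum_congr rfl fun r _ => ?_
  rw [cp hv]

lemma continuousOn_Rh (W : Finset ℝ) : ContinuousOn (fun v : ℝ => Rh W v) (Ioi 0) := by
  unfold Rh
  apply continuousOn_finsetSum
  intro t _
  apply ContinuousOn.cpow_const Complex.continuous_ofReal.continuousOn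
  intro x hx
  left
  simpa using hx

/-- the bound for fixed frequencies -/
lemma key {C : ℝ} (hJ : ∀ v1 v2 lam : ℝ, 0 < v1 → 0 < v2 →
    ‖∫ r in Ioi (0 : ℝ), ((om (r * v1) * om (r * v2) * om r * r ^ 2 : ℝ) : ℂ) * ee (-(lam * r))‖ ≤
      (if (1 / 5 ≤ v1 ∧ v1 ≤ 5 ∧ 1 / 5 ≤ v2 ∧ v2 ≤ 5) then C / (1 + |lam|) ^ 2 else 0))
    {L : ℝ} (hL : 0 < L) (W : Finset ℝ) (m1 m2 m3 : ℤ) :
    ‖∑ r ∈ W, ∑ s ∈ W, ∑ t ∈ W, Im om L (r - s) m1 * Im om L (s - t) m2 * Im om L (t - r) m3‖ ≤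
      C * L ^ 3 * ∫ v1 in Icc (1 / 5 : ℝ) 5, ∫ v2 in Icc (1 / 5 : ℝ) 5,
          ‖Rh W v1‖ * ‖Rh W (v1 / v2)‖ * ‖Rh W v2‖ / (1 + L * |m1 * v1 + m2 * v2 + m3|) ^ 2 := by
  set Bd : ℝ × ℝ → ℝ := fun z => ‖Rh W z.1‖ * ‖Rh W (z.1 / z.2)‖ * ‖Rh W z.2‖ /
    (1 + L * |m1 * z.1 + m2 * z.2 + m3|) ^ 2 with hBd
  have hpos : ∀ z ∈ J5 ×ˢ J5, 0 < z.1 ∧ 0 < z.2 := by
    intro z hz
    exact ⟨lt_of_lt_of_le (by norm_num) hz.1.1, lt_of_lt_of_le (by norm_num) hz.2.1⟩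
  have hmeas : nu.prod nu = (volume : Measure (ℝ × ℝ)).restrict (J5 ×ˢ J5) := by
    rw [Measure.prod_restrict, ← Measure.volume_eq_prod]
  have hBi : Integrable Bd (nu.prod nu) := by
    rw [hmeas]
    apply ContinuousOn.integrableOn_compact (isCompact_Icc.prod isCompact_Icc)
    have c1 : ContinuousOn (fun z : ℝ × ℝ => ‖Rh W z.1‖) (J5 ×ˢ J5) :=
      ((continuousOn_Rh W).comp continuous_fst.continuousOn (fun z hz => (hpos z hz).1)).norm
    have c2 : ContinuousOn (fun z : ℝ × ℝ => ‖Rh W z.2‖) (J5 ×ˢ J5) :=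
      ((continuousOn_Rh W).comp continuous_snd.continuousOn (fun z hz => (hpos z hz).2)).norm
    have c3 : ContinuousOn (fun z : ℝ × ℝ => ‖Rh W (z.1 / z.2)‖) (J5 ×ˢ J5) :=
      ((continuousOn_Rh W).comp (continuous_fst.continuousOn.div continuous_snd.continuousOn
        (fun z hz => (hpos z hz).2.ne'))
        (fun z hz => div_pos (hpos z hz).1 (hpos z hz).2)).norm
    refine ((c1.mul c3).mul c2).div ?_ ?_
    · fun_prop
    · intro z _
      have : 0 < 1 + L * |(m1 : ℝ) * z.1 + m2 * z.2 + m3| := by positivity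
      positivity
  have hint : ∀ r s t : ℝ, Integrable
      (fun z => ∫ ρ in KL L, FF L (r - s) (s - t) (t - r) m1 m2 m3 ρ z) (nu.prod nu) := by
    intro r s t
    exact (FF_int hL (r - s) (s - t) (t - r) m1 m2 m3).integral_prod_right
  have hS : ∑ r ∈ W, ∑ s ∈ W, ∑ t ∈ W,
      Im om L (r - s) m1 * Im om L (s - t) m2 * Im om L (t - r) m3 =
      ∫ z, (∑ r ∈ W, ∑ s ∈ W, ∑ t ∈ W,
        ∫ ρ in KL L, FF L (r - s) (s - t) (t - r) m1 m2 m3 ρ z) ∂(nu.prod nu) := by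
    rw [integral_finsetSum _ (fun r _ => integrable_finsetSum _ (fun s _ =>
      integrable_finsetSum _ (fun t _ => hint r s t)))]
    refine Finset.sum_congr rfl fun r _ => ?_
    rw [integral_finsetSum _ (fun s _ => integrable_finsetSum _ (fun t _ => hint r s t))]
    refine Finset.sum_congr rfl fun s _ => ?_
    rw [integral_finsetSum _ (fun t _ => hint r s t)]
    refine Finset.sum_congr rfl fun t _ => ?_
    exact prod_eq hL _ _ _ _ _ _
  have hpt : ∀ z ∈ J5 ×ˢ J5, ‖∑ r ∈ W, ∑ s ∈ W, ∑ t ∈ W,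
        ∫ ρ in KL L, FF L (r - s) (s - t) (t - r) m1 m2 m3 ρ z‖ ≤ C * L ^ 3 * Bd z := by
    rintro ⟨v1, v2⟩ hz
    obtain ⟨h1, h2⟩ := hpos _ hz
    have h1' : 0 < v1 := h1
    have h2' : 0 < v2 := h2
    have e1 : ∑ r ∈ W, ∑ s ∈ W, ∑ t ∈ W,
        ∫ ρ in KL L, FF L (r - s) (s - t) (t - r) m1 m2 m3 ρ (v1, v2) =
        (∑ r ∈ W, Complex.exp (-(((r * Real.log v1 : ℝ) : ℂ) * Complex.I))) *
        (∑ s ∈ W, Complex.exp (((s * Real.log (v1 / v2) : ℝ) : ℂ) * Complex.I)) *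
        (∑ t ∈ W, Complex.exp (((t * Real.log v2 : ℝ) : ℂ) * Complex.I)) *
        I0 L m1 m2 m3 v1 v2 := by
      simp_rw [inner_eq hL _ _ _ m1 m2 m3 h1' h2']
      rw [Finset.sum_mul_sum, Finset.sum_mul, Finset.sum_mul]
      refine Finset.sum_congr rfl fun r _ => ?_
      rw [Finset.sum_mul, Finset.sum_mul]
      refine Finset.sum_congr rfl fun s _ => ?_
      rw [Finset.mul_sum, Finset.sum_mul]
    rw [e1, norm_mul, norm_mul, norm_mul, norm_Rh_neg W h1', Rh_eq W (div_pos h1' h2'),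
      Rh_eq W h2', I0_eq hL, norm_mul, norm_pow, Complex.norm_real, Real.norm_eq_abs,
      abs_of_pos hL]
    have hJ' := hJ v1 v2 (L * (m1 * v1 + m2 * v2 + m3)) h1' h2'
    rw [if_pos ⟨hz.1.1, hz.1.2, hz.2.1, hz.2.2⟩, abs_mul, abs_of_pos hL] at hJ'
    calc ‖Rh W v1‖ * ‖Rh W (v1 / v2)‖ * ‖Rh W v2‖ * (L ^ 3 *
          ‖∫ r in Ioi (0 : ℝ), ((om (r * v1) * om (r * v2) * om r * r ^ 2 : ℝ) : ℂ) *
            ee (-(L * (m1 * v1 + m2 * v2 + m3) * r))‖)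
        ≤ ‖Rh W v1‖ * ‖Rh W (v1 / v2)‖ * ‖Rh W v2‖ * (L ^ 3 *
          (C / (1 + L * |m1 * v1 + m2 * v2 + m3|) ^ 2)) := by gcongr
      _ = C * L ^ 3 * Bd (v1, v2) := by
          simp only [hBd]
          ring
  have hBint : ∫ z, Bd z ∂(nu.prod nu) = ∫ v1 in Icc (1 / 5 : ℝ) 5, ∫ v2 in Icc (1 / 5 : ℝ) 5,
      ‖Rh W v1‖ * ‖Rh W (v1 / v2)‖ * ‖Rh W v2‖ / (1 + L * |m1 * v1 + m2 * v2 + m3|) ^ 2 := by
    rw [integral_prod _ hBi]
  rw [hS, ← hBint, ← integral_const_mul]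
  apply norm_integral_le_of_norm_le (hBi.const_mul _)
  rw [hmeas]
  filter_upwards [ae_restrict_mem (measurableSet_Icc.prod measurableSet_Icc)] with z hz
  exact hpt z hz

end T3a_aux

open T3a_aux in
theorem iT3a (hJr : StJr) : StT3a := by
  obtain ⟨C, hC, hJ⟩ := hJr
  refine ⟨C, hC, ?_⟩
  intro L M W hL
  have hL0 : 0 < L := by linarith
  unfold kk
  rw [expand, Finset.mul_sum]
  refine (norm_sum_le _ _).trans (Finset.sum_le_sum fun m1 _ => ?_)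
  rw [Finset.mul_sum]
  refine (norm_sum_le _ _).trans (Finset.sum_le_sum fun m2 _ => ?_)
  rw [Finset.mul_sum]
  refine (norm_sum_le _ _).trans (Finset.sum_le_sum fun m3 _ => ?_)
  exact key hJ hL0 W m1 m2 m3

end Pool.Agent.Work.MP_56b8f5_nt.UC
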