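import Mathlib
import Pool.Agent.Work.MP_56b8f5_nt.UC.Stmts

/-!
MP_56b8f5_nt, block UC, item T3b: from the triple sum to `Fm`.  Statement: helper45.  Proof: helper4.
-/

open MeasureTheory Set Filter Topology

noncomputable section

namespace Pool.Agent.Work.MP_56b8f5_nt.UC

namespace T3b_aux

lemma dZ_nonneg (x : ℝ) : 0 ≤ dZ x := abs_nonneg _

lemma dZ_le (x : ℝ) : dZ x ≤ 1 / 2 := abs_sub_round x

lemma dZ_continuous : Continuous dZ := by
  have h : dZ = fun x : ℝ => ‖(x : UnitAddCircle)‖ := by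
    funext x
    rw [UnitAddCircle.norm_eq]
    rfl
  rw [h]
  exact continuous_norm.comp (AddCircle.continuous_mk' (1 : ℝ))

/-- the constant `∑_{j} 1/j²` -/
def KK : ℝ := ∑' j : ℤ, 1 / (j : ℝ) ^ 2

lemma KK_nonneg : 0 ≤ KK := tsum_nonneg fun j => by positivity

lemma sum_sq_le (S : Finset ℤ) (r : ℤ) : ∑ m ∈ S, 1 / ((m + r : ℤ) : ℝ) ^ 2 ≤ KK := by
  have hs : Summable fun j : ℤ => 1 / (j : ℝ) ^ 2 :=
    Real.summable_one_div_int_pow.2 (by norm_num)
  have hs2 : Summable fun m : ℤ => 1 / ((m + r : ℤ) : ℝ) ^ 2 :=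
    ((Equiv.addRight r).summable_iff (f := fun j : ℤ => 1 / (j : ℝ) ^ 2)).2 hs
  have h1 := hs2.sum_le_tsum S (fun m _ => by positivity)
  have h2 : ∑' m : ℤ, 1 / ((m + r : ℤ) : ℝ) ^ 2 = KK :=
    (Equiv.addRight r).tsum_eq (fun j : ℤ => 1 / (j : ℝ) ^ 2)
  rw [h2] at h1
  exact h1

/-- one term -/
lemma term {L : ℝ} (hL : 1 ≤ L) (x : ℝ) (m : ℤ) :
    1 / (1 + L * |x + m|) ^ 2 ≤
      ((if m = -round x then 1 else 0) + 9 * (1 / ((m + round x : ℤ) : ℝ) ^ 2)) *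
        (1 / (1 + L * dZ x) ^ 2) := by
  have hd := dZ_nonneg x
  have hd2 := dZ_le x
  have hLd : 0 ≤ L * dZ x := by positivity
  by_cases hm : m = -round x
  · rw [if_pos hm]
    have h1 : |x + m| = dZ x := by
      rw [hm]; push_cast; rfl
    rw [h1]
    have h2 : 0 ≤ 9 * (1 / ((m + round x : ℤ) : ℝ) ^ 2) := by positivity
    have h3 : 0 ≤ 1 / (1 + L * dZ x) ^ 2 := by positivity
    nlinarith
  · rw [if_neg hm, zero_add]
    set j : ℤ := m + round x with hj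
    have hj0 : j ≠ 0 := by
      intro h; apply hm; omega
    have hj1 : (1 : ℝ) ≤ |(j : ℝ)| := by
      rw [← Int.cast_abs]
      exact_mod_cast Int.one_le_abs hj0
    have h1 : |(j : ℝ)| / 2 ≤ |x + m| := by
      have h2 : x + m = (x - round x) + (j : ℝ) := by
        rw [hj]; push_cast; ring
      have h3 : |(j : ℝ)| ≤ |x + m| + |x - round x| := by
        have : (j : ℝ) = (x + m) - (x - round x) := by rw [h2]; ring
        rw [this]
        exact abs_sub _ _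
      have h4 : |x - round x| ≤ 1 / 2 := abs_sub_round x
      linarith
    have hL0 : 0 < L := by linarith
    have hp : 0 < L * (|(j : ℝ)| / 2) := by positivity
    have h5 : (1 + L * dZ x) * |(j : ℝ)| ≤ 3 * (1 + L * |x + m|) := by
      have h6 : L * (|(j : ℝ)| / 2) ≤ L * |x + m| := by gcongr
      have h7 : 1 + L * dZ x ≤ 3 * L / 2 := by nlinarith
      have h8 : (1 + L * dZ x) * |(j : ℝ)| ≤ 3 * L / 2 * |(j : ℝ)| := by gcongr
      nlinarith
    have hj2 : ((j : ℤ) : ℝ) ^ 2 = |(j : ℝ)| ^ 2 := (sq_abs _).symm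
    have ha : 0 ≤ |x + m| := abs_nonneg _
    have hLa : 0 ≤ L * |x + m| := by positivity
    rw [hj2]
    have h9 : 9 * (1 / |(j : ℝ)| ^ 2) * (1 / (1 + L * dZ x) ^ 2) =
        (3 / ((1 + L * dZ x) * |(j : ℝ)|)) ^ 2 := by
      field_simp
      norm_num
    rw [h9]
    have h10 : 1 / (1 + L * |x + m|) ^ 2 = (1 / (1 + L * |x + m|)) ^ 2 := by
      rw [div_pow, one_pow]
    rw [h10]
    apply pow_le_pow_left₀ (by positivity)
    rw [div_le_div_iff₀ (by positivity) (by positivity)]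
    linarith

lemma sum_le {L : ℝ} (hL : 1 ≤ L) (x : ℝ) (S : Finset ℤ) :
    ∑ m ∈ S, 1 / (1 + L * |x + m|) ^ 2 ≤ (1 + 9 * KK) * (1 / (1 + L * dZ x) ^ 2) := by
  have hd := dZ_nonneg x
  have hLd : 0 ≤ L * dZ x := by positivity
  calc ∑ m ∈ S, 1 / (1 + L * |x + m|) ^ 2
      ≤ ∑ m ∈ S, ((if m = -round x then 1 else 0) + 9 * (1 / ((m + round x : ℤ) : ℝ) ^ 2)) *
        (1 / (1 + L * dZ x) ^ 2) := Finset.sum_le_sum fun m _ => term hL x m
    _ = (∑ m ∈ S, (if m = -round x then (1 : ℝ) else 0) +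
          9 * ∑ m ∈ S, (1 / ((m + round x : ℤ) : ℝ) ^ 2)) * (1 / (1 + L * dZ x) ^ 2) := by
        rw [← Finset.sum_mul, Finset.sum_add_distrib, Finset.mul_sum]
    _ ≤ (1 + 9 * KK) * (1 / (1 + L * dZ x) ^ 2) := by
        have h1 : ∑ m ∈ S, (if m = -round x then (1 : ℝ) else 0) ≤ 1 := by
          rw [Finset.sum_ite_eq' S (-round x) (fun _ => (1 : ℝ))]
          split_ifs <;> norm_num
        have h2 := sum_sq_le S (round x)
        gcongr

/-- `|Rh|` with clamped argument -/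
def rho (W : Finset ℝ) (v : ℝ) : ℝ := ‖Rh W (max v (1 / 25))‖

lemma rho_nonneg (W : Finset ℝ) (v : ℝ) : 0 ≤ rho W v := norm_nonneg _

lemma rho_eq (W : Finset ℝ) {v : ℝ} (hv : 1 / 25 ≤ v) : rho W v = ‖Rh W v‖ := by
  unfold rho
  rw [max_eq_left hv]

lemma rho_cont (W : Finset ℝ) : Continuous (rho W) := by
  unfold rho Rh
  refine continuous_norm.comp (continuous_finsetSum _ fun t _ => ?_)
  refine Continuous.cpow ?_ continuous_const ?_
  · exact Complex.continuous_ofReal.comp (continuous_id.max continuous_const)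
  · intro v
    rw [Complex.ofReal_mem_slitPlane]
    exact lt_of_lt_of_le (by norm_num) (le_max_right v (1 / 25))

lemma cp {v : ℝ} (hv : 0 < v) (x : ℝ) :
    (v : ℂ) ^ ((x : ℂ) * Complex.I) = Complex.exp (((x * Real.log v : ℝ) : ℂ) * Complex.I) := by
  rw [Complex.cpow_def_of_ne_zero (by exact_mod_cast hv.ne'), ← Complex.ofReal_log hv.le]
  congr 1
  push_cast
  ring

lemma norm_Rh_inv (W : Finset ℝ) {v : ℝ} (hv : 0 < v) : ‖Rh W v⁻¹‖ = ‖Rh W v‖ := by
  rw [← Complex.norm_conj (Rh W v)]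
  congr 1
  unfold Rh
  rw [map_sum]
  refine Finset.sum_congr rfl fun r _ => ?_
  rw [cp hv, cp (inv_pos.2 hv), ← Complex.exp_conj, Real.log_inv]
  congr 1
  simp

/-- the kernel -/
def EE (L : ℝ) (m1 m2 m3 : ℤ) (v z : ℝ) : ℝ := 1 / (1 + L * |m1 * v + m2 * z + m3|) ^ 2

lemma EE_nonneg (L : ℝ) (m1 m2 m3 : ℤ) (v z : ℝ) : 0 ≤ EE L m1 m2 m3 v z := by
  unfold EE; positivity

lemma EE_cont {L : ℝ} (hL : 1 ≤ L) (m1 m2 m3 : ℤ) {X : Type*} [TopologicalSpace X] {f g : X → ℝ}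
    (hf : Continuous f) (hg : Continuous g) : Continuous fun x => EE L m1 m2 m3 (f x) (g x) := by
  unfold EE
  refine Continuous.div continuous_const ?_ ?_
  · exact (continuous_const.add (continuous_const.mul (((continuous_const.mul hf).add
      (continuous_const.mul hg)).add continuous_const).abs)).pow 2
  · intro x
    have : 0 ≤ L * |m1 * f x + m2 * g x + m3| := by positivity
    positivity

/-- `𝒜` -/
def GG (W : Finset ℝ) (L : ℝ) (m1 m2 m3 : ℤ) (v : ℝ) : ℝ :=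
  ∫ z in JI, rho W v * rho W z ^ 2 * EE L m1 m2 m3 v z

lemma GG_cont (W : Finset ℝ) {L : ℝ} (hL : 1 ≤ L) (m1 m2 m3 : ℤ) : Continuous (GG W L m1 m2 m3) := by
  unfold GG
  refine continuous_parametric_integral_of_continuous
    (f := fun v z : ℝ => rho W v * rho W z ^ 2 * EE L m1 m2 m3 v z) ?_ isCompact_Icc
  exact (((rho_cont W).comp continuous_fst).mul (((rho_cont W).comp continuous_snd).pow 2)).mul
    (EE_cont hL m1 m2 m3 continuous_fst continuous_snd)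

lemma GG_nonneg (W : Finset ℝ) (L : ℝ) (m1 m2 m3 : ℤ) (v : ℝ) : 0 ≤ GG W L m1 m2 m3 v := by
  unfold GG
  refine setIntegral_nonneg measurableSet_Icc fun z _ => ?_
  exact mul_nonneg (mul_nonneg (rho_nonneg _ _) (sq_nonneg _)) (EE_nonneg _ _ _ _ _ _)

/-- the function after the substitution `v2 = v1 z` -/
def HH (W : Finset ℝ) (L : ℝ) (m1 m2 m3 : ℤ) (v : ℝ) : ℝ :=
  ∫ z in JI, rho W v * rho W z ^ 2 * EE L m1 m2 m3 v (v * z)

lemma HH_cont (W : Finset ℝ) {L : ℝ} (hL : 1 ≤ L) (m1 m2 m3 : ℤ) : Continuous (HH W L m1 m2 m3) := by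
  unfold HH
  refine continuous_parametric_integral_of_continuous
    (f := fun v z : ℝ => rho W v * rho W z ^ 2 * EE L m1 m2 m3 v (v * z)) ?_ isCompact_Icc
  exact (((rho_cont W).comp continuous_fst).mul (((rho_cont W).comp continuous_snd).pow 2)).mul
    (EE_cont hL m1 m2 m3 continuous_fst (continuous_fst.mul continuous_snd))

lemma HH_nonneg (W : Finset ℝ) (L : ℝ) (m1 m2 m3 : ℤ) (v : ℝ) : 0 ≤ HH W L m1 m2 m3 v := by
  unfold HH
  refine setIntegral_nonneg measurableSet_Icc fun z _ => ?_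
  exact mul_nonneg (mul_nonneg (rho_nonneg _ _) (sq_nonneg _)) (EE_nonneg _ _ _ _ _ _)

abbrev J5 : Set ℝ := Icc (1 / 5 : ℝ) 5

lemma J5_sub : J5 ⊆ JI := by
  intro x hx
  exact ⟨by linarith [hx.1], by linarith [hx.2]⟩

lemma intOn {f : ℝ → ℝ} (hf : Continuous f) (a b : ℝ) : IntegrableOn f (Icc a b) :=
  hf.continuousOn.integrableOn_Icc

/-- inner integral, second type -/
lemma inner2 (W : Finset ℝ) {L : ℝ} (hL : 1 ≤ L) (m1 m2 m3 : ℤ) {v : ℝ} (hv : v ∈ J5) :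
    ∫ v2 in J5, rho W v * rho W (v2 / v) ^ 2 * EE L m1 m2 m3 v v2 ≤ 5 * HH W L m1 m2 m3 v := by
  obtain ⟨h1, h2⟩ := hv
  have hv0 : 0 < v := by linarith
  have hsub := intervalIntegral.mul_integral_comp_mul_left
    (f := fun v2 : ℝ => rho W v * rho W (v2 / v) ^ 2 * EE L m1 m2 m3 v v2)
    (a := 1 / 5 / v) (b := 5 / v) v
  have ha : v * (1 / 5 / v) = 1 / 5 := by field_simp
  have hb : v * (5 / v) = 5 := by field_simp
  rw [ha, hb] at hsub
  rw [integral_Icc_eq_integral_Ioc, ← intervalIntegral.integral_of_le (by norm_num), ← hsub]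
  have hle : 1 / 5 / v ≤ 5 / v := by
    apply div_le_div_of_nonneg_right _ hv0.le
    norm_num
  have hnn : ∀ z : ℝ, 0 ≤ rho W v * rho W z ^ 2 * EE L m1 m2 m3 v (v * z) := fun z =>
    mul_nonneg (mul_nonneg (rho_nonneg _ _) (sq_nonneg _)) (EE_nonneg _ _ _ _ _ _)
  have hcont : Continuous fun z : ℝ => rho W v * rho W z ^ 2 * EE L m1 m2 m3 v (v * z) :=
    (continuous_const.mul ((rho_cont W).pow 2)).mul
      (EE_cont hL m1 m2 m3 continuous_const (continuous_const.mul continuous_id))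
  have h3 : ∫ z in (1 / 5 / v)..(5 / v), rho W v * rho W (v * z / v) ^ 2 * EE L m1 m2 m3 v (v * z) ≤
      HH W L m1 m2 m3 v := by
    have h4 : ∀ z : ℝ, v * z / v = z := fun z => by field_simp
    simp only [h4]
    rw [intervalIntegral.integral_of_le hle, ← integral_Icc_eq_integral_Ioc]
    unfold HH
    apply setIntegral_mono_set (intOn hcont _ _)
    · exact Filter.Eventually.of_forall hnn
    · apply LE.le.eventuallyLE
      intro z hz
      refine ⟨le_trans ?_ hz.1, le_trans hz.2 ?_⟩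
      · rw [div_div, div_le_div_iff₀ (by norm_num) (by positivity)]
        linarith
      · rw [div_le_iff₀ hv0]
        linarith
  have h5 : 0 ≤ HH W L m1 m2 m3 v := HH_nonneg _ _ _ _ _ _
  have h6 : 0 ≤ ∫ z in (1 / 5 / v)..(5 / v),
      rho W v * rho W (v * z / v) ^ 2 * EE L m1 m2 m3 v (v * z) := by
    apply intervalIntegral.integral_nonneg hle
    intro z _
    exact mul_nonneg (mul_nonneg (rho_nonneg _ _) (sq_nonneg _)) (EE_nonneg _ _ _ _ _ _)
  exact mul_le_mul h2 h3 h6 (by norm_num)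

lemma HH_inv (W : Finset ℝ) {L : ℝ} (hL : 1 ≤ L) (m1 m2 m3 : ℤ) {x : ℝ} (hx : x ∈ J5) :
    HH W L m1 m2 m3 x⁻¹ ≤ 25 * GG W L m3 m2 m1 x := by
  obtain ⟨h1, h2⟩ := hx
  have hx0 : 0 < x := by linarith
  unfold HH GG
  rw [← integral_const_mul]
  have hx1 : (1 : ℝ) / 25 ≤ x⁻¹ := by
    rw [le_inv_comm₀ (by norm_num) hx0]
    linarith
  have hr : rho W x⁻¹ = rho W x := by
    rw [rho_eq W hx1, rho_eq W (show 1 / 25 ≤ x by linarith), norm_Rh_inv W hx0]
  have hc1 : Continuous fun z : ℝ => rho W x⁻¹ * rho W z ^ 2 * EE L m1 m2 m3 x⁻¹ (x⁻¹ * z) :=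
    (continuous_const.mul ((rho_cont W).pow 2)).mul
      (EE_cont hL m1 m2 m3 continuous_const (continuous_const.mul continuous_id))
  have hc2 : Continuous fun z : ℝ => 25 * (rho W x * rho W z ^ 2 * EE L m3 m2 m1 x z) :=
    continuous_const.mul ((continuous_const.mul ((rho_cont W).pow 2)).mul
      (EE_cont hL m3 m2 m1 continuous_const continuous_id))
  apply setIntegral_mono_on (intOn hc1 _ _) (intOn hc2 _ _) measurableSet_Icc
  intro z _
  rw [hr]
  have hE : EE L m1 m2 m3 x⁻¹ (x⁻¹ * z) ≤ 25 * EE L m3 m2 m1 x z := by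
    unfold EE
    set D : ℝ := |m3 * x + m2 * z + m1| with hD
    have hD0 : 0 ≤ D := abs_nonneg _
    have h3 : |m1 * x⁻¹ + m2 * (x⁻¹ * z) + m3| = D * x⁻¹ := by
      rw [hD, ← abs_of_pos (inv_pos.2 hx0), ← abs_mul, abs_of_pos (inv_pos.2 hx0)]
      congr 1
      field_simp
      ring
    rw [h3]
    have h4 : (1 : ℝ) / 5 ≤ x⁻¹ := by
      rw [le_inv_comm₀ (by norm_num) hx0]
      linarith
    have hL0 : 0 < L := by linarith
    have h5 : (1 + L * D) / 5 ≤ 1 + L * (D * x⁻¹) := by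
      have h6 : D * (1 / 5) ≤ D * x⁻¹ := by gcongr
      have h7 : L * (D * (1 / 5)) ≤ L * (D * x⁻¹) := by gcongr
      nlinarith
    have h8 : 0 < 1 + L * D := by positivity
    have h9 : 25 * (1 / (1 + L * D) ^ 2) = 1 / ((1 + L * D) / 5) ^ 2 := by
      field_simp
      norm_num
    rw [h9]
    apply one_div_le_one_div_of_le (by positivity)
    apply pow_le_pow_left₀ (by positivity) h5
  have h10 : 0 ≤ rho W x * rho W z ^ 2 := mul_nonneg (rho_nonneg _ _) (sq_nonneg _)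
  calc rho W x * rho W z ^ 2 * EE L m1 m2 m3 x⁻¹ (x⁻¹ * z)
      ≤ rho W x * rho W z ^ 2 * (25 * EE L m3 m2 m1 x z) := mul_le_mul_of_nonneg_left hE h10
    _ = 25 * (rho W x * rho W z ^ 2 * EE L m3 m2 m1 x z) := by ring

/-- outer integral, second type -/
lemma outer2 (W : Finset ℝ) {L : ℝ} (hL : 1 ≤ L) (m1 m2 m3 : ℤ) :
    ∫ v in J5, HH W L m1 m2 m3 v ≤ 625 * ∫ v in J5, GG W L m3 m2 m1 v := by
  have hH := HH_cont W hL m1 m2 m3
  have hG := GG_cont W hL m3 m2 m1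
  have hpos : ∀ x ∈ uIcc (1 / 5 : ℝ) 5, 0 < x := by
    intro x hx
    rw [uIcc_of_le (by norm_num)] at hx
    linarith [hx.1]
  have hsub := intervalIntegral.integral_comp_mul_deriv' (a := (1 / 5 : ℝ)) (b := 5)
    (f := fun x : ℝ => x⁻¹) (f' := fun x : ℝ => -(x ^ 2)⁻¹) (g := HH W L m1 m2 m3)
    (fun x hx => hasDerivAt_inv (hpos x hx).ne')
    (by
      apply ContinuousOn.neg
      apply ContinuousOn.inv₀ (continuousOn_pow 2)
      intro x hx
      exact (pow_pos (hpos x hx) 2).ne')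
    hH.continuousOn
  have e1 : ((1 / 5 : ℝ))⁻¹ = 5 := by norm_num
  have e2 : (5 : ℝ)⁻¹ = 1 / 5 := by norm_num
  simp only [Function.comp_apply] at hsub
  rw [e1, e2, intervalIntegral.integral_symm (1 / 5 : ℝ) 5] at hsub
  have h1 : ∫ v in (1 / 5 : ℝ)..5, HH W L m1 m2 m3 v =
      ∫ x in (1 / 5 : ℝ)..5, HH W L m1 m2 m3 x⁻¹ * (x ^ 2)⁻¹ := by
    have h2 : ∫ x in (1 / 5 : ℝ)..5, HH W L m1 m2 m3 x⁻¹ * -(x ^ 2)⁻¹ =
        -∫ x in (1 / 5 : ℝ)..5, HH W L m1 m2 m3 x⁻¹ * (x ^ 2)⁻¹ := by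
      rw [← intervalIntegral.integral_neg]
      refine intervalIntegral.integral_congr fun x _ => ?_
      ring
    rw [h2] at hsub
    linarith
  rw [integral_Icc_eq_integral_Ioc, ← intervalIntegral.integral_of_le (by norm_num), h1,
    integral_Icc_eq_integral_Ioc, ← intervalIntegral.integral_of_le (by norm_num),
    ← intervalIntegral.integral_const_mul]
  apply intervalIntegral.integral_mono_on (by norm_num)
  · apply ContinuousOn.intervalIntegrable
    apply ContinuousOn.mul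
    · apply hH.comp_continuousOn
      apply ContinuousOn.inv₀ continuousOn_id
      intro x hx
      exact (hpos x hx).ne'
    · apply ContinuousOn.inv₀ (continuousOn_pow 2)
      intro x hx
      exact (pow_pos (hpos x hx) 2).ne'
  · exact (continuous_const.mul hG).intervalIntegrable _ _
  · intro x hx
    have hx0 : 0 < x := by linarith [hx.1]
    have h3 := HH_inv W hL m1 m2 m3 (x := x) hx
    have h4 : (x ^ 2)⁻¹ ≤ 25 := by
      rw [inv_le_comm₀ (by positivity) (by norm_num)]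
      have : (1 / 5 : ℝ) ^ 2 ≤ x ^ 2 := pow_le_pow_left₀ (by norm_num) hx.1 2
      norm_num at this ⊢
      linarith
    have h5 : 0 ≤ GG W L m3 m2 m1 x := GG_nonneg _ _ _ _ _ _
    have h6 : 0 ≤ (x ^ 2)⁻¹ := by positivity
    calc HH W L m1 m2 m3 x⁻¹ * (x ^ 2)⁻¹ ≤ (25 * GG W L m3 m2 m1 x) * 25 :=
          mul_le_mul h3 h4 h6 (by positivity)
      _ = 625 * GG W L m3 m2 m1 x := by ring

/-- the bound for one triple of frequencies -/
lemma triple (W : Finset ℝ) {L : ℝ} (hL : 1 ≤ L) (m1 m2 m3 : ℤ) :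
    ∫ v1 in J5, ∫ v2 in J5,
        ‖Rh W v1‖ * ‖Rh W (v1 / v2)‖ * ‖Rh W v2‖ / (1 + L * |m1 * v1 + m2 * v2 + m3|) ^ 2 ≤
      (∫ v in JI, GG W L m1 m2 m3 v) + 3125 * ∫ v in JI, GG W L m3 m2 m1 v := by
  have hin : ∀ v1 ∈ J5, ∫ v2 in J5,
        ‖Rh W v1‖ * ‖Rh W (v1 / v2)‖ * ‖Rh W v2‖ / (1 + L * |m1 * v1 + m2 * v2 + m3|) ^ 2 ≤
      GG W L m1 m2 m3 v1 + 5 * HH W L m1 m2 m3 v1 := by
    intro v1 hv1
    have hv10 : 0 < v1 := by linarith [hv1.1]
    have hc1 : Continuous fun v2 : ℝ => rho W v1 * rho W v2 ^ 2 * EE L m1 m2 m3 v1 v2 :=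
      (continuous_const.mul ((rho_cont W).pow 2)).mul
        (EE_cont hL m1 m2 m3 continuous_const continuous_id)
    have hc2 : Continuous fun v2 : ℝ => rho W v1 * rho W (v2 / v1) ^ 2 * EE L m1 m2 m3 v1 v2 :=
      (continuous_const.mul (((rho_cont W).comp (continuous_id.div_const v1)).pow 2)).mul
        (EE_cont hL m1 m2 m3 continuous_const continuous_id)
    have hA : ∫ v2 in J5,
        ‖Rh W v1‖ * ‖Rh W (v1 / v2)‖ * ‖Rh W v2‖ / (1 + L * |m1 * v1 + m2 * v2 + m3|) ^ 2 ≤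
        ∫ v2 in J5, (rho W v1 * rho W v2 ^ 2 * EE L m1 m2 m3 v1 v2 +
          rho W v1 * rho W (v2 / v1) ^ 2 * EE L m1 m2 m3 v1 v2) := by
      apply integral_mono_of_nonneg
      · exact Filter.Eventually.of_forall fun v2 => by positivity
      · exact intOn (hc1.add hc2) _ _
      · filter_upwards [ae_restrict_mem measurableSet_Icc] with v2 hv2
        have hv20 : 0 < v2 := by linarith [hv2.1]
        have r1 : rho W v1 = ‖Rh W v1‖ := rho_eq W (by linarith [hv1.1])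
        have r2 : rho W v2 = ‖Rh W v2‖ := rho_eq W (by linarith [hv2.1])
        have r3 : rho W (v2 / v1) = ‖Rh W (v1 / v2)‖ := by
          have h3 : v1 / v2 = (v2 / v1)⁻¹ := (inv_div v2 v1).symm
          rw [h3, norm_Rh_inv W (div_pos hv20 hv10)]
          apply rho_eq W
          rw [le_div_iff₀ hv10]
          linarith [hv1.2, hv2.1]
        rw [r1, r2, r3]
        have hE : (1 + L * |m1 * v1 + m2 * v2 + m3|) ^ 2 = (EE L m1 m2 m3 v1 v2)⁻¹ := by
          unfold EE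
          rw [one_div, inv_inv]
        rw [hE, div_inv_eq_mul, ← add_mul]
        apply mul_le_mul_of_nonneg_right _ (EE_nonneg _ _ _ _ _ _)
        have n1 := norm_nonneg (Rh W v1)
        have n2 := norm_nonneg (Rh W v2)
        have n3 := norm_nonneg (Rh W (v1 / v2))
        have h4 : ‖Rh W (v1 / v2)‖ * ‖Rh W v2‖ ≤ ‖Rh W v2‖ ^ 2 + ‖Rh W (v1 / v2)‖ ^ 2 := by
          nlinarith [sq_nonneg (‖Rh W (v1 / v2)‖ - ‖Rh W v2‖)]
        calc ‖Rh W v1‖ * ‖Rh W (v1 / v2)‖ * ‖Rh W v2‖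
            = ‖Rh W v1‖ * (‖Rh W (v1 / v2)‖ * ‖Rh W v2‖) := by ring
          _ ≤ ‖Rh W v1‖ * (‖Rh W v2‖ ^ 2 + ‖Rh W (v1 / v2)‖ ^ 2) :=
              mul_le_mul_of_nonneg_left h4 n1
          _ = _ := by ring
    rw [integral_add (intOn hc1 _ _) (intOn hc2 _ _)] at hA
    have hB : ∫ v2 in J5, rho W v1 * rho W v2 ^ 2 * EE L m1 m2 m3 v1 v2 ≤ GG W L m1 m2 m3 v1 := by
      unfold GG
      apply setIntegral_mono_set (intOn hc1 _ _)
      · exact Filter.Eventually.of_forall fun z =>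
          mul_nonneg (mul_nonneg (rho_nonneg _ _) (sq_nonneg _)) (EE_nonneg _ _ _ _ _ _)
      · exact LE.le.eventuallyLE J5_sub
    have hC := inner2 W hL m1 m2 m3 hv1
    linarith
  have hG := GG_cont W hL m1 m2 m3
  have hG' := GG_cont W hL m3 m2 m1
  have hH := HH_cont W hL m1 m2 m3
  have hD : ∫ v1 in J5, ∫ v2 in J5,
        ‖Rh W v1‖ * ‖Rh W (v1 / v2)‖ * ‖Rh W v2‖ / (1 + L * |m1 * v1 + m2 * v2 + m3|) ^ 2 ≤
      ∫ v1 in J5, (GG W L m1 m2 m3 v1 + 5 * HH W L m1 m2 m3 v1) := by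
    apply integral_mono_of_nonneg
    · exact Filter.Eventually.of_forall fun v1 => by
        apply setIntegral_nonneg measurableSet_Icc
        intro v2 _
        positivity
    · exact intOn (hG.add (continuous_const.mul hH)) _ _
    · filter_upwards [ae_restrict_mem measurableSet_Icc] with v1 hv1
      exact hin v1 hv1
  have hcH : Continuous fun v : ℝ => 5 * HH W L m1 m2 m3 v := continuous_const.mul hH
  rw [integral_add (intOn hG _ _) (intOn hcH _ _), integral_const_mul] at hD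
  have hE := outer2 W hL m1 m2 m3
  have hF : ∀ n1 n2 n3 : ℤ, ∫ v in J5, GG W L n1 n2 n3 v ≤ ∫ v in JI, GG W L n1 n2 n3 v := by
    intro n1 n2 n3
    apply setIntegral_mono_set (intOn (GG_cont W hL n1 n2 n3) _ _)
    · exact Filter.Eventually.of_forall fun z => GG_nonneg _ _ _ _ _ _
    · exact LE.le.eventuallyLE J5_sub
  have h1 := hF m1 m2 m3
  have h2 := hF m3 m2 m1
  linarith

/-- summation over the third frequency -/
lemma sum3 (W : Finset ℝ) {L : ℝ} (hL : 1 ≤ L) (S : Finset ℤ) (m1 m2 : ℤ) (v : ℝ) :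
    ∑ m3 ∈ S, GG W L m1 m2 m3 v ≤
      (1 + 9 * KK) * (rho W v * ∫ z in JI, rho W z ^ 2 / (1 + L * dZ (m1 * v + m2 * z)) ^ 2) := by
  unfold GG
  have hc : ∀ m3 ∈ S, IntegrableOn (fun z : ℝ => rho W v * rho W z ^ 2 * EE L m1 m2 m3 v z) JI :=
    fun m3 _ => intOn ((continuous_const.mul ((rho_cont W).pow 2)).mul
        (EE_cont hL m1 m2 m3 continuous_const continuous_id)) _ _
  rw [← integral_finsetSum S hc, ← integral_const_mul, ← integral_const_mul]
  have hc2 : Continuous fun z : ℝ =>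
      (1 + 9 * KK) * (rho W v * (rho W z ^ 2 / (1 + L * dZ (m1 * v + m2 * z)) ^ 2)) := by
    refine continuous_const.mul (continuous_const.mul (((rho_cont W).pow 2).div ?_ ?_))
    · exact (continuous_const.add (continuous_const.mul (dZ_continuous.comp
        (continuous_const.add (continuous_const.mul continuous_id))))).pow 2
    · intro z
      have := dZ_nonneg (m1 * v + m2 * z)
      have : 0 ≤ L * dZ (m1 * v + m2 * z) := by positivity
      positivity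
  apply integral_mono_of_nonneg
  · exact Filter.Eventually.of_forall fun z => Finset.sum_nonneg fun m3 _ =>
      mul_nonneg (mul_nonneg (rho_nonneg _ _) (sq_nonneg _)) (EE_nonneg _ _ _ _ _ _)
  · exact intOn hc2 _ _
  · refine Filter.Eventually.of_forall fun z => ?_
    show ∑ m3 ∈ S, rho W v * rho W z ^ 2 * EE L m1 m2 m3 v z ≤
      (1 + 9 * KK) * (rho W v * (rho W z ^ 2 / (1 + L * dZ (m1 * v + m2 * z)) ^ 2))
    rw [← Finset.mul_sum]
    have h1 := sum_le hL (m1 * v + m2 * z) S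
    have h2 : 0 ≤ rho W v * rho W z ^ 2 := mul_nonneg (rho_nonneg _ _) (sq_nonneg _)
    calc rho W v * rho W z ^ 2 * ∑ m3 ∈ S, EE L m1 m2 m3 v z
        ≤ rho W v * rho W z ^ 2 * ((1 + 9 * KK) * (1 / (1 + L * dZ (m1 * v + m2 * z)) ^ 2)) :=
          mul_le_mul_of_nonneg_left h1 h2
      _ = _ := by ring

lemma Fm_cont (L : ℝ) (hL : 0 ≤ L) (M : ℕ) (f : ℝ → ℝ) (hf : Continuous f) :
    Continuous (Fm L M f) := by
  unfold Fm
  refine continuous_finsetSum _ fun m1 _ => continuous_finsetSum _ fun m2 _ => ?_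
  refine continuous_parametric_integral_of_continuous
    (f := fun v z : ℝ => f z / (1 + L * dZ (m1 * v + m2 * z)) ^ 2) ?_ isCompact_Icc
  have h : Continuous fun p : ℝ × ℝ => f p.2 / (1 + L * dZ (m1 * p.1 + m2 * p.2)) ^ 2 := by
    refine Continuous.div (hf.comp continuous_snd) ?_ ?_
    · refine Continuous.pow (continuous_const.add (continuous_const.mul (dZ_continuous.comp ?_))) 2
      exact (continuous_const.mul continuous_fst).add (continuous_const.mul continuous_snd)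
    · intro p
      have h1 := dZ_nonneg (m1 * p.1 + m2 * p.2)
      have h2 : 0 ≤ L * dZ (m1 * p.1 + m2 * p.2) := mul_nonneg hL h1
      positivity
  exact h

lemma Fm_congr (L : ℝ) (M : ℕ) (f g : ℝ → ℝ) (hfg : ∀ z ∈ JI, f z = g z) : Fm L M f = Fm L M g := by
  funext v
  unfold Fm
  refine Finset.sum_congr rfl fun m1 _ => Finset.sum_congr rfl fun m2 _ => ?_
  refine setIntegral_congr_fun measurableSet_Icc fun z hz => ?_
  simp only [hfg z hz]

lemma swap3 (S : Finset ℤ) (A : ℤ → ℤ → ℤ → ℝ) :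
    ∑ m1 ∈ S, ∑ m2 ∈ S, ∑ m3 ∈ S, A m3 m2 m1 = ∑ m1 ∈ S, ∑ m2 ∈ S, ∑ m3 ∈ S, A m1 m2 m3 := by
  have h1 : ∀ m1 ∈ S, ∑ m2 ∈ S, ∑ m3 ∈ S, A m3 m2 m1 = ∑ m3 ∈ S, ∑ m2 ∈ S, A m3 m2 m1 :=
    fun m1 _ => Finset.sum_comm
  rw [Finset.sum_congr rfl h1, Finset.sum_comm]
  refine Finset.sum_congr rfl fun m3 _ => ?_
  rw [Finset.sum_comm]

end T3b_aux

open T3b_aux in
theorem iT3b : StT3b := by
  refine ⟨3126 * (1 + 9 * KK), ?_, ?_⟩
  · have := KK_nonneg
    linarith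
  intro L M W hL
  set S : Finset ℤ := (Finset.Icc (-(M : ℤ)) M).filter (fun m => m ≠ 0) with hS
  have h1 : ∑ m1 ∈ S, ∑ m2 ∈ S, ∑ m3 ∈ S, ∫ v1 in Icc (1 / 5 : ℝ) 5, ∫ v2 in Icc (1 / 5 : ℝ) 5,
        ‖Rh W v1‖ * ‖Rh W (v1 / v2)‖ * ‖Rh W v2‖ / (1 + L * |m1 * v1 + m2 * v2 + m3|) ^ 2 ≤
      ∑ m1 ∈ S, ∑ m2 ∈ S, ∑ m3 ∈ S,
        ((∫ v in JI, GG W L m1 m2 m3 v) + 3125 * ∫ v in JI, GG W L m3 m2 m1 v) :=
    Finset.sum_le_sum fun m1 _ => Finset.sum_le_sum fun m2 _ => Finset.sum_le_sum fun m3 _ =>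
      triple W hL m1 m2 m3
  have h2 : ∑ m1 ∈ S, ∑ m2 ∈ S, ∑ m3 ∈ S,
        ((∫ v in JI, GG W L m1 m2 m3 v) + 3125 * ∫ v in JI, GG W L m3 m2 m1 v) =
      3126 * ∑ m1 ∈ S, ∑ m2 ∈ S, ∑ m3 ∈ S, ∫ v in JI, GG W L m1 m2 m3 v := by
    have h3 := swap3 S (fun m1 m2 m3 => ∫ v in JI, GG W L m1 m2 m3 v)
    simp only [Finset.sum_add_distrib, ← Finset.mul_sum]
    rw [h3]
    ring
  have hint : ∀ m1 m2 m3 : ℤ, IntegrableOn (GG W L m1 m2 m3) JI := fun m1 m2 m3 =>
    intOn (GG_cont W hL m1 m2 m3) _ _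
  have h4 : ∑ m1 ∈ S, ∑ m2 ∈ S, ∑ m3 ∈ S, ∫ v in JI, GG W L m1 m2 m3 v =
      ∫ v in JI, ∑ m1 ∈ S, ∑ m2 ∈ S, ∑ m3 ∈ S, GG W L m1 m2 m3 v := by
    rw [integral_finsetSum S fun m1 _ => integrable_finsetSum _ fun m2 _ =>
      integrable_finsetSum _ fun m3 _ => hint m1 m2 m3]
    refine Finset.sum_congr rfl fun m1 _ => ?_
    rw [integral_finsetSum S fun m2 _ => integrable_finsetSum _ fun m3 _ => hint m1 m2 m3]
    refine Finset.sum_congr rfl fun m2 _ => ?_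
    rw [integral_finsetSum S fun m3 _ => hint m1 m2 m3]
  have hFc : Fm L M (fun z => ‖Rh W z‖ ^ 2) = Fm L M (fun z => rho W z ^ 2) :=
    Fm_congr L M _ _ fun z hz => by rw [rho_eq W hz.1]
  have h5 : ∫ v in JI, ∑ m1 ∈ S, ∑ m2 ∈ S, ∑ m3 ∈ S, GG W L m1 m2 m3 v ≤
      (1 + 9 * KK) * ∫ v in JI, ‖Rh W v‖ * Fm L M (fun z => ‖Rh W z‖ ^ 2) v := by
    have h6 : ∫ v in JI, ‖Rh W v‖ * Fm L M (fun z => ‖Rh W z‖ ^ 2) v =
        ∫ v in JI, rho W v * Fm L M (fun z => rho W z ^ 2) v := by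
      refine setIntegral_congr_fun measurableSet_Icc fun v hv => ?_
      simp only [hFc, rho_eq W hv.1]
    rw [h6, ← integral_const_mul]
    apply integral_mono_of_nonneg
    · exact Filter.Eventually.of_forall fun v => Finset.sum_nonneg fun m1 _ =>
        Finset.sum_nonneg fun m2 _ => Finset.sum_nonneg fun m3 _ => GG_nonneg _ _ _ _ _ _
    · exact intOn (continuous_const.mul ((rho_cont W).mul
        (Fm_cont L (by linarith) M _ ((rho_cont W).pow 2)))) _ _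
    · refine Filter.Eventually.of_forall fun v => ?_
      show ∑ m1 ∈ S, ∑ m2 ∈ S, ∑ m3 ∈ S, GG W L m1 m2 m3 v ≤
        (1 + 9 * KK) * (rho W v * Fm L M (fun z => rho W z ^ 2) v)
      calc ∑ m1 ∈ S, ∑ m2 ∈ S, ∑ m3 ∈ S, GG W L m1 m2 m3 v
          ≤ ∑ m1 ∈ S, ∑ m2 ∈ S, (1 + 9 * KK) * (rho W v *
              ∫ z in JI, rho W z ^ 2 / (1 + L * dZ (m1 * v + m2 * z)) ^ 2) :=
            Finset.sum_le_sum fun m1 _ => Finset.sum_le_sum fun m2 _ => sum3 W hL S m1 m2 v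
        _ = (1 + 9 * KK) * (rho W v * Fm L M (fun z => rho W z ^ 2) v) := by
            simp only [Fm, ← hS, Finset.mul_sum]
  calc _ ≤ _ := h1
    _ = _ := h2
    _ = 3126 * ∫ v in JI, ∑ m1 ∈ S, ∑ m2 ∈ S, ∑ m3 ∈ S, GG W L m1 m2 m3 v := by rw [h4]
    _ ≤ 3126 * ((1 + 9 * KK) * ∫ v in JI, ‖Rh W v‖ * Fm L M (fun z => ‖Rh W z‖ ^ 2) v) := by
        gcongr
    _ = _ := by ring

end Pool.Agent.Work.MP_56b8f5_nt.UC
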