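import Pool.Agent.Work.MP_56b8f5_nt.UC.Stmts

/-!
MP_56b8f5_nt, block UC, item Tr: the cubic trace inequality (finite linear algebra).
-/

open Matrix Finset
open scoped ComplexOrder

noncomputable section

namespace Pool.Agent.Work.MP_56b8f5_nt.UC

namespace Tr_aux

variable {n : Type*} [Fintype n] [DecidableEq n]

lemma herm_move {K : Matrix n n ℂ} (hK : K.IsHermitian) (u v : n → ℂ) :
    star (K *ᵥ u) ⬝ᵥ v = star u ⬝ᵥ (K *ᵥ v) := by
  rw [Matrix.star_mulVec, hK.eq, Matrix.dotProduct_mulVec]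

/-- trace of a positive semidefinite matrix dominates the Rayleigh quotient -/
lemma trace_ge {P : Matrix n n ℂ} (hP : P.PosSemidef) (c : n → ℂ) (R : ℝ) (hR : 0 < R)
    (hc : star c ⬝ᵥ c = (R : ℂ)) : (star c ⬝ᵥ (P *ᵥ c)).re ≤ R * (P.trace).re := by
  set U : Matrix n n ℂ := vecMulVec c (star c) with hU
  set Q : Matrix n n ℂ := (R : ℂ) • (1 : Matrix n n ℂ) - U with hQ
  have hUh : Uᴴ = U := by
    rw [hU, conjTranspose_vecMulVec, star_star]
  have hQh : Qᴴ = Q := by
    rw [hQ, conjTranspose_sub, conjTranspose_smul, conjTranspose_one, hUh]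
    simp
  have h1 : 0 ≤ (Q * P * Qᴴ).trace := (hP.mul_mul_conjTranspose_same Q).trace_nonneg
  have hUU : U * U = (R : ℂ) • U := by
    rw [hU, vecMulVec_mul_vecMulVec, hc]
    ext i j
    simp [vecMulVec_apply, mul_left_comm]
  have hQQ : Q * Q = (R : ℂ) • Q := by
    rw [hQ]
    simp only [sub_mul, mul_sub, smul_mul_assoc, mul_smul_comm, one_mul, mul_one, hUU, smul_sub]
    abel
  have h2 : (Q * P * Qᴴ).trace = (R : ℂ) * ((R : ℂ) * P.trace - star c ⬝ᵥ (P *ᵥ c)) := by
    rw [hQh, trace_mul_comm, ← mul_assoc, hQQ, smul_mul_assoc, trace_smul, hQ, sub_mul, trace_sub,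
      smul_mul_assoc, one_mul, trace_smul, smul_eq_mul, smul_eq_mul]
    congr 2
    rw [hU, vecMulVec_mul, trace_vecMulVec, dotProduct_comm, dotProduct_mulVec]
  rw [h2] at h1
  have h3 := (Complex.le_def.mp h1).1
  simp only [Complex.zero_re, Complex.re_ofReal_mul, Complex.sub_re] at h3
  have := nonneg_of_mul_nonneg_right h3 hR
  linarith

/-- the matrix form -/
lemma main {K : Matrix n n ℂ} (hK : K.IsHermitian) (c : n → ℂ) (B R x' : ℝ) (hB : 0 ≤ B) (hR : 0 < R)
    (hx : 0 ≤ x') (hA : (K + (B : ℂ) • (1 : Matrix n n ℂ)).PosSemidef)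
    (hc : star c ⬝ᵥ c = (R : ℂ)) (hm : star c ⬝ᵥ (K *ᵥ c) = ((R * x' : ℝ) : ℂ)) :
    x' ^ 3 ≤ ((K * K * K).trace).re + B * ((K * K).trace).re := by
  set A : Matrix n n ℂ := K + (B : ℂ) • (1 : Matrix n n ℂ) with hAdef
  have hP : (K * A * Kᴴ).PosSemidef := hA.mul_mul_conjTranspose_same K
  rw [hK.eq] at hP
  have ht := trace_ge hP c R hR hc
  have htr : (K * A * K).trace = (K * K * K).trace + (B : ℂ) * (K * K).trace := by
    rw [hAdef, mul_add, add_mul, trace_add, mul_smul_comm, mul_one, smul_mul_assoc, trace_smul,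
      smul_eq_mul]
  set m2 : ℂ := star c ⬝ᵥ (K *ᵥ (K *ᵥ c)) with hm2
  set m3 : ℂ := star c ⬝ᵥ (K *ᵥ (K *ᵥ (K *ᵥ c))) with hm3
  have hAv : ∀ v : n → ℂ, A *ᵥ v = K *ᵥ v + (B : ℂ) • v := by
    intro v
    rw [hAdef, add_mulVec, smul_mulVec, one_mulVec]
  have hPc : star c ⬝ᵥ ((K * A * K) *ᵥ c) = m3 + (B : ℂ) * m2 := by
    rw [← mulVec_mulVec, ← mulVec_mulVec, hAv, mulVec_add, mulVec_smul, dotProduct_add,
      dotProduct_smul, smul_eq_mul]
  set w : n → ℂ := K *ᵥ c - (x' : ℂ) • c with hw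
  have hw1 : 0 ≤ star w ⬝ᵥ (A *ᵥ w) := hA.dotProduct_mulVec_nonneg w
  have hw2 : 0 ≤ star w ⬝ᵥ w := dotProduct_star_self_nonneg w
  have hsw : star w = star (K *ᵥ c) - (x' : ℂ) • star c := by
    rw [hw, star_sub, star_smul]
    simp
  have e2 : star w ⬝ᵥ w = m2 - (R * x' ^ 2 : ℝ) := by
    rw [hsw, sub_dotProduct, smul_dotProduct, herm_move hK, hw]
    simp only [mulVec_sub, mulVec_smul, dotProduct_sub, dotProduct_smul, smul_eq_mul, hc, hm]
    rw [← hm2]
    push_cast
    ring
  have e1 : star w ⬝ᵥ (A *ᵥ w) = m3 + B * m2 - 2 * x' * m2 - (x' ^ 2 * B * R : ℝ) +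
      (x' ^ 3 * R : ℝ) := by
    rw [hsw, sub_dotProduct, smul_dotProduct, herm_move hK, hAv, hw]
    simp only [mulVec_sub, mulVec_smul, mulVec_add, dotProduct_sub, dotProduct_add,
      dotProduct_smul, smul_eq_mul, smul_sub, hc, hm]
    rw [← hm2, ← hm3]
    push_cast
    ring
  rw [e1] at hw1
  rw [e2] at hw2
  have r1 := (Complex.le_def.mp hw1).1
  have r2 := (Complex.le_def.mp hw2).1
  rw [hPc] at ht
  rw [htr] at ht
  simp only [Complex.add_re, Complex.sub_re, Complex.mul_re, Complex.ofReal_re, Complex.ofReal_im,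
    Complex.zero_re, zero_mul, sub_zero, Complex.re_ofNat, Complex.im_ofNat, mul_zero,
    Complex.mul_im, add_zero] at r1 r2 ht
  set a2 := m2.re
  set a3 := m3.re
  have r3 : x' ^ 2 * B * R + x' ^ 3 * R ≤ a3 + B * a2 := by nlinarith
  have r4 : R * (x' ^ 2 * B + x' ^ 3) ≤
      R * (((K * K * K).trace).re + B * ((K * K).trace).re) := by
    calc R * (x' ^ 2 * B + x' ^ 3) = x' ^ 2 * B * R + x' ^ 3 * R := by ring
      _ ≤ a3 + B * a2 := r3
      _ ≤ _ := ht
  have r5 := le_of_mul_le_mul_left r4 hR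
  have r6 : 0 ≤ x' ^ 2 * B := by positivity
  linarith

end Tr_aux

open Tr_aux in
theorem iTr : StTr := by
  intro W k c B x hW hB hx hk hpos hc hxc
  classical
  set K : Matrix W W ℂ := fun s t => k s t with hKd
  set c' : W → ℂ := fun s => c s with hc'
  set R : ℝ := (W.card : ℝ) with hRd
  have hR : 0 < R := by
    rw [hRd]; exact_mod_cast hW.card_pos
  have hK : K.IsHermitian := by
    ext s t
    rw [conjTranspose_apply]
    show star (k t s) = k s t
    rw [hk t s]
    rfl
  have hquad : ∀ g : W → ℂ, star g ⬝ᵥ (K *ᵥ g) =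
      ∑ s : W, ∑ t : W, (starRingEnd ℂ) (g s) * k s t * g t := by
    intro g
    simp only [dotProduct, mulVec, Pi.star_apply, Finset.mul_sum, hKd]
    refine Finset.sum_congr rfl fun s _ => Finset.sum_congr rfl fun t _ => ?_
    rw [← mul_assoc]
    rfl
  have him : ∀ g : W → ℂ, (star g ⬝ᵥ (K *ᵥ g)).im = 0 := by
    intro g
    have h : star (star g ⬝ᵥ (K *ᵥ g)) = star g ⬝ᵥ (K *ᵥ g) := by
      rw [← star_dotProduct, herm_move hK]
    have := congrArg Complex.im h
    simp only [Complex.star_def, Complex.conj_im] at this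
    linarith
  have hgg : ∀ g : W → ℂ, star g ⬝ᵥ g = ((∑ s : W, ‖g s‖ ^ 2 : ℝ) : ℂ) := by
    intro g
    simp only [dotProduct, Pi.star_apply]
    push_cast
    refine Finset.sum_congr rfl fun s _ => ?_
    rw [Complex.star_def, Complex.conj_mul']
  have hA : (K + (B : ℂ) • (1 : Matrix W W ℂ)).PosSemidef := by
    refine PosSemidef.of_dotProduct_mulVec_nonneg ?_ ?_
    · refine hK.add ?_
      rw [IsHermitian, conjTranspose_smul, conjTranspose_one]
      simp
    · intro g
      rw [add_mulVec, smul_mulVec, one_mulVec, dotProduct_add, dotProduct_smul, smul_eq_mul, hgg]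
      rw [Complex.le_def]
      constructor
      · rw [Complex.zero_re, Complex.add_re, ← Complex.ofReal_mul, Complex.ofReal_re]
        have h := hpos (fun s => if h : s ∈ W then g ⟨s, h⟩ else 0)
        rw [← Finset.sum_coe_sort W, ← Finset.sum_coe_sort W] at h
        rw [hquad]
        convert h using 3
        · refine Finset.sum_congr rfl fun s _ => ?_
          rw [← Finset.sum_coe_sort W]
          refine Finset.sum_congr rfl fun t _ => ?_
          simp
        · refine Finset.sum_congr rfl fun s _ => ?_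
          simp
      · rw [Complex.zero_im, Complex.add_im, him, ← Complex.ofReal_mul, Complex.ofReal_im, add_zero]
  have hcc : star c' ⬝ᵥ c' = (R : ℂ) := by
    rw [hgg]
    congr 1
    rw [hRd, Finset.sum_congr rfl (g := fun _ => (1 : ℝ))]
    · simp
    · intro s _
      rw [hc', hc s s.2]; norm_num
  set y : ℝ := (star c' ⬝ᵥ (K *ᵥ c')).re with hy
  have hyc : star c' ⬝ᵥ (K *ᵥ c') = (y : ℂ) := by
    apply Complex.ext
    · rw [Complex.ofReal_re]
    · rw [Complex.ofReal_im, him]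
  have hxy : x * R ≤ y := by
    rw [hy, hquad]
    refine hxc.trans (le_of_eq ?_)
    congr 1
    rw [← Finset.sum_coe_sort W]
    refine Finset.sum_congr rfl fun s _ => ?_
    rw [← Finset.sum_coe_sort W]
  have hx' : x ≤ y / R := by
    rw [le_div_iff₀ hR]; exact hxy
  have key := main hK c' B R (y / R) hB hR (hx.trans hx') hA hcc (by
    rw [hyc]
    congr 1
    field_simp)
  have htr2 : ((K * K).trace).re = ∑ s ∈ W, ∑ t ∈ W, ‖k s t‖ ^ 2 := by
    rw [Matrix.trace, Complex.re_sum, ← Finset.sum_coe_sort W]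
    refine Finset.sum_congr rfl fun s _ => ?_
    rw [diag_apply, Matrix.mul_apply, Complex.re_sum, ← Finset.sum_coe_sort W]
    refine Finset.sum_congr rfl fun t _ => ?_
    show (k s t * k t s).re = _
    rw [hk s t, Complex.mul_conj, Complex.ofReal_re, Complex.normSq_eq_norm_sq]
  have htr3 : ((K * K * K).trace).re =
      (∑ r ∈ W, ∑ s ∈ W, ∑ t ∈ W, k r s * k s t * k t r).re := by
    congr 1
    rw [Matrix.trace, ← Finset.sum_coe_sort W]
    refine Finset.sum_congr rfl fun r _ => ?_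
    rw [diag_apply, Matrix.mul_apply]
    simp only [Matrix.mul_apply, Finset.sum_mul]
    rw [Finset.sum_comm, ← Finset.sum_coe_sort W]
    refine Finset.sum_congr rfl fun s _ => ?_
    rw [← Finset.sum_coe_sort W]
  rw [htr2, htr3] at key
  refine le_trans ?_ key
  exact pow_le_pow_left₀ hx hx' 3

end Pool.Agent.Work.MP_56b8f5_nt.UC
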