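import Mathlib
import Pool.Agent.Work.MP_56b8f5_nt.UC.Stmts
import Pool.Agent.Work.MP_56b8f5_nt.UC.I_Ow
import Pool.Agent.Work.MP_56b8f5_nt.EM.Stmts

/-!
MP_56b8f5_nt, block UC, item Tw (twelfth moment of smooth blocks).  Author: helper96.
-/

open MeasureTheory Set Filter Topology

noncomputable section

namespace Pool.Agent.Work.MP_56b8f5_nt.UC

open Pool.Agent.Work.MP_56b8f5_nt.UB (ee om)

namespace Tw_aux

lemma tan12 (x m : ℝ) (hx : 0 ≤ x) (hm : 0 ≤ m) : m ^ 12 + 12 * m ^ 11 * (x - m) ≤ x ^ 12 := by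
  rcases hm.eq_or_lt with h | h
  · rw [← h]
    have : 0 ≤ x ^ 12 := by positivity
    simpa using this
  · have h1 : (-2 : ℝ) ≤ x / m - 1 := by
      have : 0 ≤ x / m := by positivity
      linarith
    have h2 := one_add_mul_le_pow h1 12
    have h3 : (1 + (x / m - 1)) ^ 12 * m ^ 12 = x ^ 12 := by
      have h5 : (1 + (x / m - 1)) * m = x := by
        have : (1 + (x / m - 1)) * m = x / m * m := by ring
        rw [this, div_mul_cancel₀ _ h.ne']
      rw [← mul_pow, h5]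
    have h4 : (1 + ((12 : ℕ) : ℝ) * (x / m - 1)) * m ^ 12 = m ^ 12 + 12 * m ^ 11 * (x - m) := by
      have h6 : x / m * m = x := div_mul_cancel₀ _ h.ne'
      push_cast
      calc (1 + 12 * (x / m - 1)) * m ^ 12 = m ^ 12 + 12 * m ^ 11 * (x / m * m - m) := by ring
        _ = _ := by rw [h6]
    rw [← h3, ← h4]
    exact mul_le_mul_of_nonneg_right h2 (by positivity)

lemma v_nonneg (y : ℝ) : 0 ≤ (1 + y ^ 2)⁻¹ := by positivity

lemma v_le_one (y : ℝ) : (1 + y ^ 2)⁻¹ ≤ 1 := by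
  apply inv_le_one_of_one_le₀
  nlinarith [sq_nonneg y]

lemma v_cont : Continuous fun y : ℝ => (1 + y ^ 2)⁻¹ := by
  apply Continuous.inv₀ (by fun_prop)
  intro y
  positivity

/-- bounded continuous times the Cauchy weight is integrable -/
lemma int_mul_v {g : ℝ → ℝ} (hg : Continuous g) {M : ℝ} (hM : ∀ y, |g y| ≤ M) :
    Integrable fun y : ℝ => g y * (1 + y ^ 2)⁻¹ := by
  apply Integrable.mono' (integrable_inv_one_add_sq.const_mul M)
  · exact (hg.mul v_cont).aestronglyMeasurable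
  · filter_upwards with y
    rw [norm_mul, Real.norm_eq_abs, Real.norm_eq_abs, abs_of_nonneg (v_nonneg y)]
    exact mul_le_mul_of_nonneg_right (hM y) (v_nonneg y)

lemma jensen12 {g : ℝ → ℝ} (hg : Continuous g) (h0 : ∀ y, 0 ≤ g y) {M : ℝ} (hM : ∀ y, g y ≤ M) :
    (∫ y, g y * (1 + y ^ 2)⁻¹) ^ 12 ≤ Real.pi ^ 11 * ∫ y, g y ^ 12 * (1 + y ^ 2)⁻¹ := by
  set I := ∫ y, g y * (1 + y ^ 2)⁻¹ with hI
  have hI0 : 0 ≤ I := integral_nonneg fun y => mul_nonneg (h0 y) (v_nonneg y)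
  have hπ : 0 < Real.pi := Real.pi_pos
  set m := I / Real.pi with hm
  have hm0 : 0 ≤ m := by positivity
  have hi1 : Integrable fun y : ℝ => g y * (1 + y ^ 2)⁻¹ :=
    int_mul_v hg (M := M) fun y => by rw [abs_of_nonneg (h0 y)]; exact hM y
  have hi2 : Integrable fun y : ℝ => g y ^ 12 * (1 + y ^ 2)⁻¹ :=
    int_mul_v (hg.pow 12) (M := M ^ 12) fun y => by
      rw [abs_of_nonneg (by have := h0 y; positivity)]
      exact pow_le_pow_left₀ (h0 y) (hM y) 12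
  have hv : Integrable fun y : ℝ => (1 + y ^ 2)⁻¹ := integrable_inv_one_add_sq
  have h1 : (∫ y : ℝ, ((m ^ 12 - 12 * m ^ 12) * (1 + y ^ 2)⁻¹ + 12 * m ^ 11 * (g y * (1 + y ^ 2)⁻¹))) ≤
      ∫ y : ℝ, g y ^ 12 * (1 + y ^ 2)⁻¹ := by
    apply integral_mono ((hv.const_mul _).add (hi1.const_mul _)) hi2
    intro y
    have := mul_le_mul_of_nonneg_right (tan12 (g y) m (h0 y) hm0) (v_nonneg y)
    simp only
    calc (m ^ 12 - 12 * m ^ 12) * (1 + y ^ 2)⁻¹ + 12 * m ^ 11 * (g y * (1 + y ^ 2)⁻¹)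
        = (m ^ 12 + 12 * m ^ 11 * (g y - m)) * (1 + y ^ 2)⁻¹ := by ring
      _ ≤ _ := this
  rw [integral_add (hv.const_mul _) (hi1.const_mul _), integral_const_mul, integral_const_mul,
    integral_univ_inv_one_add_sq, ← hI] at h1
  have h2 : I = Real.pi * m := by rw [hm]; field_simp
  have h3 : (m ^ 12 - 12 * m ^ 12) * Real.pi + 12 * m ^ 11 * I = m ^ 12 * Real.pi := by
    rw [h2]; ring
  rw [h3] at h1
  calc I ^ 12 = Real.pi ^ 11 * (m ^ 12 * Real.pi) := by rw [h2]; ring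
    _ ≤ _ := mul_le_mul_of_nonneg_left h1 (by positivity)

/-- norm of `n^{-it}` is at most one -/
lemma norm_cpow_le (n : ℕ) (t : ℝ) : ‖(n : ℂ) ^ (-(t * Complex.I))‖ ≤ 1 := by
  rcases Nat.eq_zero_or_pos n with h | h
  · subst h
    by_cases ht : t = 0
    · subst ht; simp
    · have : (-(t * Complex.I) : ℂ) ≠ 0 := by
        simp [ht]
      rw [Nat.cast_zero, Complex.zero_cpow this, norm_zero]
      exact zero_le_one
  · rw [Complex.norm_natCast_cpow_of_pos h]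
    simp

lemma w_zero_of_gt {w : ℝ → ℝ} {a b : ℝ} (hs : ∀ x, w x ≠ 0 → a ≤ x ∧ x ≤ b) {N : ℝ} (hN : 0 < N)
    {n : ℕ} (hn : n ∉ Finset.range (⌊b * N⌋₊ + 1)) : w ((n : ℝ) / N) = 0 := by
  by_contra h
  apply hn
  rw [Finset.mem_range]
  have h1 := (hs _ h).2
  rw [div_le_iff₀ hN] at h1
  exact Nat.lt_succ_of_le (Nat.le_floor h1)

/-- trivial bound for blocks -/
lemma bl_le {w : ℝ → ℝ} {a b B : ℝ} (ha : 0 < a) (hab : a < b) (hs : ∀ x, w x ≠ 0 → a ≤ x ∧ x ≤ b)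
    (hB : ∀ x, |w x| ≤ B) (hB0 : 0 ≤ B) {N : ℝ} (hN : 1 ≤ N) (t : ℝ) :
    ‖Bl w N t‖ ≤ B * ((b + 1) * N) := by
  unfold Bl
  rw [tsum_eq_sum (s := Finset.range (⌊b * N⌋₊ + 1)) (fun n hn => by
    rw [w_zero_of_gt hs (by linarith) hn]; simp)]
  refine le_trans (norm_sum_le _ _) ?_
  have h1 : ∀ n ∈ Finset.range (⌊b * N⌋₊ + 1),
      ‖((w ((n : ℝ) / N) : ℝ) : ℂ) * (n : ℂ) ^ (-(t * Complex.I))‖ ≤ B := by
    intro n _
    rw [norm_mul, Complex.norm_real, Real.norm_eq_abs]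
    calc |w ((n : ℝ) / N)| * ‖(n : ℂ) ^ (-(t * Complex.I))‖ ≤ B * 1 :=
        mul_le_mul (hB _) (norm_cpow_le n t) (norm_nonneg _) hB0
      _ = B := mul_one B
  refine le_trans (Finset.sum_le_sum h1) ?_
  rw [Finset.sum_const, Finset.card_range, nsmul_eq_mul, mul_comm]
  apply mul_le_mul_of_nonneg_left _ hB0
  push_cast
  have h2 : ((⌊b * N⌋₊ : ℕ) : ℝ) ≤ b * N := Nat.floor_le (by nlinarith)
  nlinarith

/-- the block with an exponential factor -/
def B1 (w : ℝ → ℝ) (N K t : ℝ) : ℂ :=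
  ∑' n : ℕ, ((w ((n : ℝ) / N) : ℝ) : ℂ) * (Real.exp (-((n : ℝ) / K)) : ℂ) * (n : ℂ) ^ (-(t * Complex.I))

lemma diff_le {w : ℝ → ℝ} {a b B : ℝ} (ha : 0 < a) (hab : a < b) (hs : ∀ x, w x ≠ 0 → a ≤ x ∧ x ≤ b)
    (hB : ∀ x, |w x| ≤ B) (hB0 : 0 ≤ B) {N K : ℝ} (hN : 1 ≤ N) (hK : 0 < K) (t : ℝ) :
    ‖Bl w N t - B1 w N K t‖ ≤ B * (b * N / K) * ((b + 1) * N) := by
  unfold Bl B1
  have hN0 : 0 < N := by linarith
  rw [tsum_eq_sum (s := Finset.range (⌊b * N⌋₊ + 1)) (fun n hn => by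
    rw [w_zero_of_gt hs hN0 hn]; simp), tsum_eq_sum (s := Finset.range (⌊b * N⌋₊ + 1)) (fun n hn => by
    rw [w_zero_of_gt hs hN0 hn]; simp), ← Finset.sum_sub_distrib]
  refine le_trans (norm_sum_le _ _) ?_
  have hbN : 0 ≤ b * N / K := by
    have : 0 < b := by linarith
    positivity
  have h1 : ∀ n ∈ Finset.range (⌊b * N⌋₊ + 1),
      ‖((w ((n : ℝ) / N) : ℝ) : ℂ) * (n : ℂ) ^ (-(t * Complex.I)) -
        ((w ((n : ℝ) / N) : ℝ) : ℂ) * (Real.exp (-((n : ℝ) / K)) : ℂ) * (n : ℂ) ^ (-(t * Complex.I))‖ ≤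
      B * (b * N / K) := by
    intro n hn
    have hn' : (n : ℝ) ≤ b * N := by
      rw [Finset.mem_range] at hn
      have : n ≤ ⌊b * N⌋₊ := Nat.lt_succ_iff.1 hn
      exact le_trans (by exact_mod_cast this) (Nat.floor_le (by nlinarith))
    have e1 : ((w ((n : ℝ) / N) : ℝ) : ℂ) * (n : ℂ) ^ (-(t * Complex.I)) -
        ((w ((n : ℝ) / N) : ℝ) : ℂ) * (Real.exp (-((n : ℝ) / K)) : ℂ) * (n : ℂ) ^ (-(t * Complex.I)) =
        ((w ((n : ℝ) / N) : ℝ) : ℂ) * ((1 - Real.exp (-((n : ℝ) / K)) : ℝ) : ℂ) *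
          (n : ℂ) ^ (-(t * Complex.I)) := by
      push_cast
      ring
    rw [e1, norm_mul, norm_mul, Complex.norm_real, Complex.norm_real, Real.norm_eq_abs, Real.norm_eq_abs]
    have h2 : |1 - Real.exp (-((n : ℝ) / K))| ≤ b * N / K := by
      have h3 : 0 ≤ (n : ℝ) / K := by positivity
      have h4 : Real.exp (-((n : ℝ) / K)) ≤ 1 := Real.exp_le_one_iff.2 (by linarith)
      rw [abs_of_nonneg (by linarith)]
      have h5 := Real.add_one_le_exp (-((n : ℝ) / K))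
      have h6 : (n : ℝ) / K ≤ b * N / K := by gcongr
      linarith
    calc |w ((n : ℝ) / N)| * |1 - Real.exp (-((n : ℝ) / K))| * ‖(n : ℂ) ^ (-(t * Complex.I))‖
        ≤ (B * (b * N / K)) * 1 := by
          apply mul_le_mul _ (norm_cpow_le n t) (norm_nonneg _) (by positivity)
          exact mul_le_mul (hB _) h2 (abs_nonneg _) hB0
      _ = _ := mul_one _
  refine le_trans (Finset.sum_le_sum h1) ?_
  rw [Finset.sum_const, Finset.card_range, nsmul_eq_mul, mul_comm]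
  apply mul_le_mul_of_nonneg_left _ (by positivity)
  push_cast
  have h2 : ((⌊b * N⌋₊ : ℕ) : ℝ) ≤ b * N := Nat.floor_le (by nlinarith)
  nlinarith

/-- the identity for the block with the exponential factor -/
lemma b1_eq (hPc : EM.StPc) (hMel : StMel) {w : ℝ → ℝ} (hw : IsWt w) {N K : ℝ} (hN : 0 < N) (hK : 1 ≤ K) (t : ℝ) :
    B1 w N K t = ((Real.sqrt N : ℝ) : ℂ) * ((1 / (2 * Real.pi) : ℝ) : ℂ) *
      ∫ y : ℝ, Om (fun x => w x * x ^ (1 / 2 : ℝ)) y * (N : ℂ) ^ (y * Complex.I) * EM.P K (t + y) := by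
  set w1 : ℝ → ℝ := fun x => w x * x ^ (1 / 2 : ℝ) with hw1
  have hw1' : IsWt w1 := hw.mul_rpow (1 / 2)
  obtain ⟨hc, hdec, hinv⟩ := hMel w1 hw1'
  obtain ⟨hPcont, hPb, hPs, hPsum, _⟩ := hPc K hK
  obtain ⟨hws, a, b, ha, hab, hsupp⟩ := hw
  have hwz : w 0 = 0 := by
    by_contra h
    have := (hsupp 0 h).1
    linarith
  -- integrability of Om
  have hOmI : Integrable (Om w1) := by
    obtain ⟨C, hC1, hC⟩ := hdec 2
    apply Integrable.mono' (integrable_inv_one_add_sq.const_mul C) hc.aestronglyMeasurable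
    filter_upwards with y
    refine le_trans (hC y) ?_
    rw [div_eq_mul_inv]
    apply mul_le_mul_of_nonneg_left _ (by linarith)
    apply inv_anti₀ (by positivity)
    have : 0 ≤ |y| := abs_nonneg y
    nlinarith [sq_abs y]
  -- the functions
  set F : ℕ → ℝ → ℂ := fun n y => Om w1 y * (N : ℂ) ^ (y * Complex.I) *
    ((Real.exp (-((n : ℝ) / K)) : ℂ) * (n : ℂ) ^ (-(1 / 2 + ((t + y : ℝ) : ℂ) * Complex.I))) with hF
  have hNn : ∀ y : ℝ, ‖(N : ℂ) ^ (y * Complex.I)‖ = 1 := by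
    intro y
    rw [Complex.norm_cpow_eq_rpow_re_of_pos hN]
    simp
  have hnn : ∀ (n : ℕ) (y : ℝ), ‖(Real.exp (-((n : ℝ) / K)) : ℂ) *
      (n : ℂ) ^ (-(1 / 2 + ((t + y : ℝ) : ℂ) * Complex.I))‖ = Real.exp (-((n : ℝ) / K)) / Real.sqrt n := by
    intro n y
    rw [norm_mul, Complex.norm_real, Real.norm_eq_abs, abs_of_pos (Real.exp_pos _)]
    rcases Nat.eq_zero_or_pos n with h | h
    · subst h
      have : (-(1 / 2 + ((t + y : ℝ) : ℂ) * Complex.I) : ℂ) ≠ 0 := by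
        intro h0
        have := congrArg Complex.re h0
        simp at this
      simp only [Nat.cast_zero]
      rw [Complex.zero_cpow this, norm_zero]
      simp
    · rw [Complex.norm_natCast_cpow_of_pos h, div_eq_mul_inv]
      congr 1
      rw [Real.sqrt_eq_rpow, ← Real.rpow_neg (by positivity)]
      congr 1
      simp
  have hNc : Continuous fun y : ℝ => (N : ℂ) ^ (y * Complex.I) := by
    apply Continuous.const_cpow (by fun_prop)
    left
    exact_mod_cast hN.ne'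
  have hFc : ∀ n, Continuous (F n) := by
    intro n
    rcases Nat.eq_zero_or_pos n with h | h
    · subst h
      have : F 0 = fun _ => 0 := by
        funext y
        have h0 := hnn 0 y
        rw [hF]
        simp only
        have h1 : ‖(Real.exp (-(((0 : ℕ) : ℝ) / K)) : ℂ) *
            ((0 : ℕ) : ℂ) ^ (-(1 / 2 + ((t + y : ℝ) : ℂ) * Complex.I))‖ = 0 := by
          rw [h0]; simp
        rw [norm_eq_zero.1 h1, mul_zero]
      rw [this]
      exact continuous_const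
    · apply (hc.mul hNc).mul
      apply continuous_const.mul
      apply Continuous.const_cpow (by fun_prop)
      left
      exact_mod_cast h.ne'
  have hFn : ∀ (n : ℕ) (y : ℝ), ‖F n y‖ = ‖Om w1 y‖ * (Real.exp (-((n : ℝ) / K)) / Real.sqrt n) := by
    intro n y
    rw [hF]
    simp only
    rw [norm_mul, norm_mul, hNn, hnn, mul_one]
  have hFint : ∀ n, Integrable (F n) := by
    intro n
    apply Integrable.mono' (hOmI.norm.mul_const (Real.exp (-((n : ℝ) / K)) / Real.sqrt n))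
      (hFc n).aestronglyMeasurable
    filter_upwards with y
    rw [hFn]
  have hFsum : Summable fun n => ∫ y, ‖F n y‖ := by
    have : (fun n => ∫ y, ‖F n y‖) = fun n : ℕ => (∫ y, ‖Om w1 y‖) * (Real.exp (-((n : ℝ) / K)) / Real.sqrt n) := by
      funext n
      rw [← integral_mul_const]
      congr 1
      funext y
      exact hFn n y
    rw [this]
    exact hPsum.mul_left _
  have hsum := hasSum_integral_of_summable_integral_norm hFint hFsum
  have hP : ∀ y, ∑' n, F n y = Om w1 y * (N : ℂ) ^ (y * Complex.I) * EM.P K (t + y) := by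
    intro y
    rw [hF]
    simp only
    rw [tsum_mul_left]
    rfl
  have hterm : ∀ n : ℕ, ((w ((n : ℝ) / N) : ℝ) : ℂ) * (Real.exp (-((n : ℝ) / K)) : ℂ) *
      (n : ℂ) ^ (-(t * Complex.I)) =
      ((Real.sqrt N : ℝ) : ℂ) * ((1 / (2 * Real.pi) : ℝ) : ℂ) * ∫ y, F n y := by
    intro n
    rcases Nat.eq_zero_or_pos n with h | h
    · subst h
      have h1 : ∀ y, F 0 y = 0 := by
        intro y
        rw [← norm_eq_zero, hFn]
        simp
      simp only [h1, integral_zero, mul_zero]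
      rw [Nat.cast_zero, zero_div, hwz]
      simp
    · have hn0 : (0 : ℝ) < n := by exact_mod_cast h
      have hnN : 0 < (n : ℝ) / N := by positivity
      have h2 := hinv _ hnN
      have h3 : ((w ((n : ℝ) / N) : ℝ) : ℂ) =
          ((w1 ((n : ℝ) / N) : ℝ) : ℂ) * ((Real.sqrt N : ℝ) : ℂ) * (n : ℂ) ^ (-(1 / 2) : ℂ) := by
        have e1 : w ((n : ℝ) / N) = w1 ((n : ℝ) / N) * Real.sqrt N * (n : ℝ) ^ (-(1 / 2) : ℝ) := by
          rw [hw1]
          simp only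
          rw [Real.div_rpow hn0.le hN.le, ← Real.sqrt_eq_rpow N, Real.rpow_neg hn0.le]
          have hs : Real.sqrt N ≠ 0 := (Real.sqrt_pos.2 hN).ne'
          have hs2 : (n : ℝ) ^ (1 / 2 : ℝ) ≠ 0 := (Real.rpow_pos_of_pos hn0 _).ne'
          field_simp
        rw [e1]
        push_cast
        congr 1
        rw [Complex.ofReal_cpow hn0.le]
        push_cast
        rfl
      rw [h3, h2, ← integral_const_mul]
      have h4 : ∀ y : ℝ, F n y = (Om w1 y * ((((n : ℝ) / N : ℝ) : ℂ)) ^ (-(y * Complex.I))) *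
          ((Real.exp (-((n : ℝ) / K)) : ℂ) * ((n : ℂ) ^ (-(1 / 2) : ℂ) * (n : ℂ) ^ (-(t * Complex.I)))) := by
        intro y
        rw [hF]
        simp only
        have hnc : (n : ℂ) ≠ 0 := by exact_mod_cast h.ne'
        have hNC : (N : ℂ) ≠ 0 := by exact_mod_cast hN.ne'
        have e2 : ((((n : ℝ) / N : ℝ) : ℂ)) ^ (-(y * Complex.I)) =
            (N : ℂ) ^ (y * Complex.I) * (n : ℂ) ^ (-(y * Complex.I)) := by
          have e3 : (((n : ℝ) / N : ℝ) : ℂ) = ((n : ℝ) : ℂ) * ((N⁻¹ : ℝ) : ℂ) := by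
            push_cast
            rw [div_eq_mul_inv]
          rw [e3, Complex.mul_cpow_ofReal_nonneg hn0.le (by positivity)]
          have e4 : ((N⁻¹ : ℝ) : ℂ) ^ (-(y * Complex.I)) = (N : ℂ) ^ (y * Complex.I) := by
            push_cast
            rw [Complex.inv_cpow, Complex.cpow_neg, inv_inv]
            rw [Complex.arg_ofReal_of_nonneg hN.le]
            exact Real.pi_pos.ne
          rw [e4, Complex.ofReal_natCast, mul_comm]
        have e5 : (n : ℂ) ^ (-(1 / 2 + ((t + y : ℝ) : ℂ) * Complex.I)) =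
            (n : ℂ) ^ (-(y * Complex.I)) * ((n : ℂ) ^ (-(1 / 2) : ℂ) * (n : ℂ) ^ (-(t * Complex.I))) := by
          rw [← Complex.cpow_add _ _ hnc, ← Complex.cpow_add _ _ hnc]
          congr 1
          push_cast
          ring
        rw [e2, e5]
        ring
      simp only [h4]
      rw [integral_mul_const]
      have h5 : (∫ y : ℝ, ((1 / (2 * Real.pi) : ℝ) : ℂ) * (Om w1 y * ((((n : ℝ) / N : ℝ) : ℂ)) ^ (-(y * Complex.I)))) =
          ((1 / (2 * Real.pi) : ℝ) : ℂ) * ∫ y : ℝ, (Om w1 y * ((((n : ℝ) / N : ℝ) : ℂ)) ^ (-(y * Complex.I))) :=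
        integral_const_mul _ _
      rw [h5]
      ring
  unfold B1
  simp only [hterm]
  rw [tsum_mul_left, hsum.tsum_eq]
  simp only [hP]

lemma fin_pt {b X D J M E : ℝ} (hb : 0 ≤ b) (hX : 0 ≤ X) (hD : 0 ≤ D) (hJ : 0 ≤ J) (hM : 0 ≤ M) (hE : 0 ≤ E)
    (h1 : b ≤ X + D) (h2 : X ^ 12 ≤ M * E * J) :
    b ^ 12 ≤ (2 ^ 11 * E + 2 ^ 11 * D ^ 12 + 1) * M * J + (2 ^ 11 * E + 2 ^ 11 * D ^ 12 + 1) := by
  have h3 : b ^ 12 ≤ 2 ^ 11 * (X ^ 12 + D ^ 12) :=
    le_trans (pow_le_pow_left₀ hb h1 12) (add_pow_le hX hD 12)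
  have hG : 0 ≤ D ^ 12 := by positivity
  generalize D ^ 12 = G at h3 hG ⊢
  generalize X ^ 12 = Y at h3 h2
  have hMJ : 0 ≤ M * J := mul_nonneg hM hJ
  have e1 : 0 ≤ (2 ^ 11 * G + 1) * (M * J) := by positivity
  have e3 : M * E * J = E * (M * J) := by ring
  rw [e3] at h2
  calc b ^ 12 ≤ 2 ^ 11 * (Y + G) := h3
    _ ≤ 2 ^ 11 * (E * (M * J) + G) := by linarith
    _ ≤ 2 ^ 11 * (E * (M * J) + G) + ((2 ^ 11 * G + 1) * (M * J) + (2 ^ 11 * E + 1)) := by
        have : 0 ≤ 2 ^ 11 * E + 1 := by positivity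
        linarith
    _ = _ := by ring

/-- pointwise bound for the twelfth power of a block -/
lemma pt (hPc : EM.StPc) (hMel : StMel) {w : ℝ → ℝ} (hw : IsWt w) : ∃ C : ℝ, 1 ≤ C ∧ ∀ T N t : ℝ,
    1 ≤ T → 1 ≤ N → N ≤ T → ‖Bl w N t‖ ^ 12 ≤
      C * N ^ 6 * (∫ y : ℝ, ‖EM.P (T ^ 2) (t + y)‖ ^ 12 * ((1 + y ^ 2)⁻¹) ^ 13) + C := by
  obtain ⟨B, hB1, hB⟩ := hw.bounded
  obtain ⟨hc, hdec, _⟩ := hMel _ (hw.mul_rpow (1 / 2))
  obtain ⟨C1, hC1, hC⟩ := hdec 4
  have hw' := hw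
  obtain ⟨_, a, b, ha, hab, hsupp⟩ := hw'
  have hb : 0 < b := by linarith
  set D := B * b * (b + 1) with hD
  have hD0 : 0 ≤ D := by positivity
  refine ⟨2 ^ 11 * (C1 ^ 12 * Real.pi ^ 11) + 2 ^ 11 * D ^ 12 + 1, ?_, ?_⟩
  · have : 0 ≤ 2 ^ 11 * (C1 ^ 12 * Real.pi ^ 11) + 2 ^ 11 * D ^ 12 := by positivity
    linarith
  intro T N t hT hN hNT
  have hT0 : 0 < T := by linarith
  have hK : (1 : ℝ) ≤ T ^ 2 := one_le_pow₀ hT
  obtain ⟨hPcont, hPb, _, _, _⟩ := hPc (T ^ 2) hK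
  have hPb' : ∀ y, ‖EM.P (T ^ 2) y‖ ≤ 2 * T := by
    intro y
    have := hPb y
    rwa [Real.sqrt_sq hT0.le] at this
  -- difference
  have hdiff : ‖Bl w N t - B1 w N (T ^ 2) t‖ ≤ D := by
    refine le_trans (diff_le ha hab hsupp hB (by linarith) hN (by positivity) t) ?_
    have h1 : N ^ 2 / T ^ 2 ≤ 1 := by
      rw [div_le_one (by positivity)]
      exact pow_le_pow_left₀ (by linarith) hNT 2
    have h2 : B * (b * N / T ^ 2) * ((b + 1) * N) = D * (N ^ 2 / T ^ 2) := by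
      rw [hD]; ring
    rw [h2]
    calc D * (N ^ 2 / T ^ 2) ≤ D * 1 := mul_le_mul_of_nonneg_left h1 hD0
      _ = D := mul_one D
  -- B1
  set g : ℝ → ℝ := fun y => ‖EM.P (T ^ 2) (t + y)‖ * (1 + y ^ 2)⁻¹ with hg
  have hgc : Continuous g := ((hPcont.comp (continuous_const.add continuous_id)).norm).mul v_cont
  have hg0 : ∀ y, 0 ≤ g y := fun y => mul_nonneg (norm_nonneg _) (v_nonneg y)
  have hgM : ∀ y, g y ≤ 2 * T := by
    intro y
    calc g y ≤ (2 * T) * 1 := mul_le_mul (hPb' _) (v_le_one y) (v_nonneg y) (by linarith)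
      _ = _ := mul_one _
  have hJ := jensen12 hgc hg0 hgM
  have hgi : Integrable fun y : ℝ => g y * (1 + y ^ 2)⁻¹ :=
    int_mul_v hgc (M := 2 * T) fun y => by rw [abs_of_nonneg (hg0 y)]; exact hgM y
  have hint12 : (∫ y, g y ^ 12 * (1 + y ^ 2)⁻¹) =
      ∫ y : ℝ, ‖EM.P (T ^ 2) (t + y)‖ ^ 12 * ((1 + y ^ 2)⁻¹) ^ 13 := by
    congr 1
    funext y
    rw [hg]
    simp only
    ring
  have hb1 : ‖B1 w N (T ^ 2) t‖ ≤ Real.sqrt N * (C1 * ∫ y, g y * (1 + y ^ 2)⁻¹) := by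
    rw [b1_eq hPc hMel hw (by linarith) hK t, norm_mul, norm_mul, Complex.norm_real, Complex.norm_real,
      Real.norm_eq_abs, Real.norm_eq_abs, abs_of_nonneg (Real.sqrt_nonneg _), abs_of_nonneg (by positivity)]
    have h1 : ‖∫ y : ℝ, Om (fun x => w x * x ^ (1 / 2 : ℝ)) y * (N : ℂ) ^ (y * Complex.I) * EM.P (T ^ 2) (t + y)‖ ≤
        ∫ y, C1 * (g y * (1 + y ^ 2)⁻¹) := by
      apply norm_integral_le_of_norm_le (hgi.const_mul C1)
      filter_upwards with y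
      rw [norm_mul, norm_mul]
      have hNn : ‖(N : ℂ) ^ (y * Complex.I)‖ = 1 := by
        rw [Complex.norm_cpow_eq_rpow_re_of_pos (by linarith)]
        simp
      rw [hNn, mul_one]
      have h2 : ‖Om (fun x => w x * x ^ (1 / 2 : ℝ)) y‖ ≤ C1 * ((1 + y ^ 2)⁻¹ * (1 + y ^ 2)⁻¹) := by
        refine le_trans (hC y) ?_
        rw [div_eq_mul_inv, ← mul_inv]
        apply mul_le_mul_of_nonneg_left _ (by linarith)
        apply inv_anti₀ (by positivity)
        have h3 : 1 + y ^ 2 ≤ (1 + |y|) ^ 2 := by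
          have : 0 ≤ |y| := abs_nonneg y
          nlinarith [sq_abs y]
        calc (1 + y ^ 2) * (1 + y ^ 2) ≤ (1 + |y|) ^ 2 * (1 + |y|) ^ 2 :=
            mul_le_mul h3 h3 (by positivity) (by positivity)
          _ = _ := by ring
      calc ‖Om (fun x => w x * x ^ (1 / 2 : ℝ)) y‖ * ‖EM.P (T ^ 2) (t + y)‖
          ≤ (C1 * ((1 + y ^ 2)⁻¹ * (1 + y ^ 2)⁻¹)) * ‖EM.P (T ^ 2) (t + y)‖ :=
            mul_le_mul_of_nonneg_right h2 (norm_nonneg _)
        _ = C1 * (g y * (1 + y ^ 2)⁻¹) := by rw [hg]; ring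
    rw [integral_const_mul] at h1
    have h4 : 1 / (2 * Real.pi) ≤ 1 := by
      rw [div_le_one (by positivity)]
      have := Real.pi_gt_three
      linarith
    calc Real.sqrt N * (1 / (2 * Real.pi)) *
        ‖∫ y : ℝ, Om (fun x => w x * x ^ (1 / 2 : ℝ)) y * (N : ℂ) ^ (y * Complex.I) * EM.P (T ^ 2) (t + y)‖
        ≤ Real.sqrt N * 1 * (C1 * ∫ y, g y * (1 + y ^ 2)⁻¹) := by
          apply mul_le_mul _ h1 (norm_nonneg _) (by positivity)
          exact mul_le_mul_of_nonneg_left h4 (Real.sqrt_nonneg _)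
      _ = _ := by rw [mul_one]
  set J := ∫ y : ℝ, ‖EM.P (T ^ 2) (t + y)‖ ^ 12 * ((1 + y ^ 2)⁻¹) ^ 13 with hJd
  rw [hint12] at hJ
  have hJ0 : 0 ≤ J := integral_nonneg fun y => by positivity
  have hb12 : ‖B1 w N (T ^ 2) t‖ ^ 12 ≤ N ^ 6 * (C1 ^ 12 * Real.pi ^ 11) * J := by
    refine le_trans (pow_le_pow_left₀ (norm_nonneg _) hb1 12) ?_
    rw [mul_pow, mul_pow]
    have h1 : Real.sqrt N ^ 12 = N ^ 6 := by
      calc Real.sqrt N ^ 12 = (Real.sqrt N ^ 2) ^ 6 := by ring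
        _ = N ^ 6 := by rw [Real.sq_sqrt (by linarith)]
    rw [h1]
    calc N ^ 6 * (C1 ^ 12 * (∫ y, g y * (1 + y ^ 2)⁻¹) ^ 12)
        ≤ N ^ 6 * (C1 ^ 12 * (Real.pi ^ 11 * J)) := by
          apply mul_le_mul_of_nonneg_left _ (by positivity)
          exact mul_le_mul_of_nonneg_left hJ (by positivity)
      _ = _ := by ring
  have h5 : ‖Bl w N t‖ ≤ ‖B1 w N (T ^ 2) t‖ + D := by
    have : Bl w N t = B1 w N (T ^ 2) t + (Bl w N t - B1 w N (T ^ 2) t) := by ring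
    rw [this]
    refine le_trans (norm_add_le _ _) ?_
    gcongr
  exact fin_pt (norm_nonneg _) (norm_nonneg _) hD0 hJ0 (by positivity) (by positivity) h5 hb12

/-- sum over the points -/
lemma sumW (hPc : EM.StPc) (hS2 : StS2) : ∃ C : ℝ, 1 ≤ C ∧ ∀ (T : ℝ) (W : Finset ℝ), 1 ≤ T → Sep W →
    (∀ t ∈ W, T ≤ t ∧ t ≤ 2 * T + 1) → (W.card : ℝ) ≤ 4 * T ∧
    ∑ t ∈ W, (∫ y : ℝ, ‖EM.P (T ^ 2) (t + y)‖ ^ 12 * ((1 + y ^ 2)⁻¹) ^ 13) ≤
      C * (∫ x in Icc (T / 2) (4 * T), ‖EM.P (T ^ 2) x‖ ^ 12) + C * T := by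
  obtain ⟨CS, hCS, hS⟩ := hS2
  refine ⟨CS + 2 ^ 36 * (4 * Real.pi), ?_, ?_⟩
  · have : 0 ≤ 2 ^ 36 * (4 * Real.pi) := by positivity
    linarith
  intro T W hT hW hWT
  obtain ⟨h1, _, h3⟩ := hS W hW
  have hT0 : 0 < T := by linarith
  have hcard : (W.card : ℝ) ≤ 4 * T := by
    have := h3 T (T + 1) (by linarith) (fun t ht => ⟨(hWT t ht).1, by linarith [(hWT t ht).2]⟩)
    linarith
  refine ⟨hcard, ?_⟩
  have hK : (1 : ℝ) ≤ T ^ 2 := one_le_pow₀ hT
  obtain ⟨hPcont, hPb, _, _, _⟩ := hPc (T ^ 2) hK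
  have hPb' : ∀ y, ‖EM.P (T ^ 2) y‖ ≤ 2 * T := by
    intro y
    have := hPb y
    rwa [Real.sqrt_sq hT0.le] at this
  set p : ℝ → ℝ := fun x => ‖EM.P (T ^ 2) x‖ ^ 12 with hp
  have hpc : Continuous p := hPcont.norm.pow 12
  have hp0 : ∀ x, 0 ≤ p x := fun x => by positivity
  have hpb : ∀ x, p x ≤ (2 * T) ^ 12 := fun x => pow_le_pow_left₀ (norm_nonneg _) (hPb' x) 12
  have htr : ∀ t : ℝ, (∫ y : ℝ, ‖EM.P (T ^ 2) (t + y)‖ ^ 12 * ((1 + y ^ 2)⁻¹) ^ 13) =
      ∫ x : ℝ, p x * ((1 + (x - t) ^ 2)⁻¹) ^ 13 := by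
    intro t
    rw [← integral_sub_right_eq_self (fun y : ℝ => ‖EM.P (T ^ 2) (t + y)‖ ^ 12 * ((1 + y ^ 2)⁻¹) ^ 13) t]
    congr 1
    funext x
    rw [hp]
    simp only
    rw [add_sub_cancel]
  have hvt : ∀ t : ℝ, Integrable fun x : ℝ => (1 + (x - t) ^ 2)⁻¹ := fun t =>
    integrable_inv_one_add_sq.comp_sub_right t
  have hvi : ∀ t : ℝ, ∫ x : ℝ, (1 + (x - t) ^ 2)⁻¹ = Real.pi := by
    intro t
    rw [integral_sub_right_eq_self (fun y : ℝ => (1 + y ^ 2)⁻¹) t]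
    exact integral_univ_inv_one_add_sq
  have hv13 : ∀ t x : ℝ, ((1 + (x - t) ^ 2)⁻¹) ^ 13 ≤ (1 + (x - t) ^ 2)⁻¹ := by
    intro t x
    exact pow_le_of_le_one (v_nonneg _) (v_le_one _) (by norm_num)
  have hint : ∀ t : ℝ, Integrable fun x : ℝ => p x * ((1 + (x - t) ^ 2)⁻¹) ^ 13 := by
    intro t
    apply Integrable.mono' ((hvt t).const_mul ((2 * T) ^ 12))
    · exact (hpc.mul ((v_cont.comp (continuous_id.sub continuous_const)).pow 13)).aestronglyMeasurable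
    · filter_upwards with x
      rw [norm_mul, Real.norm_eq_abs, Real.norm_eq_abs, abs_of_nonneg (hp0 x),
        abs_of_nonneg (pow_nonneg (v_nonneg _) 13)]
      exact mul_le_mul (hpb x) (hv13 t x) (pow_nonneg (v_nonneg _) 13) (by positivity)
  simp only [htr]
  rw [← integral_finsetSum _ fun t _ => hint t]
  set S := Icc (T / 2) (4 * T) with hSd
  have hSm : MeasurableSet S := measurableSet_Icc
  have hpS : IntegrableOn p S := hpc.continuousOn.integrableOn_compact isCompact_Icc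
  have hI1 : Integrable (S.indicator fun x => CS * p x) := by
    rw [integrable_indicator_iff hSm]
    exact hpS.const_mul CS
  have hI2 : Integrable fun x : ℝ => 2 ^ 36 * ∑ t ∈ W, (1 + (x - t) ^ 2)⁻¹ :=
    (integrable_finsetSum _ fun t _ => hvt t).const_mul _
  have hpoint : ∀ x : ℝ, ∑ t ∈ W, p x * ((1 + (x - t) ^ 2)⁻¹) ^ 13 ≤
      S.indicator (fun x => CS * p x) x + 2 ^ 36 * ∑ t ∈ W, (1 + (x - t) ^ 2)⁻¹ := by
    intro x
    have hsum0 : 0 ≤ ∑ t ∈ W, (1 + (x - t) ^ 2)⁻¹ := Finset.sum_nonneg fun t _ => v_nonneg _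
    by_cases hx : x ∈ S
    · rw [Set.indicator_of_mem hx]
      have e1 : ∑ t ∈ W, p x * ((1 + (x - t) ^ 2)⁻¹) ^ 13 ≤ p x * CS := by
        rw [← Finset.mul_sum]
        apply mul_le_mul_of_nonneg_left _ (hp0 x)
        refine le_trans (Finset.sum_le_sum fun t _ => hv13 t x) ?_
        have := h1 x
        simpa only [one_div] using this
      have e2 : 0 ≤ 2 ^ 36 * ∑ t ∈ W, (1 + (x - t) ^ 2)⁻¹ := by positivity
      linarith
    · rw [Set.indicator_of_notMem hx, zero_add, Finset.mul_sum]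
      apply Finset.sum_le_sum
      intro t ht
      have hd : T / 2 ≤ |x - t| := by
        rw [hSd, mem_Icc, not_and_or, not_le, not_le] at hx
        have := hWT t ht
        rcases hx with hx | hx
        · rw [abs_of_nonpos (by linarith)]
          linarith
        · rw [abs_of_nonneg (by linarith)]
          linarith
      have hsq : T ^ 2 / 4 ≤ 1 + (x - t) ^ 2 := by
        have h5 : (T / 2) ^ 2 ≤ |x - t| ^ 2 := pow_le_pow_left₀ (by linarith) hd 2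
        rw [sq_abs] at h5
        nlinarith
      have hv : (1 + (x - t) ^ 2)⁻¹ ≤ 4 / T ^ 2 := by
        have : (4 / T ^ 2 : ℝ) = (T ^ 2 / 4)⁻¹ := by rw [inv_div]
        rw [this]
        exact inv_anti₀ (by positivity) hsq
      have hv12 : ((1 + (x - t) ^ 2)⁻¹) ^ 12 ≤ (4 / T ^ 2) ^ 12 :=
        pow_le_pow_left₀ (v_nonneg _) hv 12
      have h6 : p x * ((1 + (x - t) ^ 2)⁻¹) ^ 12 ≤ 2 ^ 36 := by
        calc p x * ((1 + (x - t) ^ 2)⁻¹) ^ 12 ≤ (2 * T) ^ 12 * (4 / T ^ 2) ^ 12 :=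
            mul_le_mul (hpb x) hv12 (pow_nonneg (v_nonneg _) 12) (by positivity)
          _ = 2 ^ 36 * (1 / T) ^ 12 := by
              field_simp
              norm_num
          _ ≤ 2 ^ 36 * 1 := by
              apply mul_le_mul_of_nonneg_left _ (by norm_num)
              apply pow_le_one₀ (by positivity)
              rw [div_le_one hT0]
              exact hT
          _ = 2 ^ 36 := mul_one _
      calc p x * ((1 + (x - t) ^ 2)⁻¹) ^ 13 = p x * ((1 + (x - t) ^ 2)⁻¹) ^ 12 * (1 + (x - t) ^ 2)⁻¹ := by ring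
        _ ≤ 2 ^ 36 * (1 + (x - t) ^ 2)⁻¹ := mul_le_mul_of_nonneg_right h6 (v_nonneg _)
  calc (∫ x, ∑ t ∈ W, p x * ((1 + (x - t) ^ 2)⁻¹) ^ 13)
      ≤ ∫ x, (S.indicator (fun x => CS * p x) x + 2 ^ 36 * ∑ t ∈ W, (1 + (x - t) ^ 2)⁻¹) :=
        integral_mono (integrable_finsetSum _ fun t _ => hint t) (hI1.add hI2) hpoint
    _ = CS * (∫ x in S, p x) + 2 ^ 36 * (W.card * Real.pi) := by
        rw [integral_add hI1 hI2, integral_indicator hSm, integral_const_mul, integral_const_mul,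
          integral_finsetSum _ fun t _ => hvt t]
        simp only [hvi, Finset.sum_const, nsmul_eq_mul]
    _ ≤ (CS + 2 ^ 36 * (4 * Real.pi)) * (∫ x in S, p x) + (CS + 2 ^ 36 * (4 * Real.pi)) * T := by
        have e1 : 0 ≤ ∫ x in S, p x := integral_nonneg fun x => hp0 x
        have e2 : (W.card : ℝ) * Real.pi ≤ 4 * T * Real.pi := by
          apply mul_le_mul_of_nonneg_right hcard Real.pi_pos.le
        have e3 : 0 ≤ 2 ^ 36 * (4 * Real.pi) * ∫ x in S, p x := by positivity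
        have e4 : 0 ≤ CS * T := by positivity
        nlinarith

lemma zeta_cont : Continuous fun x : ℝ => riemannZeta (1 / 2 + x * Complex.I) := by
  rw [continuous_iff_continuousAt]
  intro x
  have h1 : (1 / 2 + x * Complex.I : ℂ) ≠ 1 := by
    intro h
    have := congrArg Complex.re h
    norm_num at this
  have h2 := (differentiableAt_riemannZeta h1).continuousAt
  exact ContinuousAt.comp (f := fun x : ℝ => (1 / 2 + x * Complex.I : ℂ)) (g := riemannZeta) h2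
    (by fun_prop)

/-- the integral of the twelfth power of the smooth sum -/
lemma intP (hPc : EM.StPc) (hZ : EM.StZ) : ∃ C : ℝ, 1 ≤ C ∧ ∀ T : ℝ, 2 ≤ T →
    ∫ x in Icc (T / 2) (4 * T), ‖EM.P (T ^ 2) x‖ ^ 12 ≤
      C * (∫ t in (0 : ℝ)..(4 * T), ‖riemannZeta (1 / 2 + t * Complex.I)‖ ^ (12 : ℝ)) + C * T := by
  obtain ⟨C0, hC0, hZ0⟩ := hZ
  refine ⟨2 ^ 11 + 2 ^ 11 * (6 * C0) ^ 12 * 4, ?_, ?_⟩
  · have : 0 ≤ 2 ^ 11 * (6 * C0) ^ 12 * 4 := by positivity
    linarith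
  intro T hT
  have hT0 : 0 < T := by linarith
  have hK : (1 : ℝ) ≤ T ^ 2 := one_le_pow₀ (by linarith)
  obtain ⟨hPcont, _, _, _, _⟩ := hPc (T ^ 2) hK
  have hpt : ∀ x ∈ Icc (T / 2) (4 * T), ‖EM.P (T ^ 2) x‖ ^ 12 ≤
      2 ^ 11 * ‖riemannZeta (1 / 2 + x * Complex.I)‖ ^ 12 + 2 ^ 11 * (6 * C0) ^ 12 := by
    intro x hx
    have hx0 : 0 < x := by linarith [hx.1]
    have h1 : 1 ≤ |x| := by
      rw [abs_of_pos hx0]; linarith [hx.1]
    have h2 := hZ0 (T ^ 2) hK x h1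
    rw [Real.sqrt_sq hT0.le, abs_of_pos hx0] at h2
    have h3 : x / T ≤ 4 := by
      rw [div_le_iff₀ hT0]; exact hx.2
    have h4 : T / x ^ 3 ≤ 2 := by
      rw [div_le_iff₀ (by positivity)]
      have h5 : (T / 2) ^ 3 ≤ x ^ 3 := pow_le_pow_left₀ (by linarith) hx.1 3
      have h6 : T ≤ 2 * (T / 2) ^ 3 := by nlinarith [mul_pos hT0 hT0]
      linarith
    have h7 : ‖EM.P (T ^ 2) x‖ ≤ ‖riemannZeta (1 / 2 + x * Complex.I)‖ + 6 * C0 := by
      have e1 : EM.P (T ^ 2) x = riemannZeta (1 / 2 + x * Complex.I) -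
          (riemannZeta (1 / 2 + x * Complex.I) - EM.P (T ^ 2) x) := by ring
      rw [e1]
      refine le_trans (norm_sub_le _ _) ?_
      have h8 : C0 * (x / T + T / x ^ 3) ≤ C0 * 6 := mul_le_mul_of_nonneg_left (by linarith) hC0
      linarith
    refine le_trans (pow_le_pow_left₀ (norm_nonneg _) h7 12) ?_
    refine le_trans (add_pow_le (norm_nonneg _) (by positivity) 12) ?_
    rw [mul_add]
  have hz12 : Continuous fun x : ℝ => ‖riemannZeta (1 / 2 + x * Complex.I)‖ ^ 12 := zeta_cont.norm.pow 12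
  have hi1 : IntegrableOn (fun x => ‖EM.P (T ^ 2) x‖ ^ 12) (Icc (T / 2) (4 * T)) :=
    (hPcont.norm.pow 12).continuousOn.integrableOn_compact isCompact_Icc
  have hi2 : IntegrableOn (fun x : ℝ => 2 ^ 11 * ‖riemannZeta (1 / 2 + x * Complex.I)‖ ^ 12 + 2 ^ 11 * (6 * C0) ^ 12)
      (Icc (T / 2) (4 * T)) :=
    ((continuous_const.mul hz12).add continuous_const).continuousOn.integrableOn_compact isCompact_Icc
  have hi3 : IntegrableOn (fun x : ℝ => 2 ^ 11 * ‖riemannZeta (1 / 2 + x * Complex.I)‖ ^ 12 + 2 ^ 11 * (6 * C0) ^ 12)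
      (Icc 0 (4 * T)) :=
    ((continuous_const.mul hz12).add continuous_const).continuousOn.integrableOn_compact isCompact_Icc
  have h1 : ∫ x in Icc (T / 2) (4 * T), ‖EM.P (T ^ 2) x‖ ^ 12 ≤
      ∫ x in Icc 0 (4 * T), (2 ^ 11 * ‖riemannZeta (1 / 2 + x * Complex.I)‖ ^ 12 + 2 ^ 11 * (6 * C0) ^ 12) := by
    refine le_trans (setIntegral_mono_on hi1 hi2 measurableSet_Icc hpt) ?_
    apply setIntegral_mono_set hi3
    · filter_upwards with x
      positivity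
    · exact (Icc_subset_Icc_left (by linarith)).eventuallyLE
  have h2 : (∫ x in Icc 0 (4 * T), (2 ^ 11 * ‖riemannZeta (1 / 2 + x * Complex.I)‖ ^ 12 + 2 ^ 11 * (6 * C0) ^ 12)) =
      2 ^ 11 * (∫ t in (0 : ℝ)..(4 * T), ‖riemannZeta (1 / 2 + t * Complex.I)‖ ^ (12 : ℝ)) +
        4 * T * (2 ^ 11 * (6 * C0) ^ 12) := by
    have hi4 : IntervalIntegrable (fun x : ℝ => 2 ^ 11 * ‖riemannZeta (1 / 2 + x * Complex.I)‖ ^ 12) volume 0 (4 * T) :=
      (continuous_const.mul hz12).intervalIntegrable _ _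
    have hi5 : IntervalIntegrable (fun _ : ℝ => 2 ^ 11 * (6 * C0) ^ 12) volume 0 (4 * T) :=
      continuous_const.intervalIntegrable _ _
    rw [integral_Icc_eq_integral_Ioc, ← intervalIntegral.integral_of_le (by linarith),
      intervalIntegral.integral_add hi4 hi5, intervalIntegral.integral_const_mul,
      intervalIntegral.integral_const, smul_eq_mul, sub_zero]
    congr 2
    apply intervalIntegral.integral_congr
    intro x _
    simp only
    rw [show (12 : ℝ) = ((12 : ℕ) : ℝ) by norm_num, Real.rpow_natCast]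
  rw [h2] at h1
  have h3 : 0 ≤ ∫ t in (0 : ℝ)..(4 * T), ‖riemannZeta (1 / 2 + t * Complex.I)‖ ^ (12 : ℝ) := by
    apply intervalIntegral.integral_nonneg (by linarith)
    intro x _
    positivity
  have hG : 0 ≤ (6 * C0) ^ 12 := by positivity
  generalize (6 * C0) ^ 12 = G at h1 hG ⊢
  generalize (∫ t in (0 : ℝ)..(4 * T), ‖riemannZeta (1 / 2 + t * Complex.I)‖ ^ (12 : ℝ)) = Z at h1 h3 ⊢
  have e1 : 0 ≤ G * Z := mul_nonneg hG h3
  nlinarith

end Tw_aux

theorem iTw (hMC : UT.StMC) (hZ : EM.StZ) (hPc : EM.StPc) (hMel : StMel) (hS2 : StS2) : StTw := by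
  obtain ⟨δ, hδ, hMC⟩ := hMC
  obtain ⟨CM, hCM⟩ := hMC 12 le_rfl (by linarith)
  obtain ⟨CI, hCI1, hCI⟩ := Tw_aux.intP hPc hZ
  obtain ⟨CW, hCW1, hCW⟩ := Tw_aux.sumW hPc hS2
  refine ⟨min δ (1 / 10), lt_min hδ (by norm_num), min_le_right _ _, ?_⟩
  set δ' := min δ (1 / 10) with hδ'
  have hδ'1 : δ' ≤ 1 / 10 := min_le_right _ _
  have hδ'2 : δ' ≤ δ := min_le_left _ _
  intro w hw
  obtain ⟨C1, hC11, hC1⟩ := Tw_aux.pt hPc hMel hw
  obtain ⟨B, hB1, hB⟩ := hw.bounded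
  have hw' := hw
  obtain ⟨_, a, b, ha, hab, hsupp⟩ := hw'
  have hb : 0 < b := by linarith
  set Q := 8 * (B * ((b + 1) * 2)) ^ 12 with hQ
  have hQ0 : 0 ≤ Q := by positivity
  set R := C1 * (CW * (CI * (|CM| * 16) + CI) + CW) + 4 * C1 with hR
  have hR0 : 0 ≤ R := by positivity
  refine ⟨Q + R + 1, by linarith, ?_⟩
  intro T N W hT hN hNT hW hWT
  have hT0 : 0 < T := by linarith
  have hTp : T ≤ T ^ (2 - δ') := by
    calc T = T ^ (1 : ℝ) := (Real.rpow_one T).symm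
      _ ≤ T ^ (2 - δ') := Real.rpow_le_rpow_of_exponent_le hT (by linarith)
  have hTp1 : 1 ≤ T ^ (2 - δ') := by linarith
  have hN6 : 1 ≤ N ^ 6 := one_le_pow₀ hN
  have hTN : 1 ≤ T ^ (2 - δ') * N ^ 6 := one_le_mul_of_one_le_of_one_le hTp1 hN6
  obtain ⟨hcard, hsum⟩ := hCW T W hT hW hWT
  by_cases hT2 : T < 2
  · have h1 : ∀ t ∈ W, ‖Bl w N t‖ ^ 12 ≤ (B * ((b + 1) * 2)) ^ 12 := by
      intro t _
      apply pow_le_pow_left₀ (norm_nonneg _)
      refine le_trans (Tw_aux.bl_le ha hab hsupp hB (by linarith) hN t) ?_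
      have : N ≤ 2 := by linarith
      gcongr
    refine le_trans (Finset.sum_le_sum h1) ?_
    rw [Finset.sum_const, nsmul_eq_mul]
    have h2 : (W.card : ℝ) ≤ 8 := by linarith
    calc (W.card : ℝ) * (B * ((b + 1) * 2)) ^ 12 ≤ 8 * (B * ((b + 1) * 2)) ^ 12 :=
          mul_le_mul_of_nonneg_right h2 (by positivity)
      _ = Q * 1 := by rw [hQ, mul_one]
      _ ≤ (Q + R + 1) * (T ^ (2 - δ') * N ^ 6) :=
          mul_le_mul (by linarith) hTN zero_le_one (by linarith)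
      _ = _ := by ring
  · have hT2' : 2 ≤ T := not_lt.1 hT2
    have hI := hCI T hT2'
    have hM := hCM (4 * T) (by linarith)
    have h4T : (4 * T) ^ (2 - δ) ≤ 16 * T ^ (2 - δ') := by
      calc (4 * T) ^ (2 - δ) ≤ (4 * T) ^ (2 - δ') :=
            Real.rpow_le_rpow_of_exponent_le (by linarith) (by linarith)
        _ = 4 ^ (2 - δ') * T ^ (2 - δ') := Real.mul_rpow (by norm_num) hT0.le
        _ ≤ 16 * T ^ (2 - δ') := by
            apply mul_le_mul_of_nonneg_right _ (by positivity)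
            calc (4 : ℝ) ^ (2 - δ') ≤ 4 ^ (2 : ℝ) :=
                  Real.rpow_le_rpow_of_exponent_le (by norm_num) (by
                    have : 0 < δ' := lt_min hδ (by norm_num)
                    linarith)
              _ = 16 := by norm_num
    have hM2 : (∫ t in (0 : ℝ)..(4 * T), ‖riemannZeta (1 / 2 + t * Complex.I)‖ ^ (12 : ℝ)) ≤
        |CM| * 16 * T ^ (2 - δ') := by
      calc _ ≤ CM * (4 * T) ^ (2 - δ) := hM
        _ ≤ |CM| * (4 * T) ^ (2 - δ) := by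
            apply mul_le_mul_of_nonneg_right (le_abs_self _) (by positivity)
        _ ≤ |CM| * (16 * T ^ (2 - δ')) := mul_le_mul_of_nonneg_left h4T (abs_nonneg _)
        _ = _ := by ring
    set X := T ^ (2 - δ') with hX
    have hI2 : ∫ x in Icc (T / 2) (4 * T), ‖EM.P (T ^ 2) x‖ ^ 12 ≤ (CI * (|CM| * 16) + CI) * X := by
      refine le_trans hI ?_
      have e1 := mul_le_mul_of_nonneg_left hM2 (show 0 ≤ CI by linarith)
      have e2 := mul_le_mul_of_nonneg_left hTp (show 0 ≤ CI by linarith)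
      calc _ ≤ CI * (|CM| * 16 * X) + CI * X := add_le_add e1 e2
        _ = _ := by ring
    have hs2 : ∑ t ∈ W, (∫ y : ℝ, ‖EM.P (T ^ 2) (t + y)‖ ^ 12 * ((1 + y ^ 2)⁻¹) ^ 13) ≤
        (CW * (CI * (|CM| * 16) + CI) + CW) * X := by
      refine le_trans hsum ?_
      have e1 := mul_le_mul_of_nonneg_left hI2 (show 0 ≤ CW by linarith)
      have e2 := mul_le_mul_of_nonneg_left hTp (show 0 ≤ CW by linarith)
      calc _ ≤ CW * ((CI * (|CM| * 16) + CI) * X) + CW * X := add_le_add e1 e2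
        _ = _ := by ring
    calc ∑ t ∈ W, ‖Bl w N t‖ ^ 12
        ≤ ∑ t ∈ W, (C1 * N ^ 6 * (∫ y : ℝ, ‖EM.P (T ^ 2) (t + y)‖ ^ 12 * ((1 + y ^ 2)⁻¹) ^ 13) + C1) :=
          Finset.sum_le_sum fun t _ => hC1 T N t hT hN hNT
      _ = C1 * N ^ 6 * (∑ t ∈ W, ∫ y : ℝ, ‖EM.P (T ^ 2) (t + y)‖ ^ 12 * ((1 + y ^ 2)⁻¹) ^ 13) + W.card * C1 := by
          rw [Finset.sum_add_distrib, ← Finset.mul_sum, Finset.sum_const, nsmul_eq_mul]
      _ ≤ C1 * N ^ 6 * ((CW * (CI * (|CM| * 16) + CI) + CW) * X) + 4 * T * C1 := by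
          apply add_le_add
          · exact mul_le_mul_of_nonneg_left hs2 (by positivity)
          · exact mul_le_mul_of_nonneg_right hcard (by linarith)
      _ ≤ C1 * N ^ 6 * ((CW * (CI * (|CM| * 16) + CI) + CW) * X) + 4 * C1 * (X * N ^ 6) := by
          have e1 : T ≤ X * N ^ 6 := by nlinarith
          have e2 := mul_le_mul_of_nonneg_left e1 (show 0 ≤ 4 * C1 by linarith)
          linarith
      _ = R * (X * N ^ 6) := by rw [hR]; ring
      _ ≤ (Q + R + 1) * (X * N ^ 6) := mul_le_mul_of_nonneg_right (by linarith) (by positivity)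
      _ = (Q + R + 1) * X * N ^ 6 := by ring

end Pool.Agent.Work.MP_56b8f5_nt.UC
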