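import Pool.Agent.Work.MP_56b8f5_nt.UC.Stmts
import Pool.Agent.Work.MP_56b8f5_nt.UC.I_Ow

/-!
MP_56b8f5_nt, block UC, item UA: from dyadic intervals and the short sum to the asymptotic formula.
-/

open MeasureTheory Set Filter Topology

noncomputable section

namespace Pool.Agent.Work.MP_56b8f5_nt.UC

namespace UA_aux

/-- Young type inequality with a parameter -/
lemma young {h u l : ℝ} (hh : 0 ≤ h) (hu : 0 ≤ u) (hl : 0 < l) {n : ℕ} (hn : 1 ≤ n) :
    h * u ^ (n - 1) ≤ l ^ (n * (n - 1)) * h ^ n + (l ^ n)⁻¹ * u ^ n := by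
  obtain ⟨m, rfl⟩ : ∃ m, n = m + 1 := ⟨n - 1, by omega⟩
  rw [Nat.add_sub_cancel]
  have key : ∀ x y : ℝ, 0 ≤ x → 0 ≤ y → x * y ^ m ≤ x ^ (m + 1) + y ^ (m + 1) := by
    intro x y hx hy
    rcases le_total x y with h1 | h1
    · calc x * y ^ m ≤ y * y ^ m := by gcongr
        _ = y ^ (m + 1) := by ring
        _ ≤ _ := by linarith [pow_nonneg hx (m + 1)]
    · calc x * y ^ m ≤ x * x ^ m := by gcongr
        _ = x ^ (m + 1) := by ring
        _ ≤ _ := by linarith [pow_nonneg hy (m + 1)]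
  have h2 := key (l ^ m * h) (u / l) (by positivity) (by positivity)
  have e1 : (l ^ m * h) * (u / l) ^ m = h * u ^ m := by
    rw [div_pow]; field_simp
  have e2 : (l ^ m * h) ^ (m + 1) = l ^ ((m + 1) * m) * h ^ (m + 1) := by
    rw [mul_pow, ← pow_mul, mul_comm m (m + 1)]
  have e3 : (u / l) ^ (m + 1) = (l ^ (m + 1))⁻¹ * u ^ (m + 1) := by
    rw [div_pow]; field_simp
  rw [e1, e2, e3] at h2
  exact h2

lemma ptw {f g h l : ℝ} (hf : 0 ≤ f) (hg : 0 ≤ g) (hh : 0 ≤ h) (hfg : |f - g| ≤ h) (hl : 0 < l)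
    {n : ℕ} (hn : 1 ≤ n) :
    |f ^ n - g ^ n| ≤ n * ((l ^ (n * (n - 1)) + (l ^ n)⁻¹ * 2 ^ (n - 1)) * h ^ n +
      (l ^ n)⁻¹ * 2 ^ (n - 1) * g ^ n) := by
  have h1 := abs_pow_sub_pow_le f g n
  have h2 : max |f| |g| ≤ g + h := by
    rw [abs_of_nonneg hf, abs_of_nonneg hg]
    have := abs_le.1 hfg
    exact max_le (by linarith) (by linarith)
  have h3 : |f ^ n - g ^ n| ≤ n * (h * (g + h) ^ (n - 1)) := by
    calc |f ^ n - g ^ n| ≤ |f - g| * n * max |f| |g| ^ (n - 1) := h1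
      _ ≤ h * n * (g + h) ^ (n - 1) := by
          have : 0 ≤ max |f| |g| := le_max_of_le_left (abs_nonneg _)
          gcongr
      _ = _ := by ring
  have h4 := young hh (by positivity : 0 ≤ g + h) hl hn
  have h5 := add_pow_le hg hh n
  have h6 : (l ^ n)⁻¹ * (g + h) ^ n ≤ (l ^ n)⁻¹ * (2 ^ (n - 1) * (g ^ n + h ^ n)) := by
    gcongr
  calc |f ^ n - g ^ n| ≤ n * (h * (g + h) ^ (n - 1)) := h3
    _ ≤ n * (l ^ (n * (n - 1)) * h ^ n + (l ^ n)⁻¹ * (2 ^ (n - 1) * (g ^ n + h ^ n))) := by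
        gcongr
        linarith
    _ = _ := by ring

lemma cmp (n : ℕ) (hn : 2 ≤ n) (C1 C2 η1 η2 S : ℝ) (hC1 : 0 ≤ C1) (hC2 : 0 ≤ C2) (h1 : 0 < η1)
    (h2 : 0 < η2) : ∃ c C : ℝ, 0 < c ∧ 1 ≤ C ∧ ∀ T : ℝ, 1 ≤ T → ∀ f g h : ℝ → ℝ,
    ContinuousOn f (Icc T (2 * T)) → ContinuousOn g (Icc T (2 * T)) → ContinuousOn h (Icc T (2 * T)) →
    (∀ t, 0 ≤ f t) → (∀ t, 0 ≤ g t) → (∀ t, 0 ≤ h t) → (∀ t, |f t - g t| ≤ h t) →
    (∫ t in T..(2 * T), h t ^ n) ≤ C1 * T ^ (1 - η1) →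
    |(∫ t in T..(2 * T), g t ^ n) - T * S| ≤ C2 * T ^ (1 - η2) →
    |(∫ t in T..(2 * T), f t ^ n) - T * S| ≤ C * T ^ (1 - c) := by
  have hn1 : 1 ≤ n := by omega
  have hnR : (2 : ℝ) ≤ n := by exact_mod_cast hn
  set κ : ℝ := η1 / (2 * (n * (n - 1) : ℝ)) with hκ
  have hden : (0 : ℝ) < n * (n - 1) := by
    have : (0 : ℝ) < n - 1 := by linarith
    positivity
  have hκ0 : 0 < κ := by rw [hκ]; positivity
  have hκn : κ * (n * (n - 1) : ℝ) = η1 / 2 := by
    have aux : ∀ d : ℝ, 0 < d → η1 / (2 * d) * d = η1 / 2 := by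
      intro d hd; field_simp
    rw [hκ]; exact aux _ hden
  set c : ℝ := min (κ * n) (min η2 (η1 / 2)) with hc
  have hc0 : 0 < c := by
    rw [hc]
    refine lt_min (by positivity) (lt_min h2 (by linarith))
  refine ⟨c, (n : ℝ) * (C1 + 2 ^ (n - 1) * C1 + 2 ^ (n - 1) * (|S| + C2)) + C2 + 1, hc0, ?_, ?_⟩
  · have : 0 ≤ (n : ℝ) * (C1 + 2 ^ (n - 1) * C1 + 2 ^ (n - 1) * (|S| + C2)) := by positivity
    linarith
  intro T hT f g h hfc hgc hhc hf0 hg0 hh0 hfg hh hg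
  have hT0 : (0 : ℝ) < T := by linarith
  have hTT : T ≤ 2 * T := by linarith
  have hl : (0 : ℝ) < T ^ κ := Real.rpow_pos_of_pos hT0 _
  have ipow : ∀ F : ℝ → ℝ, ContinuousOn F (Icc T (2 * T)) →
      IntervalIntegrable (fun t => F t ^ n) volume T (2 * T) := by
    intro F hF
    apply ContinuousOn.intervalIntegrable
    rw [uIcc_of_le hTT]
    exact hF.pow n
  have If := ipow f hfc
  have Ig := ipow g hgc
  have Ih := ipow h hhc
  set a : ℝ := ((T ^ κ) ^ (n * (n - 1)) + ((T ^ κ) ^ n)⁻¹ * 2 ^ (n - 1)) with ha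
  set b : ℝ := ((T ^ κ) ^ n)⁻¹ * 2 ^ (n - 1) with hb
  have ha0 : 0 ≤ a := by rw [ha]; positivity
  have hb0 : 0 ≤ b := by rw [hb]; positivity
  have hdiff : |(∫ t in T..(2 * T), f t ^ n) - ∫ t in T..(2 * T), g t ^ n| ≤
      n * (a * (∫ t in T..(2 * T), h t ^ n) + b * ∫ t in T..(2 * T), g t ^ n) := by
    rw [← intervalIntegral.integral_sub If Ig]
    calc |∫ t in T..(2 * T), (f t ^ n - g t ^ n)| ≤ ∫ t in T..(2 * T), |f t ^ n - g t ^ n| :=
          intervalIntegral.abs_integral_le_integral_abs hTT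
      _ ≤ ∫ t in T..(2 * T), n * (a * h t ^ n + b * g t ^ n) := by
          apply intervalIntegral.integral_mono_on hTT
          · exact (If.sub Ig).abs
          · exact ((Ih.const_mul a).add (Ig.const_mul b)).const_mul _
          · intro t _
            exact ptw (hf0 t) (hg0 t) (hh0 t) (hfg t) hl hn1
      _ = _ := by
          rw [intervalIntegral.integral_const_mul, intervalIntegral.integral_add (Ih.const_mul a)
            (Ig.const_mul b), intervalIntegral.integral_const_mul, intervalIntegral.integral_const_mul]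
  have e1 : (T ^ κ) ^ (n * (n - 1)) = T ^ (η1 / 2) := by
    rw [← Real.rpow_mul_natCast hT0.le, ← hκn]
    congr 2
    push_cast [Nat.cast_sub hn1]
    ring
  have e2 : ((T ^ κ) ^ n)⁻¹ = T ^ (-(κ * n)) := by
    rw [← Real.rpow_mul_natCast hT0.le, ← Real.rpow_neg hT0.le]
  have hgle : (∫ t in T..(2 * T), g t ^ n) ≤ (|S| + C2) * T := by
    have := (abs_le.1 hg).2
    have hp : T ^ (1 - η2) ≤ T := by
      calc T ^ (1 - η2) ≤ T ^ (1 : ℝ) := Real.rpow_le_rpow_of_exponent_le hT (by linarith)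
        _ = T := Real.rpow_one T
    have hS : T * S ≤ |S| * T := by
      rw [mul_comm]
      exact mul_le_mul_of_nonneg_right (le_abs_self S) hT0.le
    nlinarith [mul_le_mul_of_nonneg_left hp hC2]
  have pw : ∀ x : ℝ, c ≤ x → T ^ (1 - x) ≤ T ^ (1 - c) := fun x hx =>
    Real.rpow_le_rpow_of_exponent_le hT (by linarith)
  have cκ : c ≤ κ * n := min_le_left _ _
  have c2 : c ≤ η2 := le_trans (min_le_right _ _) (min_le_left _ _)
  have c1 : c ≤ η1 / 2 := le_trans (min_le_right _ _) (min_le_right _ _)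
  have hP0 : 0 ≤ T ^ (1 - c) := Real.rpow_nonneg hT0.le _
  have t1 : T ^ (η1 / 2) * (C1 * T ^ (1 - η1)) ≤ C1 * T ^ (1 - c) := by
    calc T ^ (η1 / 2) * (C1 * T ^ (1 - η1)) = C1 * (T ^ (η1 / 2) * T ^ (1 - η1)) := by ring
      _ = C1 * T ^ (1 - η1 / 2) := by
          rw [← Real.rpow_add hT0]; congr 2; ring
      _ ≤ _ := mul_le_mul_of_nonneg_left (pw _ c1) hC1
  have t2 : T ^ (-(κ * n)) * (C1 * T ^ (1 - η1)) ≤ C1 * T ^ (1 - c) := by
    have hle : T ^ (1 - η1) ≤ T ^ (1 - c) := pw _ (by linarith)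
    have hle2 : T ^ (-(κ * n)) ≤ 1 := Real.rpow_le_one_of_one_le_of_nonpos hT (by
      have : 0 < κ * n := by positivity
      linarith)
    have hn0 : 0 ≤ C1 * T ^ (1 - η1) := by positivity
    calc T ^ (-(κ * n)) * (C1 * T ^ (1 - η1)) ≤ 1 * (C1 * T ^ (1 - η1)) :=
          mul_le_mul_of_nonneg_right hle2 hn0
      _ ≤ _ := by rw [one_mul]; exact mul_le_mul_of_nonneg_left hle hC1
  have t3 : T ^ (-(κ * n)) * ((|S| + C2) * T) ≤ (|S| + C2) * T ^ (1 - c) := by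
    calc T ^ (-(κ * n)) * ((|S| + C2) * T) = (|S| + C2) * (T ^ (-(κ * n)) * T ^ (1 : ℝ)) := by
          rw [Real.rpow_one]; ring
      _ = (|S| + C2) * T ^ (1 - κ * n) := by
          rw [← Real.rpow_add hT0]; congr 2; ring
      _ ≤ _ := mul_le_mul_of_nonneg_left (pw _ cκ) (by positivity)
  have hmain : n * (a * (∫ t in T..(2 * T), h t ^ n) + b * ∫ t in T..(2 * T), g t ^ n) ≤
      n * ((C1 + 2 ^ (n - 1) * C1 + 2 ^ (n - 1) * (|S| + C2)) * T ^ (1 - c)) := by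
    apply mul_le_mul_of_nonneg_left _ (by positivity)
    have s1 : a * (∫ t in T..(2 * T), h t ^ n) ≤ a * (C1 * T ^ (1 - η1)) :=
      mul_le_mul_of_nonneg_left hh ha0
    have s2 : b * (∫ t in T..(2 * T), g t ^ n) ≤ b * ((|S| + C2) * T) :=
      mul_le_mul_of_nonneg_left hgle hb0
    have s3 : a * (C1 * T ^ (1 - η1)) = T ^ (η1 / 2) * (C1 * T ^ (1 - η1)) +
        2 ^ (n - 1) * (T ^ (-(κ * n)) * (C1 * T ^ (1 - η1))) := by
      rw [ha, hb, e1, e2]; ring
    have s4 : b * ((|S| + C2) * T) = 2 ^ (n - 1) * (T ^ (-(κ * n)) * ((|S| + C2) * T)) := by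
      rw [hb, e2]; ring
    have s5 : 2 ^ (n - 1) * (T ^ (-(κ * n)) * (C1 * T ^ (1 - η1))) ≤
        2 ^ (n - 1) * (C1 * T ^ (1 - c)) := mul_le_mul_of_nonneg_left t2 (by positivity)
    have s6 : 2 ^ (n - 1) * (T ^ (-(κ * n)) * ((|S| + C2) * T)) ≤
        2 ^ (n - 1) * ((|S| + C2) * T ^ (1 - c)) := mul_le_mul_of_nonneg_left t3 (by positivity)
    calc _ ≤ T ^ (η1 / 2) * (C1 * T ^ (1 - η1)) +
        2 ^ (n - 1) * (T ^ (-(κ * n)) * (C1 * T ^ (1 - η1))) +
        2 ^ (n - 1) * (T ^ (-(κ * n)) * ((|S| + C2) * T)) := by linarith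
      _ ≤ C1 * T ^ (1 - c) + 2 ^ (n - 1) * (C1 * T ^ (1 - c)) +
        2 ^ (n - 1) * ((|S| + C2) * T ^ (1 - c)) := by linarith
      _ = _ := by ring
  have hlast : C2 * T ^ (1 - η2) ≤ C2 * T ^ (1 - c) := mul_le_mul_of_nonneg_left (pw _ c2) hC2
  calc |(∫ t in T..(2 * T), f t ^ n) - T * S| =
      |((∫ t in T..(2 * T), f t ^ n) - ∫ t in T..(2 * T), g t ^ n) +
        ((∫ t in T..(2 * T), g t ^ n) - T * S)| := by congr 1; ring
    _ ≤ |(∫ t in T..(2 * T), f t ^ n) - ∫ t in T..(2 * T), g t ^ n| +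
        |(∫ t in T..(2 * T), g t ^ n) - T * S| := abs_add_le _ _
    _ ≤ n * ((C1 + 2 ^ (n - 1) * C1 + 2 ^ (n - 1) * (|S| + C2)) * T ^ (1 - c)) +
        C2 * T ^ (1 - c) := by linarith
    _ ≤ _ := by nlinarith

lemma dy (F : ℝ → ℝ) (S : ℝ) (hF : ContinuousOn F (Ici 1)) (hF0 : ∀ t, 0 ≤ F t) (η C : ℝ)
    (hη : 0 < η) (hC : 0 ≤ C)
    (h : ∀ T : ℝ, 1 ≤ T → |(∫ t in T..(2 * T), F t) - T * S| ≤ C * T ^ (1 - η)) :
    ∃ c C' : ℝ, 0 < c ∧ 1 ≤ C' ∧ ∀ T : ℝ, 1 ≤ T →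
      |(∫ t in (1 : ℝ)..T, F t) - T * S| ≤ C' * T ^ (1 - c) := by
  set c : ℝ := min η (1 / 2) with hc
  have hc0 : 0 < c := lt_min hη (by norm_num)
  have hcη : c ≤ η := min_le_left _ _
  have hch : c ≤ 1 / 2 := min_le_right _ _
  have ii : ∀ a b : ℝ, 1 ≤ a → 1 ≤ b → IntervalIntegrable F volume a b := by
    intro a b ha hb
    apply ContinuousOn.intervalIntegrable
    apply hF.mono
    intro x hx
    rw [mem_uIcc] at hx
    rw [mem_Ici]
    rcases hx with hx | hx <;> linarith [hx.1]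
  set K : ℝ := (∫ t in (1 : ℝ)..2, F t) + 2 * |S| with hK
  have hK0 : 0 ≤ K := by
    have : 0 ≤ ∫ t in (1 : ℝ)..2, F t :=
      intervalIntegral.integral_nonneg (by norm_num) (fun t _ => hF0 t)
    have := abs_nonneg S
    rw [hK]; linarith
  refine ⟨c, K + 3 * C + 1, hc0, by linarith, ?_⟩
  set D : ℝ := K + 3 * C + 1 with hD
  have hD0 : 0 ≤ D := by linarith
  have hsmall : ∀ T : ℝ, 1 ≤ T → T ≤ 2 → |(∫ t in (1 : ℝ)..T, F t) - T * S| ≤ K := by
    intro T h1 h2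
    have a1 : 0 ≤ ∫ t in (1 : ℝ)..T, F t :=
      intervalIntegral.integral_nonneg h1 (fun t _ => hF0 t)
    have a2 : (∫ t in (1 : ℝ)..T, F t) ≤ ∫ t in (1 : ℝ)..2, F t := by
      rw [← intervalIntegral.integral_add_adjacent_intervals (ii 1 T le_rfl h1)
        (ii T 2 h1 (by norm_num))]
      have : 0 ≤ ∫ t in T..2, F t := intervalIntegral.integral_nonneg h2 (fun t _ => hF0 t)
      linarith
    calc |(∫ t in (1 : ℝ)..T, F t) - T * S| ≤ |∫ t in (1 : ℝ)..T, F t| + |T * S| := abs_sub _ _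
      _ ≤ _ := by
        rw [abs_of_nonneg a1, abs_mul, abs_of_pos (by linarith : (0 : ℝ) < T), hK]
        have := mul_le_mul_of_nonneg_right h2 (abs_nonneg S)
        linarith
  have hind : ∀ k : ℕ, ∀ T : ℝ, 1 ≤ T → T ≤ 2 ^ k → |(∫ t in (1 : ℝ)..T, F t) - T * S| ≤ D * T ^ (1 - c) := by
    intro k
    induction k with
    | zero =>
      intro T h1 h2
      have h2' : T ≤ 2 := by rw [pow_zero] at h2; linarith
      have := hsmall T h1 h2'
      have hp : 1 ≤ T ^ (1 - c) := Real.one_le_rpow h1 (by linarith)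
      have : D * 1 ≤ D * T ^ (1 - c) := mul_le_mul_of_nonneg_left hp hD0
      linarith
    | succ k ih =>
      intro T h1 h2
      rcases le_total T 2 with h3 | h3
      · have := hsmall T h1 h3
        have hp : 1 ≤ T ^ (1 - c) := Real.one_le_rpow h1 (by linarith)
        have : D * 1 ≤ D * T ^ (1 - c) := mul_le_mul_of_nonneg_left hp hD0
        linarith
      · have hT2 : 1 ≤ T / 2 := by linarith
        have hT2' : T / 2 ≤ 2 ^ k := by
          rw [pow_succ] at h2; linarith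
        have b1 := ih (T / 2) hT2 hT2'
        have b2 := h (T / 2) hT2
        have e : 2 * (T / 2) = T := by ring
        rw [e] at b2
        have b3 : (T / 2) ^ (1 - η) ≤ (T / 2) ^ (1 - c) :=
          Real.rpow_le_rpow_of_exponent_le hT2 (by linarith)
        have hT0 : (0 : ℝ) < T := by linarith
        have b4 : (T / 2) ^ (1 - c) ≤ (3 / 4) * T ^ (1 - c) := by
          rw [Real.div_rpow hT0.le (by norm_num)]
          have : (4 / 3 : ℝ) ≤ 2 ^ (1 - c) := by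
            calc (4 / 3 : ℝ) ≤ Real.sqrt 2 := by
                  apply Real.le_sqrt_of_sq_le; norm_num
              _ = (2 : ℝ) ^ (1 / 2 : ℝ) := Real.sqrt_eq_rpow 2
              _ ≤ 2 ^ (1 - c) := Real.rpow_le_rpow_of_exponent_le (by norm_num) (by linarith)
          rw [div_le_iff₀ (by positivity)]
          have hp : 0 ≤ T ^ (1 - c) := Real.rpow_nonneg hT0.le _
          nlinarith
        have e2 : (∫ t in (1 : ℝ)..T, F t) = (∫ t in (1 : ℝ)..(T / 2), F t) + ∫ t in (T / 2)..T, F t :=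
          (intervalIntegral.integral_add_adjacent_intervals (ii 1 (T / 2) le_rfl hT2)
            (ii (T / 2) T hT2 h1)).symm
        have hP0 : 0 ≤ (T / 2) ^ (1 - c) := Real.rpow_nonneg (by linarith) _
        calc |(∫ t in (1 : ℝ)..T, F t) - T * S| =
            |((∫ t in (1 : ℝ)..(T / 2), F t) - T / 2 * S) + ((∫ t in (T / 2)..T, F t) - T / 2 * S)| := by
              rw [e2]; congr 1; ring
          _ ≤ |(∫ t in (1 : ℝ)..(T / 2), F t) - T / 2 * S| + |(∫ t in (T / 2)..T, F t) - T / 2 * S| :=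
              abs_add_le _ _
          _ ≤ D * (T / 2) ^ (1 - c) + C * (T / 2) ^ (1 - c) := by
              have := mul_le_mul_of_nonneg_left b3 hC
              linarith
          _ = (D + C) * (T / 2) ^ (1 - c) := by ring
          _ ≤ (D + C) * ((3 / 4) * T ^ (1 - c)) := mul_le_mul_of_nonneg_left b4 (by linarith)
          _ ≤ D * T ^ (1 - c) := by
              have hp : 0 ≤ T ^ (1 - c) := Real.rpow_nonneg hT0.le _
              have : (D + C) * (3 / 4) ≤ D := by rw [hD]; linarith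
              calc (D + C) * ((3 / 4) * T ^ (1 - c)) = ((D + C) * (3 / 4)) * T ^ (1 - c) := by ring
                _ ≤ _ := mul_le_mul_of_nonneg_right this hp
  intro T hT
  obtain ⟨k, hk⟩ := pow_unbounded_of_one_lt T (by norm_num : (1 : ℝ) < 2)
  exact hind k T hT hk.le

lemma zs_cont (X σ : ℝ) (hX : 0 < X) (hσ : 0 < σ) :
    Continuous fun t : ℝ => Zs X (σ + t * Complex.I) := by
  have h1 : (fun t : ℝ => Zs X (σ + t * Complex.I)) = fun t : ℝ =>
      ∑ n ∈ Finset.range ⌈2 * X⌉₊, ((eta ((n : ℝ) / X) : ℝ) : ℂ) *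
        (n : ℂ) ^ (-((σ : ℂ) + t * Complex.I)) := by
    funext t
    unfold Zs
    apply tsum_eq_sum
    intro n hn
    rw [Finset.mem_range, not_lt] at hn
    have h2 : 2 * X ≤ n := le_trans (Nat.le_ceil _) (by exact_mod_cast hn)
    have h3 : (2 : ℝ) ≤ (n : ℝ) / X := by
      rw [le_div_iff₀ hX]; exact h2
    rw [eta_eq_zero h3]
    simp
  rw [h1]
  apply continuous_finsetSum
  intro n _
  apply Continuous.mul continuous_const
  apply Continuous.const_cpow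
  · fun_prop
  · right
    intro t ht
    have := congrArg Complex.re ht
    simp at this
    linarith

lemma zeta_cont (σ : ℝ) : ContinuousOn (fun t : ℝ => riemannZeta (σ + t * Complex.I)) (Ioi 0) := by
  intro t ht
  have ht0 : (0 : ℝ) < t := ht
  have hne : ((σ : ℂ) + t * Complex.I) ≠ 1 := by
    intro h
    have := congrArg Complex.im h
    simp at this
    linarith
  have h1 : ContinuousAt riemannZeta ((σ : ℂ) + t * Complex.I) :=
    (differentiableAt_riemannZeta hne).continuousAt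
  have h2 : ContinuousAt (fun t : ℝ => (σ : ℂ) + t * Complex.I) t := by fun_prop
  exact (ContinuousAt.comp (f := fun t : ℝ => (σ : ℂ) + t * Complex.I) h1 h2).continuousWithinAt

end UA_aux

open UA_aux in
theorem iUA (hZd : StZd) (hZp : StZp) : StUA := by
  obtain ⟨δ, hδ0, hδ1, hd⟩ := hZd
  refine ⟨δ, hδ0, hδ1, ?_⟩
  intro r hr σ hσ hσ1
  have hr1 : 1 ≤ r := by rcases hr with h | h <;> omega
  have hr4 : r ≤ 4 := by rcases hr with h | h <;> omega
  have hhalf : 1 / 2 < σ := by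
    refine lt_of_le_of_lt ?_ hσ
    unfold sg
    rcases hr with h | h
    · subst h; push_cast; nlinarith
    · subst h; push_cast; nlinarith
  have hA4 : (4 : ℝ) ≤ 2 * r := by
    rcases hr with h | h <;> subst h <;> norm_num
  have hA8 : (2 : ℝ) * r ≤ 8 := by
    rcases hr with h | h <;> subst h <;> norm_num
  obtain ⟨hsum, η2, C2, hη2, hC2, h2⟩ := hZp r σ hr1 hr4 hhalf hσ1
  refine ⟨hsum, ?_⟩
  obtain ⟨η1, C1, hη1, hC1, h1⟩ := hd (2 * r) hA4 hA8 σ hσ hσ1
  set S : ℝ := ∑' n : ℕ, (dr r n : ℝ) ^ 2 / (n : ℝ) ^ (2 * σ) with hS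
  obtain ⟨c, C, hc, hC, hcmp⟩ := cmp (2 * r) (by omega) C1 C2 η1 η2 S (by linarith) (by linarith)
    hη1 hη2
  have hcont : ContinuousOn (fun t : ℝ => ‖riemannZeta (σ + t * Complex.I)‖) (Ioi 0) :=
    (zeta_cont σ).norm
  refine dy (fun t => ‖riemannZeta (σ + t * Complex.I)‖ ^ (2 * r)) S ?_ (fun t => by positivity)
    c C hc (by linarith) ?_
  · apply ContinuousOn.pow
    apply hcont.mono
    intro x hx
    have hx' : (1 : ℝ) ≤ x := hx
    exact lt_of_lt_of_le one_pos hx'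
  · intro T hT
    have hT0 : (0 : ℝ) < T := by linarith
    have hsub : Icc T (2 * T) ⊆ Ioi 0 := fun x hx => lt_of_lt_of_le hT0 hx.1
    have hX : (0 : ℝ) < T ^ (1 / 20 : ℝ) := Real.rpow_pos_of_pos hT0 _
    have hz := zs_cont (T ^ (1 / 20 : ℝ)) σ hX (by linarith)
    refine hcmp T hT (fun t => ‖riemannZeta (σ + t * Complex.I)‖)
      (fun t => ‖Zs (T ^ (1 / 20 : ℝ)) (σ + t * Complex.I)‖)
      (fun t => ‖riemannZeta (σ + t * Complex.I) - Zs (T ^ (1 / 20 : ℝ)) (σ + t * Complex.I)‖)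
      (hcont.mono hsub) hz.norm.continuousOn
      (((zeta_cont σ).mono hsub).sub hz.continuousOn).norm
      (fun t => norm_nonneg _) (fun t => norm_nonneg _) (fun t => norm_nonneg _)
      (fun t => abs_norm_sub_norm_le _ _) ?_ (h2 T hT)
    have h3 := h1 T hT
    have e : ∀ x : ℝ, x ^ ((2 : ℝ) * r) = x ^ (2 * r) := by
      intro x
      rw [← Real.rpow_natCast]
      push_cast
      rfl
    simp only [e] at h3
    exact h3

end Pool.Agent.Work.MP_56b8f5_nt.UC
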