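import Mathlib
import Pool.Agent.Work.MP_56b8f5_nt.UC.Stmts
import Pool.Agent.Work.MP_56b8f5_nt.UC.I_Ow

/-!
MP_56b8f5_nt, block UC, item UM: bounded mean values for all real exponents in `[4,8]`.
-/

open MeasureTheory Set Filter Topology intervalIntegral

noncomputable section

namespace Pool.Agent.Work.MP_56b8f5_nt.UC

namespace UM_aux

lemma half_le_sg {δ A : ℝ} (hδ : δ ≤ 1 / 10) (hA : 4 ≤ A) : 1 / 2 ≤ sg δ A := by
  have hA0 : (0 : ℝ) < A := by linarith
  have h : sg δ A - 1 / 2 = (A - 4) * (1 - δ) / (4 * A) := by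
    unfold sg
    field_simp
    ring
  have h2 : 0 ≤ (A - 4) * (1 - δ) / (4 * A) := by
    apply div_nonneg
    · apply mul_nonneg <;> linarith
    · linarith
  linarith

/-- the short sum is a finite sum -/
lemma Zs_eq {X : ℝ} (hX : 0 < X) (s : ℂ) :
    Zs X s = ∑ n ∈ Finset.range (⌈2 * X⌉₊), ((eta ((n : ℝ) / X) : ℝ) : ℂ) * (n : ℂ) ^ (-s) := by
  unfold Zs
  apply tsum_eq_sum
  intro n hn
  rw [Finset.mem_range, not_lt] at hn
  have h1 : 2 * X ≤ (n : ℝ) := le_trans (Nat.le_ceil _) (by exact_mod_cast hn)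
  have h2 : eta ((n : ℝ) / X) = 0 := by
    apply eta_eq_zero
    rw [le_div_iff₀ hX]
    exact h1
  rw [h2]
  simp

lemma cont_Zs {X : ℝ} (hX : 0 < X) {σ : ℝ} (hσ : 0 < σ) :
    Continuous fun t : ℝ => Zs X (σ + t * Complex.I) := by
  have h : (fun t : ℝ => Zs X (σ + t * Complex.I)) = fun t : ℝ =>
      ∑ n ∈ Finset.range (⌈2 * X⌉₊), ((eta ((n : ℝ) / X) : ℝ) : ℂ) *
        (n : ℂ) ^ (-(σ + t * Complex.I : ℂ)) := by
    funext t
    exact Zs_eq hX _
  rw [h]
  refine continuous_finsetSum _ fun n _ => ?_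
  refine continuous_const.mul ?_
  rcases Nat.eq_zero_or_pos n with h0 | h0
  · subst h0
    have : (fun t : ℝ => ((0 : ℕ) : ℂ) ^ (-(σ + t * Complex.I : ℂ))) = fun _ => (0 : ℂ) := by
      funext t
      rw [Nat.cast_zero]
      apply Complex.zero_cpow
      intro hz
      have := congrArg Complex.re hz
      simp at this
      exact hσ.ne' this
    rw [this]
    exact continuous_const
  · have hn : (n : ℂ) ≠ 0 := by exact_mod_cast h0.ne'
    exact Continuous.const_cpow (by fun_prop) (Or.inl hn)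

lemma contOn_zeta (σ : ℝ) : ContinuousOn (fun t : ℝ => riemannZeta (σ + t * Complex.I)) (Ici 1) := by
  intro t ht
  apply ContinuousAt.continuousWithinAt
  have hne : (σ + t * Complex.I : ℂ) ≠ 1 := by
    intro h
    have := congrArg Complex.im h
    simp at this
    have ht' : (1 : ℝ) ≤ t := ht
    linarith
  have h1 : ContinuousAt riemannZeta (σ + t * Complex.I : ℂ) :=
    (differentiableAt_riemannZeta hne).continuousAt
  have h2 : ContinuousAt (fun t : ℝ => (σ + t * Complex.I : ℂ)) t := by fun_prop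
  exact ContinuousAt.comp (f := fun t : ℝ => (σ + t * Complex.I : ℂ)) (g := riemannZeta) h1 h2

lemma ii_zeta (σ : ℝ) {A : ℝ} (hA : 0 ≤ A) {a b : ℝ} (ha : 1 ≤ a) (hb : 1 ≤ b) :
    IntervalIntegrable (fun t : ℝ => ‖riemannZeta (σ + t * Complex.I)‖ ^ A) volume a b := by
  apply ContinuousOn.intervalIntegrable
  apply ContinuousOn.rpow_const
  · apply ContinuousOn.norm
    apply (contOn_zeta σ).mono
    intro t ht
    rw [mem_uIcc] at ht
    rcases ht with h | h
    · exact le_trans ha h.1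
    · exact le_trans hb h.1
  · intro t _
    exact Or.inr hA

lemma ii_diff {X σ : ℝ} (hX : 0 < X) (hσ : 0 < σ) {A : ℝ} (hA : 0 ≤ A) {a b : ℝ} (ha : 1 ≤ a)
    (hb : 1 ≤ b) :
    IntervalIntegrable (fun t : ℝ => ‖riemannZeta (σ + t * Complex.I) -
      Zs X (σ + t * Complex.I)‖ ^ A) volume a b := by
  apply ContinuousOn.intervalIntegrable
  apply ContinuousOn.rpow_const
  · apply ContinuousOn.norm
    apply ContinuousOn.sub _ (cont_Zs hX hσ).continuousOn
    apply (contOn_zeta σ).mono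
    intro t ht
    rw [mem_uIcc] at ht
    rcases ht with h | h
    · exact le_trans ha h.1
    · exact le_trans hb h.1
  · intro t _
    exact Or.inr hA

lemma rpow_add_le {x y A : ℝ} (hx : 0 ≤ x) (hy : 0 ≤ y) (hA : 0 ≤ A) :
    (x + y) ^ A ≤ 2 ^ A * (x ^ A + y ^ A) := by
  rcases le_total x y with h | h
  · calc (x + y) ^ A ≤ (2 * y) ^ A := by
          apply Real.rpow_le_rpow (by positivity) (by linarith) hA
      _ = 2 ^ A * y ^ A := Real.mul_rpow (by norm_num) hy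
      _ ≤ _ := by
          have : 0 ≤ x ^ A := Real.rpow_nonneg hx A
          have h2 : (0 : ℝ) < 2 ^ A := by positivity
          nlinarith
  · calc (x + y) ^ A ≤ (2 * x) ^ A := by
          apply Real.rpow_le_rpow (by positivity) (by linarith) hA
      _ = 2 ^ A * x ^ A := Real.mul_rpow (by norm_num) hx
      _ ≤ _ := by
          have : 0 ≤ y ^ A := Real.rpow_nonneg hy A
          have h2 : (0 : ℝ) < 2 ^ A := by positivity
          nlinarith

lemma rpow_le_one_add {x A : ℝ} (hx : 0 ≤ x) (hA : 0 ≤ A) (hA8 : A ≤ 8) : x ^ A ≤ 1 + x ^ 8 := by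
  rcases le_total x 1 with h | h
  · have h1 : x ^ A ≤ 1 := Real.rpow_le_one hx h hA
    have h2 : 0 ≤ x ^ 8 := by positivity
    linarith
  · have h1 : x ^ A ≤ x ^ (8 : ℝ) := Real.rpow_le_rpow_of_exponent_le h hA8
    have h2 : x ^ (8 : ℝ) = x ^ 8 := by
      rw [show (8 : ℝ) = ((8 : ℕ) : ℝ) by norm_num, Real.rpow_natCast]
    rw [h2] at h1
    linarith

/-- the dyadic bound gives the bound on `[1, T]` -/
lemma dyadic {f : ℝ → ℝ} {C : ℝ} (hC : 0 ≤ C) (hf : ∀ t, 0 ≤ f t)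
    (hi : ∀ a b : ℝ, 1 ≤ a → 1 ≤ b → IntervalIntegrable f volume a b)
    (h : ∀ T : ℝ, 1 ≤ T → ∫ t in T..(2 * T), f t ≤ C * T) {T : ℝ} (hT : 1 ≤ T) :
    ∫ t in (1 : ℝ)..T, f t ≤ 2 * C * T := by
  have key : ∀ k : ℕ, ∫ t in (1 : ℝ)..(2 ^ k), f t ≤ C * 2 ^ k := by
    intro k
    induction k with
    | zero => simpa using hC
    | succ k ih =>
      have h1 : (1 : ℝ) ≤ 2 ^ k := one_le_pow₀ (by norm_num)
      have h2 := h _ h1
      have e : (2 : ℝ) ^ (k + 1) = 2 * 2 ^ k := by ring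
      rw [e, ← integral_add_adjacent_intervals (hi 1 _ le_rfl h1) (hi _ _ h1 (by linarith))]
      linarith
  obtain ⟨k, hk1, hk2⟩ : ∃ k : ℕ, T ≤ 2 ^ k ∧ (2 : ℝ) ^ k ≤ 2 * T := by
    obtain ⟨n, hn1, hn2⟩ := exists_nat_pow_near hT (by norm_num : (1 : ℝ) < 2)
    refine ⟨n + 1, hn2.le, ?_⟩
    rw [pow_succ]
    linarith
  have h1 : ∫ t in (1 : ℝ)..T, f t ≤ ∫ t in (1 : ℝ)..(2 ^ k), f t := by
    rw [← integral_add_adjacent_intervals (hi 1 T le_rfl hT) (hi T (2 ^ k) hT (hT.trans hk1))]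
    have : 0 ≤ ∫ t in T..(2 ^ k), f t := integral_nonneg hk1 fun t _ => hf t
    linarith
  have h2 := key k
  nlinarith

end UM_aux

open UM_aux in
theorem iUM (hZd : StZd) (hZp : StZp) : StUM := by
  obtain ⟨δ, hδ0, hδ1, H⟩ := hZd
  refine ⟨δ, hδ0, hδ1, ?_⟩
  intro A hA4 hA8 σ hσ hσ1
  have hA0 : (0 : ℝ) ≤ A := by linarith
  have hσ2 : 1 / 2 < σ := lt_of_le_of_lt (half_le_sg hδ1 hA4) hσ
  have hσ0 : 0 < σ := by linarith
  obtain ⟨η, C1, hη, hC1, H1⟩ := H A hA4 hA8 σ hσ hσ1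
  obtain ⟨-, η', C2, hη', hC2, H2⟩ := hZp 4 σ (by norm_num) le_rfl hσ2 hσ1
  set S : ℝ := ∑' n : ℕ, (dr 4 n : ℝ) ^ 2 / (n : ℝ) ^ (2 * σ) with hS
  have hS0 : 0 ≤ S := tsum_nonneg fun n => by positivity
  have hpow : ∀ T : ℝ, 1 ≤ T → ∀ θ : ℝ, 0 < θ → T ^ (1 - θ) ≤ T := by
    intro T hT θ hθ
    calc T ^ (1 - θ) ≤ T ^ (1 : ℝ) := Real.rpow_le_rpow_of_exponent_le hT (by linarith)
      _ = T := Real.rpow_one T
  -- the dyadic bound
  have D : ∀ T : ℝ, 1 ≤ T → ∫ t in T..(2 * T), ‖riemannZeta (σ + t * Complex.I)‖ ^ A ≤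
      (2 ^ A * (C1 + 1 + S + C2)) * T := by
    intro T hT
    have hT2 : (1 : ℝ) ≤ 2 * T := by linarith
    have hX : 0 < T ^ (1 / 20 : ℝ) := by positivity
    set X : ℝ := T ^ (1 / 20 : ℝ) with hXdef
    have i1 := ii_zeta σ hA0 hT hT2
    have i2 := ii_diff hX hσ0 hA0 hT hT2
    have i3 : IntervalIntegrable (fun t : ℝ => 1 + ‖Zs X (σ + t * Complex.I)‖ ^ 8) volume T (2 * T) := by
      apply Continuous.intervalIntegrable
      have := cont_Zs hX hσ0
      fun_prop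
    have i4 : IntervalIntegrable (fun t : ℝ => ‖Zs X (σ + t * Complex.I)‖ ^ 8) volume T (2 * T) := by
      apply Continuous.intervalIntegrable
      have := cont_Zs hX hσ0
      fun_prop
    have b1 : ∫ t in T..(2 * T), ‖riemannZeta (σ + t * Complex.I)‖ ^ A ≤
        ∫ t in T..(2 * T), 2 ^ A * (‖riemannZeta (σ + t * Complex.I) - Zs X (σ + t * Complex.I)‖ ^ A +
          (1 + ‖Zs X (σ + t * Complex.I)‖ ^ 8)) := by
      apply integral_mono_on (by linarith) i1 ((i2.add i3).const_mul _)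
      intro t _
      set z := riemannZeta (σ + t * Complex.I)
      set w := Zs X (σ + t * Complex.I)
      have e1 : ‖z‖ ≤ ‖z - w‖ + ‖w‖ := by
        calc ‖z‖ = ‖(z - w) + w‖ := by rw [sub_add_cancel]
          _ ≤ _ := norm_add_le _ _
      calc ‖z‖ ^ A ≤ (‖z - w‖ + ‖w‖) ^ A := Real.rpow_le_rpow (norm_nonneg _) e1 hA0
        _ ≤ 2 ^ A * (‖z - w‖ ^ A + ‖w‖ ^ A) := rpow_add_le (norm_nonneg _) (norm_nonneg _) hA0
        _ ≤ _ := by
            have := rpow_le_one_add (norm_nonneg w) hA0 hA8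
            have h2 : (0 : ℝ) < 2 ^ A := by positivity
            nlinarith
    have b2 : ∫ t in T..(2 * T), 2 ^ A * (‖riemannZeta (σ + t * Complex.I) - Zs X (σ + t * Complex.I)‖ ^ A +
          (1 + ‖Zs X (σ + t * Complex.I)‖ ^ 8)) =
        2 ^ A * ((∫ t in T..(2 * T), ‖riemannZeta (σ + t * Complex.I) - Zs X (σ + t * Complex.I)‖ ^ A) +
          (T + ∫ t in T..(2 * T), ‖Zs X (σ + t * Complex.I)‖ ^ 8)) := by
      rw [intervalIntegral.integral_const_mul, intervalIntegral.integral_add i2 i3, intervalIntegral.integral_add (by simp) i4, intervalIntegral.integral_const]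
      congr 3
      simp
      ring
    have b3 : ∫ t in T..(2 * T), ‖riemannZeta (σ + t * Complex.I) - Zs X (σ + t * Complex.I)‖ ^ A ≤
        C1 * T := by
      refine (H1 T hT).trans ?_
      exact mul_le_mul_of_nonneg_left (hpow T hT η hη) (by linarith)
    have b4 : ∫ t in T..(2 * T), ‖Zs X (σ + t * Complex.I)‖ ^ 8 ≤ S * T + C2 * T := by
      have h := H2 T hT
      rw [show (2 * 4 : ℕ) = 8 by norm_num] at h
      have h1 := (abs_le.1 h).2
      have h2 : C2 * T ^ (1 - η') ≤ C2 * T :=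
        mul_le_mul_of_nonneg_left (hpow T hT η' hη') (by linarith)
      linarith [mul_comm T S]
    have h2 : (0 : ℝ) < 2 ^ A := by positivity
    calc ∫ t in T..(2 * T), ‖riemannZeta (σ + t * Complex.I)‖ ^ A
        ≤ 2 ^ A * ((∫ t in T..(2 * T), ‖riemannZeta (σ + t * Complex.I) - Zs X (σ + t * Complex.I)‖ ^ A) +
          (T + ∫ t in T..(2 * T), ‖Zs X (σ + t * Complex.I)‖ ^ 8)) := by
          rw [← b2]; exact b1
      _ ≤ 2 ^ A * (C1 * T + (T + (S * T + C2 * T))) := by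
          apply mul_le_mul_of_nonneg_left _ h2.le
          linarith
      _ = _ := by ring
  have hK : 0 ≤ (2 : ℝ) ^ A * (C1 + 1 + S + C2) := by
    have h2 : (0 : ℝ) < 2 ^ A := by positivity
    apply mul_nonneg h2.le
    linarith
  refine ⟨max 1 (2 * (2 ^ A * (C1 + 1 + S + C2))), le_max_left _ _, ?_⟩
  intro T hT
  have h := dyadic hK (fun t => Real.rpow_nonneg (norm_nonneg _) A)
    (fun a b ha hb => ii_zeta σ hA0 ha hb) D hT
  refine h.trans ?_
  exact mul_le_mul_of_nonneg_right (le_max_right _ _) (by linarith)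

end Pool.Agent.Work.MP_56b8f5_nt.UC
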