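import Mathlib
import Pool.Agent.Work.MP_56b8f5_nt.UC.Stmts
import Pool.Agent.Work.MP_56b8f5_nt.UC.I_Ow

/-!
MP_56b8f5_nt, block UC, item Up: the energy inequality.  Author: helper73.
-/

open MeasureTheory Set Filter Topology

noncomputable section

namespace Pool.Agent.Work.MP_56b8f5_nt.UC

open Pool.Agent.Work.MP_56b8f5_nt.UB (ee om)

namespace Up_aux

/-- squared pointwise bound -/
lemma sq_bound (C L τ x : ℝ) (hC : 1 ≤ C) (hL : 1 ≤ L) (hx0 : 0 ≤ x)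
    (hx : x ≤ C * (L / (1 + τ ^ 2) + Real.sqrt (1 + |τ|))) :
    x ^ 2 ≤ 2 * C ^ 2 * (L ^ 2 * (1 / (1 + τ ^ 2)) + (1 + |τ|)) := by
  have hτ : 0 < 1 + τ ^ 2 := by positivity
  have ha : 0 ≤ L / (1 + τ ^ 2) := by positivity
  have hs : 0 ≤ Real.sqrt (1 + |τ|) := Real.sqrt_nonneg _
  have hs2 : Real.sqrt (1 + |τ|) ^ 2 = 1 + |τ| := Real.sq_sqrt (by positivity)
  have h1 : x ^ 2 ≤ (C * (L / (1 + τ ^ 2) + Real.sqrt (1 + |τ|))) ^ 2 :=
    pow_le_pow_left₀ hx0 hx 2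
  have h2 : (L / (1 + τ ^ 2) + Real.sqrt (1 + |τ|)) ^ 2 ≤
      2 * ((L / (1 + τ ^ 2)) ^ 2 + (1 + |τ|)) := by
    have h4 := sq_nonneg (L / (1 + τ ^ 2) - Real.sqrt (1 + |τ|))
    calc (L / (1 + τ ^ 2) + Real.sqrt (1 + |τ|)) ^ 2
        ≤ 2 * ((L / (1 + τ ^ 2)) ^ 2 + Real.sqrt (1 + |τ|) ^ 2) := by nlinarith
      _ = 2 * ((L / (1 + τ ^ 2)) ^ 2 + (1 + |τ|)) := by rw [hs2]
  have h3 : (L / (1 + τ ^ 2)) ^ 2 ≤ L ^ 2 * (1 / (1 + τ ^ 2)) := by
    rw [div_pow, div_eq_mul_inv]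
    refine mul_le_mul_of_nonneg_left ?_ (by positivity)
    rw [one_div]
    apply inv_anti₀ hτ
    nlinarith [sq_nonneg τ]
  calc x ^ 2 ≤ C ^ 2 * (L / (1 + τ ^ 2) + Real.sqrt (1 + |τ|)) ^ 2 := by
        rw [← mul_pow]; exact h1
    _ ≤ C ^ 2 * (2 * ((L / (1 + τ ^ 2)) ^ 2 + (1 + |τ|))) :=
        mul_le_mul_of_nonneg_left h2 (by positivity)
    _ ≤ C ^ 2 * (2 * (L ^ 2 * (1 / (1 + τ ^ 2)) + (1 + |τ|))) := by
        refine mul_le_mul_of_nonneg_left ?_ (by positivity)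
        linarith
    _ = 2 * C ^ 2 * (L ^ 2 * (1 / (1 + τ ^ 2)) + (1 + |τ|)) := by ring

end Up_aux

theorem iUp (hUp1 : StUp1) (hKp : StKp) (hS2 : StS2) : StUp := by
  obtain ⟨C1, hC1, h1⟩ := hUp1
  obtain ⟨C2, hC2, h2⟩ := hKp om isWt_om
  obtain ⟨C3, hC3, h3⟩ := hS2
  have hK : 1 ≤ 6 * C2 ^ 2 * C3 := by nlinarith [one_le_pow₀ hC2 (n := 2)]
  refine ⟨C1 * (6 * C2 ^ 2 * C3), one_le_mul_of_one_le_of_one_le hC1 hK, ?_⟩
  intro T0 T L V a W hL hT hV ha hSep hW hS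
  have hlog : 0 ≤ Real.log L := Real.log_nonneg hL
  have hA := h1 L V a W hL hV ha hSep hS
  have hC22 : (1 : ℝ) ≤ C2 ^ 2 := one_le_pow₀ hC2
  have hR : (0 : ℝ) ≤ (W.card : ℝ) := Nat.cast_nonneg _
  -- first sum
  have hB : ∑ s ∈ W, ∑ t ∈ W, ‖Bl om L (s - t)‖ ^ 2 ≤
      (6 * C2 ^ 2 * C3) * (L ^ 2 * W.card + T * (W.card : ℝ) ^ 2) := by
    have hb : ∀ s ∈ W, ∑ t ∈ W, ‖Bl om L (s - t)‖ ^ 2 ≤
        2 * C2 ^ 2 * (L ^ 2 * C3 + W.card * (2 * T)) := by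
      intro s hs
      calc ∑ t ∈ W, ‖Bl om L (s - t)‖ ^ 2
          ≤ ∑ t ∈ W, 2 * C2 ^ 2 * (L ^ 2 * (1 / (1 + (s - t) ^ 2)) + 2 * T) := by
            refine Finset.sum_le_sum fun t ht => ?_
            refine (Up_aux.sq_bound C2 L (s - t) _ hC2 hL (norm_nonneg _)
              (h2 L (s - t) (by linarith))).trans ?_
            refine mul_le_mul_of_nonneg_left ?_ (by positivity)
            have hst : |s - t| ≤ T := by
              rw [abs_le]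
              have e1 := hW s hs
              have e2 := hW t ht
              constructor <;> linarith
            linarith
        _ = 2 * C2 ^ 2 * (L ^ 2 * (∑ t ∈ W, 1 / (1 + (s - t) ^ 2)) + W.card * (2 * T)) := by
            rw [← Finset.mul_sum, Finset.sum_add_distrib, ← Finset.mul_sum, Finset.sum_const,
              nsmul_eq_mul]
        _ ≤ 2 * C2 ^ 2 * (L ^ 2 * C3 + W.card * (2 * T)) := by
            refine mul_le_mul_of_nonneg_left ?_ (by positivity)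
            have := mul_le_mul_of_nonneg_left ((h3 W hSep).1 s) (sq_nonneg L)
            linarith
    calc ∑ s ∈ W, ∑ t ∈ W, ‖Bl om L (s - t)‖ ^ 2
        ≤ ∑ s ∈ W, 2 * C2 ^ 2 * (L ^ 2 * C3 + W.card * (2 * T)) := Finset.sum_le_sum hb
      _ = 2 * C2 ^ 2 * (L ^ 2 * C3 * W.card + 2 * T * (W.card : ℝ) ^ 2) := by
          rw [Finset.sum_const, nsmul_eq_mul]; ring
      _ ≤ 2 * C2 ^ 2 * (3 * C3 * (L ^ 2 * W.card) + 3 * C3 * (T * (W.card : ℝ) ^ 2)) := by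
          refine mul_le_mul_of_nonneg_left ?_ (by positivity)
          have e1 : 0 ≤ L ^ 2 * (W.card : ℝ) := by positivity
          have e2 : 0 ≤ T * (W.card : ℝ) ^ 2 := by positivity
          have e3 : 0 ≤ (C3 - 1) * (T * (W.card : ℝ) ^ 2) := mul_nonneg (by linarith) e2
          have e4 : 0 ≤ C3 * (L ^ 2 * (W.card : ℝ)) := mul_nonneg (by linarith) e1
          nlinarith
      _ = (6 * C2 ^ 2 * C3) * (L ^ 2 * W.card + T * (W.card : ℝ) ^ 2) := by ring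
  -- second sum
  have hD : ∑ t1 ∈ W, ∑ t2 ∈ W, ∑ t3 ∈ W, ∑ t4 ∈ W, ‖Bl om L (t1 + t2 - t3 - t4)‖ ^ 2 ≤
      (6 * C2 ^ 2 * C3) * (L ^ 2 * EN W + T * (W.card : ℝ) ^ 4) := by
    have hE : 0 ≤ EN W := by
      unfold EN
      refine Finset.sum_nonneg fun _ _ => Finset.sum_nonneg fun _ _ => Finset.sum_nonneg fun _ _ =>
        Finset.sum_nonneg fun _ _ => by positivity
    calc ∑ t1 ∈ W, ∑ t2 ∈ W, ∑ t3 ∈ W, ∑ t4 ∈ W, ‖Bl om L (t1 + t2 - t3 - t4)‖ ^ 2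
        ≤ ∑ t1 ∈ W, ∑ t2 ∈ W, ∑ t3 ∈ W, ∑ t4 ∈ W,
          2 * C2 ^ 2 * (L ^ 2 * (1 / (1 + (t1 + t2 - t3 - t4) ^ 2)) + 3 * T) := by
          refine Finset.sum_le_sum fun t1 m1 => Finset.sum_le_sum fun t2 m2 =>
            Finset.sum_le_sum fun t3 m3 => Finset.sum_le_sum fun t4 m4 => ?_
          refine (Up_aux.sq_bound C2 L (t1 + t2 - t3 - t4) _ hC2 hL (norm_nonneg _)
            (h2 L (t1 + t2 - t3 - t4) (by linarith))).trans ?_
          refine mul_le_mul_of_nonneg_left ?_ (by positivity)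
          have hst : |t1 + t2 - t3 - t4| ≤ 2 * T := by
            rw [abs_le]
            have e1 := hW t1 m1
            have e2 := hW t2 m2
            have e3 := hW t3 m3
            have e4 := hW t4 m4
            constructor <;> linarith
          linarith
      _ = 2 * C2 ^ 2 * (L ^ 2 * EN W + 3 * T * (W.card : ℝ) ^ 4) := by
          unfold EN
          simp only [← Finset.mul_sum, Finset.sum_add_distrib, Finset.sum_const, nsmul_eq_mul]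
          ring
      _ ≤ 2 * C2 ^ 2 * (3 * C3 * (L ^ 2 * EN W) + 3 * C3 * (T * (W.card : ℝ) ^ 4)) := by
          refine mul_le_mul_of_nonneg_left ?_ (by positivity)
          have e1 : 0 ≤ L ^ 2 * EN W := by positivity
          have e2 : 0 ≤ T * (W.card : ℝ) ^ 4 := by positivity
          have e3 : 0 ≤ (C3 - 1) * (T * (W.card : ℝ) ^ 4) := mul_nonneg (by linarith) e2
          have e4 : 0 ≤ (C3 - 1) * (L ^ 2 * EN W) := mul_nonneg (by linarith) e1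
          nlinarith
      _ = (6 * C2 ^ 2 * C3) * (L ^ 2 * EN W + T * (W.card : ℝ) ^ 4) := by ring
  have hK0 : 0 ≤ 6 * C2 ^ 2 * C3 := by linarith
  calc V ^ 2 * EN W
      ≤ C1 * (1 + Real.log L) * Real.sqrt (∑ s ∈ W, ∑ t ∈ W, ‖Bl om L (s - t)‖ ^ 2) *
        Real.sqrt (∑ t1 ∈ W, ∑ t2 ∈ W, ∑ t3 ∈ W, ∑ t4 ∈ W,
          ‖Bl om L (t1 + t2 - t3 - t4)‖ ^ 2) := hA
    _ ≤ C1 * (1 + Real.log L) *
        Real.sqrt ((6 * C2 ^ 2 * C3) * (L ^ 2 * W.card + T * (W.card : ℝ) ^ 2)) *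
        Real.sqrt ((6 * C2 ^ 2 * C3) * (L ^ 2 * EN W + T * (W.card : ℝ) ^ 4)) := by
        refine mul_le_mul (mul_le_mul_of_nonneg_left (Real.sqrt_le_sqrt hB) (by positivity))
          (Real.sqrt_le_sqrt hD) (Real.sqrt_nonneg _) (by positivity)
    _ = C1 * (1 + Real.log L) *
        (Real.sqrt (6 * C2 ^ 2 * C3) * Real.sqrt (L ^ 2 * W.card + T * (W.card : ℝ) ^ 2)) *
        (Real.sqrt (6 * C2 ^ 2 * C3) * Real.sqrt (L ^ 2 * EN W + T * (W.card : ℝ) ^ 4)) := by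
        rw [Real.sqrt_mul hK0, Real.sqrt_mul hK0]
    _ = C1 * (Real.sqrt (6 * C2 ^ 2 * C3) * Real.sqrt (6 * C2 ^ 2 * C3)) * (1 + Real.log L) *
        Real.sqrt (L ^ 2 * W.card + T * (W.card : ℝ) ^ 2) *
        Real.sqrt (L ^ 2 * EN W + T * (W.card : ℝ) ^ 4) := by ring
    _ = C1 * (6 * C2 ^ 2 * C3) * (1 + Real.log L) *
        Real.sqrt (L ^ 2 * W.card + T * (W.card : ℝ) ^ 2) *
        Real.sqrt (L ^ 2 * EN W + T * (W.card : ℝ) ^ 4) := by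
        rw [Real.mul_self_sqrt hK0]

end Pool.Agent.Work.MP_56b8f5_nt.UC
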