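import Mathlib
import Pool.Agent.Work.MP_56b8f5_nt.UC.Stmts
import Pool.Agent.Work.MP_56b8f5_nt.UC.I_Ow

/-!
MP_56b8f5_nt, block UC: item Up1 (energy, first step).  Author: helper82.
-/

open MeasureTheory Set Filter Topology

noncomputable section

namespace Pool.Agent.Work.MP_56b8f5_nt.UC

open Pool.Agent.Work.MP_56b8f5_nt.UB (ee om)

namespace Up1_aux

/-- `e^{iθ}` -/
def E (θ : ℝ) : ℂ := Complex.exp (θ * Complex.I)

lemma E_add (a b : ℝ) : E (a + b) = E a * E b := by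
  unfold E
  rw [← Complex.exp_add]
  congr 1
  push_cast
  ring

lemma E_conj (a : ℝ) : (starRingEnd ℂ) (E a) = E (-a) := by
  unfold E
  rw [← Complex.exp_conj]
  congr 1
  rw [map_mul, Complex.conj_I, Complex.conj_ofReal]
  push_cast
  ring

lemma norm_E (a : ℝ) : ‖E a‖ = 1 := Complex.norm_exp_ofReal_mul_I a

lemma continuous_E : Continuous E := by
  unfold E
  fun_prop

lemma ncpow_E {n : ℕ} (hn : 1 ≤ n) (t : ℝ) :
    (n : ℂ) ^ (-(t * Complex.I)) = E (-(t * Real.log n)) := by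
  have hn0 : (n : ℂ) ≠ 0 := by
    have : n ≠ 0 := by omega
    exact_mod_cast this
  rw [Complex.cpow_def_of_ne_zero hn0]
  unfold E
  congr 1
  have h : Complex.log (n : ℂ) = ((Real.log n : ℝ) : ℂ) := by
    rw [Complex.ofReal_log (Nat.cast_nonneg n)]
    simp
  rw [h]
  push_cast
  ring

lemma sq_sum {ι : Type} (I : Finset ι) (c : ι → ℂ) :
    ((‖∑ i ∈ I, c i‖ ^ 2 : ℝ) : ℂ) = ∑ i ∈ I, ∑ j ∈ I, c i * (starRingEnd ℂ) (c j) := by
  have h := Complex.mul_conj' (∑ i ∈ I, c i)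
  push_cast
  rw [← h, map_sum, Finset.sum_mul_sum]

lemma Dp_E (Y : ℕ) (a : ℕ → ℂ) (t : ℝ) :
    Dp Y a t = ∑ n ∈ Finset.Icc 1 Y, a n * E (-(t * Real.log n)) := by
  unfold Dp
  refine Finset.sum_congr rfl fun n hn => ?_
  rw [ncpow_E (Finset.mem_Icc.1 hn).1]

/-- the range of summation -/
def F (L : ℝ) : Finset ℕ := Finset.Icc 1 ⌊3 * L⌋₊

lemma Bl_E {L : ℝ} (hL : 1 ≤ L) (t : ℝ) :
    Bl om L t = ∑ n ∈ F L, ((om ((n : ℝ) / L) : ℝ) : ℂ) * E (-(t * Real.log n)) := by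
  unfold Bl
  rw [tsum_eq_sum (s := F L)]
  · refine Finset.sum_congr rfl fun n hn => ?_
    rw [ncpow_E (Finset.mem_Icc.1 hn).1]
  · intro n hn
    have : om ((n : ℝ) / L) = 0 := by
      apply om_eq_zero
      rcases Nat.eq_zero_or_pos n with h0 | h0
      · left
        rw [h0]
        simp
      · right
        have h1 : ⌊3 * L⌋₊ < n := by
          by_contra hc
          exact hn (Finset.mem_Icc.2 ⟨h0, by omega⟩)
        have h2 : 3 * L < n := (Nat.floor_lt (by linarith)).1 h1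
        rw [le_div_iff₀ (by linarith)]
        linarith
    rw [this]
    simp

/-- the exponential sum over a family of points -/
def Q {ι : Type} (I : Finset ι) (x : ι → ℝ) (θ : ℝ) : ℂ := ∑ i ∈ I, E (x i * θ)

lemma key {L : ℝ} (hL : 1 ≤ L) {ι : Type} (I : Finset ι) (x : ι → ℝ) :
    ∑ n ∈ F L, ∑ m ∈ F L, om ((n : ℝ) / L) * om ((m : ℝ) / L) *
      ‖Q I x (Real.log m - Real.log n)‖ ^ 2 =
    ∑ i ∈ I, ∑ j ∈ I, ‖Bl om L (x i - x j)‖ ^ 2 := by
  have h1 : ∀ n m : ℕ, ((om ((n : ℝ) / L) * om ((m : ℝ) / L) *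
      ‖Q I x (Real.log m - Real.log n)‖ ^ 2 : ℝ) : ℂ) =
      ∑ i ∈ I, ∑ j ∈ I, (om ((n : ℝ) / L) : ℂ) * (om ((m : ℝ) / L) : ℂ) *
        E ((x i - x j) * (Real.log m - Real.log n)) := by
    intro n m
    have e := sq_sum I (fun i => E (x i * (Real.log m - Real.log n)))
    rw [Complex.ofReal_mul, Complex.ofReal_mul]
    unfold Q
    rw [e, Finset.mul_sum]
    refine Finset.sum_congr rfl fun i _ => ?_
    rw [Finset.mul_sum]
    refine Finset.sum_congr rfl fun j _ => ?_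
    rw [E_conj, ← E_add]
    congr 2
    ring
  have h2 : ∀ i j : ι, ((‖Bl om L (x i - x j)‖ ^ 2 : ℝ) : ℂ) =
      ∑ n ∈ F L, ∑ m ∈ F L, (om ((n : ℝ) / L) : ℂ) * (om ((m : ℝ) / L) : ℂ) *
        E ((x i - x j) * (Real.log m - Real.log n)) := by
    intro i j
    rw [Bl_E hL, sq_sum]
    refine Finset.sum_congr rfl fun n _ => ?_
    refine Finset.sum_congr rfl fun m _ => ?_
    rw [map_mul, Complex.conj_ofReal, E_conj]
    have : E ((x i - x j) * (Real.log m - Real.log n)) =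
        E (-((x i - x j) * Real.log n)) * E (- -((x i - x j) * Real.log m)) := by
      rw [← E_add]
      congr 1
      ring
    rw [this]
    ring
  have h3 : ((∑ n ∈ F L, ∑ m ∈ F L, om ((n : ℝ) / L) * om ((m : ℝ) / L) *
      ‖Q I x (Real.log m - Real.log n)‖ ^ 2 : ℝ) : ℂ) =
      ((∑ i ∈ I, ∑ j ∈ I, ‖Bl om L (x i - x j)‖ ^ 2 : ℝ) : ℂ) := by
    rw [Complex.ofReal_sum, Complex.ofReal_sum]
    simp_rw [Complex.ofReal_sum, h1, h2]
    calc _ = ∑ n ∈ F L, ∑ i ∈ I, ∑ m ∈ F L, ∑ j ∈ I,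
          (om ((n : ℝ) / L) : ℂ) * (om ((m : ℝ) / L) : ℂ) *
            E ((x i - x j) * (Real.log m - Real.log n)) :=
          Finset.sum_congr rfl fun n _ => Finset.sum_comm
      _ = ∑ i ∈ I, ∑ n ∈ F L, ∑ m ∈ F L, ∑ j ∈ I,
          (om ((n : ℝ) / L) : ℂ) * (om ((m : ℝ) / L) : ℂ) *
            E ((x i - x j) * (Real.log m - Real.log n)) := Finset.sum_comm
      _ = ∑ i ∈ I, ∑ n ∈ F L, ∑ j ∈ I, ∑ m ∈ F L,
          (om ((n : ℝ) / L) : ℂ) * (om ((m : ℝ) / L) : ℂ) *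
            E ((x i - x j) * (Real.log m - Real.log n)) :=
          Finset.sum_congr rfl fun i _ => Finset.sum_congr rfl fun n _ => Finset.sum_comm
      _ = _ := Finset.sum_congr rfl fun i _ => Finset.sum_comm
  exact_mod_cast h3

/-- Cauchy-Schwarz -/
lemma cs (L : ℝ) (W : Finset ℝ) :
    ∑ n ∈ F L, ∑ m ∈ F L, om ((n : ℝ) / L) * om ((m : ℝ) / L) *
      ‖Q W id (Real.log m - Real.log n)‖ ^ 3 ≤
    Real.sqrt (∑ n ∈ F L, ∑ m ∈ F L, om ((n : ℝ) / L) * om ((m : ℝ) / L) *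
      ‖Q W id (Real.log m - Real.log n)‖ ^ 2) *
    Real.sqrt (∑ n ∈ F L, ∑ m ∈ F L, om ((n : ℝ) / L) * om ((m : ℝ) / L) *
      (‖Q W id (Real.log m - Real.log n)‖ ^ 2) ^ 2) := by
  rw [← Finset.sum_product', ← Finset.sum_product', ← Finset.sum_product']
  rw [← Real.sqrt_mul (Finset.sum_nonneg fun p _ =>
    mul_nonneg (mul_nonneg (om_nonneg _) (om_nonneg _)) (by positivity))]
  apply Real.le_sqrt_of_sq_le
  have h := Finset.sum_mul_sq_le_sq_mul_sq (F L ×ˢ F L)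
    (fun p : ℕ × ℕ => Real.sqrt (om ((p.1 : ℝ) / L) * om ((p.2 : ℝ) / L)) *
      ‖Q W id (Real.log p.2 - Real.log p.1)‖)
    (fun p : ℕ × ℕ => Real.sqrt (om ((p.1 : ℝ) / L) * om ((p.2 : ℝ) / L)) *
      ‖Q W id (Real.log p.2 - Real.log p.1)‖ ^ 2)
  have hs : ∀ p : ℕ × ℕ, Real.sqrt (om ((p.1 : ℝ) / L) * om ((p.2 : ℝ) / L)) ^ 2 =
      om ((p.1 : ℝ) / L) * om ((p.2 : ℝ) / L) := fun p =>
    Real.sq_sqrt (mul_nonneg (om_nonneg _) (om_nonneg _))
  have e1 : ∀ p : ℕ × ℕ, Real.sqrt (om ((p.1 : ℝ) / L) * om ((p.2 : ℝ) / L)) *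
      ‖Q W id (Real.log p.2 - Real.log p.1)‖ *
      (Real.sqrt (om ((p.1 : ℝ) / L) * om ((p.2 : ℝ) / L)) *
      ‖Q W id (Real.log p.2 - Real.log p.1)‖ ^ 2) =
      om ((p.1 : ℝ) / L) * om ((p.2 : ℝ) / L) * ‖Q W id (Real.log p.2 - Real.log p.1)‖ ^ 3 := by
    intro p
    calc _ = Real.sqrt (om ((p.1 : ℝ) / L) * om ((p.2 : ℝ) / L)) ^ 2 *
          ‖Q W id (Real.log p.2 - Real.log p.1)‖ ^ 3 := by ring
      _ = _ := by rw [hs p]
  have e2 : ∀ p : ℕ × ℕ, (Real.sqrt (om ((p.1 : ℝ) / L) * om ((p.2 : ℝ) / L)) *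
      ‖Q W id (Real.log p.2 - Real.log p.1)‖) ^ 2 =
      om ((p.1 : ℝ) / L) * om ((p.2 : ℝ) / L) * ‖Q W id (Real.log p.2 - Real.log p.1)‖ ^ 2 := by
    intro p
    rw [mul_pow, hs p]
  have e3 : ∀ p : ℕ × ℕ, (Real.sqrt (om ((p.1 : ℝ) / L) * om ((p.2 : ℝ) / L)) *
      ‖Q W id (Real.log p.2 - Real.log p.1)‖ ^ 2) ^ 2 =
      om ((p.1 : ℝ) / L) * om ((p.2 : ℝ) / L) *
        (‖Q W id (Real.log p.2 - Real.log p.1)‖ ^ 2) ^ 2 := by
    intro p
    rw [mul_pow, hs p]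
  simp only [e1, e2, e3] at h
  exact h

/-- the kernel `∫ e^{iyθ} / (1+y²) dy` -/
def kc (θ : ℝ) : ℂ := ∫ y : ℝ, E (y * θ) * ((1 / (1 + y ^ 2) : ℝ) : ℂ)

lemma integrable_k : Integrable (fun y : ℝ => (1 / (1 + y ^ 2) : ℝ)) := by
  have := integrable_inv_one_add_sq
  refine this.congr (Filter.Eventually.of_forall fun y => ?_)
  simp

lemma integrable_Ek (θ : ℝ) :
    Integrable (fun y : ℝ => E (y * θ) * ((1 / (1 + y ^ 2) : ℝ) : ℂ)) := by
  have h1 : Integrable (fun y : ℝ => ((1 / (1 + y ^ 2) : ℝ) : ℂ)) := integrable_k.ofReal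
  refine h1.bdd_mul (c := 1) ?_ ?_
  · exact (continuous_E.comp (continuous_id.mul continuous_const)).aestronglyMeasurable
  · exact Filter.Eventually.of_forall fun y => by rw [norm_E]

lemma norm_kc (θ : ℝ) : ‖kc θ‖ ≤ Real.pi := by
  unfold kc
  refine (norm_integral_le_integral_norm _).trans ?_
  have e : ∀ y : ℝ, ‖E (y * θ) * ((1 / (1 + y ^ 2) : ℝ) : ℂ)‖ = (1 + y ^ 2)⁻¹ := by
    intro y
    rw [norm_mul, norm_E, one_mul, Complex.norm_real, Real.norm_eq_abs,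
      abs_of_nonneg (by positivity), one_div]
  simp_rw [e]
  rw [integral_univ_inv_one_add_sq]

/-- the smoothed mean square at the point `x` -/
def Jm (Y : ℕ) (b : ℕ → ℂ) (x : ℝ) : ℝ := ∫ y : ℝ, ‖Dp Y b (x + y)‖ ^ 2 * (1 / (1 + y ^ 2))

lemma Jm_E (Y : ℕ) (b : ℕ → ℂ) (x : ℝ) : ((Jm Y b x : ℝ) : ℂ) =
    ∑ n ∈ Finset.Icc 1 Y, ∑ m ∈ Finset.Icc 1 Y, b n * (starRingEnd ℂ) (b m) *
      kc (Real.log m - Real.log n) * E (x * (Real.log m - Real.log n)) := by
  unfold Jm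
  rw [← integral_complex_ofReal]
  have e : ∀ y : ℝ, ((‖Dp Y b (x + y)‖ ^ 2 * (1 / (1 + y ^ 2)) : ℝ) : ℂ) =
      ∑ n ∈ Finset.Icc 1 Y, ∑ m ∈ Finset.Icc 1 Y, b n * (starRingEnd ℂ) (b m) *
        E (x * (Real.log m - Real.log n)) *
        (E (y * (Real.log m - Real.log n)) * ((1 / (1 + y ^ 2) : ℝ) : ℂ)) := by
    intro y
    rw [Complex.ofReal_mul, Dp_E, sq_sum, Finset.sum_mul]
    refine Finset.sum_congr rfl fun n _ => ?_
    rw [Finset.sum_mul]
    refine Finset.sum_congr rfl fun m _ => ?_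
    rw [map_mul, E_conj]
    have : E (-((x + y) * Real.log n)) * E (- -((x + y) * Real.log m)) =
        E (x * (Real.log m - Real.log n)) * E (y * (Real.log m - Real.log n)) := by
      rw [← E_add, ← E_add]
      congr 1
      ring
    calc _ = b n * (starRingEnd ℂ) (b m) *
          (E (-((x + y) * Real.log n)) * E (- -((x + y) * Real.log m))) *
          ((1 / (1 + y ^ 2) : ℝ) : ℂ) := by ring
      _ = _ := by rw [this]; ring
  simp_rw [e]
  rw [integral_finsetSum]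
  · refine Finset.sum_congr rfl fun n _ => ?_
    rw [integral_finsetSum]
    · refine Finset.sum_congr rfl fun m _ => ?_
      rw [integral_const_mul]
      unfold kc
      ring
    · intro m _
      exact (integrable_Ek _).const_mul _
  · intro n _
    refine integrable_finsetSum _ fun m _ => ?_
    exact (integrable_Ek _).const_mul _

lemma three (W : Finset ℝ) (θ : ℝ) :
    ∑ t1 ∈ W, ∑ t2 ∈ W, ∑ t3 ∈ W, E ((t1 + t2 - t3) * θ) =
      Q W id θ * Q W id θ * (starRingEnd ℂ) (Q W id θ) := by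
  unfold Q
  rw [map_sum, Finset.sum_mul_sum, Finset.sum_mul]
  refine Finset.sum_congr rfl fun t1 _ => ?_
  rw [Finset.sum_mul]
  refine Finset.sum_congr rfl fun t2 _ => ?_
  rw [Finset.mul_sum]
  refine Finset.sum_congr rfl fun t3 _ => ?_
  rw [E_conj, ← E_add, ← E_add]
  congr 1
  simp only [id]
  ring

lemma Dp_norm_le (Y : ℕ) (b : ℕ → ℂ) (hb : ∀ n, ‖b n‖ ≤ 1) (t : ℝ) : ‖Dp Y b t‖ ≤ Y := by
  rw [Dp_E]
  refine (norm_sum_le _ _).trans ?_
  have : ∀ n ∈ Finset.Icc 1 Y, ‖b n * E (-(t * Real.log n))‖ ≤ 1 := by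
    intro n _
    rw [norm_mul, norm_E, mul_one]
    exact hb n
  refine (Finset.sum_le_sum this).trans ?_
  simp

lemma Dp_continuous (Y : ℕ) (b : ℕ → ℂ) : Continuous (Dp Y b) := by
  have : Dp Y b = fun t => ∑ n ∈ Finset.Icc 1 Y, b n * E (-(t * Real.log n)) :=
    funext fun t => Dp_E Y b t
  rw [this]
  refine continuous_finsetSum _ fun n _ => ?_
  exact continuous_const.mul (continuous_E.comp (by fun_prop))

/-- the sum of the smoothed mean squares -/
lemma sumJ {L : ℝ} (Y : ℕ) (hY : Y ≤ ⌊3 * L⌋₊) (b : ℕ → ℂ)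
    (hb : ∀ n : ℕ, ‖b n‖ ≤ om ((n : ℝ) / L)) (W : Finset ℝ) :
    ∑ t1 ∈ W, ∑ t2 ∈ W, ∑ t3 ∈ W, Jm Y b (t1 + t2 - t3) ≤
      Real.pi * ∑ n ∈ F L, ∑ m ∈ F L, om ((n : ℝ) / L) * om ((m : ℝ) / L) *
        ‖Q W id (Real.log m - Real.log n)‖ ^ 3 := by
  have h1 : ((∑ t1 ∈ W, ∑ t2 ∈ W, ∑ t3 ∈ W, Jm Y b (t1 + t2 - t3) : ℝ) : ℂ) =
      ∑ n ∈ Finset.Icc 1 Y, ∑ m ∈ Finset.Icc 1 Y, b n * (starRingEnd ℂ) (b m) *
        kc (Real.log m - Real.log n) * (Q W id (Real.log m - Real.log n) *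
          Q W id (Real.log m - Real.log n) *
          (starRingEnd ℂ) (Q W id (Real.log m - Real.log n))) := by
    have e3 : ∀ t1 t2 : ℝ, ∑ t3 ∈ W, ((Jm Y b (t1 + t2 - t3) : ℝ) : ℂ) =
        ∑ n ∈ Finset.Icc 1 Y, ∑ m ∈ Finset.Icc 1 Y, b n * (starRingEnd ℂ) (b m) *
          kc (Real.log m - Real.log n) *
          ∑ t3 ∈ W, E ((t1 + t2 - t3) * (Real.log m - Real.log n)) := by
      intro t1 t2
      simp_rw [Jm_E]
      rw [Finset.sum_comm]
      refine Finset.sum_congr rfl fun n _ => ?_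
      rw [Finset.sum_comm]
      refine Finset.sum_congr rfl fun m _ => ?_
      rw [Finset.mul_sum]
    have e2 : ∀ t1 : ℝ, ∑ t2 ∈ W, ∑ t3 ∈ W, ((Jm Y b (t1 + t2 - t3) : ℝ) : ℂ) =
        ∑ n ∈ Finset.Icc 1 Y, ∑ m ∈ Finset.Icc 1 Y, b n * (starRingEnd ℂ) (b m) *
          kc (Real.log m - Real.log n) *
          ∑ t2 ∈ W, ∑ t3 ∈ W, E ((t1 + t2 - t3) * (Real.log m - Real.log n)) := by
      intro t1
      simp_rw [e3]
      rw [Finset.sum_comm]
      refine Finset.sum_congr rfl fun n _ => ?_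
      rw [Finset.sum_comm]
      refine Finset.sum_congr rfl fun m _ => ?_
      rw [Finset.mul_sum]
    push_cast
    simp_rw [e2]
    rw [Finset.sum_comm]
    refine Finset.sum_congr rfl fun n _ => ?_
    rw [Finset.sum_comm]
    refine Finset.sum_congr rfl fun m _ => ?_
    rw [← Finset.mul_sum, three]
  have h2 : ∑ t1 ∈ W, ∑ t2 ∈ W, ∑ t3 ∈ W, Jm Y b (t1 + t2 - t3) ≤
      ‖((∑ t1 ∈ W, ∑ t2 ∈ W, ∑ t3 ∈ W, Jm Y b (t1 + t2 - t3) : ℝ) : ℂ)‖ := by
    rw [Complex.norm_real, Real.norm_eq_abs]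
    exact le_abs_self _
  refine h2.trans ?_
  rw [h1, Finset.mul_sum]
  have hsub : Finset.Icc 1 Y ⊆ F L := Finset.Icc_subset_Icc le_rfl hY
  have h3 : ∀ n m : ℕ, ‖b n * (starRingEnd ℂ) (b m) *
        kc (Real.log m - Real.log n) * (Q W id (Real.log m - Real.log n) *
          Q W id (Real.log m - Real.log n) *
          (starRingEnd ℂ) (Q W id (Real.log m - Real.log n)))‖ ≤
      Real.pi * (om ((n : ℝ) / L) * om ((m : ℝ) / L) *
        ‖Q W id (Real.log m - Real.log n)‖ ^ 3) := by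
    intro n m
    rw [norm_mul, norm_mul, norm_mul, norm_mul, norm_mul, Complex.norm_conj, Complex.norm_conj]
    have hk := norm_kc (Real.log m - Real.log n)
    have hbb : ‖b n‖ * ‖b m‖ ≤ om ((n : ℝ) / L) * om ((m : ℝ) / L) :=
      mul_le_mul (hb n) (hb m) (norm_nonneg _) (om_nonneg _)
    have h4 : ‖b n‖ * ‖b m‖ * ‖kc (Real.log m - Real.log n)‖ ≤
        om ((n : ℝ) / L) * om ((m : ℝ) / L) * Real.pi :=
      mul_le_mul hbb hk (norm_nonneg _) (mul_nonneg (om_nonneg _) (om_nonneg _))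
    have h5 := mul_le_mul_of_nonneg_right h4
      (show 0 ≤ ‖Q W id (Real.log m - Real.log n)‖ ^ 3 by positivity)
    calc _ = ‖b n‖ * ‖b m‖ * ‖kc (Real.log m - Real.log n)‖ *
          ‖Q W id (Real.log m - Real.log n)‖ ^ 3 := by ring
      _ ≤ _ := h5
      _ = _ := by ring
  have hnn : ∀ n m : ℕ, 0 ≤ Real.pi * (om ((n : ℝ) / L) * om ((m : ℝ) / L) *
        ‖Q W id (Real.log m - Real.log n)‖ ^ 3) := fun n m =>
    mul_nonneg Real.pi_pos.le (mul_nonneg (mul_nonneg (om_nonneg _) (om_nonneg _))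
      (by positivity))
  refine (norm_sum_le _ _).trans ?_
  calc _ ≤ ∑ n ∈ Finset.Icc 1 Y, ∑ m ∈ Finset.Icc 1 Y, Real.pi * (om ((n : ℝ) / L) *
        om ((m : ℝ) / L) * ‖Q W id (Real.log m - Real.log n)‖ ^ 3) := by
        refine Finset.sum_le_sum fun n _ => (norm_sum_le _ _).trans ?_
        exact Finset.sum_le_sum fun m _ => h3 n m
    _ ≤ ∑ n ∈ F L, ∑ m ∈ Finset.Icc 1 Y, Real.pi * (om ((n : ℝ) / L) *
        om ((m : ℝ) / L) * ‖Q W id (Real.log m - Real.log n)‖ ^ 3) :=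
        Finset.sum_le_sum_of_subset_of_nonneg hsub fun n _ _ =>
          Finset.sum_nonneg fun m _ => hnn n m
    _ ≤ ∑ n ∈ F L, ∑ m ∈ F L, Real.pi * (om ((n : ℝ) / L) *
        om ((m : ℝ) / L) * ‖Q W id (Real.log m - Real.log n)‖ ^ 3) :=
        Finset.sum_le_sum fun n _ => Finset.sum_le_sum_of_subset_of_nonneg hsub
          fun m _ _ => hnn n m
    _ = _ := by
        refine Finset.sum_congr rfl fun n _ => ?_
        rw [Finset.mul_sum]

/-- the separated points: sum of local means against the smoothed mean -/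
lemma local_mean (W : Finset ℝ) (hW : Sep W) (G : ℝ → ℝ) (hG : Continuous G)
    (hG0 : ∀ y, 0 ≤ G y) (B : ℝ) (hGB : ∀ y, G y ≤ B) (x : ℝ) :
    ∑ t ∈ W, 1 / (1 + (x - t) ^ 2) * (∫ u in (-(1 / 2 : ℝ))..(1 / 2), G (t + u)) ≤
      2 * ∫ y : ℝ, G (x + y) * (1 / (1 + y ^ 2)) := by
  have hint : Integrable (fun y : ℝ => G (x + y) * (1 / (1 + y ^ 2))) := by
    refine integrable_k.bdd_mul (c := B) ?_ ?_
    · exact (hG.comp (continuous_const.add continuous_id)).aestronglyMeasurable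
    · refine Filter.Eventually.of_forall fun y => ?_
      rw [Real.norm_eq_abs, abs_of_nonneg (hG0 _)]
      exact hGB _
  have hint2 : Integrable (fun y : ℝ => G y * (1 / (1 + (y - x) ^ 2))) := by
    have := hint.comp_sub_right x
    refine this.congr (Filter.Eventually.of_forall fun y => ?_)
    simp
  have heq : ∫ y : ℝ, G (x + y) * (1 / (1 + y ^ 2)) = ∫ y : ℝ, G y * (1 / (1 + (y - x) ^ 2)) := by
    rw [← integral_sub_right_eq_self (fun y : ℝ => G (x + y) * (1 / (1 + y ^ 2))) x]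
    refine integral_congr_ae (Filter.Eventually.of_forall fun y => ?_)
    simp
  rw [heq]
  have h1 : ∀ t : ℝ, 1 / (1 + (x - t) ^ 2) * (∫ u in (-(1 / 2 : ℝ))..(1 / 2), G (t + u)) ≤
      2 * ∫ y in Ioc (t - 1 / 2) (t + 1 / 2), G y * (1 / (1 + (y - x) ^ 2)) := by
    intro t
    have e1 : ∫ u in (-(1 / 2 : ℝ))..(1 / 2), G (t + u) = ∫ y in (t - 1 / 2)..(t + 1 / 2), G y := by
      rw [intervalIntegral.integral_comp_add_left]
      congr 1
    rw [e1, intervalIntegral.integral_of_le (by linarith), ← integral_const_mul,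
      ← integral_const_mul]
    refine setIntegral_mono_on ?_ ?_ measurableSet_Ioc ?_
    · exact ((hG.integrableOn_Icc).mono_set Ioc_subset_Icc_self).const_mul _
    · exact (hint2.integrableOn).const_mul _
    · intro y hy
      have hy1 : |y - t| ≤ 1 / 2 := by
        rw [abs_le]
        constructor <;> linarith [hy.1, hy.2]
      have hy2 : (y - t) ^ 2 ≤ (1 / 2) ^ 2 := by
        rw [← sq_abs (y - t)]
        exact pow_le_pow_left₀ (abs_nonneg _) hy1 2
      have h2 : 1 / (1 + (x - t) ^ 2) ≤ 2 * (1 / (1 + (y - x) ^ 2)) := by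
        rw [mul_one_div, div_le_div_iff₀ (by positivity) (by positivity)]
        nlinarith [sq_nonneg ((y - t) + (x - t)), sq_nonneg (y - x)]
      calc 1 / (1 + (x - t) ^ 2) * G y ≤ 2 * (1 / (1 + (y - x) ^ 2)) * G y :=
            mul_le_mul_of_nonneg_right h2 (hG0 y)
        _ = 2 * (G y * (1 / (1 + (y - x) ^ 2))) := by ring
  refine (Finset.sum_le_sum fun t _ => h1 t).trans ?_
  rw [← Finset.mul_sum]
  refine mul_le_mul_of_nonneg_left ?_ (by norm_num)
  rw [← integral_biUnion_finset W (fun t _ => measurableSet_Ioc)]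
  · exact setIntegral_le_integral hint2 (Filter.Eventually.of_forall fun y =>
      mul_nonneg (hG0 y) (by positivity))
  · intro s hs t ht hst
    have h := hW s hs t ht hst
    rw [Function.onFun, Set.disjoint_left]
    intro y hy1 hy2
    rcases le_abs.1 h with h | h
    · linarith [hy1.1, hy1.2, hy2.1, hy2.2]
    · linarith [hy1.1, hy1.2, hy2.1, hy2.2]
  · intro t _
    exact hint2.integrableOn

end Up1_aux

open Up1_aux

theorem iUp1 (hMv : StMv) : StUp1 := by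
  obtain ⟨C0, hC0, -, hMv⟩ := hMv
  refine ⟨8 * Real.pi * C0, ?_, ?_⟩
  · nlinarith [Real.pi_gt_three]
  intro L V a W hL hV ha hW hS
  set Y : ℕ := ⌊2 * L⌋₊ with hYdef
  have hY1 : 1 ≤ Y := by
    rw [hYdef]
    exact Nat.le_floor (by push_cast; linarith)
  have hYL : (Y : ℝ) ≤ 2 * L := Nat.floor_le (by linarith)
  have hY3 : Y ≤ ⌊3 * L⌋₊ := Nat.floor_le_floor (by linarith)
  have hYpos : (0 : ℝ) < Y := by exact_mod_cast hY1
  have hlY : 0 ≤ Real.log Y := Real.log_nonneg (by exact_mod_cast hY1)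
  set b : ℕ → ℂ := fun n => if ⌊L⌋₊ < n ∧ n ≤ Y then a n else 0 with hb
  set b1 : ℕ → ℂ := fun n => b n * ((Real.log n / (1 + Real.log Y) : ℝ) : ℂ) with hb1
  have hbom : ∀ n : ℕ, ‖b n‖ ≤ om ((n : ℝ) / L) := by
    intro n
    by_cases h : ⌊L⌋₊ < n ∧ n ≤ Y
    · have h1 : L < n := (Nat.floor_lt (by linarith)).1 h.1
      have h2 : (n : ℝ) ≤ 2 * L := by
        have : (n : ℝ) ≤ Y := by exact_mod_cast h.2
        linarith
      rw [om_eq_one (by rw [le_div_iff₀ (by linarith)]; linarith)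
        (by rw [div_le_iff₀ (by linarith)]; linarith)]
      rw [hb]
      simp only [if_pos h]
      exact ha n
    · rw [hb]
      simp only [if_neg h, norm_zero]
      exact om_nonneg _
  have hb1om : ∀ n : ℕ, ‖b1 n‖ ≤ om ((n : ℝ) / L) := by
    intro n
    by_cases h : ⌊L⌋₊ < n ∧ n ≤ Y
    · have hn : 1 ≤ n := by omega
      have hln : 0 ≤ Real.log n := Real.log_nonneg (by exact_mod_cast hn)
      have hln2 : Real.log n ≤ Real.log Y :=
        Real.log_le_log (by exact_mod_cast hn) (by exact_mod_cast h.2)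
      rw [hb1]
      simp only [norm_mul]
      rw [Complex.norm_real, Real.norm_eq_abs, abs_of_nonneg (by positivity)]
      have : Real.log n / (1 + Real.log Y) ≤ 1 := by
        rw [div_le_one (by linarith)]
        linarith
      calc _ ≤ om ((n : ℝ) / L) * 1 := mul_le_mul (hbom n) this (by positivity) (om_nonneg _)
        _ = _ := mul_one _
    · have : b1 n = 0 := by
        rw [hb1]
        simp only [hb, if_neg h, zero_mul]
      rw [this, norm_zero]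
      exact om_nonneg _
  have hb_1 : ∀ n : ℕ, ‖b n‖ ≤ 1 := fun n => (hbom n).trans (om_le_one _)
  have hb1_1 : ∀ n : ℕ, ‖b1 n‖ ≤ 1 := fun n => (hb1om n).trans (om_le_one _)
  have hSd : ∀ t : ℝ, Sd L a t = Dp Y b t := by
    intro t
    unfold Sd Dp
    have hsub : Finset.Ioc ⌊L⌋₊ Y ⊆ Finset.Icc 1 Y := by
      intro n hn
      rw [Finset.mem_Ioc] at hn
      rw [Finset.mem_Icc]
      omega
    rw [← Finset.sum_subset hsub]
    · refine Finset.sum_congr rfl fun n hn => ?_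
      rw [Finset.mem_Ioc] at hn
      rw [hb]
      simp only [if_pos hn]
    · intro n _ hn2
      rw [Finset.mem_Ioc] at hn2
      rw [hb]
      simp only [if_neg hn2, zero_mul]
  set G : ℝ → ℝ := fun y => ‖Dp Y b y‖ ^ 2 + ‖Dp Y b1 y‖ ^ 2 with hG
  have hGc : Continuous G :=
    ((Dp_continuous Y b).norm.pow 2).add ((Dp_continuous Y b1).norm.pow 2)
  have hG0 : ∀ y, 0 ≤ G y := fun y => by rw [hG]; positivity
  have hGB : ∀ y, G y ≤ (Y : ℝ) ^ 2 + (Y : ℝ) ^ 2 := by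
    intro y
    rw [hG]
    exact add_le_add (pow_le_pow_left₀ (norm_nonneg _) (Dp_norm_le Y b hb_1 y) 2)
      (pow_le_pow_left₀ (norm_nonneg _) (Dp_norm_le Y b1 hb1_1 y) 2)
  have hVt : ∀ t ∈ W, V ^ 2 ≤ C0 * (1 + Real.log Y) *
      ∫ u in (-(1 / 2 : ℝ))..(1 / 2), G (t + u) := by
    intro t ht
    have h1 : V ^ 2 ≤ ‖Dp Y b t‖ ^ 2 := by
      rw [← hSd]
      exact pow_le_pow_left₀ hV (hS t ht) 2
    exact h1.trans (hMv t Y b hY1)
  have hJ : ∀ x : ℝ, ∑ t ∈ W, V ^ 2 * (1 / (1 + (x - t) ^ 2)) ≤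
      C0 * (1 + Real.log Y) * (2 * (Jm Y b x + Jm Y b1 x)) := by
    intro x
    have h1 := local_mean W hW G hGc hG0 _ hGB x
    have h2 : ∫ y : ℝ, G (x + y) * (1 / (1 + y ^ 2)) = Jm Y b x + Jm Y b1 x := by
      unfold Jm
      rw [← integral_add]
      · refine integral_congr_ae (Filter.Eventually.of_forall fun y => ?_)
        simp only [hG]
        ring
      · refine integrable_k.bdd_mul (c := (Y : ℝ) ^ 2) ?_ ?_
        · exact (((Dp_continuous Y b).comp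
            (continuous_const.add continuous_id)).norm.pow 2).aestronglyMeasurable
        · refine Filter.Eventually.of_forall fun y => ?_
          rw [Real.norm_eq_abs, abs_of_nonneg (by positivity)]
          exact pow_le_pow_left₀ (norm_nonneg _) (Dp_norm_le Y b hb_1 _) 2
      · refine integrable_k.bdd_mul (c := (Y : ℝ) ^ 2) ?_ ?_
        · exact (((Dp_continuous Y b1).comp
            (continuous_const.add continuous_id)).norm.pow 2).aestronglyMeasurable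
        · refine Filter.Eventually.of_forall fun y => ?_
          rw [Real.norm_eq_abs, abs_of_nonneg (by positivity)]
          exact pow_le_pow_left₀ (norm_nonneg _) (Dp_norm_le Y b1 hb1_1 _) 2
    rw [h2] at h1
    calc ∑ t ∈ W, V ^ 2 * (1 / (1 + (x - t) ^ 2))
        ≤ ∑ t ∈ W, C0 * (1 + Real.log Y) * (1 / (1 + (x - t) ^ 2) *
          ∫ u in (-(1 / 2 : ℝ))..(1 / 2), G (t + u)) := by
          refine Finset.sum_le_sum fun t ht => ?_
          have := mul_le_mul_of_nonneg_right (hVt t ht)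
            (show (0 : ℝ) ≤ 1 / (1 + (x - t) ^ 2) by positivity)
          calc _ ≤ _ := this
            _ = _ := by ring
      _ = C0 * (1 + Real.log Y) * ∑ t ∈ W, (1 / (1 + (x - t) ^ 2) *
          ∫ u in (-(1 / 2 : ℝ))..(1 / 2), G (t + u)) := by rw [Finset.mul_sum]
      _ ≤ _ := mul_le_mul_of_nonneg_left h1 (by positivity)
  have hlog : 1 + Real.log Y ≤ 2 * (1 + Real.log L) := by
    have h1 : Real.log Y ≤ Real.log (2 * L) := Real.log_le_log hYpos hYL
    rw [Real.log_mul (by norm_num) (by linarith)] at h1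
    have h2 : Real.log 2 ≤ 1 := by
      have := Real.log_two_lt_d9
      linarith
    have h3 : 0 ≤ Real.log L := Real.log_nonneg hL
    linarith
  have hlL : 0 ≤ Real.log L := Real.log_nonneg hL
  set S3 : ℝ := ∑ n ∈ F L, ∑ m ∈ F L, om ((n : ℝ) / L) * om ((m : ℝ) / L) *
      ‖Q W id (Real.log m - Real.log n)‖ ^ 3 with hS3
  have hS3n : 0 ≤ S3 := Finset.sum_nonneg fun n _ => Finset.sum_nonneg fun m _ =>
    mul_nonneg (mul_nonneg (om_nonneg _) (om_nonneg _)) (by positivity)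
  have hmain : V ^ 2 * EN W ≤ 8 * Real.pi * C0 * (1 + Real.log L) * S3 := by
    have e1 : V ^ 2 * EN W = ∑ t1 ∈ W, ∑ t2 ∈ W, ∑ t3 ∈ W, ∑ t4 ∈ W,
        V ^ 2 * (1 / (1 + ((t1 + t2 - t3) - t4) ^ 2)) := by
      unfold EN
      simp_rw [Finset.mul_sum]
    rw [e1]
    calc _ ≤ ∑ t1 ∈ W, ∑ t2 ∈ W, ∑ t3 ∈ W, C0 * (1 + Real.log Y) *
          (2 * (Jm Y b (t1 + t2 - t3) + Jm Y b1 (t1 + t2 - t3))) :=
          Finset.sum_le_sum fun t1 _ => Finset.sum_le_sum fun t2 _ =>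
            Finset.sum_le_sum fun t3 _ => hJ _
      _ = C0 * (1 + Real.log Y) * (2 * ((∑ t1 ∈ W, ∑ t2 ∈ W, ∑ t3 ∈ W, Jm Y b (t1 + t2 - t3)) +
          ∑ t1 ∈ W, ∑ t2 ∈ W, ∑ t3 ∈ W, Jm Y b1 (t1 + t2 - t3))) := by
          simp_rw [← Finset.mul_sum, Finset.sum_add_distrib]
      _ ≤ C0 * (1 + Real.log Y) * (2 * (Real.pi * S3 + Real.pi * S3)) := by
          refine mul_le_mul_of_nonneg_left ?_ (by positivity)
          refine mul_le_mul_of_nonneg_left ?_ (by norm_num)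
          exact add_le_add (sumJ Y hY3 b hbom W) (sumJ Y hY3 b1 hb1om W)
      _ ≤ C0 * (2 * (1 + Real.log L)) * (2 * (Real.pi * S3 + Real.pi * S3)) := by
          have hp := Real.pi_pos
          refine mul_le_mul_of_nonneg_right ?_ (by positivity)
          exact mul_le_mul_of_nonneg_left hlog (by linarith)
      _ = _ := by ring
  refine hmain.trans ?_
  rw [mul_assoc (8 * Real.pi * C0 * (1 + Real.log L))]
  refine mul_le_mul_of_nonneg_left ?_ (by have := Real.pi_pos; positivity)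
  have hcs := cs L W
  have hk1 := key hL W id
  have hk2 := key hL (W ×ˢ W) (fun p : ℝ × ℝ => p.1 + p.2)
  have e2 : ∀ θ : ℝ, ‖Q (W ×ˢ W) (fun p : ℝ × ℝ => p.1 + p.2) θ‖ = ‖Q W id θ‖ ^ 2 := by
    intro θ
    have : Q (W ×ˢ W) (fun p : ℝ × ℝ => p.1 + p.2) θ = Q W id θ * Q W id θ := by
      unfold Q
      rw [Finset.sum_mul_sum, Finset.sum_product]
      refine Finset.sum_congr rfl fun s _ => Finset.sum_congr rfl fun t _ => ?_
      rw [← E_add]
      congr 1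
      simp only [id]
      ring
    rw [this, norm_mul, sq]
  simp_rw [e2] at hk2
  have e3 : ∑ i ∈ W ×ˢ W, ∑ j ∈ W ×ˢ W, ‖Bl om L (i.1 + i.2 - (j.1 + j.2))‖ ^ 2 =
      ∑ t1 ∈ W, ∑ t2 ∈ W, ∑ t3 ∈ W, ∑ t4 ∈ W, ‖Bl om L (t1 + t2 - t3 - t4)‖ ^ 2 := by
    rw [Finset.sum_product]
    refine Finset.sum_congr rfl fun s _ => Finset.sum_congr rfl fun t _ => ?_
    rw [Finset.sum_product]
    refine Finset.sum_congr rfl fun u _ => Finset.sum_congr rfl fun v _ => ?_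
    rw [show s + t - (u + v) = s + t - u - v by ring]
  rw [e3] at hk2
  rw [hk1, hk2] at hcs
  exact hcs

end Pool.Agent.Work.MP_56b8f5_nt.UC
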