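import Mathlib
import Pool.Agent.Work.MP_56b8f5_nt.UC.Stmts
import Pool.Agent.Work.MP_56b8f5_nt.UC.I_Ow

/-!
MP_56b8f5_nt, block UC, item X3: from large values to the cubic trace.
-/

open MeasureTheory Set Filter Topology

noncomputable section

namespace Pool.Agent.Work.MP_56b8f5_nt.UC

open Pool.Agent.Work.MP_56b8f5_nt.UB (ee om)

namespace X3_aux

/-- Schur's test -/
lemma schur (W : Finset ℝ) (E : ℝ → ℝ → ℂ) (g : ℝ → ℂ) (B : ℝ)
    (h1 : ∀ s ∈ W, ∑ t ∈ W, ‖E s t‖ ≤ B) (h2 : ∀ t ∈ W, ∑ s ∈ W, ‖E s t‖ ≤ B) :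
    ‖∑ s ∈ W, ∑ t ∈ W, (starRingEnd ℂ) (g s) * E s t * g t‖ ≤ B * ∑ s ∈ W, ‖g s‖ ^ 2 := by
  have hA : ‖∑ s ∈ W, ∑ t ∈ W, (starRingEnd ℂ) (g s) * E s t * g t‖ ≤
      ∑ s ∈ W, ∑ t ∈ W, (‖g s‖ ^ 2 * ‖E s t‖ / 2 + ‖g t‖ ^ 2 * ‖E s t‖ / 2) := by
    refine (norm_sum_le _ _).trans (Finset.sum_le_sum fun s _ => ?_)
    refine (norm_sum_le _ _).trans (Finset.sum_le_sum fun t _ => ?_)
    rw [norm_mul, norm_mul, RCLike.norm_conj]
    have h0 : 0 ≤ ‖E s t‖ := norm_nonneg _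
    nlinarith [mul_nonneg h0 (sq_nonneg (‖g s‖ - ‖g t‖))]
  have hB1 : ∑ s ∈ W, ∑ t ∈ W, ‖g s‖ ^ 2 * ‖E s t‖ / 2 ≤ B / 2 * ∑ s ∈ W, ‖g s‖ ^ 2 := by
    rw [Finset.mul_sum]
    refine Finset.sum_le_sum fun s hs => ?_
    have : ∑ t ∈ W, ‖g s‖ ^ 2 * ‖E s t‖ / 2 = ‖g s‖ ^ 2 / 2 * ∑ t ∈ W, ‖E s t‖ := by
      rw [Finset.mul_sum]
      exact Finset.sum_congr rfl fun t _ => by ring
    rw [this]
    have h3 := mul_le_mul_of_nonneg_left (h1 s hs) (by positivity : 0 ≤ ‖g s‖ ^ 2 / 2)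
    linarith
  have hB2 : ∑ s ∈ W, ∑ t ∈ W, ‖g t‖ ^ 2 * ‖E s t‖ / 2 ≤ B / 2 * ∑ s ∈ W, ‖g s‖ ^ 2 := by
    rw [Finset.sum_comm, Finset.mul_sum]
    refine Finset.sum_le_sum fun t ht => ?_
    have : ∑ s ∈ W, ‖g t‖ ^ 2 * ‖E s t‖ / 2 = ‖g t‖ ^ 2 / 2 * ∑ s ∈ W, ‖E s t‖ := by
      rw [Finset.mul_sum]
      exact Finset.sum_congr rfl fun s _ => by ring
    rw [this]
    have h3 := mul_le_mul_of_nonneg_left (h2 t ht) (by positivity : 0 ≤ ‖g t‖ ^ 2 / 2)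
    linarith
  have hC : ∑ s ∈ W, ∑ t ∈ W, (‖g s‖ ^ 2 * ‖E s t‖ / 2 + ‖g t‖ ^ 2 * ‖E s t‖ / 2) =
      ∑ s ∈ W, ∑ t ∈ W, ‖g s‖ ^ 2 * ‖E s t‖ / 2 + ∑ s ∈ W, ∑ t ∈ W, ‖g t‖ ^ 2 * ‖E s t‖ / 2 := by
    rw [← Finset.sum_add_distrib]
    exact Finset.sum_congr rfl fun s _ => Finset.sum_add_distrib
  linarith

/-- the kernel is Hermitian -/
lemma kk_neg (hBc : StBc) {L : ℝ} (hL : 0 < L) (M : ℕ) (t : ℝ) :
    kk L M (-t) = (starRingEnd ℂ) (kk L M t) := by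
  unfold kk
  rw [map_sum]
  refine Finset.sum_bij' (fun m _ => -m) (fun m _ => -m) ?_ ?_ ?_ ?_ ?_
  · intro m hm
    simp only [Finset.mem_filter, Finset.mem_Icc] at hm ⊢
    refine ⟨⟨by linarith [hm.1.2], by linarith [hm.1.1]⟩, by simpa using hm.2⟩
  · intro m hm
    simp only [Finset.mem_filter, Finset.mem_Icc] at hm ⊢
    refine ⟨⟨by linarith [hm.1.2], by linarith [hm.1.1]⟩, by simpa using hm.2⟩
  · intro m _
    exact neg_neg m
  · intro m _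
    exact neg_neg m
  · intro m _
    have h := (hBc om isWt_om).2.2.1 L t (-m) hL
    rw [neg_neg] at h
    exact h

end X3_aux

open X3_aux in
theorem iX3 (hTr : StTr) (hDu : StDu) (hKd : StKd) (hN0 : StN0) (hBc : StBc) (hS2 : StS2) : StX3 := by
  obtain ⟨C1, hC1, hK⟩ := hKd
  obtain ⟨C2, hC2, hN⟩ := hN0 om isWt_om 2
  obtain ⟨C3, hC3, hS⟩ := hS2
  set K : ℝ := C2 * C3 + 2 * C1 with hKdef
  have hC23 : 1 ≤ C2 * C3 := by nlinarith
  have hK1 : 1 ≤ K := by rw [hKdef]; linarith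
  refine ⟨64 * K, by linarith, ?_⟩
  intro T0 T L V M a W hL hT hCT hV ha hW hSep hWT hSd hLV
  have hL0 : 0 < L := by linarith
  have hT0 : 0 < T := by linarith
  have hR : (0 : ℝ) < W.card := by exact_mod_cast hW.card_pos
  have hML : C1 * T ≤ M * L := by
    refine le_trans ?_ hCT
    have : C1 ≤ 64 * K := by rw [hKdef]; linarith
    exact mul_le_mul_of_nonneg_right this hT0.le
  -- the error
  set E : ℝ → ℝ → ℂ := fun s t => Bl om L (s - t) - kk L M (s - t) with hE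
  have hEb : ∀ s ∈ W, ∀ t ∈ W, ‖E s t‖ ≤ C2 * L * (1 / (1 + (s - t) ^ 2)) + C1 / T := by
    intro s hs t ht
    have hst : |s - t| ≤ T := by
      have h1 := hWT s hs
      have h2 := hWT t ht
      rw [abs_le]
      constructor <;> linarith
    have h1 := hK L T (s - t) M hL hT hst hML
    have h2 := hN L (s - t) hL0
    have h3 : C2 * L / (1 + |s - t|) ^ 2 ≤ C2 * L * (1 / (1 + (s - t) ^ 2)) := by
      rw [mul_one_div]
      apply div_le_div_of_nonneg_left (by positivity) (by positivity)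
      nlinarith [sq_abs (s - t), abs_nonneg (s - t)]
    have h4 : E s t = (Bl om L (s - t) - Im om L (s - t) 0 - kk L M (s - t)) + Im om L (s - t) 0 := by
      rw [hE]; ring
    rw [h4]
    refine (norm_add_le _ _).trans ?_
    linarith
  obtain ⟨hSa, _, hSc⟩ := hS W hSep
  have hcard := hSc T0 T hT hWT
  have hsum : ∀ x : ℝ, ∑ t ∈ W, (C2 * L * (1 / (1 + (x - t) ^ 2)) + C1 / T) ≤ K * L := by
    intro x
    rw [Finset.sum_add_distrib, ← Finset.mul_sum, Finset.sum_const, nsmul_eq_mul]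
    have h1 := mul_le_mul_of_nonneg_left (hSa x) (by positivity : 0 ≤ C2 * L)
    have h2 : (W.card : ℝ) * (C1 / T) ≤ 2 * C1 := by
      rw [mul_div_assoc', div_le_iff₀ hT0]
      nlinarith
    have h3 : 2 * C1 ≤ 2 * C1 * L := by nlinarith
    rw [hKdef]
    nlinarith
  have hE1 : ∀ s ∈ W, ∑ t ∈ W, ‖E s t‖ ≤ K * L := by
    intro s hs
    exact (Finset.sum_le_sum fun t ht => hEb s hs t ht).trans (hsum s)
  have hE2 : ∀ t ∈ W, ∑ s ∈ W, ‖E s t‖ ≤ K * L := by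
    intro t ht
    refine (Finset.sum_le_sum fun s hs => hEb s hs t ht).trans ?_
    have : ∑ s ∈ W, (C2 * L * (1 / (1 + (s - t) ^ 2)) + C1 / T) =
        ∑ s ∈ W, (C2 * L * (1 / (1 + (t - s) ^ 2)) + C1 / T) := by
      refine Finset.sum_congr rfl fun s _ => ?_
      rw [show (s - t) ^ 2 = (t - s) ^ 2 by ring]
    rw [this]
    exact hsum t
  have hsplit : ∀ g : ℝ → ℂ,
      (∑ s ∈ W, ∑ t ∈ W, (starRingEnd ℂ) (g s) * Bl om L (s - t) * g t).re - K * L * ∑ s ∈ W, ‖g s‖ ^ 2 ≤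
      (∑ s ∈ W, ∑ t ∈ W, (starRingEnd ℂ) (g s) * kk L M (s - t) * g t).re := by
    intro g
    have h1 := schur W E g (K * L) hE1 hE2
    have h2 : ∑ s ∈ W, ∑ t ∈ W, (starRingEnd ℂ) (g s) * Bl om L (s - t) * g t =
        ∑ s ∈ W, ∑ t ∈ W, (starRingEnd ℂ) (g s) * kk L M (s - t) * g t +
        ∑ s ∈ W, ∑ t ∈ W, (starRingEnd ℂ) (g s) * E s t * g t := by
      rw [← Finset.sum_add_distrib]
      refine Finset.sum_congr rfl fun s _ => ?_
      rw [← Finset.sum_add_distrib]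
      refine Finset.sum_congr rfl fun t _ => ?_
      rw [hE]; ring
    rw [h2, Complex.add_re]
    have h3 := (Complex.re_le_norm (∑ s ∈ W, ∑ t ∈ W, (starRingEnd ℂ) (g s) * E s t * g t))
    linarith
  obtain ⟨c, hc, hcV⟩ := hDu.1 L V a W hL hV.le ha hSd
  have hx := hTr W (fun s t => kk L M (s - t)) c (K * L) (V ^ 2 * W.card / (4 * L)) hW
    (by positivity) (by positivity) ?_ ?_ (fun t _ => hc t) ?_
  · have h1 : (V ^ 2 * W.card / (4 * L)) ^ 3 = (V ^ 2 * W.card / L) ^ 3 / 64 := by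
      field_simp
      ring
    rw [h1] at hx
    have h2 := Complex.re_le_norm (∑ r ∈ W, ∑ s ∈ W, ∑ t ∈ W, kk L M (r - s) * kk L M (s - t) * kk L M (t - r))
    have h3 : 0 ≤ ‖∑ r ∈ W, ∑ s ∈ W, ∑ t ∈ W, kk L M (r - s) * kk L M (s - t) * kk L M (t - r)‖ :=
      norm_nonneg _
    have h4 : ‖∑ r ∈ W, ∑ s ∈ W, ∑ t ∈ W, kk L M (r - s) * kk L M (s - t) * kk L M (t - r)‖ ≤
        K * ‖∑ r ∈ W, ∑ s ∈ W, ∑ t ∈ W, kk L M (r - s) * kk L M (s - t) * kk L M (t - r)‖ := by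
      nlinarith
    linarith
  · intro s t
    have h := kk_neg hBc hL0 M (s - t)
    rw [neg_sub] at h
    exact h
  · intro g
    have h1 := hsplit g
    have h2 := hDu.2 L W g hL0
    linarith
  · have h1 := hsplit c
    have h2 : ∑ s ∈ W, ‖c s‖ ^ 2 = (W.card : ℝ) := by
      rw [Finset.sum_congr rfl fun s _ => by rw [hc s, one_pow]]
      simp
    rw [h2] at h1
    refine le_trans ?_ h1
    have h3 : V ^ 2 * (W.card : ℝ) ^ 2 / (2 * L) ≤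
        (∑ s ∈ W, ∑ t ∈ W, (starRingEnd ℂ) (c s) * Bl om L (s - t) * c t).re := by
      rw [div_le_iff₀ (by positivity)]
      linarith
    have h4 : K * L * (W.card : ℝ) ≤ V ^ 2 * (W.card : ℝ) ^ 2 / (4 * L) := by
      rw [le_div_iff₀ (by positivity)]
      have h5 : 4 * K * L ^ 2 ≤ V ^ 2 * W.card := by
        nlinarith [sq_nonneg L]
      nlinarith
    have h5 : V ^ 2 * (W.card : ℝ) ^ 2 / (2 * L) = 2 * (V ^ 2 * (W.card : ℝ) ^ 2 / (4 * L)) := by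
      field_simp
      ring
    have h6 : V ^ 2 * (W.card : ℝ) / (4 * L) * (W.card : ℝ) = V ^ 2 * (W.card : ℝ) ^ 2 / (4 * L) := by
      field_simp
    linarith

end Pool.Agent.Work.MP_56b8f5_nt.UC
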