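import Mathlib
import Pool.Agent.Work.MP_56b8f5_nt.UC.Stmts
import Pool.Agent.Work.MP_56b8f5_nt.UC.I_Ow

/-!
MP_56b8f5_nt, block UC, item Zd: the tail `ζ(s) - Z_Y(s)`, `Y = T^(1/20)`, is small in `L^A`.
Author: helper9.
-/

open MeasureTheory Set Filter Topology

noncomputable section

namespace Pool.Agent.Work.MP_56b8f5_nt.UC

open Pool.Agent.Work.MP_56b8f5_nt.UB (ee om)

namespace Zd_aux

lemma Zs_eq {X : ℝ} (hX : 0 < X) (s : ℂ) {K : ℕ} (hK : 2 * X ≤ K) :
    Zs X s = ∑ n ∈ Finset.range K, ((eta ((n : ℝ) / X) : ℝ) : ℂ) * (n : ℂ) ^ (-s) := by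
  unfold Zs
  apply tsum_eq_sum
  intro n hn
  rw [Finset.mem_range, not_lt] at hn
  have h2 : 2 * X ≤ n := le_trans hK (by exact_mod_cast hn)
  rw [eta_eq_zero, Complex.ofReal_zero, zero_mul]
  rw [le_div_iff₀ hX]
  linarith

lemma psi_eq_zero {x : ℝ} (h : 2 ≤ x) : psi x = 0 := by
  unfold psi
  rw [eta_eq_zero h, eta_eq_zero (by linarith), sub_self]

lemma zero_cpow_neg {σ t : ℝ} (hσ : 0 < σ) :
    ((0 : ℕ) : ℂ) ^ (-((σ : ℂ) + t * Complex.I)) = 0 := by
  rw [Nat.cast_zero, Complex.zero_cpow]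
  intro h
  have h1 := congrArg Complex.re h
  simp at h1
  linarith

lemma Zs_sub {N : ℝ} (hN : 0 < N) (σ t : ℝ) (hσ : 0 < σ) :
    Zs N (σ + t * Complex.I) - Zs (N / 2) (σ + t * Complex.I) =
      ((N ^ (-σ) : ℝ) : ℂ) * Bl (fun x => psi x * x ^ (-σ)) N t := by
  have hK : 2 * N ≤ (⌈2 * N⌉₊ : ℕ) := Nat.le_ceil _
  have hN2 : 0 < N / 2 := by positivity
  have hK2 : 2 * (N / 2) ≤ (⌈2 * N⌉₊ : ℕ) := by linarith
  rw [Zs_eq hN _ hK, Zs_eq hN2 _ hK2]
  have hBl : Bl (fun x => psi x * x ^ (-σ)) N t =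
      ∑ n ∈ Finset.range ⌈2 * N⌉₊, (((psi ((n : ℝ) / N) * ((n : ℝ) / N) ^ (-σ)) : ℝ) : ℂ) *
        (n : ℂ) ^ (-(t * Complex.I)) := by
    unfold Bl
    apply tsum_eq_sum
    intro n hn
    rw [Finset.mem_range, not_lt] at hn
    have h2 : 2 * N ≤ n := le_trans hK (by exact_mod_cast hn)
    have h3 : psi ((n : ℝ) / N) = 0 := psi_eq_zero (by rw [le_div_iff₀ hN]; linarith)
    beta_reduce
    rw [h3, zero_mul, Complex.ofReal_zero, zero_mul]
  rw [hBl, ← Finset.sum_sub_distrib, Finset.mul_sum]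
  apply Finset.sum_congr rfl
  intro n _
  by_cases h0 : n = 0
  · subst h0
    rw [zero_cpow_neg hσ]
    have h3 : psi (((0 : ℕ) : ℝ) / N) = 0 := by
      rw [Nat.cast_zero, zero_div]
      unfold psi
      rw [mul_zero, sub_self]
    rw [h3, zero_mul, Complex.ofReal_zero, zero_mul, mul_zero, mul_zero, mul_zero, sub_zero]
  · have hn : (0 : ℝ) < n := by exact_mod_cast Nat.pos_of_ne_zero h0
    have hnC : (n : ℂ) ≠ 0 := by exact_mod_cast h0
    have e1 : (n : ℂ) ^ (-((σ : ℂ) + t * Complex.I)) =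
        (((n : ℝ) ^ (-σ) : ℝ) : ℂ) * (n : ℂ) ^ (-(t * Complex.I)) := by
      rw [neg_add, Complex.cpow_add _ _ hnC, Complex.ofReal_cpow hn.le]
      push_cast
      rfl
    have e2 : (n : ℝ) / (N / 2) = 2 * ((n : ℝ) / N) := by
      field_simp
    have e3 : N ^ (-σ) * (psi ((n : ℝ) / N) * ((n : ℝ) / N) ^ (-σ)) =
        psi ((n : ℝ) / N) * (n : ℝ) ^ (-σ) := by
      rw [Real.div_rpow hn.le hN.le]
      have hNp : N ^ (-σ) ≠ 0 := (Real.rpow_pos_of_pos hN _).ne'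
      field_simp
    rw [e1, e2, ← mul_assoc (((N ^ (-σ) : ℝ)) : ℂ), ← Complex.ofReal_mul, e3]
    unfold psi
    push_cast
    ring

lemma Zs_norm_le {X : ℝ} (hX : 0 < X) {σ : ℝ} (hσ : 0 < σ) (t : ℝ) :
    ‖Zs X (σ + t * Complex.I)‖ ≤ 2 * X + 1 := by
  have hK : 2 * X ≤ (⌈2 * X⌉₊ : ℕ) := Nat.le_ceil _
  rw [Zs_eq hX _ hK]
  have h1 : ∀ n ∈ Finset.range ⌈2 * X⌉₊,
      ‖((eta ((n : ℝ) / X) : ℝ) : ℂ) * (n : ℂ) ^ (-((σ : ℂ) + t * Complex.I))‖ ≤ 1 := by
    intro n _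
    by_cases h0 : n = 0
    · subst h0
      rw [zero_cpow_neg hσ, mul_zero, norm_zero]
      exact zero_le_one
    · have hn : 0 < n := Nat.pos_of_ne_zero h0
      rw [norm_mul, Complex.norm_real, Complex.norm_natCast_cpow_of_pos hn]
      have ha : ‖eta ((n : ℝ) / X)‖ ≤ 1 := by
        rw [Real.norm_of_nonneg (eta_nonneg _)]
        exact eta_le_one _
      have hb : (n : ℝ) ^ (-((σ : ℂ) + t * Complex.I)).re ≤ 1 := by
        apply Real.rpow_le_one_of_one_le_of_nonpos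
        · exact_mod_cast hn
        · simp
          linarith
      exact mul_le_one₀ ha (by positivity) hb
  refine le_trans (norm_sum_le _ _) (le_trans (Finset.sum_le_sum h1) ?_)
  rw [Finset.sum_const, Finset.card_range, nsmul_eq_mul, mul_one]
  exact (Nat.ceil_lt_add_one (by positivity)).le

lemma exJ (Y Z : ℝ) (hY : 1 ≤ Y) (hYZ : Y ≤ Z) :
    ∃ J : ℕ, Z ≤ 2 ^ J * Y ∧ 2 ^ J * Y ≤ 2 * Z ∧ (J : ℝ) ≤ 1 + 2 * Real.log Z := by
  have hY0 : 0 < Y := by linarith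
  have hZ0 : 0 < Z := by linarith
  obtain ⟨n, hn1, hn2⟩ := exists_nat_pow_near (x := Z / Y) (y := 2)
    (by rw [le_div_iff₀ hY0]; linarith) (by norm_num)
  refine ⟨n + 1, ?_, ?_, ?_⟩
  · rw [div_lt_iff₀ hY0] at hn2
    exact hn2.le
  · rw [le_div_iff₀ hY0] at hn1
    rw [pow_succ]
    nlinarith
  · have h1 : Real.log ((2 : ℝ) ^ n) ≤ Real.log Z := by
      apply Real.log_le_log (by positivity)
      refine le_trans hn1 ?_
      rw [div_le_iff₀ hY0]
      nlinarith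
    rw [Real.log_pow] at h1
    have h2 : (1 : ℝ) / 2 ≤ Real.log 2 := by
      have := Real.log_two_gt_d9
      linarith
    have h3 : (n : ℝ) * (1 / 2) ≤ n * Real.log 2 :=
      mul_le_mul_of_nonneg_left h2 (Nat.cast_nonneg n)
    push_cast
    linarith

lemma small (A σ T0 : ℝ) (hσ : 0 < σ) (hA : 0 ≤ A) (hT0 : 1 ≤ T0) :
    ∃ C : ℝ, 1 ≤ C ∧ ∀ T : ℝ, 1 ≤ T → T ≤ T0 →
      ∫ t in T..(2 * T), ‖riemannZeta (σ + t * Complex.I) -
        Zs (T ^ (1 / 20 : ℝ)) (σ + t * Complex.I)‖ ^ A ≤ C := by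
  have hcont : ContinuousOn (fun t : ℝ => riemannZeta (σ + t * Complex.I)) (Icc 1 (2 * T0)) := by
    intro t ht
    have hne : (σ : ℂ) + t * Complex.I ≠ 1 := by
      intro h
      have h1 := congrArg Complex.im h
      simp at h1
      have := ht.1
      linarith
    have h2 : ContinuousAt (fun t : ℝ => (σ : ℂ) + t * Complex.I) t := by fun_prop
    exact (ContinuousAt.comp (f := fun t : ℝ => (σ : ℂ) + t * Complex.I)
      (differentiableAt_riemannZeta hne).continuousAt h2).continuousWithinAt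
  obtain ⟨B, hB⟩ := isCompact_Icc.exists_bound_of_continuousOn hcont
  have hB0 : 0 ≤ B := le_trans (norm_nonneg _) (hB 1 ⟨le_refl _, by linarith⟩)
  refine ⟨max 1 ((B + (2 * T0 + 1)) ^ A * T0), le_max_left _ _, ?_⟩
  intro T hT1 hT2
  refine le_trans ?_ (le_max_right _ _)
  have hYpos : 0 < T ^ (1 / 20 : ℝ) := Real.rpow_pos_of_pos (by linarith) _
  have hYle : T ^ (1 / 20 : ℝ) ≤ T0 := by
    refine le_trans ?_ hT2
    calc T ^ (1 / 20 : ℝ) ≤ T ^ (1 : ℝ) :=
          Real.rpow_le_rpow_of_exponent_le hT1 (by norm_num)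
      _ = T := Real.rpow_one T
  have hpt : ∀ t ∈ Set.uIoc T (2 * T), ‖‖riemannZeta (σ + t * Complex.I) -
      Zs (T ^ (1 / 20 : ℝ)) (σ + t * Complex.I)‖ ^ A‖ ≤ (B + (2 * T0 + 1)) ^ A := by
    intro t ht
    rw [Set.uIoc_of_le (by linarith)] at ht
    rw [Real.norm_of_nonneg (by positivity)]
    apply Real.rpow_le_rpow (norm_nonneg _) _ hA
    refine le_trans (norm_sub_le _ _) (add_le_add (hB t ⟨by linarith [ht.1], by linarith [ht.2]⟩) ?_)
    refine le_trans (Zs_norm_le hYpos hσ t) ?_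
    linarith
  have h := intervalIntegral.norm_integral_le_of_norm_le_const hpt
  rw [Real.norm_eq_abs] at h
  refine le_trans (le_abs_self _) (le_trans h ?_)
  apply mul_le_mul_of_nonneg_left _ (by positivity)
  rw [abs_of_nonneg (by linarith)]
  linarith

lemma sg_ge {δ A : ℝ} (hδ : δ ≤ 1 / 10) (hA : 4 ≤ A) : 1 / 2 ≤ sg δ A := by
  have hA0 : 0 < A := by linarith
  have h : sg δ A = 1 / 2 + (1 - δ) * (A - 4) / (4 * A) := by
    unfold sg
    field_simp
    ring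
  rw [h]
  have : 0 ≤ (1 - δ) * (A - 4) / (4 * A) := by
    apply div_nonneg (mul_nonneg (by linarith) (by linarith)) (by linarith)
  linarith

/-- telescoping -/
lemma telescope {Y : ℝ} (hY : 0 < Y) {σ : ℝ} (hσ : 0 < σ) (t : ℝ) (J : ℕ) :
    ‖Zs (2 ^ J * Y) (σ + t * Complex.I) - Zs Y (σ + t * Complex.I)‖ ≤
      ∑ j ∈ Finset.range J, (2 ^ (j + 1) * Y) ^ (-σ) *
        ‖Bl (fun x => psi x * x ^ (-σ)) (2 ^ (j + 1) * Y) t‖ := by
  have h := Finset.sum_range_sub (fun j : ℕ => Zs (2 ^ j * Y) (σ + t * Complex.I)) J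
  rw [pow_zero, one_mul] at h
  rw [← h]
  refine le_trans (norm_sum_le _ _) (Finset.sum_le_sum ?_)
  intro j _
  have hN : 0 < 2 ^ (j + 1) * Y := by positivity
  have e : 2 ^ j * Y = (2 ^ (j + 1) * Y) / 2 := by
    rw [pow_succ]
    ring
  rw [e, Zs_sub hN σ t hσ, norm_mul, Complex.norm_real,
    Real.norm_of_nonneg (Real.rpow_nonneg hN.le _)]

/-- power mean -/
lemma power_mean {A : ℝ} (hA : 1 ≤ A) (J : ℕ) (x : ℕ → ℝ) (hx : ∀ j, 0 ≤ x j) (E : ℝ) (hE : 0 ≤ E) :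
    (E + ∑ j ∈ Finset.range J, x j) ^ A ≤
      ((J : ℝ) + 1) ^ (A - 1) * (E ^ A + ∑ j ∈ Finset.range J, x j ^ A) := by
  have h := Real.rpow_sum_le_const_mul_sum_rpow_of_nonneg (Finset.range (J + 1))
    (f := fun i => if i = 0 then E else x (i - 1)) hA (by
      intro i _
      split_ifs
      · exact hE
      · exact hx _)
  rw [Finset.sum_range_succ', Finset.sum_range_succ', Finset.card_range] at h
  simp only [Nat.add_eq_zero_iff, one_ne_zero, and_false, if_false, if_true, Nat.add_sub_cancel] at h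
  push_cast at h
  rw [add_comm E, add_comm (E ^ A)]
  exact h

/-- one piece -/
lemma piece {A σ s g T Y N C ε : ℝ} (w : ℝ → ℝ) (hA : 4 ≤ A) (hC : 0 ≤ C) (hs : σ = s + g)
    (hg : 0 ≤ g) (hT : 1 ≤ T) (hY : Y = T ^ (1 / 20 : ℝ)) (hN : Y ≤ N)
    (h : ∫ t in T..(2 * T), ‖Bl w N t‖ ^ A ≤ C * T ^ (1 + 20 * ε) * N ^ (A * s)) :
    ∫ t in T..(2 * T), (N ^ (-σ) * ‖Bl w N t‖) ^ A ≤ C * T ^ (1 + 20 * ε - g / 5) := by
  have hT0 : 0 < T := by linarith
  have hY1 : 1 ≤ Y := by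
    rw [hY]
    exact Real.one_le_rpow hT (by norm_num)
  have hN0 : 0 < N := by linarith
  have hN1 : 1 ≤ N := by linarith
  have e1 : ∀ t : ℝ, (N ^ (-σ) * ‖Bl w N t‖) ^ A = N ^ (-σ * A) * ‖Bl w N t‖ ^ A := by
    intro t
    rw [Real.mul_rpow (Real.rpow_nonneg hN0.le _) (norm_nonneg _), ← Real.rpow_mul hN0.le]
  simp_rw [e1]
  rw [intervalIntegral.integral_const_mul]
  have h1 : N ^ (-σ * A) * ∫ t in T..(2 * T), ‖Bl w N t‖ ^ A ≤
      N ^ (-σ * A) * (C * T ^ (1 + 20 * ε) * N ^ (A * s)) :=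
    mul_le_mul_of_nonneg_left h (Real.rpow_nonneg hN0.le _)
  refine le_trans h1 ?_
  have e2 : N ^ (-σ * A) * (C * T ^ (1 + 20 * ε) * N ^ (A * s)) =
      C * T ^ (1 + 20 * ε) * N ^ (-(A * g)) := by
    have : -(A * g) = -σ * A + A * s := by rw [hs]; ring
    rw [this, Real.rpow_add hN0]
    ring
  rw [e2]
  have h3 : N ^ (-(A * g)) ≤ T ^ (-(g / 5)) := by
    calc N ^ (-(A * g)) ≤ N ^ (-(4 * g)) :=
          Real.rpow_le_rpow_of_exponent_le hN1 (by nlinarith)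
      _ ≤ Y ^ (-(4 * g)) := by
          apply Real.rpow_le_rpow_of_nonpos (by linarith) hN (by linarith)
      _ = T ^ (-(g / 5)) := by
          rw [hY, ← Real.rpow_mul hT0.le]
          congr 1
          ring
  have e3 : T ^ (1 + 20 * ε - g / 5) = T ^ (1 + 20 * ε) * T ^ (-(g / 5)) := by
    rw [← Real.rpow_add hT0]
    congr 1
  rw [e3, ← mul_assoc]
  exact mul_le_mul_of_nonneg_left h3 (by positivity)

end Zd_aux

theorem iZd (hZe : StZe) (hCA : StCA) (hBc : StBc) : StZd := by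
  obtain ⟨δ, hδ0, hδ1, hCA⟩ := hCA
  refine ⟨δ, hδ0, hδ1, ?_⟩
  intro A hA4 hA8 σ hσ1 hσ2
  have hsg : 1 / 2 ≤ sg δ A := Zd_aux.sg_ge hδ1 hA4
  have hσ0 : 0 < σ := by linarith
  obtain ⟨g, hg⟩ : ∃ g : ℝ, g = σ - sg δ A := ⟨_, rfl⟩
  have hg0 : 0 < g := by rw [hg]; linarith
  have hg1 : g < 1 / 2 := by rw [hg]; linarith
  have hsgm : σ = sg δ A + g := by rw [hg]; ring
  obtain ⟨ε, hε⟩ : ∃ ε : ℝ, ε = g / 800 := ⟨_, rfl⟩
  have hε0 : 0 < ε := by rw [hε]; positivity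
  have hε1 : ε < 1 / 1600 := by rw [hε]; linarith
  obtain ⟨CZ, hCZ1, hZ⟩ := hZe ε σ hε0 (by linarith) (by linarith) hσ2
  have hw : IsWt (fun x => psi x * x ^ (-σ)) := isWt_psi_rpow (-σ)
  obtain ⟨-, hcont, -, -⟩ := hBc _ hw
  obtain ⟨CB, hCB1, hB⟩ := hCA A hA4 hA8 _ hw (2 * ε) (by linarith) (by linarith)
  have hT0 : (1 : ℝ) ≤ 2 ^ (1 / ε) := Real.one_le_rpow (by norm_num) (by positivity)
  obtain ⟨CS, hCS1, hS⟩ := Zd_aux.small A σ (2 ^ (1 / ε)) hσ0 (by linarith) hT0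
  obtain ⟨κ, hκ⟩ : ∃ κ : ℝ, κ = g / 400 := ⟨_, rfl⟩
  have hκ0 : 0 < κ := by rw [hκ]; positivity
  obtain ⟨D, hD⟩ : ∃ D : ℝ, D = 2 + 4 / κ := ⟨_, rfl⟩
  have hD1 : 1 ≤ D := by
    rw [hD]
    have : 0 ≤ 4 / κ := by positivity
    linarith
  refine ⟨g / 10, max CS (D ^ A * (CB + CZ ^ A)), by positivity, le_trans hCS1 (le_max_left _ _), ?_⟩
  intro T hT1
  have hTpos : 0 < T := by linarith
  have hTη : 1 ≤ T ^ (1 - g / 10) := Real.one_le_rpow hT1 (by linarith)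
  by_cases hsm : T ≤ 2 ^ (1 / ε)
  · refine le_trans (hS T hT1 hsm) ?_
    calc CS ≤ max CS (D ^ A * (CB + CZ ^ A)) := le_max_left _ _
      _ = max CS (D ^ A * (CB + CZ ^ A)) * 1 := (mul_one _).symm
      _ ≤ _ := mul_le_mul_of_nonneg_left hTη (le_trans (by linarith) (le_max_left _ _))
  · rw [not_le] at hsm
    have hTε : 2 ≤ T ^ ε := by
      have h1 : ((2 : ℝ) ^ (1 / ε)) ^ ε ≤ T ^ ε :=
        Real.rpow_le_rpow (by positivity) hsm.le hε0.le
      rwa [← Real.rpow_mul (by norm_num), one_div_mul_cancel hε0.ne', Real.rpow_one] at h1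
    refine le_trans ?_ (mul_le_mul_of_nonneg_right (le_max_right _ _) (by positivity))
    obtain ⟨Y, hY⟩ : ∃ Y : ℝ, Y = T ^ (1 / 20 : ℝ) := ⟨_, rfl⟩
    have hY1 : 1 ≤ Y := by
      rw [hY]
      exact Real.one_le_rpow hT1 (by norm_num)
    have hYZ : Y ≤ T ^ (1 + ε) := by
      rw [hY]
      exact Real.rpow_le_rpow_of_exponent_le hT1 (by linarith)
    obtain ⟨J, hJ1, hJ2, hJ3⟩ := Zd_aux.exJ Y (T ^ (1 + ε)) hY1 hYZ
    have hX2 : 2 ^ J * Y ≤ T ^ (1 + 2 * ε) := by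
      refine le_trans hJ2 ?_
      have e : T ^ (1 + 2 * ε) = T ^ ε * T ^ (1 + ε) := by
        rw [← Real.rpow_add hTpos]
        congr 1
        ring
      rw [e]
      exact mul_le_mul_of_nonneg_right hTε (by positivity)
    have hX3 : 2 ^ J * Y ≤ T ^ (3 : ℝ) :=
      le_trans hX2 (Real.rpow_le_rpow_of_exponent_le hT1 (by linarith))
    -- number of pieces
    have hJD : (J : ℝ) + 1 ≤ D * T ^ κ := by
      have h1 : Real.log (T ^ (1 + ε)) ≤ 2 * Real.log T := by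
        rw [Real.log_rpow hTpos]
        exact mul_le_mul_of_nonneg_right (by linarith) (Real.log_nonneg hT1)
      have h2 : Real.log T ≤ T ^ κ / κ := Real.log_le_rpow_div hTpos.le hκ0
      have h3 : 1 ≤ T ^ κ := Real.one_le_rpow hT1 hκ0.le
      have h4 : D * T ^ κ = 2 * T ^ κ + 4 * (T ^ κ / κ) := by
        rw [hD]
        ring
      rw [h4]
      linarith
    have hE0 : 0 ≤ CZ / Real.sqrt T := by positivity
    -- pointwise bound
    have hpt : ∀ t : ℝ, T ≤ t → t ≤ 2 * T → ‖riemannZeta (σ + t * Complex.I) -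
        Zs (T ^ (1 / 20 : ℝ)) (σ + t * Complex.I)‖ ^ A ≤
        ((J : ℝ) + 1) ^ (A - 1) * ((CZ / Real.sqrt T) ^ A + ∑ j ∈ Finset.range J,
          ((2 ^ (j + 1) * Y) ^ (-σ) *
            ‖Bl (fun x => psi x * x ^ (-σ)) (2 ^ (j + 1) * Y) t‖) ^ A) := by
      intro t ht1 ht2
      have h1 : ‖riemannZeta (σ + t * Complex.I) - Zs (T ^ (1 / 20 : ℝ)) (σ + t * Complex.I)‖ ≤
          CZ / Real.sqrt T + ∑ j ∈ Finset.range J, (2 ^ (j + 1) * Y) ^ (-σ) *
            ‖Bl (fun x => psi x * x ^ (-σ)) (2 ^ (j + 1) * Y) t‖ := by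
        rw [← hY]
        have e : riemannZeta (σ + t * Complex.I) - Zs Y (σ + t * Complex.I) =
            (riemannZeta (σ + t * Complex.I) - Zs (2 ^ J * Y) (σ + t * Complex.I)) +
              (Zs (2 ^ J * Y) (σ + t * Complex.I) - Zs Y (σ + t * Complex.I)) := by ring
        rw [e]
        refine le_trans (norm_add_le _ _) (add_le_add ?_ ?_)
        · exact hZ T t (2 ^ J * Y) hT1 ht1 ht2 hJ1 (by exact_mod_cast hX3)
        · exact Zd_aux.telescope (by linarith) hσ0 t J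
      refine le_trans (Real.rpow_le_rpow (norm_nonneg _) h1 (by linarith)) ?_
      exact Zd_aux.power_mean (by linarith) J _ (fun j => by positivity) _ hE0
    -- integration
    have hint : ∀ j ∈ Finset.range J, IntervalIntegrable (fun t : ℝ =>
        ((2 ^ (j + 1) * Y) ^ (-σ) * ‖Bl (fun x => psi x * x ^ (-σ)) (2 ^ (j + 1) * Y) t‖) ^ A)
        volume T (2 * T) := by
      intro j _
      apply Continuous.intervalIntegrable
      apply Continuous.rpow_const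
      · exact continuous_const.mul (hcont _ (by positivity)).norm
      · intro t
        right
        linarith
    have hintS : IntervalIntegrable (fun t : ℝ => ∑ j ∈ Finset.range J,
        ((2 ^ (j + 1) * Y) ^ (-σ) *
          ‖Bl (fun x => psi x * x ^ (-σ)) (2 ^ (j + 1) * Y) t‖) ^ A) volume T (2 * T) := by
      have := IntervalIntegrable.sum (Finset.range J) hint
      refine this.congr ?_
      intro t _
      simp only [Finset.sum_apply]
    have hintc : IntervalIntegrable (fun _ : ℝ => (CZ / Real.sqrt T) ^ A) volume T (2 * T) :=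
      intervalIntegrable_const
    have h2 : ∫ t in T..(2 * T), ‖riemannZeta (σ + t * Complex.I) -
        Zs (T ^ (1 / 20 : ℝ)) (σ + t * Complex.I)‖ ^ A ≤
        ∫ t in T..(2 * T), ((J : ℝ) + 1) ^ (A - 1) * ((CZ / Real.sqrt T) ^ A +
          ∑ j ∈ Finset.range J, ((2 ^ (j + 1) * Y) ^ (-σ) *
            ‖Bl (fun x => psi x * x ^ (-σ)) (2 ^ (j + 1) * Y) t‖) ^ A) := by
      rw [intervalIntegral.integral_of_le (by linarith), intervalIntegral.integral_of_le (by linarith)]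
      apply integral_mono_of_nonneg
      · exact Eventually.of_forall (fun t => by positivity)
      · have := (hintc.add hintS).const_mul (((J : ℝ) + 1) ^ (A - 1))
        rw [intervalIntegrable_iff_integrableOn_Ioc_of_le (by linarith)] at this
        exact this
      · filter_upwards [ae_restrict_mem measurableSet_Ioc] with t ht
        exact hpt t ht.1.le ht.2
    refine le_trans h2 ?_
    rw [intervalIntegral.integral_const_mul, intervalIntegral.integral_add hintc hintS,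
      intervalIntegral.integral_finset_sum hint, intervalIntegral.integral_const, smul_eq_mul]
    have hlen : 2 * T - T = T := by ring
    rw [hlen]
    -- the pieces
    have h3 : ∀ j ∈ Finset.range J, ∫ t in T..(2 * T), ((2 ^ (j + 1) * Y) ^ (-σ) *
        ‖Bl (fun x => psi x * x ^ (-σ)) (2 ^ (j + 1) * Y) t‖) ^ A ≤
        CB * T ^ (1 + 20 * ε - g / 5) := by
      intro j hj
      rw [Finset.mem_range] at hj
      have hp1 : (1 : ℝ) ≤ 2 ^ (j + 1) := one_le_pow₀ (by norm_num)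
      have hYN : Y ≤ 2 ^ (j + 1) * Y := by nlinarith
      have hN2 : 2 ^ (j + 1) * Y ≤ T ^ (1 + 2 * ε) := by
        refine le_trans ?_ hX2
        apply mul_le_mul_of_nonneg_right _ (by linarith)
        exact pow_le_pow_right₀ (by norm_num) hj
      have h4 := hB T (2 ^ (j + 1) * Y) hT1 (by linarith) hN2
      have e : 1 + 10 * (2 * ε) = 1 + 20 * ε := by ring
      rw [e] at h4
      exact Zd_aux.piece _ hA4 (by linarith) hsgm hg0.le hT1 hY hYN h4
    have h5 : ∑ j ∈ Finset.range J, ∫ t in T..(2 * T), ((2 ^ (j + 1) * Y) ^ (-σ) *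
        ‖Bl (fun x => psi x * x ^ (-σ)) (2 ^ (j + 1) * Y) t‖) ^ A ≤
        (J : ℝ) * (CB * T ^ (1 + 20 * ε - g / 5)) := by
      refine le_trans (Finset.sum_le_sum h3) ?_
      rw [Finset.sum_const, Finset.card_range, nsmul_eq_mul]
    -- the error
    have h6 : T * (CZ / Real.sqrt T) ^ A ≤ CZ ^ A * T ^ (1 + 20 * ε - g / 5) := by
      rw [Real.div_rpow (by linarith) (Real.sqrt_nonneg _), Real.sqrt_eq_rpow,
        ← Real.rpow_mul hTpos.le]
      have e : T * (CZ ^ A / T ^ (1 / 2 * A)) = CZ ^ A * T ^ (1 - 1 / 2 * A) := by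
        rw [Real.rpow_sub hTpos, Real.rpow_one]
        ring
      rw [e]
      apply mul_le_mul_of_nonneg_left _ (by positivity)
      apply Real.rpow_le_rpow_of_exponent_le hT1
      linarith
    have h7 : T * (CZ / Real.sqrt T) ^ A + ∑ j ∈ Finset.range J, ∫ t in T..(2 * T),
        ((2 ^ (j + 1) * Y) ^ (-σ) *
          ‖Bl (fun x => psi x * x ^ (-σ)) (2 ^ (j + 1) * Y) t‖) ^ A ≤
        ((J : ℝ) + 1) * ((CB + CZ ^ A) * T ^ (1 + 20 * ε - g / 5)) := by
      refine le_trans (add_le_add h6 h5) ?_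
      have hP : 0 ≤ T ^ (1 + 20 * ε - g / 5) := by positivity
      have hq : 0 ≤ CZ ^ A := by positivity
      have hJ0 : (0 : ℝ) ≤ J := Nat.cast_nonneg J
      have hCBP : 0 ≤ CB * T ^ (1 + 20 * ε - g / 5) := by positivity
      have hqP : 0 ≤ (J : ℝ) * (CZ ^ A * T ^ (1 + 20 * ε - g / 5)) := by positivity
      nlinarith
    refine le_trans (mul_le_mul_of_nonneg_left h7 (by positivity)) ?_
    have hJp : 0 < (J : ℝ) + 1 := by positivity
    have e4 : ((J : ℝ) + 1) ^ (A - 1) * (((J : ℝ) + 1) *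
        ((CB + CZ ^ A) * T ^ (1 + 20 * ε - g / 5))) =
        ((J : ℝ) + 1) ^ A * ((CB + CZ ^ A) * T ^ (1 + 20 * ε - g / 5)) := by
      rw [← mul_assoc, ← Real.rpow_add_one hJp.ne']
      congr 2
      ring
    rw [e4]
    have h8 : ((J : ℝ) + 1) ^ A ≤ D ^ A * T ^ (κ * A) := by
      refine le_trans (Real.rpow_le_rpow hJp.le hJD (by linarith)) ?_
      rw [Real.mul_rpow (by linarith) (by positivity), ← Real.rpow_mul hTpos.le]
    have hCC : 0 ≤ CB + CZ ^ A := by positivity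
    refine le_trans (mul_le_mul_of_nonneg_right h8 (by positivity)) ?_
    have e5 : D ^ A * T ^ (κ * A) * ((CB + CZ ^ A) * T ^ (1 + 20 * ε - g / 5)) =
        D ^ A * (CB + CZ ^ A) * T ^ (κ * A + (1 + 20 * ε - g / 5)) := by
      rw [Real.rpow_add hTpos]
      ring
    rw [e5]
    apply mul_le_mul_of_nonneg_left _ (by positivity)
    apply Real.rpow_le_rpow_of_exponent_le hT1
    rw [hκ, hε]
    nlinarith

end Pool.Agent.Work.MP_56b8f5_nt.UC
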