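import Mathlib
import Pool.Agent.Work.MP_56b8f5_nt.UC.Stmts
import Pool.Agent.Work.MP_56b8f5_nt.UC.I_Ow
import Pool.Agent.Work.MP_37bd4f_nt.ZetaApprox

/-!
MP_56b8f5_nt, block UC, item Ze: approximation of zeta by smooth sums.

The difference `a(X) = Zs X s - ζ(s)` satisfies `a(2X) - a(X) = (2X)^{-σ} Bl w (2X) t` (small by
Poisson summation) and, by Abel summation and Euler-Maclaurin, `a(2X) - 2^{1-s} a(X) = O(|s| X^{-σ})`.
So `(2^{1-s} - 1) a(X)` is small when `X ≥ T^3`; the first relation carries this down to `T^{1+ε}`.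
-/

open MeasureTheory Set Filter Topology

noncomputable section

namespace Pool.Agent.Work.MP_56b8f5_nt.UC

open Pool.Agent.Work.MP_56b8f5_nt.UB (ee om)
open Pool.Agent.Work.MP_37bd4f_nt (zterm zterm_norm_le' zeta₁_approx zeta₁_norm_le)

namespace Ze_aux

lemma eta_anti : Antitone eta := by
  intro x y h
  exact Real.smoothTransition.monotone (by linarith : (2 : ℝ) - y ≤ 2 - x)

/-- partial sums -/
def SM (s : ℂ) (M : ℕ) : ℂ := ∑ n ∈ Finset.Icc 1 M, (n : ℂ) ^ (-s)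

lemma SM_succ (s : ℂ) (M : ℕ) : SM s (M + 1) = SM s M + ((M + 1 : ℕ) : ℂ) ^ (-s) := by
  unfold SM
  rw [Finset.sum_Icc_succ_top (by omega)]

lemma abel (f : ℕ → ℝ) {s : ℂ} (hs : s ≠ 0) (K : ℕ) :
    ∑ n ∈ Finset.range (K + 1), ((f n : ℝ) : ℂ) * (n : ℂ) ^ (-s) =
      ((f K : ℝ) : ℂ) * SM s K + ∑ M ∈ Finset.range K, ((f M - f (M + 1) : ℝ) : ℂ) * SM s M := by
  induction K with
  | zero =>
    simp [SM, Complex.zero_cpow (neg_ne_zero.2 hs)]
  | succ K ih =>
    rw [Finset.sum_range_succ, ih, Finset.sum_range_succ _ K, SM_succ]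
    push_cast
    ring

/-- the differences of the weight -/
def dl (X : ℝ) (M : ℕ) : ℝ := eta ((M : ℝ) / X) - eta (((M + 1 : ℕ) : ℝ) / X)

lemma dl_nonneg {X : ℝ} (hX : 0 < X) (M : ℕ) : 0 ≤ dl X M := by
  unfold dl
  have : eta (((M + 1 : ℕ) : ℝ) / X) ≤ eta ((M : ℝ) / X) := by
    apply eta_anti
    push_cast
    gcongr
    linarith
  linarith

lemma dl_zero {X : ℝ} (hX : 0 < X) {M : ℕ} (h : ((M + 1 : ℕ) : ℝ) ≤ X) : dl X M = 0 := by
  unfold dl
  have h1 : ((M + 1 : ℕ) : ℝ) / X ≤ 1 := by rw [div_le_one hX]; exact h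
  have h2 : (M : ℝ) / X ≤ 1 := by
    rw [div_le_one hX]
    push_cast at h
    linarith
  rw [eta_eq_one h1, eta_eq_one h2, sub_self]

lemma dl_two {X : ℝ} (hX : 0 < X) (M : ℕ) :
    dl X M = dl (2 * X) (2 * M) + dl (2 * X) (2 * M + 1) := by
  unfold dl
  have h1 : ((2 * M : ℕ) : ℝ) / (2 * X) = (M : ℝ) / X := by
    push_cast; field_simp
  have h2 : ((2 * M + 1 + 1 : ℕ) : ℝ) / (2 * X) = ((M + 1 : ℕ) : ℝ) / X := by
    push_cast; field_simp; ring
  rw [h1, h2]
  ring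

lemma sum_dl {X : ℝ} (hX : 0 < X) {K : ℕ} (hK : 2 * X ≤ K) :
    ∑ M ∈ Finset.range K, dl X M = 1 := by
  unfold dl
  rw [Finset.sum_range_sub' (fun M : ℕ => eta ((M : ℝ) / X)) K]
  have h1 : eta ((K : ℝ) / X) = 0 := eta_eq_zero (by rw [le_div_iff₀ hX]; exact hK)
  have h2 : eta (((0 : ℕ) : ℝ) / X) = 1 := eta_eq_one (by simp)
  rw [h1, h2, sub_zero]

lemma Zs_eq_sum {X : ℝ} (hX : 0 < X) (s : ℂ) {K : ℕ} (hK : 2 * X ≤ K) :
    Zs X s = ∑ n ∈ Finset.range (K + 1), ((eta ((n : ℝ) / X) : ℝ) : ℂ) * (n : ℂ) ^ (-s) := by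
  unfold Zs
  refine tsum_eq_sum (fun n hn => ?_)
  have h1 : K + 1 ≤ n := by
    rw [Finset.mem_range] at hn
    omega
  have h2 : (K : ℝ) + 1 ≤ n := by exact_mod_cast h1
  have h3 : eta ((n : ℝ) / X) = 0 := eta_eq_zero (by rw [le_div_iff₀ hX]; linarith)
  rw [h3]
  simp

lemma Zs_abel {X : ℝ} (hX : 0 < X) {s : ℂ} (hs : s ≠ 0) {K : ℕ} (hK : 2 * X ≤ K) :
    Zs X s = ∑ M ∈ Finset.range K, ((dl X M : ℝ) : ℂ) * SM s M := by
  rw [Zs_eq_sum hX s hK, abel (fun n : ℕ => eta ((n : ℝ) / X)) hs K]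
  have h1 : eta ((K : ℝ) / X) = 0 := eta_eq_zero (by rw [le_div_iff₀ hX]; exact hK)
  simp only [h1]
  unfold dl
  simp

/-- Euler-Maclaurin -/
lemma eM_le {s : ℂ} (hs : 0 < s.re) (h1 : s ≠ 1) {M : ℕ} (hM : 1 ≤ M) :
    ‖SM s M - riemannZeta s + (M : ℂ) ^ (1 - s) / (s - 1)‖ ≤ ‖s‖ / s.re * (M : ℝ) ^ (-s.re) := by
  have h := zeta₁_approx hs hM
  have hne : s - 1 ≠ 0 := sub_ne_zero.2 h1
  have hpos : 0 < ‖s - 1‖ := norm_pos_iff.2 hne
  have hz : riemannZeta₁ s = (s - 1) * riemannZeta s := by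
    rw [riemannZeta_eq_inv_sub_mul h1, ← mul_assoc, mul_inv_cancel₀ hne, one_mul]
  have e1 : riemannZeta₁ s - ((s - 1) * ∑ n ∈ Finset.Icc 1 M, (n : ℂ) ^ (-s) + (M : ℂ) ^ (1 - s)) =
      -((s - 1) * (SM s M - riemannZeta s + (M : ℂ) ^ (1 - s) / (s - 1))) := by
    rw [hz]
    unfold SM
    field_simp
    ring
  rw [e1, norm_neg, norm_mul] at h
  have h2 : ‖s - 1‖ * ‖SM s M - riemannZeta s + (M : ℂ) ^ (1 - s) / (s - 1)‖ ≤
      ‖s - 1‖ * (‖s‖ / s.re * (M : ℝ) ^ (-s.re)) := by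
    refine h.trans (le_of_eq ?_)
    ring
  exact le_of_mul_le_mul_left h2 hpos

/-- the main part -/
def bb (X : ℝ) (K : ℕ) (s : ℂ) : ℂ :=
  ∑ M ∈ Finset.range K, ((dl X M : ℝ) : ℂ) * (M : ℂ) ^ (1 - s)

/-- the remainder -/
def rr (X : ℝ) (K : ℕ) (s : ℂ) : ℂ :=
  ∑ M ∈ Finset.range K, ((dl X M : ℝ) : ℂ) *
    (SM s M - riemannZeta s + (M : ℂ) ^ (1 - s) / (s - 1))

lemma a_eq {X : ℝ} (hX : 0 < X) {s : ℂ} (hs : s ≠ 0) {K : ℕ} (hK : 2 * X ≤ K) :
    Zs X s - riemannZeta s = rr X K s - bb X K s / (s - 1) := by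
  have h1 : riemannZeta s = ∑ M ∈ Finset.range K, ((dl X M : ℝ) : ℂ) * riemannZeta s := by
    rw [← Finset.sum_mul, ← Complex.ofReal_sum, sum_dl hX hK]
    simp
  rw [Zs_abel hX hs hK]
  unfold rr bb
  rw [Finset.sum_div]
  conv_lhs => rw [h1]
  rw [← Finset.sum_sub_distrib, ← Finset.sum_sub_distrib]
  refine Finset.sum_congr rfl (fun M _ => ?_)
  ring

lemma rr_le {X : ℝ} (hX : 2 ≤ X) {s : ℂ} (hs : 0 < s.re) (h1 : s ≠ 1) {K : ℕ}
    (hK : 2 * X ≤ K) : ‖rr X K s‖ ≤ ‖s‖ / s.re * (X / 2) ^ (-s.re) := by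
  have hX0 : 0 < X := by linarith
  unfold rr
  calc ‖∑ M ∈ Finset.range K, ((dl X M : ℝ) : ℂ) *
        (SM s M - riemannZeta s + (M : ℂ) ^ (1 - s) / (s - 1))‖
      ≤ ∑ M ∈ Finset.range K, dl X M * (‖s‖ / s.re * (X / 2) ^ (-s.re)) := by
        refine (norm_sum_le _ _).trans (Finset.sum_le_sum (fun M _ => ?_))
        rw [norm_mul, Complex.norm_real, Real.norm_eq_abs, abs_of_nonneg (dl_nonneg hX0 M)]
        by_cases h : ((M + 1 : ℕ) : ℝ) ≤ X
        · rw [dl_zero hX0 h]; simp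
        · push_cast at h
          have h2 : X / 2 ≤ M := by linarith
          have h3 : 1 ≤ M := by
            have : (0 : ℝ) < M := by linarith
            exact_mod_cast this
          refine mul_le_mul_of_nonneg_left ((eM_le hs h1 h3).trans ?_) (dl_nonneg hX0 M)
          refine mul_le_mul_of_nonneg_left ?_ (by positivity)
          exact Real.rpow_le_rpow_of_nonpos (by linarith) h2 (by linarith)
    _ = ‖s‖ / s.re * (X / 2) ^ (-s.re) := by
        rw [← Finset.sum_mul, sum_dl hX0 hK, one_mul]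

lemma sum_range_two {E : Type*} [AddCommMonoid E] (f : ℕ → E) (K : ℕ) :
    ∑ i ∈ Finset.range (2 * K), f i = ∑ i ∈ Finset.range K, (f (2 * i) + f (2 * i + 1)) := by
  induction K with
  | zero => simp
  | succ K ih =>
    rw [show 2 * (K + 1) = 2 * K + 1 + 1 by ring, Finset.sum_range_succ, Finset.sum_range_succ, ih,
      Finset.sum_range_succ, add_assoc]

lemma bb_eq {X : ℝ} (hX : 0 < X) (s : ℂ) (K : ℕ) :
    bb (2 * X) (2 * K) s - (2 : ℂ) ^ (1 - s) * bb X K s =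
      ∑ M ∈ Finset.range K, ((dl (2 * X) (2 * M + 1) : ℝ) : ℂ) *
        (((2 * M + 1 : ℕ) : ℂ) ^ (1 - s) - ((2 * M : ℕ) : ℂ) ^ (1 - s)) := by
  unfold bb
  rw [sum_range_two, Finset.mul_sum, ← Finset.sum_sub_distrib]
  refine Finset.sum_congr rfl (fun M _ => ?_)
  have h1 : ((2 * M : ℕ) : ℂ) ^ (1 - s) = (2 : ℂ) ^ (1 - s) * (M : ℂ) ^ (1 - s) := by
    have := Complex.natCast_mul_natCast_cpow 2 M (1 - s)
    push_cast at this ⊢
    exact this
  rw [h1, dl_two hX M]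
  push_cast
  ring

lemma bb_le {X : ℝ} (hX : 2 ≤ X) {s : ℂ} (hs : 0 < s.re) {K : ℕ} (hK : 2 * X ≤ K) :
    ‖bb (2 * X) (2 * K) s - (2 : ℂ) ^ (1 - s) * bb X K s‖ ≤
      ‖s - 1‖ * ((‖s‖ + 1) * (X / 2) ^ (-s.re)) := by
  have hX0 : 0 < X := by linarith
  rw [bb_eq hX0 s K]
  calc ‖∑ M ∈ Finset.range K, ((dl (2 * X) (2 * M + 1) : ℝ) : ℂ) *
        (((2 * M + 1 : ℕ) : ℂ) ^ (1 - s) - ((2 * M : ℕ) : ℂ) ^ (1 - s))‖
      ≤ ∑ M ∈ Finset.range K, dl X M * (‖s - 1‖ * ((‖s‖ + 1) * (X / 2) ^ (-s.re))) := by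
        refine (norm_sum_le _ _).trans (Finset.sum_le_sum (fun M _ => ?_))
        rw [norm_mul, Complex.norm_real, Real.norm_eq_abs,
          abs_of_nonneg (dl_nonneg (by linarith) (2 * M + 1))]
        by_cases h : ((2 * M + 1 + 1 : ℕ) : ℝ) ≤ 2 * X
        · rw [dl_zero (by linarith) h, zero_mul]
          have := dl_nonneg hX0 M
          positivity
        · have hle : dl (2 * X) (2 * M + 1) ≤ dl X M := by
            rw [dl_two hX0 M]
            have := dl_nonneg (X := 2 * X) (by linarith) (2 * M)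
            linarith
          push_cast at h
          have h2 : X / 2 ≤ ((2 * M : ℕ) : ℝ) := by push_cast; linarith
          have h3 : 1 ≤ 2 * M := by
            have : (0 : ℝ) < ((2 * M : ℕ) : ℝ) := by linarith
            exact_mod_cast this
          have h30 : (1 : ℝ) ≤ ((2 * M : ℕ) : ℝ) := by exact_mod_cast h3
          have e : ((2 * M + 1 : ℕ) : ℂ) ^ (1 - s) - ((2 * M : ℕ) : ℂ) ^ (1 - s) =
              zterm (2 * M) s - (s - 1) * ((2 * M + 1 : ℕ) : ℂ) ^ (-s) := by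
            unfold zterm; ring
          have h4 : ‖((2 * M + 1 : ℕ) : ℂ) ^ (1 - s) - ((2 * M : ℕ) : ℂ) ^ (1 - s)‖ ≤
              ‖s - 1‖ * ((‖s‖ + 1) * (X / 2) ^ (-s.re)) := by
            rw [e]
            have h5 := zterm_norm_le' h3 hs
            have h6 : ‖((2 * M + 1 : ℕ) : ℂ) ^ (-s)‖ = ((2 * M + 1 : ℕ) : ℝ) ^ (-s.re) := by
              rw [Complex.norm_natCast_cpow_of_pos (by omega), Complex.neg_re]
            have h7 : ((2 * M : ℕ) : ℝ) ^ (-s.re - 1) ≤ (X / 2) ^ (-s.re) := by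
              calc ((2 * M : ℕ) : ℝ) ^ (-s.re - 1) ≤ ((2 * M : ℕ) : ℝ) ^ (-s.re) :=
                    Real.rpow_le_rpow_of_exponent_le h30 (by linarith)
                _ ≤ _ := Real.rpow_le_rpow_of_nonpos (by linarith) h2 (by linarith)
            have h8 : ((2 * M + 1 : ℕ) : ℝ) ^ (-s.re) ≤ (X / 2) ^ (-s.re) :=
              Real.rpow_le_rpow_of_nonpos (by linarith)
                (h2.trans (by push_cast; linarith)) (by linarith)
            calc ‖zterm (2 * M) s - (s - 1) * ((2 * M + 1 : ℕ) : ℂ) ^ (-s)‖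
                ≤ ‖zterm (2 * M) s‖ + ‖(s - 1) * ((2 * M + 1 : ℕ) : ℂ) ^ (-s)‖ := norm_sub_le _ _
              _ ≤ ‖s - 1‖ * ‖s‖ * ((2 * M : ℕ) : ℝ) ^ (-s.re - 1) +
                  ‖s - 1‖ * ((2 * M + 1 : ℕ) : ℝ) ^ (-s.re) := by
                  rw [norm_mul, h6]
                  exact add_le_add h5 le_rfl
              _ ≤ ‖s - 1‖ * ‖s‖ * (X / 2) ^ (-s.re) + ‖s - 1‖ * (X / 2) ^ (-s.re) := by
                  gcongr
              _ = _ := by ring
          exact mul_le_mul hle h4 (norm_nonneg _) (dl_nonneg hX0 M)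
    _ = _ := by
        rw [← Finset.sum_mul, sum_dl hX0 hK, one_mul]

/-- doubling -/
lemma doubling {X : ℝ} (hX : 2 ≤ X) {s : ℂ} (hs : 1 / 2 ≤ s.re) (h1 : s ≠ 1) :
    ‖(Zs (2 * X) s - riemannZeta s) - (2 : ℂ) ^ (1 - s) * (Zs X s - riemannZeta s)‖ ≤
      (7 * ‖s‖ + 1) * (X / 2) ^ (-s.re) := by
  have hX0 : 0 < X := by linarith
  have hs0 : 0 < s.re := by linarith
  have hsne : s ≠ 0 := by
    intro h
    rw [h] at hs0
    simp at hs0
  have hne : s - 1 ≠ 0 := sub_ne_zero.2 h1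
  have hpos : 0 < ‖s - 1‖ := norm_pos_iff.2 hne
  obtain ⟨K, hK⟩ := exists_nat_ge (2 * X)
  have hK2 : 2 * (2 * X) ≤ ((2 * K : ℕ) : ℝ) := by push_cast; linarith
  rw [a_eq hX0 hsne hK, a_eq (by linarith : (0 : ℝ) < 2 * X) hsne hK2]
  have e : (rr (2 * X) (2 * K) s - bb (2 * X) (2 * K) s / (s - 1)) -
      (2 : ℂ) ^ (1 - s) * (rr X K s - bb X K s / (s - 1)) =
      rr (2 * X) (2 * K) s - (2 : ℂ) ^ (1 - s) * rr X K s -
        (bb (2 * X) (2 * K) s - (2 : ℂ) ^ (1 - s) * bb X K s) / (s - 1) := by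
    ring
  rw [e]
  have hY : 0 ≤ (X / 2) ^ (-s.re) := Real.rpow_nonneg (by linarith) _
  have r1 : ‖rr (2 * X) (2 * K) s‖ ≤ 2 * ‖s‖ * (X / 2) ^ (-s.re) := by
    refine (rr_le (by linarith) hs0 h1 hK2).trans ?_
    have h2 : (2 * X / 2) ^ (-s.re) ≤ (X / 2) ^ (-s.re) :=
      Real.rpow_le_rpow_of_nonpos (by linarith) (by linarith) (by linarith)
    have h3 : ‖s‖ / s.re ≤ 2 * ‖s‖ := by
      rw [div_le_iff₀ hs0]
      nlinarith [norm_nonneg s]
    exact mul_le_mul h3 h2 (Real.rpow_nonneg (by linarith) _) (by positivity)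
  have r2 : ‖(2 : ℂ) ^ (1 - s) * rr X K s‖ ≤ 4 * ‖s‖ * (X / 2) ^ (-s.re) := by
    rw [norm_mul]
    have h2 : ‖(2 : ℂ) ^ (1 - s)‖ ≤ 2 := by
      have := Complex.norm_natCast_cpow_of_pos (n := 2) (by norm_num) (1 - s)
      push_cast at this
      rw [this]
      calc (2 : ℝ) ^ (1 - s).re ≤ (2 : ℝ) ^ (1 : ℝ) :=
            Real.rpow_le_rpow_of_exponent_le (by norm_num) (by simp; linarith)
        _ = 2 := Real.rpow_one _
    have h3 : ‖s‖ / s.re ≤ 2 * ‖s‖ := by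
      rw [div_le_iff₀ hs0]
      nlinarith [norm_nonneg s]
    calc ‖(2 : ℂ) ^ (1 - s)‖ * ‖rr X K s‖ ≤ 2 * (‖s‖ / s.re * (X / 2) ^ (-s.re)) :=
          mul_le_mul h2 (rr_le hX hs0 h1 hK) (norm_nonneg _) (by norm_num)
      _ ≤ 2 * (2 * ‖s‖ * (X / 2) ^ (-s.re)) := by gcongr
      _ = _ := by ring
  have r3 : ‖(bb (2 * X) (2 * K) s - (2 : ℂ) ^ (1 - s) * bb X K s) / (s - 1)‖ ≤
      (‖s‖ + 1) * (X / 2) ^ (-s.re) := by
    rw [norm_div, div_le_iff₀ hpos]
    refine (bb_le hX hs0 hK).trans (le_of_eq ?_)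
    ring
  calc _ ≤ ‖rr (2 * X) (2 * K) s - (2 : ℂ) ^ (1 - s) * rr X K s‖ +
        ‖(bb (2 * X) (2 * K) s - (2 : ℂ) ^ (1 - s) * bb X K s) / (s - 1)‖ := norm_sub_le _ _
    _ ≤ (‖rr (2 * X) (2 * K) s‖ + ‖(2 : ℂ) ^ (1 - s) * rr X K s‖) +
        ‖(bb (2 * X) (2 * K) s - (2 : ℂ) ^ (1 - s) * bb X K s) / (s - 1)‖ := by
        gcongr; exact norm_sub_le _ _
    _ ≤ (2 * ‖s‖ * (X / 2) ^ (-s.re) + 4 * ‖s‖ * (X / 2) ^ (-s.re)) +
        (‖s‖ + 1) * (X / 2) ^ (-s.re) := by gcongr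
    _ = _ := by ring

lemma two_sub_one_le {s : ℂ} : (2 : ℝ) ^ (1 - s.re) - 1 ≤ ‖(2 : ℂ) ^ (1 - s) - 1‖ := by
  have h1 : ‖(2 : ℂ) ^ (1 - s)‖ = (2 : ℝ) ^ (1 - s.re) := by
    have := Complex.norm_natCast_cpow_of_pos (n := 2) (by norm_num) (1 - s)
    push_cast at this
    rw [this]
    simp
  calc (2 : ℝ) ^ (1 - s.re) - 1 = ‖(2 : ℂ) ^ (1 - s)‖ - ‖(1 : ℂ)‖ := by rw [h1, norm_one]
    _ ≤ _ := norm_sub_norm_le _ _

/-- one point far out -/
lemma far {X B : ℝ} (hX : 2 ≤ X) {s : ℂ} (hs : 1 / 2 ≤ s.re) (h1 : s.re < 1) (hne : s ≠ 1)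
    (hB : ‖Zs (2 * X) s - Zs X s‖ ≤ B) :
    ‖Zs X s - riemannZeta s‖ ≤
      (B + (7 * ‖s‖ + 1) * (X / 2) ^ (-s.re)) / ((2 : ℝ) ^ (1 - s.re) - 1) := by
  have hc : 0 < (2 : ℝ) ^ (1 - s.re) - 1 := by
    have : (1 : ℝ) < (2 : ℝ) ^ (1 - s.re) := Real.one_lt_rpow (by norm_num) (by linarith)
    linarith
  rw [le_div_iff₀ hc]
  have e : ((2 : ℂ) ^ (1 - s) - 1) * (Zs X s - riemannZeta s) =
      (Zs (2 * X) s - Zs X s) -
      ((Zs (2 * X) s - riemannZeta s) - (2 : ℂ) ^ (1 - s) * (Zs X s - riemannZeta s)) := by ring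
  calc ‖Zs X s - riemannZeta s‖ * ((2 : ℝ) ^ (1 - s.re) - 1)
      ≤ ‖Zs X s - riemannZeta s‖ * ‖(2 : ℂ) ^ (1 - s) - 1‖ :=
        mul_le_mul_of_nonneg_left two_sub_one_le (norm_nonneg _)
    _ = ‖((2 : ℂ) ^ (1 - s) - 1) * (Zs X s - riemannZeta s)‖ := by rw [norm_mul, mul_comm]
    _ ≤ ‖Zs (2 * X) s - Zs X s‖ +
      ‖(Zs (2 * X) s - riemannZeta s) - (2 : ℂ) ^ (1 - s) * (Zs X s - riemannZeta s)‖ := by
        rw [e]; exact norm_sub_le _ _
    _ ≤ _ := add_le_add hB (doubling hX hs hne)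

/-- the difference of two smooth sums is a block -/
lemma Zs_sub {X : ℝ} (hX : 0 < X) (σ t : ℝ) (hσ : σ ≠ 0) :
    Zs (2 * X) (σ + t * Complex.I) - Zs X (σ + t * Complex.I) =
      (((2 * X) ^ (-σ) : ℝ) : ℂ) * Bl (fun x => psi x * x ^ (-σ)) (2 * X) t := by
  obtain ⟨K, hK⟩ := exists_nat_ge (2 * (2 * X))
  have hX2 : 0 < 2 * X := by linarith
  have hs : (σ : ℂ) + t * Complex.I ≠ 0 := by
    intro h
    have := congrArg Complex.re h
    simp at this
    exact hσ this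
  rw [Zs_eq_sum hX2 _ hK, Zs_eq_sum hX _ (by linarith : 2 * X ≤ K), ← Finset.sum_sub_distrib]
  have hBl : Bl (fun x => psi x * x ^ (-σ)) (2 * X) t =
      ∑ n ∈ Finset.range (K + 1),
        (((fun x : ℝ => psi x * x ^ (-σ)) ((n : ℝ) / (2 * X)) : ℝ) : ℂ) *
          (n : ℂ) ^ (-(t * Complex.I)) := by
    unfold Bl
    refine tsum_eq_sum (fun n hn => ?_)
    have h1 : K + 1 ≤ n := by
      rw [Finset.mem_range] at hn
      omega
    have h2 : (K : ℝ) + 1 ≤ n := by exact_mod_cast h1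
    have h3 : psi ((n : ℝ) / (2 * X)) = 0 := by
      by_contra h
      have := (psi_supp h).2
      rw [div_le_iff₀ hX2] at this
      linarith
    simp only [h3, zero_mul, Complex.ofReal_zero]
  rw [hBl, Finset.mul_sum]
  refine Finset.sum_congr rfl (fun n _ => ?_)
  rcases Nat.eq_zero_or_pos n with hn | hn
  · subst hn
    have h0 : psi (((0 : ℕ) : ℝ) / (2 * X)) = 0 := by
      unfold psi
      simp
    beta_reduce
    rw [h0]
    simp [Complex.zero_cpow (neg_ne_zero.2 hs), eta_eq_one]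
  · have hn0 : (0 : ℝ) < n := by exact_mod_cast hn
    have hnc : (n : ℂ) ≠ 0 := by exact_mod_cast hn.ne'
    have e1 : psi ((n : ℝ) / (2 * X)) = eta ((n : ℝ) / (2 * X)) - eta ((n : ℝ) / X) := by
      unfold psi
      congr 2
      field_simp
    have e2 : (n : ℂ) ^ (-((σ : ℂ) + t * Complex.I)) =
        (((n : ℝ) ^ (-σ) : ℝ) : ℂ) * (n : ℂ) ^ (-(t * Complex.I)) := by
      rw [Complex.ofReal_cpow hn0.le, neg_add, Complex.cpow_add _ _ hnc]
      push_cast
      rfl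
    have e3 : ((n : ℝ) / (2 * X)) ^ (-σ) * (2 * X) ^ (-σ) = (n : ℝ) ^ (-σ) := by
      rw [← Real.mul_rpow (by positivity) hX2.le]
      congr 1
      field_simp
    beta_reduce
    rw [e1, e2, ← e3]
    push_cast
    ring

/-- blocks beyond the stationary range are small -/
lemma block_small (hNs : StNs) (hN0 : StN0) (hPo : StPo) {w : ℝ → ℝ} (hw : IsWt w) (A : ℕ) :
    ∃ c2 C : ℝ, 1 ≤ c2 ∧ 1 ≤ C ∧ ∀ N t : ℝ, 0 < N → c2 * |t| < N →
      ‖Bl w N t‖ ≤ C * N / (1 + |t|) ^ A + C / N := by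
  obtain ⟨c1, c2, C1, hc1, hc12, hC1, h1⟩ := hNs w hw
  obtain ⟨C0, hC0, h0⟩ := hN0 w hw A
  set Z2 : ℝ := ∑' m : ℤ, 1 / (m : ℝ) ^ 2 with hZ2
  have hsum : Summable fun m : ℤ => 1 / (m : ℝ) ^ 2 := Real.summable_one_div_int_pow.2 (by norm_num)
  have hZ2n : 0 ≤ Z2 := tsum_nonneg (fun m => by positivity)
  refine ⟨max c2 1, C0 + C1 * Z2, le_max_right _ _, ?_, ?_⟩
  · have : 0 ≤ C1 * Z2 := by positivity
    linarith
  intro N t hN hNt
  have hc2t : c2 * |t| < N := lt_of_le_of_lt (by gcongr; exact le_max_left _ _) hNt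
  obtain ⟨hs, hB⟩ := hPo w hw N t hN
  set g : ℤ → ℝ := fun m => (if m = 0 then C0 * N / (1 + |t|) ^ A else 0) +
    C1 / N * (1 / (m : ℝ) ^ 2) with hg
  have hterm : ∀ m : ℤ, ‖Im w N t m‖ ≤ g m := by
    intro m
    by_cases hm : m = 0
    · subst hm
      simp only [hg]
      simpa using h0 N t hN
    · simp only [hg, if_neg hm, zero_add]
      have hm1 : (1 : ℝ) ≤ |(m : ℝ)| := by
        have : 1 ≤ |m| := Int.one_le_abs hm
        calc (1 : ℝ) ≤ ((|m| : ℤ) : ℝ) := by exact_mod_cast this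
          _ = |(m : ℝ)| := by push_cast; rfl
      have hmN : N ≤ |(m : ℝ)| * N := by nlinarith
      refine (h1 N t m hN hm (fun h => ?_)).trans ?_
      · have := h.2.1
        linarith
      · have hm2 : (m : ℝ) ^ 2 = |(m : ℝ)| ^ 2 := (sq_abs _).symm
        have hpos : 0 < |(m : ℝ)| := by linarith
        rw [hm2]
        calc C1 * N / (|(m : ℝ)| * N + |t|) ^ 2 ≤ C1 * N / (|(m : ℝ)| * N) ^ 2 := by
              gcongr
              linarith [abs_nonneg t]
          _ = C1 / N * (1 / |(m : ℝ)| ^ 2) := by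
              field_simp
  have hgs1 : HasSum (fun m : ℤ => if m = 0 then C0 * N / (1 + |t|) ^ A else 0)
      (C0 * N / (1 + |t|) ^ A) := hasSum_ite_eq 0 _
  have hgs2 : HasSum (fun m : ℤ => C1 / N * (1 / (m : ℝ) ^ 2)) (C1 / N * Z2) :=
    hsum.hasSum.mul_left _
  have hgs : HasSum g (C0 * N / (1 + |t|) ^ A + C1 / N * Z2) := hgs1.add hgs2
  rw [hB]
  calc ‖∑' m : ℤ, Im w N t m‖ ≤ ∑' m : ℤ, ‖Im w N t m‖ := norm_tsum_le_tsum_norm hs
    _ ≤ ∑' m : ℤ, g m := hs.tsum_le_tsum hterm hgs.summable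
    _ = C0 * N / (1 + |t|) ^ A + C1 / N * Z2 := hgs.tsum_eq
    _ ≤ (C0 + C1 * Z2) * N / (1 + |t|) ^ A + (C0 + C1 * Z2) / N := by
        have e1 : C0 * N / (1 + |t|) ^ A ≤ (C0 + C1 * Z2) * N / (1 + |t|) ^ A := by
          gcongr
          have : 0 ≤ C1 * Z2 := by positivity
          linarith
        have e2 : C1 / N * Z2 ≤ (C0 + C1 * Z2) / N := by
          rw [div_mul_eq_mul_div]
          gcongr
          linarith
        linarith

/-- crude bound -/
lemma crude {s : ℂ} (hs : 1 / 2 ≤ s.re) (h1 : 1 ≤ ‖s - 1‖) {X : ℝ} (hX : 1 ≤ X) :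
    ‖riemannZeta s - Zs X s‖ ≤ 3 * ‖s‖ + (2 * X + 2) := by
  have hs0 : 0 < s.re := by linarith
  have hne : s - 1 ≠ 0 := norm_pos_iff.1 (by linarith)
  have hpos : 0 < ‖s - 1‖ := by linarith
  have hz : ‖riemannZeta s‖ ≤ 3 * ‖s‖ := by
    rw [riemannZeta_eq_inv_sub_mul (sub_ne_zero.1 hne), norm_mul, norm_inv,
      inv_mul_le_iff₀ hpos]
    refine (zeta₁_norm_le hs0).trans ?_
    have h3 : ‖s‖ / s.re ≤ 2 * ‖s‖ := by
      rw [div_le_iff₀ hs0]
      nlinarith [norm_nonneg s]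
    have h4 : ‖s - 1‖ * ‖s‖ / s.re ≤ ‖s - 1‖ * (2 * ‖s‖) := by
      rw [mul_div_assoc]
      gcongr
    nlinarith [norm_nonneg s]
  have hZ : ‖Zs X s‖ ≤ 2 * X + 2 := by
    have hK := Nat.le_ceil (2 * X)
    have hK2 := Nat.ceil_lt_add_one (show 0 ≤ 2 * X by linarith)
    rw [Zs_eq_sum (by linarith) s hK]
    calc _ ≤ ∑ n ∈ Finset.range (⌈2 * X⌉₊ + 1), (if n = 0 then (0 : ℝ) else 1) := by
          refine (norm_sum_le _ _).trans (Finset.sum_le_sum (fun n _ => ?_))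
          rw [norm_mul, Complex.norm_real, Real.norm_eq_abs, abs_of_nonneg (eta_nonneg _)]
          by_cases hn : n = 0
          · subst hn
            have hsne : s ≠ 0 := by
              intro h
              rw [h] at hs0
              simp at hs0
            simp [Complex.zero_cpow (neg_ne_zero.2 hsne)]
          · rw [if_neg hn, Complex.norm_natCast_cpow_of_pos (Nat.pos_of_ne_zero hn)]
            have hn1 : (1 : ℝ) ≤ n := by exact_mod_cast Nat.one_le_iff_ne_zero.2 hn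
            have h5 : (n : ℝ) ^ (-s).re ≤ 1 :=
              Real.rpow_le_one_of_one_le_of_nonpos hn1 (by simp; linarith)
            calc eta ((n : ℝ) / X) * (n : ℝ) ^ (-s).re ≤ 1 * 1 :=
                  mul_le_mul (eta_le_one _) h5 (Real.rpow_nonneg (by linarith) _) (by norm_num)
              _ = 1 := one_mul _
      _ = (⌈2 * X⌉₊ : ℝ) := by
          rw [Finset.sum_range_succ']
          simp
      _ ≤ _ := by linarith
  calc _ ≤ ‖riemannZeta s‖ + ‖Zs X s‖ := norm_sub_le _ _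
    _ ≤ _ := add_le_add hz hZ

end Ze_aux

open Ze_aux in
/-- ITEM Ze -/
theorem iZe (hNs : StNs) (hN0 : StN0) (hPo : StPo) : StZe := by
  intro ε σ hε hε1 hσ hσ1
  set w : ℝ → ℝ := fun x => psi x * x ^ (-σ) with hwdef
  obtain ⟨c2, C, hc2, hC, hbl⟩ := block_small hNs hN0 hPo (isWt_psi_rpow (-σ)) 10
  set κ : ℝ := (2 : ℝ) ^ (1 - σ) - 1 with hκ
  have hκ0 : 0 < κ := by
    have : (1 : ℝ) < (2 : ℝ) ^ (1 - σ) := Real.one_lt_rpow (by norm_num) (by linarith)
    rw [hκ]; linarith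
  set T0 : ℝ := c2 ^ (1 / ε) with hT0
  have hT01 : 1 ≤ T0 := Real.one_le_rpow hc2 (by positivity)
  refine ⟨13 * T0 ^ 4 + (64 * C + (9 * C + 22) / κ), ?_, ?_⟩
  · have h1 : 1 ≤ T0 ^ 4 := one_le_pow₀ hT01
    have h2 : 0 ≤ (9 * C + 22) / κ := by positivity
    linarith
  intro T t X hT hTt ht2 hX1 hX2
  have hT0' : 0 < T := by linarith
  have ht0 : 0 < t := by linarith
  have habs : |t| = t := abs_of_pos ht0
  have hsq : 0 < Real.sqrt T := Real.sqrt_pos.2 hT0'
  have hsqT : Real.sqrt T ≤ T := by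
    rw [Real.sqrt_le_left (by linarith)]
    nlinarith
  have hXT : T ≤ X := by
    refine le_trans ?_ hX1
    calc T = T ^ (1 : ℝ) := (Real.rpow_one T).symm
      _ ≤ T ^ (1 + ε) := Real.rpow_le_rpow_of_exponent_le hT (by linarith)
  have hX0 : 0 < X := by linarith
  have hre : ((σ : ℂ) + t * Complex.I).re = σ := by simp
  have hnorm : ‖(σ : ℂ) + t * Complex.I‖ ≤ 3 * T := by
    calc ‖(σ : ℂ) + t * Complex.I‖ ≤ ‖(σ : ℂ)‖ + ‖(t : ℂ) * Complex.I‖ := norm_add_le _ _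
      _ = |σ| + |t| := by simp
      _ ≤ 3 * T := by
        rw [habs, abs_of_pos (by linarith)]
        linarith
  have him : 1 ≤ ‖(σ : ℂ) + t * Complex.I - 1‖ := by
    have h1 : |((σ : ℂ) + t * Complex.I - 1).im| ≤ ‖(σ : ℂ) + t * Complex.I - 1‖ :=
      Complex.abs_im_le_norm _
    have h2 : ((σ : ℂ) + t * Complex.I - 1).im = t := by simp
    rw [h2, habs] at h1
    linarith
  have hne : (σ : ℂ) + t * Complex.I ≠ 1 := by
    intro h
    rw [h] at him
    simp at him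
    linarith
  have hT3 : 1 ≤ T ^ 3 := one_le_pow₀ hT
  rw [le_div_iff₀ hsq]
  have hpart : 0 ≤ 64 * C + (9 * C + 22) / κ := by positivity
  by_cases hsmall : T ^ ε ≤ c2
  · -- small T
    have hTT0 : T ≤ T0 := by
      calc T = (T ^ ε) ^ (1 / ε) := by
            rw [← Real.rpow_mul hT0'.le, mul_one_div_cancel hε.ne', Real.rpow_one]
        _ ≤ c2 ^ (1 / ε) := Real.rpow_le_rpow (by positivity) hsmall (by positivity)
    have h1 := crude (s := (σ : ℂ) + t * Complex.I) (by rw [hre]; exact hσ) him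
      (by linarith : (1 : ℝ) ≤ X)
    have hTT3 : T ≤ T ^ 3 := by
      calc T = T ^ 1 := (pow_one T).symm
        _ ≤ T ^ 3 := pow_le_pow_right₀ hT (by norm_num)
    calc ‖riemannZeta (σ + t * Complex.I) - Zs X (σ + t * Complex.I)‖ * Real.sqrt T
        ≤ (3 * ‖(σ : ℂ) + t * Complex.I‖ + (2 * X + 2)) * T :=
          mul_le_mul h1 hsqT hsq.le (by positivity)
      _ ≤ (13 * T ^ 3) * T := by
          gcongr
          linarith
      _ = 13 * T ^ 4 := by ring
      _ ≤ 13 * T0 ^ 4 := by gcongr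
      _ ≤ _ := by linarith
  · -- large T
    push Not at hsmall
    have hXN : c2 * |t| < 2 * X := by
      rw [habs]
      have h1 : T ^ (1 + ε) = T * T ^ ε := by
        rw [Real.rpow_add hT0', Real.rpow_one]
      calc c2 * t ≤ c2 * (2 * T) := by gcongr
        _ = 2 * (T * c2) := by ring
        _ < 2 * (T * T ^ ε) := by gcongr
        _ = 2 * T ^ (1 + ε) := by rw [h1]
        _ ≤ 2 * X := by linarith
    -- the differences
    have hdiff : ∀ Y : ℝ, X ≤ Y → ‖Zs (2 * Y) (σ + t * Complex.I) - Zs Y (σ + t * Complex.I)‖ ≤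
        C * (2 * Y) / T ^ 10 + C / (2 * Y) := by
      intro Y hY
      have hY0 : 0 < Y := by linarith
      rw [Zs_sub hY0 σ t (by linarith), norm_mul, Complex.norm_real, Real.norm_eq_abs,
        abs_of_nonneg (by positivity)]
      have h1 : (2 * Y) ^ (-σ) ≤ 1 :=
        Real.rpow_le_one_of_one_le_of_nonpos (by linarith) (by linarith)
      have h2 := hbl (2 * Y) t (by linarith) (by linarith)
      have h3 : C * (2 * Y) / (1 + |t|) ^ 10 ≤ C * (2 * Y) / T ^ 10 := by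
        rw [habs]
        gcongr
        linarith
      calc (2 * Y) ^ (-σ) * ‖Bl (fun x => psi x * x ^ (-σ)) (2 * Y) t‖
          ≤ 1 * (C * (2 * Y) / (1 + |t|) ^ 10 + C / (2 * Y)) :=
            mul_le_mul h1 h2 (norm_nonneg _) (by norm_num)
        _ ≤ _ := by linarith
    -- the number of steps
    have hex : ∃ J : ℕ, 2 * T ^ 3 ≤ 2 ^ J * X := by
      obtain ⟨n, hn⟩ := pow_unbounded_of_one_lt (2 * T ^ 3) (one_lt_two (α := ℝ))
      refine ⟨n, hn.le.trans ?_⟩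
      have : (1 : ℝ) ≤ X := by linarith
      have h2 : (0 : ℝ) < 2 ^ n := by positivity
      nlinarith
    obtain ⟨J, hJ1, hJ2⟩ : ∃ J : ℕ, 2 * T ^ 3 ≤ 2 ^ J * X ∧ 2 ^ J * X ≤ 4 * T ^ 3 := by
      refine ⟨Nat.find hex, Nat.find_spec hex, ?_⟩
      have hJ0 : Nat.find hex ≠ 0 := by
        intro h
        have h1 := Nat.find_spec hex
        rw [h, pow_zero, one_mul] at h1
        linarith
      obtain ⟨j, hj⟩ := Nat.exists_eq_succ_of_ne_zero hJ0
      have h2 := Nat.find_min hex (show j < Nat.find hex by omega)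
      push Not at h2
      rw [hj, Nat.succ_eq_add_one, pow_succ]
      linarith
    have hXge : (1 : ℝ) ≤ X := by linarith
    -- telescoping
    have htel : ‖Zs (2 ^ J * X) (σ + t * Complex.I) - Zs X (σ + t * Complex.I)‖ ≤
        64 * C / T - 2 * C / T := by
      have e1 : Zs (2 ^ J * X) (σ + t * Complex.I) - Zs X (σ + t * Complex.I) =
          ∑ j ∈ Finset.range J, (Zs (2 ^ (j + 1) * X) (σ + t * Complex.I) -
            Zs (2 ^ j * X) (σ + t * Complex.I)) := by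
        rw [Finset.sum_range_sub (fun j : ℕ => Zs (2 ^ j * X) (σ + t * Complex.I))]
        simp
      rw [e1]
      have hJle : (J : ℝ) ≤ 4 * T ^ 3 := by
        have h1 : (J : ℝ) ≤ 2 ^ J := by exact_mod_cast (Nat.lt_two_pow_self (n := J)).le
        have h2 : (0 : ℝ) < 2 ^ J := by positivity
        nlinarith
      have hterm : ∀ j ∈ Finset.range J, ‖Zs (2 ^ (j + 1) * X) (σ + t * Complex.I) -
            Zs (2 ^ j * X) (σ + t * Complex.I)‖ ≤ C * (4 * T ^ 3) / T ^ 10 +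
              C / X * (1 / 2) ^ (j + 1) := by
        intro j hj
        have hjJ : j + 1 ≤ J := Finset.mem_range.1 hj
        have h1 : X ≤ 2 ^ j * X := by
          have : (1 : ℝ) ≤ 2 ^ j := one_le_pow₀ (by norm_num)
          nlinarith
        have e2 : (2 : ℝ) ^ (j + 1) * X = 2 * (2 ^ j * X) := by ring
        have h2 := hdiff (2 ^ j * X) h1
        rw [← e2] at h2
        have h3 : (2 : ℝ) ^ (j + 1) * X ≤ 4 * T ^ 3 := by
          calc (2 : ℝ) ^ (j + 1) * X ≤ 2 ^ J * X := by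
                gcongr
                norm_num
            _ ≤ _ := hJ2
        refine h2.trans (add_le_add ?_ (le_of_eq ?_))
        · exact div_le_div_of_nonneg_right (mul_le_mul_of_nonneg_left h3 (by linarith))
            (by positivity)
        · rw [one_div, inv_pow]
          field_simp
      have hgeo : ∑ j ∈ Finset.range J, (1 / 2 : ℝ) ^ (j + 1) ≤ 1 := by
        have h1 : ∑ j ∈ Finset.range J, (1 / 2 : ℝ) ^ (j + 1) = 1 - (1 / 2) ^ J := by
          clear hterm hJle e1 hJ1 hJ2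
          induction J with
          | zero => simp
          | succ J ih =>
            rw [Finset.sum_range_succ, ih, pow_succ]
            ring
        rw [h1]
        have : (0 : ℝ) ≤ (1 / 2) ^ J := by positivity
        linarith
      have hCX : C / X ≤ C / T := by gcongr
      calc ‖∑ j ∈ Finset.range J, (Zs (2 ^ (j + 1) * X) (σ + t * Complex.I) -
            Zs (2 ^ j * X) (σ + t * Complex.I))‖
          ≤ ∑ j ∈ Finset.range J, (C * (4 * T ^ 3) / T ^ 10 + C / X * (1 / 2) ^ (j + 1)) :=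
            (norm_sum_le _ _).trans (Finset.sum_le_sum hterm)
        _ = J * (C * (4 * T ^ 3) / T ^ 10) +
            C / X * ∑ j ∈ Finset.range J, (1 / 2 : ℝ) ^ (j + 1) := by
            rw [Finset.sum_add_distrib, Finset.sum_const, Finset.card_range, nsmul_eq_mul,
              Finset.mul_sum]
        _ ≤ (4 * T ^ 3) * (C * (4 * T ^ 3) / T ^ 10) + C / T * 1 := by
            gcongr
        _ = 16 * C / T ^ 4 + C / T := by
            field_simp
            ring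
        _ ≤ 16 * C / T + C / T := by
            gcongr
            calc T = T ^ 1 := (pow_one T).symm
              _ ≤ T ^ 4 := pow_le_pow_right₀ hT (by norm_num)
        _ ≤ _ := by
            have : 0 ≤ C / T := by positivity
            have e3 : 16 * C / T = 16 * (C / T) := by ring
            have e4 : 64 * C / T - 2 * C / T = 62 * (C / T) := by ring
            rw [e3, e4]
            linarith
    -- far out
    have hfar : ‖Zs (2 ^ J * X) (σ + t * Complex.I) - riemannZeta (σ + t * Complex.I)‖ ≤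
        (9 * C / T + 22 / Real.sqrt T) / κ := by
      set Y : ℝ := 2 ^ J * X with hY
      have hY2 : 2 ≤ Y := by linarith
      have hXY : X ≤ Y := by
        have : (1 : ℝ) ≤ 2 ^ J := one_le_pow₀ (by norm_num)
        rw [hY]; nlinarith
      have h1 := far hY2 (s := (σ : ℂ) + t * Complex.I) (by rw [hre]; exact hσ)
        (by rw [hre]; exact hσ1) hne (hdiff Y hXY)
      rw [hre] at h1
      refine h1.trans ?_
      rw [← hκ]
      gcongr
      · -- first part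
        have h2 : C * (2 * Y) / T ^ 10 ≤ 8 * C / T := by
          calc C * (2 * Y) / T ^ 10 ≤ C * (2 * (4 * T ^ 3)) / T ^ 10 := by gcongr
            _ = 8 * C / T ^ 7 := by
              field_simp
              ring
            _ ≤ 8 * C / T := by
              gcongr
              calc T = T ^ 1 := (pow_one T).symm
                _ ≤ T ^ 7 := pow_le_pow_right₀ hT (by norm_num)
        have h3 : C / (2 * Y) ≤ C / T := by
          gcongr
          linarith
        calc C * (2 * Y) / T ^ 10 + C / (2 * Y) ≤ 8 * C / T + C / T := add_le_add h2 h3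
          _ = 9 * C / T := by ring
      · -- second part
        have h4 : (Y / 2) ^ (-σ) ≤ 1 / (T * Real.sqrt T) := by
          have h5 : T ^ 3 ≤ Y / 2 := by linarith
          have h6 : (1 : ℝ) ≤ Y / 2 := by linarith
          calc (Y / 2) ^ (-σ) ≤ (Y / 2) ^ (-(1 / 2) : ℝ) :=
                Real.rpow_le_rpow_of_exponent_le h6 (by linarith)
            _ ≤ (T ^ 3) ^ (-(1 / 2) : ℝ) :=
                Real.rpow_le_rpow_of_nonpos (by positivity) h5 (by norm_num)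
            _ = 1 / (T * Real.sqrt T) := by
                rw [Real.rpow_neg (by positivity), ← Real.sqrt_eq_rpow, ← one_div]
                congr 1
                rw [show T ^ 3 = T ^ 2 * T by ring, Real.sqrt_mul (by positivity),
                  Real.sqrt_sq hT0'.le]
        calc (7 * ‖(σ : ℂ) + t * Complex.I‖ + 1) * (Y / 2) ^ (-σ)
            ≤ (22 * T) * (1 / (T * Real.sqrt T)) := by
              refine mul_le_mul (by linarith) h4 (by positivity) (by positivity)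
          _ = 22 / Real.sqrt T := by
              field_simp
    -- assembly
    have hinv : C / T * Real.sqrt T ≤ C := by
      rw [div_mul_eq_mul_div, div_le_iff₀ hT0']
      gcongr
    have htot : ‖riemannZeta (σ + t * Complex.I) - Zs X (σ + t * Complex.I)‖ ≤
        (64 * C / T - 2 * C / T) + (9 * C / T + 22 / Real.sqrt T) / κ := by
      have e5 : riemannZeta (σ + t * Complex.I) - Zs X (σ + t * Complex.I) =
          (Zs (2 ^ J * X) (σ + t * Complex.I) - Zs X (σ + t * Complex.I)) -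
          (Zs (2 ^ J * X) (σ + t * Complex.I) - riemannZeta (σ + t * Complex.I)) := by ring
      rw [e5]
      exact (norm_sub_le _ _).trans (add_le_add htel hfar)
    have h13 : 0 ≤ 13 * T0 ^ 4 := by positivity
    calc ‖riemannZeta (σ + t * Complex.I) - Zs X (σ + t * Complex.I)‖ * Real.sqrt T
        ≤ ((64 * C / T - 2 * C / T) + (9 * C / T + 22 / Real.sqrt T) / κ) * Real.sqrt T :=
          mul_le_mul_of_nonneg_right htot hsq.le
      _ = 62 * (C / T * Real.sqrt T) + (9 * (C / T * Real.sqrt T) + 22) / κ := by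
          field_simp
          ring
      _ ≤ 62 * C + (9 * C + 22) / κ := by
          gcongr
      _ ≤ _ := by linarith

end Pool.Agent.Work.MP_56b8f5_nt.UC
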