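import Pool.Agent.Work.MP_56b8f5_nt.UC.Stmts
import Pool.Agent.Work.MP_56b8f5_nt.UC.I_Ow
import Pool.Agent.Work.MP_37bd4f_nt.MeanValue
import Pool.Agent.Work.MP_cb106b_nt.Ct.DivB

/-!
MP_56b8f5_nt (eighth moment of the Riemann zeta function), block UC, item Zp:
even moments of the short smooth sum.
-/

set_option autoImplicit false

open MeasureTheory Set Filter Topology

noncomputable section

namespace Pool.Agent.Work.MP_56b8f5_nt.UC

namespace Zp_aux

/-! ### divisor functions -/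

lemma dr_zero_right (r : ℕ) : dr r 0 = 0 := by simp [dr]

lemma dr_succ (r n : ℕ) : dr (r + 1) n =
    ∑ x ∈ n.divisorsAntidiagonal, dr r x.1 * ArithmeticFunction.zeta x.2 := by
  unfold dr
  rw [pow_succ, ArithmeticFunction.mul_apply]

lemma dr_le (r : ℕ) : ∀ ε : ℝ, 0 < ε → ∃ C : ℝ, 1 ≤ C ∧ ∀ n : ℕ, 1 ≤ n →
    (dr r n : ℝ) ≤ C * (n : ℝ) ^ ε := by
  induction r with
  | zero =>
    intro ε hε
    refine ⟨1, le_rfl, fun n hn => ?_⟩
    have h1 : (dr 0 n : ℝ) ≤ 1 := by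
      unfold dr
      rw [pow_zero, ArithmeticFunction.one_apply]
      split_ifs <;> simp
    have h2 : (1 : ℝ) ≤ (n : ℝ) ^ ε := Real.one_le_rpow (by exact_mod_cast hn) hε.le
    linarith
  | succ r ih =>
    intro ε hε
    obtain ⟨C, hC, h⟩ := ih (ε / 2) (by positivity)
    obtain ⟨C', hC', h'⟩ := Pool.Agent.Work.MP_cb106b_nt.Ct.divisor_bound (ε / 2) (by positivity)
    refine ⟨C * C', one_le_mul_of_one_le_of_one_le hC hC', fun n hn => ?_⟩
    have hn0 : n ≠ 0 := by omega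
    have hnR : (0 : ℝ) < n := by exact_mod_cast (by omega : 0 < n)
    calc (dr (r + 1) n : ℝ) = ∑ x ∈ n.divisorsAntidiagonal,
          (dr r x.1 : ℝ) * ((ArithmeticFunction.zeta x.2 : ℕ) : ℝ) := by
          rw [dr_succ]; push_cast; rfl
      _ ≤ ∑ x ∈ n.divisorsAntidiagonal, C * (n : ℝ) ^ (ε / 2) := by
          refine Finset.sum_le_sum (fun x hx => ?_)
          rw [Nat.mem_divisorsAntidiagonal] at hx
          have hx1 : x.1 ≠ 0 := by rintro h0; rw [h0, zero_mul] at hx; exact hx.2 hx.1.symm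
          have hx2 : x.1 ≤ n := Nat.le_of_dvd (by omega) ⟨x.2, hx.1.symm⟩
          have h1 : (dr r x.1 : ℝ) ≤ C * (n : ℝ) ^ (ε / 2) := by
            refine (h x.1 (by omega)).trans ?_
            gcongr
          have h2 : ((ArithmeticFunction.zeta x.2 : ℕ) : ℝ) ≤ 1 := by
            rw [ArithmeticFunction.zeta_apply]
            split_ifs <;> simp
          calc (dr r x.1 : ℝ) * ((ArithmeticFunction.zeta x.2 : ℕ) : ℝ)
              ≤ (C * (n : ℝ) ^ (ε / 2)) * 1 := by gcongr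
            _ = _ := mul_one _
      _ = (n.divisors.card : ℝ) * (C * (n : ℝ) ^ (ε / 2)) := by
          rw [Finset.sum_const, nsmul_eq_mul, ← Nat.map_div_right_divisors, Finset.card_map]
      _ ≤ (C' * (n : ℝ) ^ (ε / 2)) * (C * (n : ℝ) ^ (ε / 2)) := by
          gcongr
          exact h' n hn
      _ = C * C' * (n : ℝ) ^ ε := by
          have : (n : ℝ) ^ ε = (n : ℝ) ^ (ε / 2) * (n : ℝ) ^ (ε / 2) := by
            rw [← Real.rpow_add hnR]; ring_nf
          rw [this]; ring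

lemma dr_summable (r : ℕ) (σ : ℝ) (hσ : 1 / 2 < σ) :
    Summable fun n : ℕ => (dr r n : ℝ) ^ 2 / (n : ℝ) ^ (2 * σ) := by
  obtain ⟨C, hC, h⟩ := dr_le r ((2 * σ - 1) / 4) (by linarith)
  have hs : Summable fun n : ℕ => C ^ 2 * (1 / (n : ℝ) ^ (σ + 1 / 2)) :=
    (Real.summable_one_div_nat_rpow.mpr (by linarith)).mul_left _
  refine Summable.of_nonneg_of_le (fun n => by positivity) (fun n => ?_) hs
  rcases Nat.eq_zero_or_pos n with hn | hn
  · subst hn
    rw [dr_zero_right]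
    simp only [Nat.cast_zero, ne_eq, OfNat.ofNat_ne_zero, not_false_eq_true, zero_pow, zero_div]
    positivity
  · have hnR : (0 : ℝ) < n := by exact_mod_cast hn
    have h1 := h n hn
    have h2 : (dr r n : ℝ) ^ 2 ≤ (C * (n : ℝ) ^ ((2 * σ - 1) / 4)) ^ 2 := by gcongr
    rw [div_le_iff₀ (by positivity)]
    refine h2.trans (le_of_eq ?_)
    have e1 : (n : ℝ) ^ (2 * σ) = (n : ℝ) ^ (σ + 1 / 2) * ((n : ℝ) ^ ((2 * σ - 1) / 4)) ^ 2 := by
      rw [← Real.rpow_natCast ((n : ℝ) ^ ((2 * σ - 1) / 4)) 2, ← Real.rpow_mul hnR.le,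
        ← Real.rpow_add hnR]
      congr 1
      push_cast
      ring
    rw [e1]
    have hne : (n : ℝ) ^ (σ + 1 / 2) ≠ 0 := by positivity
    field_simp

/-! ### the coefficients -/

/-- real coefficients -/
def Bf (Y : ℝ) : ArithmeticFunction ℝ := ⟨fun n => if n = 0 then 0 else eta ((n : ℝ) / Y), by simp⟩

lemma Bf_apply (Y : ℝ) (n : ℕ) : Bf Y n = if n = 0 then 0 else eta ((n : ℝ) / Y) := rfl

/-- complex coefficients -/
def Af (Y : ℝ) : ArithmeticFunction ℂ :=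
  ⟨fun n => if n = 0 then 0 else ((eta ((n : ℝ) / Y) : ℝ) : ℂ), by simp⟩

lemma Af_apply (Y : ℝ) (n : ℕ) :
    Af Y n = if n = 0 then 0 else ((eta ((n : ℝ) / Y) : ℝ) : ℂ) := rfl

lemma Af_eq (Y : ℝ) (n : ℕ) : Af Y n = ((Bf Y n : ℝ) : ℂ) := by
  rw [Af_apply, Bf_apply]; split_ifs <;> simp

lemma Bf_pow_succ (Y : ℝ) (r n : ℕ) : ((Bf Y) ^ (r + 1)) n =
    ∑ x ∈ n.divisorsAntidiagonal, ((Bf Y) ^ r) x.1 * Bf Y x.2 := by
  rw [pow_succ, ArithmeticFunction.mul_apply]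

lemma Af_pow (Y : ℝ) (r : ℕ) : ∀ n : ℕ, ((Af Y) ^ r) n = (((Bf Y ^ r) n : ℝ) : ℂ) := by
  induction r with
  | zero =>
    intro n
    rw [pow_zero, pow_zero, ArithmeticFunction.one_apply, ArithmeticFunction.one_apply]
    split_ifs <;> simp
  | succ r ih =>
    intro n
    rw [Bf_pow_succ, pow_succ, ArithmeticFunction.mul_apply]
    push_cast
    refine Finset.sum_congr rfl (fun x _ => ?_)
    rw [ih, Af_eq]

lemma Bf_nonneg (Y : ℝ) (n : ℕ) : 0 ≤ Bf Y n := by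
  rw [Bf_apply]; split_ifs
  · exact le_rfl
  · exact eta_nonneg _

lemma Bf_le (Y : ℝ) (n : ℕ) : Bf Y n ≤ ((ArithmeticFunction.zeta n : ℕ) : ℝ) := by
  rw [Bf_apply, ArithmeticFunction.zeta_apply]; split_ifs
  · simp
  · simpa using eta_le_one _

lemma Bf_eq (Y : ℝ) (hY : 0 < Y) (n : ℕ) (hn : (n : ℝ) ≤ Y) :
    Bf Y n = ((ArithmeticFunction.zeta n : ℕ) : ℝ) := by
  rw [Bf_apply, ArithmeticFunction.zeta_apply]; split_ifs
  · simp
  · rw [eta_eq_one ((div_le_one hY).mpr hn)]; simp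

lemma Bf_pow_bd (Y : ℝ) (r : ℕ) : ∀ n : ℕ, 0 ≤ (Bf Y ^ r) n ∧ (Bf Y ^ r) n ≤ (dr r n : ℝ) := by
  induction r with
  | zero =>
    intro n
    unfold dr
    rw [pow_zero, pow_zero, ArithmeticFunction.one_apply, ArithmeticFunction.one_apply]
    split_ifs <;> simp
  | succ r ih =>
    intro n
    rw [Bf_pow_succ, dr_succ]
    push_cast
    refine ⟨Finset.sum_nonneg (fun x _ => mul_nonneg (ih _).1 (Bf_nonneg _ _)),
      Finset.sum_le_sum (fun x _ => ?_)⟩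
    exact mul_le_mul (ih _).2 (Bf_le _ _) (Bf_nonneg _ _) (by positivity)

lemma Bf_pow_eq (Y : ℝ) (hY : 0 < Y) (r : ℕ) : ∀ n : ℕ, (n : ℝ) ≤ Y →
    (Bf Y ^ r) n = (dr r n : ℝ) := by
  induction r with
  | zero =>
    intro n _
    unfold dr
    rw [pow_zero, pow_zero, ArithmeticFunction.one_apply, ArithmeticFunction.one_apply]
    split_ifs <;> simp
  | succ r ih =>
    intro n hn
    rw [Bf_pow_succ, dr_succ]
    push_cast
    refine Finset.sum_congr rfl (fun x hx => ?_)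
    rw [Nat.mem_divisorsAntidiagonal] at hx
    have hx1 : x.1 ≤ n := Nat.le_of_dvd (by omega) ⟨x.2, hx.1.symm⟩
    have hx2 : x.2 ≤ n := Nat.le_of_dvd (by omega) ⟨x.1, by rw [mul_comm]; exact hx.1.symm⟩
    have hx1' : (x.1 : ℝ) ≤ n := by exact_mod_cast hx1
    have hx2' : (x.2 : ℝ) ≤ n := by exact_mod_cast hx2
    rw [ih _ (hx1'.trans hn), Bf_eq Y hY _ (hx2'.trans hn)]

lemma Bf_pow_supp (Y : ℝ) (hY : 0 < Y) (r : ℕ) : ∀ n : ℕ, (Bf Y ^ r) n ≠ 0 →
    1 ≤ n ∧ n ≤ ⌊2 * Y⌋₊ ^ r := by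
  induction r with
  | zero =>
    intro n hn
    rw [pow_zero, ArithmeticFunction.one_apply] at hn
    split_ifs at hn with h
    · subst h; simp
    · exact absurd rfl hn
  | succ r ih =>
    intro n hn
    rw [Bf_pow_succ] at hn
    obtain ⟨x, hx, hne⟩ := Finset.exists_ne_zero_of_sum_ne_zero hn
    rw [Nat.mem_divisorsAntidiagonal] at hx
    obtain ⟨h1, h2⟩ := mul_ne_zero_iff.mp hne
    have h3 := ih _ h1
    have h4 : x.2 ≤ ⌊2 * Y⌋₊ := by
      rw [Bf_apply] at h2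
      split_ifs at h2 with h
      · exact absurd rfl h2
      · by_contra hcon
        rw [not_le] at hcon
        have h5 : 2 * Y < x.2 := (Nat.floor_lt (by positivity)).mp hcon
        apply h2
        apply eta_eq_zero
        rw [le_div_iff₀ hY]
        linarith
    refine ⟨by omega, ?_⟩
    rw [← hx.1, pow_succ]
    exact Nat.mul_le_mul h3.2 h4

/-! ### the power of the short sum -/

lemma Af_summable (Y : ℝ) (hY : 0 < Y) (r : ℕ) (s : ℂ) :
    LSeriesSummable (fun n => (Af Y ^ r) n) s := by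
  unfold LSeriesSummable
  apply summable_of_finite_support
  apply (Finset.finite_toSet (Finset.Icc 1 (⌊2 * Y⌋₊ ^ r))).subset
  intro n hn
  rw [Function.mem_support] at hn
  have h0 : (Af Y ^ r) n ≠ 0 := by
    intro h0; apply hn; rw [LSeries.term_def]; simp [h0]
  rw [Af_pow] at h0
  have h1 := Bf_pow_supp Y hY r n (by exact_mod_cast h0)
  simpa using h1

lemma Zs_eq (Y : ℝ) (s : ℂ) (hs : s ≠ 0) : Zs Y s = LSeries (fun n => Af Y n) s := by
  unfold Zs LSeries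
  refine tsum_congr (fun n => ?_)
  rw [LSeries.term_def, Af_apply]
  split_ifs with h
  · subst h
    rw [show (((0 : ℕ) : ℂ)) = 0 from Nat.cast_zero, Complex.zero_cpow (neg_ne_zero.mpr hs),
      mul_zero]
  · rw [Complex.cpow_neg]
    exact (div_eq_mul_inv _ _).symm

lemma Zs_pow (Y : ℝ) (hY : 0 < Y) (s : ℂ) (hs : s ≠ 0) (r : ℕ) :
    Zs Y s ^ r = LSeries (fun n => (Af Y ^ r) n) s := by
  induction r with
  | zero =>
    rw [pow_zero, pow_zero]
    have h := ArithmeticFunction.one_eq_delta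
    rw [h, LSeries_delta]
    rfl
  | succ r ih =>
    rw [pow_succ, ih, pow_succ, ArithmeticFunction.LSeries_mul' (Af_summable Y hY r s)
      (by simpa using Af_summable Y hY 1 s), Zs_eq Y s hs]

lemma Zs_pow_eq_sum (Y : ℝ) (hY : 0 < Y) (σ t : ℝ) (hσ : 0 < σ) (r : ℕ) :
    Zs Y (σ + t * Complex.I) ^ r = ∑ n ∈ Finset.Icc 1 (⌊2 * Y⌋₊ ^ r),
      (((Bf Y ^ r) n / (n : ℝ) ^ σ : ℝ) : ℂ) * (n : ℂ) ^ (-(t * Complex.I)) := by
  have hs : ((σ : ℂ) + t * Complex.I) ≠ 0 := by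
    intro h
    have := congrArg Complex.re h
    simp at this
    linarith
  rw [Zs_pow Y hY _ hs r, LSeries, tsum_eq_sum (s := Finset.Icc 1 (⌊2 * Y⌋₊ ^ r))]
  · refine Finset.sum_congr rfl (fun n hn => ?_)
    rw [Finset.mem_Icc] at hn
    have hn0 : n ≠ 0 := by omega
    have hnC : (n : ℂ) ≠ 0 := by exact_mod_cast hn0
    rw [LSeries.term_def, if_neg hn0, Af_pow, div_eq_mul_inv, ← Complex.cpow_neg, neg_add,
      Complex.cpow_add _ _ hnC]
    have e1 : (((Bf Y ^ r) n / (n : ℝ) ^ σ : ℝ) : ℂ) = (((Bf Y ^ r) n : ℝ) : ℂ) *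
        (n : ℂ) ^ (-(σ : ℂ)) := by
      rw [Complex.cpow_neg, ← div_eq_mul_inv, Complex.ofReal_div, Complex.ofReal_cpow (by positivity)]
      simp
    rw [e1]
    ring
  · intro n hn
    have h0 : (Bf Y ^ r) n = 0 := by
      by_contra hne
      exact hn (Finset.mem_Icc.mpr (Bf_pow_supp Y hY r n hne))
    rw [LSeries.term_def, Af_pow, h0]
    simp

/-! ### mean value -/

open Pool.Agent.Work.MP_37bd4f_nt in
lemma Kmn_le {N m n : ℕ} (hm : m ∈ Finset.Icc 1 N) (hn : n ∈ Finset.Icc 1 N) :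
    Kmn m n ≤ 2 * N := by
  have key : ∀ {m n : ℕ}, 1 ≤ m → m < n → n ≤ N → Kmn m n ≤ 2 * N := by
    intro m n hm hmn hn
    unfold Kmn
    rw [if_neg (by omega)]
    refine (one_div_abs_log_le hm hmn).trans ?_
    have hmn' : (m : ℝ) + 1 ≤ n := by exact_mod_cast hmn
    have hn' : (n : ℝ) ≤ N := by exact_mod_cast hn
    have hn0 : (0 : ℝ) ≤ n := by positivity
    rw [div_le_iff₀ (by linarith)]
    nlinarith
  rw [Finset.mem_Icc] at hm hn
  rcases lt_trichotomy m n with h | h | h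
  · exact key hm.1 h hn.2
  · subst h
    unfold Kmn
    rw [if_pos rfl]
    positivity
  · rw [Kmn_symm]
    exact key hn.1 h hm.2

open Pool.Agent.Work.MP_37bd4f_nt in
lemma mv (N : ℕ) (a : ℕ → ℝ) (ha : ∀ n, 0 ≤ a n) (T1 T2 : ℝ) :
    |(∫ t in T1..T2, ‖∑ n ∈ Finset.Icc 1 N, ((a n : ℝ) : ℂ) *
        (n : ℂ) ^ (-((t : ℂ) * Complex.I))‖ ^ 2) -
      (T2 - T1) * ∑ n ∈ Finset.Icc 1 N, a n ^ 2| ≤ 2 * N * (∑ n ∈ Finset.Icc 1 N, a n) ^ 2 := by
  classical
  set S : ℝ → ℂ := fun t => ∑ n ∈ Finset.Icc 1 N, ((a n : ℝ) : ℂ) *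
    (n : ℂ) ^ (-((t : ℂ) * Complex.I)) with hS
  have hSS : ∀ t : ℝ, ((‖S t‖ ^ 2 : ℝ) : ℂ) = ∑ m ∈ Finset.Icc 1 N, ∑ n ∈ Finset.Icc 1 N,
      (((a m : ℝ) : ℂ) * ((a n : ℝ) : ℂ)) *
        Complex.exp (-(((Real.log m - Real.log n : ℝ) : ℂ) * Complex.I) * t) := by
    intro t
    rw [Complex.ofReal_pow, ← Complex.mul_conj', hS]
    simp only
    rw [map_sum, Finset.sum_mul_sum]
    refine Finset.sum_congr rfl (fun m hm => Finset.sum_congr rfl (fun n hn => ?_))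
    simp only [Finset.mem_Icc] at hm hn
    rw [natCast_cpow_neg_mul_I hm.1, natCast_cpow_neg_mul_I hn.1, map_mul, ← Complex.exp_conj]
    have e1 : (starRingEnd ℂ) (-(↑(Real.log ↑n) * Complex.I) * ↑t) =
        (Real.log n * Complex.I) * t := by
      simp only [map_mul, map_neg, Complex.conj_ofReal, Complex.conj_I]
      ring
    rw [e1, Complex.conj_ofReal]
    have e2 : -(((Real.log m - Real.log n : ℝ) : ℂ) * Complex.I) * (t : ℂ) =
      (-(Real.log m * Complex.I) * t) + (Real.log n * Complex.I) * t := by push_cast; ring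
    rw [e2, Complex.exp_add]
    ring
  have hint : ∫ t in T1..T2, ((‖S t‖ ^ 2 : ℝ) : ℂ) =
      ∑ m ∈ Finset.Icc 1 N, ∑ n ∈ Finset.Icc 1 N,
      (((a m : ℝ) : ℂ) * ((a n : ℝ) : ℂ)) *
        ∫ t in T1..T2, Complex.exp (-(((Real.log m - Real.log n : ℝ) : ℂ) * Complex.I) * t) := by
    simp_rw [hSS]
    rw [intervalIntegral.integral_finsetSum]
    · refine Finset.sum_congr rfl (fun m _ => ?_)
      rw [intervalIntegral.integral_finsetSum]
      · refine Finset.sum_congr rfl (fun n _ => ?_)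
        rw [intervalIntegral.integral_const_mul]
      · intro n _
        apply Continuous.intervalIntegrable
        fun_prop
    · intro m _
      apply Continuous.intervalIntegrable
      fun_prop
  have hdiag : (((T2 - T1) * ∑ n ∈ Finset.Icc 1 N, a n ^ 2 : ℝ) : ℂ) =
      ∑ m ∈ Finset.Icc 1 N, ∑ n ∈ Finset.Icc 1 N,
        (if m = n then (((T2 - T1) * a m ^ 2 : ℝ) : ℂ) else 0) := by
    push_cast
    rw [Finset.mul_sum]
    refine Finset.sum_congr rfl (fun m hm => ?_)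
    rw [Finset.sum_ite_eq, if_pos hm]
  have hreal : |(∫ t in T1..T2, ‖S t‖ ^ 2) - (T2 - T1) * ∑ n ∈ Finset.Icc 1 N, a n ^ 2| =
      ‖(∫ t in T1..T2, ((‖S t‖ ^ 2 : ℝ) : ℂ)) -
        (((T2 - T1) * ∑ n ∈ Finset.Icc 1 N, a n ^ 2 : ℝ) : ℂ)‖ := by
    rw [intervalIntegral.integral_ofReal, ← Complex.ofReal_sub, Complex.norm_real, Real.norm_eq_abs]
  rw [hreal, hint, hdiag, ← Finset.sum_sub_distrib]
  calc _ ≤ ∑ m ∈ Finset.Icc 1 N, ∑ n ∈ Finset.Icc 1 N, (2 * N) * (a m * a n) := by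
        refine (norm_sum_le _ _).trans (Finset.sum_le_sum (fun m hm => ?_))
        rw [← Finset.sum_sub_distrib]
        refine (norm_sum_le _ _).trans (Finset.sum_le_sum (fun n hn => ?_))
        have hmn0 : 0 ≤ a m * a n := mul_nonneg (ha m) (ha n)
        by_cases hmn : m = n
        · subst hmn
          rw [if_pos rfl]
          simp only [sub_self, Complex.ofReal_zero, zero_mul, neg_zero, Complex.exp_zero]
          rw [intervalIntegral.integral_const]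
          have : ((a m : ℝ) : ℂ) * ((a m : ℝ) : ℂ) * ((T2 - T1) • (1 : ℂ)) -
              (((T2 - T1) * a m ^ 2 : ℝ) : ℂ) = 0 := by
            rw [Complex.real_smul]
            push_cast
            ring
          rw [this, norm_zero]
          positivity
        · rw [if_neg hmn, sub_zero, norm_mul, norm_mul, Complex.norm_real, Complex.norm_real,
            Real.norm_eq_abs, Real.norm_eq_abs, abs_of_nonneg (ha m), abs_of_nonneg (ha n)]
          rw [mul_comm (2 * (N : ℝ))]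
          refine mul_le_mul_of_nonneg_left ?_ hmn0
          refine le_trans ?_ (Kmn_le hm hn)
          unfold Kmn
          rw [if_neg hmn]
          refine norm_integral_exp_le ?_ _ _
          intro h
          apply hmn
          rw [Finset.mem_Icc] at hm hn
          have hm0 : (0 : ℝ) < m := by exact_mod_cast hm.1
          have hn0 : (0 : ℝ) < n := by exact_mod_cast hn.1
          have := Real.log_injOn_pos (Set.mem_Ioi.mpr hm0) (Set.mem_Ioi.mpr hn0) (sub_eq_zero.mp h)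
          exact_mod_cast this
    _ = _ := by
        rw [sq (∑ n ∈ Finset.Icc 1 N, a n), Finset.sum_mul_sum, Finset.mul_sum]
        refine Finset.sum_congr rfl (fun m _ => ?_)
        rw [Finset.mul_sum]

end Zp_aux

open Zp_aux in
theorem iZp : StZp := by
  intro r σ hr hr4 hσ hσ1
  refine ⟨dr_summable r σ hσ, ?_⟩
  obtain ⟨C0, hC0, hdr⟩ := dr_le r (1 / 4) (by norm_num)
  have hSm := dr_summable r σ hσ
  have hS := dr_summable r (σ / 2 + 1 / 4) (by linarith)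
  set S : ℝ := ∑' n : ℕ, (dr r n : ℝ) ^ 2 / (n : ℝ) ^ (2 * (σ / 2 + 1 / 4)) with hSdef
  have hS0 : 0 ≤ S := tsum_nonneg (fun n => by positivity)
  have hδ : 0 < σ - 1 / 2 := by linarith
  refine ⟨(σ - 1 / 2) / 20, 1 + 2 * C0 ^ 2 * (16 : ℝ) ^ (7 / 2 : ℝ) + S, by positivity, ?_, ?_⟩
  · have : 0 ≤ 2 * C0 ^ 2 * (16 : ℝ) ^ (7 / 2 : ℝ) := by positivity
    linarith
  intro T hT
  have hT0 : 0 < T := by linarith
  set Y : ℝ := T ^ (1 / 20 : ℝ) with hYdef
  have hY1 : 1 ≤ Y := Real.one_le_rpow hT (by norm_num)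
  have hY0 : 0 < Y := by linarith
  set N : ℕ := ⌊2 * Y⌋₊ ^ r with hNdef
  have hNle : (N : ℝ) ≤ 16 * T ^ (1 / 5 : ℝ) := by
    have h1 : (⌊2 * Y⌋₊ : ℝ) ≤ 2 * Y := Nat.floor_le (by positivity)
    have h2 : (N : ℝ) ≤ (2 * Y) ^ r := by
      rw [hNdef]; push_cast
      gcongr
    have h3 : (2 * Y) ^ r ≤ (2 * Y) ^ 4 := pow_le_pow_right₀ (by linarith) hr4
    have h4 : (2 * Y) ^ 4 = 16 * T ^ (1 / 5 : ℝ) := by
      rw [mul_pow, hYdef, ← Real.rpow_natCast (T ^ (1 / 20 : ℝ)) 4, ← Real.rpow_mul hT0.le]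
      norm_num
    linarith
  set c : ℕ → ℝ := fun n => (Bf Y ^ r) n with hc
  set a : ℕ → ℝ := fun n => c n / (n : ℝ) ^ σ with ha
  have hc0 : ∀ n, 0 ≤ c n := fun n => (Bf_pow_bd Y r n).1
  have hcd : ∀ n, c n ≤ dr r n := fun n => (Bf_pow_bd Y r n).2
  have ha0 : ∀ n, 0 ≤ a n := fun n => div_nonneg (hc0 n) (by positivity)
  -- the integrand
  have hInt : (∫ t in T..(2 * T), ‖Zs Y (σ + t * Complex.I)‖ ^ (2 * r)) =
      ∫ t in T..(2 * T), ‖∑ n ∈ Finset.Icc 1 N, ((a n : ℝ) : ℂ) *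
        (n : ℂ) ^ (-((t : ℂ) * Complex.I))‖ ^ 2 := by
    congr 1
    funext t
    rw [mul_comm 2 r, pow_mul, ← norm_pow, Zs_pow_eq_sum Y hY0 σ t (by linarith) r]
  have hmv := mv N a ha0 T (2 * T)
  rw [← hInt, show 2 * T - T = T by ring] at hmv
  -- off diagonal
  have hsum : ∑ n ∈ Finset.Icc 1 N, a n ≤ C0 * (N : ℝ) ^ (5 / 4 : ℝ) := by
    have h1 : ∀ n ∈ Finset.Icc 1 N, a n ≤ C0 * (N : ℝ) ^ (1 / 4 : ℝ) := by
      intro n hn
      rw [Finset.mem_Icc] at hn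
      have hn1 : (1 : ℝ) ≤ n := by exact_mod_cast hn.1
      have h2 : (1 : ℝ) ≤ (n : ℝ) ^ σ := Real.one_le_rpow hn1 (by linarith)
      have h3 : a n ≤ c n := div_le_self (hc0 n) h2
      have h4 : (dr r n : ℝ) ≤ C0 * (N : ℝ) ^ (1 / 4 : ℝ) := by
        refine (hdr n hn.1).trans ?_
        have : (n : ℝ) ≤ N := by exact_mod_cast hn.2
        gcongr
      exact h3.trans ((hcd n).trans h4)
    refine (Finset.sum_le_sum h1).trans ?_
    rw [Finset.sum_const, nsmul_eq_mul, Nat.card_Icc, Nat.add_sub_cancel]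
    rcases Nat.eq_zero_or_pos N with h0 | h0
    · rw [h0]; simp
    · have hNR : (0 : ℝ) < N := by exact_mod_cast h0
      have : (N : ℝ) ^ (5 / 4 : ℝ) = (N : ℝ) * (N : ℝ) ^ (1 / 4 : ℝ) := by
        rw [show (5 / 4 : ℝ) = 1 + 1 / 4 by norm_num, Real.rpow_add hNR, Real.rpow_one]
      rw [this]
      apply le_of_eq; ring
  have hoff : 2 * (N : ℝ) * (∑ n ∈ Finset.Icc 1 N, a n) ^ 2 ≤
      2 * C0 ^ 2 * (16 : ℝ) ^ (7 / 2 : ℝ) * T ^ (1 - (σ - 1 / 2) / 20) := by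
    have h0 : 0 ≤ ∑ n ∈ Finset.Icc 1 N, a n := Finset.sum_nonneg (fun n _ => ha0 n)
    calc 2 * (N : ℝ) * (∑ n ∈ Finset.Icc 1 N, a n) ^ 2
        ≤ 2 * (N : ℝ) * (C0 * (N : ℝ) ^ (5 / 4 : ℝ)) ^ 2 := by gcongr
      _ = 2 * C0 ^ 2 * (N : ℝ) ^ (7 / 2 : ℝ) := by
          rcases Nat.eq_zero_or_pos N with h0 | h0
          · rw [h0]; simp
          · have hNR : (0 : ℝ) < N := by exact_mod_cast h0
            have : (N : ℝ) ^ (7 / 2 : ℝ) = (N : ℝ) * ((N : ℝ) ^ (5 / 4 : ℝ)) ^ 2 := by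
              rw [← Real.rpow_natCast ((N : ℝ) ^ (5 / 4 : ℝ)) 2, ← Real.rpow_mul hNR.le]
              nth_rewrite 2 [← Real.rpow_one (N : ℝ)]
              rw [← Real.rpow_add hNR]
              norm_num
            rw [this]; ring
      _ ≤ 2 * C0 ^ 2 * (16 * T ^ (1 / 5 : ℝ)) ^ (7 / 2 : ℝ) := by gcongr
      _ = 2 * C0 ^ 2 * (16 : ℝ) ^ (7 / 2 : ℝ) * T ^ (7 / 10 : ℝ) := by
          rw [Real.mul_rpow (by norm_num) (by positivity), ← Real.rpow_mul hT0.le]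
          norm_num
          ring
      _ ≤ _ := by
          gcongr
          linarith
  -- the tail
  have hpt : ∀ n : ℕ, 0 ≤ (dr r n : ℝ) ^ 2 / (n : ℝ) ^ (2 * σ) - a n ^ 2 ∧
      (dr r n : ℝ) ^ 2 / (n : ℝ) ^ (2 * σ) - a n ^ 2 ≤
        Y ^ (-(σ - 1 / 2)) * ((dr r n : ℝ) ^ 2 / (n : ℝ) ^ (2 * (σ / 2 + 1 / 4))) := by
    intro n
    have e1 : a n ^ 2 = c n ^ 2 / (n : ℝ) ^ (2 * σ) := by
      rw [ha]
      simp only
      rw [div_pow, ← Real.rpow_natCast ((n : ℝ) ^ σ) 2, ← Real.rpow_mul (by positivity)]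
      congr 2
      push_cast; ring
    have h1 : c n ^ 2 ≤ (dr r n : ℝ) ^ 2 := by
      have := hcd n
      have := hc0 n
      gcongr
    constructor
    · rw [e1, sub_nonneg]
      gcongr
    · rcases le_or_gt (n : ℝ) Y with hn | hn
      · have : c n = dr r n := Bf_pow_eq Y hY0 r n hn
        rw [e1, this, sub_self]
        positivity
      · have hnR : (0 : ℝ) < n := lt_trans hY0 hn
        have h2 : 0 ≤ a n ^ 2 := by positivity
        have h3 : (n : ℝ) ^ (2 * σ) = (n : ℝ) ^ (2 * (σ / 2 + 1 / 4)) * (n : ℝ) ^ (σ - 1 / 2) := by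
          rw [← Real.rpow_add hnR]; congr 1; ring
        have h4 : Y ^ (σ - 1 / 2) ≤ (n : ℝ) ^ (σ - 1 / 2) := by gcongr
        have h5 : (dr r n : ℝ) ^ 2 / (n : ℝ) ^ (2 * σ) ≤
            Y ^ (-(σ - 1 / 2)) * ((dr r n : ℝ) ^ 2 / (n : ℝ) ^ (2 * (σ / 2 + 1 / 4))) := by
          rw [h3, Real.rpow_neg hY0.le, ← div_eq_inv_mul, div_div]
          gcongr
        linarith
  have hasum : ∑' n : ℕ, a n ^ 2 = ∑ n ∈ Finset.Icc 1 N, a n ^ 2 := by
    refine tsum_eq_sum (fun n hn => ?_)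
    have h0 : c n = 0 := by
      by_contra hne
      exact hn (Finset.mem_Icc.mpr (Bf_pow_supp Y hY0 r n hne))
    rw [ha]
    simp [h0]
  have hasm : Summable fun n : ℕ => a n ^ 2 := by
    refine Summable.of_nonneg_of_le (fun n => by positivity) (fun n => ?_) hSm
    linarith [(hpt n).1]
  have htail : |(∑ n ∈ Finset.Icc 1 N, a n ^ 2) - ∑' n : ℕ, (dr r n : ℝ) ^ 2 / (n : ℝ) ^ (2 * σ)| ≤
      Y ^ (-(σ - 1 / 2)) * S := by
    rw [← hasum, abs_sub_comm, ← hSm.tsum_sub hasm, abs_of_nonneg (tsum_nonneg (fun n => (hpt n).1)),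
      hSdef, ← tsum_mul_left]
    exact (hSm.sub hasm).tsum_le_tsum (fun n => (hpt n).2) (hS.mul_left _)
  have hTY : T * (Y ^ (-(σ - 1 / 2)) * S) = S * T ^ (1 - (σ - 1 / 2) / 20) := by
    have : T ^ (1 - (σ - 1 / 2) / 20) = T * Y ^ (-(σ - 1 / 2)) := by
      rw [hYdef, ← Real.rpow_mul hT0.le]
      nth_rewrite 2 [← Real.rpow_one T]
      rw [← Real.rpow_add hT0]
      congr 1
      ring
    rw [this]; ring
  have hT1 : 0 ≤ T ^ (1 - (σ - 1 / 2) / 20) := by positivity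
  calc |(∫ t in T..(2 * T), ‖Zs Y (σ + t * Complex.I)‖ ^ (2 * r)) -
        T * ∑' n : ℕ, (dr r n : ℝ) ^ 2 / (n : ℝ) ^ (2 * σ)|
      = |((∫ t in T..(2 * T), ‖Zs Y (σ + t * Complex.I)‖ ^ (2 * r)) -
          T * ∑ n ∈ Finset.Icc 1 N, a n ^ 2) + T * ((∑ n ∈ Finset.Icc 1 N, a n ^ 2) -
            ∑' n : ℕ, (dr r n : ℝ) ^ 2 / (n : ℝ) ^ (2 * σ))| := by congr 1; ring
    _ ≤ _ := abs_add_le _ _
    _ ≤ 2 * C0 ^ 2 * (16 : ℝ) ^ (7 / 2 : ℝ) * T ^ (1 - (σ - 1 / 2) / 20) +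
        T * (Y ^ (-(σ - 1 / 2)) * S) := by
        refine add_le_add (hmv.trans hoff) ?_
        rw [abs_mul, abs_of_pos hT0]
        exact mul_le_mul_of_nonneg_left htail hT0.le
    _ = (2 * C0 ^ 2 * (16 : ℝ) ^ (7 / 2 : ℝ) + S) * T ^ (1 - (σ - 1 / 2) / 20) := by
        rw [hTY]; ring
    _ ≤ _ := by
        gcongr
        linarith

end Pool.Agent.Work.MP_56b8f5_nt.UC
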