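import Pool.Agent.Work.MP_56b8f5_nt.UC.I_Mel
import Pool.Agent.Work.MP_56b8f5_nt.UC.I_Gam
import Pool.Agent.Work.MP_56b8f5_nt.UC.I_Imf
import Pool.Agent.Work.MP_56b8f5_nt.UC.I_Ns
import Pool.Agent.Work.MP_56b8f5_nt.UC.I_N0
import Pool.Agent.Work.MP_56b8f5_nt.UC.I_Po
import Pool.Agent.Work.MP_56b8f5_nt.UC.I_Bc
import Pool.Agent.Work.MP_56b8f5_nt.UC.I_Rf
import Pool.Agent.Work.MP_56b8f5_nt.UC.I_Kp
import Pool.Agent.Work.MP_56b8f5_nt.UC.I_Kd
import Pool.Agent.Work.MP_56b8f5_nt.UC.I_Mv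
import Pool.Agent.Work.MP_56b8f5_nt.UC.I_Pw
import Pool.Agent.Work.MP_56b8f5_nt.UC.I_Mk
import Pool.Agent.Work.MP_56b8f5_nt.UC.I_S2
import Pool.Agent.Work.MP_56b8f5_nt.UC.I_Tr
import Pool.Agent.Work.MP_56b8f5_nt.UC.I_Du
import Pool.Agent.Work.MP_56b8f5_nt.UC.I_X3
import Pool.Agent.Work.MP_56b8f5_nt.UC.I_T2
import Pool.Agent.Work.MP_56b8f5_nt.UC.I_Jr
import Pool.Agent.Work.MP_56b8f5_nt.UC.I_T3a
import Pool.Agent.Work.MP_56b8f5_nt.UC.I_T3b
import Pool.Agent.Work.MP_56b8f5_nt.UC.I_Mj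
import Pool.Agent.Work.MP_56b8f5_nt.UC.I_Af
import Pool.Agent.Work.MP_56b8f5_nt.UC.I_R24
import Pool.Agent.Work.MP_56b8f5_nt.UC.I_T3
import Pool.Agent.Work.MP_56b8f5_nt.UC.I_Up1
import Pool.Agent.Work.MP_56b8f5_nt.UC.I_Up
import Pool.Agent.Work.MP_56b8f5_nt.UC.I_GM
import Pool.Agent.Work.MP_56b8f5_nt.UC.I_G
import Pool.Agent.Work.MP_56b8f5_nt.UC.I_Hx
import Pool.Agent.Work.MP_56b8f5_nt.UC.I_Sq
import Pool.Agent.Work.MP_56b8f5_nt.UC.I_Tw
import Pool.Agent.Work.MP_56b8f5_nt.UC.I_Lv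
import Pool.Agent.Work.MP_56b8f5_nt.UC.I_Cr
import Pool.Agent.Work.MP_56b8f5_nt.UC.I_Rq
import Pool.Agent.Work.MP_56b8f5_nt.UC.I_C4
import Pool.Agent.Work.MP_56b8f5_nt.UC.I_Cs
import Pool.Agent.Work.MP_56b8f5_nt.UC.I_CA
import Pool.Agent.Work.MP_56b8f5_nt.UC.I_Ze
import Pool.Agent.Work.MP_56b8f5_nt.UC.I_Zd
import Pool.Agent.Work.MP_56b8f5_nt.UC.I_Zp
import Pool.Agent.Work.MP_56b8f5_nt.UC.I_UA
import Pool.Agent.Work.MP_56b8f5_nt.UC.I_UM
import Pool.Agent.Work.MP_56b8f5_nt.UT.All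

/-!
MP_56b8f5_nt, block UC: everything together.
-/

namespace Pool.Agent.Work.MP_56b8f5_nt.UC

theorem all_Mel : StMel := iMel
theorem all_Gam : StGam := iGam
theorem all_Imf : StImf := iImf all_Mel all_Gam
theorem all_Ns : StNs := iNs
theorem all_N0 : StN0 := iN0 all_Mel
theorem all_Po : StPo := iPo
theorem all_Bc : StBc := iBc
theorem all_Rf : StRf := iRf all_Mel all_Gam all_Imf all_Ns all_N0 all_Po all_Bc
theorem all_Kp : StKp := iKp all_Rf all_Bc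
theorem all_Kd : StKd := iKd all_Ns all_Po
theorem all_Mv : StMv := iMv
theorem all_Pw : StPw := iPw
theorem all_Mk : StMk := iMk all_Mv all_Pw all_Bc
theorem all_S2 : StS2 := iS2
theorem all_Tr : StTr := iTr
theorem all_Du : StDu := iDu
theorem all_X3 : StX3 := iX3 all_Tr all_Du all_Kd all_N0 all_Bc all_S2
theorem all_T2 : StT2 := iT2 all_Kd all_N0 all_Rf all_Mk all_Ns all_Bc all_S2
theorem all_Jr : StJr := iJr
theorem all_T3a : StT3a := iT3a all_Jr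
theorem all_T3b : StT3b := iT3b
theorem all_Mj : StMj := iMj
theorem all_Af : StAf := iAf all_Mj
theorem all_R24 : StR24 := iR24 all_S2
theorem all_T3 : StT3 := iT3 all_T3a all_T3b all_Af all_R24
theorem all_Up1 : StUp1 := iUp1 all_Mv
theorem all_Up : StUp := iUp all_Up1 all_Kp all_S2
theorem all_GM : StGM := iGM all_X3 all_T2 all_T3
theorem all_G : StG := iG all_GM all_Up
theorem all_Hx : StHx := iHx all_Du all_Kp all_S2
theorem all_Sq : StSq := iSq all_Pw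
theorem all_Tw : StTw := iTw UT.all_MC EM.all_Z EM.all_Pc all_Mel all_S2
theorem all_Lv : StLv := iLv all_Mk all_Tw all_Hx all_Sq all_G all_Bc
theorem all_Cr : StCr := iCr all_Lv all_Bc
theorem all_Rq : StRq := iRq all_Rf all_Bc
theorem all_C4 : StC4 := iC4 all_Pw all_Rq all_Bc
theorem all_Cs : StCs := iCs all_Cr all_Rq all_Bc
theorem all_CA : StCA := iCA all_C4 all_Cs all_Bc
theorem all_Ze : StZe := iZe all_Ns all_N0 all_Po
theorem all_Zd : StZd := iZd all_Ze all_CA all_Bc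
theorem all_Zp : StZp := iZp
theorem all_UA : StUA := iUA all_Zd all_Zp
theorem all_UM : StUM := iUM all_Zd all_Zp

end Pool.Agent.Work.MP_56b8f5_nt.UC
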