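import Mathlib
import Pool.Agent.Work.MP_56b8f5_nt.UC.Stmts

/-!
MP_56b8f5_nt, block UC, item Lv: large values of blocks.
-/

open MeasureTheory Set Filter Topology

noncomputable section

namespace Pool.Agent.Work.MP_56b8f5_nt.UC

namespace Lv_aux

open Real

/-- case (a) -/
lemma caseA {c δ e ε K R n τ v : ℝ} (hK : 0 ≤ K) (hn : 0 ≤ n) (hτ : 0 ≤ τ) (hδ : δ ≤ 4 * c)
    (he : e ≤ ε) (h : exp (4 * v) * R ≤ K * exp ((1 + e) * τ + 2 * n))
    (hv : v ≤ (3 / 4 - c) * n) :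
    exp (8 * v) * R ≤ K * exp ((1 + ε) * τ + (5 - δ) * n) := by
  calc exp (8 * v) * R = exp (4 * v) * (exp (4 * v) * R) := by
        rw [← mul_assoc, ← exp_add]; ring_nf
    _ ≤ exp (4 * v) * (K * exp ((1 + e) * τ + 2 * n)) := by gcongr
    _ = K * exp (4 * v + ((1 + e) * τ + 2 * n)) := by rw [exp_add (4 * v)]; ring
    _ ≤ K * exp ((1 + ε) * τ + (5 - δ) * n) := by
        refine mul_le_mul_of_nonneg_left (exp_le_exp.mpr ?_) hK
        have h1 : e * τ ≤ ε * τ := by gcongr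
        have h2 : δ * n ≤ 4 * c * n := by gcongr
        nlinarith

/-- cases (b) and (d3) -/
lemma caseT {ε δ δ0 K R n τ v : ℝ} (hK : 0 ≤ K)
    (h : exp (12 * v) * R ≤ K * exp ((2 - δ0) * τ + 6 * n))
    (hv : (2 - δ0) * τ + 6 * n - 4 * v ≤ (1 + ε) * τ + (5 - δ) * n) :
    exp (8 * v) * R ≤ K * exp ((1 + ε) * τ + (5 - δ) * n) := by
  calc exp (8 * v) * R = exp (-(4 * v)) * (exp (12 * v) * R) := by
        rw [← mul_assoc, ← exp_add]; ring_nf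
    _ ≤ exp (-(4 * v)) * (K * exp ((2 - δ0) * τ + 6 * n)) := by gcongr
    _ = K * exp (-(4 * v) + ((2 - δ0) * τ + 6 * n)) := by rw [exp_add (-(4 * v))]; ring
    _ ≤ K * exp ((1 + ε) * τ + (5 - δ) * n) :=
        mul_le_mul_of_nonneg_left (exp_le_exp.mpr (by linarith)) hK

/-- case (c) -/
lemma caseC {ε δ e K R n τ v : ℝ} (hK : 0 ≤ K)
    (h : R ≤ K * exp (6 * e * τ) * (exp (4 * n - 4 * v) + exp (τ + 8 * n - 12 * v)))
    (hv1 : 6 * e * τ + 4 * n + 4 * v ≤ (1 + ε) * τ + (5 - δ) * n)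
    (hv2 : 6 * e * τ + τ + 8 * n - 4 * v ≤ (1 + ε) * τ + (5 - δ) * n) :
    exp (8 * v) * R ≤ 2 * K * exp ((1 + ε) * τ + (5 - δ) * n) := by
  calc exp (8 * v) * R ≤ exp (8 * v) *
        (K * exp (6 * e * τ) * (exp (4 * n - 4 * v) + exp (τ + 8 * n - 12 * v))) := by gcongr
    _ = K * (exp (8 * v + 6 * e * τ + (4 * n - 4 * v)) +
        exp (8 * v + 6 * e * τ + (τ + 8 * n - 12 * v))) := by
        rw [exp_add (8 * v + 6 * e * τ), exp_add (8 * v + 6 * e * τ), exp_add (8 * v)]; ring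
    _ ≤ K * (exp ((1 + ε) * τ + (5 - δ) * n) + exp ((1 + ε) * τ + (5 - δ) * n)) :=
        mul_le_mul_of_nonneg_left (add_le_add (exp_le_exp.mpr (by linarith))
          (exp_le_exp.mpr (by linarith))) hK
    _ = _ := by ring

/-- case (d1) -/
lemma caseD1 {ε δ e K R n τ v : ℝ} (hK : 0 ≤ K)
    (h : exp (6 * v) * R ≤ K * exp (e * τ) * (exp τ + exp (3 * n)) * exp (3 * n))
    (hv1 : 2 * v + e * τ + τ + 3 * n ≤ (1 + ε) * τ + (5 - δ) * n)
    (hv2 : 2 * v + e * τ + 6 * n ≤ (1 + ε) * τ + (5 - δ) * n) :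
    exp (8 * v) * R ≤ 2 * K * exp ((1 + ε) * τ + (5 - δ) * n) := by
  calc exp (8 * v) * R = exp (2 * v) * (exp (6 * v) * R) := by
        rw [← mul_assoc, ← exp_add]; ring_nf
    _ ≤ exp (2 * v) * (K * exp (e * τ) * (exp τ + exp (3 * n)) * exp (3 * n)) := by gcongr
    _ = K * (exp (2 * v + e * τ + τ + 3 * n) + exp (2 * v + e * τ + 3 * n + 3 * n)) := by
        simp only [exp_add]; ring
    _ ≤ K * (exp ((1 + ε) * τ + (5 - δ) * n) + exp ((1 + ε) * τ + (5 - δ) * n)) :=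
        mul_le_mul_of_nonneg_left (add_le_add (exp_le_exp.mpr (by linarith))
          (exp_le_exp.mpr (by linarith))) hK
    _ = _ := by ring

/-- case (d2) -/
lemma caseD2 {ε δ δG K R n τ v : ℝ} (hK : 0 ≤ K)
    (h : R ≤ K * exp ((1 - δG) * τ - n))
    (hv : 8 * v + ((1 - δG) * τ - n) ≤ (1 + ε) * τ + (5 - δ) * n) :
    exp (8 * v) * R ≤ K * exp ((1 + ε) * τ + (5 - δ) * n) := by
  calc exp (8 * v) * R ≤ exp (8 * v) * (K * exp ((1 - δG) * τ - n)) := by gcongr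
    _ = K * exp (8 * v + ((1 - δG) * τ - n)) := by rw [exp_add (8 * v)]; ring
    _ ≤ _ := mul_le_mul_of_nonneg_left (exp_le_exp.mpr hv) hK

/-- combination of all cases -/
lemma combine {δ0 δG c e ε K2 K3 KT KH KG R n τ v : ℝ} (h01 : 0 < δ0) (h02 : δ0 ≤ 1 / 10)
    (hG1 : 0 < δG) (hG2 : δG ≤ 1 / 10) (hc : 0 < c) (hc0 : c ≤ δ0 / 200) (hcG : c ≤ δG / 200)
    (he : 0 < e) (heε : e ≤ ε / 100) (hec : e ≤ c / 100) (hK2 : 0 ≤ K2) (hK3 : 0 ≤ K3)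
    (hKT : 0 ≤ KT) (hKH : 0 ≤ KH) (hKG : 0 ≤ KG) (hn : 0 ≤ n) (hτ : 2 * n ≤ τ)
    (h2 : exp (4 * v) * R ≤ K2 * exp ((1 + e) * τ + 2 * n))
    (h3 : exp (6 * v) * R ≤ K3 * exp (e * τ) * (exp τ + exp (3 * n)) * exp (3 * n))
    (hT : exp (12 * v) * R ≤ KT * exp ((2 - δ0) * τ + 6 * n))
    (hH : R ≤ KH * exp (6 * e * τ) * (exp (4 * n - 4 * v) + exp (τ + 8 * n - 12 * v)))
    (hG : (2 / 5 - δG / 4) * τ ≤ n → n ≤ (1 / 2 - δ0 / 16) * τ → (3 / 4 - c) * n ≤ v →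
      R ≤ KG * exp ((1 - δG) * τ - n)) :
    exp (8 * v) * R ≤ (K2 + KT + 2 * KH + 2 * K3 + KG) * exp ((1 + ε) * τ + (5 - c / 4) * n) := by
  have hE : 0 < exp ((1 + ε) * τ + (5 - c / 4) * n) := exp_pos _
  have hτ0 : 0 ≤ τ := by linarith
  have hcn : 0 ≤ c * n := by positivity
  have hcτ : 2 * (c * n) ≤ c * τ := by nlinarith
  have heτ : 0 ≤ e * τ := by positivity
  have heετ : 100 * (e * τ) ≤ ε * τ := by nlinarith
  have hecτ : 100 * (e * τ) ≤ c * τ := by nlinarith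
  have hc0τ : 200 * (c * τ) ≤ δ0 * τ := by nlinarith
  have hcGτ : 200 * (c * τ) ≤ δG * τ := by nlinarith
  have hc0n : 200 * (c * n) ≤ δ0 * n := by nlinarith
  have hcGn : 200 * (c * n) ≤ δG * n := by nlinarith
  have hδ0n : δ0 * n ≤ n / 10 := by nlinarith
  have hδ0τ : 2 * (δ0 * n) ≤ δ0 * τ := by nlinarith
  have hδGτ : 2 * (δG * n) ≤ δG * τ := by nlinarith
  have hδGn : δG * n ≤ n / 10 := by nlinarith
  have fin : ∀ X : ℝ, X ≤ K2 + KT + 2 * KH + 2 * K3 + KG →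
      exp (8 * v) * R ≤ X * exp ((1 + ε) * τ + (5 - c / 4) * n) →
      exp (8 * v) * R ≤ (K2 + KT + 2 * KH + 2 * K3 + KG) *
        exp ((1 + ε) * τ + (5 - c / 4) * n) := by
    intro X hX h
    exact h.trans (mul_le_mul_of_nonneg_right hX hE.le)
  rcases le_total v ((3 / 4 - c) * n) with hA | hA
  · apply fin K2 (by linarith)
    exact caseA hK2 hn hτ0 (by linarith) (by linarith) h2 hA
  rcases le_total (n / 4 + (1 / 4 - c) * τ) v with hB | hB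
  · apply fin KT (by linarith)
    apply caseT hKT hT
    nlinarith
  rcases le_total ((3 / 4 + c) * n) v with hC | hC
  · apply fin (2 * KH) (by linarith)
    apply caseC hKH hH
    · nlinarith
    · nlinarith
  rcases le_total n ((2 / 5 - δG / 4) * τ) with hD1 | hD1
  · apply fin (2 * K3) (by linarith)
    apply caseD1 hK3 h3
    · nlinarith
    · have h1 : 2 * v ≤ (3 / 2 + 2 * c) * n := by linarith
      have h4 : (5 / 2) * n ≤ (1 - 5 / 8 * δG) * τ := by linarith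
      nlinarith
  rcases le_total n ((1 / 2 - δ0 / 16) * τ) with hD2 | hD2
  · apply fin KG (by linarith)
    apply caseD2 hKG (hG hD1 hD2 hA)
    nlinarith
  · apply fin KT (by linarith)
    apply caseT hKT hT
    have h1 : 4 * v ≥ (3 - 4 * c) * n := by linarith
    have h4 : (1 - δ0 / 8) * τ ≤ 2 * n := by linarith
    nlinarith

/-- pigeonhole over the dyadic pieces -/
lemma pieces {J : ℕ} {A V X : ℝ} (W : Finset ℝ) (B : ℝ → ℂ) (P : ℕ → ℝ → ℂ) (hA : 0 < A)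
    (hJ : 1 ≤ J) (hB : ∀ t, B t ^ 2 = ((A : ℝ) : ℂ) * ∑ j ∈ Finset.range J, P j t) (hV : 0 ≤ V)
    (hW : ∀ t ∈ W, V ≤ ‖B t‖)
    (hX : ∀ j < J, ∀ W' ⊆ W, (∀ t ∈ W', V ^ 2 / (A * J) ≤ ‖P j t‖) → (W'.card : ℝ) ≤ X) :
    (W.card : ℝ) ≤ J * X := by
  classical
  have hJ0 : (0 : ℝ) < J := by exact_mod_cast hJ
  have hsub : W ⊆ (Finset.range J).biUnion
      (fun j => W.filter (fun t => V ^ 2 / (A * J) ≤ ‖P j t‖)) := by
    intro t ht
    by_contra hcon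
    simp only [Finset.mem_biUnion, Finset.mem_filter, Finset.mem_range, not_exists, not_and,
      not_le] at hcon
    have h1 : ∀ j ∈ Finset.range J, ‖P j t‖ < V ^ 2 / (A * J) := fun j hj =>
      hcon j (Finset.mem_range.mp hj) ht
    have h2 : V ^ 2 ≤ ‖B t‖ ^ 2 := by
      have := hW t ht
      gcongr
    have h3 : ‖B t‖ ^ 2 = A * ‖∑ j ∈ Finset.range J, P j t‖ := by
      rw [← norm_pow, hB, norm_mul, Complex.norm_real, Real.norm_of_nonneg hA.le]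
    have h4 : ‖∑ j ∈ Finset.range J, P j t‖ ≤ ∑ j ∈ Finset.range J, ‖P j t‖ := norm_sum_le _ _
    have h5 : ∑ j ∈ Finset.range J, ‖P j t‖ < ∑ j ∈ Finset.range J, V ^ 2 / (A * J) :=
      Finset.sum_lt_sum_of_nonempty ⟨0, Finset.mem_range.mpr hJ⟩ h1
    rw [Finset.sum_const, Finset.card_range, nsmul_eq_mul] at h5
    have h6 : A * (J * (V ^ 2 / (A * J))) = V ^ 2 := by field_simp
    have h7 : A * ‖∑ j ∈ Finset.range J, P j t‖ < A * (J * (V ^ 2 / (A * J))) :=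
      mul_lt_mul_of_pos_left (lt_of_le_of_lt h4 h5) hA
    linarith
  have hcard : (W.card : ℝ) ≤ ∑ j ∈ Finset.range J,
      ((W.filter (fun t => V ^ 2 / (A * J) ≤ ‖P j t‖)).card : ℝ) := by
    have := (Finset.card_le_card hsub).trans Finset.card_biUnion_le
    exact_mod_cast this
  refine hcard.trans ?_
  calc ∑ j ∈ Finset.range J, ((W.filter (fun t => V ^ 2 / (A * J) ≤ ‖P j t‖)).card : ℝ)
      ≤ ∑ j ∈ Finset.range J, X := by
        refine Finset.sum_le_sum fun j hj => ?_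
        exact hX j (Finset.mem_range.mp hj) _ (Finset.filter_subset _ _)
          (fun t ht => (Finset.mem_filter.mp ht).2)
    _ = J * X := by rw [Finset.sum_const, Finset.card_range, nsmul_eq_mul]

lemma sum_lb {W : Finset ℝ} {f : ℝ → ℝ} {V : ℝ} (hV : 0 ≤ V) (h : ∀ t ∈ W, V ≤ f t) (m : ℕ) :
    V ^ m * W.card ≤ ∑ t ∈ W, f t ^ m := by
  have := Finset.card_nsmul_le_sum W (fun t => f t ^ m) (V ^ m) (fun t ht => by
    have := h t ht
    gcongr)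
  rw [nsmul_eq_mul] at this
  linarith [mul_comm (V ^ m) (W.card : ℝ)]

lemma rp (x a : ℝ) : (exp x) ^ a = exp (a * x) := by rw [← exp_mul, mul_comm]

lemma np (x : ℝ) (m : ℕ) : (exp x) ^ m = exp (m * x) := (exp_nat_mul x m).symm

lemma two_rpow_le {e : ℝ} (he : e ≤ 1) : (2 : ℝ) ^ e ≤ 2 := by
  calc (2 : ℝ) ^ e ≤ 2 ^ (1 : ℝ) := rpow_le_rpow_of_exponent_le (by norm_num) he
    _ = 2 := rpow_one 2

/-- separation is inherited by subsets -/
lemma sep_sub {W W' : Finset ℝ} (h : Sep W) (hs : W' ⊆ W) : Sep W' :=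
  fun s hs' t ht' hst => h s (hs hs') t (hs ht') hst

/-- thresholds -/
lemma threshold {a b A B C : ℝ} (ha : 0 < a) (hb : 0 < b) : ∃ T0 : ℝ, 1 ≤ T0 ∧ ∀ T : ℝ, T0 ≤ T →
    A ≤ T ^ a ∧ B ≤ T ^ a ∧ C ≤ T ^ b := by
  have h1 := (tendsto_rpow_atTop ha).eventually_ge_atTop A
  have h2 := (tendsto_rpow_atTop ha).eventually_ge_atTop B
  have h3 := (tendsto_rpow_atTop hb).eventually_ge_atTop C
  obtain ⟨T0, hT0⟩ := Filter.eventually_atTop.mp (h1.and (h2.and h3))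
  exact ⟨max 1 T0, le_max_left _ _, fun T hT => hT0 T ((le_max_right _ _).trans hT)⟩

/-- even moments -/
lemma moment {W : Finset ℝ} {f : ℝ → ℝ} {T N V e K : ℝ} {k : ℕ} (hT : 1 ≤ T) (hN : 1 ≤ N)
    (he1 : e ≤ 1) (hK : 0 ≤ K) (hV : 0 ≤ V)
    (h : ∀ t ∈ W, V ≤ f t)
    (hm : ∑ t ∈ W, f t ^ (2 * k) ≤ K * (2 * T) ^ e * (2 * T + N ^ k) * N ^ k) :
    V ^ (2 * k) * W.card ≤ 4 * K * T ^ e * (T + N ^ k) * N ^ k := by
  refine (sum_lb hV h (2 * k)).trans (hm.trans ?_)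
  have h1 : (2 * T) ^ e ≤ 2 * T ^ e := by
    rw [mul_rpow (by norm_num) (by linarith)]
    have := two_rpow_le he1
    gcongr
  have h2 : 2 * T + N ^ k ≤ 2 * (T + N ^ k) := by
    have : 0 ≤ N ^ k := by positivity
    linarith
  calc K * (2 * T) ^ e * (2 * T + N ^ k) * N ^ k
      ≤ K * (2 * T ^ e) * (2 * (T + N ^ k)) * N ^ k := by gcongr
    _ = _ := by ring

/-- bound for one piece by Huxley's estimate -/
lemma pieceH {CH CS cJ E T N V L : ℝ} (hCH : 0 ≤ CH) (hCS : 1 ≤ CS) (hJ0 : 1 ≤ cJ) (hE1 : 1 ≤ E)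
    (hT : 0 < T) (hN : 0 < N) (hV : 0 < V) (hL0 : 0 ≤ L) (hL2 : L ≤ CS * N ^ 2) :
    CH * (L ^ 2 / (V ^ 2 / (CS * E * cJ)) ^ 2 + (2 * T) * L ^ 4 / (V ^ 2 / (CS * E * cJ)) ^ 6) ≤
      CH * (2 * (CS ^ 10 * cJ ^ 6)) * (E ^ 6 * (N ^ 4 / V ^ 4 + T * N ^ 8 / V ^ 12)) := by
  have hE0 : 0 < E := by linarith
  have hCS0 : 0 < CS := by linarith
  have hJ00 : 0 < cJ := by linarith
  have q1 : L ^ 2 / (V ^ 2 / (CS * E * cJ)) ^ 2 ≤ CS ^ 4 * cJ ^ 2 * E ^ 2 * (N ^ 4 / V ^ 4) := by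
    calc L ^ 2 / (V ^ 2 / (CS * E * cJ)) ^ 2 ≤
        (CS * N ^ 2) ^ 2 / (V ^ 2 / (CS * E * cJ)) ^ 2 := by gcongr
      _ = _ := by field_simp
  have q2 : (2 * T) * L ^ 4 / (V ^ 2 / (CS * E * cJ)) ^ 6 ≤
      2 * (CS ^ 10 * cJ ^ 6) * E ^ 6 * (T * N ^ 8 / V ^ 12) := by
    calc (2 * T) * L ^ 4 / (V ^ 2 / (CS * E * cJ)) ^ 6 ≤
        (2 * T) * (CS * N ^ 2) ^ 4 / (V ^ 2 / (CS * E * cJ)) ^ 6 := by gcongr
      _ = _ := by field_simp
  have q3 : CS ^ 4 * cJ ^ 2 * E ^ 2 ≤ 2 * (CS ^ 10 * cJ ^ 6) * E ^ 6 := by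
    have a1 : CS ^ 4 ≤ CS ^ 10 := pow_le_pow_right₀ hCS (by norm_num)
    have a2 : cJ ^ 2 ≤ cJ ^ 6 := pow_le_pow_right₀ hJ0 (by norm_num)
    have a3 : E ^ 2 ≤ E ^ 6 := pow_le_pow_right₀ hE1 (by norm_num)
    have a4 : 0 ≤ CS ^ 10 * cJ ^ 6 * E ^ 6 := by positivity
    calc CS ^ 4 * cJ ^ 2 * E ^ 2 ≤ CS ^ 10 * cJ ^ 6 * E ^ 6 := by gcongr
      _ ≤ 2 * (CS ^ 10 * cJ ^ 6) * E ^ 6 := by linarith
  calc CH * (L ^ 2 / (V ^ 2 / (CS * E * cJ)) ^ 2 +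
        (2 * T) * L ^ 4 / (V ^ 2 / (CS * E * cJ)) ^ 6)
      ≤ CH * (CS ^ 4 * cJ ^ 2 * E ^ 2 * (N ^ 4 / V ^ 4) +
        2 * (CS ^ 10 * cJ ^ 6) * E ^ 6 * (T * N ^ 8 / V ^ 12)) := by gcongr
    _ ≤ CH * (2 * (CS ^ 10 * cJ ^ 6) * E ^ 6 * (N ^ 4 / V ^ 4) +
        2 * (CS ^ 10 * cJ ^ 6) * E ^ 6 * (T * N ^ 8 / V ^ 12)) := by gcongr
    _ = _ := by ring

/-- the three conditions of Theorem G and its conclusion for one piece -/
lemma pieceG {CG CS cS cJ T N V L δG δ0 c e τ n v : ℝ} (hτ : T = exp τ) (hn : N = exp n)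
    (hv : V = exp v) (h01 : 0 < δ0) (h02 : δ0 ≤ 1 / 10)
    (hG1 : 0 < δG) (hG2 : δG ≤ 1 / 10) (hc : 0 < c) (hcG : c ≤ δG / 200)
    (hec : e ≤ c / 100) (hn0 : 0 ≤ n) (hnτ : 2 * n ≤ τ)
    (hcS : 0 < cS) (hCS : 1 ≤ CS) (hJ0 : 1 ≤ cJ) (hCG : 0 ≤ CG)
    (th1 : 2 / cS ≤ T ^ (δG / 2)) (th2 : CS ^ 2 * cJ ≤ T ^ (δG / 2))
    (th3 : CS ^ 2 ≤ T ^ (4 * (δ0 / 16) ^ 2)) (hL0 : 0 < L) (hL2 : L ≤ CS * N ^ 2)
    (hL3 : cS * N ^ 2 ≤ L) (hD1 : (2 / 5 - δG / 4) * τ ≤ n) (hD2 : n ≤ (1 / 2 - δ0 / 16) * τ)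
    (hA : (3 / 4 - c) * n ≤ v) :
    (2 * T) ^ (4 / 5 - δG) ≤ L ∧ L ^ (1 + δ0 / 8) ≤ 2 * T ∧
      L ^ (3 / 4 : ℝ) * (2 * T) ^ (-δG) ≤ V ^ 2 / (CS * T ^ e * cJ) ∧
      CG * (2 * T) ^ (1 - δG) / Real.sqrt L ≤ CG * (2 / Real.sqrt cS) * (T ^ (1 - δG) / N) := by
  have hTpos : 0 < T := by rw [hτ]; exact exp_pos _
  have hNpos : 0 < N := by rw [hn]; exact exp_pos _
  have hVpos : 0 < V := by rw [hv]; exact exp_pos _
  have hτ0 : 0 ≤ τ := by linarith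
  have eT : ∀ b : ℝ, T ^ b = exp (b * τ) := fun b => by rw [hτ, rp]
  have eNn : ∀ k : ℕ, N ^ k = exp (k * n) := fun k => by rw [hn, np]
  have eVn : ∀ k : ℕ, V ^ k = exp (k * v) := fun k => by rw [hv, np]
  have hCS0 : 0 < CS := by linarith
  have hJ00 : 0 < cJ := by linarith
  refine ⟨?_, ?_, ?_, ?_⟩
  · have c1 : (2 * T) ^ (4 / 5 - δG) ≤ 2 * T ^ (4 / 5 - δG) := by
      rw [mul_rpow (by norm_num) hTpos.le]
      have := two_rpow_le (e := 4 / 5 - δG) (by linarith)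
      gcongr
    have c2 : 2 ≤ cS * T ^ (δG / 2) := by rwa [div_le_iff₀' hcS] at th1
    have c3 : T ^ (δG / 2) * T ^ (4 / 5 - δG) ≤ N ^ 2 := by
      rw [eT, eT, eNn, ← exp_add, exp_le_exp]
      push_cast
      nlinarith
    calc (2 * T) ^ (4 / 5 - δG) ≤ 2 * T ^ (4 / 5 - δG) := c1
      _ ≤ (cS * T ^ (δG / 2)) * T ^ (4 / 5 - δG) := by gcongr
      _ = cS * (T ^ (δG / 2) * T ^ (4 / 5 - δG)) := by ring
      _ ≤ cS * N ^ 2 := by gcongr
      _ ≤ L := hL3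
  · have c1 : L ^ (1 + δ0 / 8) ≤ (CS * N ^ 2) ^ (1 + δ0 / 8) :=
      rpow_le_rpow hL0.le hL2 (by linarith)
    have c2 : (CS * N ^ 2) ^ (1 + δ0 / 8) = CS ^ (1 + δ0 / 8) * (N ^ 2) ^ (1 + δ0 / 8) :=
      mul_rpow (by linarith) (by positivity)
    have c3 : CS ^ (1 + δ0 / 8) ≤ CS ^ 2 := by
      rw [← rpow_natCast CS 2]
      exact rpow_le_rpow_of_exponent_le hCS (by push_cast; linarith)
    have c4 : (N ^ 2) ^ (1 + δ0 / 8) * T ^ (4 * (δ0 / 16) ^ 2) ≤ T := by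
      rw [eNn, rp, eT, ← exp_add]
      refine le_trans (exp_le_exp.mpr ?_) hτ.ge
      push_cast
      have d1 : 2 * n ≤ (1 - δ0 / 8) * τ := by linarith
      have d2 : (1 + δ0 / 8) * (2 * n) ≤ (1 + δ0 / 8) * ((1 - δ0 / 8) * τ) := by gcongr
      nlinarith
    calc L ^ (1 + δ0 / 8) ≤ CS ^ (1 + δ0 / 8) * (N ^ 2) ^ (1 + δ0 / 8) := by
          rw [← c2]; exact c1
      _ ≤ T ^ (4 * (δ0 / 16) ^ 2) * (N ^ 2) ^ (1 + δ0 / 8) := by
          gcongr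
          exact c3.trans th3
      _ ≤ T := by linarith [mul_comm (T ^ (4 * (δ0 / 16) ^ 2)) ((N ^ 2) ^ (1 + δ0 / 8))]
      _ ≤ 2 * T := by linarith
  · have c1 : L ^ (3 / 4 : ℝ) ≤ CS * exp (3 / 2 * n) := by
      calc L ^ (3 / 4 : ℝ) ≤ (CS * N ^ 2) ^ (3 / 4 : ℝ) :=
            rpow_le_rpow hL0.le hL2 (by norm_num)
        _ = CS ^ (3 / 4 : ℝ) * (N ^ 2) ^ (3 / 4 : ℝ) :=
            mul_rpow (by linarith) (by positivity)
        _ ≤ CS * exp (3 / 2 * n) := by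
            rw [eNn, rp]
            have d1 : CS ^ (3 / 4 : ℝ) ≤ CS := by
              calc CS ^ (3 / 4 : ℝ) ≤ CS ^ (1 : ℝ) :=
                    rpow_le_rpow_of_exponent_le hCS (by norm_num)
                _ = CS := rpow_one _
            have d2 : (3 / 4 : ℝ) * (((2 : ℕ) : ℝ) * n) = 3 / 2 * n := by push_cast; ring
            rw [d2]
            gcongr
    have c2 : (2 * T) ^ (-δG) ≤ exp (-δG * τ) := by
      rw [← eT]
      exact rpow_le_rpow_of_nonpos hTpos (by linarith) (by linarith)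
    have hTe : 0 < T ^ e := by positivity
    rw [le_div_iff₀ (by positivity)]
    have c3 : exp (3 / 2 * n) * exp (-δG * τ) * exp (e * τ) * exp (δG / 2 * τ) ≤ V ^ 2 := by
      rw [eVn, ← exp_add, ← exp_add, ← exp_add, exp_le_exp]
      push_cast
      have d1 : c * (2 * n) ≤ c * τ := by gcongr
      have d2 : e * τ ≤ c / 100 * τ := by gcongr
      have d3 : c * τ ≤ δG / 200 * τ := by gcongr
      have d4 : 0 ≤ δG * τ := by positivity
      nlinarith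
    calc L ^ (3 / 4 : ℝ) * (2 * T) ^ (-δG) * (CS * T ^ e * cJ) ≤
        (CS * exp (3 / 2 * n)) * exp (-δG * τ) * (CS * T ^ e * cJ) := by gcongr
      _ = exp (3 / 2 * n) * exp (-δG * τ) * exp (e * τ) * (CS ^ 2 * cJ) := by
          rw [eT]; ring
      _ ≤ exp (3 / 2 * n) * exp (-δG * τ) * exp (e * τ) * exp (δG / 2 * τ) := by
          rw [← eT (δG / 2)]
          gcongr
      _ ≤ V ^ 2 := c3
  · have s1 : (2 * T) ^ (1 - δG) ≤ 2 * T ^ (1 - δG) := by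
      rw [mul_rpow (by norm_num) hTpos.le]
      have := two_rpow_le (e := 1 - δG) (by linarith)
      gcongr
    have s2 : Real.sqrt cS * N ≤ Real.sqrt L := by
      calc Real.sqrt cS * N = Real.sqrt (cS * N ^ 2) := by
            rw [Real.sqrt_mul hcS.le, Real.sqrt_sq hNpos.le]
        _ ≤ _ := Real.sqrt_le_sqrt hL3
    have s3 : 0 < Real.sqrt cS := Real.sqrt_pos.mpr hcS
    calc CG * (2 * T) ^ (1 - δG) / Real.sqrt L ≤
        CG * (2 * T ^ (1 - δG)) / (Real.sqrt cS * N) := by gcongr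
      _ = _ := by field_simp

end Lv_aux

open Lv_aux Real in
theorem iLv (hMk : StMk) (hTw : StTw) (hHx : StHx) (hSq : StSq) (hG : StG) (hBc : StBc) :
    StLv := by
  obtain ⟨δ0, hδ0, hδ0', hTw⟩ := hTw
  obtain ⟨δG, CG, hδG, hδG', hCG, hG⟩ := hG (δ0 / 8) (by positivity)
  obtain ⟨CH, hCH, hHx⟩ := hHx
  obtain ⟨c, hcdef⟩ : ∃ c, c = min δ0 δG / 200 := ⟨_, rfl⟩
  have hc : 0 < c := by rw [hcdef]; have := lt_min hδ0 hδG; positivity
  have hc0 : c ≤ δ0 / 200 := by rw [hcdef]; have := min_le_left δ0 δG; linarith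
  have hcG : c ≤ δG / 200 := by rw [hcdef]; have := min_le_right δ0 δG; linarith
  refine ⟨c / 4, by positivity, by linarith, fun w hw ε hε => ?_⟩
  obtain ⟨-, -, -, CB, hCB, hB, -⟩ := hBc w hw
  obtain ⟨CT, hCT, hT⟩ := hTw w hw
  obtain ⟨e, hedef⟩ : ∃ e, e = min ε c / 100 := ⟨_, rfl⟩
  have he : 0 < e := by rw [hedef]; have := lt_min hε hc; positivity
  have heε : e ≤ ε / 100 := by rw [hedef]; have := min_le_left ε c; linarith
  have hec : e ≤ c / 100 := by rw [hedef]; have := min_le_right ε c; linarith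
  have he1 : e ≤ 1 := by linarith
  obtain ⟨C1, hC1, hM1⟩ := hMk w hw 1 e le_rfl he
  obtain ⟨C2, hC2, hM2⟩ := hMk w hw 2 e (by norm_num) he
  obtain ⟨C3, hC3, hM3⟩ := hMk w hw 3 e (by norm_num) he
  obtain ⟨J, cS, CS, hcS, hCS, hJ, hS⟩ := hSq w hw e he
  have hJ0 : (1 : ℝ) ≤ J := by exact_mod_cast hJ
  obtain ⟨T0, hT0, hthr⟩ := threshold (a := δG / 2) (b := 4 * (δ0 / 16) ^ 2) (A := 2 / cS)
    (B := CS ^ 2 * J) (C := CS ^ 2) (by positivity) (by positivity)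
  obtain ⟨N0, hN0def⟩ : ∃ N0, N0 = max T0 (1 / cS) := ⟨_, rfl⟩
  have hN0a : T0 ≤ N0 := by rw [hN0def]; exact le_max_left _ _
  have hN0b : 1 / cS ≤ N0 := by rw [hN0def]; exact le_max_right _ _
  have hN01 : 1 ≤ N0 := hT0.trans hN0a
  obtain ⟨KH, hKHdef⟩ : ∃ KH, KH = J * (CH * (2 * (CS ^ 10 * J ^ 6))) := ⟨_, rfl⟩
  obtain ⟨KG, hKGdef⟩ : ∃ KG, KG = J * (CG * (2 / Real.sqrt cS)) := ⟨_, rfl⟩
  have hKH0 : 0 ≤ KH := by rw [hKHdef]; positivity
  have hKG0 : 0 ≤ KG := by rw [hKGdef]; positivity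
  obtain ⟨K0, hK0def⟩ : ∃ K0, K0 = 8 * C1 * CB ^ 6 * N0 ^ 7 := ⟨_, rfl⟩
  have hK0 : 1 ≤ K0 := by
    rw [hK0def]
    have h1 : 1 ≤ CB ^ 6 := one_le_pow₀ hCB
    have h2 : 1 ≤ N0 ^ 7 := one_le_pow₀ hN01
    have h3 : 1 ≤ 8 * C1 := by linarith
    calc (1 : ℝ) = 1 * 1 * 1 := by norm_num
      _ ≤ 8 * C1 * CB ^ 6 * N0 ^ 7 := by gcongr
  refine ⟨K0 + (8 * C2 + CT + 2 * KH + 2 * (4 * C3) + KG), by
    have : 0 ≤ 8 * C2 + CT + 2 * KH + 2 * (4 * C3) + KG := by positivity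
    linarith, ?_⟩
  intro T N V W hT1 hN1 hNT hV1 hSep hWT hWV
  have hTpos : 0 < T := by linarith
  have hNpos : 0 < N := by linarith
  have hVpos : 0 < V := by linarith
  have hNT' : N ≤ T := by nlinarith
  have hgoal0 : 0 ≤ T ^ (1 + ε) * N ^ (5 - c / 4) := by positivity
  rcases W.eq_empty_or_nonempty with rfl | hne
  · simp only [Finset.card_empty, Nat.cast_zero, mul_zero]
    have : 0 ≤ K0 + (8 * C2 + CT + 2 * KH + 2 * (4 * C3) + KG) := by positivity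
    positivity
  have hW3 : ∀ t ∈ W, T ≤ t ∧ t ≤ T + 2 * T := fun t ht =>
    ⟨(hWT t ht).1, by have := (hWT t ht).2; linarith⟩
  have hVN : V ≤ CB * N := by
    obtain ⟨t, ht⟩ := hne
    exact (hWV t ht).trans (hB N t hNpos)
  have m1 := moment (k := 1) hT1 hN1 he1 (by linarith) hVpos.le hWV
    (hM1 T (2 * T) N W (by linarith) hNpos (by linarith) hSep hW3)
  have m2 := moment (k := 2) hT1 hN1 he1 (by linarith) hVpos.le hWV
    (hM2 T (2 * T) N W (by linarith) hNpos (by linarith) hSep hW3)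
  have m3 := moment (k := 3) hT1 hN1 he1 (by linarith) hVpos.le hWV
    (hM3 T (2 * T) N W (by linarith) hNpos (by linarith) hSep hW3)
  rcases le_total N N0 with hsmall | hlarge
  · -- small `N`
    have h1 : V ^ 8 * (W.card : ℝ) ≤ K0 * (T ^ (1 + ε) * N ^ (5 - c / 4)) := by
      have hTe : T ^ e * T ≤ T ^ (1 + ε) := by
        have : T ^ e * T = T ^ (e + 1) := by rw [rpow_add hTpos, rpow_one]
        rw [this]
        exact rpow_le_rpow_of_exponent_le hT1 (by linarith)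
      have hN5 : 1 ≤ N ^ (5 - c / 4) := one_le_rpow hN1 (by linarith)
      calc V ^ 8 * (W.card : ℝ) = V ^ 6 * (V ^ (2 * 1) * W.card) := by ring
        _ ≤ (CB * N) ^ 6 * (4 * C1 * T ^ e * (T + N ^ 1) * N ^ 1) := by gcongr
        _ ≤ (CB * N0) ^ 6 * (4 * C1 * T ^ e * (T + T) * N0) := by
            rw [pow_one]; gcongr
        _ = 8 * C1 * CB ^ 6 * N0 ^ 7 * (T ^ e * T * 1) := by ring
        _ ≤ 8 * C1 * CB ^ 6 * N0 ^ 7 * (T ^ (1 + ε) * N ^ (5 - c / 4)) := by gcongr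
        _ = _ := by rw [hK0def]
    have h2 : 0 ≤ (8 * C2 + CT + 2 * KH + 2 * (4 * C3) + KG) := by positivity
    calc V ^ 8 * (W.card : ℝ) ≤ K0 * (T ^ (1 + ε) * N ^ (5 - c / 4)) := h1
      _ ≤ (K0 + (8 * C2 + CT + 2 * KH + 2 * (4 * C3) + KG)) *
          (T ^ (1 + ε) * N ^ (5 - c / 4)) := by gcongr; linarith
      _ = _ := by ring
  · -- large `N`
    have hTN0 : T0 ≤ T := hN0a.trans (hlarge.trans hNT')
    obtain ⟨th1, th2, th3⟩ := hthr T hTN0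
    have hcN : 1 ≤ cS * N ^ 2 := by
      have h1 : 1 / cS ≤ N := hN0b.trans hlarge
      have h2 : 1 ≤ cS * N := by rwa [div_le_iff₀' hcS] at h1
      nlinarith
    obtain ⟨a, Lj, ha, hL, hBl⟩ := hS N T hN1 hNT'
    obtain ⟨τ, hτ⟩ : ∃ τ, T = exp τ := ⟨Real.log T, (exp_log hTpos).symm⟩
    obtain ⟨n, hn⟩ : ∃ n, N = exp n := ⟨Real.log N, (exp_log hNpos).symm⟩
    obtain ⟨v, hv⟩ : ∃ v, V = exp v := ⟨Real.log V, (exp_log hVpos).symm⟩
    have hn0 : 0 ≤ n := by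
      rw [hn] at hN1
      exact Real.one_le_exp_iff.mp hN1
    have hnτ : 2 * n ≤ τ := by
      rw [hn, hτ, np, exp_le_exp] at hNT
      exact_mod_cast hNT
    have hτ0 : 0 ≤ τ := by linarith
    have eT : ∀ b : ℝ, T ^ b = exp (b * τ) := fun b => by rw [hτ, rp]
    have eN : ∀ b : ℝ, N ^ b = exp (b * n) := fun b => by rw [hn, rp]
    have eNn : ∀ k : ℕ, N ^ k = exp (k * n) := fun k => by rw [hn, np]
    have eVn : ∀ k : ℕ, V ^ k = exp (k * v) := fun k => by rw [hv, np]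
    have hE1 : 1 ≤ T ^ e := one_le_rpow hT1 he.le
    have hE0 : 0 < T ^ e := by linarith
    have hA0 : 0 < CS * T ^ e := by positivity
    have hV'0 : 0 < V ^ 2 / (CS * T ^ e * J) := by positivity
    -- the facts
    have f2 : exp (4 * v) * (W.card : ℝ) ≤ 8 * C2 * exp ((1 + e) * τ + 2 * n) := by
      calc exp (4 * v) * (W.card : ℝ) = V ^ (2 * 2) * W.card := by rw [eVn]; norm_num
        _ ≤ 4 * C2 * T ^ e * (T + N ^ 2) * N ^ 2 := m2
        _ ≤ 4 * C2 * T ^ e * (T + T) * N ^ 2 := by gcongr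
        _ = 8 * C2 * (T ^ e * T * N ^ 2) := by ring
        _ = 8 * C2 * exp ((1 + e) * τ + 2 * n) := by
            rw [eT, eNn, hτ, ← exp_add, ← exp_add]
            congr 2
            push_cast
            ring
    have f3 : exp (6 * v) * (W.card : ℝ) ≤
        4 * C3 * exp (e * τ) * (exp τ + exp (3 * n)) * exp (3 * n) := by
      calc exp (6 * v) * (W.card : ℝ) = V ^ (2 * 3) * W.card := by rw [eVn]; norm_num
        _ ≤ 4 * C3 * T ^ e * (T + N ^ 3) * N ^ 3 := m3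
        _ = _ := by rw [eT, eNn, hτ]; norm_num
    have fT : exp (12 * v) * (W.card : ℝ) ≤ CT * exp ((2 - δ0) * τ + 6 * n) := by
      calc exp (12 * v) * (W.card : ℝ) = V ^ 12 * W.card := by rw [eVn]; norm_num
        _ ≤ ∑ t ∈ W, ‖Bl w N t‖ ^ 12 := sum_lb hVpos.le hWV 12
        _ ≤ CT * T ^ (2 - δ0) * N ^ 6 := hT T N W hT1 hN1 hNT' hSep hWT
        _ = CT * exp ((2 - δ0) * τ + 6 * n) := by
            rw [eT, eNn, exp_add]; push_cast; ring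
    have fH : (W.card : ℝ) ≤
        KH * exp (6 * e * τ) * (exp (4 * n - 4 * v) + exp (τ + 8 * n - 12 * v)) := by
      have key : (W.card : ℝ) ≤ J * (CH * (2 * (CS ^ 10 * J ^ 6)) *
          ((T ^ e) ^ 6 * (N ^ 4 / V ^ 4 + T * N ^ 8 / V ^ 12))) := by
        refine pieces W (Bl w N) (fun j t => Sd (Lj j) (a j) t) hA0 hJ hBl hVpos.le hWV ?_
        intro j hj W' hW' hPW
        have hL1 : 1 ≤ Lj j := hcN.trans (hL j hj).1
        exact (hHx T (2 * T) (Lj j) _ (a j) W' hL1 (by linarith) hV'0 (ha j) (sep_sub hSep hW')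
          (fun t ht => hW3 t (hW' ht)) hPW).trans
          (pieceH (by linarith) hCS hJ0 hE1 hTpos hNpos hVpos (by linarith) (hL j hj).2)
      refine key.trans (le_of_eq ?_)
      have b1 : (T ^ e) ^ 6 = exp (6 * e * τ) := by
        rw [eT, np]; congr 1; push_cast; ring
      have b2 : N ^ 4 / V ^ 4 = exp (4 * n - 4 * v) := by
        rw [eNn, eVn, ← exp_sub]; norm_num
      have b3 : T * N ^ 8 / V ^ 12 = exp (τ + 8 * n - 12 * v) := by
        rw [eNn, eVn, hτ, ← exp_add, ← exp_sub]; norm_num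
      rw [b1, b2, b3, hKHdef]
      ring
    have fG : (2 / 5 - δG / 4) * τ ≤ n → n ≤ (1 / 2 - δ0 / 16) * τ → (3 / 4 - c) * n ≤ v →
        (W.card : ℝ) ≤ KG * exp ((1 - δG) * τ - n) := by
      intro hD1 hD2 hA
      have key : (W.card : ℝ) ≤ J * (CG * (2 / Real.sqrt cS) * (T ^ (1 - δG) / N)) := by
        refine pieces W (Bl w N) (fun j t => Sd (Lj j) (a j) t) hA0 hJ hBl hVpos.le hWV ?_
        intro j hj W' hW' hPW
        have hL1 : 1 ≤ Lj j := hcN.trans (hL j hj).1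
        obtain ⟨g1, g2, g3, g4⟩ := pieceG (CG := CG) (L := Lj j) hτ hn hv hδ0 hδ0' hδG hδG' hc hcG
          hec hn0 hnτ hcS hCS hJ0 (by linarith) th1 th2 th3 (by linarith) (hL j hj).2
          (hL j hj).1 hD1 hD2 hA
        exact (hG T (2 * T) (Lj j) _ (a j) W' (by linarith) g1 g2 (ha j) (sep_sub hSep hW')
          (fun t ht => hW3 t (hW' ht)) g3 hPW).trans g4
      refine key.trans (le_of_eq ?_)
      have b1 : T ^ (1 - δG) / N = exp ((1 - δG) * τ - n) := by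
        rw [eT, hn, ← exp_sub]
      rw [b1, hKGdef]
      ring
    have fin := combine hδ0 hδ0' hδG hδG' hc hc0 hcG he heε hec (by positivity) (by positivity)
      (by linarith) hKH0 hKG0 hn0 hnτ f2 f3 fT fH fG
    have e1 : V ^ 8 = exp (8 * v) := by rw [eVn]; norm_num
    have e2 : T ^ (1 + ε) * N ^ (5 - c / 4) = exp ((1 + ε) * τ + (5 - c / 4) * n) := by
      rw [eT, eN, exp_add]
    have e3 : V ^ 8 * (W.card : ℝ) ≤ (8 * C2 + CT + 2 * KH + 2 * (4 * C3) + KG) *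
          (T ^ (1 + ε) * N ^ (5 - c / 4)) := by rw [e1, e2]; exact fin
    have e4 : 0 ≤ K0 * (T ^ (1 + ε) * N ^ (5 - c / 4)) := by positivity
    linarith

end Pool.Agent.Work.MP_56b8f5_nt.UC
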