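import Mathlib
import Pool.Agent.Work.MP_56b8f5_nt.UC.Stmts

/-!
MP_56b8f5_nt, block UC, item Mel (helper38): Mellin inversion.
-/

open MeasureTheory Set Filter Topology
open scoped FourierTransform SchwartzMap

noncomputable section

namespace Pool.Agent.Work.MP_56b8f5_nt.UC

namespace Mel_aux

/-- the weight in logarithmic coordinates -/
def gg (w : ℝ → ℝ) (u : ℝ) : ℂ := ((w (Real.exp (-u)) : ℝ) : ℂ)

lemma gg_smooth {w : ℝ → ℝ} (hw : IsWt w) : ContDiff ℝ ((⊤ : ℕ∞) : WithTop ℕ∞) (gg w) := by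
  unfold gg
  exact Complex.ofRealCLM.contDiff.comp (hw.smooth.comp (Real.contDiff_exp.comp contDiff_neg))

lemma gg_supp {w : ℝ → ℝ} (hw : IsWt w) : HasCompactSupport (gg w) := by
  obtain ⟨hs, a, b, ha, hab, hsupp⟩ := hw
  apply HasCompactSupport.intro (K := Icc (-Real.log b) (-Real.log a)) isCompact_Icc
  intro u hu
  unfold gg
  by_contra h
  have h' : w (Real.exp (-u)) ≠ 0 := by
    intro h0
    exact h (by rw [h0]; simp)
  obtain ⟨h1, h2⟩ := hsupp _ h'
  apply hu
  constructor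
  · have := Real.log_le_log (Real.exp_pos _) h2
    rw [Real.log_exp] at this
    linarith
  · have := Real.log_le_log ha h1
    rw [Real.log_exp] at this
    linarith

/-- the Schwartz function -/
def sg1 {w : ℝ → ℝ} (hw : IsWt w) : 𝓢(ℝ, ℂ) := (gg_supp hw).toSchwartzMap (gg_smooth hw)

lemma Om_eq_mellin (w : ℝ → ℝ) (y : ℝ) :
    Om w y = mellin (fun x => ((w x : ℝ) : ℂ)) (y * Complex.I) := by
  unfold Om mellin
  refine integral_congr_ae (Filter.Eventually.of_forall fun x => ?_)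
  simp only [smul_eq_mul]
  ring

lemma mellin_eq {w : ℝ → ℝ} (hw : IsWt w) (y : ℝ) :
    mellin (fun x => ((w x : ℝ) : ℂ)) (y * Complex.I) = 𝓕 (sg1 hw) (y / (2 * Real.pi)) := by
  rw [mellin_eq_fourier, SchwartzMap.fourier_coe]
  have h1 : (y * Complex.I).re = 0 := by simp
  have h2 : (y * Complex.I).im = y := by simp
  rw [h1, h2]
  have h3 : (fun u : ℝ => Real.exp (-0 * u) • ((w (Real.exp (-u)) : ℝ) : ℂ)) = (sg1 hw : ℝ → ℂ) := by
    funext u
    simp [sg1, gg]
  rw [h3]

lemma Om_eq {w : ℝ → ℝ} (hw : IsWt w) (y : ℝ) : Om w y = 𝓕 (sg1 hw) (y / (2 * Real.pi)) := by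
  rw [Om_eq_mellin, mellin_eq hw]

lemma conv {w : ℝ → ℝ} (hw : IsWt w) : MellinConvergent (fun x => ((w x : ℝ) : ℂ)) ((0 : ℝ) : ℂ) := by
  obtain ⟨hs, a, b, ha, hab, hsupp⟩ := hw
  unfold MellinConvergent
  have h1 : IntegrableOn (fun t : ℝ => (t : ℂ) ^ (((0 : ℝ) : ℂ) - 1) • ((w t : ℝ) : ℂ)) (Icc a b) := by
    apply ContinuousOn.integrableOn_compact isCompact_Icc
    apply ContinuousOn.fun_smul
    · intro t ht
      have ht0 : 0 < t := lt_of_lt_of_le ha ht.1
      apply ContinuousAt.continuousWithinAt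
      have : ContinuousAt (fun z : ℂ => z ^ (((0 : ℝ) : ℂ) - 1)) (t : ℂ) :=
        continuousAt_cpow_const (Or.inl (by simpa using ht0))
      exact this.comp (f := fun t : ℝ => (t : ℂ)) Complex.continuous_ofReal.continuousAt
    · exact (Complex.continuous_ofReal.comp hs.continuous).continuousOn
  refine h1.of_forall_diff_eq_zero measurableSet_Ioi ?_
  rintro t ⟨-, ht⟩
  have : w t = 0 := by
    by_contra h
    exact ht (hsupp t h)
  rw [this]
  simp

end Mel_aux

open Mel_aux in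
theorem iMel : StMel := by
  intro w hw
  have hpi : (0 : ℝ) < 2 * Real.pi := by positivity
  refine ⟨?_, ?_, ?_⟩
  · have : Om w = fun y => 𝓕 (sg1 hw) (y / (2 * Real.pi)) := funext fun y => Om_eq hw y
    rw [this]
    exact (𝓕 (sg1 hw)).continuous.comp (continuous_id.div_const _)
  · intro A
    set C' : ℝ := 2 ^ A * ((Finset.Iic ((A, 0) : ℕ × ℕ)).sup fun m => SchwartzMap.seminorm ℝ m.1 m.2)
      (𝓕 (sg1 hw)) with hC'
    refine ⟨max 1 ((2 * Real.pi) ^ A * C'), le_max_left _ _, fun y => ?_⟩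
    have h1 := SchwartzMap.one_add_le_sup_seminorm_apply (𝕜 := ℝ) (m := (A, 0)) (k := A) (n := 0) le_rfl le_rfl
      (𝓕 (sg1 hw)) (y / (2 * Real.pi))
    rw [norm_iteratedFDeriv_zero, ← Om_eq hw] at h1
    rw [le_div_iff₀ (by positivity)]
    have h2 : 1 + |y| ≤ 2 * Real.pi * (1 + ‖y / (2 * Real.pi)‖) := by
      rw [Real.norm_eq_abs, abs_div, abs_of_pos hpi, mul_add, mul_div_cancel₀ _ hpi.ne', mul_one]
      have := Real.pi_gt_three
      linarith
    calc ‖Om w y‖ * (1 + |y|) ^ A ≤ ‖Om w y‖ * (2 * Real.pi * (1 + ‖y / (2 * Real.pi)‖)) ^ A := by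
          gcongr
      _ = (2 * Real.pi) ^ A * ((1 + ‖y / (2 * Real.pi)‖) ^ A * ‖Om w y‖) := by
          rw [mul_pow]; ring
      _ ≤ (2 * Real.pi) ^ A * C' := by
          gcongr
      _ ≤ _ := le_max_right _ _
  · intro x hx
    have hV : Complex.VerticalIntegrable (mellin fun x => ((w x : ℝ) : ℂ)) 0 := by
      unfold Complex.VerticalIntegrable
      have h1 : (fun y : ℝ => mellin (fun x => ((w x : ℝ) : ℂ)) (((0 : ℝ) : ℂ) + y * Complex.I)) =
          fun y : ℝ => 𝓕 (sg1 hw) (y / (2 * Real.pi)) := by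
        funext y
        rw [Complex.ofReal_zero, zero_add, mellin_eq hw]
      rw [h1]
      exact (SchwartzMap.integrable (𝓕 (sg1 hw))).comp_div hpi.ne'
    have hc : ContinuousAt (fun x => ((w x : ℝ) : ℂ)) x :=
      (Complex.continuous_ofReal.comp hw.smooth.continuous).continuousAt
    have := mellinInv_mellin_eq 0 (fun x => ((w x : ℝ) : ℂ)) hx (conv hw) hV hc
    rw [← this]
    unfold mellinInv
    rw [Complex.real_smul]
    congr 1
    refine integral_congr_ae (Filter.Eventually.of_forall fun y => ?_)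
    simp only [Complex.ofReal_zero, zero_add, smul_eq_mul]
    rw [← Om_eq_mellin]
    ring

end Pool.Agent.Work.MP_56b8f5_nt.UC
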