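import Mathlib
import Pool.Agent.Work.MP_56b8f5_nt.UC.Stmts

/-!
MP_56b8f5_nt, block UC, item Mj (trigonometric majorant).
-/

open MeasureTheory Set Filter Topology

noncomputable section

namespace Pool.Agent.Work.MP_56b8f5_nt.UC

open Pool.Agent.Work.MP_56b8f5_nt.UB (ee om)

namespace Mj_aux

lemma ee_add (x y : ℝ) : ee (x + y) = ee x * ee y := by
  unfold ee
  rw [← Complex.exp_add]
  congr 1
  push_cast
  ring

lemma norm_ee (x : ℝ) : ‖ee x‖ = 1 := by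
  unfold ee
  exact Complex.norm_exp_ofReal_mul_I _

lemma ee_zero : ee 0 = 1 := by simp [ee]

lemma ee_half : ee (1 / 2) = -1 := by
  unfold ee
  have : ((2 * Real.pi * (1 / 2) : ℝ) : ℂ) * Complex.I = Real.pi * Complex.I := by
    push_cast
    ring
  rw [this, Complex.exp_pi_mul_I]

lemma ee_neg_half : ee (-(1 / 2)) = -1 := by
  have h := ee_add (1 / 2) (-(1 / 2))
  rw [add_neg_cancel, ee_zero, ee_half] at h
  linear_combination h

lemma conj_ee (x : ℝ) : (starRingEnd ℂ) (ee x) = ee (-x) := by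
  unfold ee
  rw [← Complex.exp_conj, map_mul, Complex.conj_ofReal, Complex.conj_I]
  congr 1
  push_cast
  ring

lemma ee_int (n : ℤ) : ee (n : ℝ) = 1 := by
  unfold ee
  rw [Complex.exp_eq_one_iff]
  exact ⟨n, by push_cast; ring⟩

lemma ee_nat_mul (j : ℕ) (x : ℝ) : ee (j * x) = ee x ^ j := by
  unfold ee
  rw [← Complex.exp_nat_mul]
  congr 1
  push_cast
  ring

/-- `‖e(x) - 1‖ ≤ 2π ‖x‖` -/
lemma norm_ee_sub_one_le (x : ℝ) : ‖ee x - 1‖ ≤ 2 * Real.pi * dZ x := by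
  have h1 : ee x = ee (x - round x) := by
    have h := ee_add (x - round x) (round x : ℝ)
    rw [sub_add_cancel, ee_int, mul_one] at h
    exact h
  rw [h1]
  have h2 : ‖ee (x - round x) - 1‖ ≤ ‖2 * Real.pi * (x - round x)‖ := by
    unfold ee
    have h := Real.norm_exp_I_mul_ofReal_sub_one_le (x := 2 * Real.pi * (x - round x))
    rw [mul_comm Complex.I] at h
    exact h
  refine h2.trans ?_
  rw [Real.norm_eq_abs, abs_mul, abs_of_pos (by positivity : 0 < 2 * Real.pi)]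
  exact le_refl _

lemma dZ_nonneg (x : ℝ) : 0 ≤ dZ x := abs_nonneg _

lemma dZ_add_le (x a : ℝ) : dZ (x + a) ≤ dZ x + |a| := by
  unfold dZ
  calc |x + a - round (x + a)| ≤ |x + a - (round x : ℤ)| := round_le (x + a) (round x)
    _ = |(x - round x) + a| := by ring_nf
    _ ≤ |x - round x| + |a| := abs_add_le _ _

/-- the Dirichlet kernel -/
def D (L : ℕ) (x : ℝ) : ℂ := ∑ j ∈ Finset.range L, ee (j * x)

lemma D_mul (L : ℕ) (x : ℝ) : D L x * (ee x - 1) = ee (L * x) - 1 := by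
  unfold D
  simp_rw [ee_nat_mul]
  exact geom_sum_mul (ee x) L

lemma D_sq_ge (L : ℕ) (x q : ℝ) (hq : dZ x ≤ q) :
    ‖ee (L * x) - 1‖ ^ 2 ≤ (2 * Real.pi * q) ^ 2 * ‖D L x‖ ^ 2 := by
  rw [← D_mul, norm_mul, mul_pow, mul_comm]
  have h := norm_ee_sub_one_le x
  have h0 : 0 ≤ 2 * Real.pi * dZ x := by have := dZ_nonneg x; positivity
  gcongr
  exact h.trans (by gcongr)

/-- the squares expand -/
lemma D_sq (L : ℕ) (x : ℝ) :
    ((‖D L x‖ ^ 2 : ℝ) : ℂ) =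
      ∑ p ∈ Finset.range L ×ˢ Finset.range L, ee ((((p.1 : ℤ) - (p.2 : ℤ) : ℤ) : ℝ) * x) := by
  have h : ((‖D L x‖ ^ 2 : ℝ) : ℂ) = D L x * (starRingEnd ℂ) (D L x) := by
    rw [Complex.mul_conj, Complex.normSq_eq_norm_sq]
  rw [h]
  unfold D
  rw [map_sum, Finset.sum_mul_sum, ← Finset.sum_product']
  refine Finset.sum_congr rfl fun p _ => ?_
  rw [conj_ee, ← ee_add]
  congr 1
  push_cast
  ring

/-- number of representations -/
def Nr (L : ℕ) (k : ℤ) : ℕ :=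
  ((Finset.range L ×ˢ Finset.range L).filter (fun p => (p.1 : ℤ) - (p.2 : ℤ) = k)).card

lemma Nr_le (L : ℕ) (k : ℤ) : Nr L k ≤ L := by
  unfold Nr
  have h : ((Finset.range L ×ˢ Finset.range L).filter (fun p => (p.1 : ℤ) - (p.2 : ℤ) = k)).card
      ≤ (Finset.range L).card := by
    refine Finset.card_le_card_of_injOn (fun p => p.1) ?_ ?_
    · intro p hp
      rw [Finset.mem_coe, Finset.mem_filter, Finset.mem_product] at hp
      exact hp.1.1
    · intro p hp q hq hpq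
      rw [Finset.mem_coe, Finset.mem_filter] at hp hq
      have h1 := hp.2
      have h2 := hq.2
      have h3 : p.1 = q.1 := hpq
      rw [h3] at h1
      have h4 : p.2 = q.2 := by omega
      exact Prod.ext h3 h4
  rwa [Finset.card_range] at h

lemma Nr_neg (L : ℕ) (k : ℤ) : Nr L (-k) = Nr L k := by
  unfold Nr
  refine Finset.card_bij' (fun p _ => (p.2, p.1)) (fun p _ => (p.2, p.1)) ?_ ?_ ?_ ?_
  · intro p hp
    rw [Finset.mem_filter, Finset.mem_product] at hp ⊢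
    exact ⟨⟨hp.1.2, hp.1.1⟩, by have := hp.2; simp only; omega⟩
  · intro p hp
    rw [Finset.mem_filter, Finset.mem_product] at hp ⊢
    exact ⟨⟨hp.1.2, hp.1.1⟩, by have := hp.2; simp only; omega⟩
  · intro p _; rfl
  · intro p _; rfl

lemma sum_fiber (L : ℕ) (f : ℤ → ℂ) :
    ∑ p ∈ Finset.range L ×ˢ Finset.range L, f ((p.1 : ℤ) - (p.2 : ℤ)) =
      ∑ k ∈ Finset.Icc (-(L : ℤ)) L, (Nr L k : ℂ) * f k := by
  rw [← Finset.sum_fiberwise_of_maps_to (t := Finset.Icc (-(L : ℤ)) L)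
    (g := fun p : ℕ × ℕ => (p.1 : ℤ) - (p.2 : ℤ))]
  · refine Finset.sum_congr rfl fun k _ => ?_
    unfold Nr
    rw [← nsmul_eq_mul, ← Finset.sum_const]
    refine Finset.sum_congr rfl fun p hp => ?_
    rw [Finset.mem_filter] at hp
    rw [hp.2]
  · intro p hp
    rw [Finset.mem_product, Finset.mem_range, Finset.mem_range] at hp
    rw [Finset.mem_Icc]
    constructor <;> omega

/-- the coefficients -/
def cc (L : ℕ) (k : ℤ) : ℝ :=
  Real.pi ^ 2 / (L : ℝ) ^ 2 * (Nr L k * (1 + Real.cos (Real.pi * k / L)))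

lemma cc_neg (L : ℕ) (k : ℤ) : cc L (-k) = cc L k := by
  unfold cc
  rw [Nr_neg]
  congr 3
  push_cast
  rw [mul_neg, neg_div, Real.cos_neg]

lemma abs_cc_le (L : ℕ) (hL : 1 ≤ L) (k : ℤ) : |cc L k| ≤ 2 * Real.pi ^ 2 / L := by
  have hL0 : (0 : ℝ) < L := by exact_mod_cast hL
  have h1 : 0 ≤ 1 + Real.cos (Real.pi * k / L) := by linarith [Real.neg_one_le_cos (Real.pi * k / L)]
  have h2 : 1 + Real.cos (Real.pi * k / L) ≤ 2 := by linarith [Real.cos_le_one (Real.pi * k / L)]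
  have h3 : (Nr L k : ℝ) ≤ L := by exact_mod_cast Nr_le L k
  unfold cc
  rw [abs_of_nonneg (by positivity)]
  calc Real.pi ^ 2 / (L : ℝ) ^ 2 * (Nr L k * (1 + Real.cos (Real.pi * k / L)))
      ≤ Real.pi ^ 2 / (L : ℝ) ^ 2 * (L * 2) := by gcongr
    _ = 2 * Real.pi ^ 2 / L := by field_simp

lemma two_cos (L : ℕ) (hL : 1 ≤ L) (k : ℤ) (x : ℝ) :
    ee (k * (x + 1 / (2 * L))) + ee (k * (x + -(1 / (2 * L)))) =
      ((2 * Real.cos (Real.pi * k / L) : ℝ) : ℂ) * ee (k * x) := by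
  have hL0 : (L : ℝ) ≠ 0 := by positivity
  have e1 : (k : ℝ) * (x + 1 / (2 * L)) = k * x + k / (2 * L) := by ring
  have e2 : (k : ℝ) * (x + -(1 / (2 * L))) = k * x + -(k / (2 * L)) := by ring
  rw [e1, e2, ee_add, ee_add, ← mul_add, mul_comm]
  congr 1
  unfold ee
  have e3 : ((2 * Real.pi * (k / (2 * L)) : ℝ) : ℂ) = ((Real.pi * k / L : ℝ) : ℂ) := by
    congr 1
    field_simp
  have e4 : ((2 * Real.pi * -(k / (2 * L)) : ℝ) : ℂ) = -((Real.pi * k / L : ℝ) : ℂ) := by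
    rw [← Complex.ofReal_neg]
    congr 1
    field_simp
  rw [e3, e4]
  push_cast
  rw [Complex.two_cos]

lemma cast_aux (P a b c : ℝ) : ((P * (a + (b + c) / 2) : ℝ) : ℂ) =
    (P : ℂ) * ((a : ℂ) + ((b : ℂ) + (c : ℂ)) / 2) := by
  push_cast
  ring

/-- the trigonometric polynomial equals the sum of squares -/
lemma poly_eq (L : ℕ) (hL : 1 ≤ L) (x : ℝ) :
    (∑ k ∈ Finset.Icc (-(L : ℤ)) L, (cc L k : ℂ) * ee (k * x)).re =
      Real.pi ^ 2 / (L : ℝ) ^ 2 * (‖D L x‖ ^ 2 + (‖D L (x + 1 / (2 * L))‖ ^ 2 +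
        ‖D L (x + -(1 / (2 * L)))‖ ^ 2) / 2) := by
  have h : ((Real.pi ^ 2 / (L : ℝ) ^ 2 * (‖D L x‖ ^ 2 + (‖D L (x + 1 / (2 * L))‖ ^ 2 +
        ‖D L (x + -(1 / (2 * L)))‖ ^ 2) / 2) : ℝ) : ℂ) =
      ∑ k ∈ Finset.Icc (-(L : ℤ)) L, (cc L k : ℂ) * ee (k * x) := by
    have e1 : ∀ y : ℝ, ((‖D L y‖ ^ 2 : ℝ) : ℂ) =
        ∑ k ∈ Finset.Icc (-(L : ℤ)) L, (Nr L k : ℂ) * ee (k * y) := by
      intro y
      rw [D_sq]
      exact sum_fiber L (fun k => ee ((k : ℝ) * y))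
    rw [cast_aux, e1, e1, e1, ← Finset.sum_add_distrib, Finset.sum_div, ← Finset.sum_add_distrib,
      Finset.mul_sum]
    refine Finset.sum_congr rfl fun k _ => ?_
    rw [← mul_add, two_cos L hL k x]
    unfold cc
    push_cast
    ring
  rw [← h, Complex.ofReal_re]

lemma par (w : ℂ) (hw : ‖w‖ = 1) : ‖w - 1‖ ^ 2 + ‖-w - 1‖ ^ 2 = 4 := by
  have h := parallelogram_law_with_norm ℝ w 1
  have e : ‖-w - 1‖ = ‖w + 1‖ := by
    rw [← norm_neg]
    congr 1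
    ring
  rw [e]
  rw [hw, norm_one] at h
  nlinarith

end Mj_aux

open Mj_aux in
theorem iMj : StMj := by
  refine ⟨2 * Real.pi ^ 2, ?_, ?_⟩
  · nlinarith [Real.pi_gt_three]
  intro L hL
  refine ⟨cc L, fun k => abs_cc_le L hL k, fun k => cc_neg L k, ?_⟩
  intro x
  have hL0 : (0 : ℝ) < L := by exact_mod_cast hL
  rw [poly_eq L hL x]
  set a : ℝ := 1 / (2 * L) with ha
  have ha0 : 0 < a := by positivity
  have haL : a ≤ 1 / L := by
    rw [ha]
    gcongr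
    linarith
  set q : ℝ := dZ x + 1 / L with hq
  have hd := dZ_nonneg x
  have hq0 : 0 < q := by positivity
  have e1 : ‖ee (L * x) - 1‖ ^ 2 ≤ (2 * Real.pi * q) ^ 2 * ‖D L x‖ ^ 2 :=
    D_sq_ge L x q (by rw [hq]; linarith [show 0 ≤ 1 / (L : ℝ) by positivity])
  have e2 : ‖ee (L * (x + a)) - 1‖ ^ 2 ≤ (2 * Real.pi * q) ^ 2 * ‖D L (x + a)‖ ^ 2 := by
    refine D_sq_ge L (x + a) q ((dZ_add_le x a).trans ?_)
    rw [abs_of_pos ha0, hq]
    linarith
  have e3 : ‖ee (L * (x + -a)) - 1‖ ^ 2 ≤ (2 * Real.pi * q) ^ 2 * ‖D L (x + -a)‖ ^ 2 := by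
    refine D_sq_ge L (x + -a) q ((dZ_add_le x (-a)).trans ?_)
    rw [abs_neg, abs_of_pos ha0, hq]
    linarith
  have f2 : ee (L * (x + a)) = -ee (L * x) := by
    have : (L : ℝ) * (x + a) = L * x + 1 / 2 := by
      rw [ha]; field_simp
    rw [this, ee_add, ee_half]
    ring
  have f3 : ee (L * (x + -a)) = -ee (L * x) := by
    have : (L : ℝ) * (x + -a) = L * x + -(1 / 2) := by
      rw [ha]; field_simp
    rw [this, ee_add, ee_neg_half]
    ring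
  rw [f2] at e2
  rw [f3] at e3
  have hp := par (ee (L * x)) (norm_ee _)
  have key : 4 ≤ (2 * Real.pi * q) ^ 2 * (‖D L x‖ ^ 2 + (‖D L (x + a)‖ ^ 2 +
        ‖D L (x + -a)‖ ^ 2) / 2) := by
    nlinarith [e1, e2, e3, hp]
  have hLq : 1 + L * dZ x = L * q := by
    rw [hq]
    field_simp
    ring
  rw [hLq, div_le_iff₀ (by positivity)]
  have : Real.pi ^ 2 / (L : ℝ) ^ 2 * (‖D L x‖ ^ 2 + (‖D L (x + a)‖ ^ 2 +
        ‖D L (x + -a)‖ ^ 2) / 2) * (L * q) ^ 2 =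
      (2 * Real.pi * q) ^ 2 * (‖D L x‖ ^ 2 + (‖D L (x + a)‖ ^ 2 +
        ‖D L (x + -a)‖ ^ 2) / 2) / 4 := by
    field_simp
    ring
  rw [this]
  linarith

end Pool.Agent.Work.MP_56b8f5_nt.UC
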