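import Pool.Agent.Work.MP_56b8f5_nt.UC.Stmts
import Pool.Agent.Work.MP_37bd4f_nt.MeanValue

/-!
Block UC, item Mv: discrete mean value theorem for Dirichlet polynomials (Gallagher).
Author: helper70.
-/

set_option autoImplicit false

open MeasureTheory Set Filter Topology

noncomputable section

namespace Pool.Agent.Work.MP_56b8f5_nt.UC

namespace Mv_aux

open Complex

/-- the coefficients of the derivative -/
def b1 (Y : ℕ) (a : ℕ → ℂ) : ℕ → ℂ :=
  fun n => a n * ((Real.log n / (1 + Real.log Y) : ℝ) : ℂ)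

lemma one_le_l {Y : ℕ} (hY : 1 ≤ Y) : 1 ≤ 1 + Real.log Y := by
  have : 0 ≤ Real.log Y := Real.log_natCast_nonneg Y
  linarith

lemma Dp_eq (Y : ℕ) (a : ℕ → ℂ) (t : ℝ) :
    Dp Y a t = ∑ n ∈ Finset.Icc 1 Y, a n * cexp (-(Real.log n * I) * t) := by
  unfold Dp
  refine Finset.sum_congr rfl (fun n hn => ?_)
  rw [Pool.Agent.Work.MP_37bd4f_nt.natCast_cpow_neg_mul_I (Finset.mem_Icc.mp hn).1]

lemma Dp_hasDerivAt {Y : ℕ} (hY : 1 ≤ Y) (a : ℕ → ℂ) (t : ℝ) :
    HasDerivAt (fun t : ℝ => Dp Y a t) (-(((1 + Real.log Y : ℝ) : ℂ) * I) * Dp Y (b1 Y a) t) t := by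
  have hl : ((1 + Real.log Y : ℝ) : ℂ) ≠ 0 := by
    have := one_le_l hY
    exact_mod_cast (by linarith : (1 + Real.log Y : ℝ) ≠ 0)
  have h1 : (fun t : ℝ => Dp Y a t) =
      fun t : ℝ => ∑ n ∈ Finset.Icc 1 Y, a n * cexp (-(Real.log n * I) * t) := by
    funext t; exact Dp_eq Y a t
  rw [h1, Dp_eq, Finset.mul_sum]
  have h2 : ∀ n ∈ Finset.Icc 1 Y, HasDerivAt (fun t : ℝ => a n * cexp (-(Real.log n * I) * t))
      (-(((1 + Real.log Y : ℝ) : ℂ) * I) * (b1 Y a n * cexp (-(Real.log n * I) * t))) t := by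
    intro n _
    have h3 : HasDerivAt (fun t : ℝ => -(Real.log n * I) * (t : ℂ)) (-(Real.log n * I) * 1) t :=
      (Complex.ofRealCLM.hasDerivAt (x := t)).const_mul _
    have h4 := (h3.cexp).const_mul (a n)
    refine h4.congr_deriv ?_
    unfold b1
    have : ((Real.log n / (1 + Real.log Y) : ℝ) : ℂ) =
        (Real.log n : ℂ) / ((1 + Real.log Y : ℝ) : ℂ) := by push_cast; ring
    rw [this]
    field_simp
  have h5 := HasDerivAt.fun_sum h2
  exact h5

lemma Dp_cont (Y : ℕ) (a : ℕ → ℂ) : Continuous (fun t : ℝ => Dp Y a t) := by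
  have h1 : (fun t : ℝ => Dp Y a t) =
      fun t : ℝ => ∑ n ∈ Finset.Icc 1 Y, a n * cexp (-(Real.log n * I) * t) := by
    funext t; exact Dp_eq Y a t
  rw [h1]
  fun_prop

/-- the squared modulus and its derivative -/
lemma sq_hasDerivAt {f : ℝ → ℂ} {f' : ℂ} {t : ℝ} (h : HasDerivAt f f' t) :
    HasDerivAt (fun t => ‖f t‖ ^ 2) (2 * ((starRingEnd ℂ) (f t) * f').re) t := by
  have h1 : (fun t => ‖f t‖ ^ 2) = fun t => (f t).re ^ 2 + (f t).im ^ 2 := by
    funext t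
    rw [← Complex.normSq_eq_norm_sq, Complex.normSq_apply]; ring
  rw [h1]
  have hre : HasDerivAt (fun t => (f t).re) f'.re t := by
    exact (Complex.reCLM.hasFDerivAt.comp_hasDerivAt t h)
  have him : HasDerivAt (fun t => (f t).im) f'.im t := by
    exact (Complex.imCLM.hasFDerivAt.comp_hasDerivAt t h)
  have h2 := (hre.pow 2).add (him.pow 2)
  refine h2.congr_deriv ?_
  simp only [Complex.mul_re, Complex.conj_re, Complex.conj_im]
  push_cast
  ring

/-- Gallagher's inequality -/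
lemma gallagher {f f' : ℝ → ℝ} (hf : ∀ t, HasDerivAt f (f' t) t) (hc : Continuous f') (t : ℝ) :
    f t ≤ ∫ u in (-(1 / 2 : ℝ))..(1 / 2), (|f (t + u)| + |f' (t + u)|) := by
  have hfc : Continuous f := continuous_iff_continuousAt.mpr (fun t => (hf t).continuousAt)
  have i1 : IntervalIntegrable (fun u => |f (t + u)|) volume (-(1 / 2 : ℝ)) (1 / 2) := by
    apply Continuous.intervalIntegrable; fun_prop
  have i2 : IntervalIntegrable (fun u => |f' (t + u)|) volume (-(1 / 2 : ℝ)) (1 / 2) := by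
    apply Continuous.intervalIntegrable; fun_prop
  set K := ∫ u in (-(1 / 2 : ℝ))..(1 / 2), |f' (t + u)| with hK
  have key : ∀ u ∈ Icc (-(1 / 2 : ℝ)) (1 / 2), f t ≤ |f (t + u)| + K := by
    intro u hu
    have h1 : f (t + u) - f t = ∫ v in (0 : ℝ)..u, f' (t + v) := by
      have h2 : ∀ v ∈ uIcc (0 : ℝ) u, HasDerivAt (fun v => f (t + v)) (f' (t + v)) v := by
        intro v _
        have h3 := (hf (t + v)).comp_const_add t v
        simpa using h3
      have h4 := intervalIntegral.integral_eq_sub_of_hasDerivAt h2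
        (by apply Continuous.intervalIntegrable; fun_prop)
      rw [h4]; simp
    have h5 : |∫ v in (0 : ℝ)..u, f' (t + v)| ≤ K := by
      have h6 : abs (∫ v in (0 : ℝ)..u, f' (t + v)) ≤ abs (∫ v in (0 : ℝ)..u, abs (f' (t + v))) := by
        have := intervalIntegral.norm_integral_le_abs_integral_norm (f := fun v => f' (t + v))
          (a := 0) (b := u) (μ := volume)
        simpa using this
      refine h6.trans ?_
      rcases le_total 0 u with h0 | h0
      · rw [abs_of_nonneg (intervalIntegral.integral_nonneg h0 (fun v _ => abs_nonneg _)), hK]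
        refine intervalIntegral.integral_mono_interval (by norm_num) h0 hu.2 ?_ i2
        exact Eventually.of_forall (fun v => abs_nonneg _)
      · rw [intervalIntegral.integral_symm, abs_neg,
          abs_of_nonneg (intervalIntegral.integral_nonneg h0 (fun v _ => abs_nonneg _)), hK]
        refine intervalIntegral.integral_mono_interval hu.1 h0 (by norm_num) ?_ i2
        exact Eventually.of_forall (fun v => abs_nonneg _)
    have h7 := (abs_le.mp h5).1
    have h8 := (abs_le.mp h5).2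
    have h9 := le_abs_self (f (t + u))
    linarith
  have h10 : ∫ u in (-(1 / 2 : ℝ))..(1 / 2), f t ≤
      ∫ u in (-(1 / 2 : ℝ))..(1 / 2), (|f (t + u)| + K) := by
    refine intervalIntegral.integral_mono_on (by norm_num) (by simp) ?_ key
    exact i1.add (by simp)
  rw [intervalIntegral.integral_const, intervalIntegral.integral_add i1 (by simp),
    intervalIntegral.integral_const] at h10
  rw [intervalIntegral.integral_add i1 i2]
  norm_num at h10
  linarith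

/-- part 2 with the constant 2 -/
lemma part2 (t : ℝ) {Y : ℕ} (a : ℕ → ℂ) (hY : 1 ≤ Y) : ‖Dp Y a t‖ ^ 2 ≤ 2 * (1 + Real.log Y) *
    ∫ u in (-(1 / 2 : ℝ))..(1 / 2), (‖Dp Y a (t + u)‖ ^ 2 + ‖Dp Y (b1 Y a) (t + u)‖ ^ 2) := by
  have hl := one_le_l hY
  have h1 := fun s => sq_hasDerivAt (Dp_hasDerivAt hY a s)
  have c0 := Dp_cont Y a
  have c1 := Dp_cont Y (b1 Y a)
  have h2 := gallagher h1 (by fun_prop) t
  refine h2.trans ?_
  rw [← intervalIntegral.integral_const_mul]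
  refine intervalIntegral.integral_mono_on (by norm_num) ?_ ?_ ?_
  · apply Continuous.intervalIntegrable
    fun_prop
  · apply Continuous.intervalIntegrable
    fun_prop
  · intro u _
    rw [abs_of_nonneg (by positivity)]
    have h3 : |2 * ((starRingEnd ℂ) (Dp Y a (t + u)) *
        (-(((1 + Real.log Y : ℝ) : ℂ) * I) * Dp Y (b1 Y a) (t + u))).re| ≤
        (1 + Real.log Y) * (‖Dp Y a (t + u)‖ ^ 2 + ‖Dp Y (b1 Y a) (t + u)‖ ^ 2) := by
      rw [abs_mul, abs_of_pos (by norm_num : (0 : ℝ) < 2)]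
      have h4 := Complex.abs_re_le_norm ((starRingEnd ℂ) (Dp Y a (t + u)) *
        (-(((1 + Real.log Y : ℝ) : ℂ) * I) * Dp Y (b1 Y a) (t + u)))
      have h5 : ‖(starRingEnd ℂ) (Dp Y a (t + u)) *
        (-(((1 + Real.log Y : ℝ) : ℂ) * I) * Dp Y (b1 Y a) (t + u))‖ =
          (1 + Real.log Y) * (‖Dp Y a (t + u)‖ * ‖Dp Y (b1 Y a) (t + u)‖) := by
        rw [norm_mul, norm_mul, RCLike.norm_conj, norm_neg, norm_mul, Complex.norm_I,
          Complex.norm_real, Real.norm_eq_abs, abs_of_nonneg (by linarith)]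
        ring
      rw [h5] at h4
      nlinarith [sq_nonneg (‖Dp Y a (t + u)‖ - ‖Dp Y (b1 Y a) (t + u)‖)]
    have h6 : 0 ≤ ‖Dp Y (b1 Y a) (t + u)‖ ^ 2 := by positivity
    have h7 : 0 ≤ ‖Dp Y a (t + u)‖ ^ 2 := by positivity
    nlinarith

/-- disjoint intervals -/
lemma sum_int_le {g : ℝ → ℝ} (hg : Continuous g) (hg0 : ∀ x, 0 ≤ g x) {T0 T : ℝ} {W : Finset ℝ}
    (hT : 0 ≤ T) (hW : Sep W) (hW2 : ∀ t ∈ W, T0 ≤ t ∧ t ≤ T0 + T) :
    ∑ t ∈ W, ∫ u in (-(1 / 2 : ℝ))..(1 / 2), g (t + u) ≤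
      ∫ x in (T0 - 1 / 2)..(T0 + T + 1 / 2), g x := by
  have h1 : ∀ t ∈ W, ∫ u in (-(1 / 2 : ℝ))..(1 / 2), g (t + u) =
      ∫ x in Ioc (t - 1 / 2) (t + 1 / 2), g x := by
    intro t _
    rw [intervalIntegral.integral_comp_add_left (fun x => g x) t,
      intervalIntegral.integral_of_le (by linarith)]
    congr 2
  rw [Finset.sum_congr rfl h1]
  have h2 : ∑ t ∈ W, ∫ x in Ioc (t - 1 / 2) (t + 1 / 2), g x =
      ∫ x in ⋃ t ∈ W, Ioc (t - 1 / 2) (t + 1 / 2), g x := by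
    rw [integral_biUnion_finset]
    · intro t _; exact measurableSet_Ioc
    · intro s hs t ht hst
      rw [Function.onFun, Set.disjoint_left]
      intro x hx hx'
      have h3 := hW s hs t ht hst
      rw [mem_Ioc] at hx hx'
      rcases le_total s t with h | h
      · rw [abs_of_nonpos (by linarith)] at h3; linarith [hx.2, hx'.1]
      · rw [abs_of_nonneg (by linarith)] at h3; linarith [hx.1, hx'.2]
    · intro t _
      exact (hg.integrableOn_Icc (a := t - 1 / 2) (b := t + 1 / 2)).mono_set Ioc_subset_Icc_self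
  rw [h2, intervalIntegral.integral_of_le (by linarith)]
  refine setIntegral_mono_set ?_ ?_ ?_
  · exact (hg.integrableOn_Icc).mono_set Ioc_subset_Icc_self
  · exact Eventually.of_forall (fun x => hg0 x)
  · refine HasSubset.Subset.eventuallyLE ?_
    intro x hx
    rw [mem_iUnion₂] at hx
    obtain ⟨t, ht, hx⟩ := hx
    rw [mem_Ioc] at hx ⊢
    obtain ⟨h3, h4⟩ := hW2 t ht
    exact ⟨by linarith, by linarith⟩

lemma mv (Y : ℕ) (a : ℕ → ℂ) {T0 T : ℝ} (hT : 1 ≤ T) (hY : 1 ≤ Y) :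
    ∫ t in (T0 - 1 / 2)..(T0 + T + 1 / 2), ‖Dp Y a t‖ ^ 2 ≤
      6 * (1 + Real.log Y) * (T + Y) * ∑ n ∈ Finset.Icc 1 Y, ‖a n‖ ^ 2 := by
  have hl := one_le_l hY
  have h1 := Pool.Agent.Work.MP_37bd4f_nt.mean_value Y a
    (T1 := T0 - 1 / 2) (T2 := T0 + T + 1 / 2) (by linarith)
  have h2 : ∑ n ∈ Finset.Icc 1 Y, (n : ℝ) * ‖a n‖ ^ 2 ≤ Y * ∑ n ∈ Finset.Icc 1 Y, ‖a n‖ ^ 2 := by
    rw [Finset.mul_sum]
    refine Finset.sum_le_sum (fun n hn => ?_)
    have : (n : ℝ) ≤ Y := by exact_mod_cast (Finset.mem_Icc.mp hn).2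
    gcongr
  have h3 := Pool.Agent.Work.MP_37bd4f_nt.Hs_le Y
  have h4 := Pool.Agent.Work.MP_37bd4f_nt.Hs_nonneg Y
  set A := ∑ n ∈ Finset.Icc 1 Y, ‖a n‖ ^ 2 with hA
  have hA0 : 0 ≤ A := Finset.sum_nonneg (fun n _ => by positivity)
  have hB0 : 0 ≤ ∑ n ∈ Finset.Icc 1 Y, (n : ℝ) * ‖a n‖ ^ 2 :=
    Finset.sum_nonneg (fun n _ => by positivity)
  refine h1.trans ?_
  have h5 : 6 * Pool.Agent.Work.MP_37bd4f_nt.Hs Y * ∑ n ∈ Finset.Icc 1 Y, (n : ℝ) * ‖a n‖ ^ 2 ≤
      6 * (1 + Real.log Y) * (Y * A) := by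
    gcongr
  have h6 : (T0 + T + 1 / 2 - (T0 - 1 / 2)) * A ≤ 6 * (1 + Real.log Y) * (T * A) := by
    have : T0 + T + 1 / 2 - (T0 - 1 / 2) = T + 1 := by ring
    rw [this]
    have h7 : 0 ≤ T * A := by positivity
    nlinarith
  calc _ ≤ 6 * (1 + Real.log Y) * (T * A) + 6 * (1 + Real.log Y) * (Y * A) := add_le_add h6 h5
    _ = _ := by ring

lemma b1_sum {Y : ℕ} (a : ℕ → ℂ) (hY : 1 ≤ Y) :
    ∑ n ∈ Finset.Icc 1 Y, ‖b1 Y a n‖ ^ 2 ≤ ∑ n ∈ Finset.Icc 1 Y, ‖a n‖ ^ 2 := by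
  have hl := one_le_l hY
  refine Finset.sum_le_sum (fun n hn => ?_)
  obtain ⟨h1, h2⟩ := Finset.mem_Icc.mp hn
  have h3 : Real.log n ≤ Real.log Y :=
    Real.log_le_log (by exact_mod_cast h1) (by exact_mod_cast h2)
  have h4 : 0 ≤ Real.log n := Real.log_natCast_nonneg n
  unfold b1
  rw [norm_mul, Complex.norm_real, Real.norm_eq_abs, abs_of_nonneg (by positivity)]
  have h5 : Real.log n / (1 + Real.log Y) ≤ 1 := by
    rw [div_le_one (by linarith)]; linarith
  have h6 : 0 ≤ Real.log n / (1 + Real.log Y) := by positivity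
  have h7 : ‖a n‖ * (Real.log n / (1 + Real.log Y)) ≤ ‖a n‖ :=
    mul_le_of_le_one_right (norm_nonneg _) h5
  gcongr

end Mv_aux

open Mv_aux in
/-- ITEM Mv -/
theorem iMv : StMv := by
  refine ⟨24, by norm_num, ?_, ?_⟩
  · intro T0 T W Y a hT hW hW2 hY
    have hl := one_le_l hY
    have c0 := Dp_cont Y a
    have c1 := Dp_cont Y (b1 Y a)
    have h1 : ∑ t ∈ W, ‖Dp Y a t‖ ^ 2 ≤ ∑ t ∈ W, 2 * (1 + Real.log Y) *
        ∫ u in (-(1 / 2 : ℝ))..(1 / 2), (‖Dp Y a (t + u)‖ ^ 2 + ‖Dp Y (b1 Y a) (t + u)‖ ^ 2) :=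
      Finset.sum_le_sum (fun t _ => part2 t a hY)
    rw [← Finset.mul_sum] at h1
    have h2 := sum_int_le (g := fun x => ‖Dp Y a x‖ ^ 2 + ‖Dp Y (b1 Y a) x‖ ^ 2) (T0 := T0) (T := T)
      (W := W) (by fun_prop) (fun x => by positivity) (by linarith) hW hW2
    rw [intervalIntegral.integral_add (by apply Continuous.intervalIntegrable; fun_prop)
      (by apply Continuous.intervalIntegrable; fun_prop)] at h2
    have h3 := mv Y a (T0 := T0) hT hY
    have h4 := mv Y (b1 Y a) (T0 := T0) hT hY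
    have h5 := b1_sum a hY
    set A := ∑ n ∈ Finset.Icc 1 Y, ‖a n‖ ^ 2 with hA
    have h6 : 6 * (1 + Real.log Y) * (T + Y) * ∑ n ∈ Finset.Icc 1 Y, ‖b1 Y a n‖ ^ 2 ≤
        6 * (1 + Real.log Y) * (T + Y) * A := by
      gcongr
    calc ∑ t ∈ W, ‖Dp Y a t‖ ^ 2 ≤ 2 * (1 + Real.log Y) * _ := h1
      _ ≤ 2 * (1 + Real.log Y) * (6 * (1 + Real.log Y) * (T + Y) * A +
          6 * (1 + Real.log Y) * (T + Y) * A) := by
        gcongr
        exact h2.trans (add_le_add h3 (h4.trans h6))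
      _ = 24 * (1 + Real.log Y) ^ 2 * (T + Y) * A := by ring
  · intro t Y a hY
    have hl := one_le_l hY
    refine (part2 t a hY).trans ?_
    have h0 : 0 ≤ ∫ u in (-(1 / 2 : ℝ))..(1 / 2),
        (‖Dp Y a (t + u)‖ ^ 2 + ‖Dp Y (b1 Y a) (t + u)‖ ^ 2) :=
      intervalIntegral.integral_nonneg (by norm_num) (fun u _ => by positivity)
    have h1 : 2 * (1 + Real.log Y) ≤ 24 * (1 + Real.log Y) := by linarith
    exact mul_le_mul_of_nonneg_right h1 h0

end Pool.Agent.Work.MP_56b8f5_nt.UC
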